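import Mathlib

/-!
# Tsen's theorem for quadratic forms, norm surjectivity

Port of `Sm/Tsen.lean` (cubic forms): redo `tsen_poly`, `Tsen_rat`, `tsen_ext` with two indices instead of
three (`2 * card κ < card ι`), then the form `N(x) - a z ^ 2` in three variables.

Hints.
* `exists_common_zero`: if the only common zero is the origin, the Nullstellensatz makes the maximal
  ideal `(X_1, ..., X_n)` the radical of, so a minimal prime over, the span of `r` elements; Krull's
  height theorem (`Ideal.height_le_spanRank_toENat_of_mem_minimal_primes` and relatives) bounds its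
  height by `r`, while it has height `n` (`MvPolynomial.ringKrullDim_of_isNoetherianRing`, or the
  chain of kernels of evaluations at zero).
-/

namespace Pool.Agent.Quad

open Polynomial

variable {𝕜 : Type} [Field 𝕜] [IsAlgClosed 𝕜]

/-- killing the variables in `S` -/
noncomputable def Tsen_kill {ι : Type} [DecidableEq ι] (K : Type) [Field K] (S : Finset ι) :
    MvPolynomial ι K →ₐ[K] MvPolynomial ι K :=
  MvPolynomial.aeval fun i => if i ∈ S then 0 else MvPolynomial.X i

theorem Tsen_height {ι : Type} [DecidableEq ι] (K : Type) [Field K] (S : Finset ι) :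
    (S.card : ℕ∞) ≤ (RingHom.ker (Tsen_kill K S)).height := by
  induction S using Finset.induction_on with
  | empty => simp
  | insert i S hi ih =>
    have h1 : (RingHom.ker (Tsen_kill K S)).IsPrime := RingHom.ker_isPrime _
    have h2 : (RingHom.ker (Tsen_kill K (insert i S))).IsPrime := RingHom.ker_isPrime _
    have e : (Tsen_kill K (insert i S)).comp (Tsen_kill K S) = Tsen_kill K (insert i S) := by
      refine MvPolynomial.algHom_ext fun j => ?_
      by_cases hj : j ∈ S <;> simp [Tsen_kill, hj]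
    have hlt : RingHom.ker (Tsen_kill K S) < RingHom.ker (Tsen_kill K (insert i S)) := by
      refine lt_of_le_of_ne (fun p hp => ?_) fun h => ?_
      · rw [RingHom.mem_ker] at hp ⊢
        rw [← e, AlgHom.comp_apply, hp, map_zero]
      · have : MvPolynomial.X i ∈ RingHom.ker (Tsen_kill K S) := by
          rw [h, RingHom.mem_ker]
          simp [Tsen_kill]
        rw [RingHom.mem_ker] at this
        simp [Tsen_kill, hi] at this
    rw [Finset.card_insert_of_notMem hi, Nat.cast_add, Nat.cast_one]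
    exact (add_le_add_left ih 1).trans (Ideal.height_add_one_le_of_lt_of_isPrime hlt)

theorem exists_common_zero {ι κ : Type} [Fintype ι] [Fintype κ]
    (h : Fintype.card κ < Fintype.card ι) (f : κ → MvPolynomial ι 𝕜)
    (hf : ∀ j, MvPolynomial.eval 0 (f j) = 0) :
    ∃ x : ι → 𝕜, x ≠ 0 ∧ ∀ j, MvPolynomial.eval x (f j) = 0 := by
  classical
  by_contra hc
  push Not at hc
  obtain ⟨I, hI⟩ : ∃ I : Ideal (MvPolynomial ι 𝕜), I = Ideal.span (Finset.univ.image f : Finset _) :=
    ⟨_, rfl⟩
  have hZ : MvPolynomial.zeroLocus 𝕜 I = {0} := by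
    rw [hI, MvPolynomial.zeroLocus_span]
    ext x
    simp only [Finset.coe_image, Finset.coe_univ, Set.image_univ, Set.forall_mem_range,
      Set.mem_singleton_iff, Set.mem_ofPred_eq]
    constructor
    · intro hx
      by_contra h0
      obtain ⟨j, hj⟩ := hc x h0
      exact hj (hx j)
    · rintro rfl
      exact hf
  have hR := MvPolynomial.vanishingIdeal_zeroLocus_eq_radical (K := 𝕜) I
  rw [hZ] at hR
  have hP : I.radical.IsPrime := by
    rw [← hR]
    infer_instance
  have hmin : I.radical ∈ (Ideal.span (Finset.univ.image f : Finset _)).minimalPrimes := by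
    rw [← hI, ← Ideal.radical_minimalPrimes, Ideal.minimalPrimes_eq_subsingleton_self]
    rfl
  have h1 := Ideal.height_le_card_of_mem_minimalPrimes_span_finset hmin
  have h2 : RingHom.ker (Tsen_kill 𝕜 (Finset.univ : Finset ι)) ≤ I.radical := fun p hp => by
    rw [← hR, MvPolynomial.mem_vanishingIdeal_singleton_iff]
    rw [RingHom.mem_ker] at hp
    have e : (MvPolynomial.aeval (0 : ι → 𝕜)).comp (Tsen_kill 𝕜 (Finset.univ : Finset ι)) =
        MvPolynomial.aeval (0 : ι → 𝕜) := by
      refine MvPolynomial.algHom_ext fun j => ?_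
      simp [Tsen_kill]
    rw [← e, AlgHom.comp_apply, hp, map_zero]
  have h3 := (Tsen_height 𝕜 (Finset.univ : Finset ι)).trans ((Ideal.height_mono h2).trans h1)
  have h4 : (Finset.univ : Finset ι).card ≤ (Finset.univ.image f).card := by exact_mod_cast h3
  have h5 := Finset.card_image_le (s := Finset.univ) (f := f)
  rw [Finset.card_univ] at h4 h5
  omega

theorem tsen_poly {ι κ : Type} [Fintype ι] [Fintype κ] (h : 2 * Fintype.card κ < Fintype.card ι)
    (c : κ → ι → ι → 𝕜[X]) :
    ∃ x : ι → 𝕜[X], x ≠ 0 ∧ ∀ j, ∑ a, ∑ b, c j a b * x a * x b = 0 := by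
  classical
  obtain ⟨D, hD⟩ : ∃ D : ℕ, ∀ j a b, (c j a b).natDegree ≤ D :=
    ⟨Finset.univ.sup fun i : κ × ι × ι => (c i.1 i.2.1 i.2.2).natDegree,
      fun j a b => Finset.le_sup (f := fun i : κ × ι × ι =>
        (c i.1 i.2.1 i.2.2).natDegree) (Finset.mem_univ (j, a, b))⟩
  obtain ⟨m, hm⟩ : ∃ m, m = Fintype.card κ * D := ⟨_, rfl⟩
  obtain ⟨P, hP⟩ : ∃ P : (ι × Fin (m + 1) → 𝕜) → ι → 𝕜[X],
      ∀ y a, P y a = ∑ i : Fin (m + 1), monomial i (y (a, i)) := ⟨_, fun _ _ => rfl⟩
  obtain ⟨G, hG⟩ : ∃ G : ι → (MvPolynomial (ι × Fin (m + 1)) 𝕜)[X],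
      ∀ a, G a = ∑ i : Fin (m + 1), monomial i (MvPolynomial.X (a, i)) := ⟨_, fun _ => rfl⟩
  have hGP : ∀ y a, (G a).map (MvPolynomial.eval y) = P y a := fun y a => by
    rw [hG, hP, Polynomial.map_sum]
    simp
  obtain ⟨F, hF⟩ : ∃ F : κ → (MvPolynomial (ι × Fin (m + 1)) 𝕜)[X],
      ∀ j, F j = ∑ a, ∑ b, (c j a b).map MvPolynomial.C * G a * G b :=
    ⟨_, fun _ => rfl⟩
  have hFP : ∀ y j l, MvPolynomial.eval y ((F j).coeff l) =
      (∑ a, ∑ b, c j a b * P y a * P y b).coeff l := fun y j l => by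
    have e : (MvPolynomial.eval y).comp (MvPolynomial.C : 𝕜 →+* _) = RingHom.id 𝕜 := by
      ext z
      simp
    rw [← coeff_map, hF]
    simp only [Polynomial.map_sum, Polynomial.map_mul, hGP, Polynomial.map_map, e, Polynomial.map_id]
  have hdeg : ∀ y a, (P y a).natDegree ≤ m := fun y a => by
    rw [hP]
    exact natDegree_sum_le_of_forall_le _ _ fun i _ =>
      (natDegree_monomial_le _).trans (Nat.lt_succ_iff.1 i.2)
  have hco : ∀ y a (i : Fin (m + 1)), (P y a).coeff i = y (a, i) := fun y a i => by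
    rw [hP, finsetSum_coeff, Finset.sum_eq_single i]
    · simp
    · intro i' _ hi
      rw [coeff_monomial, if_neg fun h' => hi (Fin.ext h')]
    · simp
  obtain ⟨y, hy0, hy⟩ := exists_common_zero (ι := ι × Fin (m + 1)) (κ := κ × Fin (D + 2 * m + 1))
    (by
      simp only [Fintype.card_prod, Fintype.card_fin]
      have := Nat.mul_le_mul_right (m + 1) (Nat.succ_le_of_lt h)
      nlinarith)
    (fun i => (F i.1).coeff i.2)
    (fun i => by
      have : ∀ a, P 0 a = 0 := fun a => by simp [hP]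
      rw [hFP]
      simp [this])
  refine ⟨P y, fun h0 => hy0 ?_, fun j => ?_⟩
  · funext i
    rw [← hco y i.1 i.2, h0]
    simp
  · have hd : (∑ a, ∑ b, c j a b * P y a * P y b).natDegree ≤ D + 2 * m := by
      refine natDegree_sum_le_of_forall_le _ _ fun a _ => natDegree_sum_le_of_forall_le _ _
        fun b _ => ?_
      have h2 := natDegree_mul_le (p := c j a b * P y a) (q := P y b)
      have h3 := natDegree_mul_le (p := c j a b) (q := P y a)
      have := hD j a b
      have := hdeg y a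
      have := hdeg y b
      omega
    ext l
    rw [coeff_zero]
    by_cases hl : l < D + 2 * m + 1
    · rw [← hFP]
      exact hy (j, ⟨l, hl⟩)
    · exact coeff_eq_zero_of_natDegree_lt (by omega)

theorem Tsen_rat {ι κ : Type} [Fintype ι] [Fintype κ] (h : 2 * Fintype.card κ < Fintype.card ι)
    (c : κ → ι → ι → RatFunc 𝕜) :
    ∃ x : ι → RatFunc 𝕜, x ≠ 0 ∧ ∀ j, ∑ a, ∑ b, c j a b * x a * x b = 0 := by
  obtain ⟨q, hq⟩ := IsLocalization.exist_integer_multiples_of_finite (nonZeroDivisors 𝕜[X])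
    (fun i : κ × ι × ι => c i.1 i.2.1 i.2.2)
  choose c' hc' using hq
  obtain ⟨x, hx0, hx⟩ := tsen_poly h fun j a b => c' (j, a, b)
  have hinj : Function.Injective (algebraMap 𝕜[X] (RatFunc 𝕜)) := IsFractionRing.injective _ _
  refine ⟨fun a => algebraMap 𝕜[X] (RatFunc 𝕜) (x a), fun h0 => hx0 ?_, fun j => ?_⟩
  · funext a
    exact hinj ((congrFun h0 a).trans (map_zero _).symm)
  · have hq0 : algebraMap 𝕜[X] (RatFunc 𝕜) q ≠ 0 :=
      (map_ne_zero_iff _ hinj).2 (nonZeroDivisors.coe_ne_zero q)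
    refine (mul_eq_zero_iff_left hq0).1 ?_
    have := congrArg (algebraMap 𝕜[X] (RatFunc 𝕜)) (hx j)
    simp only [map_sum, map_mul, map_zero, hc', Algebra.smul_def] at this
    rw [← this]
    simp only [Finset.mul_sum, mul_assoc]

theorem tsen_ext {M : Type} [Field M] [Algebra (RatFunc 𝕜) M] [FiniteDimensional (RatFunc 𝕜) M]
    {ι : Type} [Fintype ι] (h : 2 < Fintype.card ι) (c : ι → ι → M) :
    ∃ x : ι → M, x ≠ 0 ∧ ∑ a, ∑ b, c a b * x a * x b = 0 := by
  obtain ⟨N, hN⟩ : ∃ N, N = Module.finrank (RatFunc 𝕜) M := ⟨_, rfl⟩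
  have hN0 : 0 < N := hN ▸ Module.finrank_pos
  have e : Module.Basis (Fin N) (RatFunc 𝕜) M := Module.finBasisOfFinrankEq _ _ hN.symm
  obtain ⟨y, hy0, hy⟩ := Tsen_rat (𝕜 := 𝕜) (ι := ι × Fin N) (κ := Fin N)
    (by
      simp only [Fintype.card_prod, Fintype.card_fin]
      exact Nat.mul_lt_mul_of_pos_right h hN0)
    (fun j a b => e.repr (c a.1 b.1 * e a.2 * e b.2) j)
  refine ⟨fun a => ∑ s, y (a, s) • e s, fun h0 => hy0 ?_, ?_⟩
  · funext i
    exact Fintype.linearIndependent_iff.1 e.linearIndependent _ (congrFun h0 i.1) i.2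
  · have key : ∑ a, ∑ b, c a b * (∑ s, y (a, s) • e s) * (∑ s, y (b, s) • e s) =
        ∑ a : ι × Fin N, ∑ b : ι × Fin N, (y a * y b) • (c a.1 b.1 * e a.2 * e b.2) := by
      simp only [Fintype.sum_prod_type]
      refine Finset.sum_congr rfl fun a _ => ?_
      refine Eq.trans ?_ Finset.sum_comm
      refine Finset.sum_congr rfl fun b _ => ?_
      rw [Finset.mul_sum _ _ (c a b), Finset.sum_mul]
      refine Finset.sum_congr rfl fun s _ => ?_
      rw [Finset.mul_sum]
      refine Finset.sum_congr rfl fun t _ => ?_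
      simp only [Algebra.smul_def, map_mul]
      ring
    rw [key]
    refine e.ext_elem fun j => ?_
    rw [map_zero, Finsupp.zero_apply, ← hy j]
    simp only [map_sum, map_smul, Finsupp.finsetSum_apply, Finsupp.smul_apply, smul_eq_mul]
    refine Finset.sum_congr rfl fun a _ => Finset.sum_congr rfl fun b _ => ?_
    ring

theorem norm_surj {M M' : Type} [Field M] [Algebra (RatFunc 𝕜) M]
    [FiniteDimensional (RatFunc 𝕜) M] [Field M'] [Algebra M M'] [IsGalois M M']
    (h2 : Module.finrank M M' = 2) (a : M) : ∃ x : M', Algebra.norm M x = a := by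
  have : FiniteDimensional M M' := Module.finite_of_finrank_pos (by omega)
  have e : Module.Basis (Fin 2) M M' := Module.finBasisOfFinrankEq _ _ h2
  obtain ⟨A, hA⟩ : ∃ A : Option (Fin 2) → Matrix (Fin 2) (Fin 2) M,
      A = fun o => o.elim 0 fun i => Algebra.leftMulMatrix e (e i) := ⟨_, rfl⟩
  obtain ⟨δ, hδ⟩ : ∃ δ : Option (Fin 2) → M, δ = fun o => o.elim 1 fun _ => 0 := ⟨_, rfl⟩
  obtain ⟨y, hy0, hy⟩ := tsen_ext (𝕜 := 𝕜) (M := M) (ι := Option (Fin 2)) (by simp)
    (fun p q => A p 0 0 * A q 1 1 - A p 0 1 * A q 1 0 - a * δ p * δ q)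
  have hn : Algebra.norm M (∑ i, y (some i) • e i) = a * y none ^ 2 := by
    rw [Algebra.norm_eq_matrix_det e, map_sum, Matrix.det_fin_two]
    simp only [hA, hδ, Fintype.sum_option, Fin.sum_univ_two, Option.elim_none, Option.elim_some,
      Matrix.zero_apply] at hy
    simp only [Fin.sum_univ_two, map_smul, Matrix.add_apply, Matrix.smul_apply, smul_eq_mul]
    linear_combination hy
  have hz : y none ≠ 0 := fun h0 => by
    rw [h0, zero_pow two_ne_zero, mul_zero, Algebra.norm_eq_zero_iff] at hn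
    refine hy0 (funext fun o => ?_)
    cases o with
    | none => exact h0
    | some i => exact Fintype.linearIndependent_iff.1 e.linearIndependent _ hn i
  refine ⟨algebraMap M M' (y none)⁻¹ * ∑ i, y (some i) • e i, ?_⟩
  rw [map_mul, Algebra.norm_algebraMap, hn, h2]
  field_simp

end Pool.Agent.Quad
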