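import Pool.Agent.Work.MP_60d5ce_nt.Qt.EllV

/-!
# The curve `y ^ 2 = x ^ 3 + a x + b`: doubling, halving, two-torsion

Template: `../Sm/EllA.lean`.  Hints.
* `exists_rt`: `exists_root_of_derivative` gives a root `e1` of the cubic (the derivative has leading
  coefficient three); `e2, e3 = (-e1 ± s) / 2` with `s ^ 2 = -3 e1 ^ 2 - 4 a` (`exists_sqrt`).
* `two_smul`: `two_nsmul`, `Point.add_self_of_Y_ne`, the slope is `(3 x ^ 2 + a) / (2 y)`.
* `half_of_sqrt`: with `x = X + r1 r2 + r1 r3 + r2 r3` one has `x - e1 = (r1 + r2) (r1 + r3)` and so on,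
  `ri + rj ≠ 0` because `ri ^ 2 - rj ^ 2 = ej - ei ≠ 0`; the slope of the tangent is `-(r1 + r2 + r3)`.
* `half_sl`: `P = (x, y)`, `y ≠ 0`, the tangent at `P` passes through `(e1, 0)`, so
  `(x - e1) ^ 2 = (e1 - e2) (e1 - e3)`; then `y ^ 2 = (x - e1) (x - e2) (x - e3)` gives the first claim.
  `P + tp e1 = -P` because `4 P = 0`.  The line through `P` and `tp e3` contains `-(P + tp e3)`, so
  `sl e3 (P + tp e3) = - sl e3 P`; finally `P + tp e2 = -(P + tp e3)`.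
-/

namespace Pool.Agent.Quad

open WeierstrassCurve WeierstrassCurve.Affine

noncomputable section

variable {Λ : Type} [Field Λ]

/-- short Weierstrass equations in characteristic prime to six -/
structure SW (C : Affine Λ) : Prop where
  a1 : C.a₁ = 0
  a2 : C.a₂ = 0
  a3 : C.a₃ = 0
  disc : 4 * C.a₄ ^ 3 + 27 * C.a₆ ^ 2 ≠ 0
  six : (6 : Λ) ≠ 0

/-- the three roots of the cubic -/
structure Rt (C : Affine Λ) (e1 e2 e3 : Λ) : Prop where
  sw : SW C
  s1 : e1 + e2 + e3 = 0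
  s2 : e1 * e2 + e1 * e3 + e2 * e3 = C.a₄
  s3 : e1 * e2 * e3 = -C.a₆

open Classical in
/-- the point `(e, 0)` -/
def tp (C : Affine Λ) (e : Λ) : C.Point := if h : C.Nonsingular e 0 then .some e 0 h else 0

variable {C : Affine Λ} {e1 e2 e3 : Λ}

/-- the first coordinate -/
def xc : C.Point → Λ
  | .zero => 0
  | .some x _ _ => x

/-- the slope of the line through `(e, 0)` -/
def sl (e : Λ) : C.Point → Λ
  | .zero => 0
  | .some x y _ => y / (x - e)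

theorem SW.two (h : SW C) : (2 : Λ) ≠ 0 := fun h0 => h.six (by linear_combination 3 * h0)

theorem SW.three (h : SW C) : (3 : Λ) ≠ 0 := fun h0 => h.six (by linear_combination 2 * h0)

theorem SW.Δ_eq (h : SW C) : C.Δ = -16 * (4 * C.a₄ ^ 3 + 27 * C.a₆ ^ 2) := by
  simp only [WeierstrassCurve.Δ, b₂, b₄, b₆, b₈, h.a1, h.a2, h.a3]
  ring

theorem SW.Δ_ne (h : SW C) : C.Δ ≠ 0 := by
  rw [h.Δ_eq]
  refine mul_ne_zero (fun h0 => pow_ne_zero 4 h.two ?_) h.disc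
  linear_combination -h0

theorem SW.equation_iff (h : SW C) (x y : Λ) :
    C.Equation x y ↔ y ^ 2 = x ^ 3 + C.a₄ * x + C.a₆ := by
  rw [Affine.equation_iff, h.a1, h.a2, h.a3]
  simp only [zero_mul, add_zero]

theorem SW.nonsing (h : SW C) {x y : Λ} (he : y ^ 2 = x ^ 3 + C.a₄ * x + C.a₆) :
    C.Nonsingular x y :=
  (equation_iff_nonsingular_of_Δ_ne_zero h.Δ_ne).1 ((h.equation_iff x y).2 he)

theorem SW.eqn (h : SW C) {x y : Λ} (hn : C.Nonsingular x y) :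
    y ^ 2 = x ^ 3 + C.a₄ * x + C.a₆ := (h.equation_iff x y).1 hn.1

theorem SW.negY_eq (h : SW C) (x y : Λ) : C.negY x y = -y := by
  rw [negY, h.a1, h.a3]
  ring

theorem EllA_congr {x y x' y' : Λ} (hn : C.Nonsingular x y) (hx : x = x') (hy : y = y') :
    ∃ hn', (Point.some x y hn : C.Point) = Point.some x' y' hn' := by
  subst hx hy
  exact ⟨hn, rfl⟩

theorem SW.neg_some (h : SW C) {x y : Λ} (hn : C.Nonsingular x y) :
    ∃ hn', -(Point.some x y hn : C.Point) = Point.some x (-y) hn' := by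
  rw [Point.neg_some]
  exact EllA_congr _ rfl (h.negY_eq x y)

theorem xc_neg (P : C.Point) : xc (-P) = xc P := by
  rcases P with _ | ⟨x, y, hn⟩ <;> rfl

theorem tp_eq {e : Λ} (hn : C.Nonsingular e 0) : tp C e = Point.some e 0 hn := dif_pos hn

theorem Rt.swap12 (h : Rt C e1 e2 e3) : Rt C e2 e1 e3 :=
  ⟨h.sw, by linear_combination h.s1, by linear_combination h.s2, by linear_combination h.s3⟩

theorem Rt.swap23 (h : Rt C e1 e2 e3) : Rt C e1 e3 e2 :=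
  ⟨h.sw, by linear_combination h.s1, by linear_combination h.s2, by linear_combination h.s3⟩

theorem Rt.rot (h : Rt C e1 e2 e3) : Rt C e2 e3 e1 := h.swap12.swap23

theorem Rt.factor (h : Rt C e1 e2 e3) (x : Λ) :
    x ^ 3 + C.a₄ * x + C.a₆ = (x - e1) * (x - e2) * (x - e3) := by
  linear_combination x ^ 2 * h.s1 - x * h.s2 + h.s3

theorem Rt.root (h : Rt C e1 e2 e3) : e1 ^ 3 + C.a₄ * e1 + C.a₆ = 0 := by
  rw [h.factor]
  ring

theorem Rt.disc_eq (h : Rt C e1 e2 e3) :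
    ((e1 - e2) * (e1 - e3) * (e2 - e3)) ^ 2 = -(4 * C.a₄ ^ 3 + 27 * C.a₆ ^ 2) := by
  have h3 : e3 = -e1 - e2 := by linear_combination h.s1
  have h6 : C.a₆ = -(e1 * e2 * e3) := by linear_combination h.s3
  rw [← h.s2, h6, h3]
  ring

theorem Rt.ne12 (h : Rt C e1 e2 e3) : e1 ≠ e2 := fun h0 => h.sw.disc (by
  have := h.disc_eq
  rw [h0] at this
  linear_combination this)

theorem Rt.ne13 (h : Rt C e1 e2 e3) : e1 ≠ e3 := h.swap23.ne12

theorem Rt.ne23 (h : Rt C e1 e2 e3) : e2 ≠ e3 := h.rot.ne12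

theorem Rt.nonsing (h : Rt C e1 e2 e3) : C.Nonsingular e1 0 :=
  h.sw.nonsing (by rw [h.root]; ring)

theorem Rt.xc_tp (h : Rt C e1 e2 e3) : xc (tp C e1) = e1 := by
  rw [tp_eq h.nonsing]
  rfl

theorem Rt.tp_ne (h : Rt C e1 e2 e3) : tp C e1 ≠ 0 := by
  rw [tp_eq h.nonsing]
  exact Point.some_ne_zero _

theorem SW.exists_rt [IsSepClosed Λ] (h : SW C) : ∃ e1 e2 e3, Rt C e1 e2 e3 := by
  obtain ⟨e, he⟩ := exists_root_of_derivative (Λ := Λ) (f := Polynomial.X ^ 3 +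
      Polynomial.C C.a₄ * Polynomial.X + Polynomial.C C.a₆) fun h0 => by
    have h1 := congrArg (fun q : Polynomial Λ => q.coeff 2) h0
    simp only [Polynomial.coeff_derivative, Polynomial.coeff_add, Polynomial.coeff_C_mul,
      Polynomial.coeff_X_pow, Polynomial.coeff_X, Polynomial.coeff_C, Polynomial.coeff_zero] at h1
    refine h.three ?_
    norm_num at h1
    exact h1
  simp only [Polynomial.IsRoot.def, Polynomial.eval_add, Polynomial.eval_mul, Polynomial.eval_C,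
    Polynomial.eval_X, Polynomial.eval_pow] at he
  obtain ⟨s, hs⟩ := exists_sqrt h.two (-3 * e ^ 2 - 4 * C.a₄)
  have h2 : 2 * (2 : Λ)⁻¹ = 1 := mul_inv_cancel₀ h.two
  generalize (2 : Λ)⁻¹ = t at h2
  refine ⟨e, (-e + s) * t, (-e - s) * t, h, ?_, ?_, ?_⟩
  · linear_combination (-e) * h2
  · linear_combination (-t ^ 2) * hs + (-e ^ 2 + (e ^ 2 + C.a₄) * (2 * t + 1)) * h2
  · linear_combination (-e * t ^ 2) * hs + e * (e ^ 2 + C.a₄) * (2 * t + 1) * h2 + he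

variable [DecidableEq Λ]

/-- `s` acts on points through `φ` on coordinates -/
def Compat (s : C.Point →+ C.Point) (φ : Λ →+* Λ) : Prop :=
  ∀ x y h, ∃ h', s (Point.some x y h) = Point.some (φ x) (φ y) h'

theorem Compat.xc_eq {s : C.Point →+ C.Point} {φ : Λ →+* Λ} (hc : Compat s φ) (P : C.Point) :
    xc (s P) = φ (xc P) := by
  rcases P with _ | ⟨x, y, hn⟩
  · rw [← Point.zero_def, map_zero]
    exact (map_zero φ).symm
  · obtain ⟨h', e⟩ := hc x y hn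
    rw [e]
    rfl

theorem Compat.sl_eq {s : C.Point →+ C.Point} {φ : Λ →+* Λ} (hc : Compat s φ) (e : Λ)
    (P : C.Point) : sl (φ e) (s P) = φ (sl e P) := by
  rcases P with _ | ⟨x, y, hn⟩
  · rw [← Point.zero_def, map_zero]
    exact (map_zero φ).symm
  · obtain ⟨h', e'⟩ := hc x y hn
    rw [e']
    change φ y / (φ x - φ e) = φ (y / (x - e))
    rw [map_div₀, map_sub]

theorem SW.EllA_dbl (h : SW C) {x y : Λ} (hn : C.Nonsingular x y) (hy : y ≠ 0) :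
    ∃ l : Λ, l * (2 * y) = 3 * x ^ 2 + C.a₄ ∧ ∃ hn', 2 • (Point.some x y hn : C.Point) =
      Point.some (l ^ 2 - 2 * x) (l * (x - (l ^ 2 - 2 * x)) - y) hn' := by
  have h2 : 2 * y ≠ 0 := mul_ne_zero h.two hy
  have hy' : y ≠ C.negY x y := fun h0 => h2 (by rw [h.negY_eq] at h0; linear_combination h0)
  have hs : C.slope x x y y = (3 * x ^ 2 + C.a₄) / (2 * y) := by
    rw [slope_of_Y_ne rfl hy', h.a2, h.a1, h.negY_eq]
    congr 1 <;> ring
  refine ⟨_, div_mul_cancel₀ _ h2, ?_⟩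
  rw [two_nsmul, Point.add_self_of_Y_ne hy']
  refine EllA_congr _ ?_ ?_
  · rw [hs, addX, h.a1, h.a2]
    ring
  · rw [hs, addY, negAddY, h.negY_eq, addX, h.a1, h.a2]
    ring

theorem SW.EllA_add (h : SW C) {x y x' y' : Λ} (hn : C.Nonsingular x y) (hm : C.Nonsingular x' y')
    (hx : x ≠ x') : ∃ l : Λ, l * (x - x') = y - y' ∧
      ∃ hn', (Point.some x y hn : C.Point) + Point.some x' y' hm =
        Point.some (l ^ 2 - x - x') (l * (x - (l ^ 2 - x - x')) - y) hn' := by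
  refine ⟨_, div_mul_cancel₀ _ (sub_ne_zero.2 hx), ?_⟩
  rw [Point.add_of_X_ne hx]
  refine EllA_congr _ ?_ ?_
  · rw [slope_of_X_ne hx, addX, h.a1, h.a2]
    ring
  · rw [slope_of_X_ne hx, addY, negAddY, h.negY_eq, addX, h.a1, h.a2]
    ring

omit [DecidableEq Λ] in
theorem SW.EllA_sl_neg (h : SW C) (e : Λ) (P : C.Point) : sl e (-P) = -sl e P := by
  rcases P with _ | ⟨x, y, hn⟩
  · exact neg_zero.symm
  · obtain ⟨hn', h1⟩ := h.neg_some hn
    rw [h1]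
    exact neg_div _ _

theorem EllA_mod {A : Type} [AddCommGroup A] {t : A} (h : 2 • t = 0) (a : ℤ) :
    (2 ∣ a ∧ a • t = 0) ∨ a • t = t := by
  have h1 : ∀ k : ℤ, (2 * k) • t = 0 := fun k => by
    rw [mul_comm, mul_smul, show (2 : ℤ) • t = 0 by rw [← h]; exact natCast_zsmul t 2, smul_zero]
  obtain ⟨k, rfl | rfl⟩ : ∃ k, a = 2 * k ∨ a = 2 * k + 1 := ⟨a / 2, by omega⟩
  · exact Or.inl ⟨dvd_mul_right _ _, h1 k⟩
  · exact Or.inr (by rw [add_smul, h1, one_smul, zero_add])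

theorem SW.two_smul_zero (h : SW C) {x y : Λ} (hn : C.Nonsingular x y) :
    2 • (Point.some x y hn : C.Point) = 0 ↔ y = 0 := by
  refine ⟨fun h0 => by_contra fun hy => ?_, fun hy => ?_⟩
  · obtain ⟨l, -, hn', h1⟩ := h.EllA_dbl hn hy
    exact Point.some_ne_zero _ (h1.symm.trans h0)
  · rw [two_nsmul, Point.add_self_of_Y_eq (by rw [h.negY_eq, hy, neg_zero])]

theorem SW.two_smul (h : SW C) {x y : Λ} (hn : C.Nonsingular x y) (hy : y ≠ 0) :
    ∃ y' hn', 2 • (Point.some x y hn : C.Point) =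
      Point.some ((x ^ 4 - 2 * C.a₄ * x ^ 2 - 8 * C.a₆ * x + C.a₄ ^ 2) / (4 * y ^ 2)) y' hn' := by
  obtain ⟨l, hl, hn', h1⟩ := h.EllA_dbl hn hy
  rw [h1]
  refine ⟨_, EllA_congr _ ?_ rfl⟩
  have h4 : 4 * y ^ 2 ≠ 0 := fun h0 =>
    pow_ne_zero 2 (mul_ne_zero h.two hy) (by linear_combination h0)
  rw [eq_div_iff h4]
  linear_combination (l * (2 * y) + 3 * x ^ 2 + C.a₄) * hl - 8 * x * h.eqn hn

theorem Rt.two_tp (h : Rt C e1 e2 e3) : 2 • tp C e1 = 0 := by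
  rw [tp_eq h.nonsing]
  exact (h.sw.two_smul_zero _).2 rfl

theorem Rt.tp_add (h : Rt C e1 e2 e3) : tp C e1 + tp C e2 = tp C e3 := by
  obtain ⟨l, hl, hn', h1⟩ := h.sw.EllA_add h.nonsing h.swap12.nonsing h.ne12
  have h0 : l = 0 := (mul_eq_zero.1 (hl.trans (sub_self _))).resolve_right (sub_ne_zero.2 h.ne12)
  subst h0
  rw [tp_eq h.nonsing, tp_eq h.swap12.nonsing, tp_eq h.rot.rot.nonsing, h1]
  obtain ⟨_, h2⟩ := EllA_congr hn' (x' := e3) (y' := 0) (by linear_combination -h.s1) (by ring)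
  exact h2

theorem Rt.indep (h : Rt C e1 e2 e3) (a b : ℤ) (hab : a • tp C e1 + b • tp C e2 = 0) :
    2 ∣ a ∧ 2 ∣ b := by
  rcases EllA_mod h.two_tp a with ⟨h1, a1⟩ | a1 <;>
    rcases EllA_mod h.swap12.two_tp b with ⟨h2, a2⟩ | a2 <;> rw [a1, a2] at hab
  · exact ⟨h1, h2⟩
  · exact absurd (by simpa using hab) h.swap12.tp_ne
  · exact absurd (by simpa using hab) h.tp_ne
  · exact absurd (h.tp_add.symm.trans hab) h.rot.rot.tp_ne

theorem Rt.span (h : Rt C e1 e2 e3) (P : C.Point) (hP : 2 • P = 0) :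
    ∃ a b : ℤ, P = a • tp C e1 + b • tp C e2 := by
  rcases P with _ | ⟨x, y, hn⟩
  · exact ⟨0, 0, by rw [zero_smul, zero_smul, add_zero]; rfl⟩
  obtain rfl := (h.sw.two_smul_zero hn).1 hP
  have h1 := h.sw.eqn hn
  rw [h.factor, zero_pow two_ne_zero, zero_eq_mul, mul_eq_zero, sub_eq_zero, sub_eq_zero,
    sub_eq_zero] at h1
  rcases h1 with (rfl | rfl) | rfl
  · exact ⟨1, 0, by rw [one_smul, zero_smul, add_zero, tp_eq hn]⟩
  · exact ⟨0, 1, by rw [one_smul, zero_smul, zero_add, tp_eq hn]⟩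
  · exact ⟨1, 1, by rw [one_smul, one_smul, h.tp_add, tp_eq hn]⟩

theorem Rt.half_of_sqrt (h : Rt C e1 e2 e3) {X Y r1 r2 r3 : Λ} (hn : C.Nonsingular X Y)
    (h1 : r1 ^ 2 = X - e1) (h2 : r2 ^ 2 = X - e2) (h3 : r3 ^ 2 = X - e3)
    (hY : r1 * r2 * r3 = -Y) :
    ∃ y hn', 2 • (Point.some (X + r1 * r2 + r1 * r3 + r2 * r3) y hn' : C.Point) =
      Point.some X Y hn := by
  obtain rfl : e1 = X - r1 ^ 2 := by linear_combination h1
  obtain rfl : e2 = X - r2 ^ 2 := by linear_combination h2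
  obtain rfl : e3 = X - r3 ^ 2 := by linear_combination h3
  have n12 : r1 + r2 ≠ 0 := fun h0 => h.ne12 (by linear_combination (r2 - r1) * h0)
  have n13 : r1 + r3 ≠ 0 := fun h0 => h.ne13 (by linear_combination (r3 - r1) * h0)
  have n23 : r2 + r3 ≠ 0 := fun h0 => h.ne23 (by linear_combination (r3 - r2) * h0)
  have hy : -((r1 + r2) * (r1 + r3) * (r2 + r3)) ≠ 0 :=
    neg_ne_zero.2 (mul_ne_zero (mul_ne_zero n12 n13) n23)
  have hm : C.Nonsingular (X + r1 * r2 + r1 * r3 + r2 * r3)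
      (-((r1 + r2) * (r1 + r3) * (r2 + r3))) := h.sw.nonsing (by rw [h.factor]; ring)
  obtain ⟨l, hl, hn', h4⟩ := h.sw.EllA_dbl hm hy
  obtain rfl : l = -(r1 + r2 + r3) := mul_right_cancel₀ (mul_ne_zero h.sw.two hy) (by
    linear_combination hl + 2 * (X + r1 * r2 + r1 * r3 + r2 * r3) * h.s1 - h.s2)
  refine ⟨_, hm, h4.trans ?_⟩
  obtain ⟨_, h5⟩ := EllA_congr hn' (x' := X) (y' := Y) (by linear_combination -h.s1)
    (by linear_combination -hY - (r1 + r2 + r3) * h.s1)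
  exact h5

theorem SW.exists_half [IsSepClosed Λ] (h : SW C) (P : C.Point) : ∃ R, 2 • R = P := by
  rcases P with _ | ⟨X, Y, hn⟩
  · exact ⟨0, smul_zero 2⟩
  obtain ⟨e1, e2, e3, hr⟩ := h.exists_rt
  obtain ⟨r1, h1⟩ := exists_sqrt h.two (X - e1)
  obtain ⟨r2, h2⟩ := exists_sqrt h.two (X - e2)
  obtain ⟨r3, h3⟩ := exists_sqrt h.two (X - e3)
  have h4 : (r1 * r2 * r3) ^ 2 = Y ^ 2 := by
    rw [h.eqn hn, hr.factor, mul_pow, mul_pow, h1, h2, h3]
  rcases sq_eq_sq_iff_eq_or_eq_neg.1 h4 with h5 | h5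
  · obtain ⟨y, hn', h6⟩ := hr.half_of_sqrt (r1 := -r1) hn (by rw [neg_sq, h1]) h2 h3
      (by linear_combination -h5)
    exact ⟨_, h6⟩
  · obtain ⟨y, hn', h6⟩ := hr.half_of_sqrt hn h1 h2 h3 h5
    exact ⟨_, h6⟩

theorem Rt.half_sl (h : Rt C e1 e2 e3) {P : C.Point} (hP : 2 • P = tp C e1) :
    sl e3 P ^ 2 = e1 - e2 ∧ sl e3 (P + tp C e1) = -sl e3 P ∧ sl e3 (P + tp C e2) = sl e3 P := by
  have a1 : P + tp C e1 = -P := by
    rw [eq_neg_iff_add_eq_zero, add_right_comm, ← two_nsmul, hP, ← two_nsmul, h.two_tp]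
  have a2 : P + tp C e2 = -(P + tp C e3) := by
    rw [eq_neg_iff_add_eq_zero, add_add_add_comm, ← two_nsmul, hP, ← add_assoc, h.tp_add,
      ← two_nsmul, h.rot.rot.two_tp]
  have a3 : 2 • (P + tp C e3) ≠ 0 := by
    rw [smul_add, hP, h.rot.rot.two_tp, add_zero]
    exact h.tp_ne
  rw [a1, a2, h.sw.EllA_sl_neg, h.sw.EllA_sl_neg]
  rcases P with _ | ⟨x, y, hn⟩
  · exact absurd (hP.symm.trans (smul_zero 2)) h.tp_ne
  have hy : y ≠ 0 := fun h0 => h.tp_ne (hP.symm.trans ((h.sw.two_smul_zero hn).2 h0))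
  have he := (h.sw.eqn hn).trans (h.factor x)
  have x1 : x - e1 ≠ 0 := fun h0 => pow_ne_zero 2 hy (by rw [he, h0]; ring)
  have x3 : x - e3 ≠ 0 := fun h0 => pow_ne_zero 2 hy (by rw [he, h0]; ring)
  refine ⟨?_, rfl, ?_⟩
  · obtain ⟨l, -, hn', h1⟩ := h.sw.EllA_dbl hn hy
    rw [h1, tp_eq h.nonsing, Point.some.injEq] at hP
    obtain ⟨h2, h3⟩ := hP
    rw [h2] at h3
    have h4 : (2 * x + e1) * (x - e1) = (x - e2) * (x - e3) := mul_left_cancel₀ x1 (by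
      linear_combination he + (l * (x - e1) + y) * h3 - (x - e1) ^ 2 * h2)
    change (y / (x - e3)) ^ 2 = e1 - e2
    rw [div_pow, div_eq_iff (pow_ne_zero 2 x3), he]
    linear_combination (x - e3) * h4 - (x - e3) * (x - e1) * h.s1
  · obtain ⟨l, hl, hn', h1⟩ := h.sw.EllA_add hn h.rot.rot.nonsing (sub_ne_zero.1 x3)
    rw [tp_eq h.rot.rot.nonsing, h1] at a3 ⊢
    have h2 : l * (x - (l ^ 2 - x - e3)) - y = -l * (l ^ 2 - x - e3 - e3) := by
      linear_combination hl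
    have h3 : l ^ 2 - x - e3 - e3 ≠ 0 := fun h0 =>
      a3 ((h.sw.two_smul_zero hn').2 (by rw [h2, h0, mul_zero]))
    change -((l * (x - (l ^ 2 - x - e3)) - y) / (l ^ 2 - x - e3 - e3)) = y / (x - e3)
    rw [h2, mul_div_cancel_right₀ _ h3, neg_neg, eq_div_iff x3, hl, sub_zero]

end

end Pool.Agent.Quad
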