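import Pool.Agent.Work.MP_60d5ce_nt.Qt.EllA

/-!
# The curve over a valued field: the kernel of reduction

Template: `../Sm/EllB.lean` (much shorter here: only doubling is needed).
Weights: `x` has weight two, `y` three, `a₄` four, `a₆` six; `ρ` is the unit of size.  Hints.
* `InE1.two`: `two_smul`; numerator of size `w x ^ 4`, denominator `w y ^ 2 = w x ^ 3`.
* `InE1.div`: `exists_rt`, `half_of_sqrt`; all `ri` have `w ri ^ 2 = w X`; since `w 2 = 1` one of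
  `r1 + r2`, `r1 - r2` has size `w r1`; choose the signs of `r2`, `r3` in this way, then change all three
  signs if necessary; `x - e1 = (r1 + r2) (r1 + r3)` has size `w X`.
* `close`: `4 a ^ 3 + 27 b ^ 2 = (6 a x ^ 2 - 9 b x + 4 a ^ 2) (3 x ^ 2 + a) - (18 a x - 27 b) y ^ 2`.  The slope `l`
  for `P + (-P')` satisfies `l (x - x') = y + y'`, `l (y - y') = x ^ 2 + x x' + x' ^ 2 + a`; if `w l ≤ ρ` then
  `2 y` and `3 x ^ 2 + a` are too small.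
* `sep`: `(y - y') (y + y') = (x - x') (x ^ 2 + x x' + x' ^ 2 + a)`; replace `P'` by `-P'` if necessary, `close`,
  `eq_zero`.  Take `ε = min (w D / ρ ^ 10) ((w D / ρ ^ 9) ^ 2 / ρ ^ 4)`.
-/

namespace Pool.Agent.Quad

open WeierstrassCurve WeierstrassCurve.Affine

noncomputable section

variable {Λ : Type} [Field Λ] {C : Affine Λ}

/-- sizes of the coefficients -/
structure Sz (C : Affine Λ) (w : AbsoluteValue Λ ℝ) (ρ : ℝ) : Prop where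
  na : IsNonarchimedean w
  two : w 2 = 1
  three : w 3 = 1
  pos : 0 < ρ
  a4 : w C.a₄ ≤ ρ ^ 4
  a6 : w C.a₆ ≤ ρ ^ 6

/-- points near the origin of the group -/
def InE1 (w : AbsoluteValue Λ ℝ) (ρ : ℝ) : C.Point → Prop
  | .zero => True
  | .some x _ _ => ρ ^ 2 < w x

variable {w : AbsoluteValue Λ ℝ} {ρ : ℝ}

theorem EllB_cub_le (hs : Sz C w ρ) {x : Λ} (hx : w x ≤ ρ ^ 2) :
    w (x ^ 3 + C.a₄ * x + C.a₆) ≤ ρ ^ 6 := by
  have h1 : w (x * x * x) ≤ ρ ^ 6 := EllB_mulk (EllB_mulk hx hx :) hx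
  have h2 : w (C.a₄ * x) ≤ ρ ^ 6 := EllB_mulk hs.a4 hx
  rw [show x ^ 3 = x * x * x by ring]
  exact EllB_add hs.na (EllB_add hs.na h1 h2) hs.a6

theorem EllB_lt (hρ : 0 < ρ) {u : ℝ} (hu : ρ ^ 2 < u) (k l : ℕ) :
    ρ ^ (2 * (k + 1)) * u ^ l < u ^ (k + 1 + l) := by
  have h0 : 0 < ρ ^ 2 := pow_pos hρ 2
  rw [pow_add u, pow_mul]
  exact mul_lt_mul_of_pos_right (pow_lt_pow_left₀ hu h0.le k.succ_ne_zero)
    (pow_pos (h0.trans hu) l)

theorem EllB_cub_eq (hs : Sz C w ρ) {x : Λ} (hx : ρ ^ 2 < w x) :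
    w (x ^ 3 + C.a₄ * x + C.a₆) = w x ^ 3 := by
  have h1 : w (C.a₄ * x) < w (x ^ 3) := by
    rw [w.map_pow]
    exact (EllB_mul hs.a4 le_rfl).trans_lt (by simpa using EllB_lt hs.pos hx 1 1)
  have h2 : w C.a₆ < w (x ^ 3) := by
    rw [w.map_pow]
    exact hs.a6.trans_lt (by simpa using EllB_lt hs.pos hx 2 0)
  rw [add_assoc, EllB_eq hs.na (EllB_addl hs.na h1 h2), w.map_pow]

theorem SW.w_y_le (h : SW C) (hs : Sz C w ρ) {x y : Λ} (hn : C.Nonsingular x y)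
    (hx : w x ≤ ρ ^ 2) : w y ≤ ρ ^ 3 := by
  have h1 := EllB_cub_le hs hx
  rw [← h.eqn hn, w.map_pow, show ρ ^ 6 = (ρ ^ 3) ^ 2 by ring] at h1
  exact le_of_pow_le_pow_left₀ two_ne_zero (pow_pos hs.pos 3).le h1

theorem SW.w_y_sq (h : SW C) (hs : Sz C w ρ) {x y : Λ} (hn : C.Nonsingular x y)
    (hx : ρ ^ 2 < w x) : w y ^ 2 = w x ^ 3 := by
  rw [← EllB_cub_eq hs hx, ← h.eqn hn, w.map_pow]

theorem Sz.w_root_le (hs : Sz C w ρ) {e : Λ} (he : e ^ 3 + C.a₄ * e + C.a₆ = 0) :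
    w e ≤ ρ ^ 2 := by
  refine not_lt.1 fun hx => ?_
  have h1 := EllB_cub_eq hs hx
  rw [he, w.map_zero] at h1
  exact absurd h1 (pow_pos ((pow_pos hs.pos 2).trans hx) 3).ne

theorem EllB_y_ne (h : SW C) (hs : Sz C w ρ) {x y : Λ} (hn : C.Nonsingular x y)
    (hx : ρ ^ 2 < w x) : y ≠ 0 := fun hy => by
  have h1 := h.w_y_sq hs hn hx
  rw [hy, w.map_zero, zero_pow two_ne_zero] at h1
  exact absurd h1 (pow_pos ((pow_pos hs.pos 2).trans hx) 3).ne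

theorem EllB_sign (hs : Sz C w ρ) {r s : Λ} (hrs : w s ^ 2 = w r ^ 2) :
    ∃ t : Λ, t ^ 2 = s ^ 2 ∧ w (r + t) = w r := by
  have h0 : w s = w r := (pow_left_inj₀ (w.nonneg _) (w.nonneg _) two_ne_zero).1 hrs
  have h1 : w (r + s) ≤ w r := EllB_add hs.na le_rfl h0.le
  have h2 : w (r + -s) ≤ w r := EllB_add hs.na le_rfl (by rw [w.map_neg, h0])
  rcases h1.eq_or_lt with e | h1
  · exact ⟨s, rfl, e⟩
  rcases h2.eq_or_lt with e | h2
  · exact ⟨-s, neg_sq s, e⟩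
  have h3 := EllB_addl hs.na h1 h2
  rw [show r + s + (r + -s) = 2 * r by ring, w.map_mul, hs.two, one_mul] at h3
  exact absurd h3 (lt_irrefl _)

theorem EllB_disc (h : SW C) (hs : Sz C w ρ) {x y : Λ} (hn : C.Nonsingular x y)
    (hx : w x ≤ ρ ^ 2) (h1 : w (2 * y) * ρ ^ 9 < w (4 * C.a₄ ^ 3 + 27 * C.a₆ ^ 2))
    (h2 : w (3 * x ^ 2 + C.a₄) * ρ ^ 8 < w (4 * C.a₄ ^ 3 + 27 * C.a₆ ^ 2)) : False := by
  have na := hs.na
  have hy := h.w_y_le hs hn hx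
  rw [w.map_mul, hs.two, one_mul] at h1
  have a1 : w (C.a₄ * x) ≤ ρ ^ 6 := EllB_mulk hs.a4 hx
  have a2 : w (C.a₄ * x * x) ≤ ρ ^ 8 := EllB_mulk a1 hx
  have a3 : w (C.a₆ * x) ≤ ρ ^ 8 := EllB_mulk hs.a6 hx
  have a4 : w (C.a₄ * C.a₄) ≤ ρ ^ 8 := EllB_mulk hs.a4 hs.a4
  have hA := EllB_add na (EllB_sub na (EllB_num na 6 a2) (EllB_num na 9 a3)) (EllB_num na 4 a4)
  have hB : w ((18 * (C.a₄ * x) - 27 * C.a₆) * y) ≤ ρ ^ 9 :=
    EllB_mulk (EllB_sub na (EllB_num na 18 a1) (EllB_num na 27 hs.a6)) hy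
  have h3 := EllB_subl na ((EllB_mul le_rfl hA).trans_lt h2) ((EllB_mul le_rfl hB).trans_lt h1)
  have e : (3 * x ^ 2 + C.a₄) * (6 * (C.a₄ * x * x) - 9 * (C.a₆ * x) + 4 * (C.a₄ * C.a₄)) -
      y * ((18 * (C.a₄ * x) - 27 * C.a₆) * y) = 4 * C.a₄ ^ 3 + 27 * C.a₆ ^ 2 := by
    linear_combination -(18 * (C.a₄ * x) - 27 * C.a₆) * h.eqn hn
  rw [e] at h3
  exact lt_irrefl _ h3

theorem EllB_big (na : IsNonarchimedean w) (hρ : 0 < ρ) {l x x' : Λ} (hl : ρ < w l)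
    (hx : w x ≤ ρ ^ 2) (hx' : w x' ≤ ρ ^ 2) : ρ ^ 2 < w (l ^ 2 - (x + x')) := by
  have h0 : ρ ^ 2 < w (l ^ 2) := by
    rw [w.map_pow]
    exact pow_lt_pow_left₀ hl hρ.le two_ne_zero
  rwa [EllC.sub_eq na ((EllB_add na hx hx').trans_lt h0)]

theorem InE1.zero : InE1 w ρ (0 : C.Point) := by
  trivial

theorem InE1.neg {P : C.Point} (hP : InE1 w ρ P) : InE1 w ρ (-P) := by
  rcases P with _ | ⟨x, y, hn⟩
  · exact hP
  · exact hP

variable [DecidableEq Λ]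

theorem InE1.two (h : SW C) (hs : Sz C w ρ) {P : C.Point} (hP : InE1 w ρ P) :
    InE1 w ρ (2 • P) := by
  rcases P with _ | ⟨x, y, hn⟩
  · rw [← Point.zero_def, nsmul_zero]
    exact InE1.zero
  have hx : ρ ^ 2 < w x := hP
  have na := hs.na
  obtain ⟨y', hn', e⟩ := h.two_smul hn (EllB_y_ne h hs hn hx)
  rw [e]
  have h1 : w (2 * (C.a₄ * x ^ 2)) < w (x ^ 4) := by
    refine (EllB_num na 2 (EllB_mul hs.a4 le_rfl)).trans_lt ?_
    rw [w.map_pow, w.map_pow]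
    exact EllB_lt hs.pos hx 1 2
  have h2 : w (8 * (C.a₆ * x)) < w (x ^ 4) := by
    refine (EllB_num na 8 (EllB_mul hs.a6 le_rfl)).trans_lt ?_
    rw [w.map_pow]
    simpa using EllB_lt hs.pos hx 2 1
  have h3 : w (C.a₄ * C.a₄) < w (x ^ 4) := by
    refine (EllB_mulk hs.a4 hs.a4).trans_lt ?_
    rw [w.map_pow]
    simpa using EllB_lt hs.pos hx 3 0
  have h4 := EllC.sub_eq na (EllB_subl na (EllB_addl na h1 h2) h3)
  have h5 : w x ≠ 0 := ((pow_pos hs.pos 2).trans hx).ne'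
  change ρ ^ 2 < w (_ / _)
  rw [show x ^ 4 - 2 * C.a₄ * x ^ 2 - 8 * C.a₆ * x + C.a₄ ^ 2 =
    x ^ 4 - (2 * (C.a₄ * x ^ 2) + 8 * (C.a₆ * x) - C.a₄ * C.a₄) by ring,
    show 4 * y ^ 2 = 2 * (2 * y ^ 2) by ring, map_div₀, h4, w.map_mul, w.map_mul, hs.two, one_mul,
    one_mul, w.map_pow, w.map_pow, h.w_y_sq hs hn hx, pow_succ' (w x) 3,
    mul_div_cancel_right₀ _ (pow_ne_zero 3 h5)]
  exact hx

theorem InE1.eq_zero (h : SW C) (hs : Sz C w ρ) {P : C.Point} (hP : InE1 w ρ P) {j : ℕ}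
    (hj : 2 ^ j • P = 0) : P = 0 := by
  induction j generalizing P with
  | zero => simpa using hj
  | succ j ih =>
    rw [pow_succ, mul_nsmul'] at hj
    have h3 := ih (hP.two h hs) hj
    rcases P with _ | ⟨x, y, hn⟩
    · rfl
    · exact absurd ((h.two_smul_zero hn).1 h3) (EllB_y_ne h hs hn hP)

theorem InE1.div [IsSepClosed Λ] (h : SW C) (hs : Sz C w ρ) {P : C.Point} (hP : InE1 w ρ P)
    (j : ℕ) : ∃ R, InE1 w ρ R ∧ 2 ^ j • R = P := by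
  induction j with
  | zero => exact ⟨P, hP, by simp⟩
  | succ j ih =>
    obtain ⟨R, hR, rfl⟩ := ih
    suffices ∃ R', InE1 w ρ R' ∧ 2 • R' = R by
      obtain ⟨R', h1, rfl⟩ := this
      exact ⟨R', h1, by rw [pow_succ, mul_nsmul']⟩
    rcases R with _ | ⟨X, Y, hn⟩
    · exact ⟨0, InE1.zero, nsmul_zero 2⟩
    have hX : ρ ^ 2 < w X := hR
    obtain ⟨e1, e2, e3, he⟩ := h.exists_rt
    have hw : ∀ e r : Λ, e ^ 3 + C.a₄ * e + C.a₆ = 0 → r ^ 2 = X - e → w r ^ 2 = w X :=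
      fun e r h1 h2 => by
        rw [← w.map_pow, h2, EllC.sub_eq hs.na ((hs.w_root_le h1).trans_lt hX)]
    obtain ⟨r1, h1⟩ := exists_sqrt h.two (X - e1)
    obtain ⟨s2, h2⟩ := exists_sqrt h.two (X - e2)
    obtain ⟨s3, h3⟩ := exists_sqrt h.two (X - e3)
    have w1 := hw e1 r1 he.root h1
    obtain ⟨r2, h4, w2⟩ := EllB_sign hs ((hw e2 s2 he.rot.root h2).trans w1.symm)
    obtain ⟨r3, h5, w3⟩ := EllB_sign hs ((hw e3 s3 he.rot.rot.root h3).trans w1.symm)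
    rw [h2] at h4
    rw [h3] at h5
    have hx : ρ ^ 2 < w (X + r1 * r2 + r1 * r3 + r2 * r3) := by
      have h6 : w ((r1 + r2) * (r1 + r3)) = w X := by rw [w.map_mul, w2, w3, ← w1, sq]
      rw [show X + r1 * r2 + r1 * r3 + r2 * r3 = (r1 + r2) * (r1 + r3) + e1 by
        linear_combination -h1, EllB_eq hs.na (h6 ▸ (hs.w_root_le he.root).trans_lt hX), h6]
      exact hX
    have hY : (r1 * r2 * r3) ^ 2 = Y ^ 2 := by
      rw [h.eqn hn, he.factor, mul_pow, mul_pow, h1, h4, h5]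
    rcases sq_eq_sq_iff_eq_or_eq_neg.1 hY with e | e
    · obtain ⟨y, hn', e'⟩ := he.half_of_sqrt hn (r1 := -r1) (r2 := -r2) (r3 := -r3)
        (by rw [neg_sq, h1]) (by rw [neg_sq, h4]) (by rw [neg_sq, h5]) (by linear_combination -e)
      refine ⟨_, ?_, e'⟩
      change ρ ^ 2 < w (X + -r1 * -r2 + -r1 * -r3 + -r2 * -r3)
      rwa [neg_mul_neg, neg_mul_neg, neg_mul_neg]
    · obtain ⟨y, hn', e'⟩ := he.half_of_sqrt hn h1 h4 h5 e
      exact ⟨Point.some _ y hn', hx, e'⟩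

theorem SW.tors_le (h : SW C) (hs : Sz C w ρ) {P : C.Point} {j : ℕ} (hj : 2 ^ j • P = 0) :
    w (xc P) ≤ ρ ^ 2 := by
  rcases P with _ | ⟨x, y, hn⟩
  · change w 0 ≤ _
    rw [w.map_zero]
    exact (pow_pos hs.pos 2).le
  · exact not_lt.1 fun hx =>
      Point.some_ne_zero hn (InE1.eq_zero h hs (P := Point.some x y hn) hx hj)

theorem EllB_line {x₁ x₂ y₁ y₂ : Λ} (h₁ : C.Equation x₁ y₁) (h₂ : C.Equation x₂ y₂)
    (hxy : ¬(x₁ = x₂ ∧ y₁ = C.negY x₂ y₂)) : y₁ - y₂ = C.slope x₁ x₂ y₁ y₂ * (x₁ - x₂) := by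
  by_cases hx : x₁ = x₂
  · rw [Y_eq_of_Y_ne h₁ h₂ hx fun h => hxy ⟨hx, h⟩, hx, sub_self, sub_self, mul_zero]
  · rw [slope_of_X_ne hx, div_mul_cancel₀ _ (sub_ne_zero.2 hx)]

theorem EllB_line' (h : SW C) {x₁ x₂ y₁ y₂ : Λ} (h₁ : C.Equation x₁ y₁) (h₂ : C.Equation x₂ y₂)
    (hxy : ¬(x₁ = x₂ ∧ y₁ = C.negY x₂ y₂)) :
    C.slope x₁ x₂ y₁ y₂ * (y₁ - C.negY x₂ y₂) = x₁ ^ 2 + x₁ * x₂ + x₂ ^ 2 + C.a₄ := by
  by_cases hx : x₁ = x₂
  · have hy : y₁ ≠ C.negY x₂ y₂ := fun h => hxy ⟨hx, h⟩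
    have hy' := Y_eq_of_Y_ne h₁ h₂ hx hy
    subst hx hy'
    rw [slope_of_Y_ne rfl hy, div_mul_cancel₀ _ (sub_ne_zero.2 hy), h.a2, h.a1]
    ring
  · have e1 := (h.equation_iff _ _).1 h₁
    have e2 := (h.equation_iff _ _).1 h₂
    rw [slope_of_X_ne hx, div_mul_eq_mul_div, div_eq_iff (sub_ne_zero.2 hx), h.negY_eq]
    linear_combination e1 - e2

theorem SW.close (h : SW C) (hs : Sz C w ρ) {x y x' y' : Λ} (hn : C.Nonsingular x y)
    (hn' : C.Nonsingular x' y') (hx : w x ≤ ρ ^ 2) (hx' : w x' ≤ ρ ^ 2)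
    (h1 : w (x - x') * ρ ^ 10 < w (4 * C.a₄ ^ 3 + 27 * C.a₆ ^ 2))
    (h2 : w (y - y') * ρ ^ 9 < w (4 * C.a₄ ^ 3 + 27 * C.a₆ ^ 2)) :
    InE1 w ρ (Point.some x y hn - Point.some x' y' hn' : C.Point) := by
  rw [sub_eq_add_neg, Point.neg_some]
  by_cases hxy : x = x' ∧ y = C.negY x' (C.negY x' y')
  · rw [Point.add_of_Y_eq hxy.1 hxy.2]
    exact InE1.zero
  rw [Point.add_some hxy]
  have na := hs.na
  have hρ := hs.pos
  have hn'' := (equation_neg x' y').2 hn'.1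
  have e1 := EllB_line hn.1 hn'' hxy
  have e2 := EllB_line' h hn.1 hn'' hxy
  change ρ ^ 2 < w (C.addX x x' (C.slope x x' y (C.negY x' y')))
  generalize C.slope x x' y (C.negY x' y') = l at e1 e2 ⊢
  rw [negY_negY] at e2
  rw [h.negY_eq] at e1
  rw [addX, h.a2, h.a1, zero_mul, add_zero, sub_zero, sub_sub]
  refine EllB_big na hρ (not_le.1 fun hl => ?_) hx hx'
  have p9 : 0 < ρ ^ 9 := pow_pos hρ 9
  have p8 : 0 < ρ ^ 8 := pow_pos hρ 8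
  refine EllB_disc h hs hn hx ?_ ?_
  · rw [show 2 * y = l * (x - x') + (y - y') by linear_combination e1, ← lt_div_iff₀ p9]
    refine EllB_addl na ((EllB_mul hl le_rfl).trans_lt ?_) ((lt_div_iff₀ p9).2 h2)
    rw [lt_div_iff₀ p9]
    exact (le_of_eq (by ring)).trans_lt h1
  · rw [show 3 * x ^ 2 + C.a₄ = l * (y - y') + (x' + 2 * x) * (x - x') by
      linear_combination -e2, ← lt_div_iff₀ p8]
    refine EllB_addl na ((EllB_mul hl le_rfl).trans_lt ?_)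
      ((EllB_mul (EllB_add na hx' (EllB_num na 2 hx)) le_rfl).trans_lt ?_)
    · rw [lt_div_iff₀ p8]
      exact (le_of_eq (by ring)).trans_lt h2
    · rw [lt_div_iff₀ p8]
      exact (le_of_eq (by ring)).trans_lt h1

theorem SW.unram (h : SW C) (hs : Sz C w 1) (hD : w (4 * C.a₄ ^ 3 + 27 * C.a₆ ^ 2) = 1)
    {s : C.Point →+ C.Point} {φ : Λ →+* Λ} (hc : Compat s φ)
    (hr : ∀ a, w a ≤ 1 → w (φ a - a) < 1) {P : C.Point} {j : ℕ} (hj : 2 ^ j • P = 0) :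
    s P = P := by
  rcases P with _ | ⟨x, y, hn⟩
  · rw [← Point.zero_def, map_zero]
  have hx1 : w x ≤ 1 ^ 2 := h.tors_le hs hj
  have hy1 := h.w_y_le hs hn hx1
  have h1 := hr x (by simpa using hx1)
  have h2 := hr y (by simpa using hy1)
  obtain ⟨hn', e⟩ := hc x y hn
  have hx2 : w (φ x) ≤ 1 ^ 2 := by
    have := EllB_add hs.na (h1.le.trans (one_pow 2).ge) hx1
    rwa [sub_add_cancel] at this
  have h3 := h.close hs hn' hn hx2 hx1 (by simpa [hD] using h1) (by simpa [hD] using h2)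
  rw [← e] at h3
  exact sub_eq_zero.1 (h3.eq_zero h hs (j := j) (by rw [nsmul_sub, ← map_nsmul, hj, map_zero,
    sub_zero]))

/-- torsion points of two-power order are uniformly separated -/
theorem SW.sep (h : SW C) (hs : Sz C w ρ) : ∃ ε : ℝ, 0 < ε ∧ ∀ (P P' : C.Point) (j : ℕ), P ≠ 0 →
    P' ≠ 0 → 2 ^ j • P = 0 → 2 ^ j • P' = 0 → w (xc P - xc P') < ε → P = P' ∨ P = -P' := by
  have na := hs.na
  have hρ := hs.pos
  have hD := w.pos h.disc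
  obtain ⟨D, eD⟩ : ∃ D, D = w (4 * C.a₄ ^ 3 + 27 * C.a₆ ^ 2) := ⟨_, rfl⟩
  rw [← eD] at hD
  refine ⟨min (D / ρ ^ 10) ((D / ρ ^ 9) ^ 2 / ρ ^ 4), by positivity,
    fun P P' j hP hP' hj hj' hlt => ?_⟩
  have hx := h.tors_le hs hj
  have hx' := h.tors_le hs hj'
  rcases P with _ | ⟨x, y, hn⟩
  · exact absurd rfl hP
  rcases P' with _ | ⟨x', y', hn'⟩
  · exact absurd rfl hP'
  change w x ≤ _ at hx
  change w x' ≤ _ at hx'
  change w (x - x') < _ at hlt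
  obtain ⟨h1, h2⟩ := lt_min_iff.1 hlt
  rw [lt_div_iff₀ (by positivity)] at h1 h2
  have h3 : w (x * x + x * x' + x' * x' + C.a₄) ≤ ρ ^ 4 :=
    EllB_add na (EllB_add na (EllB_add na (EllB_mulk hx hx) (EllB_mulk hx hx'))
      (EllB_mulk hx' hx')) hs.a4
  have h4 := (EllB_mul le_rfl h3).trans_lt h2
  rw [show (x - x') * (x * x + x * x' + x' * x' + C.a₄) = (y - y') * (y - -y') by
    linear_combination h.eqn hn' - h.eqn hn, w.map_mul] at h4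
  have h5 : w (y - y') < D / ρ ^ 9 ∨ w (y - -y') < D / ρ ^ 9 := by
    by_contra hc
    rw [not_or, not_lt, not_lt] at hc
    rw [sq] at h4
    exact h4.not_ge (mul_le_mul hc.1 hc.2 (by positivity) (w.nonneg _))
  rw [lt_div_iff₀ (by positivity), lt_div_iff₀ (by positivity), eD] at h5
  rw [eD] at h1
  rcases h5 with h5 | h5
  · exact Or.inl (sub_eq_zero.1 ((h.close hs hn hn' hx hx' h1 h5).eq_zero h hs (j := j)
      (by rw [nsmul_sub, hj, hj', sub_zero])))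
  · obtain ⟨hn'', e⟩ := h.neg_some hn'
    have h6 := h.close hs hn hn'' hx hx' h1 h5
    rw [← e] at h6
    exact Or.inr (sub_eq_zero.1 (h6.eq_zero h hs (j := j)
      (by rw [nsmul_sub, hj, neg_nsmul, hj', neg_zero, sub_zero])))

end

end Pool.Agent.Quad
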