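import Pool.Agent.Work.MP_60d5ce_nt.Qt.Tame
import Pool.Agent.Work.MP_60d5ce_nt.Lb.Tr
import Pool.Agent.Work.MP_60d5ce_nt.Asc.Defs
import Pool.Agent.Lib.Dwork.Series
import Mathlib

-- merged part: Pool.Agent.Work.MP_60d5ce_nt.Lb.BDef
section
-- merged part: Pool.Agent.Work.MP_60d5ce_nt.Qt.Basic
section
/-!
# Smooth functions and characters  

All easy.  `chi_tau_inf`: reciprocity for the cocycle `(g, h) ↦ deg g * χ v h`.
`chi_symm`: reciprocity for `(g, h) ↦ χ v g * χ w h` with `S = {v, w, inf}`.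
`hom_expand`: apply `uniq` to the difference (componentwise).
-/

namespace Pool.Agent.Quad

open scoped Classical

noncomputable section

variable {W P : Type} [Group W]

namespace Tame

variable {T : Tame W P}

section sm

variable {A B C : Type*}

theorem sm_const (a : A) : T.Sm fun _ : W => a := ⟨_, T.adm_G0, fun _ _ _ => rfl⟩

theorem sm_comp {f : W → A} (hf : T.Sm f) (φ : A → B) : T.Sm fun g => φ (f g) := by
  obtain ⟨U, hU, h⟩ := hf
  exact ⟨U, hU, fun g u hu => congrArg φ (h g u hu)⟩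

theorem sm_comp₂ {f : W → A} {f' : W → B} (hf : T.Sm f) (hf' : T.Sm f') (φ : A → B → C) :
    T.Sm fun g => φ (f g) (f' g) := by
  obtain ⟨U, hU, h⟩ := hf
  obtain ⟨U', hU', h'⟩ := hf'
  exact ⟨U ⊓ U', T.adm_inf _ _ hU hU', fun g u hu => congrArg₂ φ (h g u hu.1) (h' g u hu.2)⟩

/-- finitely many admissible subgroups contain a common one -/
theorem exists_adm_le {ι : Type*} (s : Finset ι) (p : ι → Subgroup W → Prop)
    (hp : ∀ i U U', p i U → U' ≤ U → p i U') (h : ∀ i ∈ s, ∃ U, T.Adm U ∧ p i U) :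
    ∃ U, T.Adm U ∧ ∀ i ∈ s, p i U := by
  induction s using Finset.induction_on with
  | empty => exact ⟨_, T.adm_G0, by simp⟩
  | insert i s _ ih =>
    obtain ⟨U, hU, h1⟩ := ih fun j hj => h j (Finset.mem_insert_of_mem hj)
    obtain ⟨U', hU', h2⟩ := h i (Finset.mem_insert_self _ _)
    refine ⟨U ⊓ U', T.adm_inf _ _ hU hU', fun j hj => ?_⟩
    rcases Finset.mem_insert.1 hj with rfl | hj
    · exact hp _ _ _ h2 inf_le_right
    · exact hp _ _ _ (h1 j hj) inf_le_left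

theorem sm_pi {ι : Type*} [Finite ι] {f : W → ι → A} (hf : ∀ i, T.Sm fun g => f g i) : T.Sm f := by
  have := Fintype.ofFinite ι
  obtain ⟨U, hU, h⟩ := exists_adm_le (T := T) Finset.univ
    (fun i U => ∀ g, ∀ u ∈ U, f (g * u) i = f g i)
    (fun i U U' h hle g u hu => h g u (hle hu)) fun i _ => hf i
  exact ⟨U, hU, fun g u hu => funext fun i => h i (Finset.mem_univ i) g u hu⟩

theorem mul_mid {f : W → A} {U : Subgroup W} (hU : T.Adm U) (hf : ∀ g, ∀ u ∈ U, f (g * u) = f g)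
    (g h : W) {u : W} (hu : u ∈ U) : f (g * u * h) = f (g * h) := by
  have h1 : h⁻¹ * u * h ∈ U := (T.adm_normal U hU).conj_mem' u hu h
  rw [← hf (g * h) _ h1]
  congr 1
  group

theorem sm_rel {f : W → A} (hf : T.Sm f) (v : P) :
    f (T.σ v * T.τ v) = f (T.τ v ^ T.Q v * T.σ v) := by
  obtain ⟨U, hU, h⟩ := hf
  rw [← h (T.σ v * T.τ v) _ (T.rel U hU v), mul_inv_cancel_left]

theorem sm_fin {f : W → A} (hf : T.Sm f) : {v | f (T.τ v) ≠ f 1}.Finite := by
  obtain ⟨U, hU, h⟩ := hf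
  refine (T.fin U hU).subset fun v hv hm => hv ?_
  rw [← h 1 _ hm, one_mul]

theorem sm2_of_sm {f : W → A} {f' : W → B} (hf : T.Sm f) (hf' : T.Sm f') (φ : A → B → C) :
    T.Sm2 fun g h => φ (f g) (f' h) := by
  obtain ⟨U, hU, h⟩ := hf
  obtain ⟨U', hU', h'⟩ := hf'
  exact ⟨U ⊓ U', T.adm_inf _ _ hU hU', fun g k u hu u' hu' =>
    congrArg₂ φ (h g u hu.1) (h' k u' hu'.2)⟩

end sm

theorem Q_mod (v : P) : T.Q v % 2 = 1 := by
  rw [Pre.Q, Nat.pow_mod, T.q_mod, one_pow]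
  rfl

theorem Q_cast (v : P) : (T.Q v : F2) = 1 := by
  rw [← ZMod.natCast_mod, Q_mod, Nat.cast_one]

theorem one_lt_Q (v : P) : 1 < T.Q v :=
  Nat.one_lt_pow (T.dg_pos v).ne' (by have := T.q_ge; omega)

theorem σ_mem (v : P) : T.σ v ∈ T.D v := Subgroup.subset_closure (by simp)

theorem τ_mem (v : P) : T.τ v ∈ T.D v := Subgroup.subset_closure (by simp)

section hom

variable {A : Type*} [AddCommGroup A]

theorem hom_zero : T.IsHom (0 : W → A) := ⟨sm_const 0, fun _ _ => by simp⟩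

theorem hom_one {x : W → A} (hx : T.IsHom x) : x 1 = 0 := by simpa using hx.2 1 1

theorem hom_inv {x : W → A} (hx : T.IsHom x) (g : W) : x g⁻¹ = -x g := by
  have := hx.2 g g⁻¹
  rw [mul_inv_cancel, hom_one hx] at this
  exact (neg_eq_of_add_eq_zero_right this.symm).symm

theorem hom_pow {x : W → A} (hx : T.IsHom x) (g : W) (n : ℕ) : x (g ^ n) = n • x g := by
  induction n with
  | zero => simpa using hom_one hx
  | succ n ih => rw [pow_succ, hx.2, ih, succ_nsmul]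

theorem hom_conj {x : W → A} (hx : T.IsHom x) (g h : W) : x (h * g * h⁻¹) = x g := by
  rw [hx.2, hx.2, hom_inv hx]
  abel

theorem hom_add {x y : W → A} (hx : T.IsHom x) (hy : T.IsHom y) : T.IsHom (x + y) :=
  ⟨sm_comp₂ hx.1 hy.1 (· + ·), fun g h => by
    simp only [Pi.add_apply, hx.2, hy.2]
    abel⟩

theorem hom_sub {x y : W → A} (hx : T.IsHom x) (hy : T.IsHom y) : T.IsHom (x - y) :=
  ⟨sm_comp₂ hx.1 hy.1 (· - ·), fun g h => by
    simp only [Pi.sub_apply, hx.2, hy.2]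
    abel⟩

theorem hom_sum {ι : Type*} (s : Finset ι) {x : ι → W → A} (hx : ∀ i ∈ s, T.IsHom (x i)) :
    T.IsHom fun g => ∑ i ∈ s, x i g := by
  induction s using Finset.induction_on with
  | empty => exact hom_zero
  | insert i s hi ih =>
    simp only [Finset.sum_insert hi]
    exact hom_add (hx i (Finset.mem_insert_self _ _))
      (ih fun j hj => hx j (Finset.mem_insert_of_mem hj))

theorem hom_map {B : Type*} [AddCommGroup B] {x : W → A} (hx : T.IsHom x) (φ : A →+ B) :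
    T.IsHom fun g => φ (x g) :=
  ⟨sm_comp hx.1 φ, fun g h => by simp only [hx.2, map_add]⟩

theorem hom_smul_const [Module F2 A] {x : W → F2} (hx : T.IsHom x) (a : A) :
    T.IsHom fun g => x g • a :=
  ⟨sm_comp hx.1 (· • a), fun g h => by simp only [hx.2, add_smul]⟩

theorem hom_apply {I : Type} {x : W → I → F2} (hx : T.IsHom x) (i : I) : T.IsHom fun g => x g i :=
  ⟨sm_comp hx.1 (· i), fun g h => by simp only [hx.2, Pi.add_apply]⟩

/-- a function additive on the local group is determined there by its values on `σ v`, `τ v` -/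
theorem eq_zero_on_D {x : W → A} {v : P} (hx : ∀ g ∈ T.D v, ∀ h ∈ T.D v, x (g * h) = x g + x h)
    (h1 : x (T.σ v) = 0) (h2 : x (T.τ v) = 0) : ∀ g ∈ T.D v, x g = 0 := by
  have h0 : x 1 = 0 := by simpa using hx 1 (one_mem _) 1 (one_mem _)
  intro g hg
  induction hg using Subgroup.closure_induction with
  | mem g hg => rcases hg with rfl | rfl <;> assumption
  | one => exact h0
  | mul g h hg hh ihg ihh => rw [hx g hg h hh, ihg, ihh, add_zero]
  | inv g hg ih =>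
    have := hx g hg g⁻¹ (inv_mem hg)
    rwa [mul_inv_cancel, h0, ih, zero_add, eq_comm] at this

theorem hom_eq_on_D {x y : W → A} (hx : T.IsHom x) (hy : T.IsHom y) {v : P}
    (h1 : x (T.σ v) = y (T.σ v)) (h2 : x (T.τ v) = y (T.τ v)) : ∀ g ∈ T.D v, x g = y g :=
  fun g hg => sub_eq_zero.1 (eq_zero_on_D (x := x - y) (fun g _ h _ => (hom_sub hx hy).2 g h)
    (sub_eq_zero.2 h1) (sub_eq_zero.2 h2) g hg)

theorem hom_deg : T.IsHom fun g => (T.deg g : F2) := by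
  refine ⟨⟨_, T.adm_G0, fun g u hu => ?_⟩, fun g h => by simp only [T.deg_mul, Int.cast_add]⟩
  have : T.deg u = 0 := hu
  simp only [T.deg_mul, this, add_zero]

theorem inv_map {B : Type*} [AddCommGroup B] (φ : A →+ B) (v : P) (θ : W → W → A) :
    T.inv v (fun g h => φ (θ g h)) = φ (T.inv v θ) := by
  simp only [Pre.inv, map_sub, map_sum]

theorem inv_add (v : P) (θ θ' : W → W → A) :
    T.inv v (fun g h => θ g h + θ' g h) = T.inv v θ + T.inv v θ' := by
  simp only [Pre.inv, Finset.sum_add_distrib]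
  abel

theorem inv_sub (v : P) (θ θ' : W → W → A) :
    T.inv v (fun g h => θ g h - θ' g h) = T.inv v θ - T.inv v θ' := by
  simp only [Pre.inv, Finset.sum_sub_distrib]
  abel

theorem inv_sum {ι : Type*} (s : Finset ι) (v : P) (θ : ι → W → W → A) :
    T.inv v (fun g h => ∑ i ∈ s, θ i g h) = ∑ i ∈ s, T.inv v (θ i) := by
  simp only [Pre.inv, Finset.sum_sub_distrib]
  rw [Finset.sum_comm]

theorem inv_congr (v : P) {θ θ' : W → W → A} (h : ∀ g ∈ T.D v, ∀ g' ∈ T.D v, θ g g' = θ' g g') :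
    T.inv v θ = T.inv v θ' := by
  unfold Pre.inv
  rw [h _ (σ_mem v) _ (τ_mem v), h _ (pow_mem (τ_mem v) _) _ (σ_mem v),
    Finset.sum_congr rfl fun i _ => h _ (pow_mem (τ_mem v) i) _ (τ_mem v)]

/-- the invariant lies in any subgroup containing the values on the local group -/
theorem inv_mem (v : P) (I : AddSubgroup A) {θ : W → W → A}
    (h : ∀ g ∈ T.D v, ∀ g' ∈ T.D v, θ g g' ∈ I) : T.inv v θ ∈ I :=
  sub_mem (sub_mem (h _ (σ_mem v) _ (τ_mem v)) (h _ (pow_mem (τ_mem v) _) _ (σ_mem v)))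
    (sum_mem fun i _ => h _ (pow_mem (τ_mem v) i) _ (τ_mem v))

end hom

theorem inv_dvd (v : P) {j : ℕ} {θ θ' : W → W → O}
    (h : ∀ g ∈ T.D v, ∀ g' ∈ T.D v, (2 : O) ^ j ∣ θ g g' - θ' g g') :
    (2 : O) ^ j ∣ T.inv v θ - T.inv v θ' := by
  rw [← inv_sub]
  exact ((h _ (σ_mem v) _ (τ_mem v)).sub (h _ (pow_mem (τ_mem v) _) _ (σ_mem v))).sub
    (Finset.dvd_sum fun i _ => h _ (pow_mem (τ_mem v) i) _ (τ_mem v))

theorem inv_mul_left (v : P) (c : O) (θ : W → W → O) :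
    T.inv v (fun g h => c * θ g h) = c * T.inv v θ := by
  simp only [Pre.inv, mul_sub, Finset.mul_sum]

theorem inv_dig (v : P) {j : ℕ} {θ : W → W → O} (h : ∀ g ∈ T.D v, ∀ g' ∈ T.D v, (2 : O) ^ j ∣ θ g g') :
    T.inv v (fun g g' => dig j (θ g g')) = dig j (T.inv v θ) := by
  have h1 := h _ (σ_mem v) _ (τ_mem v)
  have h2 := h _ (pow_mem (τ_mem v) (T.Q v)) _ (σ_mem v)
  have h3 := fun i (_ : i ∈ Finset.Ico 1 (T.Q v)) => h _ (pow_mem (τ_mem v) i) _ (τ_mem v)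
  unfold Pre.inv
  rw [dig_sub (h1.sub h2) (Finset.dvd_sum h3), dig_sub h1 h2, dig_sum _ h3]

theorem basic_sum {R : Type*} [CommRing R] (n : ℕ) :
    ∑ i ∈ Finset.Ico 1 n, (i : R) = (n.choose 2 : R) := by
  induction n with
  | zero => simp
  | succ n ih =>
    rcases Nat.eq_zero_or_pos n with rfl | hn
    · simp
    · rw [Finset.sum_Ico_succ_top hn, ih, Nat.choose_succ_succ' n 1, Nat.choose_one_right]
      push_cast
      ring

theorem choose_two_mul {a b : ℕ} (ha : a % 2 = 1) (hb : b % 2 = 1) :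
    ((a * b).choose 2 : F2) = (a.choose 2 : F2) + (b.choose 2 : F2) := by
  have key : ∀ n : ℕ, ((2 * n + 1).choose 2 : F2) = (n : F2) := fun n => by
    rw [Nat.choose_two_right, Nat.add_sub_cancel, show (2 * n + 1) * (2 * n) = 2 * ((2 * n + 1) * n) by ring,
      Nat.mul_div_cancel_left _ two_pos]
    push_cast
    rw [F2_two]
    ring
  obtain ⟨a, rfl⟩ : ∃ m, a = 2 * m + 1 := ⟨a / 2, by omega⟩
  obtain ⟨b, rfl⟩ : ∃ m, b = 2 * m + 1 := ⟨b / 2, by omega⟩
  rw [show (2 * a + 1) * (2 * b + 1) = 2 * (2 * a * b + a + b) + 1 by ring, key, key, key]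
  push_cast
  rw [F2_two]
  ring

theorem Q_choose (v : P) : ((T.Q v).choose 2 : F2) = T.eps * (T.dg v : F2) := by
  rw [Pre.Q]
  induction T.dg v with
  | zero => simp
  | succ n ih =>
    rw [pow_succ, choose_two_mul (by rw [Nat.pow_mod, T.q_mod, one_pow]; rfl) T.q_mod, ih, eps]
    push_cast
    ring

theorem basic_tel {R : Type*} [CommRing R] (f : ℕ → R) (c : R) {n : ℕ} (hn : 1 ≤ n) :
    ∑ i ∈ Finset.Ico 1 n, (f i + c - f (i + 1)) = f 1 + (n - 1) * c - f n := by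
  induction n, hn using Nat.le_induction with
  | base => simp
  | succ n hn ih =>
    rw [Finset.sum_Ico_succ_top hn, ih]
    push_cast
    ring

theorem inv_mul_hom (v : P) {a b : W → F2}
    (ha : ∀ g ∈ T.D v, ∀ h ∈ T.D v, a (g * h) = a g + a h) :
    T.inv v (fun g h => a g * b h) = a (T.σ v) * b (T.τ v) + a (T.τ v) * b (T.σ v) +
      T.eps * (T.dg v : F2) * (a (T.τ v) * b (T.τ v)) := by
  have h1 : ∀ n : ℕ, a (T.τ v ^ n) = n * a (T.τ v) := fun n => by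
    induction n with
    | zero => simpa using ha 1 (one_mem _) 1 (one_mem _)
    | succ n ih =>
      rw [pow_succ, ha _ (pow_mem (τ_mem v) n) _ (τ_mem v), ih]
      push_cast
      ring
  simp only [Pre.inv, h1, Q_cast, ← Finset.sum_mul, basic_sum, Q_choose, F2_sub]
  ring

/-- coboundaries with trivial action -/
theorem inv_cob (v : P) {b : W → F2} (hb : b (T.σ v * T.τ v) = b (T.τ v ^ T.Q v * T.σ v)) :
    T.inv v (fun g h => b g + b h - b (g * h)) = 0 := by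
  have h1 := basic_tel (fun i => b (T.τ v ^ i)) (b (T.τ v)) (one_lt_Q (T := T) v).le
  simp only [Pre.inv, ← pow_succ, h1, hb, Q_cast, pow_one]
  ring

theorem basic_recip {a b : W → F2} (ha : T.IsHom a) (hb : T.IsHom b) (S : Finset P)
    (hS : ∀ v ∉ S, a (T.σ v) * b (T.τ v) + a (T.τ v) * b (T.σ v) +
      T.eps * (T.dg v : F2) * (a (T.τ v) * b (T.τ v)) = 0) :
    ∑ v ∈ S, (a (T.σ v) * b (T.τ v) + a (T.τ v) * b (T.σ v) +
      T.eps * (T.dg v : F2) * (a (T.τ v) * b (T.τ v))) = 0 := by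
  have h1 := fun v => inv_mul_hom (T := T) v (a := a) (b := b) fun g _ h _ => ha.2 g h
  have h2 := T.recip _ (sm2_of_sm ha.1 hb.1 (· * ·)) (fun g h k => by
    simp only [ha.2, hb.2]
    ring) S fun v hv => (h1 v).trans (hS v hv)
  rwa [Finset.sum_congr rfl fun v _ => h1 v] at h2

theorem chi_tau_inf {v : P} (hv : v ≠ T.inf) : T.χ v (T.τ T.inf) = (T.dg v : F2) := by
  have := basic_recip hom_deg (T.χ_hom v) {v, T.inf} fun w hw => by
    simp only [Finset.mem_insert, Finset.mem_singleton, not_or] at hw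
    simp [T.χ_ne v w hw.1 hw.2, T.deg_τ]
  rw [Finset.sum_pair hv] at this
  simp only [T.deg_σ, T.deg_τ, T.dg_inf, T.χ_self v hv, Int.cast_natCast, Int.cast_zero,
    Nat.cast_one] at this
  linear_combination this - (T.dg v : F2) * F2_two

theorem chi_symm {v w : P} (hv : v ≠ T.inf) (hw : w ≠ T.inf) (h : v ≠ w) :
    T.χ v (T.σ w) = T.χ w (T.σ v) + T.eps * (T.dg v : F2) * (T.dg w : F2) := by
  have := basic_recip (T.χ_hom v) (T.χ_hom w) (insert T.inf {v, w}) fun u hu => by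
    simp only [Finset.mem_insert, Finset.mem_singleton, not_or] at hu
    simp [T.χ_ne v u hu.2.1 hu.1, T.χ_ne w u hu.2.2 hu.1]
  rw [Finset.sum_insert (by simp [hv.symm, hw.symm]), Finset.sum_pair h, T.χ_self v hv,
    T.χ_self w hw, T.χ_ne w v h hv, T.χ_ne v w h.symm hw, T.χ_inf, T.χ_inf, chi_tau_inf hv,
    chi_tau_inf hw, T.dg_inf] at this
  push_cast at this
  linear_combination this -
    (T.χ w (T.σ v) + T.eps * (T.dg v : F2) * (T.dg w : F2)) * F2_two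

theorem hom_expand {h : W → F2} (hh : T.IsHom h) {A : Finset P}
    (hA : ∀ v ∉ A, v ≠ T.inf → h (T.τ v) = 0) (g : W) :
    h g = ∑ s ∈ A.erase T.inf, T.χ s g * h (T.τ s) + (T.deg g : F2) * h (T.σ T.inf) := by
  have h1 := hom_sub hh (hom_add (hom_sum (A.erase T.inf)
    fun s _ => hom_smul_const (T.χ_hom s) (h (T.τ s))) (hom_smul_const hom_deg (h (T.σ T.inf))))
  have h2 := T.uniq _ h1 (fun v hv => ?_) ?_
  · exact sub_eq_zero.1 (congrFun h2 g)
  · simp only [Pi.sub_apply, Pi.add_apply, T.deg_τ, Int.cast_zero, zero_smul, add_zero]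
    rw [Finset.sum_eq_single v (fun s _ hs => by rw [T.χ_ne s v hs.symm hv, zero_smul])
      fun hn => by rw [hA v (fun hm => hn (Finset.mem_erase.2 ⟨hv, hm⟩)) hv, smul_zero],
      T.χ_self v hv, one_smul, sub_self]
  · simp [T.χ_inf, T.deg_σ, T.dg_inf]

/-- the sum of the ramification of a character, weighted by degrees, vanishes -/
theorem sum_deg_tau {h : W → F2} (hh : T.IsHom h) {A : Finset P} (hA : ∀ v ∉ A, h (T.τ v) = 0) :
    ∑ v ∈ A, (T.dg v : F2) * h (T.τ v) = 0 := by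
  simpa [T.deg_σ, T.deg_τ] using basic_recip hom_deg hh A fun v hv => by simp [hA v hv, T.deg_τ]

theorem cq_mul (g h : W) : T.cq (g * h) = T.cq g * T.cq h := by
  rw [cq, T.deg_mul, zpow_add, Units.val_mul]
  rfl

theorem cq_of_deg_zero {g : W} (h : T.deg g = 0) : T.cq g = 1 := by
  rw [cq, h, zpow_zero, Units.val_one]

theorem cq_σ (v : P) : T.cq (T.σ v) = T.Q v := by
  rw [cq, T.deg_σ, zpow_natCast, Units.val_pow_eq_pow_val, IsUnit.unit_spec, Pre.Q, Nat.cast_pow]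

theorem res_cq (g : W) : res (T.cq g) = 1 := by
  have h1 : Units.map res.toMonoidHom T.isUnit_q.unit = 1 :=
    Units.ext (res_natCast_of_mod T.q_mod)
  have h2 := congrArg Units.val (map_zpow (Units.map res.toMonoidHom) T.isUnit_q.unit (T.deg g))
  rw [h1, one_zpow] at h2
  exact h2

/-- coboundaries for the cyclotomic action -/
theorem inv_cob_cq (v : P) {b : W → O} :
    T.inv v (fun g h => b g + T.cq g * b h - b (g * h)) =
      b (T.τ v ^ T.Q v * T.σ v) - b (T.σ v * T.τ v) := by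
  have h0 : ∀ i : ℕ, T.cq (T.τ v ^ i) = 1 := fun i =>
    cq_of_deg_zero (pow_mem (show T.τ v ∈ T.G0 from T.deg_τ v) i)
  have h1 := basic_tel (fun i => b (T.τ v ^ i)) (b (T.τ v)) (one_lt_Q (T := T) v).le
  simp only [Pre.inv, ← pow_succ, h0, one_mul, h1, cq_σ, pow_one]
  ring

end Tame

end

end Pool.Agent.Quad
end

-- merged part: Pool.Agent.Work.MP_60d5ce_nt.Lb.BDef
section
/-!
# Unramified cocycles and the axioms of the trace formula  (task LB BDef)

`ZH T H a A`: cocycles of the subgroup `H` (extended by zero) for the action `a`, smooth, zero on the inertia generators outside `A`.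
-/

namespace Pool.Agent.Lef

open scoped Classical
open Pool.Agent.Quad

noncomputable section

variable {W P : Type} [Group W] (T : Tame W P)

/-- generators of inertia outside `A` -/
def TA (A : Finset P) : Set W := {t | ∃ v ∉ A, ∃ g, t = g * T.τ v * g⁻¹}

/-- smooth on the subgroup `H` -/
def SmOn {X : Type} (H : Subgroup W) (c : W → X) : Prop :=
  ∃ U, T.Adm U ∧ ∀ g ∈ H, ∀ u ∈ U, c (g * u) = c g

variable {X : Type} [AddCommGroup X]

/-- smooth cocycles of `H`, unramified outside `A` -/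
def ZH (H : Subgroup W) (a : W → X →+ X) (A : Finset P) : AddSubgroup (W → X) where
  carrier := {c | (∀ g ∉ H, c g = 0) ∧ SmOn T H c ∧
    (∀ g ∈ H, ∀ h ∈ H, c (g * h) = c g + a g (c h)) ∧ ∀ t ∈ TA T A, c t = 0}
  zero_mem' := ⟨fun _ _ => rfl, ⟨_, T.adm_G0, fun _ _ _ _ => rfl⟩, fun _ _ _ _ => by simp,
    fun _ _ => rfl⟩
  add_mem' := by
    rintro c d ⟨h0, ⟨U, hU, h1⟩, h2, h3⟩ ⟨k0, ⟨U', hU', k1⟩, k2, k3⟩
    refine ⟨fun g hg => ?_, ⟨_, T.adm_inf _ _ hU hU', fun g hg u hu => ?_⟩,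
      fun g hg h hh => ?_, fun t ht => ?_⟩
    · rw [Pi.add_apply, h0 g hg, k0 g hg, add_zero]
    · rw [Pi.add_apply, Pi.add_apply, h1 g hg u hu.1, k1 g hg u hu.2]
    · simp only [Pi.add_apply, h2 g hg h hh, k2 g hg h hh, map_add]
      abel
    · rw [Pi.add_apply, h3 t ht, k3 t ht, add_zero]
  neg_mem' := by
    rintro c ⟨h0, ⟨U, hU, h1⟩, h2, h3⟩
    refine ⟨fun g hg => ?_, ⟨_, hU, fun g hg u hu => ?_⟩, fun g hg h hh => ?_, fun t ht => ?_⟩
    · rw [Pi.neg_apply, h0 g hg, neg_zero]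
    · rw [Pi.neg_apply, Pi.neg_apply, h1 g hg u hu]
    · simp only [Pi.neg_apply, h2 g hg h hh, map_neg, neg_add]
    · rw [Pi.neg_apply, h3 t ht, neg_zero]

/-- functions with values in `X₀` -/
def vals (W : Type) (X₀ : AddSubgroup X) : AddSubgroup (W → X) := AddSubgroup.pi Set.univ fun _ => X₀

/-- the action of `w` on cocycles -/
def conjOp (a : W → X →+ X) (w : W) : (W → X) →+ (W → X) :=
  AddMonoidHom.mk' (fun c g => a w (c (w⁻¹ * g * w))) fun _ _ => funext fun _ => map_add _ _ _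

/-- coboundaries on the geometric group -/
def cob (a : W → X →+ X) : X →+ (W → X) :=
  AddMonoidHom.mk' (fun y g => if T.deg g = 0 then a g y - y else 0) fun y z => funext fun g => by
    by_cases h : T.deg g = 0
    · simp only [h, if_true, map_add, Pi.add_apply]
      abel
    · simp only [h, if_false, Pi.add_apply, add_zero]

/-- the action given by matrices -/
def mv {I R : Type} [Fintype I] [CommRing R] (ρ : W → Matrix I I R) (g : W) : (I → R) →+ (I → R) :=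
  AddMonoidHom.mk' (ρ g).mulVec (Matrix.mulVec_add _)

/-- an action of `H` on `X₀` on which `U` acts trivially -/
structure Act (U H : Subgroup W) (a : W → X →+ X) (X₀ : AddSubgroup X) : Prop where
  mem : ∀ g ∈ H, ∀ x ∈ X₀, a g x ∈ X₀
  mul : ∀ g ∈ H, ∀ h ∈ H, ∀ x ∈ X₀, a (g * h) x = a g (a h x)
  triv : ∀ u ∈ U, ∀ x ∈ X₀, a u x = x

/-- unramified cocycles modulo `X'` -/
structure ZM (H : Subgroup W) (a : W → X →+ X) (A : Finset P) (X₀ X' : AddSubgroup X)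
    (c : W → X) : Prop where
  val : ∀ g ∈ H, c g ∈ X₀
  sm : SmOn T H c
  coc : ∀ g ∈ H, ∀ h ∈ H, c g + a g (c h) - c (g * h) ∈ X'
  unr : ∀ t ∈ TA T A, c t ∈ X'

/-- places outside `A` whose degree divides `n` -/
def Pd (A : Finset P) (n : ℕ) : Finset P :=
  (n.divisors.biUnion fun e => (T.dg_fin e).toFinset) \ A

/-- cosets `s` of small degree with `s⁻¹ γ s = x` -/
def cjs (U : Subgroup W) (e : ℕ) (γ x : W) : Set (W ⧸ U) :=
  {s | ∃ g : W, (g : W ⧸ U) = s ∧ 0 ≤ T.deg g ∧ T.deg g < e ∧ x⁻¹ * (g⁻¹ * γ * g) ∈ U}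

/-- the number of fixed points of `γ` (of degree `n`) on the covering given by `U`, outside `A` -/
def fixY (U : Subgroup W) (A : Finset P) (γ : W) (n : ℕ) : ℕ :=
  ∑ v ∈ Pd T A n, (cjs T U (T.dg v) γ (T.σ v ^ (n / T.dg v))).ncard

/-- the geometric input -/
structure LefAx : Prop where
  h2 : ∀ U U' : Subgroup W, T.Adm U → U ≤ U' → U' ≤ T.G0 → ∀ θ : W → W → F2,
    (∃ U₁, T.Adm U₁ ∧ ∀ g ∈ U', ∀ h ∈ U', ∀ u ∈ U₁, ∀ u' ∈ U₁, θ (g * u) (h * u') = θ g h) →
    (∀ g ∈ U', ∀ h ∈ U', ∀ l ∈ U', θ h l - θ (g * h) l + θ g (h * l) - θ g h = 0) →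
    ∃ b : W → F2, SmOn T U' b ∧ ∀ g ∈ U', ∀ h ∈ U', θ g h = b g + b h - b (g * h)
  ram : ∀ U U' : Subgroup W, T.Adm U → U ≤ U' → U' ≤ T.G0 → ∀ A : Finset P, A.Nonempty →
    (∀ v ∉ A, T.τ v ∈ U) → ∀ ε : W → F2, SmOn T U ε →
    (∀ t ∈ TA T A, ∀ x ∈ U', ε (x * t * x⁻¹) = ε t) → (∀ t ∈ TA T A, ∀ n : ℕ, ε (t ^ n) = n • ε t) →
    ∃ χ : W → F2, SmOn T U' χ ∧ (∀ g ∈ U', ∀ h ∈ U', χ (g * h) = χ g + χ h) ∧
      ∀ t ∈ TA T A, χ t = ε t
  tr : ∀ U : Subgroup W, T.Adm U → ∀ A : Finset P, A.Nonempty → (∀ v ∉ A, T.τ v ∈ U) →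
    ∀ (J n : ℕ) (γ : W), 0 < n → T.deg γ = n →
    HasTr (2 ^ (J + 1)) (ZH T U (fun _ => AddMonoidHom.id (ZMod (2 ^ (J + 1)))) A)
      (fun χ g => (T.q : ZMod (2 ^ (J + 1))) ^ n * χ (γ⁻¹ * g * γ))
      ((T.q : ZMod (2 ^ (J + 1))) ^ n - fixY T U A γ n)

variable (U : Subgroup W)

/-- functions on `W ⧸ U` supported in degree zero -/
def M0 (R : Type) [AddCommGroup R] : AddSubgroup (W ⧸ U → R) where
  carrier := {F | ∀ g : W, T.deg g ≠ 0 → F g = 0}
  zero_mem' _ _ := rfl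
  add_mem' {F G} hF hG g hg := by rw [Pi.add_apply, hF g hg, hG g hg, add_zero]
  neg_mem' {F} hF g hg := by rw [Pi.neg_apply, hF g hg, neg_zero]

/-- cosets of degree `n` -/
def Gn (n : ℤ) : Set (W ⧸ U) := {s | ∃ g : W, (g : W ⧸ U) = s ∧ T.deg g = n}

variable {T} [U.Normal]

/-- left translation -/
def aL (R : Type) [AddCommGroup R] (g : W) : (W ⧸ U → R) →+ (W ⧸ U → R) :=
  AddMonoidHom.mk' (fun F s => F ((g : W ⧸ U)⁻¹ * s)) fun _ _ => rfl

/-- conjugation by `w` and right translation by `γ` -/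
def opQ (R : Type) [AddCommGroup R] (w : W) (γ : W ⧸ U) :
    (W → W ⧸ U → R) →+ (W → W ⧸ U → R) :=
  AddMonoidHom.mk' (fun c g s => c (w⁻¹ * g * w) ((w : W ⧸ U)⁻¹ * s * γ)) fun _ _ => rfl

variable (T) in
/-- cocycles with values in the regular representation -/
def QQ (A : Finset P) (R : Type) [AddCommGroup R] : AddSubgroup (W → W ⧸ U → R) :=
  ZH T T.G0 (aL U R) A ⊓ vals W (M0 T U R)

variable {U}

omit [U.Normal] [Group W] in
theorem mem_vals {X₀ : AddSubgroup X} {c : W → X} : c ∈ vals W X₀ ↔ ∀ g, c g ∈ X₀ := by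
  simp [vals, AddSubgroup.mem_pi]

omit [U.Normal] in
theorem conjOp_apply (a : W → X →+ X) (w : W) (c : W → X) (g : W) :
    conjOp a w c g = a w (c (w⁻¹ * g * w)) := rfl

omit [U.Normal] in
theorem cob_apply (a : W → X →+ X) (y : X) (g : W) :
    cob T a y g = if T.deg g = 0 then a g y - y else 0 := rfl

omit [U.Normal] [Group W] in
theorem mv_apply {I R : Type} [Fintype I] [CommRing R] (ρ : W → Matrix I I R) (g : W) (x : I → R) :
    mv ρ g x = (ρ g).mulVec x := rfl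

theorem aL_apply {R : Type} [AddCommGroup R] (g : W) (F : W ⧸ U → R) (s : W ⧸ U) :
    aL U R g F s = F ((g : W ⧸ U)⁻¹ * s) := rfl

theorem opQ_apply {R : Type} [AddCommGroup R] (w : W) (γ : W ⧸ U) (c : W → W ⧸ U → R) (g : W)
    (s : W ⧸ U) : opQ U R w γ c g s = c (w⁻¹ * g * w) ((w : W ⧸ U)⁻¹ * s * γ) := rfl

theorem opQ_mul {R : Type} [AddCommGroup R] (w w' : W) (γ γ' : W ⧸ U) (c : W → W ⧸ U → R) :
    opQ U R w γ (opQ U R w' γ' c) = opQ U R (w * w') (γ * γ') c := by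
  funext g s
  simp only [opQ_apply, mul_inv_rev, QuotientGroup.mk_mul, mul_assoc]

theorem opQ_one {R : Type} [AddCommGroup R] (c : W → W ⧸ U → R) : opQ U R 1 1 c = c := by
  funext g s
  simp [opQ_apply]

omit [U.Normal]

theorem mem_G0 {g : W} : g ∈ T.G0 ↔ T.deg g = 0 := Iff.rfl

theorem mem_Pd {A : Finset P} {n : ℕ} {v : P} : v ∈ Pd T A n ↔ v ∉ A ∧ T.dg v ∣ n ∧ n ≠ 0 := by
  simp only [Pd, Finset.mem_sdiff, Finset.mem_biUnion, Nat.mem_divisors, Set.Finite.mem_toFinset,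
    Set.mem_ofPred_eq]
  exact ⟨fun ⟨⟨_, h1, h2⟩, h3⟩ => ⟨h3, h2 ▸ h1⟩, fun h => ⟨⟨_, h.2, rfl⟩, h.1⟩⟩

theorem TA_conj {A : Finset P} {t : W} (ht : t ∈ TA T A) (g : W) : g * t * g⁻¹ ∈ TA T A := by
  obtain ⟨v, hv, k, rfl⟩ := ht
  exact ⟨v, hv, g * k, by group⟩

theorem TA_conj' {A : Finset P} {t : W} (ht : t ∈ TA T A) (g : W) : g⁻¹ * t * g ∈ TA T A := by
  simpa only [inv_inv] using TA_conj ht g⁻¹

theorem TA_mem {A : Finset P} (hU : T.Adm U) (hτ : ∀ v ∉ A, T.τ v ∈ U) {t : W} (ht : t ∈ TA T A) :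
    t ∈ U := by
  obtain ⟨v, hv, k, rfl⟩ := ht
  exact (T.adm_normal U hU).conj_mem _ (hτ v hv) k

theorem deg_eq_of_mk (hU : T.Adm U) {g h : W} (e : (g : W ⧸ U) = h) : T.deg g = T.deg h := by
  have h1 : T.deg (g⁻¹ * h) = 0 := T.adm_le U hU (QuotientGroup.eq.1 e)
  rw [T.deg_mul, T.deg_inv] at h1
  omega

theorem mk_mem_Gn (hU : T.Adm U) {g : W} {n : ℤ} : (g : W ⧸ U) ∈ Gn T U n ↔ T.deg g = n := by
  exact ⟨fun ⟨_, h1, h2⟩ => (deg_eq_of_mk hU h1).symm.trans h2, fun h => ⟨g, rfl, h⟩⟩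

theorem BDef_deg (n : ℤ) : ∃ w, T.deg w = n := by
  have h1 : T.deg (T.σ T.inf) = 1 := by rw [T.deg_σ, T.dg_inf, Nat.cast_one]
  induction n using Int.induction_on with
  | zero => exact ⟨1, T.deg_one⟩
  | succ n ih =>
    obtain ⟨w, hw⟩ := ih
    exact ⟨w * T.σ T.inf, by rw [T.deg_mul, hw, h1]⟩
  | pred n ih =>
    obtain ⟨w, hw⟩ := ih
    exact ⟨w * (T.σ T.inf)⁻¹, by rw [T.deg_mul, hw, T.deg_inv, h1, ← sub_eq_add_neg]⟩

theorem BDef_Gn (U : Subgroup W) (n : ℤ) : ∃ f : T.G0 ⧸ U.subgroupOf T.G0 → W ⧸ U,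
    Function.Injective f ∧ Set.range f = Gn T U n := by
  obtain ⟨w, hw⟩ := BDef_deg (T := T) n
  have key : ∀ a b : T.G0, ((w * a : W) : W ⧸ U) = (w * b : W) ↔
      (a : T.G0 ⧸ U.subgroupOf T.G0) = b := fun a b => by
    rw [QuotientGroup.eq, QuotientGroup.eq, Subgroup.mem_subgroupOf, mul_inv_rev, mul_assoc,
      inv_mul_cancel_left]
    rfl
  refine ⟨fun q => ((w * (q.out : T.G0) : W) : W ⧸ U), fun q q' e => ?_, ?_⟩
  · simpa only [QuotientGroup.out_eq'] using (key _ _).1 e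
  · ext s
    constructor
    · rintro ⟨q, rfl⟩
      exact ⟨_, rfl, by rw [T.deg_mul, hw, mem_G0.1 q.out.2, add_zero]⟩
    · rintro ⟨g, rfl, hg⟩
      have h1 : w⁻¹ * g ∈ T.G0 := by
        rw [mem_G0, T.deg_mul, T.deg_inv, hw, hg, neg_add_cancel]
      refine ⟨(⟨_, h1⟩ : T.G0), ((key _ ⟨_, h1⟩).2 (QuotientGroup.out_eq' _)).trans ?_⟩
      rw [mul_inv_cancel_left]

theorem Gn_finite (hU : T.Adm U) (n : ℤ) : (Gn T U n).Finite := by
  obtain ⟨f, -, e⟩ := BDef_Gn (T := T) U n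
  have := Subgroup.fintypeOfIndexNeZero (T.adm_index U hU)
  exact e ▸ Set.finite_range f

/-- translate by a power of `T.σ T.inf` -/
theorem Gn_ncard (hU : T.Adm U) (n : ℤ) : (Gn T U n).ncard = U.relIndex T.G0 := by
  have _ := hU
  obtain ⟨f, hf, e⟩ := BDef_Gn (T := T) U n
  rw [← e, ← Nat.card_coe_set_eq, Nat.card_range_of_injective hf]
  rfl

theorem cjs_finite (hU : T.Adm U) (e : ℕ) (γ x : W) : (cjs T U e γ x).Finite := by
  refine ((Set.finite_Ico (0 : ℤ) e).biUnion fun n _ => Gn_finite hU n).subset ?_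
  rintro s ⟨g, h1, h2, h3, -⟩
  exact Set.mem_biUnion (x := T.deg g) ⟨h2, h3⟩ ⟨g, h1, rfl⟩

theorem M0_finite (hU : T.Adm U) (R : Type) [AddCommGroup R] [Finite R] :
    (M0 T U R : Set (W ⧸ U → R)).Finite := by
  have := (Gn_finite hU 0).to_subtype
  refine Set.Finite.of_finite_image (f := fun F (s : Gn T U 0) => F s) (Set.toFinite _)
    fun F hF G hG e => funext fun s => ?_
  obtain ⟨g, rfl⟩ := QuotientGroup.mk_surjective s
  by_cases h : T.deg g = 0
  · exact congrFun e ⟨g, g, rfl, h⟩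
  · rw [hF g h, hG g h]

theorem SmOn.mono {Y : Type} {H H' : Subgroup W} {c : W → Y} (h : SmOn T H c) (hH : H' ≤ H) :
    SmOn T H' c := by
  obtain ⟨U, hU, h⟩ := h
  exact ⟨U, hU, fun g hg => h g (hH hg)⟩

/-- the witness of smoothness can be taken inside a given admissible subgroup -/
theorem SmOn.le {Y : Type} {H : Subgroup W} {c : W → Y} (h : SmOn T H c) (hU : T.Adm U) :
    ∃ U₁, T.Adm U₁ ∧ U₁ ≤ U ∧ ∀ g ∈ H, ∀ u ∈ U₁, c (g * u) = c g := by
  obtain ⟨U', hU', h⟩ := h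
  exact ⟨U' ⊓ U, T.adm_inf _ _ hU' hU, inf_le_right, fun g hg u hu => h g hg u hu.1⟩

theorem ZH.one {H : Subgroup W} {a : W → X →+ X} {A : Finset P} {c : W → X}
    (h : c ∈ ZH T H a A) (h1 : a 1 (c 1) = c 1) : c 1 = 0 := by
  have h2 := h.2.2.1 1 H.one_mem 1 H.one_mem
  rw [mul_one, h1] at h2
  exact left_eq_add.1 h2

theorem BDef_conj {g w : W} : w⁻¹ * g * w ∈ T.G0 ↔ g ∈ T.G0 := by
  rw [mem_G0, mem_G0, T.deg_mul, T.deg_mul, T.deg_inv]
  omega

theorem conjOp_mem {a : W → X →+ X} {A : Finset P} {X₀ : AddSubgroup X}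
    (ha : ∀ g h, ∀ x ∈ X₀, a (g * h) x = a g (a h x)) {c : W → X}
    (h : c ∈ ZH T T.G0 a A) (h0 : ∀ g, c g ∈ X₀) (w : W) : conjOp a w c ∈ ZH T T.G0 a A := by
  obtain ⟨h1, ⟨U', hU', h2⟩, h3, h4⟩ := h
  refine ⟨fun g hg => ?_, ⟨U', hU', fun g hg u hu => ?_⟩, fun g hg k hk => ?_, fun t ht => ?_⟩
  · rw [conjOp_apply, h1 _ fun k => hg (BDef_conj.1 k), map_zero]
  · rw [conjOp_apply, conjOp_apply, ← h2 _ (BDef_conj.2 hg) _
      ((T.adm_normal U' hU').conj_mem' u hu w)]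
    congr 2
    group
  · rw [conjOp_apply, conjOp_apply, conjOp_apply,
      show w⁻¹ * (g * k) * w = w⁻¹ * g * w * (w⁻¹ * k * w) by group,
      h3 _ (BDef_conj.2 hg) _ (BDef_conj.2 hk), map_add, ← ha _ _ _ (h0 _), ← ha _ _ _ (h0 _),
      show w * (w⁻¹ * g * w) = g * w by group]
  · rw [conjOp_apply, h4 _ (TA_conj' ht w), map_zero]

theorem cob_mem (hU : T.Adm U) {a : W → X →+ X} {A : Finset P} (hτ : ∀ v ∉ A, T.τ v ∈ U)
    {X₀ : AddSubgroup X} (ha : Act U T.G0 a X₀) {y : X} (hy : y ∈ X₀) :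
    cob T a y ∈ ZH T T.G0 a A := by
  have e : ∀ g ∈ T.G0, cob T a y g = a g y - y := fun g hg => if_pos hg
  refine ⟨fun g hg => if_neg hg, ⟨U, hU, fun g hg u hu => ?_⟩, fun g hg k hk => ?_,
    fun t ht => ?_⟩
  · have hu' := T.adm_le U hU hu
    rw [e _ (mul_mem hg hu'), e g hg, ha.mul g hg u hu' y hy, ha.triv u hu y hy]
  · rw [e _ (mul_mem hg hk), e g hg, e k hk, ha.mul g hg k hk y hy, map_sub]
    abel
  · have hu := TA_mem hU hτ ht
    rw [e _ (T.adm_le U hU hu), ha.triv t hu y hy, sub_self]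

theorem act_aL [U.Normal] (R : Type) [AddCommGroup R] : Act U T.G0 (aL U R) (M0 T U R) := by
  refine ⟨fun g hg F hF k hk => ?_, fun g _ k _ F _ => funext fun s => ?_,
    fun u hu F _ => funext fun s => ?_⟩
  · refine hF (g⁻¹ * k) ?_
    rwa [T.deg_mul, T.deg_inv, mem_G0.1 hg, neg_zero, zero_add]
  · simp only [aL_apply, QuotientGroup.mk_mul, mul_inv_rev, mul_assoc]
  · rw [aL_apply, (QuotientGroup.eq_one_iff u).2 hu, inv_one, one_mul]

theorem opQ_mem [U.Normal] (hU : T.Adm U) {A : Finset P} {R : Type} [AddCommGroup R] {w : W}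
    {γ : W ⧸ U} (hγ : γ ∈ Gn T U (T.deg w)) {c : W → W ⧸ U → R} (h : c ∈ QQ T U A R) :
    opQ U R w γ c ∈ QQ T U A R := by
  have _ := hU
  obtain ⟨⟨h1, ⟨U', hU', h2⟩, h3, h4⟩, h5⟩ := h
  obtain ⟨k, rfl, hk⟩ := hγ
  refine ⟨⟨fun g hg => funext fun s => ?_, ⟨U', hU', fun g hg u hu => funext fun s => ?_⟩,
    fun g hg l hl => funext fun s => ?_, fun t ht => funext fun s => ?_⟩,
    mem_vals.2 fun g l hl => ?_⟩
  · rw [opQ_apply, h1 _ fun k => hg (BDef_conj.1 k)]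
    rfl
  · rw [opQ_apply, opQ_apply, ← h2 _ (BDef_conj.2 hg) _ ((T.adm_normal U' hU').conj_mem' u hu w)]
    congr 1
    group
  · rw [Pi.add_apply, aL_apply, opQ_apply, opQ_apply, opQ_apply,
      show w⁻¹ * (g * l) * w = w⁻¹ * g * w * (w⁻¹ * l * w) by group,
      h3 _ (BDef_conj.2 hg) _ (BDef_conj.2 hl), Pi.add_apply, aL_apply]
    congr 2
    simp only [QuotientGroup.mk_mul, QuotientGroup.mk_inv]
    group
  · rw [opQ_apply, h4 _ (TA_conj' ht w)]
    rfl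
  · refine mem_vals.1 h5 (w⁻¹ * g * w) (w⁻¹ * l * k) ?_
    rw [T.deg_mul, T.deg_mul, T.deg_inv, hk]
    omega

end

end Pool.Agent.Lef
end
end

-- merged part: Pool.Agent.Work.MP_60d5ce_nt.Qt.Act
section
-- merged part: Pool.Agent.Work.MP_60d5ce_nt.Lb.BSh
section
/-!
# The trace on cocycles with values in the regular representation  (task LB BSh)

Write `R = ZMod (2 ^ (J + 1))`, `π s = w⁻¹ * s * γ` (a permutation of `Gn T U 0`).
* `hasTr_M0`: `hasTr_perm` on the finite type `Gn T U 0`, then `HasTr.map` along extension by zero.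
* `hasTr_cob`: `HasTr.quot` for `cob T (aL U R) : M0 → QQ`; the kernel is the group of functions constant on `Gn T U 0`, image of `r ↦ indicator`
  (`hasTr_one`, `HasTr.map`).
* `sh c u = if u ∈ U then c u 1 else 0`.  For `c ∈ QQ`, `x` of degree zero, `u ∈ U`: `c (x u x⁻¹) = aL x (c u)` (from `c (x u x⁻¹ * x) = c (x * u)`), so
  `c (x u x⁻¹) x = c u 1`.  With `x = w⁻¹ γ` this gives `sh_op`.  Kernel: if `sh c = 0` then `c u = 0` on `U`, and `F s = - c x x` (`x` of degree zero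
  representing `s`) has `c = cob F`.  Image: `c g s = χ ((r s)⁻¹ * g * r (g⁻¹ * s))`, `r = Quotient.out`, for `g`, `s` of degree zero and `0` otherwise; the element
  `(r 1)⁻¹ u (r 1)` is conjugate to `u` inside `U`, so `χ` takes the same value.
* `hasTr_QQ`: `HasTr.add` with `L.tr`.
-/

namespace Pool.Agent.Lef

open scoped Classical
open Pool.Agent.Quad

noncomputable section

variable {W P : Type} [Group W] {T : Tame W P} {U : Subgroup W} [U.Normal] {A : Finset P} {J : ℕ}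

omit [U.Normal] in
theorem BSh_M0 (hU : T.Adm U) {R : Type} [AddCommGroup R] {F : W ⧸ U → R} :
    F ∈ M0 T U R ↔ ∀ s ∉ Gn T U 0, F s = 0 := by
  refine ⟨fun h s hs => ?_, fun h g hg => h _ fun e => hg ((mk_mem_Gn hU).1 e)⟩
  obtain ⟨g, rfl⟩ := QuotientGroup.mk_surjective s
  exact h g fun e => hs ((mk_mem_Gn hU).2 e)

theorem BSh_pi (hU : T.Adm U) {w γ : W} (h : T.deg γ = T.deg w) (s : W ⧸ U) :
    (w : W ⧸ U)⁻¹ * s * γ ∈ Gn T U 0 ↔ s ∈ Gn T U 0 := by
  obtain ⟨g, rfl⟩ := QuotientGroup.mk_surjective s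
  rw [← QuotientGroup.mk_inv, ← QuotientGroup.mk_mul, ← QuotientGroup.mk_mul, mk_mem_Gn hU,
    mk_mem_Gn hU, T.deg_mul, T.deg_mul, T.deg_inv, h]
  omega

theorem BSh_left (hU : T.Adm U) {g : W} (h : T.deg g = 0) (s : W ⧸ U) :
    (g : W ⧸ U)⁻¹ * s ∈ Gn T U 0 ↔ s ∈ Gn T U 0 := by
  have := BSh_pi hU (T.deg_one.trans h.symm) s
  rwa [QuotientGroup.mk_one, mul_one] at this

theorem BSh_one (hU : T.Adm U) : (1 : W ⧸ U) ∈ Gn T U 0 := (mk_mem_Gn hU).2 T.deg_one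

theorem hasTr_M0 (hU : T.Adm U) {w γ : W} (h : T.deg γ = T.deg w) (q : ℕ) :
    HasTr (2 ^ (J + 1)) (M0 T U (ZMod (2 ^ (J + 1))))
      (fun F s => (q : ZMod (2 ^ (J + 1))) * F ((w : W ⧸ U)⁻¹ * s * γ))
      (q * ({s | s ∈ Gn T U 0 ∧ (w : W ⧸ U)⁻¹ * s * γ = s}.ncard : ZMod (2 ^ (J + 1)))) := by
  let _ := (Gn_finite hU 0).fintype
  let π : Gn T U 0 → Gn T U 0 := fun s => ⟨(w : W ⧸ U)⁻¹ * s * γ, (BSh_pi hU h s).2 s.2⟩
  have e : {s | s ∈ Gn T U 0 ∧ (w : W ⧸ U)⁻¹ * s * γ = s}.ncard =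
      (Finset.univ.filter fun s => π s = s).card := by
    rw [← Set.ncard_coe_finset, ← Set.ncard_image_of_injective _ Subtype.val_injective]
    refine congrArg Set.ncard (Set.ext fun s => ⟨fun hs => ⟨⟨s, hs.1⟩, ?_, rfl⟩, ?_⟩)
    · exact Finset.mem_filter.2 ⟨Finset.mem_univ _, Subtype.ext hs.2⟩
    · rintro ⟨t, ht, rfl⟩
      exact ⟨t.2, congrArg Subtype.val (Finset.mem_filter.1 ht).2⟩
  rw [e]
  refine (hasTr_perm π (q : ZMod (2 ^ (J + 1)))).map
    (j := fun F s => if hs : s ∈ Gn T U 0 then F ⟨s, hs⟩ else 0) (fun F _ G _ => ?_)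
    (fun F _ G _ hFG => ?_) (Set.ext fun F => ⟨?_, fun hF => ⟨fun s => F s, trivial, ?_⟩⟩)
    fun F _ => ?_
  · funext s
    by_cases hs : s ∈ Gn T U 0
    · simp only [dif_pos hs, Pi.add_apply]
    · simp only [dif_neg hs, Pi.add_apply, add_zero]
  · funext s
    have := congrFun hFG s.1
    simpa only [dif_pos s.2] using this
  · rintro ⟨G, -, rfl⟩
    exact (BSh_M0 hU).2 fun s hs => dif_neg hs
  · funext s
    by_cases hs : s ∈ Gn T U 0
    · exact dif_pos hs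
    · exact (dif_neg hs).trans ((BSh_M0 hU).1 hF s hs).symm
  · funext s
    by_cases hs : s ∈ Gn T U 0
    · simp only [dif_pos hs, dif_pos ((BSh_pi hU h s).2 hs), π]
    · simp only [dif_neg hs, dif_neg (fun e => hs ((BSh_pi hU h s).1 e)), mul_zero]

theorem hasTr_cob (hU : T.Adm U) {w γ : W} (h : T.deg γ = T.deg w) (q : ℕ) :
    HasTr (2 ^ (J + 1)) ((M0 T U (ZMod (2 ^ (J + 1)))).map (cob T (aL U (ZMod (2 ^ (J + 1))))))
      (fun c => q • opQ U (ZMod (2 ^ (J + 1))) w γ c)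
      (q * ({s | s ∈ Gn T U 0 ∧ (w : W ⧸ U)⁻¹ * s * γ = s}.ncard : ZMod (2 ^ (J + 1))) - q) := by
  refine HasTr.quot (H1 := M0 T U _ ⊓ (cob T (aL U (ZMod (2 ^ (J + 1))))).ker) ?_
    (hasTr_M0 hU h q) (j := cob T (aL U (ZMod (2 ^ (J + 1))))) (fun F _ G _ => map_add _ F G)
    (fun _ => Iff.rfl) rfl fun F _ => ?_
  · refine (hasTr_one (q : ZMod (2 ^ (J + 1)))).map
      (j := fun r s => if s ∈ Gn T U 0 then r else 0) (fun a _ b _ => ?_)
      (fun a _ b _ hab => ?_) (Set.ext fun F => ⟨?_, fun hF => ⟨F 1, trivial, ?_⟩⟩)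
      fun a _ => ?_
    · funext s
      by_cases hs : s ∈ Gn T U 0
      · simp only [if_pos hs, Pi.add_apply]
      · simp only [if_neg hs, Pi.add_apply, add_zero]
    · have := congrFun hab 1
      simpa only [if_pos (BSh_one hU)] using this
    · rintro ⟨a, -, rfl⟩
      refine ⟨(BSh_M0 hU).2 fun s hs => if_neg hs, funext fun g => ?_⟩
      rw [cob_apply]
      by_cases hg : T.deg g = 0
      · rw [if_pos hg]
        funext s
        simp only [Pi.sub_apply, aL_apply, BSh_left hU hg, sub_self, Pi.zero_apply]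
      · exact if_neg hg
    · funext s
      by_cases hs : s ∈ Gn T U 0
      · obtain ⟨g, rfl, hg⟩ := hs
        have e := congrFun (congrFun hF.2 g) g
        rw [cob_apply, if_pos hg, Pi.sub_apply, aL_apply, inv_mul_cancel] at e
        exact (if_pos ((mk_mem_Gn hU).2 hg)).trans (sub_eq_zero.1 e)
      · exact (if_neg hs).trans ((BSh_M0 hU).1 hF.1 s hs).symm
    · funext s
      by_cases hs : s ∈ Gn T U 0
      · simp only [if_pos hs, if_pos ((BSh_pi hU h s).2 hs)]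
      · simp only [if_neg hs, if_neg (fun e => hs ((BSh_pi hU h s).1 e)), mul_zero]
  · funext g s
    have e : T.deg (w⁻¹ * g * w) = T.deg g := by
      rw [T.deg_mul, T.deg_mul, T.deg_inv]
      omega
    rw [Pi.smul_apply, Pi.smul_apply, opQ_apply, cob_apply, cob_apply, e]
    by_cases hg : T.deg g = 0
    · simp only [if_pos hg, Pi.sub_apply, aL_apply, nsmul_eq_mul, mul_sub, QuotientGroup.mk_mul,
        QuotientGroup.mk_inv, mul_inv_rev, inv_inv, mul_assoc, mul_inv_cancel_left]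
    · simp only [if_neg hg, Pi.zero_apply, smul_zero]

variable {R : Type} [AddCommGroup R]

variable (U) in
/-- the map of Shapiro -/
def sh (c : W → W ⧸ U → R) (u : W) : R := if u ∈ U then c u 1 else 0

theorem BSh_triv {u : W} (hu : u ∈ U) (F : W ⧸ U → R) : aL U R u F = F := by
  funext s
  rw [aL_apply, (QuotientGroup.eq_one_iff u).2 hu, inv_one, one_mul]

theorem BSh_conj (hU : T.Adm U) {c : W → W ⧸ U → R} (hc : c ∈ QQ T U A R) {x u : W}
    (hx : T.deg x = 0) (hu : u ∈ U) : c (x * u * x⁻¹) x = c u 1 := by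
  have h0 : x * u * x⁻¹ ∈ U := Subgroup.Normal.conj_mem ‹_› u hu x
  have h1 := hc.1.2.2.1 _ (T.adm_le U hU h0) x hx
  have h2 := hc.1.2.2.1 x hx u (T.adm_le U hU hu)
  rw [inv_mul_cancel_right, BSh_triv h0, h2, add_comm] at h1
  rw [← add_right_cancel h1, aL_apply, inv_mul_cancel]

theorem BSh_mem (g : W) (s : W ⧸ U) : s.out⁻¹ * g * ((g : W ⧸ U)⁻¹ * s).out ∈ U := by
  rw [← QuotientGroup.eq_one_iff, QuotientGroup.mk_mul, QuotientGroup.mk_mul, QuotientGroup.mk_inv,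
    QuotientGroup.out_eq', QuotientGroup.out_eq', mul_assoc, mul_inv_cancel_left, inv_mul_cancel]

theorem sh_ker (hU : T.Adm U) (hτ : ∀ v ∉ A, T.τ v ∈ U) (c : W → W ⧸ U → R) :
    c ∈ (M0 T U R).map (cob T (aL U R)) ↔ c ∈ QQ T U A R ∧ sh U c = 0 := by
  constructor
  · rintro ⟨F, hF, rfl⟩
    refine ⟨⟨cob_mem hU hτ (act_aL R) hF, mem_vals.2 fun g => ?_⟩, funext fun u => ?_⟩
    · rw [cob_apply]
      by_cases hg : T.deg g = 0
      · rw [if_pos hg]
        exact sub_mem ((act_aL R).mem g hg F hF) hF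
      · rw [if_neg hg]
        exact zero_mem _
    · by_cases hu : u ∈ U
      · rw [sh, if_pos hu, cob_apply, BSh_triv hu, sub_self, ite_self]
        rfl
      · exact if_neg hu
  · rintro ⟨hc, h0⟩
    have hv : ∀ g, ∀ s ∉ Gn T U 0, c g s = 0 := fun g => (BSh_M0 hU).1 (mem_vals.1 hc.2 g)
    have h1 : ∀ u ∈ U, c u = 0 := fun u hu => funext fun s => by
      by_cases hs : s ∈ Gn T U 0
      · obtain ⟨x, rfl, hx⟩ := hs
        have h2 : x⁻¹ * u * x ∈ U := Subgroup.Normal.conj_mem' ‹_› u hu x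
        have h3 := BSh_conj hU hc hx h2
        have h4 := congrFun h0 (x⁻¹ * u * x)
        rw [sh, if_pos h2] at h4
        rw [show x * (x⁻¹ * u * x) * x⁻¹ = u by group] at h3
        exact h3.trans h4
      · exact hv u s hs
    have h2 : ∀ x : W, T.deg x = 0 → c (x : W ⧸ U).out = c x := fun x hx => by
      obtain ⟨u, hu⟩ := QuotientGroup.mk_out_eq_mul U x
      rw [hu, hc.1.2.2.1 x hx u (T.adm_le U hU u.2), h1 u u.2, map_zero, add_zero]
    refine ⟨fun s => - c s.out s, (BSh_M0 hU).2 fun s hs => by rw [hv _ s hs, neg_zero],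
      funext fun g => ?_⟩
    rw [cob_apply]
    by_cases hg : T.deg g = 0
    · rw [if_pos hg]
      funext s
      rw [Pi.sub_apply, aL_apply]
      by_cases hs : s ∈ Gn T U 0
      · obtain ⟨x, rfl, hx⟩ := hs
        have h3 : T.deg (g⁻¹ * x) = 0 := by rw [T.deg_mul, T.deg_inv, hg, hx, neg_zero, add_zero]
        have h4 := congrFun (hc.1.2.2.1 g hg _ h3) x
        rw [mul_inv_cancel_left, Pi.add_apply, aL_apply] at h4
        have h5 := h2 _ h3
        rw [QuotientGroup.mk_mul, QuotientGroup.mk_inv] at h5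
        rw [h5, h2 x hx, h4]
        abel
      · rw [hv _ s hs, hv _ s hs, hv _ _ fun e => hs ((BSh_left hU hg s).1 e), sub_self]
    · rw [if_neg hg]
      exact (hc.1.1 g hg).symm

theorem sh_image (hU : T.Adm U) (hτ : ∀ v ∉ A, T.τ v ∈ U) :
    sh U '' (QQ T U A R) = (ZH T U (fun _ => AddMonoidHom.id R) A : Set (W → R)) := by
  refine Set.ext fun χ => ⟨?_, fun hχ => ?_⟩
  · rintro ⟨c, hc, rfl⟩
    refine ⟨fun g hg => if_neg hg, ?_, fun g hg h hh => ?_, fun t ht => ?_⟩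
    · obtain ⟨U₁, u1, u2, u3⟩ := hc.1.2.1.le hU
      refine ⟨U₁, u1, fun g hg u hu => ?_⟩
      rw [sh, sh, if_pos hg, if_pos (U.mul_mem hg (u2 hu)), u3 g (T.adm_le U hU hg) u hu]
    · rw [AddMonoidHom.id_apply, sh, sh, sh, if_pos hg, if_pos hh, if_pos (U.mul_mem hg hh),
        hc.1.2.2.1 g (T.adm_le U hU hg) h (T.adm_le U hU hh), BSh_triv hg, Pi.add_apply]
    · rw [sh, hc.1.2.2.2 t ht, Pi.zero_apply, ite_self]
  · obtain ⟨k0, k1, k2, k3⟩ := hχ
    simp only [AddMonoidHom.id_apply] at k2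
    refine ⟨fun g s => if T.deg g = 0 ∧ s ∈ Gn T U 0 then
      χ (s.out⁻¹ * g * ((g : W ⧸ U)⁻¹ * s).out) else 0,
      ⟨⟨fun g hg => funext fun s => if_neg fun e => hg e.1, ?_, fun g hg h hh => funext fun s => ?_,
        fun t ht => funext fun s => ?_⟩,
        mem_vals.2 fun g => (BSh_M0 hU).2 fun s hs => if_neg fun e => hs e.2⟩,
      funext fun u => ?_⟩
    · obtain ⟨U₁, u1, u2, u3⟩ := k1.le hU
      refine ⟨U₁, u1, fun g hg u hu => funext fun s => ?_⟩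
      have e1 : T.deg (g * u) = T.deg g := by
        rw [T.deg_mul, show T.deg u = 0 from T.adm_le _ u1 hu, add_zero]
      have e2 := u3 _ (BSh_mem g s) _
        ((T.adm_normal _ u1).conj_mem' u hu ((g : W ⧸ U)⁻¹ * s).out)
      beta_reduce
      rw [e1, QuotientGroup.mk_mul_of_mem g (u2 hu), ← e2]
      simp only [mul_assoc, mul_inv_cancel_left]
    · have hg' : T.deg g = 0 := hg
      have hh' : T.deg h = 0 := hh
      have e1 : T.deg (g * h) = 0 := T.G0.mul_mem hg hh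
      rw [Pi.add_apply, aL_apply]
      beta_reduce
      by_cases hs : s ∈ Gn T U 0
      · rw [if_pos ⟨e1, hs⟩, if_pos ⟨hg', hs⟩, if_pos ⟨hh', (BSh_left hU hg' s).2 hs⟩,
          ← k2 _ (BSh_mem g s) _ (BSh_mem h _)]
        simp only [mul_assoc, mul_inv_cancel_left, QuotientGroup.mk_mul, mul_inv_rev]
      · rw [if_neg fun e => hs e.2, if_neg fun e => hs e.2,
          if_neg fun e => hs ((BSh_left hU hg' s).1 e.2), add_zero]
    · beta_reduce
      rw [(QuotientGroup.eq_one_iff t).2 (TA_mem hU hτ ht), inv_one, one_mul,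
        k3 _ (TA_conj' ht _), ite_self]
      rfl
    · by_cases hu : u ∈ U
      · have e1 : (1 : W ⧸ U).out ∈ U :=
          (QuotientGroup.eq_one_iff _).1 (QuotientGroup.out_eq' _)
        have e2 := k2 1 U.one_mem 1 U.one_mem
        have e3 := k2 _ (U.inv_mem e1) _ e1
        rw [inv_mul_cancel] at e3
        rw [one_mul, left_eq_add] at e2
        rw [sh, if_pos hu, if_pos ⟨T.adm_le U hU hu, BSh_one hU⟩,
          (QuotientGroup.eq_one_iff u).2 hu, inv_one, one_mul,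
          k2 _ (U.mul_mem (U.inv_mem e1) hu) _ e1, k2 _ (U.inv_mem e1) _ hu, add_right_comm, ← e3,
          e2, zero_add]
      · exact (if_neg hu).trans (k0 u hu).symm

theorem sh_op (hU : T.Adm U) {w γ : W} (h : T.deg γ = T.deg w) {c : W → W ⧸ U → R}
    (hc : c ∈ QQ T U A R) (u : W) : sh U (opQ U R w γ c) u = sh U c (γ⁻¹ * u * γ) := by
  by_cases hu : u ∈ U
  · have h1 : γ⁻¹ * u * γ ∈ U := Subgroup.Normal.conj_mem' ‹_› u hu γ
    have h2 : T.deg (w⁻¹ * γ) = 0 := by rw [T.deg_mul, T.deg_inv, h, neg_add_cancel]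
    rw [sh, sh, if_pos hu, if_pos h1, opQ_apply, ← BSh_conj hU hc h2 h1, mul_one,
      show w⁻¹ * γ * (γ⁻¹ * u * γ) * (w⁻¹ * γ)⁻¹ = w⁻¹ * u * w by group]
    rfl
  · have h1 : γ⁻¹ * u * γ ∉ U := fun e => hu (by
      have := Subgroup.Normal.conj_mem ‹_› _ e γ
      rwa [show γ * (γ⁻¹ * u * γ) * γ⁻¹ = u by group] at this)
    rw [sh, sh, if_neg hu, if_neg h1]

theorem hasTr_QQ (L : LefAx T) (hU : T.Adm U) (hA : A.Nonempty) (hτ : ∀ v ∉ A, T.τ v ∈ U) {n : ℕ}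
    (hn : 0 < n) {w γ : W} (hw : T.deg w = n) (hγ : T.deg γ = n) :
    HasTr (2 ^ (J + 1)) (QQ T U A (ZMod (2 ^ (J + 1))))
      (fun c => T.q ^ n • opQ U (ZMod (2 ^ (J + 1))) w γ c)
      ((T.q : ZMod (2 ^ (J + 1))) ^ n *
        ({s | s ∈ Gn T U 0 ∧ (w : W ⧸ U)⁻¹ * s * γ = s}.ncard : ZMod (2 ^ (J + 1))) -
          fixY T U A γ n) := by
  have h := hγ.trans hw.symm
  have key := (hasTr_cob (J := J) hU h (T.q ^ n)).add (L.tr U hU A hA hτ J n γ hn hγ)
    (H := QQ T U A (ZMod (2 ^ (J + 1)))) (j := sh U) (fun c _ d _ => funext fun u => ?_)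
    (sh_ker hU hτ) (sh_image hU hτ)
    ⟨fun c hc => nsmul_mem (opQ_mem hU ((mk_mem_Gn hU).2 h) hc) _,
      fun c _ d _ => by simp only [map_add, smul_add]⟩
    (fun c _ => funext fun g => funext fun s => ?_) fun c hc => funext fun u => ?_
  · rwa [Nat.cast_pow, sub_add_sub_cancel] at key
  · by_cases hu : u ∈ U
    · simp only [sh, if_pos hu, Pi.add_apply]
    · simp only [sh, if_neg hu, Pi.add_apply, add_zero]
  · rw [Pi.smul_apply, Pi.smul_apply, nsmul_eq_mul, ZMod.natCast_self, zero_mul]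
    rfl
  · rw [← sh_op hU h hc]
    by_cases hu : u ∈ U
    · simp only [sh, if_pos hu, Pi.smul_apply, nsmul_eq_mul, Nat.cast_pow]
    · simp only [sh, if_neg hu, mul_zero]

end

end Pool.Agent.Lef
end

-- merged part: Pool.Agent.Work.MP_60d5ce_nt.Lb.BLa
section
/-!
# Lifting of cocycles for a group of two-power order  (task LB BLa)

* `exists_inv_form`: the finite group `D = X' →+ F2` is a non-trivial group of exponent two (`X'` is a non-trivial finite group killed by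
  `2 ^ j`, so `2 • X' ≠ X'`; a vector space over `ZMod 2` has a non-zero functional), so of even cardinality.  The `2`-group `H ⧸ U.subgroupOf H`
  acts on `D` and fixes `0`: `IsPGroup.exists_fixed_point_of_prime_dvd_card_of_fixed_point`.  (Or: the image of `H` in `Equiv.Perm D` is a
  `2`-group, `IsPGroup.of_card`, `IsPGroup.of_surjective`.)
* `lift_step`: `θ g h = f (c g + a g (c h) - c (g * h))` is a smooth `2`-cocycle on `H` (take the witness of smoothness inside `U`, `SmOn.le`; it is normal;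
  with `d g h = c g + a g (c h) - c (g * h)` one has `a g (d h l) - d (g h) l + d g (h l) - d g h = 0` exactly).  `L.h2` gives `b`; `c₁ = c - (b ·).val • x0`
  is a cocycle modulo `X'' = ker f` (`f (a g x0) = 1`).  Let `ε g = f (c₁ g)`.  For `t ∈ TA`, `x ∈ H`: `c₁ (x t x⁻¹) ≡ a x (c₁ t)` modulo `X''`
  (use `c₁ (x t x⁻¹ * x) = c₁ (x * t)` and that `x t x⁻¹ ∈ U` acts trivially), `c₁ (t ^ n) ≡ n • c₁ t`, `c₁ 1 ∈ X''`.
  `L.ram` gives `χ`; put `c' = c₁ - (χ ·).val • x0`.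
* `lift_two`: strong induction on the cardinality of `X'`; for `X' = ⊥` cut `c` off outside `H` (`TA_mem`).
-/

namespace Pool.Agent.Lef

open scoped Classical
open Pool.Agent.Quad

variable {W P : Type} [Group W] {T : Tame W P} {X : Type} [AddCommGroup X] {U H : Subgroup W}
  {a : W → X →+ X} {A : Finset P} {X₀ X' : AddSubgroup X} {c : W → X} {j e : ℕ}

theorem BLa_form {Y : Type} [AddCommGroup Y] [Nontrivial Y] (hk : ∀ y : Y, 2 ^ j • y = 0) :
    ∃ φ : Y →+ F2, φ ≠ 0 := by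
  let K : AddSubgroup Y := (nsmulAddMonoidHom (α := Y) 2).range
  have hK : ∀ x : Y, 2 • x ∈ K := fun x => ⟨x, rfl⟩
  have hne : ∃ y, y ∉ K := by
    by_contra h
    push Not at h
    have key : ∀ (n : ℕ) (y : Y), ∃ z : Y, y = 2 ^ n • z := by
      intro n
      induction n with
      | zero => exact fun y => ⟨y, by simp⟩
      | succ n ih =>
        intro y
        obtain ⟨z, rfl⟩ := ih y
        obtain ⟨w, rfl⟩ := h z
        exact ⟨w, by rw [pow_succ, mul_nsmul']; rfl⟩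
    obtain ⟨y, hy⟩ := exists_ne (0 : Y)
    obtain ⟨z, rfl⟩ := key j y
    exact hy (hk z)
  obtain ⟨y, hy⟩ := hne
  let _ : Module (ZMod 2) (Y ⧸ K) := QuotientAddGroup.zmodModule hK
  have hy' : (y : Y ⧸ K) ≠ 0 := fun e => hy ((QuotientAddGroup.eq_zero_iff y).1 e)
  obtain ⟨φ, hφ⟩ := Module.Projective.exists_dual_ne_zero (ZMod 2) hy'
  exact ⟨φ.toAddMonoidHom.comp (QuotientAddGroup.mk' K), fun e => hφ (DFunLike.congr_fun e y)⟩

theorem BLa_fix {G Y : Type} [Group G] [AddCommGroup Y] [Finite Y] [Nontrivial Y]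
    (hk : ∀ y : Y, 2 ^ j • y = 0) (r : G → Y →+ Y) (hr : ∀ g h y, r (g * h) y = r g (r h y))
    (he : ∀ g y, r (g ^ 2 ^ e) y = y) : ∃ φ : Y →+ F2, φ ≠ 0 ∧ ∀ g y, φ (r g y) = φ y := by
  have h1 : ∀ y, r 1 y = y := fun y => by simpa using he 1 y
  let _ : MulAction G (Y →+ F2) :=
    { smul := fun g φ => φ.comp (r g⁻¹)
      one_smul := fun φ => AddMonoidHom.ext fun y => by
        change φ (r 1⁻¹ y) = φ y
        rw [inv_one, h1]
      mul_smul := fun g h φ => AddMonoidHom.ext fun y => by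
        change φ (r (g * h)⁻¹ y) = φ (r h⁻¹ (r g⁻¹ y))
        rw [mul_inv_rev, hr] }
  have hs : ∀ (g : G) (φ : Y →+ F2) y, (g • φ) y = φ (r g⁻¹ y) := fun _ _ _ => rfl
  have : Finite (Y →+ F2) := Finite.of_injective _ DFunLike.coe_injective
  have hp : IsPGroup 2 (MulAction.toPermHom G (Y →+ F2)).range := by
    rintro ⟨_, g, rfl⟩
    refine ⟨e, Subtype.ext ?_⟩
    rw [SubmonoidClass.coe_pow, ← map_pow]
    refine Equiv.ext fun φ => AddMonoidHom.ext fun y => ?_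
    change (g ^ 2 ^ e • φ) y = φ y
    rw [hs, ← inv_pow, he]
  obtain ⟨φ, hφ⟩ := BLa_form hk
  have h2 : 2 ∣ Nat.card (Y →+ F2) := by
    have : addOrderOf φ = 2 := addOrderOf_eq_prime (AddMonoidHom.ext fun y => by
      change 2 • φ y = 0
      generalize φ y = z
      revert z
      decide) hφ
    exact this.symm.dvd.trans (addOrderOf_dvd_natCard φ)
  obtain ⟨ψ, hψ, h0⟩ := hp.exists_fixed_point_of_prime_dvd_card_of_fixed_point (Y →+ F2) h2
    (a := 0) (by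
      rintro ⟨_, g, rfl⟩
      exact AddMonoidHom.ext fun y => rfl)
  refine ⟨ψ, h0.symm, fun g y => ?_⟩
  have := DFunLike.congr_fun (hψ ⟨_, g⁻¹, rfl⟩) y
  change (g⁻¹ • ψ) y = ψ y at this
  rwa [hs, inv_inv] at this

theorem exists_inv_form [U.Normal] (hUH : U ≤ H) (he : U.relIndex H = 2 ^ e) (ha : Act U H a X')
    (hfin : (X' : Set X).Finite) (hne : X' ≠ ⊥) (hk : ∀ x ∈ X', 2 ^ j • x = 0) :
    ∃ (f : X → F2) (x0 : X), AddOn X' f ∧ x0 ∈ X' ∧ f x0 = 1 ∧
      ∀ g ∈ H, ∀ x ∈ X', f (a g x) = f x := by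
  have : Finite X' := hfin
  have : Nontrivial X' := (AddSubgroup.nontrivial_iff_ne_bot X').2 hne
  let r : H → X' →+ X' := fun g =>
    AddMonoidHom.mk' (fun x => ⟨a g x, ha.mem g g.2 x x.2⟩) fun x y => Subtype.ext (map_add _ _ _)
  obtain ⟨φ, h0, hφ⟩ := BLa_fix (j := j) (e := e) (fun y : X' => Subtype.ext (hk y y.2)) r
    (fun g h y => Subtype.ext (ha.mul g g.2 h h.2 y y.2)) fun g y => Subtype.ext (by
      refine ha.triv _ ?_ y y.2
      rw [← he]
      exact U.pow_relIndex_mem g.2)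
  obtain ⟨x0, hx0⟩ : ∃ x0, φ x0 ≠ 0 := by
    by_contra h
    push Not at h
    exact h0 (AddMonoidHom.ext h)
  refine ⟨fun x => if h : x ∈ X' then φ ⟨x, h⟩ else 0, x0, fun x hx y hy => ?_, x0.2, ?_,
    fun g hg x hx => ?_⟩
  · simp only [dif_pos hx, dif_pos hy, dif_pos (X'.add_mem hx hy)]
    exact φ.map_add ⟨x, hx⟩ ⟨y, hy⟩
  · simp only [dif_pos x0.2]
    change φ x0 = 1
    revert hx0
    generalize φ x0 = z
    revert z
    decide
  · simp only [dif_pos hx, dif_pos (ha.mem g hg x hx)]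
    exact hφ ⟨g, hg⟩ ⟨x, hx⟩

/-- correction of a cocycle by a function with values in `F2` -/
theorem BLa_adj (hle : X' ≤ X₀)
    (hst : ∀ g ∈ H, ∀ x ∈ X', a g x ∈ X') {f : X → F2} {x0 : X} (hf : AddOn X' f) (h0 : x0 ∈ X')
    (h1 : f x0 = 1) (hinv : ∀ g ∈ H, ∀ x ∈ X', f (a g x) = f x) (hc : ZM T H a A X₀ X' c)
    {b : W → F2} (hb : SmOn T H b) :
    ∃ c', ZM T H a A X₀ X' c' ∧ (∀ g, c' g - c g ∈ X') ∧
      (∀ g ∈ H, ∀ h ∈ H, f (c' g + a g (c' h) - c' (g * h)) =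
        f (c g + a g (c h) - c (g * h)) - (b g + b h - b (g * h))) ∧
      ∀ t ∈ TA T A, f (c' t) = f (c t) - b t := by
  have k1 : ∀ z : F2, f (z.val • x0) = z := fun z => by
    rw [hf.nsmul h0, h1, nsmul_eq_mul, mul_one, ZMod.natCast_zmod_val]
  have k2 : ∀ z : F2, z.val • x0 ∈ X' := fun z => X'.nsmul_mem h0 _
  have k3 : ∀ g h, c g - (b g).val • x0 + a g (c h - (b h).val • x0) -
      (c (g * h) - (b (g * h)).val • x0) = (c g + a g (c h) - c (g * h)) -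
      ((b g).val • x0 + a g ((b h).val • x0) - (b (g * h)).val • x0) := fun g h => by
    rw [map_sub]
    abel
  have k4 : ∀ g ∈ H, ∀ h, (b g).val • x0 + a g ((b h).val • x0) ∈ X' := fun g hg h =>
    X'.add_mem (k2 _) (hst g hg _ (k2 _))
  refine ⟨fun g => c g - (b g).val • x0, ⟨fun g hg => ?_, ?_, fun g hg h hh => ?_, fun t ht => ?_⟩,
    fun g => ?_, fun g hg h hh => ?_, fun t ht => ?_⟩
  · exact X₀.sub_mem (hc.val g hg) (hle (k2 _))
  · obtain ⟨U₁, hU₁, e1⟩ := hc.sm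
    obtain ⟨U₂, hU₂, e2⟩ := hb
    exact ⟨_, T.adm_inf _ _ hU₁ hU₂, fun g hg u hu => by
      simp only [e1 g hg u hu.1, e2 g hg u hu.2]⟩
  · rw [k3]
    exact X'.sub_mem (hc.coc g hg h hh) (X'.sub_mem (k4 g hg h) (k2 _))
  · exact X'.sub_mem (hc.unr t ht) (k2 _)
  · rw [sub_sub_cancel_left]
    exact X'.neg_mem (k2 _)
  · rw [k3, hf.sub (hc.coc g hg h hh) (X'.sub_mem (k4 g hg h) (k2 _)), hf.sub (k4 g hg h) (k2 _),
      hf _ (k2 _) _ (hst g hg _ (k2 _)), hinv g hg _ (k2 _), k1, k1, k1]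
  · rw [hf.sub (hc.unr t ht) (k2 _), k1]

theorem lift_step (L : LefAx T) (hU : T.Adm U) (hUH : U ≤ H) (hH : H ≤ T.G0) (hA : A.Nonempty)
    (hτ : ∀ v ∉ A, T.τ v ∈ U) (ha : Act U H a X₀) (hle : X' ≤ X₀)
    (hst : ∀ g ∈ H, ∀ x ∈ X', a g x ∈ X') {f : X → F2} {x0 : X} (hf : AddOn X' f) (h0 : x0 ∈ X')
    (h1 : f x0 = 1) (hinv : ∀ g ∈ H, ∀ x ∈ X', f (a g x) = f x) {X'' : AddSubgroup X}
    (hX : ∀ x, x ∈ X'' ↔ x ∈ X' ∧ f x = 0) (hc : ZM T H a A X₀ X' c) :
    ∃ c', ZM T H a A X₀ X'' c' ∧ ∀ g ∈ H, c' g - c g ∈ X' := by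
  obtain ⟨b, hb, eb⟩ := L.h2 U H hU hUH hH (fun g h => f (c g + a g (c h) - c (g * h))) (by
      obtain ⟨U₁, hU₁, hle₁, e1⟩ := hc.sm.le hU
      refine ⟨U₁, hU₁, fun g hg h hh u hu u' hu' => ?_⟩
      have e2 : g * u * (h * u') = g * h * (h⁻¹ * u * h * u') := by group
      rw [e1 g hg u hu, e1 h hh u' hu', ha.mul g hg u (hUH (hle₁ hu)) _ (hc.val h hh),
        ha.triv u (hle₁ hu) _ (hc.val h hh), e2, e1 _ (H.mul_mem hg hh) _
          (U₁.mul_mem ((T.adm_normal _ hU₁).conj_mem' u hu h) hu')]) (by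
      intro g hg h hh l hl
      have m1 := hc.coc h hh l hl
      have m2 := hc.coc _ (H.mul_mem hg hh) l hl
      have m3 := hc.coc g hg _ (H.mul_mem hh hl)
      have m4 := hc.coc g hg h hh
      have e1 : a g (c h + a h (c l) - c (h * l)) + (c g + a g (c (h * l)) - c (g * (h * l))) =
          (c (g * h) + a (g * h) (c l) - c (g * h * l)) + (c g + a g (c h) - c (g * h)) := by
        rw [map_sub, map_add, ha.mul g hg h hh _ (hc.val l hl), mul_assoc]
        abel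
      have e2 := congrArg f e1
      rw [hf _ (hst g hg _ m1) _ m3, hf _ m2 _ m4, hinv g hg _ m1] at e2
      linear_combination e2)
  obtain ⟨c₁, z1, d1, f1, -⟩ := BLa_adj hle hst hf h0 h1 hinv hc hb
  have f1' : ∀ g ∈ H, ∀ h ∈ H, f (c₁ g + a g (c₁ h) - c₁ (g * h)) = 0 := fun g hg h hh => by
    rw [f1 g hg h hh, ← eb g hg h hh, sub_self]
  obtain ⟨χ, hχ, eχ, tχ⟩ := L.ram U H hU hUH hH A hA hτ (fun g => f (c₁ g)) (by
      obtain ⟨U₁, hU₁, e1⟩ := z1.sm
      exact ⟨U₁, hU₁, fun g hg u hu => by simp only [e1 g (hUH hg) u hu]⟩) (by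
      intro t ht x hx
      have hs := TA_conj ht x
      have hsU := TA_mem hU hτ hs
      have htH := hUH (TA_mem hU hτ ht)
      have m1 := z1.coc _ (hUH hsU) x hx
      have m2 := z1.coc x hx t htH
      have e1 : (c₁ (x * t * x⁻¹) + a (x * t * x⁻¹) (c₁ x) - c₁ (x * t * x⁻¹ * x)) -
          (c₁ x + a x (c₁ t) - c₁ (x * t)) = c₁ (x * t * x⁻¹) - a x (c₁ t) := by
        rw [ha.triv _ hsU _ (z1.val x hx), inv_mul_cancel_right]
        abel
      have e2 := congrArg f e1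
      rw [hf.sub m1 m2, f1' _ (hUH hsU) x hx, f1' x hx t htH, sub_self,
        hf.sub (z1.unr _ hs) (hst x hx _ (z1.unr t ht)), hinv x hx _ (z1.unr t ht)] at e2
      exact sub_eq_zero.1 e2.symm) (by
      intro t ht n
      have htU := TA_mem hU hτ ht
      suffices h : c₁ (t ^ n) ∈ X' ∧ f (c₁ (t ^ n)) = n • f (c₁ t) from h.2
      induction n with
      | zero =>
        have m1 := z1.coc 1 H.one_mem 1 H.one_mem
        have m2 := f1' 1 H.one_mem 1 H.one_mem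
        rw [mul_one, ha.triv 1 U.one_mem _ (z1.val 1 H.one_mem), add_sub_cancel_right] at m1 m2
        rw [pow_zero, zero_nsmul]
        exact ⟨m1, m2⟩
      | succ n ih =>
        have hn := U.pow_mem htU n
        have m1 := z1.coc _ (hUH hn) t (hUH htU)
        have m2 := f1' _ (hUH hn) t (hUH htU)
        rw [ha.triv _ hn _ (z1.val t (hUH htU)), ← pow_succ] at m1 m2
        have m3 := X'.add_mem ih.1 (z1.unr t ht)
        have m4 : c₁ (t ^ (n + 1)) ∈ X' := by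
          have := X'.sub_mem m3 m1
          rwa [sub_sub_cancel] at this
        rw [hf.sub m3 m4, hf _ ih.1 _ (z1.unr t ht), ih.2, sub_eq_zero] at m2
        exact ⟨m4, by rw [← m2, succ_nsmul]⟩)
  obtain ⟨c₂, z2, d2, f2, t2⟩ := BLa_adj hle hst hf h0 h1 hinv z1 hχ
  refine ⟨c₂, ⟨z2.val, z2.sm, fun g hg h hh => (hX _).2 ⟨z2.coc g hg h hh, ?_⟩,
    fun t ht => (hX _).2 ⟨z2.unr t ht, ?_⟩⟩, fun g _ => ?_⟩
  · rw [f2 g hg h hh, f1' g hg h hh, eχ g hg h hh, sub_self, sub_self]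
  · rw [t2 t ht, tχ t ht, sub_self]
  · have := X'.add_mem (d2 g) (d1 g)
    rwa [sub_add_sub_cancel] at this

theorem lift_two (L : LefAx T) (hU : T.Adm U) (hUH : U ≤ H) (hH : H ≤ T.G0)
    (he : U.relIndex H = 2 ^ e) (hA : A.Nonempty) (hτ : ∀ v ∉ A, T.τ v ∈ U) (ha : Act U H a X₀)
    (hle : X' ≤ X₀) (hst : ∀ g ∈ H, ∀ x ∈ X', a g x ∈ X') (hfin : (X' : Set X).Finite)
    (hk : ∀ x ∈ X', 2 ^ j • x = 0) (hc : ZM T H a A X₀ X' c) :
    ∃ c' ∈ ZH T H a A, ∀ g ∈ H, c' g - c g ∈ X' := by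
  induction hn : (X' : Set X).ncard using Nat.strong_induction_on generalizing X' c with
  | _ n ih =>
  by_cases hne : X' = ⊥
  · subst hne
    refine ⟨fun g => if g ∈ H then c g else 0, ⟨fun g hg => if_neg hg, ?_, fun g hg h hh => ?_,
      fun t ht => ?_⟩, fun g hg => ?_⟩
    · obtain ⟨U₁, hU₁, hle₁, e1⟩ := hc.sm.le hU
      refine ⟨U₁, hU₁, fun g hg u hu => ?_⟩
      simp only [if_pos hg, if_pos (H.mul_mem hg (hUH (hle₁ hu))), e1 g hg u hu]
    · simp only [if_pos hg, if_pos hh, if_pos (H.mul_mem hg hh)]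
      exact (sub_eq_zero.1 (AddSubgroup.mem_bot.1 (hc.coc g hg h hh))).symm
    · simp only [if_pos (hUH (TA_mem hU hτ ht))]
      exact AddSubgroup.mem_bot.1 (hc.unr t ht)
    · simp only [if_pos hg, sub_self]
      exact AddSubgroup.zero_mem _
  · have := T.adm_normal U hU
    obtain ⟨f, x0, hf, h0, h1, hinv⟩ := exists_inv_form (j := j) hUH he
      ⟨hst, fun g hg h hh x hx => ha.mul g hg h hh x (hle hx), fun u hu x hx => ha.triv u hu x (hle hx)⟩
      hfin hne hk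
    let X'' : AddSubgroup X := hf.hom.ker.map X'.subtype
    have hX : ∀ x, x ∈ X'' ↔ x ∈ X' ∧ f x = 0 := fun x =>
      ⟨by rintro ⟨y, hy, rfl⟩; exact ⟨y.2, hy⟩, fun h => ⟨⟨x, h.1⟩, h.2, rfl⟩⟩
    have hle' : X'' ≤ X' := fun x hx => ((hX x).1 hx).1
    obtain ⟨c₁, z1, d1⟩ := lift_step L hU hUH hH hA hτ ha hle hst hf h0 h1 hinv hX hc
    have hlt : (X'' : Set X).ncard < n := by
      rw [← hn]
      refine Set.ncard_lt_ncard ⟨hle', fun h => ?_⟩ hfin
      have := ((hX x0).1 (h h0)).2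
      rw [h1] at this
      exact one_ne_zero this
    obtain ⟨c₂, z2, d2⟩ := ih _ hlt (hle'.trans hle) (fun g hg x hx => (hX _).2
      ⟨hst g hg x (hle' hx), by rw [hinv g hg x (hle' hx), ((hX x).1 hx).2]⟩)
      (hfin.subset hle') (fun x hx => hk x (hle' hx)) z1 rfl
    refine ⟨c₂, z2, fun g hg => ?_⟩
    have := X'.add_mem (hle' (d2 g hg)) (d1 g hg)
    rwa [sub_add_sub_cancel] at this

end Pool.Agent.Lef
end

-- merged part: Pool.Agent.Work.MP_60d5ce_nt.Lb.BLb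
section
/-!
# Lifting of cocycles: transfer from a Sylow subgroup  (task LB BLb)

* `exists_sylow`: a Sylow `2`-subgroup of the finite group `T.G0 ⧸ U.subgroupOf T.G0`, pulled back (`Subgroup.comap`, `Subgroup.map T.G0.subtype`).
* `lift`: let `H` be as in `exists_sylow`, `z ∈ ZH T H a A` from `lift_two`, `m` the (odd) index, `r s = s.out` for
  `s : T.G0 ⧸ H.subgroupOf T.G0` (finite).  `cor g = ∑ s, a (r s) (z ((r s)⁻¹ * g * r (g⁻¹ • s)))` is a cocycle on `T.G0`, smooth (an element `u` of a normal subgroup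
  inside `H` fixes every coset; `(r s)⁻¹ g u r' = (r s)⁻¹ g r' * (r'⁻¹ u r')`), zero on `TA` (`TA_conj'`, `TA_mem`).  Modulo `X'` it equals
  `m • c g + a g y - y`, `y = ∑ s, c (r s)`, since `a r (c (r⁻¹ g r')) ≡ c (g r') - c r ≡ c g + a g (c r') - c r`.
  Choose `m'` with `m' * m ≡ 1 [MOD 2 ^ j]` and put `c' = m' • (cor - cob T a y)` (cut off outside `T.G0`; `cob_mem`).
-/

namespace Pool.Agent.Lef

open scoped Classical
open Pool.Agent.Quad

variable {W P : Type} [Group W] {T : Tame W P} {X : Type} [AddCommGroup X] {U : Subgroup W}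
  {a : W → X →+ X} {A : Finset P} {X₀ X' : AddSubgroup X} {c : W → X} {j : ℕ}

theorem exists_sylow (hU : T.Adm U) : ∃ (H : Subgroup W) (e : ℕ), U ≤ H ∧ H ≤ T.G0 ∧
    U.relIndex H = 2 ^ e ∧ Odd (H.relIndex T.G0) := by
  haveI := T.adm_normal U hU
  haveI : Fact (Nat.Prime 2) := ⟨Nat.prime_two⟩
  haveI : Finite (T.G0 ⧸ U.subgroupOf T.G0) := Nat.finite_of_card_ne_zero (T.adm_index U hU)
  obtain ⟨S⟩ : Nonempty (Sylow 2 (T.G0 ⧸ U.subgroupOf T.G0)) := inferInstance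
  obtain ⟨e, he⟩ := S.isPGroup'.exists_card_eq
  have hs := QuotientGroup.mk'_surjective (U.subgroupOf T.G0)
  have hK : ((S.toSubgroup.comap (QuotientGroup.mk' (U.subgroupOf T.G0))).map
      T.G0.subtype).subgroupOf T.G0 = S.toSubgroup.comap (QuotientGroup.mk' _) :=
    Subgroup.comap_map_eq_self_of_injective T.G0.subtype_injective _
  refine ⟨(S.toSubgroup.comap (QuotientGroup.mk' (U.subgroupOf T.G0))).map T.G0.subtype, e,
    fun u hu => ⟨⟨u, T.adm_le U hU hu⟩, ?_, rfl⟩, Subgroup.map_subtype_le _, ?_, ?_⟩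
  · have : QuotientGroup.mk' (U.subgroupOf T.G0) ⟨u, T.adm_le U hU hu⟩ = 1 :=
      (QuotientGroup.eq_one_iff _).2 hu
    rw [SetLike.mem_coe, Subgroup.mem_comap, this]
    exact S.toSubgroup.one_mem
  · rw [← Subgroup.relIndex_subgroupOf (Subgroup.map_subtype_le _), hK, ← he]
    have := Subgroup.relIndex_ker (S.toSubgroup.comap (QuotientGroup.mk' (U.subgroupOf T.G0)))
      (QuotientGroup.mk' (U.subgroupOf T.G0))
    rwa [QuotientGroup.ker_mk', Subgroup.map_comap_eq_self_of_surjective hs] at this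
  · rw [Subgroup.relIndex, hK, Subgroup.index_comap_of_surjective _ hs, ← Nat.not_even_iff_odd,
      even_iff_two_dvd]
    exact S.not_dvd_index

/-- a transversal and the action on it -/
theorem BLb_trans {G H : Subgroup W} (h0 : H.relIndex G ≠ 0) :
    ∃ (Ω : Type) (_ : Fintype Ω) (r : Ω → W) (π : W → Ω ≃ Ω), Fintype.card Ω = H.relIndex G ∧
      (∀ s, r s ∈ G) ∧ ∀ g ∈ G, ∀ s s', (r s)⁻¹ * g * r s' ∈ H ↔ π g s = s' := by
  haveI : Finite (G ⧸ H.subgroupOf G) := Nat.finite_of_card_ne_zero h0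
  letI := Fintype.ofFinite (G ⧸ H.subgroupOf G)
  refine ⟨G ⧸ H.subgroupOf G, this, fun s => (s.out : G),
    fun g => if hg : g ∈ G then MulAction.toPerm (⟨g, hg⟩ : G)⁻¹ else 1,
    Nat.card_eq_fintype_card.symm, fun s => s.out.2, fun g hg s s' => ?_⟩
  simp only [hg, dif_pos, MulAction.toPerm_apply]
  rw [← MulAction.Quotient.mk_smul_out]
  conv_rhs => rw [← s'.out_eq]
  rw [QuotientGroup.eq, Subgroup.mem_subgroupOf]
  simp only [smul_eq_mul, mul_inv_rev, inv_inv, Subgroup.coe_mul, Subgroup.coe_inv]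

/-- corestriction -/
theorem BLb_cor (hU : T.Adm U) (hτ : ∀ v ∉ A, T.τ v ∈ U) (ha : Act U T.G0 a X₀)
    {H : Subgroup W} (hUH : U ≤ H) (hH : H ≤ T.G0) {z : W → X} (hz : z ∈ ZH T H a A)
    (hv : ∀ g ∈ H, z g ∈ X₀) {Ω : Type} [Fintype Ω] {r : Ω → W} {π : W → Ω ≃ Ω}
    (hr : ∀ s, r s ∈ T.G0) (hπ : ∀ g ∈ T.G0, ∀ s s', (r s)⁻¹ * g * r s' ∈ H ↔ π g s = s') :
    (fun g => if g ∈ T.G0 then ∑ s, a (r s) (z ((r s)⁻¹ * g * r (π g s))) else 0) ∈
      ZH T T.G0 a A := by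
  obtain ⟨-, hs, hc, ht⟩ := hz
  obtain ⟨V, hV, hVU, hs⟩ := hs.le hU
  have k1 : ∀ g ∈ T.G0, ∀ s, (r s)⁻¹ * g * r (π g s) ∈ H := fun g hg s => (hπ g hg s _).2 rfl
  have e1 : ∀ g h x y w : W, x⁻¹ * (g * h) * w = x⁻¹ * g * y * (y⁻¹ * h * w) := by
    intros
    group
  have k2 : ∀ g ∈ T.G0, ∀ h ∈ T.G0, ∀ s, π (g * h) s = π h (π g s) := fun g hg h hh s => by
    rw [← hπ _ (mul_mem hg hh), e1 g h _ (r (π g s))]
    exact mul_mem (k1 g hg s) (k1 h hh _)
  have k3 : ∀ u ∈ U, ∀ s, π u s = s := fun u hu s =>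
    (hπ u (T.adm_le U hU hu) s s).1 (hUH ((T.adm_normal U hU).conj_mem' u hu _))
  refine ⟨fun g hg => if_neg hg, ⟨V, hV, fun g hg u hu => ?_⟩, fun g hg h hh => ?_,
    fun t h => ?_⟩
  · have hu' := T.adm_le V hV hu
    simp only [if_pos hg, if_pos (mul_mem hg hu')]
    refine Finset.sum_congr rfl fun s _ => ?_
    rw [k2 g hg u hu', k3 u (hVU hu), e1 g u _ (r (π g s)),
      hs _ (k1 g hg s) _ ((T.adm_normal V hV).conj_mem' u hu _)]
  · simp only [if_pos hg, if_pos hh, if_pos (mul_mem hg hh)]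
    rw [map_sum, ← (π g).sum_comp fun s => a g (a (r s) (z ((r s)⁻¹ * h * r (π h s)))),
      ← Finset.sum_add_distrib]
    refine Finset.sum_congr rfl fun s _ => ?_
    have := hv _ (k1 h hh (π g s))
    rw [k2 g hg h hh, e1 g h _ (r (π g s)), hc _ (k1 g hg s) _ (k1 h hh _), map_add,
      ← ha.mul _ (hr s) _ (hH (k1 g hg s)) _ this, ← ha.mul _ hg _ (hr _) _ this, mul_assoc _ g,
      mul_inv_cancel_left]
  · have hu := TA_mem hU hτ h
    simp only [if_pos (T.adm_le U hU hu)]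
    refine Finset.sum_eq_zero fun s _ => ?_
    rw [k3 t hu, ht _ (TA_conj' h _), map_zero]

theorem lift (L : LefAx T) (hU : T.Adm U) (hA : A.Nonempty) (hτ : ∀ v ∉ A, T.τ v ∈ U)
    (ha : Act U T.G0 a X₀) (hle : X' ≤ X₀) (hst : ∀ g ∈ T.G0, ∀ x ∈ X', a g x ∈ X')
    (hfin : (X' : Set X).Finite) (hk : ∀ x ∈ X₀, 2 ^ j • x = 0) (hc : ZM T T.G0 a A X₀ X' c) :
    ∃ c' ∈ ZH T T.G0 a A, ∀ g ∈ T.G0, c' g - c g ∈ X' := by
  obtain ⟨H, e, hUH, hH, he, hodd⟩ := exists_sylow hU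
  obtain ⟨z, hz, hzc⟩ := lift_two (j := j) L hU hUH hH he hA hτ
    ⟨fun g hg => ha.mem g (hH hg), fun g hg h hh => ha.mul g (hH hg) h (hH hh), ha.triv⟩ hle
    (fun g hg => hst g (hH hg)) hfin (fun x hx => hk x (hle hx))
    ⟨fun g hg => hc.val g (hH hg), hc.sm.mono hH, fun g hg h hh => hc.coc g (hH hg) h (hH hh),
      hc.unr⟩
  have hv : ∀ g ∈ H, z g ∈ X₀ := fun g hg => by
    simpa using X₀.add_mem (hle (hzc g hg)) (hc.val g (hH hg))
  obtain ⟨Ω, _, r, π, hcard, hr, hπ⟩ := BLb_trans hodd.pos.ne'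
  have hy : ∑ s, c (r s) ∈ X₀ := sum_mem fun s _ => hc.val _ (hr s)
  obtain ⟨u, v, huv⟩ := Nat.Coprime.isCoprime
    ((Nat.coprime_two_right.2 hodd).pow_right j : (H.relIndex T.G0).Coprime (2 ^ j))
  refine ⟨_, AddSubgroup.zsmul_mem _
    (sub_mem (BLb_cor hU hτ ha hUH hH hz hv hr hπ) (cob_mem hU hτ ha hy)) u, fun g hg => ?_⟩
  have h1 : c g = u • ∑ _s : Ω, c g := by
    have := congrArg (· • c g) huv
    simp only [add_smul, mul_smul, natCast_zsmul, hk _ (hc.val g hg), smul_zero, add_zero,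
      one_smul] at this
    rw [Finset.sum_const, Finset.card_univ, hcard, this]
  rw [Pi.smul_apply, Pi.sub_apply, cob_apply, if_pos hg, if_pos (mem_G0.1 hg), h1, ← smul_sub,
    map_sum, ← (π g).sum_comp fun s => a g (c (r s)), ← Finset.sum_sub_distrib,
    ← Finset.sum_sub_distrib, ← Finset.sum_sub_distrib]
  refine X'.zsmul_mem (sum_mem fun s _ => ?_) u
  have k1 := (hπ g hg s _).2 rfl
  have h2 := hst _ (hr s) _ (hzc _ k1)
  have h3 := hc.coc _ (hr s) _ (hH k1)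
  have h4 := hc.coc _ hg _ (hr (π g s))
  rw [mul_assoc _ g, mul_inv_cancel_left, ← mul_assoc] at h3
  have h5 := X'.sub_mem (X'.add_mem h2 h3) h4
  rw [map_sub] at h5
  refine (congrArg (· ∈ X') ?_).mp h5
  abel

end Pool.Agent.Lef
end

-- merged part: Pool.Agent.Work.MP_60d5ce_nt.Lb.BHig
section
/-!
# The cocycle module is projective; reduction of a basis  (task LB BHig)

* `exists_higman`: let `Q = QQ T U A R`, `X = Q →+ (W ⧸ U → R)`, `a g h = (aL U R g).comp h`, `X₀` the maps with values in `M0 T U R` (finite, `M0_finite`),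
  `Nm h = ∑ δ, (c ↦ (s ↦ h (opQ 1 δ⁻¹ c) (s * δ)))` (sum over `Gn T U 0`; `opQ_mem`), `X' = X₀ ⊓ ker Nm`; `Nm` commutes with `a g`.
  Put `c0 g = (c ↦ (s ↦ if s = 1 then c g 1 else 0))`.  Then `Nm (c0 g) = (c ↦ c g)` (for `s` of degree zero only `δ = s⁻¹` contributes; otherwise both sides vanish),
  hence `ZM T T.G0 a A X₀ X' c0` (one witness of smoothness for the finitely many `c ∈ Q`: `Tame.exists_adm_le`).  `lift` gives `c'`; `e c g = c' g c` for `c ∈ Q`.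
* `exists_redQ`: `red = ZMod.castHom`.  If `red x = 0` then `x = 2 ^ (j + 1) • y`; so `e'` is well defined (`e' x' = red ∘ e (lift x')`, `lift = ZMod.cast` or `.val`).
  Injective: if `red ∘ e x = 0` then `2 ^ (J - j) • e x = 0`, so `2 ^ (J - j) • x = 0`.  Onto: `lift` with `X₀ = M0`, `X' = M0 ⊓ {F | red ∘ F = 0}`,
  `c g s = ((c' g s).val : _)`; `act_aL`.
-/

namespace Pool.Agent.Lef

open scoped Classical
open Pool.Agent.Quad

variable {W P : Type} [Group W] {T : Tame W P} {U : Subgroup W} [U.Normal] {A : Finset P}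

/-- additive maps with values in `M` -/
def BHig_vals (Q : Type) {Y : Type} [AddCommGroup Q] [AddCommGroup Y] (M : AddSubgroup Y) :
    AddSubgroup (Q →+ Y) where
  carrier := {h | ∀ c, h c ∈ M}
  zero_mem' _ := zero_mem M
  add_mem' h k c := add_mem (h c) (k c)
  neg_mem' h c := neg_mem (h c)

theorem BHig_inv {δ : W ⧸ U} (h : δ ∈ Gn T U 0) : δ⁻¹ ∈ Gn T U (T.deg 1) := by
  obtain ⟨g, rfl, hg⟩ := h
  exact ⟨g⁻¹, rfl, by rw [T.deg_inv, hg, T.deg_one, neg_zero]⟩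

theorem exists_higman (L : LefAx T) (hU : T.Adm U) (hA : A.Nonempty) (hτ : ∀ v ∉ A, T.τ v ∈ U)
    {R : Type} [AddCommGroup R] [Finite R] {j : ℕ} (hR : ∀ r : R, 2 ^ j • r = 0)
    (hfin : (QQ T U A R : Set (W → W ⧸ U → R)).Finite) :
    ∃ e : (W → W ⧸ U → R) → W → W ⧸ U → R, EndOn (QQ T U A R) e ∧ ∀ c ∈ QQ T U A R,
      ∑ δ ∈ (Gn_finite hU 0).toFinset, opQ U R 1 δ (e (opQ U R 1 δ⁻¹ c)) = c := by
  obtain ⟨S, hS⟩ : ∃ S, S = (Gn_finite hU 0).toFinset := ⟨_, rfl⟩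
  have hmem : ∀ δ, δ ∈ S ↔ δ ∈ Gn T U 0 := fun δ => by rw [hS, Set.Finite.mem_toFinset]
  rw [← hS]
  obtain ⟨φ, hφ⟩ : ∃ φ : W ⧸ U → QQ T U A R → QQ T U A R, ∀ δ ∈ S, ∀ c,
      (φ δ c : W → W ⧸ U → R) = opQ U R 1 δ⁻¹ c :=
    ⟨fun δ c => if h : δ ∈ S then ⟨_, opQ_mem hU (BHig_inv ((hmem δ).1 h)) c.2⟩ else c,
      fun δ h c => by simp only [dif_pos h]⟩
  obtain ⟨Nm, hN⟩ : ∃ Nm : (QQ T U A R →+ (W ⧸ U → R)) →+ (QQ T U A R → W ⧸ U → R),
      ∀ h c s, Nm h c s = ∑ δ ∈ S, h (φ δ c) (s * δ) :=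
    ⟨AddMonoidHom.mk' (fun h c s => ∑ δ ∈ S, h (φ δ c) (s * δ)) fun h k => by
      funext c s
      exact Finset.sum_add_distrib, fun _ _ _ => rfl⟩
  obtain ⟨c0, h0⟩ : ∃ c0 : W → QQ T U A R →+ (W ⧸ U → R),
      ∀ g c s, c0 g c s = if s = 1 then c.1 g 1 else 0 :=
    ⟨fun g => AddMonoidHom.mk' (fun c s => if s = 1 then c.1 g 1 else 0) fun c d => by
      funext s
      by_cases h : s = 1 <;> simp [h], fun _ _ _ => rfl⟩
  obtain ⟨a, ha⟩ : ∃ a : W → (QQ T U A R →+ (W ⧸ U → R)) →+ (QQ T U A R →+ (W ⧸ U → R)),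
      ∀ g h c, a g h c = aL U R g (h c) :=
    ⟨fun g => AddMonoidHom.compHom (aL U R g), fun _ _ _ => rfl⟩
  have hNa : ∀ g h c, Nm (a g h) c = aL U R g (Nm h c) := fun g h c => by
    funext s
    simp only [hN, ha, aL_apply, mul_assoc]
  have hN0 : ∀ g c, Nm (c0 g) c = c.1 g := fun g c => by
    funext s
    rw [hN, Finset.sum_congr rfl fun δ hδ => by
      rw [h0, hφ δ hδ, opQ_apply, if_congr mul_eq_one_iff_inv_eq rfl rfl], Finset.sum_ite_eq]
    split_ifs with h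
    · simp
    · obtain ⟨w, rfl⟩ := QuotientGroup.mk_surjective s
      refine (mem_vals.1 c.2.2 g w fun hw => h ((hmem _).2 ?_)).symm
      exact T.deg_one ▸ BHig_inv ⟨w, rfl, hw⟩
  have act := act_aL (T := T) (U := U) R
  have hact : Act U T.G0 a (BHig_vals _ (M0 T U R)) :=
    ⟨fun g hg h hh c => ha g h c ▸ act.mem g hg _ (hh c),
      fun g hg k hk h hh => AddMonoidHom.ext fun c => by
        rw [ha, ha, ha, act.mul g hg k hk _ (hh c)],
      fun u hu h hh => AddMonoidHom.ext fun c => by rw [ha, act.triv u hu _ (hh c)]⟩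
  have hv : ∀ g, c0 g ∈ BHig_vals _ (M0 T U R) := fun g c w hw => by
    rw [h0, if_neg fun h : (w : W ⧸ U) = 1 => hw ((deg_eq_of_mk hU (h := 1) h).trans T.deg_one)]
  have : Finite (QQ T U A R) := hfin
  obtain ⟨c', hc', hd⟩ := lift (a := a) (X₀ := BHig_vals _ (M0 T U R))
    (X' := BHig_vals _ (M0 T U R) ⊓ Nm.ker) (c := c0) (j := j) L hU hA hτ hact inf_le_left
    (fun g hg h hh => ⟨hact.mem g hg h hh.1, funext fun c => by
      rw [hNa, show Nm h = 0 from hh.2, Pi.zero_apply, map_zero]⟩)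
    (((Set.Finite.pi' fun _ : QQ T U A R => M0_finite hU R).preimage
      DFunLike.coe_injective.injOn).subset fun h hh => hh.1)
    (fun h _ => AddMonoidHom.ext fun c => funext fun s => hR _)
    ⟨fun g _ => hv g, by
      obtain ⟨U', hU', h⟩ := Tame.exists_adm_le (T := T) hfin.toFinset
        (fun c U' => ∀ g ∈ T.G0, ∀ u ∈ U', c (g * u) = c g)
        (fun c _ _ h hle g hg u hu => h g hg u (hle hu))
        fun c hc => (hfin.mem_toFinset.1 hc).1.2.1
      refine ⟨U', hU', fun g hg u hu => AddMonoidHom.ext fun c => funext fun s => ?_⟩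
      rw [h0, h0, h c (hfin.mem_toFinset.2 c.2) g hg u hu],
    fun g hg k hk => ⟨(BHig_vals _ _).sub_mem (add_mem (hv g) (hact.mem g hg _ (hv k))) (hv _),
      funext fun c => by
      rw [map_sub, map_add, Pi.sub_apply, Pi.add_apply, hNa, hN0, hN0, hN0,
        c.2.1.2.2.1 g hg k hk, sub_self, Pi.zero_apply]⟩,
    fun t ht => ⟨hv t, funext fun c => by rw [hN0, c.2.1.2.2.2 t ht, Pi.zero_apply]⟩⟩
  obtain ⟨e, he⟩ : ∃ e : (W → W ⧸ U → R) → W → W ⧸ U → R, ∀ c (h : c ∈ QQ T U A R) g,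
      e c g = c' g ⟨c, h⟩ :=
    ⟨fun c g => if h : c ∈ QQ T U A R then c' g ⟨c, h⟩ else 0, fun c h _ => dif_pos h⟩
  refine ⟨e, ⟨fun c hc => ?_, fun c hc d hd => ?_⟩, fun c hc => ?_⟩
  · obtain ⟨k0, ⟨U', hU', k1⟩, k2, k3⟩ := hc'
    have he := he c hc
    refine ⟨⟨fun g hg => by rw [he, k0 g hg]; rfl,
      ⟨U', hU', fun g hg u hu => by rw [he, he, k1 g hg u hu]⟩,
      fun g hg k hk => by rw [he, he, he, k2 g hg k hk, AddMonoidHom.add_apply, ha],
      fun t ht => by rw [he, k3 t ht]; rfl⟩, mem_vals.2 fun g => ?_⟩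
    rw [he]
    by_cases hg : g ∈ T.G0
    · exact (sub_add_cancel (c' g) (c0 g) ▸ add_mem (hd g hg).1 (hv g) :
        c' g ∈ BHig_vals _ (M0 T U R)) _
    · rw [k0 g hg]
      exact zero_mem _
  · funext g
    rw [Pi.add_apply, he c hc, he d hd, he _ (add_mem hc hd)]
    exact map_add (c' g) ⟨c, hc⟩ ⟨d, hd⟩
  · funext g s
    rw [Finset.sum_apply, Finset.sum_apply, Finset.sum_congr rfl fun δ hδ =>
      show _ = c' g (φ δ ⟨c, hc⟩) (s * δ) by
        rw [opQ_apply, ← hφ δ hδ ⟨c, hc⟩, he _ (φ δ ⟨c, hc⟩).2]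
        simp, ← hN]
    by_cases hg : g ∈ T.G0
    · rw [sub_eq_zero.1 ((map_sub Nm _ _).symm.trans (hd g hg).2), hN0]
    · rw [hc'.1 g hg, map_zero, hc.1.1 g hg]
      rfl

/-- reduction -/
def redZ {j J : ℕ} (h : j ≤ J) : ZMod (2 ^ (J + 1)) →+* ZMod (2 ^ (j + 1)) :=
  ZMod.castHom (pow_dvd_pow 2 (Nat.succ_le_succ h)) _

theorem BHig_red {j J : ℕ} (h : j ≤ J) (x : ZMod (2 ^ (J + 1))) :
    redZ h x = 0 ↔ 2 ^ (J - j) • x = 0 := by
  obtain ⟨n, rfl⟩ := ZMod.natCast_zmod_surjective x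
  rw [map_natCast, nsmul_eq_mul, ← Nat.cast_mul, ZMod.natCast_eq_zero_iff,
    ZMod.natCast_eq_zero_iff, show J + 1 = J - j + (j + 1) by omega, pow_add 2 (J - j),
    Nat.mul_dvd_mul_iff_left (by positivity)]

theorem BHig_val {j J : ℕ} (h : j ≤ J) (y : ZMod (2 ^ (j + 1))) :
    redZ h (y.val : ZMod (2 ^ (J + 1))) = y := by
  rw [map_natCast, ZMod.natCast_zmod_val]

theorem BHig_map {R R' : Type} [AddCommGroup R] [AddCommGroup R'] (f : R →+ R')
    {c : W → W ⧸ U → R} (hc : c ∈ QQ T U A R) {d : W → W ⧸ U → R'} (h : ∀ g s, d g s = f (c g s)) :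
    d ∈ QQ T U A R' := by
  obtain ⟨⟨k0, ⟨U', hU', k1⟩, k2, k3⟩, k4⟩ := hc
  refine ⟨⟨fun g hg => funext fun s => by rw [h, k0 g hg]; exact map_zero f,
    ⟨U', hU', fun g hg u hu => funext fun s => by rw [h, h, k1 g hg u hu]⟩,
    fun g hg k hk => funext fun s => by
      rw [h, k2 g hg k hk, Pi.add_apply, Pi.add_apply, aL_apply, aL_apply, h, h, map_add],
    fun t ht => funext fun s => by rw [h, k3 t ht]; exact map_zero f⟩,
    mem_vals.2 fun g w hw => ?_⟩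
  rw [h, mem_vals.1 k4 g w hw, map_zero]

theorem exists_redQ (L : LefAx T) (hU : T.Adm U) (hA : A.Nonempty) (hτ : ∀ v ∉ A, T.τ v ∈ U)
    {j J : ℕ} (h : j ≤ J) {r : ℕ}
    (e : (Fin r → ZMod (2 ^ (J + 1))) →+ (W → W ⧸ U → ZMod (2 ^ (J + 1))))
    (he : Function.Injective e) (hr : e.range = QQ T U A (ZMod (2 ^ (J + 1)))) :
    ∃ e' : (Fin r → ZMod (2 ^ (j + 1))) →+ (W → W ⧸ U → ZMod (2 ^ (j + 1))),
      Function.Injective e' ∧ e'.range = QQ T U A (ZMod (2 ^ (j + 1))) ∧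
      ∀ x g s, e' (fun i => redZ h (x i)) g s = redZ h (e x g s) := by
  obtain ⟨e', he'⟩ : ∃ e' : (Fin r → ZMod (2 ^ (j + 1))) →+ (W → W ⧸ U → ZMod (2 ^ (j + 1))),
      ∀ x g s, e' (fun i => redZ h (x i)) g s = redZ h (e x g s) := by
    have hk : ((redZ h).toAddMonoidHom.compLeft (Fin r)).ker ≤
        ((((redZ h).toAddMonoidHom.compLeft (W ⧸ U)).compLeft W).comp e).ker := fun x hx => by
      have : 2 ^ (J - j) • x = 0 := funext fun i => (BHig_red h _).1 (congrFun hx i)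
      funext g s
      refine (BHig_red h _).2 ?_
      change (2 ^ (J - j) • e x) g s = 0
      rw [← map_nsmul, this, map_zero]
      rfl
    have hl := AddMonoidHom.liftOfRightInverse_comp_apply ((redZ h).toAddMonoidHom.compLeft (Fin r))
      (fun y i => ((y i).val : ZMod (2 ^ (J + 1)))) (fun y => funext fun i => BHig_val h (y i))
      ⟨_, hk⟩
    exact ⟨_, fun x g s => congrFun (congrFun (hl x) g) s⟩
  have hs : ∀ y : Fin r → ZMod (2 ^ (j + 1)), ∃ x : Fin r → ZMod (2 ^ (J + 1)),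
      (fun i => redZ h (x i)) = y := fun y => ⟨_, funext fun i => BHig_val h (y i)⟩
  refine ⟨e', (injective_iff_map_eq_zero e').2 fun y hy => ?_, le_antisymm ?_ fun c hc => ?_, he'⟩
  · obtain ⟨x, rfl⟩ := hs y
    have : 2 ^ (J - j) • x = 0 := he (by
      rw [map_nsmul, map_zero]
      funext g s
      exact (BHig_red h _).1 (by rw [← he', hy]; rfl))
    exact funext fun i => (BHig_red h _).2 (congrFun this i)
  · rintro _ ⟨y, rfl⟩
    obtain ⟨x, rfl⟩ := hs y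
    exact BHig_map (redZ h).toAddMonoidHom (hr ▸ ⟨x, rfl⟩) (he' x)
  · obtain ⟨⟨k0, ⟨U', hU', k1⟩, k2, k3⟩, k4⟩ := hc
    have act := act_aL (T := T) (U := U) (ZMod (2 ^ (J + 1)))
    obtain ⟨d, hc⟩ : ∃ d : W → W ⧸ U → ZMod (2 ^ (J + 1)), ∀ g s, d g s = (c g s).val :=
      ⟨_, fun _ _ => rfl⟩
    have hr' : ∀ g s, redZ h (d g s) = c g s := fun g s => by rw [hc, BHig_val]
    have hv : ∀ g, d g ∈ M0 T U _ := fun g w hw => by
      rw [hc, mem_vals.1 k4 g w hw, ZMod.val_zero, Nat.cast_zero]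
    obtain ⟨c', hc', hd⟩ := lift (X₀ := M0 T U _)
      (X' := M0 T U _ ⊓ ((redZ h).toAddMonoidHom.compLeft (W ⧸ U)).ker)
      (c := d) (j := J + 1) L hU hA hτ act inf_le_left
      (fun g hg F hF => ⟨act.mem g hg F hF.1, funext fun s => congrFun hF.2 _⟩)
      ((M0_finite hU _).subset fun F hF => hF.1)
      (fun F _ => funext fun s => by
        rw [Pi.smul_apply, nsmul_eq_mul, ZMod.natCast_self, zero_mul, Pi.zero_apply])
      ⟨fun g _ => hv g, ⟨U', hU', fun g hg u hu => funext fun s => by rw [hc, hc, k1 g hg u hu]⟩,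
        fun g hg k hk => ⟨(M0 T U _).sub_mem (add_mem (hv g) (act.mem g hg _ (hv k))) (hv _),
          funext fun s => by
            change redZ h (d g s + d k _ - d _ s) = 0
            rw [map_sub, map_add, hr', hr', hr', k2 g hg k hk]
            exact sub_self _⟩,
        fun t ht => ⟨hv t, funext fun s => by
          change redZ h (d t s) = 0
          rw [hr', k3 t ht, Pi.zero_apply]⟩⟩
    obtain ⟨x, rfl⟩ : c' ∈ e.range := by
      refine hr ▸ ⟨hc', mem_vals.2 fun g => ?_⟩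
      by_cases hg : g ∈ T.G0
      · exact sub_add_cancel (c' g) _ ▸ add_mem (hd g hg).1 (hv g)
      · rw [hc'.1 g hg]
        exact zero_mem _
    refine ⟨fun i => redZ h (x i), funext fun g => funext fun s => ?_⟩
    rw [he']
    by_cases hg : g ∈ T.G0
    · have : redZ h (e x g s - d g s) = 0 := congrFun (hd g hg).2 s
      rwa [map_sub, hr', sub_eq_zero] at this
    · rw [hc'.1 g hg, k0 g hg]
      exact map_zero _

end Pool.Agent.Lef
end

-- merged part: Pool.Agent.Work.MP_60d5ce_nt.Lb.BLin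
section
/-!
# Linear algebra and counting for the trace formula  (task LB BLin)

* `lin_tr`: `hasTr_proj` with `p = ∑ δ ∈ s, (R δ * E) ⊗ₖ ρ δ` (`Matrix.mul_kronecker_mul`, `Matrix.trace_kronecker`).  For `z ∈ KK`:
  `((R δ * E) ⊗ₖ ρ δ) z = ((R δ * E * R δ⁻¹) ⊗ₖ 1) ((R δ ⊗ₖ ρ δ) z)`.
* `lin_cnt`: `tr (F R δ) = ∑ ε, tr (F R δ R ε E R ε⁻¹) = ∑ ε, tr (F R (γ⁻¹ ε⁻¹ γ δ ε) E)`, and for fixed `ε` the map `δ ↦ γ⁻¹ ε⁻¹ γ δ ε` permutes `G`.
* `cnt_one`, `cnt_two`: exchange the sums; for each `s` there is exactly one `δ`.  The cosets of degree in `[0, e)` are `e * index` many (`Gn_ncard`).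
* `cancel_two`: `m = 2 ^ a * m'` with `m'` odd, a unit.
-/

namespace Pool.Agent.Lef

open scoped Classical Kronecker
open Pool.Agent.Quad

section lin

variable {Γ ι I : Type} [Group Γ] [Fintype ι] [DecidableEq ι] [Fintype I] [DecidableEq I]

/-- invariant vectors -/
def KK {Λ : Type} [CommRing Λ] (G : Set Γ) (R : Γ → Matrix ι ι Λ) (ρ : Γ → Matrix I I Λ) :
    AddSubgroup (ι × I → Λ) where
  carrier := {z | ∀ δ ∈ G, (R δ ⊗ₖ ρ δ).mulVec z = z}
  zero_mem' _ _ := Matrix.mulVec_zero _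
  add_mem' {x y} hx hy δ h := by rw [Matrix.mulVec_add, hx δ h, hy δ h]
  neg_mem' {x} hx δ h := by rw [Matrix.mulVec_neg, hx δ h]

variable {G : Subgroup Γ} {s : Finset Γ} {γ : Γ}

omit [Fintype ι] [DecidableEq ι] [Fintype I] [DecidableEq I] in
theorem blin_sum {M : Type} [AddCommMonoid M] (hs : ∀ δ, δ ∈ s ↔ δ ∈ G) {a b : Γ} (ha : a ∈ G)
    (hb : b ∈ G) (f : Γ → M) : ∑ δ ∈ s, f (a * δ * b) = ∑ δ ∈ s, f δ := by
  refine Finset.sum_nbij' (fun δ => a * δ * b) (fun δ => a⁻¹ * δ * b⁻¹) (fun δ h => ?_)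
    (fun δ h => ?_) (fun δ _ => by group) (fun δ _ => by group) fun _ _ => rfl
  · exact (hs _).2 (G.mul_mem (G.mul_mem ha ((hs _).1 h)) hb)
  · exact (hs _).2 (G.mul_mem (G.mul_mem (G.inv_mem ha) ((hs _).1 h)) (G.inv_mem hb))

omit [Group Γ] [Fintype ι] [DecidableEq ι] [Fintype I] [DecidableEq I] in
theorem blin_kron {Λ : Type} [CommRing Λ] (s : Finset Γ) (A : Γ → Matrix ι ι Λ)
    (B : Matrix I I Λ) : ∑ δ ∈ s, A δ ⊗ₖ B = (∑ δ ∈ s, A δ) ⊗ₖ B := by
  ext ⟨x, x'⟩ ⟨y, y'⟩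
  simp only [Matrix.sum_apply, Matrix.kronecker_apply, Finset.sum_mul]

theorem lin_tr {j : ℕ} (hs : ∀ δ, δ ∈ s ↔ δ ∈ G) (hγ : ∀ δ ∈ G, γ⁻¹ * δ * γ ∈ G)
    {R : Γ → Matrix ι ι (ZMod (2 ^ (j + 1)))} {F E : Matrix ι ι (ZMod (2 ^ (j + 1)))}
    (hR : ∀ δ ∈ G, ∀ ε ∈ G, R (δ * ε) = R δ * R ε) (h1 : R 1 = 1)
    (hF : ∀ δ ∈ G, R δ * F = F * R (γ⁻¹ * δ * γ)) (hE : ∑ δ ∈ s, R δ * E * R δ⁻¹ = 1)
    {ρ : Γ → Matrix I I (ZMod (2 ^ (j + 1)))} (hρ : ∀ x y, ρ (x * y) = ρ x * ρ y) :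
    HasTr (2 ^ (j + 1)) (KK G R ρ) (F ⊗ₖ ρ γ).mulVec
      (∑ δ ∈ s, (F * R δ * E).trace * (ρ (γ * δ)).trace) := by
  have key := hasTr_proj (KK G R ρ) (F ⊗ₖ ρ γ) (∑ δ ∈ s, (R δ * E) ⊗ₖ ρ δ) (fun x ε hε => ?_)
    (fun z hz => ?_) (fun z hz δ hδ => ?_)
  · convert key using 1
    rw [Finset.mul_sum, Matrix.trace_sum]
    refine Finset.sum_congr rfl fun δ _ => ?_
    rw [← Matrix.mul_kronecker_mul, Matrix.trace_kronecker, hρ, Matrix.mul_assoc]
  · rw [Matrix.mulVec_mulVec, Finset.mul_sum,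
      ← blin_sum hs hε G.one_mem fun δ => (R δ * E) ⊗ₖ ρ δ]
    congr 1
    refine Finset.sum_congr rfl fun δ hδ => ?_
    rw [← Matrix.mul_kronecker_mul, mul_one, hR ε hε δ ((hs _).1 hδ), hρ, Matrix.mul_assoc]
  · have : ∀ δ ∈ s, ((R δ * E) ⊗ₖ ρ δ).mulVec z =
        ((R δ * E * R δ⁻¹) ⊗ₖ (1 : Matrix I I (ZMod (2 ^ (j + 1))))).mulVec z := by
      intro δ hδ
      have hd := (hs _).1 hδ
      conv_rhs => rw [← hz δ hd]
      rw [Matrix.mulVec_mulVec, ← Matrix.mul_kronecker_mul, Matrix.one_mul,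
        Matrix.mul_assoc _ (R δ⁻¹), ← hR _ (G.inv_mem hd) _ hd, inv_mul_cancel, h1,
        Matrix.mul_one]
    rw [Matrix.sum_mulVec, Finset.sum_congr rfl this, ← Matrix.sum_mulVec, blin_kron, hE,
      Matrix.one_kronecker_one, Matrix.one_mulVec]
  · conv_rhs => rw [← hz _ (hγ δ hδ)]
    rw [Matrix.mulVec_mulVec, Matrix.mulVec_mulVec, ← Matrix.mul_kronecker_mul,
      ← Matrix.mul_kronecker_mul, hF δ hδ, ← hρ, ← hρ]
    congr 3
    group

theorem lin_cnt {Λ : Type} [CommRing Λ] (hs : ∀ δ, δ ∈ s ↔ δ ∈ G)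
    (hγ : ∀ δ ∈ G, γ⁻¹ * δ * γ ∈ G) {R : Γ → Matrix ι ι Λ} {F E : Matrix ι ι Λ}
    (hR : ∀ δ ∈ G, ∀ ε ∈ G, R (δ * ε) = R δ * R ε) (h1 : R 1 = 1)
    (hF : ∀ δ ∈ G, R δ * F = F * R (γ⁻¹ * δ * γ)) (hE : ∑ δ ∈ s, R δ * E * R δ⁻¹ = 1)
    {χ : Γ → Λ} (hχ : ∀ x y, χ (y⁻¹ * x * y) = χ x) :
    (s.card : Λ) * ∑ δ ∈ s, (F * R δ * E).trace * χ (γ * δ) =
      ∑ δ ∈ s, (F * R δ).trace * χ (γ * δ) := by
  have key : ∀ ε ∈ s, ∑ δ ∈ s, (F * R δ * (R ε * E * R ε⁻¹)).trace * χ (γ * δ) =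
      ∑ δ ∈ s, (F * R δ * E).trace * χ (γ * δ) := by
    intro ε hε
    have he := (hs _).1 hε
    have ha := hγ _ (G.inv_mem he)
    rw [← blin_sum hs ha he fun δ => (F * R δ * E).trace * χ (γ * δ)]
    refine Finset.sum_congr rfl fun δ hδ => ?_
    have hd := (hs _).1 hδ
    have e1 : γ * (γ⁻¹ * ε⁻¹ * γ * δ * ε) = ε⁻¹ * (γ * δ) * ε := by group
    rw [e1, hχ, hR _ (G.mul_mem ha hd) _ he, hR _ ha _ hd, ← Matrix.mul_assoc, ← Matrix.mul_assoc,
      Matrix.trace_mul_comm, ← Matrix.mul_assoc F, ← Matrix.mul_assoc F, ← hF _ (G.inv_mem he)]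
    simp only [Matrix.mul_assoc]
  rw [← nsmul_eq_mul, ← Finset.sum_const, ← Finset.sum_congr rfl key, Finset.sum_comm]
  refine Finset.sum_congr rfl fun δ _ => ?_
  rw [← Finset.sum_mul, ← Matrix.trace_sum, ← Finset.mul_sum, hE, Matrix.mul_one]

end lin

variable {W P : Type} [Group W] {T : Tame W P} {U : Subgroup W} [U.Normal] {Λ : Type} [CommRing Λ]

theorem blin_fib {α β : Type} {S : Set α} (hS : S.Finite) {D : Finset β} (φ : α → β)
    (hφ : ∀ s ∈ S, φ s ∈ D) {f : β → Λ} {c : Λ} (hf : ∀ s ∈ S, f (φ s) = c) {n : β → Set α}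
    (hn : ∀ δ s, s ∈ n δ ↔ s ∈ S ∧ φ s = δ) :
    ∑ δ ∈ D, ((n δ).ncard : Λ) * f δ = S.ncard * c := by
  have h1 := Finset.sum_fiberwise_of_maps_to' (s := hS.toFinset) (t := D) (g := φ)
    (fun s hs => hφ s (hS.mem_toFinset.1 hs)) f
  rw [Finset.sum_congr rfl fun s hs => hf s (hS.mem_toFinset.1 hs), Finset.sum_const,
    nsmul_eq_mul, ← Set.ncard_eq_toFinset_card S hS] at h1
  rw [← h1]
  refine Finset.sum_congr rfl fun δ _ => ?_
  rw [Finset.sum_const, nsmul_eq_mul, ← Set.ncard_coe_finset]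
  congr 3
  ext s
  simp [hn]

omit [U.Normal] in
theorem blin_range (hU : T.Adm U) (e : ℕ) :
    {s : W ⧸ U | ∃ g : W, (g : W ⧸ U) = s ∧ 0 ≤ T.deg g ∧ T.deg g < e}.Finite ∧
      {s : W ⧸ U | ∃ g : W, (g : W ⧸ U) = s ∧ 0 ≤ T.deg g ∧ T.deg g < e}.ncard =
        U.relIndex T.G0 * e := by
  induction e with
  | zero =>
    have : {s : W ⧸ U | ∃ g : W, (g : W ⧸ U) = s ∧ 0 ≤ T.deg g ∧ T.deg g < (0 : ℕ)} = ∅ := by
      refine Set.eq_empty_of_forall_notMem ?_
      rintro s ⟨g, -, h1, h2⟩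
      omega
    rw [this]
    simp
  | succ e ih =>
    have : {s : W ⧸ U | ∃ g : W, (g : W ⧸ U) = s ∧ 0 ≤ T.deg g ∧ T.deg g < (e + 1 : ℕ)} =
        {s : W ⧸ U | ∃ g : W, (g : W ⧸ U) = s ∧ 0 ≤ T.deg g ∧ T.deg g < e} ∪ Gn T U e := by
      ext s
      constructor
      · rintro ⟨g, h0, h1, h2⟩
        by_cases h : T.deg g = e
        · exact .inr ⟨g, h0, h⟩
        · exact .inl ⟨g, h0, h1, by omega⟩
      · rintro (⟨g, h0, h1, h2⟩ | ⟨g, h0, h1⟩)
        · exact ⟨g, h0, h1, by omega⟩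
        · exact ⟨g, h0, by omega, by omega⟩
    rw [this]
    refine ⟨ih.1.union (Gn_finite hU e), ?_⟩
    rw [Set.ncard_union_eq _ ih.1 (Gn_finite hU e), ih.2, Gn_ncard hU, Nat.mul_succ]
    rw [Set.disjoint_left]
    rintro s ⟨g, h0, -, h2⟩ ⟨g', h3, h4⟩
    have := deg_eq_of_mk hU (h0.trans h3.symm)
    omega

theorem cnt_one (hU : T.Adm U) (w : W) {χ : W ⧸ U → Λ} (hχ : ∀ x y, χ (y⁻¹ * x * y) = χ x) :
    ∑ δ ∈ (Gn_finite hU 0).toFinset,
      ({s | s ∈ Gn T U 0 ∧ (w : W ⧸ U)⁻¹ * s * (w * δ) = s}.ncard : Λ) * χ (w * δ) =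
        (U.relIndex T.G0 : Λ) * χ w := by
  rw [← Gn_ncard hU 0]
  refine blin_fib (Gn_finite hU 0) (fun s => (w : W ⧸ U)⁻¹ * s⁻¹ * w * s) ?_ (fun s _ => ?_)
    fun δ s => ?_
  · rintro _ ⟨g, rfl, hg⟩
    refine (Set.Finite.mem_toFinset _).2 ⟨w⁻¹ * g⁻¹ * w * g, rfl, ?_⟩
    simp only [T.deg_mul, T.deg_inv]
    omega
  · rw [← hχ w s]
    congr 1
    group
  · refine and_congr_right fun _ => ⟨fun h => ?_, fun h => ?_⟩
    · calc (w : W ⧸ U)⁻¹ * s⁻¹ * w * s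
          = (w : W ⧸ U)⁻¹ * s⁻¹ * w * ((w : W ⧸ U)⁻¹ * s * (w * δ)) := by rw [h]
        _ = δ := by group
    · rw [← h]
      group

theorem cnt_two (hU : T.Adm U) {w x : W} (h : T.deg x = T.deg w) (e : ℕ) {χ : W ⧸ U → Λ}
    (hχ : ∀ x y, χ (y⁻¹ * x * y) = χ x) :
    ∑ δ ∈ (Gn_finite hU 0).toFinset, ((cjs T U e (w * δ.out) x).ncard : Λ) * χ (w * δ) =
      (U.relIndex T.G0 : Λ) * (e * χ x) := by
  rw [← mul_assoc, ← Nat.cast_mul, ← (blin_range hU e).2]
  refine blin_fib (blin_range hU e).1 (fun s => (w : W ⧸ U)⁻¹ * s * x * s⁻¹) ?_ (fun s _ => ?_)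
    fun δ s => ?_
  · rintro _ ⟨g, rfl, -⟩
    refine (Set.Finite.mem_toFinset _).2 ⟨w⁻¹ * g * x * g⁻¹, rfl, ?_⟩
    simp only [T.deg_mul, T.deg_inv]
    omega
  · rw [← hχ x s⁻¹]
    congr 1
    group
  · have k : ∀ g : W, x⁻¹ * (g⁻¹ * (w * δ.out) * g) ∈ U ↔
        (w : W ⧸ U)⁻¹ * g * x * (g : W ⧸ U)⁻¹ = δ := by
      intro g
      rw [← QuotientGroup.eq, QuotientGroup.mk_mul, QuotientGroup.mk_mul, QuotientGroup.mk_mul,
        QuotientGroup.mk_inv, QuotientGroup.out_eq']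
      constructor
      · intro h
        rw [h]
        group
      · intro h
        rw [← h]
        group
    constructor
    · rintro ⟨g, rfl, h1, h2, h3⟩
      exact ⟨⟨g, rfl, h1, h2⟩, (k g).1 h3⟩
    · rintro ⟨⟨g, rfl, h1, h2⟩, h3⟩
      exact ⟨g, rfl, h1, h2, (k g).2 h3⟩

theorem cancel_two {m : ℕ} (hm : m ≠ 0) (j : ℕ) : ∃ J, j ≤ J ∧ ∀ x : ZMod (2 ^ (J + 1)),
    (m : ZMod (2 ^ (J + 1))) * x = 0 → ∃ y, x = 2 ^ (j + 1) * y := by
  obtain ⟨a, b, hb, rfl⟩ := Nat.exists_eq_two_pow_mul_odd hm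
  refine ⟨j + a, Nat.le_add_right _ _, fun x hx => ?_⟩
  obtain ⟨k, rfl⟩ := ZMod.natCast_zmod_surjective x
  rw [← Nat.cast_mul, ZMod.natCast_eq_zero_iff, mul_assoc,
    show 2 ^ (j + a + 1) = 2 ^ a * 2 ^ (j + 1) by ring,
    Nat.mul_dvd_mul_iff_left (by positivity)] at hx
  obtain ⟨y, rfl⟩ := (Nat.Coprime.pow_left _ (Nat.coprime_two_left.2 hb)).dvd_of_dvd_mul_left hx
  exact ⟨y, by push_cast; rfl⟩

end Pool.Agent.Lef
end

-- merged part: Pool.Agent.Work.MP_60d5ce_nt.Lb.BInv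
section
/-!
# Cocycles with values in a representation as invariants  (task LB BInv)

For `c ∈ ZH T T.G0 (mv ρ) A` and `i : I` let `emb c i g s = if s ∈ Gn T U 0 then (ρ s.out⁻¹).mulVec (c g) i else 0`; this lies in `QQ`.
Let `κ c (a, i)` be the `a`-th coordinate of `emb c i` in the basis `e` (`Function.invFun e`, or choice).  Apply `HasTr.comap` to `κ`.
Since `ρ (g * u) = ρ g` for `u ∈ U`, `ρ (s.out)` is multiplicative in `s` and `ρ ((g : W ⧸ U).out) = ρ g`.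
For `z : Fin r × I → Λ` put `Z i = e (fun a => z (a, i))`; then `(M ⊗ₖ m).mulVec z` corresponds to `i ↦ ∑ i', m i i' • e (M.mulVec fun a => z (a, i'))`
(`e` is `ZMod`-linear, being additive: `AddMonoidHom.toZModLinearMap`, `ZMod.map_smul`).  So `z ∈ KK` means `Z · g s = ρ δ (Z · g (s * δ))`; then `c g i = Z i g 1` is the cocycle.
Compatibility: `ρ (s⁻¹) ρ w c (w⁻¹ g w) = ρ w ρ ((w⁻¹ s w)⁻¹) c (w⁻¹ g w)`.
-/

namespace Pool.Agent.Lef

open scoped Classical Kronecker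
open Pool.Agent.Quad

variable {W P : Type} [Group W] {T : Tame W P} {U : Subgroup W} [U.Normal] {A : Finset P}

omit [Group W] in
theorem binv_kron {N r : ℕ} {I X : Type} [Fintype I] (e : (Fin r → ZMod N) →+ (W → X → ZMod N))
    (M : Matrix (Fin r) (Fin r) (ZMod N)) (m : Matrix I I (ZMod N)) (z : Fin r × I → ZMod N)
    (i : I) (g : W) (s : X) : e (fun a => (M ⊗ₖ m).mulVec z (a, i)) g s =
      m.mulVec (fun i' => e (M.mulVec fun a => z (a, i')) g s) i := by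
  have h1 : (fun a => (M ⊗ₖ m).mulVec z (a, i)) =
      ∑ i', m i i' • M.mulVec fun a => z (a, i') := by
    funext a
    simp only [Matrix.mulVec, dotProduct, Fintype.sum_prod_type, Matrix.kroneckerMap_apply,
      Finset.sum_apply, Pi.smul_apply, smul_eq_mul, Finset.mul_sum]
    rw [Finset.sum_comm]
    exact Finset.sum_congr rfl fun i' _ => Finset.sum_congr rfl fun b _ => by ring
  rw [h1, map_sum]
  simp only [ZMod.map_smul, Finset.sum_apply, Pi.smul_apply, smul_eq_mul, Matrix.mulVec,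
    dotProduct]

theorem hasTr_inv (hU : T.Adm U) {N r : ℕ} {I : Type} [Fintype I] [DecidableEq I]
    {ρ : W → Matrix I I (ZMod N)} (hρ : ∀ g h, ρ (g * h) = ρ g * ρ h) (hρU : ∀ u ∈ U, ρ u = 1)
    (e : (Fin r → ZMod N) →+ (W → W ⧸ U → ZMod N)) (he : Function.Injective e)
    (hr : e.range = QQ T U A (ZMod N)) {R : W ⧸ U → Matrix (Fin r) (Fin r) (ZMod N)}
    (hR : ∀ δ ∈ Gn T U 0, ∀ x, opQ U (ZMod N) 1 δ (e x) = e ((R δ).mulVec x)) {w : W}
    {F : Matrix (Fin r) (Fin r) (ZMod N)} (hF : ∀ x, opQ U (ZMod N) w w (e x) = e (F.mulVec x))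
    {t : ZMod N} (h : HasTr N (KK (Gn T U 0) R fun s => ρ s.out) (F ⊗ₖ ρ w).mulVec t) :
    HasTr N (ZH T T.G0 (mv ρ) A) (conjOp (mv ρ) w) t := by
  have hρ1 : ρ 1 = 1 := hρU 1 U.one_mem
  have hout : ∀ g : W, ρ (g : W ⧸ U).out = ρ g := fun g => by
    obtain ⟨u, hu⟩ := QuotientGroup.mk_out_eq_mul U g
    rw [hu, hρ, hρU u u.2, mul_one]
  have hQ : ∀ x, e x ∈ QQ T U A (ZMod N) := fun x => hr ▸ ⟨x, rfl⟩
  have hK : ∀ z : Fin r × I → ZMod N, z ∈ KK (Gn T U 0) R (fun s => ρ s.out) ↔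
      ∀ d : W, T.deg d = 0 → ∀ g s, (fun i => e (fun a => z (a, i)) g s) =
        (ρ d).mulVec fun i => e (fun a => z (a, i)) g (s * d) := by
    intro z
    have key : ∀ d : W, T.deg d = 0 → ∀ i g s,
        e (fun a => (R d ⊗ₖ ρ (d : W ⧸ U).out).mulVec z (a, i)) g s =
          (ρ d).mulVec (fun i => e (fun a => z (a, i)) g (s * d)) i := by
      intro d hd i g s
      rw [binv_kron, hout]
      congr 1
      funext i'
      rw [← hR _ ⟨d, rfl, hd⟩, opQ_apply]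
      simp
    constructor
    · intro hz d hd g s
      funext i
      rw [← key d hd, hz _ ⟨d, rfl, hd⟩]
    · rintro hz _ ⟨d, rfl, hd⟩
      funext ⟨a, i⟩
      refine congrFun (he (a₁ := fun a => (R d ⊗ₖ ρ (d : W ⧸ U).out).mulVec z (a, i))
        (a₂ := fun a => z (a, i)) ?_) a
      funext g s
      rw [key d hd, ← hz d hd]
  refine h.map (j := fun z g i => e (fun a => z (a, i)) g 1) (fun x _ y _ => ?_)
    (fun x hx y hy hxy => ?_) ?_ fun z _ => ?_
  · funext g i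
    exact congrFun (congrFun (map_add e (fun a => x (a, i)) fun a => y (a, i)) g) 1
  · funext ⟨a, i⟩
    refine congrFun (he (a₁ := fun a => x (a, i)) (a₂ := fun a => y (a, i)) ?_) a
    funext g s
    obtain ⟨d, rfl⟩ := QuotientGroup.mk_surjective s
    by_cases hd : T.deg d = 0
    · have hd' : T.deg d⁻¹ = 0 := by rw [T.deg_inv, hd, neg_zero]
      have h1 := (hK x).1 hx _ hd' g d
      have h2 := (hK y).1 hy _ hd' g d
      rw [QuotientGroup.mk_inv, mul_inv_cancel] at h1 h2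
      rw [congrFun h1 i, congrFun h2 i]
      exact congrArg (fun v => (ρ d⁻¹).mulVec v i) (congrFun hxy g)
    · rw [mem_vals.1 (hQ _).2 g d hd, mem_vals.1 (hQ _).2 g d hd]
  · ext c
    constructor
    · rintro ⟨z, hz, rfl⟩
      refine ⟨fun g hg => funext fun i => congrFun ((hQ _).1.1 g hg) 1, ?_,
        fun g hg k hk => ?_, fun t ht => funext fun i => congrFun ((hQ _).1.2.2.2 t ht) 1⟩
      · obtain ⟨V, hV, h1⟩ := Tame.exists_adm_le (T := T) Finset.univ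
          (fun (i : I) V => ∀ g ∈ T.G0, ∀ u ∈ V,
            e (fun a => z (a, i)) (g * u) = e (fun a => z (a, i)) g)
          (fun i V V' h hle g hg u hu => h g hg u (hle hu)) fun i _ => (hQ _).1.2.1
        exact ⟨V, hV, fun g hg u hu => funext fun i =>
          congrFun (h1 i (Finset.mem_univ _) g hg u hu) 1⟩
      · have h1 := (hK z).1 hz g hg k (g : W ⧸ U)⁻¹
        rw [inv_mul_cancel] at h1
        funext i
        rw [Pi.add_apply, mv_apply, ← h1]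
        have h2 := congrFun ((hQ fun a => z (a, i)).1.2.2.1 g hg k hk) 1
        rw [Pi.add_apply, aL_apply, mul_one] at h2
        exact h2
    · rintro ⟨c0, ⟨V, hV, c1⟩, c2, c3⟩
      have hinv : ∀ d : W, ρ (d : W ⧸ U).out⁻¹ = ρ d⁻¹ := fun d => by
        rw [← hout (d : W ⧸ U).out⁻¹, QuotientGroup.mk_inv, QuotientGroup.out_eq',
          ← QuotientGroup.mk_inv, hout]
      let emb : I → W → W ⧸ U → ZMod N := fun i g s =>
        if s ∈ Gn T U 0 then (ρ s.out⁻¹).mulVec (c g) i else 0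
      have e1 : ∀ i g (d : W), T.deg d = 0 → emb i g d = (ρ d⁻¹).mulVec (c g) i :=
        fun i g d hd => by
          simp only [emb]
          rw [if_pos ((mk_mem_Gn hU).2 hd), hinv]
      have e2 : ∀ i g (d : W), T.deg d ≠ 0 → emb i g d = 0 := fun i g d hd =>
        if_neg fun h => hd ((mk_mem_Gn hU).1 h)
      have e3 : ∀ i g, c g = 0 → emb i g = 0 := fun i g hg => by
        funext s
        simp [emb, hg]
      have hemb : ∀ i, ∃ x, e x = emb i := fun i => by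
        change emb i ∈ e.range
        rw [hr]
        refine ⟨⟨fun g hg => e3 i g (c0 g hg), ⟨V, hV, fun g hg u hu => ?_⟩,
          fun g hg k hk => ?_, fun t ht => e3 i t (c3 t ht)⟩, mem_vals.2 fun g d hd => e2 i g d hd⟩
        · simp only [emb, c1 g hg u hu]
        · funext s
          obtain ⟨d, rfl⟩ := QuotientGroup.mk_surjective s
          have hdeg : T.deg (g⁻¹ * d) = T.deg d := by
            rw [T.deg_mul, T.deg_inv, mem_G0.1 hg, neg_zero, zero_add]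
          rw [Pi.add_apply, aL_apply, ← QuotientGroup.mk_inv, ← QuotientGroup.mk_mul]
          by_cases hd : T.deg d = 0
          · rw [e1 _ _ _ hd, e1 _ _ _ hd, e1 _ _ _ (hdeg.trans hd), c2 g hg k hk,
              Matrix.mulVec_add, mv_apply, Matrix.mulVec_mulVec, ← hρ, mul_inv_rev, inv_inv,
              Pi.add_apply]
          · rw [e2 _ _ _ hd, e2 _ _ _ hd, e2 _ _ _ (hdeg ▸ hd), add_zero]
      choose x hx using hemb
      refine ⟨fun p => x p.2 p.1, (hK _).2 fun d hd g s => ?_, ?_⟩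
      · obtain ⟨k, rfl⟩ := QuotientGroup.mk_surjective s
        have hdeg : T.deg (k * d) = T.deg k := by rw [T.deg_mul, hd, add_zero]
        change (fun i => e (x i) g k) = (ρ d).mulVec fun i => e (x i) g (k * d)
        simp only [hx, ← QuotientGroup.mk_mul]
        by_cases hk : T.deg k = 0
        · simp only [e1 _ _ _ hk, e1 _ _ _ (hdeg.trans hk)]
          change (ρ k⁻¹).mulVec (c g) = (ρ d).mulVec ((ρ (k * d)⁻¹).mulVec (c g))
          rw [Matrix.mulVec_mulVec, ← hρ, mul_inv_rev, mul_inv_cancel_left]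
        · simp only [e2 _ _ _ hk, e2 _ _ _ (hdeg ▸ hk)]
          exact (Matrix.mulVec_zero (ρ d)).symm
      · funext g i
        change e (x i) g ((1 : W) : W ⧸ U) = c g i
        rw [hx, e1 _ _ _ T.deg_one, inv_one, hρ1, Matrix.one_mulVec]
  · funext g i
    rw [conjOp_apply, mv_apply]
    refine (binv_kron e F (ρ w) z i g 1).trans ?_
    congr 1
    funext i'
    rw [← hF, opQ_apply, mul_one, inv_mul_cancel]

end Pool.Agent.Lef
end

-- merged part: Pool.Agent.Work.MP_60d5ce_nt.Lb.BMain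
section
/-!
# The trace formula  (task LB BMain)

Let `m = U.relIndex T.G0 ≠ 0`, `J` from `cancel_two`, `s = (Gn_finite hU 0).toFinset` (`s.card = m`, `Gn_ncard`), `G : Subgroup (W ⧸ U) = T.G0.map (QuotientGroup.mk' U)`
(carrier `Gn T U 0`).  `hasTr_QQ` gives a basis `e` of `QQ` at level `J` (`HasTr.fr`); `exists_mat` gives matrices `R δ` (for `opQ 1 δ`, `δ ∈ G`; `opQ_mem`), `F` (for `opQ w w`), `E` (for
`exists_higman`), with the relations of `lin_tr` (`opQ_mul`, `opQ_one`, `tr_ext`).  `F * R δ` is the matrix of `opQ w (w * δ)`, so by `hasTr_of_basis`, `hasTr_QQ` for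
`γ = w * δ.out` and `HasTr.unique`: `q ^ n * tr (F * R δ) = q ^ n * ncard - fixY`.  Let `χ s = (((ρ s.out).trace.val : ℕ) : ZMod (2 ^ (J + 1)))`, a class function with
`redZ (χ s) = tr (ρ s.out)`.  `lin_cnt`, `cnt_one`, `cnt_two` (`T.deg (σ v ^ (n / dg v)) = n`) give
`m * (q ^ n * S - q ^ n * χ w + ∑ v, dg v * χ (σ v ^ _)) = 0`, `S = ∑ δ, tr (F R δ E) * χ (w δ)`; apply `cancel_two` and `redZ`.
Finally `exists_redQ`, `lin_tr` for the matrices mapped by `redZ`, `hasTr_inv`; `t = redZ S`.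
-/

namespace Pool.Agent.Lef

open scoped Classical
open Pool.Agent.Quad

variable {W P : Type} [Group W] {T : Tame W P} {U : Subgroup W} {A : Finset P}

theorem BMain_deg_pow (g : W) (k : ℕ) : T.deg (g ^ k) = k * T.deg g := by
  induction k with
  | zero => rw [pow_zero, T.deg_one, Nat.cast_zero, zero_mul]
  | succ k ih =>
    rw [pow_succ, T.deg_mul, ih]
    push_cast
    ring

theorem BMain_out {M : Type} [Monoid M] {ρ : W → M} (hρ : ∀ g h, ρ (g * h) = ρ g * ρ h)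
    (hρU : ∀ u ∈ U, ρ u = 1) (g : W) : ρ (g : W ⧸ U).out = ρ g := by
  obtain ⟨u, hu⟩ := QuotientGroup.mk_out_eq_mul U g
  rw [hu, hρ, hρU _ u.2, mul_one]

theorem BMain_out_mul [U.Normal] {M : Type} [Monoid M] {ρ : W → M}
    (hρ : ∀ g h, ρ (g * h) = ρ g * ρ h) (hρU : ∀ u ∈ U, ρ u = 1) (x y : W ⧸ U) :
    ρ (x * y).out = ρ x.out * ρ y.out := by
  have : x * y = ((x.out * y.out : W) : W ⧸ U) := by
    rw [QuotientGroup.mk_mul, QuotientGroup.out_eq', QuotientGroup.out_eq']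
  rw [this, BMain_out hρ hρU, hρ]

theorem BMain_class {Γ I Λ : Type} [Group Γ] [Fintype I] [CommRing Λ] {ρ : Γ → Matrix I I Λ}
    (hρ : ∀ g h, ρ (g * h) = ρ g * ρ h) (x y : Γ) : (ρ (y⁻¹ * x * y)).trace = (ρ x).trace := by
  rw [hρ, Matrix.trace_mul_comm, ← hρ, mul_inv_cancel_left]

theorem BMain_memG [U.Normal] (δ : W ⧸ U) :
    δ ∈ T.G0.map (QuotientGroup.mk' U) ↔ δ ∈ Gn T U 0 := by
  constructor
  · rintro ⟨g, hg, rfl⟩
    exact ⟨g, rfl, hg⟩
  · rintro ⟨g, rfl, hg⟩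
    exact ⟨g, hg, rfl⟩

theorem BMain_conj [U.Normal] (w : W) (δ : W ⧸ U) (h : δ ∈ T.G0.map (QuotientGroup.mk' U)) :
    (w : W ⧸ U)⁻¹ * δ * w ∈ T.G0.map (QuotientGroup.mk' U) := by
  obtain ⟨g, hg, rfl⟩ := h
  refine ⟨w⁻¹ * g * w, ?_, rfl⟩
  have hg' : T.deg g = 0 := hg
  show T.deg (w⁻¹ * g * w) = 0
  rw [T.deg_mul, T.deg_mul, T.deg_inv, hg']
  ring

theorem BMain_mul [U.Normal] {N r : ℕ} {e : (Fin r → ZMod N) →+ (W → W ⧸ U → ZMod N)}
    {w w' : W} {γ γ' : W ⧸ U} {m m' : Matrix (Fin r) (Fin r) (ZMod N)}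
    (h : ∀ x, opQ U (ZMod N) w γ (e x) = e (m.mulVec x))
    (h' : ∀ x, opQ U (ZMod N) w' γ' (e x) = e (m'.mulVec x)) (x : Fin r → ZMod N) :
    opQ U (ZMod N) (w * w') (γ * γ') (e x) = e ((m * m').mulVec x) := by
  rw [← opQ_mul, h', h, Matrix.mulVec_mulVec]

theorem BMain_uniq [U.Normal] {N r : ℕ} {e : (Fin r → ZMod N) →+ (W → W ⧸ U → ZMod N)}
    (he : Function.Injective e) {w w' : W} {γ γ' : W ⧸ U} {m m' : Matrix (Fin r) (Fin r) (ZMod N)}
    (h : ∀ x, opQ U (ZMod N) w γ (e x) = e (m.mulVec x))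
    (h' : ∀ x, opQ U (ZMod N) w' γ' (e x) = e (m'.mulVec x)) (hw : w = w') (hγ : γ = γ') :
    m = m' := by
  subst hw hγ
  exact tr_ext fun x => he ((h x).symm.trans (h' x))

theorem BMain_red [U.Normal] {j J : ℕ} (h : j ≤ J) {r : ℕ}
    {e : (Fin r → ZMod (2 ^ (J + 1))) →+ (W → W ⧸ U → ZMod (2 ^ (J + 1)))}
    {e' : (Fin r → ZMod (2 ^ (j + 1))) →+ (W → W ⧸ U → ZMod (2 ^ (j + 1)))}
    (hee : ∀ x g s, e' (fun i => redZ h (x i)) g s = redZ h (e x g s)) {w : W} {γ : W ⧸ U}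
    {m : Matrix (Fin r) (Fin r) (ZMod (2 ^ (J + 1)))}
    (hm : ∀ x, opQ U _ w γ (e x) = e (m.mulVec x)) (x' : Fin r → ZMod (2 ^ (j + 1))) :
    opQ U _ w γ (e' x') = e' (((redZ h).mapMatrix m).mulVec x') := by
  have hs : ∀ i, ∃ y, redZ h y = x' i := fun i => ZMod.ringHom_surjective (redZ h) (x' i)
  choose x hx using hs
  have hx' : x' = fun i => redZ h (x i) := funext fun i => (hx i).symm
  have h2 : ((redZ h).mapMatrix m).mulVec x' = fun i => redZ h (m.mulVec x i) := by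
    funext i
    rw [RingHom.map_mulVec, hx']
    rfl
  funext g s
  rw [h2, hee, ← hm, opQ_apply, opQ_apply, hx', hee]

theorem BMain_mat [U.Normal] (hU : T.Adm U) {N r : ℕ}
    {e : (Fin r → ZMod N) →+ (W → W ⧸ U → ZMod N)} (he : Function.Injective e)
    (hr : e.range = QQ T U A (ZMod N)) {w : W} {γ : W ⧸ U} (hγ : γ ∈ Gn T U (T.deg w)) :
    ∃ m : Matrix (Fin r) (Fin r) (ZMod N), ∀ x, opQ U (ZMod N) w γ (e x) = e (m.mulVec x) := by
  refine exists_mat e he ?_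
  rw [hr]
  exact ⟨fun c hc => opQ_mem hU hγ hc, fun x _ y _ => map_add _ x y⟩

theorem BMain_val {j J : ℕ} (h : j ≤ J) (x : ZMod (2 ^ (j + 1))) :
    redZ h ((x.val : ℕ) : ZMod (2 ^ (J + 1))) = x := by
  rw [map_natCast, ZMod.natCast_zmod_val]

theorem BMain_two {j J : ℕ} (h : j ≤ J) (y : ZMod (2 ^ (J + 1))) :
    redZ h (2 ^ (j + 1) * y) = 0 := by
  have : ((2 : ZMod (2 ^ (J + 1))) ^ (j + 1)) = ((2 ^ (j + 1) : ℕ) : ZMod (2 ^ (J + 1))) := by
    push_cast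
    rfl
  rw [map_mul, this, map_natCast, ZMod.natCast_self, zero_mul]

/-- the trace of `F * R δ` -/
theorem BMain_tr [U.Normal] (L : LefAx T) (hU : T.Adm U) (hA : A.Nonempty)
    (hτ : ∀ v ∉ A, T.τ v ∈ U) {J r n : ℕ} (hn : 0 < n) {w : W} (hw : T.deg w = n)
    {e : (Fin r → ZMod (2 ^ (J + 1))) →+ (W → W ⧸ U → ZMod (2 ^ (J + 1)))}
    (he : Function.Injective e) (hr : e.range = QQ T U A (ZMod (2 ^ (J + 1)))) {δ : W ⧸ U}
    (hδ : δ ∈ Gn T U 0) {m : Matrix (Fin r) (Fin r) (ZMod (2 ^ (J + 1)))}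
    (hm : ∀ x, opQ U _ w (w * δ) (e x) = e (m.mulVec x)) :
    (T.q : ZMod (2 ^ (J + 1))) ^ n * m.trace = (T.q : ZMod (2 ^ (J + 1))) ^ n *
      ({s | s ∈ Gn T U 0 ∧ (w : W ⧸ U)⁻¹ * s * (w * δ) = s}.ncard : ZMod (2 ^ (J + 1))) -
        fixY T U A (w * δ.out) n := by
  have h0 : T.deg δ.out = 0 := by
    rw [← mk_mem_Gn hU, QuotientGroup.out_eq']
    exact hδ
  have h1 : T.deg (w * δ.out) = n := by rw [T.deg_mul, h0, hw, add_zero]
  have h2 := hasTr_QQ (J := J) L hU hA hτ hn hw h1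
  have h3 : ((w * δ.out : W) : W ⧸ U) = w * δ := by
    rw [QuotientGroup.mk_mul, QuotientGroup.out_eq']
  rw [h3] at h2
  have h4 := hasTr_of_basis (f := fun c => T.q ^ n • opQ U (ZMod (2 ^ (J + 1))) w (w * δ) c) e he hr
    (T.q ^ n • m) fun x => by rw [Matrix.smul_mulVec, map_nsmul, hm]
  have h5 := h4.unique h2
  rw [Matrix.trace_smul, nsmul_eq_mul, Nat.cast_pow] at h5
  exact h5

theorem trace_formula (L : LefAx T) (hU : T.Adm U) (hA : A.Nonempty) (hτ : ∀ v ∉ A, T.τ v ∈ U)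
    {j : ℕ} {I : Type} [Fintype I] [DecidableEq I] {ρ : W → Matrix I I (ZMod (2 ^ (j + 1)))}
    (hρ : ∀ g h, ρ (g * h) = ρ g * ρ h) (hρU : ∀ u ∈ U, ρ u = 1) {n : ℕ} (hn : 0 < n) {w : W}
    (hw : T.deg w = n) :
    ∃ t, HasTr (2 ^ (j + 1)) (ZH T T.G0 (mv ρ) A) (conjOp (mv ρ) w) t ∧
      (T.q : ZMod (2 ^ (j + 1))) ^ n * t = (T.q : ZMod (2 ^ (j + 1))) ^ n * (ρ w).trace -
        ∑ v ∈ Pd T A n, (T.dg v : ZMod (2 ^ (j + 1))) * (ρ (T.σ v ^ (n / T.dg v))).trace := by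
  have := T.adm_normal U hU
  obtain ⟨J, hJ, hcan⟩ := cancel_two (T.adm_index U hU) j
  have hs : ∀ δ, δ ∈ (Gn_finite hU 0).toFinset ↔ δ ∈ T.G0.map (QuotientGroup.mk' U) := fun δ => by
    rw [BMain_memG, Set.Finite.mem_toFinset]
  have hcard : (Gn_finite hU 0).toFinset.card = U.relIndex T.G0 := by
    rw [← Gn_ncard hU 0, Set.ncard_eq_toFinset_card _ (Gn_finite hU 0)]
  have hfr := (hasTr_QQ (J := J) L hU hA hτ hn hw hw).fr
  have hfin := hfr.finite
  obtain ⟨r, e, he, hr⟩ := hfr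
  have hRe : ∀ δ : W ⧸ U, ∃ m : Matrix (Fin r) (Fin r) (ZMod (2 ^ (J + 1))), δ ∈ Gn T U 0 →
      ∀ x, opQ U _ 1 δ (e x) = e (m.mulVec x) := fun δ => by
    by_cases hδ : δ ∈ Gn T U 0
    · obtain ⟨m, hm⟩ := BMain_mat (w := 1) hU he hr (by rw [T.deg_one]; exact hδ)
      exact ⟨m, fun _ => hm⟩
    · exact ⟨0, fun h => absurd h hδ⟩
  choose R hR using hRe
  obtain ⟨F, hF⟩ := BMain_mat (w := w) (γ := w) hU he hr ((mk_mem_Gn hU).2 rfl)
  obtain ⟨ε, hε, hsum⟩ := exists_higman (R := ZMod (2 ^ (J + 1))) (j := J + 1) L hU hA hτ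
    (fun x => by rw [nsmul_eq_mul, ZMod.natCast_self, zero_mul]) hfin
  obtain ⟨E, hE⟩ := exists_mat e he (hr.symm ▸ hε)
  have hR' : ∀ δ ∈ T.G0.map (QuotientGroup.mk' U), ∀ x, opQ U _ 1 δ (e x) = e ((R δ).mulVec x) :=
    fun δ hδ => hR δ ((BMain_memG δ).1 hδ)
  have r1 : ∀ δ ∈ T.G0.map (QuotientGroup.mk' U), ∀ δ' ∈ T.G0.map (QuotientGroup.mk' U),
      R (δ * δ') = R δ * R δ' := fun δ hδ δ' hδ' =>
    BMain_uniq he (hR' _ (mul_mem hδ hδ')) (BMain_mul (hR' _ hδ) (hR' _ hδ')) (mul_one 1).symm rfl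
  have r2 : R 1 = 1 :=
    BMain_uniq he (hR' _ (one_mem _)) (fun x => by rw [opQ_one, Matrix.one_mulVec]) rfl rfl
  have r3 : ∀ δ ∈ T.G0.map (QuotientGroup.mk' U), R δ * F = F * R ((w : W ⧸ U)⁻¹ * δ * w) :=
    fun δ hδ => BMain_uniq he (BMain_mul (hR' _ hδ) hF) (BMain_mul hF (hR' _ (BMain_conj w δ hδ)))
      (by rw [one_mul, mul_one]) (by group)
  have r4 : ∑ δ ∈ (Gn_finite hU 0).toFinset, R δ * E * R δ⁻¹ = 1 := by
    refine tr_ext fun x => he ?_
    rw [Matrix.one_mulVec, Matrix.sum_mulVec, map_sum,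
      ← hsum (e x) (hr ▸ AddMonoidHom.mem_range.2 ⟨x, rfl⟩)]
    refine Finset.sum_congr rfl fun δ hδ => ?_
    have hδ' := (hs δ).1 hδ
    rw [hR' _ (inv_mem hδ'), hE, hR' _ hδ', Matrix.mulVec_mulVec, Matrix.mulVec_mulVec]
  have hρ' : ∀ x y : W ⧸ U, ρ (x * y).out = ρ x.out * ρ y.out := BMain_out_mul hρ hρU
  obtain ⟨χ, hχd⟩ : ∃ χ : W ⧸ U → ZMod (2 ^ (J + 1)), ∀ s, χ s = (((ρ s.out).trace.val : ℕ) : _) :=
    ⟨_, fun _ => rfl⟩
  have hχ : ∀ x y, χ (y⁻¹ * x * y) = χ x := fun x y => by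
    rw [hχd, hχd, BMain_class (ρ := fun s : W ⧸ U => ρ s.out) hρ' x y]
  have hχr : ∀ s, redZ hJ (χ s) = (ρ s.out).trace := fun s => by rw [hχd, BMain_val]
  have c0 := lin_cnt hs (BMain_conj w) r1 r2 r3 r4 hχ
  have c1 := cnt_one hU w hχ
  have c2 : ∑ δ ∈ (Gn_finite hU 0).toFinset,
      (fixY T U A (w * δ.out) n : ZMod (2 ^ (J + 1))) * χ (w * δ) = (U.relIndex T.G0 : _) *
        ∑ v ∈ Pd T A n, (T.dg v : ZMod (2 ^ (J + 1))) * χ (T.σ v ^ (n / T.dg v) : W) := by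
    simp only [fixY, Nat.cast_sum, Finset.sum_mul]
    rw [Finset.sum_comm, Finset.mul_sum]
    refine Finset.sum_congr rfl fun v hv => cnt_two hU ?_ _ hχ
    rw [BMain_deg_pow, T.deg_σ, hw, ← Nat.cast_mul, Nat.div_mul_cancel (mem_Pd.1 hv).2.1]
  have c3 : (T.q : ZMod (2 ^ (J + 1))) ^ n *
      ∑ δ ∈ (Gn_finite hU 0).toFinset, (F * R δ).trace * χ (w * δ) =
      (T.q : ZMod (2 ^ (J + 1))) ^ n * ((U.relIndex T.G0 : _) * χ w) - (U.relIndex T.G0 : _) *
        ∑ v ∈ Pd T A n, (T.dg v : ZMod (2 ^ (J + 1))) * χ (T.σ v ^ (n / T.dg v) : W) := by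
    rw [← c1, ← c2, Finset.mul_sum, Finset.mul_sum, ← Finset.sum_sub_distrib]
    refine Finset.sum_congr rfl fun δ hδ => ?_
    have hδ' := (Set.Finite.mem_toFinset _).1 hδ
    have h1 := BMain_mul hF (hR δ hδ')
    rw [mul_one] at h1
    rw [← mul_assoc, BMain_tr L hU hA hτ hn hw he hr hδ' h1]
    ring
  rw [hcard] at c0
  obtain ⟨y, hy⟩ := hcan ((T.q : ZMod (2 ^ (J + 1))) ^ n *
      ∑ δ ∈ (Gn_finite hU 0).toFinset, (F * R δ * E).trace * χ (w * δ) -
      ((T.q : ZMod (2 ^ (J + 1))) ^ n * χ w -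
        ∑ v ∈ Pd T A n, (T.dg v : ZMod (2 ^ (J + 1))) * χ (T.σ v ^ (n / T.dg v) : W)))
    (by rw [← c0] at c3; linear_combination c3)
  have hz := BMain_two hJ y
  rw [← hy, map_sub, sub_eq_zero] at hz
  obtain ⟨e', he', hr', hee⟩ := exists_redQ L hU hA hτ hJ e he hr
  have k := lin_tr (R := fun δ => (redZ hJ).mapMatrix (R δ)) (F := (redZ hJ).mapMatrix F)
    (E := (redZ hJ).mapMatrix E) (ρ := fun s : W ⧸ U => ρ s.out) hs (BMain_conj w)
    (fun δ hδ δ' hδ' => by rw [r1 δ hδ δ' hδ', map_mul]) (by rw [r2, map_one])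
    (fun δ hδ => by rw [← map_mul, ← map_mul, r3 δ hδ])
    (by simp only [← map_mul]; rw [← map_sum, r4, map_one]) hρ'
  have hG : ((T.G0.map (QuotientGroup.mk' U) : Subgroup (W ⧸ U)) : Set (W ⧸ U)) = Gn T U 0 :=
    Set.ext BMain_memG
  rw [hG, BMain_out hρ hρU] at k
  refine ⟨_, hasTr_inv hU hρ hρU e' he' hr' (fun δ hδ => BMain_red hJ hee (hR δ hδ))
    (BMain_red hJ hee hF) k, ?_⟩
  simp only [map_mul, map_sub, map_sum, map_pow, map_natCast, hχr, BMain_out hρ hρU] at hz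
  rw [← hz]
  refine congrArg _ (Finset.sum_congr rfl fun δ _ => ?_)
  rw [← map_mul, ← map_mul, AddMonoidHom.map_trace]
  rfl

end Pool.Agent.Lef
end

-- merged part: Pool.Agent.Work.MP_60d5ce_nt.Qt.TateMod
section
/-!
# Coordinates on the two-power torsion of a divisible group; matrix lemmas

Hints.
* `exists_tateB`: choose `e i j` with `e i 0 = 0`, `e i 1 = T i`, `2 • e i (j + 1) = e i j`, and put
  `pt j a = ∑ i, (a i).appr j • e i j` (`PadicInt.appr`, `PadicInt.toZModPow`).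
* `exists_mat`: the columns modulo `2 ^ j` are compatible; pass to the limit (`IsPrecomplete`,
  `PadicInt.lift`, or `PadicInt.ofIntSeq`).
-/

namespace Pool.Agent.Quad

noncomputable section


/-- a basis of the Tate module -/
structure TateB (A : Type) [AddCommGroup A] where
  pt : ℕ → V →+ A
  two : ∀ j a, 2 • pt (j + 1) a = pt j a
  ker : ∀ j a, pt j a = 0 ↔ ∀ i, (2 : O) ^ j ∣ a i
  surj : ∀ j P, 2 ^ j • P = 0 → ∃ a, pt j a = P

variable {A : Type} [AddCommGroup A]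

theorem TateMod_appr (j : ℕ) (x : O) : (2 : O) ^ j ∣ x - (x.appr j : ℕ) :=
  Ideal.mem_span_singleton.1 (PadicInt.appr_spec j x)

theorem TateMod_int {j : ℕ} {n : ℤ} (h : (2 : ℤ) ^ j ∣ n) : (2 : O) ^ j ∣ (n : O) := by
  simpa using (Int.castRingHom O).map_dvd h

theorem TateMod_zero {x : O} (h : ∀ j, (2 : O) ^ j ∣ x) : x = 0 :=
  PadicInt.ext_of_toZModPow.1 fun j => by
    rw [map_zero, ← RingHom.mem_ker, PadicInt.ker_toZModPow, Ideal.mem_span_singleton]
    exact h j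

theorem TateMod_lim (c : ℕ → O) (h : ∀ j, (2 : O) ^ j ∣ c (j + 1) - c j) :
    ∃ x, ∀ j, (2 : O) ^ j ∣ x - c j := by
  have e : ∀ (j : ℕ) (a b : O), a ≡ b [SMOD (IsLocalRing.maximalIdeal O ^ j • ⊤ :
      Submodule O O)] ↔ (2 : O) ^ j ∣ b - a := fun j a b => by
    rw [SModEq.sub_mem, PadicInt.maximalIdeal_eq_span_p, Ideal.span_singleton_pow, smul_eq_mul,
      Ideal.mul_top, Ideal.mem_span_singleton, dvd_sub_comm]
    rfl
  obtain ⟨x, hx⟩ := IsPrecomplete.prec (I := IsLocalRing.maximalIdeal O) inferInstance (f := c)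
    fun {m n} hmn => (e _ _ _).2 (by
      induction n, hmn using Nat.le_induction with
      | base => simp
      | succ n hn ih => simpa using dvd_add ((pow_dvd_pow _ hn).trans (h n)) ih)
  exact ⟨x, fun j => (e _ _ _).1 (hx j)⟩

theorem TateMod_hom (j : ℕ) (e : A) (he : 2 ^ j • e = 0) : ∃ φ : O →+ A,
    ∀ (x : O) (n : ℤ), (2 : O) ^ j ∣ x - n → φ x = n • e := by
  obtain ⟨ψ, hψ⟩ : ∃ ψ : ZMod (2 ^ j) →+ A, ∀ n : ℤ, ψ n = n • e :=
    ⟨ZMod.lift (2 ^ j) ⟨zmultiplesHom A e, (natCast_zsmul e _).trans he⟩,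
      fun n => by rw [ZMod.lift_coe]; rfl⟩
  refine ⟨ψ.comp (PadicInt.toZModPow j : O →+* _).toAddMonoidHom, fun x n h => ?_⟩
  have : PadicInt.toZModPow j x = (n : ZMod (2 ^ j)) := by
    rw [← map_intCast (PadicInt.toZModPow (p := 2) j), ← sub_eq_zero, ← map_sub, ← RingHom.mem_ker,
      PadicInt.ker_toZModPow, Ideal.mem_span_singleton]
    exact h
  exact (congrArg ψ this).trans (hψ n)

theorem TateMod_seq (hdiv : ∀ P : A, ∃ R, 2 • R = P) (T : A) (h : 2 • T = 0) :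
    ∃ e : ℕ → A, e 0 = 0 ∧ (∀ j, 2 • e (j + 1) = e j) ∧ ∀ j, 2 ^ j • e (j + 1) = T := by
  choose R hR using hdiv
  refine ⟨fun j => 2 • R^[j] T, h, fun j => by simp only [Function.iterate_succ_apply', hR],
    fun j => ?_⟩
  simp only [Function.iterate_succ_apply', hR]
  induction j with
  | zero => simp
  | succ j ih => rw [Function.iterate_succ_apply', pow_succ, mul_smul, hR, ih]

theorem exists_tateB (T0 T1 : A) (hdiv : ∀ P : A, ∃ R, 2 • R = P) (h0 : 2 • T0 = 0)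
    (h1 : 2 • T1 = 0) (hind : ∀ a b : ℤ, a • T0 + b • T1 = 0 → 2 ∣ a ∧ 2 ∣ b)
    (hspan : ∀ P : A, 2 • P = 0 → ∃ a b : ℤ, P = a • T0 + b • T1) :
    ∃ B : TateB A, B.pt 1 ![1, 0] = T0 ∧ B.pt 1 ![0, 1] = T1 := by
  obtain ⟨e, e0, e1, e2⟩ := TateMod_seq hdiv T0 h0
  obtain ⟨f, f0, f1, f2⟩ := TateMod_seq hdiv T1 h1
  have tor : ∀ {T : A} {e : ℕ → A}, 2 • T = 0 → e 0 = 0 → (∀ j, 2 ^ j • e (j + 1) = T) →
      ∀ j, 2 ^ j • e j = 0 := fun h0 e0 e2 j => by
    rcases j with _ | j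
    · simp [e0]
    · rw [pow_succ', mul_smul, e2, h0]
  choose φ hφ using fun j => TateMod_hom j (e j) (tor h0 e0 e2 j)
  choose ψ hψ using fun j => TateMod_hom j (f j) (tor h1 f0 f2 j)
  have ap : ∀ (j : ℕ) (x : O), (2 : O) ^ j ∣ x - ((x.appr j : ℤ) : O) := fun j x => by
    simpa using TateMod_appr j x
  have z2 : ∀ (n : ℤ) (P : A), (2 * n) • P = n • 2 • P := fun n P => by
    rw [mul_comm, mul_smul, ← natCast_zsmul]; rfl
  have ker : ∀ (j : ℕ) (m n : ℤ), m • e j + n • f j = 0 → 2 ^ j ∣ m ∧ 2 ^ j ∣ n := fun j => by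
    induction j with
    | zero => simp
    | succ j ih =>
      intro m n h
      obtain ⟨⟨m, rfl⟩, n, rfl⟩ := hind m n (by
        rw [← e2 j, ← f2 j, smul_comm m, smul_comm n, ← smul_add, h, smul_zero])
      rw [z2, z2, e1, f1] at h
      rw [pow_succ']
      exact ⟨mul_dvd_mul_left _ (ih m n h).1, mul_dvd_mul_left _ (ih m n h).2⟩
  have sur : ∀ (j : ℕ) (P : A), 2 ^ j • P = 0 → ∃ m n : ℤ, P = m • e j + n • f j := fun j => by
    induction j with
    | zero => exact fun P h => ⟨0, 0, by simpa using h⟩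
    | succ j ih =>
      intro P h
      obtain ⟨m, n, h2⟩ := ih (2 • P) (by rw [← mul_smul, ← pow_succ, h])
      obtain ⟨a, b, h2⟩ := hspan (P - (m • e (j + 1) + n • f (j + 1))) (by
        rw [smul_sub, smul_add, smul_comm _ m, smul_comm _ n, e1, f1, h2, sub_self])
      refine ⟨m + a * (2 ^ j : ℕ), n + b * (2 ^ j : ℕ), ?_⟩
      rw [add_smul, add_smul, mul_smul, mul_smul, natCast_zsmul, natCast_zsmul, e2, f2,
        add_add_add_comm, ← h2, add_sub_cancel]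
  refine ⟨⟨fun j => (φ j).comp (Pi.evalAddMonoidHom _ 0) + (ψ j).comp (Pi.evalAddMonoidHom _ 1),
    fun j a => ?_, fun j a => ?_, fun j P h => ?_⟩, ?_, ?_⟩
  · change 2 • (φ _ (a 0) + ψ _ (a 1)) = φ _ (a 0) + ψ _ (a 1)
    rw [hφ _ _ _ (ap (j + 1) _), hψ _ _ _ (ap (j + 1) _),
      hφ j _ _ ((pow_dvd_pow _ j.le_succ).trans (ap (j + 1) _)),
      hψ j _ _ ((pow_dvd_pow _ j.le_succ).trans (ap (j + 1) _)), smul_add, smul_comm, e1,
      smul_comm, f1]
  · change φ _ (a 0) + ψ _ (a 1) = 0 ↔ _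
    rw [Fin.forall_fin_two]
    constructor
    · intro h
      rw [hφ _ _ _ (ap j _), hψ _ _ _ (ap j _)] at h
      obtain ⟨a0, a1⟩ := ker j _ _ h
      exact ⟨by simpa using dvd_add (ap j (a 0)) (TateMod_int a0),
        by simpa using dvd_add (ap j (a 1)) (TateMod_int a1)⟩
    · rintro ⟨a0, a1⟩
      rw [hφ j _ 0 (by simpa using a0), hψ j _ 0 (by simpa using a1)]
      simp
  · obtain ⟨m, n, rfl⟩ := sur j P h
    exact ⟨![m, n], congrArg₂ (· + ·) (hφ j _ m (by simp)) (hψ j _ n (by simp))⟩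
  · change φ 1 1 + ψ 1 0 = T0
    rw [hφ 1 1 1 (by simp), map_zero, ← e2 0]
    simp
  · change φ 1 0 + ψ 1 1 = T1
    rw [hψ 1 1 1 (by simp), map_zero, ← f2 0]
    simp

namespace TateB

variable (B : TateB A)

theorem pow_smul_pt (j : ℕ) (a : V) : 2 ^ j • B.pt j a = 0 := by
  rw [← map_nsmul, B.ker]
  intro i
  simp

theorem pow_smul_add (i j : ℕ) (a : V) : 2 ^ i • B.pt (i + j) a = B.pt j a := by
  induction i with
  | zero => simp
  | succ i ih => rw [pow_succ, mul_smul, Nat.add_right_comm, B.two, ih]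

theorem pt_pow_smul (i j : ℕ) (a : V) : B.pt (i + j) ((2 : O) ^ i • a) = B.pt j a := by
  rw [← B.pow_smul_add i j a, ← map_nsmul, ← Nat.cast_smul_eq_nsmul O]
  simp

theorem pt_eq_iff (j : ℕ) (a b : V) :
    B.pt j a = B.pt j b ↔ ∀ i, (2 : O) ^ j ∣ a i - b i := by
  rw [← sub_eq_zero, ← map_sub, B.ker]
  rfl

include B in
theorem torsion_finite (j : ℕ) : {P : A | 2 ^ j • P = 0}.Finite := by
  refine (Set.finite_range fun v : Fin 2 → Fin (2 ^ j) =>
    B.pt j fun i => ((v i : ℕ) : O)).subset fun P hP => ?_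
  obtain ⟨a, rfl⟩ := B.surj j P hP
  exact ⟨fun i => ⟨(a i).appr j, PadicInt.appr_lt _ _⟩,
    ((B.pt_eq_iff j _ _).2 fun i => TateMod_appr j (a i)).symm⟩

theorem TateMod_smul (j : ℕ) (c : O) (a : V) : B.pt j (c • a) = c.appr j • B.pt j a := by
  rw [← map_nsmul, pt_eq_iff]
  intro i
  simpa [← sub_mul] using (TateMod_appr j c).mul_right (a i)

theorem exists_mat (f : A →+ A) :
    ∃ m : Matrix (Fin 2) (Fin 2) O, ∀ j a, f (B.pt j a) = B.pt j (m.mulVec a) := by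
  choose c hc using fun k j => B.surj j (f (B.pt j (Pi.single k 1))) (by
    rw [← map_nsmul, pow_smul_pt, map_zero])
  choose m hm using fun i k => TateMod_lim (fun j => c k j i) fun j =>
    (B.pt_eq_iff j _ _).1 (by rw [← B.two, hc, ← map_nsmul, B.two, hc]) i
  refine ⟨Matrix.of m, fun j a => ?_⟩
  have e1 : a = ∑ k, a k • Pi.single k (1 : O) := by
    funext i; fin_cases i <;> simp
  have e2 : (Matrix.of m).mulVec a = ∑ k, a k • fun i => m i k := by
    funext i; simp [Matrix.mulVec, dotProduct, mul_comm]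
  rw [e2, map_sum]
  conv_lhs => rw [e1, map_sum, map_sum]
  refine Finset.sum_congr rfl fun k _ => ?_
  rw [TateMod_smul, TateMod_smul, map_nsmul, ← hc, (B.pt_eq_iff j _ _).2 fun i => hm i k j]

/-- the matrix of an endomorphism -/
def mat (f : A →+ A) : Matrix (Fin 2) (Fin 2) O := (B.exists_mat f).choose

theorem mat_spec (f : A →+ A) (j : ℕ) (a : V) : f (B.pt j a) = B.pt j ((B.mat f).mulVec a) :=
  (B.exists_mat f).choose_spec j a

theorem mat_unique {f : A →+ A} {m : Matrix (Fin 2) (Fin 2) O}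
    (h : ∀ j a, f (B.pt j a) = B.pt j (m.mulVec a)) : B.mat f = m := by
  ext a b
  refine sub_eq_zero.1 (TateMod_zero fun j => ?_)
  simpa using (B.pt_eq_iff j _ _).1 ((B.mat_spec f j (Pi.single b 1)).symm.trans (h j _)) a

theorem mat_one {f : A →+ A} (h : ∀ (j : ℕ) (P : A), 2 ^ j • P = 0 → f P = P) : B.mat f = 1 := by
  exact B.mat_unique fun j a => by rw [Matrix.one_mulVec, h j _ (B.pow_smul_pt j a)]

theorem mat_mul {f g fg : A →+ A} (h : ∀ P, fg P = f (g P)) : B.mat fg = B.mat f * B.mat g := by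
  exact B.mat_unique fun j a => by rw [h, mat_spec, mat_spec, Matrix.mulVec_mulVec]

theorem mat_dvd_iff (f : A →+ A) (j : ℕ) :
    (∀ a b, (2 : O) ^ j ∣ (B.mat f - 1) a b) ↔ ∀ P : A, 2 ^ j • P = 0 → f P = P := by
  constructor
  · intro h P hP
    obtain ⟨a, rfl⟩ := B.surj j P hP
    rw [mat_spec, ← sub_eq_zero, ← map_sub, B.ker]
    intro i
    rw [show (B.mat f).mulVec a - a = (B.mat f - 1).mulVec a by
      rw [Matrix.sub_mulVec, Matrix.one_mulVec]]
    exact Finset.dvd_sum (s := Finset.univ) fun k _ => (h i k).mul_right (a k)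
  · intro h a b
    have := (B.pt_eq_iff j _ _).1 ((B.mat_spec f j (Pi.single b 1)).symm.trans
      (h _ (B.pow_smul_pt j _))) a
    simpa [Matrix.one_apply, Pi.single_apply] using this

open Classical in
/-- coordinates of a torsion point -/
def crd (j : ℕ) (P : A) : V := if h : ∃ a, B.pt j a = P then h.choose else 0

theorem pt_crd {j : ℕ} {P : A} (h : 2 ^ j • P = 0) : B.pt j (B.crd j P) = P := by
  rw [crd, dif_pos (B.surj j P h)]
  exact (B.surj j P h).choose_spec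

end TateB

end

end Pool.Agent.Quad
end

-- merged part: Pool.Agent.Work.MP_60d5ce_nt.Lb.CTate
section
/-!
# Tate modules of arbitrary rank  (task LB CTate)

Generalise `Qt/TateMod.lean` (`TateMod_seq`, `TateMod_hom`, `TateMod_lim`, `TateMod_appr` are reusable).  `exists_tateR`: `tr_basis` for `H = tors A 2` gives an `F2`-basis `x i`.
`TateR.exists_emb`: `tr_lift`, or factor `pt j` through `PadicInt.toZModPow j` (onto, `PadicInt.ker_toZModPow`).  `TateR.hasTr`: `hasTr_of_basis`, `RingHom.map_mulVec`,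
`AddMonoidHom.map_trace`.
-/

namespace Pool.Agent.Lef

open Pool.Agent.Quad

noncomputable section

/-- a basis of the Tate module -/
structure TateR (r : ℕ) (A : Type) [AddCommGroup A] where
  pt : ℕ → (Fin r → O) →+ A
  two : ∀ j a, 2 • pt (j + 1) a = pt j a
  ker : ∀ j a, pt j a = 0 ↔ VD j a
  surj : ∀ j P, 2 ^ j • P = 0 → ∃ a, pt j a = P

variable {A : Type} [AddCommGroup A] {r : ℕ}

/-- rank two -/
def ofB (B : TateB A) : TateR 2 A := ⟨B.pt, B.two, B.ker, B.surj⟩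

/-- reduction modulo `2 ^ j` -/
def rO (j : ℕ) : O →+* ZMod (2 ^ j) := PadicInt.toZModPow j

theorem rO_eq_zero {j : ℕ} {a : O} : rO j a = 0 ↔ (2 : O) ^ j ∣ a := by
  rw [rO, ← RingHom.mem_ker, PadicInt.ker_toZModPow, Ideal.mem_span_singleton]
  rfl

theorem rO_surj (j : ℕ) : Function.Surjective (rO j) := by
  intro z
  obtain ⟨n, rfl⟩ := ZMod.intCast_surjective z
  exact ⟨n, map_intCast _ n⟩

theorem eq_of_rO {a b : O} (h : ∀ j, rO (j + 1) a = rO (j + 1) b) : a = b := by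
  refine sub_eq_zero.1 (TateMod_zero fun j => (pow_dvd_pow _ j.le_succ).trans ?_)
  rw [← rO_eq_zero, map_sub, h, sub_self]

theorem exists_tateR (hdiv : ∀ P : A, ∃ R, 2 • R = P) (hfin : (tors A 2 : Set A).Finite) :
    ∃ r, Nonempty (TateR r A) := by
  obtain ⟨r, T, -, h0, hind, hspan⟩ := tr_basis hfin
  choose e e0 e1 e2 using fun i => TateMod_seq hdiv (T i) (h0 i)
  have tor : ∀ i j, 2 ^ j • e i j = 0 := fun i j => by
    rcases j with _ | j
    · simp [e0]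
    · rw [pow_succ', mul_smul, e2, h0]
  choose φ hφ using fun i j => TateMod_hom j (e i j) (tor i j)
  have ap : ∀ (j : ℕ) (x : O), (2 : O) ^ j ∣ x - ((x.appr j : ℤ) : O) := fun j x => by
    simpa using TateMod_appr j x
  have z2 : ∀ (n : ℤ) (P : A), (2 * n) • P = n • 2 • P := fun n P => by
    rw [mul_comm, mul_smul, ← natCast_zsmul]; rfl
  have sm : ∀ (k : ℕ) (c : Fin r → ℤ) (y : Fin r → A),
      k • ∑ i, c i • y i = ∑ i, c i • k • y i := fun k c y => by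
    rw [Finset.smul_sum]
    exact Finset.sum_congr rfl fun i _ => smul_comm _ _ _
  have ker : ∀ (j : ℕ) (c : Fin r → ℤ), ∑ i, c i • e i j = 0 → ∀ i, 2 ^ j ∣ c i := fun j => by
    induction j with
    | zero => simp
    | succ j ih =>
      intro c h
      have h1 : ∑ i, c i • T i = 0 := by
        have h2 := sm (2 ^ j) c fun i => e i (j + 1)
        simp only [e2] at h2
        rw [← h2, h, smul_zero]
      choose d hd using hind c h1
      have h3 : ∑ i, d i • e i j = 0 := by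
        rw [← h]
        exact Finset.sum_congr rfl fun i _ => by rw [hd, z2, e1]
      intro i
      rw [hd, pow_succ']
      exact mul_dvd_mul_left _ (ih d h3 i)
  have sur : ∀ (j : ℕ) (P : A), 2 ^ j • P = 0 → ∃ c : Fin r → ℤ, ∑ i, c i • e i j = P :=
    fun j => by
    induction j with
    | zero => exact fun P h => ⟨0, by simpa using h.symm⟩
    | succ j ih =>
      intro P h
      obtain ⟨c, h2⟩ := ih (2 • P) (by rw [← mul_smul, ← pow_succ, h])
      have h3 : 2 • (P - ∑ i, c i • e i (j + 1)) = 0 := by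
        rw [smul_sub, sm]
        simp only [e1]
        rw [h2, sub_self]
      obtain ⟨a, h4⟩ := hspan _ h3 h3
      refine ⟨fun i => c i + a i * (2 ^ j : ℕ), ?_⟩
      simp only [add_smul, mul_smul, natCast_zsmul, e2]
      rw [Finset.sum_add_distrib, h4, add_sub_cancel]
  let p : ℕ → (Fin r → O) →+ A := fun j => ∑ i, (φ i j).comp (Pi.evalAddMonoidHom _ i)
  have hp : ∀ j a, p j a = ∑ i, φ i j (a i) := fun j a => AddMonoidHom.finsetSum_apply _ _ _
  refine ⟨r, ⟨⟨p, fun j a => ?_, fun j a => ?_, fun j P h => ?_⟩⟩⟩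
  · rw [hp, hp, Finset.smul_sum]
    refine Finset.sum_congr rfl fun i _ => ?_
    rw [hφ _ _ _ _ (ap (j + 1) _), hφ i j _ _ ((pow_dvd_pow _ j.le_succ).trans (ap (j + 1) _)),
      smul_comm, e1]
  · rw [hp]
    constructor
    · intro h i
      have h1 := ker j (fun i => ((a i).appr j : ℤ)) (by
        rw [← h]
        exact Finset.sum_congr rfl fun i _ => (hφ _ _ _ _ (ap j _)).symm) i
      simpa using dvd_add (ap j (a i)) (TateMod_int h1)
    · intro h
      refine Finset.sum_eq_zero fun i _ => ?_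
      rw [hφ i j _ 0 (by simpa using h i), zero_smul]
  · obtain ⟨c, rfl⟩ := sur j P h
    refine ⟨fun i => c i, ?_⟩
    rw [hp]
    exact Finset.sum_congr rfl fun i _ => hφ i j _ (c i) (by simp)

namespace TateR

variable (B : TateR r A)

theorem pow_smul_pt (j : ℕ) (a : Fin r → O) : 2 ^ j • B.pt j a = 0 := by
  rw [← map_nsmul, B.ker]
  intro i
  simp

theorem pow_smul_add (i j : ℕ) (a : Fin r → O) : 2 ^ i • B.pt (i + j) a = B.pt j a := by
  induction i with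
  | zero => simp
  | succ i ih => rw [pow_succ, mul_smul, Nat.add_right_comm, B.two, ih]

theorem CTate_eq_iff (j : ℕ) (a b : Fin r → O) :
    B.pt j a = B.pt j b ↔ ∀ i, (2 : O) ^ j ∣ a i - b i := by
  rw [← sub_eq_zero, ← map_sub, B.ker]
  rfl

theorem CTate_smul (j : ℕ) (c : O) (a : Fin r → O) :
    B.pt j (c • a) = c.appr j • B.pt j a := by
  rw [← map_nsmul, CTate_eq_iff]
  intro i
  simpa [← sub_mul] using (TateMod_appr j c).mul_right (a i)

theorem CTate_rO (j : ℕ) (a b : Fin r → O) :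
    B.pt j a = B.pt j b ↔ (fun i => rO j (a i)) = fun i => rO j (b i) := by
  rw [CTate_eq_iff, funext_iff]
  exact forall_congr' fun i => by rw [← rO_eq_zero, map_sub, sub_eq_zero]

theorem exists_mat (f : A →+ A) :
    ∃ m : Matrix (Fin r) (Fin r) O, ∀ j a, f (B.pt j a) = B.pt j (m.mulVec a) := by
  choose c hc using fun k j => B.surj j (f (B.pt j (Pi.single k 1))) (by
    rw [← map_nsmul, pow_smul_pt, map_zero])
  choose m hm using fun i k => TateMod_lim (fun j => c k j i) fun j =>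
    (B.CTate_eq_iff j _ _).1 (by rw [← B.two, hc, ← map_nsmul, B.two, hc]) i
  refine ⟨Matrix.of m, fun j a => ?_⟩
  have e1 : a = ∑ k, a k • Pi.single k (1 : O) := by
    funext i; simp [Pi.single_apply]
  have e2 : (Matrix.of m).mulVec a = ∑ k, a k • fun i => m i k := by
    funext i; simp [Matrix.mulVec, dotProduct, mul_comm]
  rw [e2, map_sum]
  conv_lhs => rw [e1, map_sum, map_sum]
  refine Finset.sum_congr rfl fun k _ => ?_
  rw [CTate_smul, CTate_smul, map_nsmul, ← hc, (B.CTate_eq_iff j _ _).2 fun i => hm i k j]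

theorem exists_emb (j : ℕ) : ∃ e : (Fin r → ZMod (2 ^ j)) →+ A, Function.Injective e ∧
    e.range = tors A (2 ^ j) ∧ ∀ a, e (fun i => rO j (a i)) = B.pt j a := by
  choose s hs using rO_surj j
  have key : ∀ a : Fin r → O, B.pt j (fun i => s (rO j (a i))) = B.pt j a := fun a =>
    (B.CTate_rO j _ _).2 (funext fun i => hs _)
  refine ⟨AddMonoidHom.mk' (fun x => B.pt j fun i => s (x i)) fun x y => ?_, fun x y h => ?_, ?_,
    key⟩
  · rw [← map_add, CTate_rO]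
    funext i
    rw [Pi.add_apply, Pi.add_apply, map_add, hs, hs, hs]
  · have h1 := (B.CTate_rO j _ _).1 h
    funext i
    simpa only [hs] using congrFun h1 i
  · ext P
    constructor
    · rintro ⟨x, rfl⟩
      exact B.pow_smul_pt j _
    · intro h
      obtain ⟨a, rfl⟩ := B.surj j P h
      exact ⟨fun i => rO j (a i), key a⟩

theorem hasTr {j : ℕ} {f : A → A} {m : Matrix (Fin r) (Fin r) O}
    (h : ∀ a, f (B.pt j a) = B.pt j (m.mulVec a)) :
    HasTr (2 ^ j) (tors A (2 ^ j)) f (rO j m.trace) := by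
  obtain ⟨e, he, hr, ha⟩ := B.exists_emb j
  refine ⟨r, e, m.map (rO j), he, hr, fun x => ?_, (AddMonoidHom.map_trace (rO j) m).symm⟩
  choose a hx using fun i => rO_surj j (x i)
  obtain rfl : x = fun i => rO j (a i) := funext fun i => (hx i).symm
  rw [ha, h, ← ha]
  exact congrArg e (funext fun i => RingHom.map_mulVec (rO j) m a i)

include B in
theorem card_tors (j : ℕ) : (tors A (2 ^ j) : Set A).Finite ∧
    (tors A (2 ^ j) : Set A).ncard = (2 ^ j) ^ r := by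
  obtain ⟨e, he, hr, -⟩ := B.exists_emb j
  have h : (tors A (2 ^ j) : Set A) = Set.range e := by rw [← hr]; rfl
  rw [h]
  refine ⟨Set.finite_range e, ?_⟩
  rw [Set.ncard_range_of_injective he]
  simp

end TateR

end

end Pool.Agent.Lef
end

-- merged part: Pool.Agent.Work.MP_60d5ce_nt.Qt.Lat
section
/-!
# Lattices with an action of the Weil group, Selmer structures: definitions

See `/team-store/h4_quad_plan.md`.
-/

namespace Pool.Agent.Quad

open scoped Classical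

noncomputable section

variable {W P : Type} [Group W]

/-- a representation on a lattice -/
structure Lat (T : Tame W P) (I : Type) [Fintype I] [DecidableEq I] where
  ρ : W → Matrix I I O
  ρ_one : ρ 1 = 1
  ρ_mul : ∀ g h, ρ (g * h) = ρ g * ρ h
  S : Finset P
  inf_mem : T.inf ∈ S
  unr : ∀ v ∉ S, ρ (T.τ v) = 1
  sm : ∀ j : ℕ, ∃ U, T.Adm U ∧ ∀ u ∈ U, ∀ a b, (2 : O) ^ j ∣ (ρ u - 1) a b

namespace Lat

variable {T : Tame W P} {I : Type} [Fintype I] [DecidableEq I] (R : Lat T I)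

/-- the reduction modulo two -/
def rb (g : W) : Matrix I I F2 := (R.ρ g).map res

/-- the action twisted by the character `x` -/
def act (x : W → F2) (g : W) (t : I → O) : I → O := sg (x g) • (R.ρ g).mulVec t

/-- smooth cocycles modulo `2 ^ j` -/
def Coc (x : W → F2) (j : ℕ) (ψ : W → I → O) : Prop :=
  (∃ U, T.Adm U ∧ ∀ g, ∀ u ∈ U, VD j (ψ (g * u) - ψ g)) ∧
    ∀ g h, VD j (ψ g + R.act x g (ψ h) - ψ (g * h))

/-- local cocycles that are coboundaries of torsion points -/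
def LTyp (x : W → F2) (v : P) (l : W → I → O) : Prop :=
  ∃ (m : ℕ) (t : I → O), ∀ g ∈ T.D v, (2 : O) ^ m • l g = R.act x g t - t

/-- the local condition modulo `2 ^ j` -/
def LocOK (x : W → F2) (j : ℕ) (ψ : W → I → O) (v : P) : Prop :=
  ∃ l, R.LTyp x v l ∧ ∀ g ∈ T.D v, VD j (ψ g - l g)

/-- Selmer cocycles: local condition on `A`, unramified outside -/
def Sel (A : Finset P) (x : W → F2) (j : ℕ) (ψ : W → I → O) : Prop :=
  R.Coc x j ψ ∧ (∀ v ∈ A, R.LocOK x j ψ v) ∧ ∀ v ∉ A, VD j (ψ (T.τ v))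

/-- `w` lifts to a Selmer cocycle of level `j` -/
def Lifts (A : Finset P) (x : W → F2) (j : ℕ) (w : W → I → F2) : Prop :=
  ∃ ψ, R.Sel A x j ψ ∧ ∀ g, digV 0 (ψ g) = w g

/-- smooth cocycles modulo two -/
def Z1 (w : W → I → F2) : Prop := T.Sm w ∧ ∀ g h, w (g * h) = w g + (R.rb g).mulVec (w h)

/-- coboundaries modulo two -/
def db (t : I → F2) (g : W) : I → F2 := (R.rb g).mulVec t + t

/-- `w` is a coboundary -/
def IsCob (w : W → I → F2) : Prop := ∃ t, ∀ g, w g = R.db t g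

/-- `w` is a coboundary on the local group -/
def LocCob (v : P) (w : W → I → F2) : Prop := ∃ t, ∀ g ∈ T.D v, w g = R.db t g

/-- local cocycles modulo two -/
def LZ (v : P) (w : W → I → F2) : Prop :=
  (∀ g ∈ T.D v, ∀ h ∈ T.D v, w (g * h) = w g + (R.rb g).mulVec (w h)) ∧
    w (T.σ v * T.τ v) = w (T.τ v ^ T.Q v * T.σ v)

/-- `w` is the reduction of a local cocycle of torsion type -/
def LL (x : W → F2) (v : P) (w : W → I → F2) : Prop :=
  ∃ l, R.LTyp x v l ∧ ∀ g ∈ T.D v, digV 0 (l g) = w g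

/-- cocycles modulo two unramified outside `A` -/
def Z1U (A : Finset P) : Set (W → I → F2) := {w | R.Z1 w ∧ ∀ v ∉ A, w (T.τ v) = 0}

/-- vectors fixed by `g` -/
def Fx (g : W) (n : I → F2) : Prop := (R.rb g).mulVec n = n

/-- `g` fixes no nonzero vector -/
def Free (g : W) : Prop := ∀ n, R.Fx g n → n = 0

/-- `A` consists of `S` and the places where `x` ramifies -/
def Ram (x : W → F2) (A : Finset P) : Prop :=
  R.S ⊆ A ∧ (∀ v ∈ A, v ∉ R.S → x (T.τ v) = 1) ∧ ∀ v ∉ A, x (T.τ v) = 0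

end Lat

/-- the Tate module of an elliptic curve with full image modulo two -/
structure Rep (T : Tame W P) extends Lat T (Fin 2) where
  det : ∀ g, (ρ g).det = T.cq g
  surj : ∀ m : Matrix (Fin 2) (Fin 2) F2, m.det = 1 → ∃ z, T.deg z = 0 ∧ toLat.rb z = m
  chi : ∀ v ∉ S, ∀ n, toLat.Fx (T.σ v) n → ∃ w ∈ toLat.Z1U (insert v S), w (T.τ v) = n
  locfin : ∃ c : ℕ, ∀ v ∈ S, ∀ (a b : F2) (m : ℕ) (t : V),
    VD m (sg a • (ρ (T.σ v)).mulVec t - t) → VD m (sg b • (ρ (T.τ v)).mulVec t - t) → VD (m - c) t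

namespace Rep

variable {T : Tame W P} (R : Rep T)

/-- the doubled lattice: the tensor product with the unipotent representation `2 lam deg` -/
def hat (lam : O) : Lat T H where
  ρ g := Matrix.fromBlocks (R.ρ g) 0 ((2 * lam * (T.deg g : O)) • R.ρ g) (R.ρ g)
  ρ_one := by simp [R.ρ_one, T.deg_one]
  ρ_mul g h := by
    rw [Matrix.fromBlocks_multiply, R.ρ_mul, T.deg_mul]
    simp only [Matrix.zero_mul, Matrix.mul_zero, add_zero, zero_add, Matrix.smul_mul,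
      Matrix.mul_smul, Int.cast_add, mul_add, add_smul, smul_zero]
  S := R.S
  inf_mem := R.inf_mem
  unr v hv := by simp [R.unr v hv, T.deg_τ]
  sm j := by
    obtain ⟨U, hU, h⟩ := R.sm j
    refine ⟨U, hU, fun u hu a b => ?_⟩
    have h0 : T.deg u = 0 := T.adm_le U hU hu
    rcases a with a | a <;> rcases b with b | b
    · simpa [Matrix.one_apply] using h u hu a b
    · simp
    · simp [h0]
    · simpa [Matrix.one_apply] using h u hu a b

/-- a chosen cocycle ramified at `v` with value `n` at `τ v` -/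
def ch (v : P) (n : Vb) : W → Vb :=
  if h : v ∉ R.S ∧ R.Fx (T.σ v) n ∧ n ≠ 0 then (R.chi v h.1 n h.2.1).choose else 0

/-- the same for the doubled lattice -/
def chH (v : P) (n : H → F2) (g : W) : H → F2 := Sum.elim (R.ch v (p0 n) g) (R.ch v (p1 n) g)

/-- the local pairing -/
def br (v : P) (a b : W → Vb) : F2 := T.inv v fun g h => ee (a g) ((R.rb g).mulVec (b h))

/-- the local pairing on the doubled lattice -/
def hbr (v : P) (a b : W → H → F2) : F2 :=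
  R.br v (fun g => p1 (a g)) (fun g => p0 (b g)) + R.br v (fun g => p0 (a g)) fun g => p1 (b g)

/-- the value at `σ v` of the local cocycle with value `n` at `τ v` -/
def kap (v : P) (n : Vb) : Vb := digV 1 (lftV n - (R.ρ (T.σ v)).mulVec (lftV n))

/-- the level one condition at a prime where the twist ramifies; `s` is the value of the twist at
`σ v`, `y` is a shift -/
def LLs (s : F2) (y : Vb) (v : P) (w : W → Vb) : Prop :=
  ∀ n, R.Fx (T.σ v) n → ee (w (T.σ v) + R.kap v (w (T.τ v)) + s • w (T.τ v) + y) n = 0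

/-- the same for the doubled lattice; `d` is the residue of `lam` -/
def LH (d s : F2) (v : P) (w : W → H → F2) : Prop :=
  R.LLs s 0 v (fun g => p0 (w g)) ∧
    R.LLs s ((d * (T.dg v : F2)) • p0 (w (T.τ v))) v fun g => p1 (w g)

/-- cocycles unramified outside `A` with the level one condition on `Ot` -/
def G1 (A Ot : Finset P) (xs : P → F2) : Set (W → Vb) :=
  {w | w ∈ R.Z1U A ∧ ∀ v ∈ Ot, R.LLs (xs v) 0 v w}

/-- the same for the doubled lattice -/
def GH (d : F2) (A Ot : Finset P) (xs : P → F2) : Set (W → H → F2) :=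
  {w | w ∈ (R.hat 0).Z1U A ∧ ∀ v ∈ Ot, R.LH d (xs v) v w}

/-- nondegenerate classes -/
def ND (lam : O) (w : W → H → F2) : Prop :=
  ¬ R.IsCob (fun g => p0 (w g)) ∧
    (res lam = 0 → ¬ R.IsCob (fun g => p1 (w g)) ∧ ¬ R.IsCob fun g => p0 (w g) + p1 (w g))

/-- no nondegenerate class lifts to level `K` -/
def NoLift (lam : O) (A : Finset P) (x : W → F2) (K : ℕ) : Prop :=
  ∀ w, R.ND lam w → ¬ (R.hat lam).Lifts A x K w

/-- the conclusion of the statistical part -/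
def Good (A : Finset P) (x : W → F2) (c : ℕ) : Prop :=
  ∃ K1 K : ℕ, c ≤ K1 ∧ R.NoLift 0 A x K1 ∧ ∀ a ≤ 4 * K1, R.NoLift (2 ^ a) A x K

/-- the diagonal Cassels-Tate pairing of level `j` vanishes -/
def Diag (lam : O) (A : Finset P) (x : W → F2) (j : ℕ) : Prop :=
  ∀ s : W → H → O, (R.hat lam).Coc x (j + 1) s → (∀ v ∉ A, VD (j + 1) (s (T.τ v))) →
    ∀ l : P → W → H → O,
      (∀ v ∈ A, (R.hat lam).LTyp x v (l v) ∧ ∀ g ∈ T.D v, VD j (s g - l v g)) →
      ∑ v ∈ A, R.hbr v (fun g => digV j (s g - l v g)) (fun g => digV 0 (s g)) = 0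

/-- two marks in general position -/
def Nondeg (na nb : H → F2) : Prop :=
  ∃ m : Matrix (Fin 2) (Fin 2) F2, m.det = 1 ∧
    ee (m.mulVec (p0 na)) (p1 nb) + ee (m.mulVec (p1 na)) (p0 nb) ≠ 0

end Rep

end

end Pool.Agent.Quad
end

-- merged part: Pool.Agent.Work.MP_60d5ce_nt.Qt.Act
section
/-!
# The twisted action, cocycles, local types

All easy.  `rho_rel`: `sm` for every `j` and `eq_zero_of_forall_dvd`.
-/

namespace Pool.Agent.Quad

open scoped Classical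

noncomputable section

variable {W P : Type} [Group W] {T : Tame W P}

namespace Lat

variable {I : Type} [Fintype I] [DecidableEq I] {R : Lat T I} {x : W → F2}

theorem Act_cancel {m : ℕ} {a b : I → O} (h : (2 : O) ^ m • a = (2 : O) ^ m • b) : a = b :=
  funext fun i => two_pow_mul_cancel (j := m) (congrFun h i)

theorem Act_dvd_mul {c : O} (A : Matrix I I O) {B : Matrix I I O}
    (h : ∀ a b, c ∣ B a b) (a b : I) : c ∣ (A * B) a b := by
  rw [Matrix.mul_apply]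
  exact Finset.dvd_sum fun l _ => (h l b).mul_left _

theorem Act_VD_mulVec {j : ℕ} {B : Matrix I I O} (h : ∀ a b, (2 : O) ^ j ∣ B a b) (t : I → O) :
    VD j (B.mulVec t) := fun i => by
  simp only [Matrix.mulVec, dotProduct]
  exact Finset.dvd_sum fun l _ => (h i l).mul_right _

theorem rho_rel (v : P) : R.ρ (T.σ v * T.τ v) = R.ρ (T.τ v ^ T.Q v * T.σ v) := by
  ext1 a b
  refine sub_eq_zero.1 (eq_zero_of_forall_dvd fun j => ?_)
  obtain ⟨U, hU, h⟩ := R.sm j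
  have hu := h _ (T.rel U hU v)
  have e : R.ρ (T.τ v ^ T.Q v * T.σ v) = R.ρ (T.σ v * T.τ v) *
      R.ρ ((T.σ v * T.τ v)⁻¹ * (T.τ v ^ T.Q v * T.σ v)) := by
    rw [← R.ρ_mul, mul_inv_cancel_left]
  rw [e, ← Matrix.sub_apply, ← dvd_neg, ← Matrix.neg_apply, neg_sub, ← mul_sub_one]
  exact Act_dvd_mul _ hu a b

theorem rb_one : R.rb 1 = 1 := by
  simp [rb, R.ρ_one]

theorem rb_mul (g h : W) : R.rb (g * h) = R.rb g * R.rb h := by
  simp only [rb, R.ρ_mul, Matrix.map_mul]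

theorem rb_unr {v : P} (hv : v ∉ R.S) : R.rb (T.τ v) = 1 := by
  simp [rb, R.unr v hv]

theorem rb_rel (v : P) : R.rb (T.σ v * T.τ v) = R.rb (T.τ v ^ T.Q v * T.σ v) := by
  simp only [rb, rho_rel v]

theorem rb_sm : T.Sm R.rb := by
  obtain ⟨U, hU, h⟩ := R.sm 1
  refine ⟨U, hU, fun g u hu => ?_⟩
  have : R.rb u = 1 := by
    ext a b
    have h1 := (res_eq_zero_iff _).2 (by simpa using h u hu a b)
    rw [map_sub, sub_eq_zero] at h1
    rw [rb, Matrix.map_apply, h1]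
    by_cases hab : a = b <;> simp [Matrix.one_apply, hab]
  rw [rb_mul, this, mul_one]

theorem rb_inv_mulVec (g : W) (t : I → F2) : (R.rb g⁻¹).mulVec ((R.rb g).mulVec t) = t := by
  rw [Matrix.mulVec_mulVec, ← rb_mul, inv_mul_cancel, rb_one, Matrix.one_mulVec]

theorem rb_mulVec_inv (g : W) (t : I → F2) : (R.rb g).mulVec ((R.rb g⁻¹).mulVec t) = t := by
  rw [Matrix.mulVec_mulVec, ← rb_mul, mul_inv_cancel, rb_one, Matrix.one_mulVec]

theorem rb_mulVec_eq_zero {g : W} {t : I → F2} (h : (R.rb g).mulVec t = 0) : t = 0 := by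
  rw [← rb_inv_mulVec (R := R) g t, h, Matrix.mulVec_zero]

theorem act_add (g : W) (s t : I → O) : R.act x g (s + t) = R.act x g s + R.act x g t := by
  simp only [act, Matrix.mulVec_add, smul_add]

theorem act_sub (g : W) (s t : I → O) : R.act x g (s - t) = R.act x g s - R.act x g t := by
  simp only [act, Matrix.mulVec_sub, smul_sub]

theorem act_smul (g : W) (c : O) (t : I → O) : R.act x g (c • t) = c • R.act x g t := by
  simp only [act, Matrix.mulVec_smul]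
  exact smul_comm _ _ _

theorem act_zero (g : W) : R.act x g 0 = 0 := by
  simp only [act, Matrix.mulVec_zero, smul_zero]

theorem act_sum {ι : Type*} (s : Finset ι) (g : W) (t : ι → I → O) :
    R.act x g (∑ i ∈ s, t i) = ∑ i ∈ s, R.act x g (t i) := by
  induction s using Finset.induction_on with
  | empty => simp [act_zero]
  | insert i s hi ih => rw [Finset.sum_insert hi, Finset.sum_insert hi, act_add, ih]

theorem act_congr {y : W → F2} {g : W} (h : x g = y g) (t : I → O) : R.act x g t = R.act y g t := by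
  simp only [act, h]

theorem act_add_char (y : W → F2) (g : W) (t : I → O) :
    R.act (x + y) g t = sg (y g) • R.act x g t := by
  simp only [act, Pi.add_apply, sg_add, smul_smul, mul_comm]

theorem act_mul (hx : T.IsHom x) (g h : W) (t : I → O) :
    R.act x (g * h) t = R.act x g (R.act x h t) := by
  simp only [act, hx.2, sg_add, R.ρ_mul, Matrix.mulVec_smul, Matrix.mulVec_mulVec, smul_smul]

theorem act_one (hx : T.IsHom x) (t : I → O) : R.act x 1 t = t := by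
  simp only [act, Tame.hom_one hx, sg_zero, R.ρ_one, Matrix.one_mulVec, one_smul]

theorem act_rel (hx : T.IsHom x) (v : P) (t : I → O) :
    R.act x (T.σ v * T.τ v) t = R.act x (T.τ v ^ T.Q v * T.σ v) t := by
  simp only [act, Tame.sm_rel hx.1 v, rho_rel v]

theorem act_unr {v : P} (hv : v ∉ R.S) (hx : x (T.τ v) = 0) (t : I → O) : R.act x (T.τ v) t = t := by
  simp only [act, hx, sg_zero, R.unr v hv, Matrix.one_mulVec, one_smul]

theorem act_ram {v : P} (hv : v ∉ R.S) (hx : x (T.τ v) = 1) (t : I → O) :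
    R.act x (T.τ v) t = -t := by
  simp only [act, hx, sg_one, R.unr v hv, Matrix.one_mulVec, neg_smul, one_smul]

theorem act_neg (g : W) (t : I → O) : R.act x g (-t) = -R.act x g t := by
  simp only [act, Matrix.mulVec_neg, smul_neg]

theorem act_VD {j : ℕ} {t : I → O} (ht : VD j t) (g : W) : VD j (R.act x g t) := by
  exact (ht.mulVec _).smul _

theorem Act_split (g : W) (t : I → O) :
    R.act x g t - t = (sg (x g) - 1) • t + sg (x g) • (R.ρ g - 1).mulVec t := by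
  simp only [act, Matrix.sub_mulVec, Matrix.one_mulVec, smul_sub, sub_smul, one_smul]
  abel

theorem digV_act {j : ℕ} {t : I → O} (ht : VD j t) (g : W) :
    digV j (R.act x g t) = (R.rb g).mulVec (digV j t) := by
  rw [act, digV_smul _ (ht.mulVec _), res_sg, one_smul, digV_mulVec _ ht, rb]

theorem digV_act_sub {j : ℕ} {t : I → O} (ht : VD j t) (g : W) :
    digV j (R.act x g t - t) = R.db (digV j t) g := by
  rw [digV_sub (act_VD ht g) ht, digV_act ht, db, vb_sub]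

theorem act_inv (hx : T.IsHom x) (g : W) (t : I → O) : R.act x g⁻¹ (R.act x g t) = t := by
  rw [← act_mul hx, inv_mul_cancel, act_one hx]

theorem VD_act_iff (hx : T.IsHom x) {j : ℕ} (g : W) (t : I → O) :
    VD j (R.act x g t) ↔ VD j t :=
  ⟨fun h => by simpa only [act_inv hx] using act_VD (R := R) (x := x) h g⁻¹, fun h => act_VD h g⟩

theorem act_sm (hx : T.IsHom x) (j : ℕ) :
    ∃ U, T.Adm U ∧ ∀ u ∈ U, ∀ t, VD j (R.act x u t - t) := by
  obtain ⟨U, hU, h⟩ := hx.1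
  obtain ⟨U', hU', h'⟩ := R.sm j
  refine ⟨U ⊓ U', T.adm_inf _ _ hU hU', fun u hu t => ?_⟩
  have h0 : x u = 0 := by
    have := h 1 u hu.1
    rwa [one_mul, Tame.hom_one hx] at this
  rw [Act_split, h0, sg_zero, sub_self, zero_smul, zero_add, one_smul]
  exact Act_VD_mulVec (h' u hu.2) t

section z1

variable {w w' : W → I → F2}

theorem Z1.one (h : R.Z1 w) : w 1 = 0 := by
  have := h.2 1 1
  rw [mul_one, rb_one, Matrix.one_mulVec] at this
  simpa using this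

theorem Z1.add (h : R.Z1 w) (h' : R.Z1 w') : R.Z1 (w + w') :=
  ⟨Tame.sm_comp₂ h.1 h'.1 (· + ·), fun g k => by
    simp only [Pi.add_apply, h.2, h'.2, Matrix.mulVec_add]
    abel⟩

theorem z1_zero : R.Z1 0 := ⟨Tame.sm_const 0, fun _ _ => by simp⟩

theorem Z1.sum {ι : Type*} (s : Finset ι) {f : ι → W → I → F2} (h : ∀ i ∈ s, R.Z1 (f i)) :
    R.Z1 fun g => ∑ i ∈ s, f i g := by
  induction s using Finset.induction_on with
  | empty => exact z1_zero
  | insert i s hi ih =>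
    simp only [Finset.sum_insert hi]
    exact (h i (Finset.mem_insert_self _ _)).add
      (ih fun l hl => h l (Finset.mem_insert_of_mem hl))

theorem Z1.inv (h : R.Z1 w) (g : W) : w g⁻¹ = (R.rb g⁻¹).mulVec (w g) := by
  have := h.2 g⁻¹ g
  rw [inv_mul_cancel, h.one, eq_comm, add_eq_zero_iff_eq_neg, vb_neg] at this
  exact this

theorem Z1.conj (h : R.Z1 w) (g k : W) :
    w (k * g * k⁻¹) = (R.rb k).mulVec (w g) + R.db (w k) (k * g * k⁻¹) := by
  have h1 := h.2 (k * g * k⁻¹) k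
  rw [inv_mul_cancel_right, h.2] at h1
  rw [db, ← sub_eq_iff_eq_add.2 h1, vb_sub]
  abel

theorem db_add (s t : I → F2) (g : W) : R.db (s + t) g = R.db s g + R.db t g := by
  simp only [db, Matrix.mulVec_add]
  abel

theorem db_zero (g : W) : R.db 0 g = 0 := by simp [db]

theorem db_of_rb {g : W} (hg : R.rb g = 1) (t : I → F2) : R.db t g = 0 := by
  rw [db, hg, Matrix.one_mulVec, vb_add_self]

theorem db_mul (t : I → F2) (g h : W) :
    R.db t (g * h) = R.db t g + (R.rb g).mulVec (R.db t h) := by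
  simp only [db, rb_mul, Matrix.mulVec_add, Matrix.mulVec_mulVec]
  rw [add_assoc, add_left_comm t, add_left_comm ((R.rb g).mulVec t), add_comm t,
    ← add_assoc ((R.rb g).mulVec t), vb_add_self, zero_add]

theorem z1_db (t : I → F2) : R.Z1 (R.db t) :=
  ⟨Tame.sm_comp rb_sm fun m => m.mulVec t + t, db_mul t⟩

theorem db_mem (t : I → F2) {A : Finset P} (hA : R.S ⊆ A) : R.db t ∈ R.Z1U A :=
  ⟨z1_db t, fun _ hv => db_of_rb (rb_unr fun h => hv (hA h)) t⟩

theorem Z1.lz (h : R.Z1 w) (v : P) : R.LZ v w :=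
  ⟨fun g _ k _ => h.2 g k, Tame.sm_rel h.1 v⟩

theorem IsCob.add (h : R.IsCob w) (h' : R.IsCob w') : R.IsCob (w + w') := by
  obtain ⟨s, hs⟩ := h
  obtain ⟨t, ht⟩ := h'
  exact ⟨s + t, fun g => by rw [Pi.add_apply, hs, ht, db_add]⟩

theorem LZ.add {v : P} (h : R.LZ v w) (h' : R.LZ v w') : R.LZ v (w + w') :=
  ⟨fun g hg k hk => by
    simp only [Pi.add_apply, h.1 g hg k hk, h'.1 g hg k hk, Matrix.mulVec_add]
    abel, by simp only [Pi.add_apply, h.2, h'.2]⟩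

theorem LZ.congr {v : P} (h : R.LZ v w) (h' : ∀ g ∈ T.D v, w g = w' g) : R.LZ v w' :=
  ⟨fun g hg k hk => by
    rw [← h' g hg, ← h' k hk, ← h' _ (mul_mem hg hk), h.1 g hg k hk], by
    rw [← h' _ (mul_mem (Tame.σ_mem v) (Tame.τ_mem v)),
      ← h' _ (mul_mem (pow_mem (Tame.τ_mem v) _) (Tame.σ_mem v)), h.2]⟩

theorem LZ.one {v : P} (h : R.LZ v w) : w 1 = 0 := by
  have := h.1 1 (one_mem _) 1 (one_mem _)
  rw [mul_one, rb_one, Matrix.one_mulVec] at this
  simpa using this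

/-- a function satisfying the cocycle identity on the local group is determined there by its values
on `σ v` and `τ v` -/
theorem eq_zero_on_D {v : P}
    (h : ∀ g ∈ T.D v, ∀ k ∈ T.D v, w (g * k) = w g + (R.rb g).mulVec (w k))
    (h1 : w (T.σ v) = 0) (h2 : w (T.τ v) = 0) : ∀ g ∈ T.D v, w g = 0 := by
  have h0 : w 1 = 0 := by
    have := h 1 (one_mem _) 1 (one_mem _)
    rw [mul_one, rb_one, Matrix.one_mulVec] at this
    simpa using this
  intro g hg
  induction hg using Subgroup.closure_induction with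
  | mem g hg => rcases hg with rfl | rfl <;> assumption
  | one => exact h0
  | mul g k hg hk ihg ihk => rw [h g hg k hk, ihg, ihk, Matrix.mulVec_zero, add_zero]
  | inv g hg ih =>
    have := h g hg g⁻¹ (inv_mem hg)
    rw [mul_inv_cancel, h0, ih, zero_add, eq_comm] at this
    exact rb_mulVec_eq_zero this

theorem LZ.eq_on_D {v : P} (h : R.LZ v w) (h' : R.LZ v w') (h1 : w (T.σ v) = w' (T.σ v))
    (h2 : w (T.τ v) = w' (T.τ v)) : ∀ g ∈ T.D v, w g = w' g := fun g hg => by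
  have := eq_zero_on_D (h.add h').1 (by rw [Pi.add_apply, h1, vb_add_self])
    (by rw [Pi.add_apply, h2, vb_add_self]) g hg
  rwa [Pi.add_apply, ← vb_sub, sub_eq_zero] at this

/-- at a good place the value at `τ v` is fixed by `σ v` -/
theorem LZ.fx {v : P} (h : R.LZ v w) (hv : v ∉ R.S) : R.Fx (T.σ v) (w (T.τ v)) := by
  have hp : ∀ n : ℕ, w (T.τ v ^ n) = n • w (T.τ v) := fun n => by
    induction n with
    | zero => simpa using h.one
    | succ n ih =>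
      rw [pow_succ', h.1 _ (Tame.τ_mem v) _ (pow_mem (Tame.τ_mem v) n), rb_unr hv,
        Matrix.one_mulVec, ih, succ_nsmul']
  have hr : ∀ n : ℕ, R.rb (T.τ v ^ n) = 1 := fun n => by
    induction n with
    | zero => simpa using rb_one
    | succ n ih => rw [pow_succ, rb_mul, ih, rb_unr hv, mul_one]
  have h2 := h.2
  rw [h.1 _ (Tame.σ_mem v) _ (Tame.τ_mem v), h.1 _ (pow_mem (Tame.τ_mem v) _) _ (Tame.σ_mem v), hr,
    Matrix.one_mulVec, hp, add_comm, add_left_inj, ← Nat.cast_smul_eq_nsmul F2, Tame.Q_cast,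
    one_smul] at h2
  exact h2

end z1

section coc

variable {j : ℕ} {ψ ψ' : W → I → O}

theorem Coc.mono (h : R.Coc x j ψ) {i : ℕ} (hi : i ≤ j) : R.Coc x i ψ := by
  obtain ⟨⟨U, hU, h1⟩, h2⟩ := h
  exact ⟨⟨U, hU, fun g u hu => (h1 g u hu).mono hi⟩, fun g g' => (h2 g g').mono hi⟩

theorem Coc.one (hx : T.IsHom x) (h : R.Coc x j ψ) : VD j (ψ 1) := by
  have := h.2 1 1
  rwa [act_one hx, mul_one, add_sub_cancel_right] at this

theorem Coc.congr (h : R.Coc x j ψ) (h' : ∀ g, VD j (ψ g - ψ' g)) : R.Coc x j ψ' := by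
  obtain ⟨⟨U, hU, h1⟩, h2⟩ := h
  refine ⟨⟨U, hU, fun g u hu => ?_⟩, fun g k => ?_⟩
  · have := ((h1 g u hu).sub (h' (g * u))).add (h' g)
    convert this using 1
    abel
  · have := (((h2 g k).sub (h' g)).sub (act_VD (R := R) (x := x) (h' k) g)).add (h' (g * k))
    convert this using 1
    rw [act_sub]
    abel

theorem Coc.add (h : R.Coc x j ψ) (h' : R.Coc x j ψ') : R.Coc x j (ψ + ψ') := by
  obtain ⟨⟨U, hU, h1⟩, h2⟩ := h
  obtain ⟨⟨U', hU', k1⟩, k2⟩ := h'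
  refine ⟨⟨U ⊓ U', T.adm_inf _ _ hU hU', fun g u hu => ?_⟩, fun g k => ?_⟩
  · convert (h1 g u hu.1).add (k1 g u hu.2) using 1
    simp only [Pi.add_apply]
    abel
  · convert (h2 g k).add (k2 g k) using 1
    simp only [Pi.add_apply, act_add]
    abel

theorem Coc.sub (h : R.Coc x j ψ) (h' : R.Coc x j ψ') : R.Coc x j (ψ - ψ') := by
  obtain ⟨⟨U, hU, h1⟩, h2⟩ := h
  obtain ⟨⟨U', hU', k1⟩, k2⟩ := h'
  refine ⟨⟨U ⊓ U', T.adm_inf _ _ hU hU', fun g u hu => ?_⟩, fun g k => ?_⟩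
  · convert (h1 g u hu.1).sub (k1 g u hu.2) using 1
    simp only [Pi.sub_apply]
    abel
  · convert (h2 g k).sub (k2 g k) using 1
    simp only [Pi.sub_apply, act_sub]
    abel

theorem Coc.smul (h : R.Coc x j ψ) (c : O) : R.Coc x j (c • ψ) := by
  obtain ⟨⟨U, hU, h1⟩, h2⟩ := h
  refine ⟨⟨U, hU, fun g u hu => ?_⟩, fun g k => ?_⟩
  · convert (h1 g u hu).smul c using 1
    simp only [Pi.smul_apply, smul_sub]
  · convert (h2 g k).smul c using 1
    simp only [Pi.smul_apply, act_smul, smul_sub, smul_add]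

theorem coc_pow_smul_iff (i : ℕ) : R.Coc x (i + j) ((2 : O) ^ i • ψ) ↔ R.Coc x j ψ := by
  simp only [Coc, Pi.smul_apply, act_smul, ← smul_sub, ← smul_add, VD_pow_smul_iff]

theorem Coc.rel (h : R.Coc x j ψ) (v : P) :
    VD j (ψ (T.σ v * T.τ v) - ψ (T.τ v ^ T.Q v * T.σ v)) := by
  obtain ⟨U, hU, h1⟩ := h.1
  have := (h1 (T.σ v * T.τ v) _ (T.rel U hU v)).neg
  rwa [mul_inv_cancel_left, neg_sub] at this

theorem Coc.fin (hx : T.IsHom x) (h : R.Coc x j ψ) : {v | ¬ VD j (ψ (T.τ v))}.Finite := by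
  obtain ⟨U, hU, h1⟩ := h.1
  refine (T.fin U hU).subset fun v hv hu => hv ?_
  have := (h1 1 _ hu).add (h.one hx)
  rwa [one_mul, sub_add_cancel] at this

/-- the leading digit of a cocycle is a cocycle modulo two -/
theorem Coc.z1_dig (h : R.Coc x (j + 1) ψ) (h0 : ∀ g, VD j (ψ g)) :
    R.Z1 fun g => digV j (ψ g) := by
  obtain ⟨⟨U, hU, h1⟩, h2⟩ := h
  refine ⟨⟨U, hU, fun g u hu => digV_congr (h1 g u hu)⟩, fun g k => ?_⟩
  show digV j (ψ (g * k)) = digV j (ψ g) + (R.rb g).mulVec (digV j (ψ k))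
  rw [← digV_congr (h2 g k), digV_add (h0 g) (act_VD (h0 k) g), digV_act (h0 k)]

theorem coc_of_z1 {h : W → I → F2} (hh : R.Z1 h) :
    R.Coc x (j + 1) fun g => (2 : O) ^ j • lftV (h g) := by
  obtain ⟨⟨U, hU, h1⟩, h2⟩ := hh
  refine ⟨⟨U, hU, fun g u hu => ?_⟩, fun g k => ?_⟩
  · simp only [h1 g u hu, sub_self]
    exact VD.zero _
  · have a := VD_pow_smul j (lftV (h g))
    have b := VD_pow_smul j (lftV (h k))
    have c := VD_pow_smul j (lftV (h (g * k)))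
    have b' := act_VD (R := R) (x := x) b g
    rw [← digV_eq_zero_iff ((a.add b').sub c), digV_sub (a.add b') c, digV_add a b', digV_act b,
      digV_pow_smul, digV_pow_smul, digV_pow_smul, digV_lftV, digV_lftV, digV_lftV, h2, sub_self]

/-- a global coboundary divided by a power of `(2 : O)` -/
theorem coc_of_cob (hx : T.IsHom x) {m : ℕ} {t : I → O} (h : ∀ g, (2 : O) ^ m • ψ g = R.act x g t - t) :
    R.Coc x j ψ := by
  rw [← coc_pow_smul_iff m]
  obtain ⟨U, hU, h1⟩ := act_sm (R := R) hx (m + j)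
  refine ⟨⟨U, hU, fun g u hu => ?_⟩, fun g k => ?_⟩
  · simp only [Pi.smul_apply, h]
    rw [sub_sub_sub_cancel_right, act_mul hx, ← act_sub]
    exact act_VD (h1 u hu t) g
  · simp only [Pi.smul_apply, h]
    rw [act_mul hx, act_sub]
    convert VD.zero (m + j) using 1
    abel

/-- powers of an element acting trivially -/
theorem Coc.pow_unr (hx : T.IsHom x) (h : R.Coc x j ψ) {g : W} (hg : VD j (ψ g)) (n : ℕ) :
    VD j (ψ (g ^ n)) := by
  induction n with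
  | zero => rw [pow_zero]; exact h.one hx
  | succ n ih =>
    have := (ih.add (act_VD (R := R) (x := x) hg (g ^ n))).sub (h.2 (g ^ n) g)
    rwa [sub_sub_cancel, ← pow_succ] at this

end coc

section ltyp

variable {v : P} {l l' : W → I → O}

theorem LTyp.zero : R.LTyp x v 0 := by
  exact ⟨0, 0, fun g _ => by simp [act_zero]⟩

theorem LTyp.add (h : R.LTyp x v l) (h' : R.LTyp x v l') : R.LTyp x v (l + l') := by
  obtain ⟨m, t, h⟩ := h
  obtain ⟨m', t', h'⟩ := h'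
  refine ⟨m + m', (2 : O) ^ m' • t + (2 : O) ^ m • t', fun g hg => ?_⟩
  rw [act_add, act_smul, act_smul, add_sub_add_comm, ← smul_sub, ← smul_sub, ← h g hg, ← h' g hg,
    Pi.add_apply, smul_add, smul_smul, smul_smul, pow_add, mul_comm ((2 : O) ^ m') ((2 : O) ^ m)]

theorem LTyp.sub (h : R.LTyp x v l) (h' : R.LTyp x v l') : R.LTyp x v (l - l') := by
  obtain ⟨m, t, h⟩ := h
  obtain ⟨m', t', h'⟩ := h'
  refine ⟨m + m', (2 : O) ^ m' • t - (2 : O) ^ m • t', fun g hg => ?_⟩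
  rw [act_sub, act_smul, act_smul, sub_sub_sub_comm, ← smul_sub, ← smul_sub, ← h g hg, ← h' g hg,
    Pi.sub_apply, smul_sub, smul_smul, smul_smul, pow_add, mul_comm ((2 : O) ^ m') ((2 : O) ^ m)]

theorem LTyp.smul (h : R.LTyp x v l) (c : O) : R.LTyp x v (c • l) := by
  obtain ⟨m, t, h⟩ := h
  refine ⟨m, c • t, fun g hg => ?_⟩
  rw [act_smul, ← smul_sub, ← h g hg, Pi.smul_apply, smul_comm]

theorem LTyp.sum {ι : Type*} (s : Finset ι) {f : ι → W → I → O} (h : ∀ i ∈ s, R.LTyp x v (f i)) :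
    R.LTyp x v fun g => ∑ i ∈ s, f i g := by
  induction s using Finset.induction_on with
  | empty => exact LTyp.zero
  | insert i s hi ih =>
    simp only [Finset.sum_insert hi]
    exact (h i (Finset.mem_insert_self _ _)).add
      (ih fun l hl => h l (Finset.mem_insert_of_mem hl))

theorem LTyp.of_pow_smul {i : ℕ} (h : R.LTyp x v l) (h' : ∀ g ∈ T.D v, l g = (2 : O) ^ i • l' g) :
    R.LTyp x v l' := by
  obtain ⟨m, t, h⟩ := h
  refine ⟨m + i, t, fun g hg => ?_⟩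
  rw [← h g hg, h' g hg, smul_smul, pow_add]

theorem LTyp.twist {y : W → F2} (h : R.LTyp x v l) (hy : ∀ g ∈ T.D v, x g = y g) :
    R.LTyp y v l := by
  obtain ⟨m, t, h⟩ := h
  exact ⟨m, t, fun g hg => by rw [h g hg, act_congr (hy g hg)]⟩

theorem LTyp.coc (hx : T.IsHom x) (h : R.LTyp x v l) :
    ∀ g ∈ T.D v, ∀ g' ∈ T.D v, l (g * g') = l g + R.act x g (l g') := by
  obtain ⟨m, t, h⟩ := h
  intro g hg g' hg'
  refine Act_cancel (m := m) ?_
  rw [h _ ((T.D v).mul_mem hg hg'), smul_add, ← act_smul, h g hg, h g' hg', act_sub, act_mul hx]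
  abel

theorem LTyp.rel (hx : T.IsHom x) (h : R.LTyp x v l) :
    l (T.σ v * T.τ v) = l (T.τ v ^ T.Q v * T.σ v) := by
  obtain ⟨m, t, h⟩ := h
  refine Act_cancel (m := m) ?_
  rw [h _ ((T.D v).mul_mem (Tame.σ_mem v) (Tame.τ_mem v)),
    h _ ((T.D v).mul_mem ((T.D v).pow_mem (Tame.τ_mem v) _) (Tame.σ_mem v)), act_rel hx]

theorem LTyp.unr (h : R.LTyp x v l) (hv : v ∉ R.S) (h0 : x (T.τ v) = 0) : l (T.τ v) = 0 := by
  obtain ⟨m, t, h⟩ := h
  refine Act_cancel (m := m) ?_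
  rw [h _ (Tame.τ_mem v), act_unr hv h0, sub_self, smul_zero]

theorem LTyp.neg (h : R.LTyp x v l) : R.LTyp x v (-l) := by
  simpa using h.smul (-1)

theorem LTyp.congr (h : R.LTyp x v l) (h' : ∀ g ∈ T.D v, l g = l' g) : R.LTyp x v l' :=
  h.of_pow_smul (i := 0) fun g hg => by rw [h' g hg, pow_zero, one_smul]

theorem ltyp_cob (t : I → O) : R.LTyp x v fun g => R.act x g t - t :=
  ⟨0, t, fun g _ => by simp⟩

/-- structure at a prime where the twist is ramified -/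
theorem LTyp.ram (h : R.LTyp x v l) (hv : v ∉ R.S) (h1 : x (T.τ v) = 1) :
    ∀ g ∈ T.D v, (2 : O) • l g = l (T.τ v) - R.act x g (l (T.τ v)) := by
  obtain ⟨m, t, h⟩ := h
  intro g hg
  refine Act_cancel (m := m) ?_
  rw [smul_comm, h g hg, smul_sub ((2 : O) ^ m), ← act_smul, h _ (Tame.τ_mem v), act_ram hv h1,
    act_sub, act_neg, two_smul]
  abel

theorem LTyp.lz (hx : T.IsHom x) (h : R.LTyp x v l) : R.LZ v fun g => digV 0 (l g) :=
  ⟨fun g hg k hk => by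
    beta_reduce
    rw [h.coc hx g hg k hk, digV_add (VD.triv _) (VD.triv _), digV_act (VD.triv _)],
    by beta_reduce; rw [h.rel hx]⟩

theorem LL.lz (hx : T.IsHom x) {w : W → I → F2} (h : R.LL x v w) : R.LZ v w := by
  obtain ⟨l, h1, h2⟩ := h
  exact (h1.lz hx).congr h2

theorem LL.add {w w' : W → I → F2} (h : R.LL x v w) (h' : R.LL x v w') : R.LL x v (w + w') := by
  obtain ⟨l, h1, h2⟩ := h
  obtain ⟨l', k1, k2⟩ := h'
  exact ⟨l + l', h1.add k1, fun g hg => by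
    rw [Pi.add_apply, digV_add (VD.triv _) (VD.triv _), h2 g hg, k2 g hg, Pi.add_apply]⟩

theorem LL.congr {w w' : W → I → F2} (h : R.LL x v w) (h' : ∀ g ∈ T.D v, w g = w' g) :
    R.LL x v w' := by
  obtain ⟨l, h1, h2⟩ := h
  exact ⟨l, h1, fun g hg => (h2 g hg).trans (h' g hg)⟩

theorem LL.twist {y : W → F2} {w : W → I → F2} (h : R.LL x v w) (hy : ∀ g ∈ T.D v, x g = y g) :
    R.LL y v w := by
  obtain ⟨l, h1, h2⟩ := h
  exact ⟨l, h1.twist hy, h2⟩

theorem LocCob.ll {w : W → I → F2} (h : R.LocCob v w) : R.LL x v w := by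
  obtain ⟨t, ht⟩ := h
  exact ⟨_, ltyp_cob (lftV t), fun g hg => by rw [digV_act_sub (VD.triv _), digV_lftV, ht g hg]⟩

end ltyp

section locok

variable {v : P} {j : ℕ} {ψ ψ' : W → I → O}

theorem LocOK.mono (h : R.LocOK x j ψ v) {i : ℕ} (hi : i ≤ j) : R.LocOK x i ψ v := by
  obtain ⟨l, h1, h2⟩ := h
  exact ⟨l, h1, fun g hg => (h2 g hg).mono hi⟩

theorem LocOK.congr (h : R.LocOK x j ψ v) (h' : ∀ g ∈ T.D v, VD j (ψ g - ψ' g)) :
    R.LocOK x j ψ' v := by
  obtain ⟨l, h1, h2⟩ := h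
  refine ⟨l, h1, fun g hg => ?_⟩
  have := (h2 g hg).sub (h' g hg)
  rwa [sub_sub_sub_cancel_left] at this

theorem LocOK.twist {y : W → F2} (h : R.LocOK x j ψ v) (hy : ∀ g ∈ T.D v, x g = y g) :
    R.LocOK y j ψ v := by
  obtain ⟨l, h1, h2⟩ := h
  exact ⟨l, h1.twist hy, h2⟩

theorem LocOK.sum {ι : Type*} (s : Finset ι) (c : ι → O) {f : ι → W → I → O}
    (h : ∀ i ∈ s, R.LocOK x j (f i) v) : R.LocOK x j (fun g => ∑ i ∈ s, c i • f i g) v := by
  choose! l h1 h2 using h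
  refine ⟨fun g => ∑ i ∈ s, (c i • l i) g, LTyp.sum s fun i hi => (h1 i hi).smul _, fun g hg => ?_⟩
  simp only [Pi.smul_apply, ← Finset.sum_sub_distrib, ← smul_sub]
  exact VD.sum s fun i hi => (h2 i hi g hg).smul _

theorem LocOK.add (h : R.LocOK x j ψ v) (h' : R.LocOK x j ψ' v) : R.LocOK x j (ψ + ψ') v := by
  obtain ⟨l, h1, h2⟩ := h
  obtain ⟨l', k1, k2⟩ := h'
  refine ⟨l + l', h1.add k1, fun g hg => ?_⟩
  rw [Pi.add_apply, Pi.add_apply, add_sub_add_comm]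
  exact (h2 g hg).add (k2 g hg)

theorem LocOK.smul (h : R.LocOK x j ψ v) (c : O) : R.LocOK x j (c • ψ) v := by
  obtain ⟨l, h1, h2⟩ := h
  refine ⟨c • l, h1.smul c, fun g hg => ?_⟩
  rw [Pi.smul_apply, Pi.smul_apply, ← smul_sub]
  exact (h2 g hg).smul c

theorem LocOK.sub (h : R.LocOK x j ψ v) (h' : R.LocOK x j ψ' v) : R.LocOK x j (ψ - ψ') v := by
  simpa [sub_eq_add_neg] using h.add (h'.smul (-1))

theorem LTyp.locOK {l : W → I → O} (h : R.LTyp x v l) : R.LocOK x j l v :=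
  ⟨l, h, fun g _ => by simpa using VD.zero j⟩

theorem locOK_div {i : ℕ} (h : R.LocOK x (i + j) ((2 : O) ^ i • ψ) v) : R.LocOK x j ψ v := by
  obtain ⟨l, h1, h2⟩ := h
  have k3 : ∀ g ∈ T.D v, ∃ b : I → O, l g = (2 : O) ^ i • b := fun g hg => by
    have := (VD_pow_smul i (ψ g)).sub ((h2 g hg).mono (Nat.le_add_right i j))
    rw [Pi.smul_apply, sub_sub_cancel] at this
    exact this.exists
  choose! l' k4 using k3
  refine ⟨l', h1.of_pow_smul k4, fun g hg => ?_⟩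
  have := h2 g hg
  rwa [Pi.smul_apply, k4 g hg, ← smul_sub, VD_pow_smul_iff] at this

theorem LocOK.pow_smul (i : ℕ) (h : R.LocOK x j ψ v) : R.LocOK x (i + j) ((2 : O) ^ i • ψ) v := by
  obtain ⟨l, h1, h2⟩ := h
  refine ⟨(2 : O) ^ i • l, h1.smul _, fun g hg => ?_⟩
  rw [Pi.smul_apply, Pi.smul_apply, ← smul_sub, VD_pow_smul_iff]
  exact h2 g hg

/-- leading digit of a function satisfying the local condition -/
theorem LocOK.ll {i : ℕ} (h : R.LocOK x j ψ v) (hi : i < j) (h0 : ∀ g ∈ T.D v, VD i (ψ g)) :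
    R.LL x v fun g => digV i (ψ g) := by
  obtain ⟨l, k1, k2⟩ := h
  have k3 : ∀ g ∈ T.D v, ∃ b : I → O, l g = (2 : O) ^ i • b := fun g hg => by
    have := (h0 g hg).sub ((k2 g hg).mono hi.le)
    rw [sub_sub_cancel] at this
    exact this.exists
  choose! l' k4 using k3
  exact ⟨l', k1.of_pow_smul k4, fun g hg => by
    beta_reduce
    rw [digV_congr ((k2 g hg).mono hi), k4 g hg, digV_pow_smul]⟩

theorem LL.locOK {w : W → I → F2} (h : R.LL x v w) :
    R.LocOK x (j + 1) (fun g => (2 : O) ^ j • lftV (w g)) v := by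
  obtain ⟨l, h1, h2⟩ := h
  refine ⟨(2 : O) ^ j • l, h1.smul _, fun g hg => ?_⟩
  rw [Pi.smul_apply, ← smul_sub, VD_pow_smul_iff, ← digV_eq_zero_iff (j := 0) (VD.triv _),
    digV_sub (VD.triv _) (VD.triv _), digV_lftV, h2 g hg, sub_self]

end locok

theorem Sel.mono {A : Finset P} {i j : ℕ} {ψ : W → I → O} (h : R.Sel A x j ψ) (hi : i ≤ j) :
    R.Sel A x i ψ := by
  exact ⟨h.1.mono hi, fun v hv => (h.2.1 v hv).mono hi, fun v hv => (h.2.2 v hv).mono hi⟩

theorem Lifts.mono {A : Finset P} {i j : ℕ} {w : W → I → F2} (h : R.Lifts A x j w) (hi : i ≤ j) :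
    R.Lifts A x i w := by
  obtain ⟨ψ, h1, h2⟩ := h
  exact ⟨ψ, h1.mono hi, h2⟩

section sel

variable {A : Finset P} {i j : ℕ} {ψ ψ' : W → I → O}

theorem Sel.add (h : R.Sel A x j ψ) (h' : R.Sel A x j ψ') : R.Sel A x j (ψ + ψ') :=
  ⟨h.1.add h'.1, fun v hv => (h.2.1 v hv).add (h'.2.1 v hv),
    fun v hv => (h.2.2 v hv).add (h'.2.2 v hv)⟩

theorem Sel.sub (h : R.Sel A x j ψ) (h' : R.Sel A x j ψ') : R.Sel A x j (ψ - ψ') :=
  ⟨h.1.sub h'.1, fun v hv => (h.2.1 v hv).sub (h'.2.1 v hv),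
    fun v hv => (h.2.2 v hv).sub (h'.2.2 v hv)⟩

theorem Sel.smul (h : R.Sel A x j ψ) (c : O) : R.Sel A x j (c • ψ) :=
  ⟨h.1.smul c, fun v hv => (h.2.1 v hv).smul c, fun v hv => (h.2.2 v hv).smul c⟩

theorem Sel.congr (h : R.Sel A x j ψ) (h' : ∀ g, VD j (ψ g - ψ' g)) : R.Sel A x j ψ' :=
  ⟨h.1.congr h', fun v hv => (h.2.1 v hv).congr fun g _ => h' g, fun v hv => by
    have := (h.2.2 v hv).sub (h' (T.τ v))
    rwa [sub_sub_cancel] at this⟩

theorem sel_pow_smul_iff : R.Sel A x (i + j) ((2 : O) ^ i • ψ) ↔ R.Sel A x j ψ :=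
  ⟨fun h => ⟨(coc_pow_smul_iff i).1 h.1, fun v hv => locOK_div (h.2.1 v hv),
    fun v hv => (VD_pow_smul_iff i j _).1 (h.2.2 v hv)⟩,
  fun h => ⟨(coc_pow_smul_iff i).2 h.1, fun v hv => (h.2.1 v hv).pow_smul i,
    fun v hv => (VD_pow_smul_iff i j _).2 (h.2.2 v hv)⟩⟩

/-- coboundaries divided by powers of two are Selmer cocycles -/
theorem sel_of_cob (hx : T.IsHom x) (hA : R.Ram x A) {m : ℕ} {t : I → O}
    (h : ∀ g, (2 : O) ^ m • ψ g = R.act x g t - t) : R.Sel A x j ψ := by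
  have k : ∀ v, R.LTyp x v ψ := fun v => ⟨m, t, fun g _ => h g⟩
  refine ⟨coc_of_cob hx h, fun v _ => (k v).locOK, fun v hv => ?_⟩
  rw [(k v).unr (fun hs => hv (hA.1 hs)) (hA.2.2 v hv)]
  exact VD.zero j

theorem Sel.dig_mem (h : R.Sel A x j ψ) (hi : i < j) (h0 : ∀ g, VD i (ψ g)) :
    (fun g => digV i (ψ g)) ∈ R.Z1U A :=
  ⟨(h.1.mono hi).z1_dig h0, fun v hv => digV_of_VD ((h.2.2 v hv).mono hi)⟩

theorem Lifts.add {w w' : W → I → F2} (h : R.Lifts A x j w) (h' : R.Lifts A x j w') :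
    R.Lifts A x j (w + w') := by
  obtain ⟨ψ, h1, h2⟩ := h
  obtain ⟨ψ', k1, k2⟩ := h'
  exact ⟨ψ + ψ', h1.add k1, fun g => by
    rw [Pi.add_apply, digV_add (VD.triv _) (VD.triv _), h2, k2, Pi.add_apply]⟩

theorem lifts_db (hx : T.IsHom x) (hA : R.Ram x A) (t : I → F2) : R.Lifts A x j (R.db t) :=
  ⟨fun g => R.act x g (lftV t) - lftV t, sel_of_cob (m := 0) (t := lftV t) hx hA fun g => by simp,
    fun g => by rw [digV_act_sub (VD.triv _), digV_lftV]⟩

theorem Lifts.mem {w : W → I → F2} (h : R.Lifts A x j w) (hj : 0 < j) :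
    w ∈ R.Z1U A ∧ ∀ v ∈ A, R.LL x v w := by
  obtain ⟨ψ, h1, h2⟩ := h
  obtain rfl : w = fun g => digV 0 (ψ g) := funext fun g => (h2 g).symm
  exact ⟨h1.dig_mem hj fun g => VD.triv _, fun v hv => (h1.2.1 v hv).ll hj fun g _ => VD.triv _⟩

end sel

end Lat

namespace Rep

variable {R : Rep T} {x : W → F2} {lam : O}

theorem det_rb (g : W) : (R.rb g).det = 1 := by
  rw [Lat.rb, ← RingHom.mapMatrix_apply, ← RingHom.map_det, R.det, Tame.res_cq]

theorem ee_act (g : W) (s t : V) : ee (R.act x g s) (R.act x g t) = T.cq g * ee s t := by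
  rw [Lat.act, Lat.act, ee_smul_left, ee_smul_right, ← mul_assoc, sg_mul_self, one_mul, ee_mulVec,
    R.det]

theorem ee_rb (g : W) (s t : Vb) : ee ((R.rb g).mulVec s) ((R.rb g).mulVec t) = ee s t := by
  rw [ee_mulVec, det_rb, one_mul]

theorem hat_S : (R.hat lam).S = R.S := rfl

theorem p0_act (g : W) (t : H → O) : p0 ((R.hat lam).act x g t) = R.act x g (p0 t) := by
  funext i
  fin_cases i <;> simp [p0, Lat.act, hat, Matrix.mulVec, dotProduct]

theorem p1_act (g : W) (t : H → O) : p1 ((R.hat lam).act x g t) =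
    R.act x g (p1 t) + (2 * lam * (T.deg g : O)) • R.act x g (p0 t) := by
  funext i
  fin_cases i <;> simp [p0, p1, Lat.act, hat, Matrix.mulVec, dotProduct] <;> ring

theorem hat_rb (g : W) : (R.hat lam).rb g = Matrix.fromBlocks (R.rb g) 0 0 (R.rb g) := by
  ext (a | a) (b | b) <;> simp [Lat.rb, hat]

theorem hat_rb_eq (lam' : O) : (R.hat lam).rb = (R.hat lam').rb :=
  funext fun g => by rw [hat_rb, hat_rb]

theorem p0_rb (g : W) (t : H → F2) : p0 (((R.hat lam).rb g).mulVec t) = (R.rb g).mulVec (p0 t) := by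
  funext i
  simp [p0, hat_rb, Matrix.mulVec, dotProduct]

theorem p1_rb (g : W) (t : H → F2) : p1 (((R.hat lam).rb g).mulVec t) = (R.rb g).mulVec (p1 t) := by
  funext i
  simp [p1, hat_rb, Matrix.mulVec, dotProduct]

theorem p_ext {A : Type} {a b : H → A} (h0 : p0 a = p0 b) (h1 : p1 a = p1 b) : a = b := by
  funext i
  rcases i with i | i
  · exact congrFun h0 i
  · exact congrFun h1 i

theorem hat_z1_iff {w : W → H → F2} : (R.hat lam).Z1 w ↔
    (R.Z1 fun g => p0 (w g)) ∧ R.Z1 fun g => p1 (w g) := by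
  constructor
  · rintro ⟨h1, h2⟩
    exact ⟨⟨Tame.sm_comp h1 p0, fun g h => by beta_reduce; rw [h2, ← p0_rb (lam := lam)]; rfl⟩,
      ⟨Tame.sm_comp h1 p1, fun g h => by beta_reduce; rw [h2, ← p1_rb (lam := lam)]; rfl⟩⟩
  · rintro ⟨⟨h1, h2⟩, k1, k2⟩
    refine ⟨?_, fun g h => p_ext ?_ ?_⟩
    · have := Tame.sm_comp₂ h1 k1 (fun a b => (Sum.elim a b : H → F2))
      have e : (fun g => Sum.elim (p0 (w g)) (p1 (w g))) = w := funext fun g => p_ext rfl rfl
      exact e ▸ this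
    · exact (h2 g h).trans (by rw [← p0_rb (lam := lam)]; rfl)
    · exact (k2 g h).trans (by rw [← p1_rb (lam := lam)]; rfl)

theorem hat_z1U_iff {A : Finset P} {w : W → H → F2} : w ∈ (R.hat lam).Z1U A ↔
    (fun g => p0 (w g)) ∈ R.Z1U A ∧ (fun g => p1 (w g)) ∈ R.Z1U A := by
  constructor
  · rintro ⟨h1, h2⟩
    exact ⟨⟨(hat_z1_iff.1 h1).1, fun v hv => by simp only [h2 v hv]; rfl⟩,
      ⟨(hat_z1_iff.1 h1).2, fun v hv => by simp only [h2 v hv]; rfl⟩⟩
  · rintro ⟨⟨h1, h2⟩, k1, k2⟩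
    exact ⟨hat_z1_iff.2 ⟨h1, k1⟩, fun v hv => p_ext (h2 v hv) (k2 v hv)⟩

theorem hat_lz_iff {v : P} {w : W → H → F2} : (R.hat lam).LZ v w ↔
    (R.LZ v fun g => p0 (w g)) ∧ R.LZ v fun g => p1 (w g) := by
  constructor
  · rintro ⟨h1, h2⟩
    exact ⟨⟨fun g hg h hh => by beta_reduce; rw [h1 g hg h hh, ← p0_rb (lam := lam)]; rfl, congrArg p0 h2⟩,
      ⟨fun g hg h hh => by beta_reduce; rw [h1 g hg h hh, ← p1_rb (lam := lam)]; rfl, congrArg p1 h2⟩⟩
  · rintro ⟨⟨h1, h2⟩, k1, k2⟩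
    refine ⟨fun g hg h hh => p_ext ?_ ?_, p_ext h2 k2⟩
    · exact (h1 g hg h hh).trans (by rw [← p0_rb (lam := lam)]; rfl)
    · exact (k1 g hg h hh).trans (by rw [← p1_rb (lam := lam)]; rfl)

theorem hat_fx_iff {g : W} {n : H → F2} :
    (R.hat lam).Fx g n ↔ R.Fx g (p0 n) ∧ R.Fx g (p1 n) := by
  simp only [Lat.Fx, ← p0_rb (lam := lam), ← p1_rb (lam := lam)]
  exact ⟨fun h => ⟨congrArg p0 h, congrArg p1 h⟩, fun h => p_ext h.1 h.2⟩

theorem hat_free {g : W} (h : R.Free g) : (R.hat lam).Free g := fun n hn =>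
  p_ext (h _ (hat_fx_iff.1 hn).1) (h _ (hat_fx_iff.1 hn).2)

theorem hat_ram {A : Finset P} : (R.hat lam).Ram x A ↔ R.Ram x A := Iff.rfl

theorem ch_zero (v : P) : R.ch v 0 = 0 := by
  rw [ch, dif_neg fun h => h.2.2 rfl]

theorem ch_spec {v : P} (hv : v ∉ R.S) {n : Vb} (hn : R.Fx (T.σ v) n) :
    R.ch v n ∈ R.Z1U (insert v R.S) ∧ R.ch v n (T.τ v) = n := by
  by_cases h0 : n = 0
  · rw [h0, ch_zero]
    exact ⟨⟨Lat.z1_zero, fun _ _ => rfl⟩, rfl⟩
  · rw [ch, dif_pos ⟨hv, hn, h0⟩]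
    exact (R.chi v hv n hn).choose_spec

theorem ch_mem (v : P) (n : Vb) : R.ch v n ∈ R.Z1U (insert v R.S) := by
  by_cases h : v ∉ R.S ∧ R.Fx (T.σ v) n ∧ n ≠ 0
  · exact (ch_spec h.1 h.2.1).1
  · rw [ch, dif_neg h]
    exact ⟨Lat.z1_zero, fun _ _ => rfl⟩

theorem ch_eq_zero {v : P} {n : Vb} (h : ¬ (v ∉ R.S ∧ R.Fx (T.σ v) n)) : R.ch v n = 0 := by
  rw [ch, dif_neg fun h' => h ⟨h'.1, h'.2.1⟩]

theorem p0_chH (v : P) (n : H → F2) (g : W) : p0 (R.chH v n g) = R.ch v (p0 n) g := rfl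

theorem p1_chH (v : P) (n : H → F2) (g : W) : p1 (R.chH v n g) = R.ch v (p1 n) g := rfl

theorem chH_mem (v : P) (n : H → F2) : R.chH v n ∈ (R.hat lam).Z1U (insert v R.S) :=
  hat_z1U_iff.2 ⟨ch_mem v _, ch_mem v _⟩

theorem chH_tau {v : P} (hv : v ∉ R.S) {n : H → F2} (hn : (R.hat lam).Fx (T.σ v) n) :
    R.chH v n (T.τ v) = n :=
  p_ext (ch_spec hv (hat_fx_iff.1 hn).1).2 (ch_spec hv (hat_fx_iff.1 hn).2).2

/-- the geometric group fixes no nonzero vector -/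
theorem eq_zero_of_fx {n : Vb} (h : ∀ g, T.deg g = 0 → R.Fx g n) : n = 0 := by
  obtain ⟨z, hz, e⟩ := R.surj !![0, 1; 1, 1] (by decide)
  have := h z hz
  rw [Lat.Fx, e] at this
  clear h e
  revert n
  decide

end Rep

end

end Pool.Agent.Quad
end

-- merged part: Pool.Agent.Work.MP_60d5ce_nt.Qt.Geo
section
/-!
# From cocycles on the geometric group to Selmer cocycles on the Weil group

Hints.
* `extend`: every `g` is `(g * φ ^ (-deg g)) * φ ^ deg g`.  Work with affine bijections of the quotient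
  of `I → O` by the vectors divisible by `2 ^ n`: `α g t = act g t + ψ0 g` for `deg g = 0`,
  `β t = act φ t + y`; the hypothesis says `β * α (φ⁻¹ * g * φ) = α g * β`.  Then
  `g ↦ α (g * φ ^ (-deg g)) * β ^ deg g` is a homomorphism; `ψ g` is a lift of its value at `0`.
  Smoothness: intersect the given `U` with the one of `act_sm`; it is normal (`adm_normal`).
* `locOK_of_tau`: put `N = m + n`, `X` the finite quotient modulo `2 ^ N`, `c g = 2 ^ m ψ g - (act g t - t)`,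
  a cocycle with `c τ = 0`.  `Coc.rel` gives `z = c σ` fixed by `τ ^ Q`.  By `act_rel`,
  `Fix (τ ^ Q) = σ Fix τ`, it contains `Fix τ` and has the same cardinality, so both are equal to a
  group `F` stable under `σ`.  On `F` the kernel of `σ - 1` has at most `2 ^ (card I * c)` elements, the
  cokernel has the same cardinality, a power of two; so `2 ^ e z = (σ - 1) a`, `a ∈ F`, `e = card I * c`.
  Hence `2 ^ (e + m) ψ g = act g t' - t'` modulo `2 ^ N` for `g = σ, τ`, thus on `D v`; divide.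
* `hat_fin`: first component, then second component (`p0_act`, `p1_act`); for `v ∉ S` use `act_ram`.
-/

namespace Pool.Agent.Quad

open scoped Classical

noncomputable section

variable {W P : Type} [Group W] {T : Tame W P}

namespace Lat

variable {I : Type} [Fintype I] [DecidableEq I] {L : Lat T I} {x : W → F2}

section abs

variable {X : Type} [AddCommGroup X] [DistribMulAction W X]

/-- an affine bijection -/
def Geo_aff (g : W) (c : X) : Equiv.Perm X := (MulAction.toPerm g).trans (Equiv.addRight c)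

theorem Geo_aff_apply (g : W) (c t : X) : Geo_aff g c t = g • t + c := rfl

/-- pairs of a group element and an affine bijection with that linear part -/
def Geo_K (W X : Type) [Group W] [AddCommGroup X] [DistribMulAction W X] :
    Subgroup (W × Equiv.Perm X) where
  carrier := {p | ∀ t, p.2 t = p.1 • t + p.2 0}
  one_mem' t := by simp
  mul_mem' {a b} ha hb t := by
    rw [Prod.snd_mul, Equiv.Perm.mul_apply, Equiv.Perm.mul_apply, ha, hb, ha (b.2 0), smul_add,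
      Prod.fst_mul, mul_smul, add_assoc]
  inv_mem' {a} ha t := by
    refine a.2.injective ?_
    rw [Prod.snd_inv, Prod.fst_inv, ha (_ + _), smul_add, smul_inv_smul, add_assoc, ← ha]
    simp

theorem Geo_ext {φ : W} (hφ : T.deg φ = 1) (c0 : W → X) (y : X)
    (hc : ∀ g h, T.deg g = 0 → T.deg h = 0 → c0 (g * h) = c0 g + g • c0 h)
    (hy : ∀ g, T.deg g = 0 → φ • c0 (φ⁻¹ * g * φ) - c0 g = g • y - y) :
    ∃ c : W → X, (∀ g h, c (g * h) = c g + g • c h) ∧ ∀ g, T.deg g = 0 → c g = c0 g := by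
  let d : W →* Multiplicative ℤ := MonoidHom.mk' (fun g => Multiplicative.ofAdd (T.deg g))
    fun g h => congrArg _ (T.deg_mul g h)
  have hd : ∀ k : ℤ, T.deg (φ ^ k) = k := fun k => by
    have := congrArg Multiplicative.toAdd (map_zpow d φ k)
    simpa [d, hφ] using this
  have hj : ∀ w g, T.deg g = 0 → T.deg (w * g * w⁻¹) = 0 := fun w g hg => by
    rw [T.deg_mul, T.deg_mul, T.deg_inv, hg]; ring
  have h0 : ∀ g, T.deg (g * φ ^ (-T.deg g)) = 0 := fun g => by rw [T.deg_mul, hd, add_neg_cancel]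
  let α : W → Equiv.Perm X := fun g => Geo_aff g (c0 g)
  let β : Equiv.Perm X := Geo_aff φ y
  have hα : ∀ g h, T.deg g = 0 → T.deg h = 0 → α (g * h) = α g * α h := fun g h hg hh =>
    Equiv.ext fun t => by
      simp only [α, Equiv.Perm.mul_apply, Geo_aff_apply, hc g h hg hh, smul_add, mul_smul]
      abel
  let K : Subgroup (W × Equiv.Perm X) :=
    { carrier := {p | ∀ g, T.deg g = 0 → α (p.1 * g * p.1⁻¹) = p.2 * α g * p.2⁻¹}
      one_mem' := fun g _ => by simp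
      mul_mem' := fun {a b} ha hb g hg => by
        have := ha _ (hj b.1 g hg)
        rw [hb g hg] at this
        simpa only [Prod.fst_mul, Prod.snd_mul, mul_inv_rev, mul_assoc] using this
      inv_mem' := fun {a} ha g hg => by
        have := ha _ (hj a.1⁻¹ g hg)
        simp only [Prod.fst_inv, Prod.snd_inv, inv_inv, mul_assoc, mul_inv_cancel_left,
          mul_inv_cancel, mul_one] at this ⊢
        rw [this]
        group }
  have hK : ∀ (k : ℤ) g, T.deg g = 0 → α (φ ^ k * g * (φ ^ k)⁻¹) = β ^ k * α g * (β ^ k)⁻¹ :=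
    fun k => K.zpow_mem (x := (φ, β)) (K.inv_mem_iff.1 fun g hg => by
      simp only [Prod.fst_inv, Prod.snd_inv, inv_inv]
      rw [mul_assoc β⁻¹, eq_inv_mul_iff_mul_eq]
      refine Equiv.ext fun t => ?_
      simp only [α, β, Equiv.Perm.mul_apply, Geo_aff_apply, smul_add, mul_smul, smul_inv_smul,
        eq_add_of_sub_eq (hy g hg)]
      abel) k
  let s : W → Equiv.Perm X := fun g => α (g * φ ^ (-T.deg g)) * β ^ T.deg g
  have h1 : ∀ g, (g, s g) ∈ Geo_K W X := fun g => by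
    have := (Geo_K W X).mul_mem (x := (g * φ ^ (-T.deg g), α (g * φ ^ (-T.deg g))))
      (fun t => by simp [α, Geo_aff_apply]) ((Geo_K W X).zpow_mem (x := (φ, β))
        (fun t => by simp [β, Geo_aff_apply]) (T.deg g))
    simpa [s] using this
  have h2 : ∀ g h, s (g * h) = s g * s h := fun g h => by
    have e : g * h * φ ^ (-T.deg (g * h)) = g * φ ^ (-T.deg g) *
        (φ ^ T.deg g * (h * φ ^ (-T.deg h)) * (φ ^ T.deg g)⁻¹) := by
      rw [T.deg_mul]; group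
    simp only [s]
    rw [e, hα _ _ (h0 g) (hj _ _ (h0 h)), hK _ _ (h0 h), T.deg_mul]
    group
  refine ⟨fun g => s g 0, fun g h => ?_, fun g hg => by simp [s, α, hg, Geo_aff_apply]⟩
  beta_reduce
  rw [h2, Equiv.Perm.mul_apply, h1 g, add_comm]

theorem Geo_loc [Finite X] {σ τ : W} {Q e M : ℕ} (hrel : ∀ t : X, (σ * τ) • t = (τ ^ Q * σ) • t)
    {z : X} (hz : τ ^ Q • z = z) (hX : Nat.card X = 2 ^ M)
    (hk : {t : X | σ • t = t ∧ τ • t = t}.ncard ≤ 2 ^ e) :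
    ∃ a, τ • a = a ∧ σ • a - a = 2 ^ e • z := by
  let F : W → AddSubgroup X := fun g => (DistribSMul.toAddMonoidHom X g).eqLocus (AddMonoidHom.id X)
  have hF : ∀ g t, t ∈ F g ↔ g • t = t := fun _ _ => Iff.rfl
  have h1 : ∀ t, σ • t ∈ F (τ ^ Q) ↔ t ∈ F τ := fun t => by
    rw [hF, hF, ← mul_smul, ← hrel, mul_smul, smul_left_cancel_iff]
  have h2 : F τ = F (τ ^ Q) := AddSubgroup.eq_of_le_of_card_ge
    (fun t ht => (hF _ t).2 (zpow_natCast τ Q ▸ MulAction.fixedBy_subset_fixedBy_zpow X τ Q ht))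
    (Nat.card_congr ((MulAction.toPerm σ).subtypeEquiv fun t => (h1 t).symm)).ge
  let f : F τ →+ F τ := AddMonoidHom.mk' (fun a => ⟨σ • a.1, h2.ge ((h1 a).2 a.2)⟩ - a) fun a b =>
    Subtype.ext (by simp only [AddSubgroup.coe_add, AddSubgroup.coe_sub, smul_add]; abel)
  have h3 : f.range.index ≤ 2 ^ e := by
    rw [AddSubgroup.index_range]
    refine le_trans (Nat.card_le_card_of_injective (fun a => (⟨a.1.1, sub_eq_zero.1
      (congrArg Subtype.val a.2), a.1.2⟩ : {t : X | σ • t = t ∧ τ • t = t}))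
      fun a b h => Subtype.ext (Subtype.ext (Subtype.mk.inj h))) hk
  obtain ⟨j, -, h4⟩ := (Nat.dvd_prime_pow Nat.prime_two).1
    (hX ▸ f.range.index_dvd_card.trans (F τ).card_addSubgroup_dvd_card)
  obtain ⟨k, h5⟩ : f.range.index ∣ 2 ^ e :=
    h4 ▸ pow_dvd_pow 2 ((Nat.pow_le_pow_iff_right one_lt_two).1 (h4 ▸ h3))
  obtain ⟨a, ha⟩ := f.range.nsmul_mem (f.range.nsmul_index_mem ⟨z, h2.ge hz⟩) k
  exact ⟨a, a.2, (congrArg Subtype.val ha).trans (by rw [h5, mul_nsmul]; rfl)⟩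

end abs

/-- reduction of vectors -/
def Geo_red (n : ℕ) : (I → O) →+ I → ZMod (2 ^ n) :=
  (PadicInt.toZModPow n : O →+* ZMod (2 ^ n)).toAddMonoidHom.compLeft I

omit [Fintype I] [DecidableEq I] in
theorem Geo_red_eq {n : ℕ} {a b : I → O} : Geo_red n a = Geo_red n b ↔ VD n (a - b) := by
  rw [← sub_eq_zero, ← map_sub, funext_iff]
  refine forall_congr' fun i => ?_
  change PadicInt.toZModPow n _ = 0 ↔ _
  rw [← RingHom.mem_ker, PadicInt.ker_toZModPow, Ideal.mem_span_singleton]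
  rfl

omit [Fintype I] [DecidableEq I] in
theorem Geo_red_surj (n : ℕ) : Function.Surjective (Geo_red (I := I) n) := fun a => by
  choose b hb using fun i => ZMod.ringHom_surjective (PadicInt.toZModPow (p := 2) n) (a i)
  exact ⟨b, funext hb⟩

theorem Geo_act (L : Lat T I) (hx : T.IsHom x) (n : ℕ) :
    ∃ _ : DistribMulAction W (I → ZMod (2 ^ n)),
      ∀ (g : W) t, g • Geo_red n t = Geo_red n (L.act x g t) := by
  choose l hl using Geo_red_surj (I := I) n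
  have h : ∀ g t, Geo_red n (L.act x g (l (Geo_red n t))) = Geo_red n (L.act x g t) := fun g t =>
    Geo_red_eq.2 (act_sub (R := L) g _ _ ▸ act_VD (Geo_red_eq.1 (hl _)) g)
  refine ⟨{ smul := fun g t => Geo_red n (L.act x g (l t))
            one_smul := fun t => (congrArg _ (act_one hx _)).trans (hl t)
            mul_smul := fun g k t => (congrArg _ (act_mul hx g k _)).trans (h g _).symm
            smul_zero := fun g => ?_
            smul_add := fun g s t => ?_ }, h⟩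
  · have := h g 0
    rwa [act_zero, map_zero] at this
  · have := h g (l s + l t)
    rwa [act_add, map_add, map_add, hl, hl] at this

omit [DecidableEq I] in
theorem Geo_card {N c : ℕ} {s : Set (I → ZMod (2 ^ N))}
    (h : ∀ t, Geo_red N t ∈ s → VD (N - c) t) : s.ncard ≤ 2 ^ (Fintype.card I * c) := by
  refine le_trans (Set.ncard_le_ncard (t := Set.range fun (r : I → ZMod (2 ^ c)) =>
    Geo_red N ((2 : O) ^ (N - c) • (Geo_red_surj c r).choose)) (fun a ha => ?_) (Set.toFinite _)) ?_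
  · obtain ⟨t, rfl⟩ := Geo_red_surj N a
    obtain ⟨b, rfl⟩ := (h t ha).exists
    refine ⟨Geo_red c b, Geo_red_eq.2 ?_⟩
    rw [← smul_sub]
    exact ((VD_pow_smul_iff (N - c) c _).2
      (Geo_red_eq.1 (Geo_red_surj c _).choose_spec)).mono (by omega)
  · rw [← Set.image_univ]
    refine (Set.ncard_image_le Set.finite_univ).trans_eq ?_
    rw [Set.ncard_univ, Nat.card_fun, Nat.card_zmod, Nat.card_eq_fintype_card, ← pow_mul, mul_comm]

theorem extend (hx : T.IsHom x) {φ : W} (hφ : T.deg φ = 1) {n : ℕ} {ψ0 : W → I → O} {y : I → O}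
    (hs : ∃ U, T.Adm U ∧ ∀ g, T.deg g = 0 → ∀ u ∈ U, VD n (ψ0 (g * u) - ψ0 g))
    (hc : ∀ g h, T.deg g = 0 → T.deg h = 0 → VD n (ψ0 g + L.act x g (ψ0 h) - ψ0 (g * h)))
    (hy : ∀ g, T.deg g = 0 →
      VD n (L.act x φ (ψ0 (φ⁻¹ * g * φ)) - ψ0 g - (L.act x g y - y))) :
    ∃ ψ, L.Coc x n ψ ∧ ∀ g, T.deg g = 0 → VD n (ψ g - ψ0 g) := by
  obtain ⟨inst, ha⟩ := L.Geo_act hx n
  have h0 : ∀ g h, T.deg g = 0 → T.deg h = 0 →
      Geo_red n (ψ0 (g * h)) = Geo_red n (ψ0 g) + g • Geo_red n (ψ0 h) := fun g h hg hh => by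
    rw [ha, ← map_add, eq_comm]
    exact Geo_red_eq.2 (hc g h hg hh)
  obtain ⟨c, h1, h2⟩ := Geo_ext hφ (fun g => Geo_red n (ψ0 g)) (Geo_red n y) h0 fun g hg => by
    rw [ha, ha, ← map_sub, ← map_sub]
    exact Geo_red_eq.2 (hy g hg)
  choose ψ hψ using fun g => Geo_red_surj n (c g)
  obtain ⟨U, hU, h3⟩ := hs
  refine ⟨ψ, ⟨⟨U, hU, fun g u hu => Geo_red_eq.1 ?_⟩, fun g h => Geo_red_eq.1 ?_⟩,
    fun g hg => Geo_red_eq.1 ((hψ g).trans (h2 g hg))⟩
  · have h4 := Geo_red_eq.2 (h3 1 T.deg_one u hu)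
    have h5 := h0 1 1 T.deg_one T.deg_one
    rw [one_mul, one_smul, left_eq_add] at h5
    rw [hψ, hψ, h1, h2 u (T.adm_le U hU hu), ← one_mul u, h4, h5, smul_zero, add_zero]
  · rw [map_add, ← ha, hψ, hψ, hψ, h1]

theorem locOK_of_tau (hx : T.IsHom x) {v : P} {c : ℕ}
    (hfin : ∀ (m : ℕ) (t : I → O), VD m (L.act x (T.σ v) t - t) → VD m (L.act x (T.τ v) t - t) →
      VD (m - c) t)
    {m n : ℕ} {ψ : W → I → O} (hψ : L.Coc x n ψ) {t : I → O}
    (ht : VD (m + n) ((2 : O) ^ m • ψ (T.τ v) - (L.act x (T.τ v) t - t))) :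
    L.LocOK x (n - Fintype.card I * c) ψ v := by
  rcases le_total n (Fintype.card I * c) with hn | hn
  · rw [Nat.sub_eq_zero_of_le hn]
    exact ⟨0, LTyp.zero, fun g _ => VD.triv _⟩
  obtain ⟨inst, ha⟩ := L.Geo_act hx (m + n)
  have hψ' := (coc_pow_smul_iff m).2 hψ
  let C : W → I → ZMod (2 ^ (m + n)) := fun g =>
    Geo_red _ ((2 : O) ^ m • ψ g) - (g • Geo_red _ t - Geo_red _ t)
  have h1 : ∀ g h, C (g * h) = C g + g • C h := fun g h => by
    have := Geo_red_eq.2 (hψ'.2 g h)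
    simp only [Pi.smul_apply, map_add, ← ha] at this
    simp only [C, ← this, smul_sub, mul_smul]
    abel
  have h2 : C (T.τ v) = 0 := by
    simp only [C]
    rw [ha, ← map_sub, sub_eq_zero]
    exact Geo_red_eq.2 ht
  have h3 : C 1 = 0 := by simpa using h1 1 1
  have h4 : ∀ k : ℕ, C (T.τ v ^ k) = 0 := fun k => by
    induction k with
    | zero => rwa [pow_zero]
    | succ k ih => rw [pow_succ, h1, ih, h2, smul_zero, add_zero]
  have hrel : ∀ s : I → ZMod (2 ^ (m + n)), (T.σ v * T.τ v) • s = (T.τ v ^ T.Q v * T.σ v) • s :=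
    fun s => by
      obtain ⟨s, rfl⟩ := Geo_red_surj _ s
      rw [ha, ha, act_rel hx]
  have h5 : C (T.σ v * T.τ v) = C (T.τ v ^ T.Q v * T.σ v) := by
    have := Geo_red_eq.2 (hψ'.rel v)
    simp only [Pi.smul_apply] at this
    simp only [C, hrel, this]
  rw [h1, h1, h2, h4, smul_zero, add_zero, zero_add] at h5
  obtain ⟨a, h6, h7⟩ := Geo_loc (e := Fintype.card I * c) (M := (m + n) * Fintype.card I) hrel
    h5.symm (by rw [Nat.card_fun, Nat.card_zmod, Nat.card_eq_fintype_card, ← pow_mul])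
    (Geo_card fun s hs => hfin _ s (Geo_red_eq.1 ((ha _ _).symm.trans hs.1))
      (Geo_red_eq.1 ((ha _ _).symm.trans hs.2)))
  have h8 : ∀ g ∈ T.D v, g • a - a = 2 ^ (Fintype.card I * c) • C g := fun g hg => by
    induction hg using Subgroup.closure_induction with
    | mem g hg =>
      rcases hg with rfl | rfl
      · exact h7
      · rw [h6, h2, sub_self, smul_zero]
    | one => rw [h3, one_smul, sub_self, smul_zero]
    | mul g h _ _ e1 e2 =>
      rw [h1, smul_add, smul_comm, ← e1, ← e2, mul_smul, smul_sub]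
      abel
    | inv g _ e =>
      have := h1 g⁻¹ g
      rw [inv_mul_cancel, h3, eq_comm, add_eq_zero_iff_eq_neg] at this
      rw [this, smul_neg, smul_comm, ← e, smul_sub, inv_smul_smul, neg_sub]
  obtain ⟨a, rfl⟩ := Geo_red_surj _ a
  refine locOK_div (i := Fintype.card I * c + m)
    ⟨_, ltyp_cob (a + (2 : O) ^ (Fintype.card I * c) • t), fun g hg => ?_⟩
  have h9 := h8 g hg
  simp only [C, ha, ← map_sub, ← map_nsmul] at h9
  rw [show Fintype.card I * c + m + (n - Fintype.card I * c) = m + n by omega]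
  convert (Geo_red_eq.1 h9).neg using 1
  rw [act_add, act_smul, ← Nat.cast_smul_eq_nsmul O, Nat.cast_pow, Nat.cast_ofNat, Pi.smul_apply,
    pow_add, mul_smul, smul_sub, smul_sub]
  abel

end Lat

namespace Rep

variable (R : Rep T)

/-- a uniform bound for the local torsion -/
theorem exists_fin : ∃ c : ℕ, 1 ≤ c ∧ ∀ (x : W → F2) (A : Finset P), R.Ram x A → ∀ v ∈ A,
    ∀ (m : ℕ) (t : V), VD m (R.act x (T.σ v) t - t) → VD m (R.act x (T.τ v) t - t) →
      VD (m - c) t := by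
  obtain ⟨c, hc⟩ := R.locfin
  refine ⟨c + 1, by omega, fun x A hA v hv m t h1 h2 => ?_⟩
  by_cases h : v ∈ R.S
  · exact (hc v h _ _ m t h1 h2).mono (by omega)
  rw [Lat.act_ram h (hA.2.1 v hv h)] at h2
  refine ((VD_pow_smul_iff 1 (m - 1) t).1 ?_).mono (by omega)
  rcases m with _ | m
  · exact (VD_pow_smul_iff 1 _ t).2 (VD.triv t)
  · convert h2.neg using 1
    · omega
    · rw [pow_one, two_smul]
      abel

theorem hat_fin : ∃ c : ℕ, 1 ≤ c ∧ ∀ (lam : O) (x : W → F2) (A : Finset P), R.Ram x A → ∀ v ∈ A,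
    ∀ (m : ℕ) (t : H → O), VD m ((R.hat lam).act x (T.σ v) t - t) →
      VD m ((R.hat lam).act x (T.τ v) t - t) → VD (m - c) t := by
  obtain ⟨c, h0, hc⟩ := R.exists_fin
  refine ⟨c + c, by omega, fun lam x A hA v hv m t h1 h2 => ?_⟩
  have e0 : ∀ g, VD m ((R.hat lam).act x g t - t) → VD m (R.act x g (p0 t) - p0 t) := fun g h =>
    p0_act (R := R) (lam := lam) g t ▸ h.p0
  have h3 := hc x A hA v hv m _ (e0 _ h1) (e0 _ h2)
  have e1 : ∀ g, VD m ((R.hat lam).act x g t - t) → VD (m - c) (R.act x g (p1 t) - p1 t) :=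
    fun g h => by
      have h4 : VD m (p1 ((R.hat lam).act x g t) - p1 t) := h.p1
      rw [p1_act, add_sub_right_comm] at h4
      have h5 := (h4.mono (Nat.sub_le m c)).sub
        ((Lat.act_VD (R := R.toLat) (x := x) h3 g).smul (2 * lam * (T.deg g : O)))
      rwa [add_sub_cancel_right] at h5
  exact VD_of_p (h3.mono (by omega)) ((hc x A hA v hv _ _ (e1 _ h1) (e1 _ h2)).mono (by omega))

/-- vectors fixed by the geometric group -/
theorem VD_of_fix {x : W → F2} {m : ℕ} {t : V}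
    (h : ∀ g, T.deg g = 0 → VD m (R.act x g t - t)) : VD m t := by
  induction m with
  | zero => exact VD.triv t
  | succ m ih =>
    have h1 := ih fun g hg => (h g hg).mono m.le_succ
    refine (digV_eq_zero_iff h1).1 (eq_zero_of_fx (R := R) fun g hg => ?_)
    have h2 := (Lat.digV_act_sub (R := R.toLat) (x := x) h1 g).symm.trans (digV_of_VD (h g hg))
    exact (eq_neg_of_add_eq_zero_left h2).trans (vb_neg _)

end Rep

end

end Pool.Agent.Quad
end

-- merged part: Pool.Agent.Work.MP_60d5ce_nt.Qt.QDefs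
section
/-!
# The group `H^1(P^1, j_* E[2^∞])` over the algebraic closure of the constants, on cocycles

`F` is a global function field, `Ω` a separable closure, `E` a Weierstrass curve over `F`.
The roots of unity of `Ω` are the nonzero elements of the algebraic closure of the constant field.
-/

namespace Pool.Agent.Quad

open Pool.Agent.ShaAsc

variable {F Ω : Type} [Field F] [Field Ω] [Algebra F Ω] [DecidableEq Ω]

/-- `g` lies in the geometric Galois group: it fixes all roots of unity -/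
def Geo (g : Ω ≃ₐ[F] Ω) : Prop := ∀ a : Ω, IsOfFinOrder a → g a = a

/-- points of two-power order -/
def Tor2 {A : Type} [AddCommGroup A] (y : A) : Prop := ∃ j : ℕ, 2 ^ j • y = 0

/-- on the geometric group, `c` is a continuous cocycle with values in `E[2 ^ j]` for some `j`, and
on each inertia group (the stabiliser in the geometric group of a nontrivial absolute value of `Ω`)
it is the coboundary of a point of two-power order -/
def InH (E : WeierstrassCurve F) (c : (Ω ≃ₐ[F] Ω) → Pts E Ω) : Prop :=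
  IsLocallyConstant (fun g : {g : Ω ≃ₐ[F] Ω // Geo g} => c g) ∧
    (∀ g h, Geo g → Geo h → c (g * h) = c g + act E g (c h)) ∧
    (∃ j : ℕ, ∀ g, Geo g → 2 ^ j • c g = 0) ∧
    ∀ w : AbsoluteValue Ω ℝ, w.IsNontrivial → ∃ y, Tor2 y ∧
      ∀ g, Geo g → (∀ a, w (g a) = w a) → c g = act E g y - y

/-- on the geometric group, `c` is the coboundary of a point of two-power order -/
def Cob (E : WeierstrassCurve F) (c : (Ω ≃ₐ[F] Ω) → Pts E Ω) : Prop :=
  ∃ y, Tor2 y ∧ ∀ g, Geo g → c g = act E g y - y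

/-- the operator `φ - 1` on cocycles of the geometric group -/
noncomputable def nu (E : WeierstrassCurve F) (φ : Ω ≃ₐ[F] Ω) (c : (Ω ≃ₐ[F] Ω) → Pts E Ω)
    (g : Ω ≃ₐ[F] Ω) : Pts E Ω :=
  act E φ (c (φ⁻¹ * g * φ)) - c g

/-- for every `m` the kernel of `(φ - 1) ^ m` on the cohomology group has corank at most one:
for some `N`, the multiples by `2 ^ N` of its elements killed by `2 ^ (N + 1)` form a group with at
most two elements -/
def CorankLeOne (E : WeierstrassCurve F) (φ : Ω ≃ₐ[F] Ω) : Prop :=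
  ∀ m : ℕ, ∃ N : ℕ, ∀ c1 c2 : (Ω ≃ₐ[F] Ω) → Pts E Ω, InH E c1 → InH E c2 →
    Cob E ((nu E φ)^[m] c1) → Cob E ((nu E φ)^[m] c2) →
    Cob E (2 ^ (N + 1) • c1) → Cob E (2 ^ (N + 1) • c2) →
    Cob E (2 ^ N • c1) ∨ Cob E (2 ^ N • c2) ∨ Cob E (2 ^ N • (c1 + c2))

end Pool.Agent.Quad
end

-- merged part: Pool.Agent.Work.MP_60d5ce_nt.Lb.CPoly
section
/-!
# Characteristic polynomials  (task LB CPoly)

* `exists_pair`: over `K = ℚ_[2]` the generalised eigenspace has dimension at least two (`LinearMap.finrank_maxGenEigenspace_eq`, `Matrix.charpoly_toLin'`,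
  `Module.End.maxGenEigenspace_eq_genEigenspace_finrank`).  So `L = ker ((Ψ - 1) ^ r).mulVecLin ≤ (Fin r → O)` has two linearly independent vectors (clear denominators).
  `L` is free (`O` is a principal ideal domain) of rank at least two; take two members of a basis.  `L` is saturated: `2 • y ∈ L → y ∈ L`; compare coordinates.
* `lser_poly`: `ld_exp_subst`, `LD.map` along `algebraMap ℚ ℚ_[2]`, `ld_det` for `q • Ψ`, `LD.unique`: the series maps to `det (1 - X • (q Ψ))`, the image of the polynomial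
  `Matrix.charpolyRev (q • Ψ)`.  So its coefficients vanish from `r + 1` on; `P = PowerSeries.trunc (r + 1) _`, `P.map _ = charpolyRev (q • Ψ)`; `Polynomial.eq_rootMultiplicity_map`.
  Write `charpoly Ψ = (X - 1) ^ m * s`, `s 1 ≠ 0`; `Matrix.reverse_charpoly`, `charpolyRev (q • Ψ) = (charpolyRev Ψ).comp (C q * X)`.
-/

namespace Pool.Agent.Lef

open Pool.Agent.Quad Polynomial

theorem exists_pair {r : ℕ} (Ψ : Matrix (Fin r) (Fin r) O)
    (h : 2 ≤ (Ψ.map (algebraMap O ℚ_[2])).charpoly.rootMultiplicity 1) :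
    ∃ s t : Fin r → O, ((Ψ - 1) ^ r).mulVec s = 0 ∧ ((Ψ - 1) ^ r).mulVec t = 0 ∧
      ¬ VD 1 s ∧ ¬ VD 1 t ∧ ¬ VD 1 (s + t) := by
  rw [← Matrix.charpoly_toLin', ← LinearMap.finrank_maxGenEigenspace_eq,
    Module.End.maxGenEigenspace_eq_genEigenspace_finrank, Module.finrank_fin_fun,
    Module.End.genEigenspace_nat] at h
  obtain ⟨A, hA⟩ : ∃ A, A = (Ψ - 1) ^ r := ⟨_, rfl⟩
  have e : (Matrix.toLin' (Ψ.map (algebraMap O ℚ_[2])) - (1 : ℚ_[2]) • 1) ^ r =
      Matrix.toLin' (A.map (algebraMap O ℚ_[2])) := by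
    rw [hA, ← RingHom.mapMatrix_apply, ← RingHom.mapMatrix_apply, map_pow, map_sub, map_one,
      Matrix.toLin'_pow, map_sub, Matrix.toLin'_one, one_smul]
    rfl
  rw [e] at h
  rw [← hA]
  let b := Module.finBasis O (LinearMap.ker A.mulVecLin)
  let ι : (Fin r → O) →ₗ[O] Fin r → ℚ_[2] := (Algebra.linearMap O ℚ_[2]).compLeft (Fin r)
  have h1 : LinearMap.ker (Matrix.toLin' (A.map (algebraMap O ℚ_[2]))) ≤
      Submodule.span ℚ_[2] (Set.range fun i => ι (b i)) := fun v hv => by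
    obtain ⟨c, hc⟩ := IsLocalization.exist_integer_multiples_of_finite (nonZeroDivisors O) v
    choose y hy using hc
    have h2 : ι y = (c : O) • v := funext hy
    have h3 : y ∈ LinearMap.ker A.mulVecLin := funext fun i =>
      FaithfulSMul.algebraMap_injective O ℚ_[2] (by
        have h4 : (A.map (algebraMap O ℚ_[2])).mulVec v = 0 := hv
        have h5 : (A.map (algebraMap O ℚ_[2])).mulVec (ι y) = 0 := by
          rw [h2, Matrix.mulVec_smul, h4, smul_zero]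
        exact (RingHom.map_mulVec _ A y i).trans ((congrFun h5 i).trans (map_zero _).symm))
    have h4 : algebraMap O ℚ_[2] c ≠ 0 :=
      (FaithfulSMul.algebraMap_eq_zero_iff O _).not.2 (nonZeroDivisors.ne_zero c.2)
    rw [← Submodule.smul_mem_iff _ h4, algebraMap_smul, ← h2,
      show y = ∑ i, b.repr ⟨y, h3⟩ i • (b i : Fin r → O) from
        (congrArg Subtype.val (b.sum_repr ⟨y, h3⟩)).symm.trans (Submodule.coe_sum _ _ _), map_sum]
    refine Submodule.sum_mem _ fun i _ => ?_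
    rw [map_smul]
    exact Submodule.smul_of_tower_mem _ _ (Submodule.subset_span ⟨i, rfl⟩)
  have h2 := (h.trans (Submodule.finrank_mono h1)).trans (finrank_range_le_card _)
  rw [Fintype.card_fin] at h2
  have h3 : ∀ (x : LinearMap.ker A.mulVecLin) i, b.repr x i = 1 → ¬ VD 1 (x : Fin r → O) :=
    fun x i hx hv => by
      obtain ⟨y, hy⟩ := hv.exists
      have h4 : y ∈ LinearMap.ker A.mulVecLin := by
        have h5 := x.2
        rw [hy, LinearMap.mem_ker, map_smul, smul_eq_zero] at h5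
        exact h5.resolve_left (by norm_num)
      rw [show x = (2 : O) ^ 1 • (⟨y, h4⟩ : LinearMap.ker A.mulVecLin) from Subtype.ext hy, map_smul,
        Finsupp.smul_apply, smul_eq_mul] at hx
      simpa using congrArg res hx
  exact ⟨b ⟨0, by omega⟩, b ⟨1, by omega⟩, (b _).2, (b _).2, h3 _ ⟨0, by omega⟩ (by simp),
    h3 _ ⟨1, by omega⟩ (by simp), h3 (b ⟨0, by omega⟩ + b ⟨1, by omega⟩) ⟨0, by omega⟩ (by simp)⟩

theorem CPoly_mult {K : Type} [Field K] {χ : K[X]} (h0 : χ ≠ 0) {q : K} (hq : q ≠ 0) :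
    (χ.reverse.comp (C q * X)).rootMultiplicity q⁻¹ ≤ χ.rootMultiplicity 1 := by
  classical
  obtain ⟨s, h1, h2⟩ := exists_eq_pow_rootMultiplicity_mul_and_not_dvd χ h0 1
  generalize χ.rootMultiplicity 1 = m at h1
  by_cases h3 : χ.reverse.comp (C q * X) = 0
  · rw [h3, rootMultiplicity_zero]
    exact Nat.zero_le _
  rw [h1, reverse_mul_of_domain, mul_comp] at h3 ⊢
  have h4 : ¬ (s.reverse.comp (C q * X)).IsRoot q⁻¹ := fun e => h2 (dvd_iff_isRoot.2 (by
    let _ : Invertible (1 : K) := invertibleOne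
    rw [IsRoot, eval_comp, eval_mul, eval_C, eval_X, mul_inv_cancel₀ hq, ← invOf_one] at e
    exact (eval₂_reverse_eq_zero_iff (RingHom.id K) 1 s).1 e))
  rw [rootMultiplicity_mul h3, rootMultiplicity_eq_zero h4, add_zero, ← count_roots]
  refine (Multiset.count_le_card _ _).trans ((card_roots' _).trans (natDegree_comp_le.trans ?_))
  rw [natDegree_C_mul_X _ hq, mul_one]
  refine (reverse_natDegree_le _).trans ?_
  rw [natDegree_pow, natDegree_X_sub_C, mul_one]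

open Pool.Agent.Lib.Dwork in
theorem lser_poly {r : ℕ} (Ψ : Matrix (Fin r) (Fin r) ℚ_[2]) {q : ℕ} (hq : q ≠ 0) (a : ℕ → ℤ)
    (h : ∀ n, (a n : ℚ_[2]) = -((q : ℚ_[2]) ^ (n + 1) * (Ψ ^ (n + 1)).trace)) :
    ∃ P : ℚ[X], (PowerSeries.exp ℚ).subst
      (PowerSeries.X * PowerSeries.mk fun n => (a n : ℚ) / (n + 1)) = (P : PowerSeries ℚ) ∧
      P.rootMultiplicity (q : ℚ)⁻¹ ≤ Ψ.charpoly.rootMultiplicity 1 := by
  obtain ⟨Z, hZ⟩ : ∃ Z, Z = (PowerSeries.exp ℚ).subst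
    (PowerSeries.X * PowerSeries.mk fun n => (a n : ℚ) / (n + 1)) := ⟨_, rfl⟩
  have h1 := (ld_exp_subst (g := PowerSeries.X * PowerSeries.mk fun n => (a n : ℚ) / (n + 1))
    (by simp)).map (algebraMap ℚ ℚ_[2])
  rw [← hZ] at h1 ⊢
  have h2 : PowerSeries.map (algebraMap ℚ ℚ_[2]) Z = ((q : ℚ_[2]) • Ψ).charpolyRev := by
    refine (h1.unique ?_).trans (b := Matrix.det (1 - (PowerSeries.X : PowerSeries ℚ_[2]) •
      ((q : ℚ_[2]) • Ψ).map PowerSeries.C)) ?_
    · convert ld_det ((q : ℚ_[2]) • Ψ) using 1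
      ext n
      rw [PowerSeries.coeff_map, coeff_X_mul_deriv, map_neg, PowerSeries.coeff_mk]
      cases n with
      | zero => simp
      | succ n =>
        rw [PowerSeries.coeff_succ_X_mul, PowerSeries.coeff_mk, if_neg n.succ_ne_zero,
          _root_.smul_pow, Matrix.trace_smul, smul_eq_mul, ← h, Nat.cast_succ,
          mul_div_cancel₀ _ (Nat.cast_add_one_ne_zero n), map_intCast]
    · generalize (q : ℚ_[2]) • Ψ = A
      rw [Matrix.charpolyRev, ← coeToPowerSeries.ringHom_apply, RingHom.map_det]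
      congr 1
      ext1 i j
      by_cases e : i = j <;> simp [e] <;> exact mul_comm _ _
  have h3 : ((PowerSeries.trunc (((q : ℚ_[2]) • Ψ).charpolyRev.natDegree + 1) Z : ℚ[X]) :
      PowerSeries ℚ) = Z := by
    ext n
    rw [coeff_coe, PowerSeries.coeff_trunc]
    split_ifs with e
    · rfl
    · refine (algebraMap ℚ ℚ_[2]).injective ?_
      rw [← PowerSeries.coeff_map, h2, coeff_coe, coeff_eq_zero_of_natDegree_lt (by omega), map_zero]
  refine ⟨_, h3.symm, ?_⟩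
  have h4 : ((q : ℚ_[2]) • Ψ).charpolyRev = Ψ.charpoly.reverse.comp (C (q : ℚ_[2]) * X) := by
    rw [Matrix.reverse_charpoly, Matrix.charpolyRev, Matrix.charpolyRev, ← coe_compRingHom_apply,
      RingHom.map_det]
    congr 1
    ext1 i j
    by_cases e : i = j <;> simp [e] <;> ring
  rw [eq_rootMultiplicity_map (algebraMap ℚ ℚ_[2]).injective,
    coe_injective _ (polynomial_map_coe.trans ((congrArg _ h3).trans h2)), h4, map_inv₀, map_natCast]
  exact CPoly_mult Ψ.charpoly_monic.ne_zero (Nat.cast_ne_zero.2 hq)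

end Pool.Agent.Lef
end
end

-- merged part: Pool.Agent.Work.MP_60d5ce_nt.Qt.Alg
section
/-!
# A lemma on abelian groups with an endomorphism

Hints for `alg_core` (`Z` is the kernel of `ν`; the order of an element is a power of two).
* (A) from `hR`: if `z1, z2 ∈ Z`, `z1` has order exactly `2 ^ i`, `2 ^ j • z2 = 0`, `j ≤ i`, then
  `2 ^ (n1 - 1) • (z2 - u • 2 ^ (i - j) • z1) = 0` for an integer `u`.  Induction on `j`: for `j ≥ n1`
  apply `hR` to `2 ^ (i - j) • z1` and `z2`; so `z2` or `z2 + 2 ^ (i - j) • z1` is killed by `2 ^ (j - 1)`.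
* (B) by induction on `a ≤ a1`: if `n ≥ n2 + a`, `2 ^ n` kills `c0` and `c1`, `ν c0 = 0`,
  `ν c1 + 2 ^ (a + 1) • c0 = 0` then `2 ^ (n - 1) • c0 = 0`.  Step: `hN` gives that `c1` or `c0 + c1`
  is killed by `2 ^ (n - 1)`; use the pair `(2 • c0, c1)` or `(2 • c0, c0 + c1)` at level `n - 1`.
* (C) there is `e` with `2 ^ e • ν b = 0` whenever `ν (ν b) = 0`.  Clear if `Z` has bounded exponent.
  Otherwise by (A), for every `z ∈ Z` and `i` there is `z' ∈ Z` with `2 ^ (n1 - 1) • (z - 2 ^ i • z') = 0`.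
  Let `ν b` have order `2 ^ s`, `s` large.  Subtract from `b` an element of `Z` so that
  `2 ^ (s + n1 - 1) • b = 0`.  Write `2 ^ (n1 - 1) • ν b = 2 ^ (n1 - 1) • 2 ^ n1 • z`, `z ∈ Z`, and apply (B)
  to `c0 = -2 ^ (n1 - 1) • z`, `c1 = 2 ^ (n1 - 1) • b`, `a = n1 - 1`, `n = s + 1`: the order of `c0` is
  exactly `2 ^ (s + 1)`, contradiction.
* (D) `ν ^ m c = 0` gives `2 ^ (e (m - 1)) • c ∈ Z`; take `N = e (m - 1) + n1 - 1`.
`alg_main`: apply `alg_core` to the quotient `Hs ⧸ B.addSubgroupOf Hs`.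
-/

namespace Pool.Agent.Quad

theorem Alg_A {M : Type*} [AddCommGroup M] (ν : M →+ M) {p : ℕ}
    (hR : ∀ n, p + 1 ≤ n → ∀ c1 c2 : M, ν c1 = 0 → ν c2 = 0 → 2 ^ n • c1 = 0 → 2 ^ n • c2 = 0 →
      2 ^ (n - 1) • c1 = 0 ∨ 2 ^ (n - 1) • c2 = 0 ∨ 2 ^ (n - 1) • (c1 + c2) = 0) (j : ℕ) :
    ∀ z1 z2 : M, ν z1 = 0 → ν z2 = 0 → 2 ^ j • z1 = 0 → (∀ i < j, 2 ^ i • z1 ≠ 0) →
      2 ^ j • z2 = 0 → ∃ u : ℤ, 2 ^ p • (z2 - u • z1) = 0 := by
  induction j with
  | zero =>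
    intro z1 z2 _ _ _ _ h
    refine ⟨0, ?_⟩
    rw [pow_zero, one_smul] at h
    simp [h]
  | succ j ih =>
    intro z1 z2 h1 h2 h3 h4 h5
    by_cases hj : j + 1 ≤ p
    · obtain ⟨r, rfl⟩ := Nat.exists_eq_add_of_le hj
      refine ⟨0, ?_⟩
      rw [zero_smul, sub_zero, pow_add, mul_comm, mul_smul, h5, smul_zero]
    have k1 : ν (2 • z1) = 0 := by rw [map_nsmul, h1, smul_zero]
    have k2 : 2 ^ j • 2 • z1 = 0 := by rw [← mul_smul, ← pow_succ, h3]
    have k3 : ∀ i < j, 2 ^ i • 2 • z1 ≠ 0 := fun i hi => by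
      rw [← mul_smul, ← pow_succ]
      exact h4 _ (by omega)
    rcases hR (j + 1) (by omega) z1 z2 h1 h2 h3 h5 with h | h | h
    · exact (h4 j (by omega) h).elim
    · obtain ⟨u, hu⟩ := ih _ _ k1 h2 k2 k3 h
      refine ⟨u * 2, ?_⟩
      rw [← hu]
      module
    · obtain ⟨u, hu⟩ := ih _ (z1 + z2) k1 (by rw [map_add, h1, h2, add_zero]) k2 k3 h
      refine ⟨u * 2 - 1, ?_⟩
      rw [← hu]
      module

theorem Alg_A2 {M : Type*} [AddCommGroup M] (ν : M →+ M) (htor : ∀ c : M, ∃ j : ℕ, 2 ^ j • c = 0)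
    {p : ℕ}
    (hR : ∀ n, p + 1 ≤ n → ∀ c1 c2 : M, ν c1 = 0 → ν c2 = 0 → 2 ^ n • c1 = 0 → 2 ^ n • c2 = 0 →
      2 ^ (n - 1) • c1 = 0 ∨ 2 ^ (n - 1) • c2 = 0 ∨ 2 ^ (n - 1) • (c1 + c2) = 0)
    (hu : ∀ i : ℕ, ∃ z, ν z = 0 ∧ 2 ^ i • z ≠ 0) (z : M) (hz : ν z = 0) (k : ℕ) :
    ∃ z', ν z' = 0 ∧ 2 ^ p • (z - 2 ^ k • z') = 0 := by
  classical
  obtain ⟨j, hj⟩ := htor z
  obtain ⟨z0, h0, h1⟩ := hu (j + k)
  have h2 := Nat.find_spec (htor z0)
  have h3 : ∀ i < Nat.find (htor z0), 2 ^ i • z0 ≠ 0 := fun i hi => Nat.find_min (htor z0) hi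
  generalize Nat.find (htor z0) = s at h2 h3
  have h4 : j + k ≤ s := by
    by_contra h5
    obtain ⟨r, hr⟩ := Nat.exists_eq_add_of_le (by omega : s ≤ j + k)
    exact h1 (by rw [hr, pow_add, mul_comm, mul_smul, h2, smul_zero])
  obtain ⟨r, rfl⟩ := Nat.exists_eq_add_of_le h4
  obtain ⟨u, hu⟩ := Alg_A ν hR j (2 ^ (k + r) • z0) z (by rw [map_nsmul, h0, smul_zero]) hz
    (by rw [← mul_smul, ← pow_add, ← add_assoc, h2])
    (fun i hi => by
      rw [← mul_smul, ← pow_add]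
      exact h3 _ (by omega)) hj
  refine ⟨u • 2 ^ r • z0, by rw [map_zsmul, map_nsmul, h0, smul_zero, smul_zero], ?_⟩
  rw [← hu]
  module

theorem Alg_B {M : Type*} [AddCommGroup M] (ν : M →+ M) {n2 a1 : ℕ} (h2 : 1 ≤ n2)
    (hN : ∀ a ≤ a1, ∀ n, n2 ≤ n → ∀ c0 c1 : M, ν c0 = 0 → ν c1 + 2 ^ (a + 1) • c0 = 0 →
      2 ^ n • c0 = 0 → 2 ^ n • c1 = 0 → 2 ^ (n - 1) • c0 = 0 ∨
        (1 ≤ a ∧ (2 ^ (n - 1) • c1 = 0 ∨ 2 ^ (n - 1) • (c0 + c1) = 0))) (a : ℕ) :
    a ≤ a1 → ∀ n, n2 + a ≤ n → ∀ c0 c1 : M, ν c0 = 0 → ν c1 + 2 ^ (a + 1) • c0 = 0 →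
      2 ^ n • c0 = 0 → 2 ^ n • c1 = 0 → 2 ^ (n - 1) • c0 = 0 := by
  induction a with
  | zero =>
    intro ha n hn c0 c1 k1 k2 k3 k4
    rcases hN 0 ha n hn c0 c1 k1 k2 k3 k4 with h | ⟨h, -⟩
    · exact h
    · omega
  | succ a ih =>
    intro ha n hn c0 c1 k1 k2 k3 k4
    obtain ⟨n, rfl⟩ : ∃ n', n = n' + 2 := ⟨n - 2, by omega⟩
    have e1 : ν (2 • c0) = 0 := by rw [map_nsmul, k1, smul_zero]
    have e2 : ν c1 + 2 ^ (a + 1) • 2 • c0 = 0 := by rw [← mul_smul, ← pow_succ, k2]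
    have e3 : 2 ^ (n + 1) • 2 • c0 = 0 := by rw [← mul_smul, ← pow_succ, k3]
    have e4 : 2 ^ (n + 1 - 1) • 2 • c0 = 2 ^ (n + 2 - 1) • c0 := by
      rw [← mul_smul, ← pow_succ]
      rfl
    rcases hN (a + 1) ha (n + 2) (by omega) c0 c1 k1 k2 k3 k4 with h | ⟨-, h | h⟩
    · exact h
    · rw [← e4]
      exact ih (by omega) (n + 1) (by omega) _ c1 e1 e2 e3 h
    · rw [← e4]
      exact ih (by omega) (n + 1) (by omega) _ (c0 + c1) e1
        (by rw [map_add, k1, zero_add, e2]) e3 h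

theorem Alg_C {M : Type*} [AddCommGroup M] (ν : M →+ M) (htor : ∀ c : M, ∃ j : ℕ, 2 ^ j • c = 0)
    {p n2 a1 : ℕ} (h2 : 1 ≤ n2) (ha : p ≤ a1)
    (hR : ∀ n, p + 1 ≤ n → ∀ c1 c2 : M, ν c1 = 0 → ν c2 = 0 → 2 ^ n • c1 = 0 → 2 ^ n • c2 = 0 →
      2 ^ (n - 1) • c1 = 0 ∨ 2 ^ (n - 1) • c2 = 0 ∨ 2 ^ (n - 1) • (c1 + c2) = 0)
    (hN : ∀ a ≤ a1, ∀ n, n2 ≤ n → ∀ c0 c1 : M, ν c0 = 0 → ν c1 + 2 ^ (a + 1) • c0 = 0 →
      2 ^ n • c0 = 0 → 2 ^ n • c1 = 0 → 2 ^ (n - 1) • c0 = 0 ∨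
        (1 ≤ a ∧ (2 ^ (n - 1) • c1 = 0 ∨ 2 ^ (n - 1) • (c0 + c1) = 0))) :
    ∃ e : ℕ, ∀ b : M, ν (ν b) = 0 → 2 ^ e • ν b = 0 := by
  by_cases hu : ∀ i : ℕ, ∃ z, ν z = 0 ∧ 2 ^ i • z ≠ 0
  swap
  · obtain ⟨e, he⟩ := not_forall.1 hu
    refine ⟨e, fun b hb => ?_⟩
    by_contra h
    exact he ⟨_, hb, h⟩
  refine ⟨p + n2, fun b hb => ?_⟩
  have step : ∀ r, n2 ≤ r → 2 ^ (p + r + 1) • ν b = 0 → 2 ^ (p + r) • ν b = 0 := by
    intro r hr h
    obtain ⟨z', k1, k2⟩ := Alg_A2 ν htor hR hu (2 ^ (p + r + 1) • b) (by rw [map_nsmul, h])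
      (p + r + 1)
    obtain ⟨z, k3, k4⟩ := Alg_A2 ν htor hR hu (ν b) hb (p + 1)
    have k5 := Alg_B ν h2 hN p ha (p + r + 2) (by omega) (-(2 ^ p • z)) (2 ^ p • (b - z'))
      (by rw [map_neg, map_nsmul, k3, smul_zero, neg_zero])
      (by
        rw [map_nsmul, map_sub, k1, sub_zero, ← k4]
        module)
      (by linear_combination (norm := module) (2 ^ (r + 1) : ℕ) • k4 - h)
      (by linear_combination (norm := module) (2 : ℕ) • k2)
    have k6 : p + r + 2 - 1 = p + r + 1 := rfl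
    rw [k6] at k5
    linear_combination (norm := module) (2 ^ r : ℕ) • k4 - k5
  obtain ⟨j, hj⟩ := htor (ν b)
  have key : ∀ t, 2 ^ (p + (n2 + t)) • ν b = 0 → 2 ^ (p + n2) • ν b = 0 := by
    intro t
    induction t with
    | zero => exact id
    | succ t ih => exact fun h => ih (step _ (by omega) h)
  exact key j (by rw [← add_assoc, pow_add, mul_smul, hj, smul_zero])

theorem alg_core {M : Type*} [AddCommGroup M] (ν : M →+ M) (htor : ∀ c : M, ∃ j : ℕ, 2 ^ j • c = 0)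
    {n1 n2 a1 : ℕ} (h1 : 1 ≤ n1) (h2 : 1 ≤ n2) (ha : n1 ≤ a1 + 1)
    (hR : ∀ n, n1 ≤ n → ∀ c1 c2 : M, ν c1 = 0 → ν c2 = 0 → 2 ^ n • c1 = 0 → 2 ^ n • c2 = 0 →
      2 ^ (n - 1) • c1 = 0 ∨ 2 ^ (n - 1) • c2 = 0 ∨ 2 ^ (n - 1) • (c1 + c2) = 0)
    (hN : ∀ a ≤ a1, ∀ n, n2 ≤ n → ∀ c0 c1 : M, ν c0 = 0 → ν c1 + 2 ^ (a + 1) • c0 = 0 →
      2 ^ n • c0 = 0 → 2 ^ n • c1 = 0 → 2 ^ (n - 1) • c0 = 0 ∨
        (1 ≤ a ∧ (2 ^ (n - 1) • c1 = 0 ∨ 2 ^ (n - 1) • (c0 + c1) = 0))) (m : ℕ) :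
    ∃ N : ℕ, ∀ c1 c2 : M, ν^[m] c1 = 0 → ν^[m] c2 = 0 → 2 ^ (N + 1) • c1 = 0 →
      2 ^ (N + 1) • c2 = 0 → 2 ^ N • c1 = 0 ∨ 2 ^ N • c2 = 0 ∨ 2 ^ N • (c1 + c2) = 0 := by
  obtain ⟨p, rfl⟩ : ∃ p, n1 = p + 1 := ⟨n1 - 1, by omega⟩
  obtain ⟨e, he⟩ := Alg_C ν htor h2 (by omega : p ≤ a1) hR hN
  have hD : ∀ (m : ℕ) (c : M), ν^[m + 1] c = 0 → ν (2 ^ (e * m) • c) = 0 := by
    intro m
    induction m with
    | zero => intro c hc; simpa using hc
    | succ m ih =>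
      intro c hc
      rw [Function.iterate_succ_apply] at hc
      have h3 := ih _ hc
      rw [← map_nsmul] at h3
      have h4 := he _ h3
      rw [← map_nsmul, ← mul_smul, ← pow_add] at h4
      rwa [Nat.mul_succ, add_comm]
  have hD' : ∀ c : M, ν^[m] c = 0 → ν (2 ^ (e * m) • c) = 0 := fun c hc =>
    hD m c (by rw [Function.iterate_succ_apply', hc, map_zero])
  refine ⟨p + e * m, fun c1 c2 k1 k2 k3 k4 => ?_⟩
  have h5 := hR (p + 1) le_rfl _ _ (hD' c1 k1) (hD' c2 k2)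
    (by rw [← mul_smul, ← pow_add, ← k3]; congr 2; omega)
    (by rw [← mul_smul, ← pow_add, ← k4]; congr 2; omega)
  rw [← smul_add] at h5
  simpa only [Nat.add_sub_cancel, ← mul_smul, ← pow_add] using h5

theorem alg_main {M : Type*} [AddCommGroup M] (Hs B : AddSubgroup M) (ν : M →+ M)
    (hH : ∀ c ∈ Hs, ν c ∈ Hs) (hB : ∀ c ∈ B, ν c ∈ B) (htor : ∀ c ∈ Hs, ∃ j : ℕ, 2 ^ j • c ∈ B)
    {n1 n2 a1 : ℕ} (h1 : 1 ≤ n1) (h2 : 1 ≤ n2) (ha : n1 ≤ a1 + 1)
    (hR : ∀ n, n1 ≤ n → ∀ c1 ∈ Hs, ∀ c2 ∈ Hs, ν c1 ∈ B → ν c2 ∈ B → 2 ^ n • c1 ∈ B →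
      2 ^ n • c2 ∈ B → 2 ^ (n - 1) • c1 ∈ B ∨ 2 ^ (n - 1) • c2 ∈ B ∨ 2 ^ (n - 1) • (c1 + c2) ∈ B)
    (hN : ∀ a ≤ a1, ∀ n, n2 ≤ n → ∀ c0 ∈ Hs, ∀ c1 ∈ Hs, ν c0 ∈ B → ν c1 + 2 ^ (a + 1) • c0 ∈ B →
      2 ^ n • c0 ∈ B → 2 ^ n • c1 ∈ B → 2 ^ (n - 1) • c0 ∈ B ∨
        (1 ≤ a ∧ (2 ^ (n - 1) • c1 ∈ B ∨ 2 ^ (n - 1) • (c0 + c1) ∈ B))) (m : ℕ) :
    ∃ N : ℕ, ∀ c1 ∈ Hs, ∀ c2 ∈ Hs, ν^[m] c1 ∈ B → ν^[m] c2 ∈ B → 2 ^ (N + 1) • c1 ∈ B →
      2 ^ (N + 1) • c2 ∈ B → 2 ^ N • c1 ∈ B ∨ 2 ^ N • c2 ∈ B ∨ 2 ^ N • (c1 + c2) ∈ B := by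
  let ν1 : Hs →+ Hs := (ν.comp Hs.subtype).codRestrict Hs fun c => hH c c.2
  have hν1 : ∀ c : Hs, (ν1 c : M) = ν c := fun _ => rfl
  let B' := B.addSubgroupOf Hs
  let ν2 : Hs ⧸ B' →+ Hs ⧸ B' := QuotientAddGroup.map B' B' ν1 fun c hc => hB c hc
  have hν2 : ∀ c : Hs, ν2 (c : Hs ⧸ B') = (ν1 c : Hs ⧸ B') := fun _ => rfl
  have hz : ∀ c : Hs, (c : Hs ⧸ B') = 0 ↔ (c : M) ∈ B := fun c => QuotientAddGroup.eq_zero_iff c
  have hs : ∀ (n : ℕ) (c : Hs), n • (c : Hs ⧸ B') = 0 ↔ n • (c : M) ∈ B := fun n c => by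
    rw [← QuotientAddGroup.mk_nsmul, hz]
    rfl
  have hs2 : ∀ (n : ℕ) (c c' : Hs), n • ((c : Hs ⧸ B') + c') = 0 ↔ n • ((c : M) + c') ∈ B :=
    fun n c c' => by
      rw [← QuotientAddGroup.mk_add, hs]
      rfl
  have hn : ∀ c : Hs, ν2 (c : Hs ⧸ B') = 0 ↔ ν c ∈ B := fun c => by rw [hν2, hz, hν1]
  have hit : ∀ (k : ℕ) (c : Hs), ∃ d : Hs, ν2^[k] (c : Hs ⧸ B') = d ∧ ν^[k] c = d := by
    intro k
    induction k with
    | zero => exact fun c => ⟨c, rfl, rfl⟩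
    | succ k ih =>
      intro c
      obtain ⟨d, h3, h4⟩ := ih c
      exact ⟨ν1 d, by rw [Function.iterate_succ_apply', h3, hν2],
        by rw [Function.iterate_succ_apply', h4, hν1]⟩
  obtain ⟨N, hN'⟩ := alg_core ν2 (fun c => by
      obtain ⟨c, rfl⟩ := QuotientAddGroup.mk_surjective c
      obtain ⟨j, hj⟩ := htor c c.2
      exact ⟨j, (hs _ c).2 hj⟩) h1 h2 ha
    (fun n hn1 c1 c2 => by
      obtain ⟨c1, rfl⟩ := QuotientAddGroup.mk_surjective c1
      obtain ⟨c2, rfl⟩ := QuotientAddGroup.mk_surjective c2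
      rw [hn, hn, hs, hs, hs, hs, hs2]
      exact hR n hn1 c1 c1.2 c2 c2.2)
    (fun a ha1 n hn2 c0 c1 => by
      obtain ⟨c0, rfl⟩ := QuotientAddGroup.mk_surjective c0
      obtain ⟨c1, rfl⟩ := QuotientAddGroup.mk_surjective c1
      rw [hn, hs, hs, hs, hs, hs2, hν2, ← QuotientAddGroup.mk_nsmul, ← QuotientAddGroup.mk_add, hz]
      exact hN a ha1 n hn2 c0 c0.2 c1 c1.2) m
  refine ⟨N, fun c1 k1 c2 k2 k3 k4 k5 k6 => ?_⟩
  obtain ⟨d1, e1, f1⟩ := hit m ⟨c1, k1⟩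
  obtain ⟨d2, e2, f2⟩ := hit m ⟨c2, k2⟩
  have h3 := hN' (⟨c1, k1⟩ : Hs) (⟨c2, k2⟩ : Hs) (by rw [e1, hz, ← f1]; exact k3)
    (by rw [e2, hz, ← f2]; exact k4) ((hs _ _).2 k5) ((hs _ _).2 k6)
  rwa [hs, hs, hs2] at h3

end Pool.Agent.Quad
end
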