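import Pool.Agent.Work.MP_60d5ce_nt.Qt.Alg
import Mathlib

-- merged part: Pool.Agent.Work.MP_60d5ce_nt.Qt.Cube
section
/-!
# Differences on a cube, graded families

`Gr.mul` and `leibniz` together, by induction on the set of directions (generalising the two
functions): `Dl (insert i B) (f * g) = Dl B (δf * g + f * δg + δf * δg)` with
`δf e = f (insert i e) - f e`, and `δf = (2 : O) * f'` on subsets of `B` with `f'` graded on `B`
(use `Dl_inversion` to see that `(2 : O)` divides `δf e`).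
-/

namespace Pool.Agent.Quad

noncomputable section

variable {ι : Type} [DecidableEq ι] {I : Type}

/-- alternating sum over the face with directions `B` -/
def Dl {A : Type*} [AddCommGroup A] (B : Finset ι) (f : Finset ι → A) : A :=
  ∑ e ∈ B.powerset, (-1 : ℤ) ^ (B \ e).card • f e

section gen

variable {A : Type*} [AddCommGroup A]

theorem Dl_empty (f : Finset ι → A) : Dl ∅ f = f ∅ := by
  simp [Dl]

theorem Dl_insert {i : ι} {B : Finset ι} (hi : i ∉ B) (f : Finset ι → A) :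
    Dl (insert i B) f = Dl B (fun e => f (insert i e)) - Dl B f := by
  unfold Dl
  rw [Finset.sum_powerset_insert hi, sub_eq_add_neg, add_comm, ← Finset.sum_neg_distrib]
  congr 1
  · refine Finset.sum_congr rfl fun e he => ?_
    rw [Finset.insert_sdiff_insert, Finset.sdiff_insert_of_notMem hi]
  · refine Finset.sum_congr rfl fun e he => ?_
    have h1 : i ∉ e := fun h => hi (Finset.mem_powerset.1 he h)
    rw [Finset.insert_sdiff_of_notMem _ h1,
      Finset.card_insert_of_notMem (fun h => hi (Finset.mem_sdiff.1 h).1), pow_succ, mul_neg_one,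
      neg_smul]

theorem Dl_congr {B : Finset ι} {f g : Finset ι → A} (h : ∀ e ⊆ B, f e = g e) :
    Dl B f = Dl B g := by
  unfold Dl
  exact Finset.sum_congr rfl fun e he => by rw [h e (Finset.mem_powerset.1 he)]

theorem Dl_add (B : Finset ι) (f g : Finset ι → A) :
    Dl B (fun e => f e + g e) = Dl B f + Dl B g := by
  simp only [Dl, smul_add, Finset.sum_add_distrib]

theorem Dl_sub (B : Finset ι) (f g : Finset ι → A) :
    Dl B (fun e => f e - g e) = Dl B f - Dl B g := by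
  simp only [Dl, smul_sub, Finset.sum_sub_distrib]

theorem Dl_map {A' : Type*} [AddCommGroup A'] (φ : A →+ A') (B : Finset ι) (f : Finset ι → A) :
    Dl B (fun e => φ (f e)) = φ (Dl B f) := by
  simp only [Dl, map_sum, map_zsmul]

theorem Dl_sum {κ : Type*} (s : Finset κ) (B : Finset ι) (f : κ → Finset ι → A) :
    Dl B (fun e => ∑ j ∈ s, f j e) = ∑ j ∈ s, Dl B (f j) := by
  simp only [Dl, Finset.smul_sum]
  exact Finset.sum_comm

theorem Dl_const {B : Finset ι} (hB : B.Nonempty) (a : A) : Dl B (fun _ => a) = 0 := by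
  obtain ⟨i, hi⟩ := hB
  rw [← Finset.insert_erase hi, Dl_insert (Finset.notMem_erase i B), sub_self]

theorem Dl_top (B : Finset ι) (f : Finset ι → A) :
    Dl B f = f B + ∑ e ∈ B.powerset.erase B, (-1 : ℤ) ^ (B \ e).card • f e := by
  unfold Dl
  rw [← Finset.add_sum_erase _ _ (Finset.mem_powerset_self B)]
  simp

theorem Dl_inversion (e : Finset ι) (f : Finset ι → A) : f e = ∑ B ∈ e.powerset, Dl B f := by
  induction e using Finset.induction_on generalizing f with
  | empty => simp [Dl_empty]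
  | insert i e hi ih =>
    rw [Finset.sum_powerset_insert hi, ← Finset.sum_add_distrib, ih fun e => f (insert i e)]
    refine Finset.sum_congr rfl fun B hB => ?_
    rw [Dl_insert fun h => hi (Finset.mem_powerset.1 hB h)]
    abel

theorem Dl_mem (I : AddSubgroup A) {B : Finset ι} {f : Finset ι → A} (h : ∀ e ⊆ B, f e ∈ I) :
    Dl B f ∈ I := by
  unfold Dl
  exact I.sum_mem fun e he => I.zsmul_mem (h e (Finset.mem_powerset.1 he)) _

end gen

theorem Dl_apply (B : Finset ι) (f : Finset ι → I → O) (a : I) :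
    Dl B f a = Dl B fun e => f e a := by
  simp only [Dl, Finset.sum_apply, Pi.smul_apply]

theorem Dl_eq_sum_smul (B : Finset ι) (f : Finset ι → I → O) :
    Dl B f = ∑ e ∈ B.powerset, (-1 : O) ^ (B \ e).card • f e := by
  unfold Dl
  refine Finset.sum_congr rfl fun e _ => ?_
  rw [← Int.cast_smul_eq_zsmul O]
  simp

theorem Dl_eq_sum_res (B : Finset ι) (f : Finset ι → F2) :
    Dl B f = ∑ e ∈ B.powerset, res ((-1 : O) ^ (B \ e).card) * f e := by
  unfold Dl
  refine Finset.sum_congr rfl fun e _ => ?_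
  simp

theorem Dl_dvd {j : ℕ} {B : Finset ι} {f : Finset ι → O} (h : ∀ e ⊆ B, (2 : O) ^ j ∣ f e) :
    (2 : O) ^ j ∣ Dl B f := by
  unfold Dl
  refine Finset.dvd_sum fun e he => ?_
  rw [zsmul_eq_mul]
  exact (h e (Finset.mem_powerset.1 he)).mul_left _

theorem Dl_VD {j : ℕ} {B : Finset ι} {f : Finset ι → I → O} (h : ∀ e ⊆ B, VD j (f e)) :
    VD j (Dl B f) := by
  intro a
  rw [Dl_apply]
  exact Dl_dvd fun e he => h e he a

theorem dig_Dl {j : ℕ} {B : Finset ι} {f : Finset ι → O} (h : ∀ e ⊆ B, (2 : O) ^ j ∣ f e) :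
    dig j (Dl B f) = Dl B fun e => dig j (f e) := by
  unfold Dl
  rw [dig_sum]
  · refine Finset.sum_congr rfl fun e he => ?_
    rw [zsmul_eq_mul, zsmul_eq_mul, dig_mul_left _ (h e (Finset.mem_powerset.1 he)), map_intCast]
  · intro e he
    rw [zsmul_eq_mul]
    exact (h e (Finset.mem_powerset.1 he)).mul_left _

theorem cube_leib (U : Finset ι) : ∀ (a b : ℕ) (f g : Finset ι → O),
    (∀ B ⊆ U, (2 : O) ^ (a + B.card) ∣ Dl B f) → (∀ B ⊆ U, (2 : O) ^ (b + B.card) ∣ Dl B g) →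
    (2 : O) ^ (a + b + U.card) ∣ Dl U (fun e => f e * g e) ∧
      dig (a + b + U.card) (Dl U fun e => f e * g e) = ∑ C ∈ U.powerset,
        dig (a + C.card) (Dl C f) * dig (b + (U \ C).card) (Dl (U \ C) g) := by
  induction U using Finset.induction_on with
  | empty =>
    intro a b f g hf hg
    have h1 := hf ∅ subset_rfl
    have h2 := hg ∅ subset_rfl
    simp only [Dl_empty, Finset.card_empty, add_zero, Finset.powerset_empty, Finset.sum_singleton,
      Finset.sdiff_self] at h1 h2 ⊢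
    exact ⟨by rw [pow_add]; exact mul_dvd_mul h1 h2, dig_mul h1 h2⟩
  | insert i B hi ih =>
    intro a b f g hf hg
    have hδ : ∀ (f : Finset ι → O), ∀ C ⊆ B,
        Dl C (fun e => f (insert i e) - f e) = Dl (insert i C) f := fun f C hC => by
      rw [Dl_insert fun h => hi (hC h), Dl_sub]
    have hcard : ∀ C ⊆ B, (insert i C).card = C.card + 1 := fun C hC =>
      Finset.card_insert_of_notMem fun h => hi (hC h)
    have hδd : ∀ (a : ℕ) (f : Finset ι → O),
        (∀ C ⊆ insert i B, (2 : O) ^ (a + C.card) ∣ Dl C f) →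
        ∀ C ⊆ B, (2 : O) ^ (a + 1 + C.card) ∣ Dl C (fun e => f (insert i e) - f e) := by
      intro a f hf C hC
      have := hf (insert i C) (Finset.insert_subset_insert i hC)
      rw [hcard C hC] at this
      rw [hδ f C hC, add_assoc, add_comm 1]
      exact this
    have hf0 : ∀ C ⊆ B, (2 : O) ^ (a + C.card) ∣ Dl C f := fun C hC =>
      hf C (hC.trans (Finset.subset_insert i B))
    have hg0 : ∀ C ⊆ B, (2 : O) ^ (b + C.card) ∣ Dl C g := fun C hC =>
      hg C (hC.trans (Finset.subset_insert i B))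
    obtain ⟨d1, e1⟩ := ih (a + 1) b _ g (hδd a f hf) hg0
    obtain ⟨d2, e2⟩ := ih a (b + 1) f _ hf0 (hδd b g hg)
    obtain ⟨d3, -⟩ := ih (a + 1) (b + 1) _ _ (hδd a f hf) (hδd b g hg)
    have hE : Dl (insert i B) (fun e => f e * g e) =
        Dl B (fun e => f e * (g (insert i e) - g e)) +
          Dl B (fun e => (f (insert i e) - f e) * g e) +
          Dl B (fun e => (f (insert i e) - f e) * (g (insert i e) - g e)) := by
      rw [← hδ _ B subset_rfl, ← Dl_add, ← Dl_add]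
      exact Dl_congr fun e _ => by ring
    have n1 : a + 1 + b + B.card = a + b + (B.card + 1) := by omega
    have n2 : a + (b + 1) + B.card = a + b + (B.card + 1) := by omega
    have n3 : a + 1 + (b + 1) + B.card = a + b + (B.card + 1) + 1 := by omega
    rw [n1] at d1 e1
    rw [n2] at d2 e2
    rw [n3] at d3
    have d3' := (pow_dvd_pow (2 : O) (Nat.le_succ _)).trans d3
    rw [hE, hcard B subset_rfl]
    refine ⟨(d2.add d1).add d3', ?_⟩
    rw [dig_add (d2.add d1) d3', dig_add d2 d1, dig_of_dvd d3, add_zero, e1, e2,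
      Finset.sum_powerset_insert hi]
    congr 1
    · refine Finset.sum_congr rfl fun C hC => ?_
      have hC' := Finset.mem_powerset.1 hC
      rw [Finset.insert_sdiff_of_notMem _ fun h => hi (hC' h), hδ g _ Finset.sdiff_subset,
        hcard _ Finset.sdiff_subset, add_assoc b, add_comm 1]
    · refine Finset.sum_congr rfl fun C hC => ?_
      have hC' := Finset.mem_powerset.1 hC
      rw [Finset.insert_sdiff_insert, Finset.sdiff_insert_of_notMem hi, hδ f _ hC', hcard _ hC',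
        add_assoc a, add_comm 1]

theorem cube_prod_sg (b : ι → F2) (B : Finset ι) :
    (2 : O) ^ B.card ∣ ∏ i ∈ B, (sg (b i) - 1) ∧
      dig B.card (∏ i ∈ B, (sg (b i) - 1)) = ∏ i ∈ B, b i := by
  induction B using Finset.induction_on with
  | empty => simp
  | insert i B hi ih =>
    have h0 : sg (b i) - 1 = (2 : O) ^ 1 * -lft (b i) := by rw [sg_eq]; ring
    have h1 : (2 : O) ^ 1 ∣ sg (b i) - 1 := ⟨_, h0⟩
    rw [Finset.prod_insert hi, Finset.prod_insert hi, Finset.card_insert_of_notMem hi, add_comm]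
    exact ⟨by rw [pow_add]; exact mul_dvd_mul h1 ih.1,
      by rw [dig_mul h1 ih.1, ih.2, h0, dig_pow_mul, map_neg, res_lft, F2_neg]⟩

/-- graded functions on the cube with directions `U` -/
def Gr (U : Finset ι) (f : Finset ι → O) : Prop := ∀ B ⊆ U, (2 : O) ^ B.card ∣ Dl B f

/-- graded vector valued functions -/
def GrV (U : Finset ι) (f : Finset ι → I → O) : Prop := ∀ B ⊆ U, VD B.card (Dl B f)

variable {U : Finset ι}

theorem grV_iff {f : Finset ι → I → O} : GrV U f ↔ ∀ a, Gr U fun e => f e a := by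
  constructor
  · intro h a B hB
    rw [← Dl_apply]
    exact h B hB a
  · intro h B hB a
    rw [Dl_apply]
    exact h a B hB

theorem Gr.const (c : O) : Gr U fun _ => c := by
  intro B _
  rcases B.eq_empty_or_nonempty with rfl | hB
  · simp
  · rw [Dl_const hB]; exact dvd_zero _

theorem Gr.add {f g : Finset ι → O} (hf : Gr U f) (hg : Gr U g) : Gr U fun e => f e + g e := by
  intro B hB
  rw [Dl_add]
  exact (hf B hB).add (hg B hB)

theorem Gr.sub {f g : Finset ι → O} (hf : Gr U f) (hg : Gr U g) : Gr U fun e => f e - g e := by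
  intro B hB
  rw [Dl_sub]
  exact (hf B hB).sub (hg B hB)

theorem Gr.mul {f g : Finset ι → O} (hf : Gr U f) (hg : Gr U g) : Gr U fun e => f e * g e := by
  intro B hB
  have := (cube_leib B 0 0 f g (fun C hC => by simpa using hf C (hC.trans hB))
    (fun C hC => by simpa using hg C (hC.trans hB))).1
  simpa using this

theorem leibniz {f g : Finset ι → O} (hf : Gr U f) (hg : Gr U g) :
    dig U.card (Dl U fun e => f e * g e) =
      ∑ C ∈ U.powerset, dig C.card (Dl C f) * dig (U \ C).card (Dl (U \ C) g) := by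
  have := (cube_leib U 0 0 f g (fun C hC => by simpa using hf C hC)
    (fun C hC => by simpa using hg C hC)).2
  simpa using this

theorem Dl_sg (c : F2) (b : ι → F2) (B : Finset ι) :
    Dl B (fun e => sg (c + ∑ i ∈ e, b i)) = sg c * ∏ i ∈ B, (sg (b i) - 1) := by
  induction B using Finset.induction_on generalizing c with
  | empty => simp [Dl_empty]
  | insert i B hi ih =>
    rw [Dl_insert hi, Finset.prod_insert hi, ih c,
      Dl_congr (g := fun e => sg (c + b i + ∑ j ∈ e, b j)) fun e he => by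
        rw [Finset.sum_insert fun h => hi (he h), add_assoc], ih, sg_add]
    ring

theorem gr_sg (c : F2) (b : ι → F2) : Gr U fun e => sg (c + ∑ i ∈ e, b i) := by
  intro B _
  rw [Dl_sg]
  exact (cube_prod_sg b B).1.mul_left _

theorem dig_Dl_sg (c : F2) (b : ι → F2) (B : Finset ι) :
    dig B.card (Dl B fun e => sg (c + ∑ i ∈ e, b i)) = ∏ i ∈ B, b i := by
  rw [Dl_sg, dig_mul_left _ (cube_prod_sg b B).1, (cube_prod_sg b B).2, res_sg, one_mul]

theorem gr_ee {f g : Finset ι → V} (hf : GrV U f) (hg : GrV U g) :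
    Gr U fun e => ee (f e) (g e) := by
  rw [grV_iff] at hf hg
  exact ((hf 0).mul (hg 1)).sub ((hf 1).mul (hg 0))

theorem leibniz_ee {f g : Finset ι → V} (hf : GrV U f) (hg : GrV U g) :
    dig U.card (Dl U fun e => ee (f e) (g e)) = ∑ C ∈ U.powerset,
      ee (digV C.card (Dl C f)) (digV (U \ C).card (Dl (U \ C) g)) := by
  have hf' := grV_iff.1 hf
  have hg' := grV_iff.1 hg
  unfold ee
  rw [Dl_sub, dig_sub (((hf' 0).mul (hg' 1)) U subset_rfl)
    (((hf' 1).mul (hg' 0)) U subset_rfl), leibniz (hf' 0) (hg' 1),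
    leibniz (hf' 1) (hg' 0), ← Finset.sum_sub_distrib]
  refine Finset.sum_congr rfl fun C _ => ?_
  simp only [digV, Dl_apply]

theorem p0_Dl (B : Finset ι) (f : Finset ι → H → O) : p0 (Dl B f) = Dl B fun e => p0 (f e) := by
  funext a
  simp only [p0, Dl_apply]

theorem p1_Dl (B : Finset ι) (f : Finset ι → H → O) : p1 (Dl B f) = Dl B fun e => p1 (f e) := by
  funext a
  simp only [p1, Dl_apply]

theorem GrV.p0 {f : Finset ι → H → O} (hf : GrV U f) : GrV U fun e => p0 (f e) := fun B hB => by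
  rw [← p0_Dl]
  exact (hf B hB).p0

theorem GrV.p1 {f : Finset ι → H → O} (hf : GrV U f) : GrV U fun e => p1 (f e) := fun B hB => by
  rw [← p1_Dl]
  exact (hf B hB).p1

theorem GrV.mono {f : Finset ι → I → O} (hf : GrV U f) {B : Finset ι} (h : B ⊆ U) : GrV B f :=
  fun C hC => hf C (hC.trans h)

variable {W P : Type} [Group W] {T : Tame W P}

/-- the twist at the vertex `e` -/
def xe (x0 : W → F2) (β : ι → W → F2) (e : Finset ι) : W → F2 := fun g => x0 g + ∑ i ∈ e, β i g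

/-- leading digits of the differences of a family -/
def Th (ψ : Finset ι → W → I → O) (B : Finset ι) (g : W) : I → F2 := digV B.card (Dl B fun e => ψ e g)

/-- the operator by which `g` acts on families -/
def uop (β : ι → W → F2) (g : W) (a : Finset ι → I → F2) (B : Finset ι) : I → F2 :=
  ∑ C ∈ B.powerset, (∏ i ∈ C, β i g) • a (B \ C)

theorem cube_sum_zero {β : ι → W → F2} {g : W} {B : Finset ι} (h : ∀ i ∈ B, β i g = 0)
    (a : Finset ι → I → F2) : ∑ C ∈ B.powerset, (∏ i ∈ C, β i g) • a C = a ∅ := by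
  rw [Finset.sum_eq_single ∅]
  · simp
  · intro C hC hne
    obtain ⟨i, hi⟩ := Finset.nonempty_iff_ne_empty.2 hne
    rw [Finset.prod_eq_zero hi (by rw [h i (Finset.mem_powerset.1 hC hi)]), zero_smul]
  · simp

theorem uop_of_zero {β : ι → W → F2} {g : W} {B : Finset ι} (h : ∀ i ∈ B, β i g = 0)
    (a : Finset ι → I → F2) : uop β g a B = a B := by
  unfold uop
  rw [cube_sum_zero h fun C => a (B \ C), Finset.sdiff_empty]

theorem uop_single {β : ι → W → F2} {g : W} {B : Finset ι} {i : ι}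
    (h : ∀ j ∈ B, j ≠ i → β j g = 0) (a : Finset ι → I → F2) :
    uop β g a B = a B + if i ∈ B then β i g • a (B.erase i) else 0 := by
  split_ifs with hi
  · have h' : ∀ j ∈ B.erase i, β j g = 0 := fun j hj =>
      h j (Finset.mem_of_mem_erase hj) (Finset.ne_of_mem_erase hj)
    have h1 : uop β g a B = ∑ C ∈ (insert i (B.erase i)).powerset,
        (∏ j ∈ C, β j g) • a (B \ C) := by rw [Finset.insert_erase hi, uop]
    rw [h1, Finset.sum_powerset_insert (Finset.notMem_erase i B),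
      cube_sum_zero h' fun C => a (B \ C), Finset.sdiff_empty]
    have h2 : ∑ C ∈ (B.erase i).powerset, (∏ j ∈ insert i C, β j g) • a (B \ insert i C) =
        ∑ C ∈ (B.erase i).powerset, (∏ j ∈ C, β j g) • ((β i g) • a (B \ insert i C)) := by
      refine Finset.sum_congr rfl fun C hC => ?_
      rw [Finset.prod_insert fun hm => Finset.notMem_erase i B (Finset.mem_powerset.1 hC hm),
        mul_comm, mul_smul]
    rw [h2, cube_sum_zero h' fun C => (β i g) • a (B \ insert i C)]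
    simp only [insert_empty_eq, Finset.sdiff_singleton_eq_erase]
  · rw [add_zero]
    exact uop_of_zero (fun j hj => h j hj fun hji => hi (hji ▸ hj)) a

theorem uop_sub (β : ι → W → F2) (g : W) (a a' : Finset ι → I → F2) (B : Finset ι) :
    uop β g (fun C => a C - a' C) B = uop β g a B - uop β g a' B := by
  simp only [uop, smul_sub, Finset.sum_sub_distrib]

theorem uop_congr {β : ι → W → F2} {g : W} {B : Finset ι} {a a' : Finset ι → I → F2}
    (h : ∀ C ⊆ B, a C = a' C) : uop β g a B = uop β g a' B := by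
  unfold uop
  exact Finset.sum_congr rfl fun C _ => by rw [h _ Finset.sdiff_subset]

/-- unitriangularity -/
theorem uop_eq_top {β : ι → W → F2} {g : W} {B : Finset ι} {a : Finset ι → I → F2}
    (h : ∀ C ⊂ B, a C = 0) : uop β g a B = a B := by
  unfold uop
  rw [Finset.sum_eq_single ∅]
  · simp
  · intro C hC hne
    rw [h _ (Finset.sdiff_ssubset (Finset.mem_powerset.1 hC)
      (Finset.nonempty_iff_ne_empty.2 hne)), smul_zero]
  · simp

theorem uop_add (β : ι → W → F2) (g : W) (a a' : Finset ι → I → F2) (B : Finset ι) :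
    uop β g (fun C => a C + a' C) B = uop β g a B + uop β g a' B := by
  simp only [uop, smul_add, Finset.sum_add_distrib]

theorem uop_map {I' : Type} (φ : (I → F2) →ₗ[F2] (I' → F2)) (β : ι → W → F2) (g : W)
    (a : Finset ι → I → F2) (B : Finset ι) : uop β g (fun C => φ (a C)) B = φ (uop β g a B) := by
  simp only [uop, map_sum, map_smul]

theorem p0_uop (β : ι → W → F2) (g : W) (a : Finset ι → H → F2) (B : Finset ι) :
    p0 (uop β g a B) = uop β g (fun C => p0 (a C)) B := by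
  funext i
  simp only [uop, p0, Finset.sum_apply, Pi.smul_apply]

theorem p1_uop (β : ι → W → F2) (g : W) (a : Finset ι → H → F2) (B : Finset ι) :
    p1 (uop β g a B) = uop β g (fun C => p1 (a C)) B := by
  funext i
  simp only [uop, p1, Finset.sum_apply, Pi.smul_apply]

theorem cube_uop_empty (β : ι → W → F2) (g : W) (a : Finset ι → I → F2) :
    uop β g a ∅ = a ∅ := uop_of_zero (fun _ hi => absurd hi (Finset.notMem_empty _)) a

theorem cube_uop_smul (β : ι → W → F2) (g : W) (c : F2) (a : Finset ι → I → F2) (B : Finset ι) :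
    uop β g (fun C => c • a C) B = c • uop β g a B := by
  simp only [uop, Finset.smul_sum, smul_comm c]

theorem cube_uop_insert (β : ι → W → F2) (g : W) (a : Finset ι → I → F2) {i : ι} {B : Finset ι}
    (hi : i ∉ B) :
    uop β g a (insert i B) = uop β g (fun C => a (insert i C)) B + β i g • uop β g a B := by
  unfold uop
  rw [Finset.sum_powerset_insert hi, Finset.smul_sum]
  refine congrArg₂ (· + ·) (Finset.sum_congr rfl fun C hC => ?_)
    (Finset.sum_congr rfl fun C hC => ?_)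
  · rw [Finset.insert_sdiff_of_notMem _ fun h => hi (Finset.mem_powerset.1 hC h)]
  · rw [Finset.insert_sdiff_insert, Finset.sdiff_insert_of_notMem hi,
      Finset.prod_insert fun h => hi (Finset.mem_powerset.1 hC h), mul_smul]

/-- multiplication by `∏ (1 + β i g • ε i)` in the algebra with `ε i ^ 2 = 0` is multiplicative -/
theorem uop_mul {β : ι → W → F2} {g h k : W} (hβ : ∀ i, β i k = β i g + β i h)
    (a : Finset ι → I → F2) (B : Finset ι) :
    uop β k a B = uop β g (fun C => uop β h a C) B := by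
  induction B using Finset.induction_on generalizing a with
  | empty => simp only [cube_uop_empty]
  | insert i B hi ih =>
    rw [cube_uop_insert β k a hi, cube_uop_insert β g _ hi, ih a, ih fun C => a (insert i C),
      uop_congr (a := fun C => uop β h a (insert i C))
        fun C hC => cube_uop_insert β h a fun hm => hi (hC hm), uop_add, cube_uop_smul, hβ,
      add_smul]
    abel

/-- the pairing of families is invariant, since `(1 + β ε) ^ 2 = 1` -/
theorem uop_pair (β : ι → W → F2) (g : W) (a b : Finset ι → Vb) (U : Finset ι) :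
    ∑ B ∈ U.powerset, ee (uop β g a B) (uop β g b (U \ B)) =
      ∑ B ∈ U.powerset, ee (a B) (b (U \ B)) := by
  induction U using Finset.induction_on generalizing a b with
  | empty => simp [cube_uop_empty]
  | insert i U hi ih =>
    have h1 : ∀ B ∈ U.powerset, insert i U \ B = insert i (U \ B) := fun B hB =>
      Finset.insert_sdiff_of_notMem _ fun h => hi (Finset.mem_powerset.1 hB h)
    have h2 : ∀ B : Finset ι, insert i U \ insert i B = U \ B := fun B => by
      rw [Finset.insert_sdiff_insert, Finset.sdiff_insert_of_notMem hi]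
    have h3 : ∑ B ∈ U.powerset, ee (a B) (b (insert i U \ B)) =
        ∑ B ∈ U.powerset, ee (uop β g a B) (uop β g (fun C => b (insert i C)) (U \ B)) := by
      rw [ih]
      exact Finset.sum_congr rfl fun B hB => by rw [h1 B hB]
    have h4 : ∑ B ∈ U.powerset, ee (a (insert i B)) (b (insert i U \ insert i B)) =
        ∑ B ∈ U.powerset, ee (uop β g (fun C => a (insert i C)) B) (uop β g b (U \ B)) := by
      rw [ih]
      exact Finset.sum_congr rfl fun B _ => by rw [h2 B]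
    rw [Finset.sum_powerset_insert hi, Finset.sum_powerset_insert hi, h3, h4,
      ← Finset.sum_add_distrib, ← Finset.sum_add_distrib]
    refine Finset.sum_congr rfl fun B hB => ?_
    rw [h1 B hB, h2 B, cube_uop_insert β g b fun h => hi (Finset.mem_sdiff.1 h).1,
      cube_uop_insert β g a fun h => hi (Finset.mem_powerset.1 hB h), ee_add_left, ee_add_right,
      ee_smul_left, ee_smul_right]
    linear_combination β i g * ee (uop β g a B) (uop β g b (U \ B)) * F2_two

theorem xe_hom {x0 : W → F2} {β : ι → W → F2} (hx : T.IsHom x0) (hβ : ∀ i, T.IsHom (β i))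
    (e : Finset ι) : T.IsHom (xe x0 β e) := by
  exact Tame.hom_add hx (Tame.hom_sum e fun i _ => hβ i)

namespace Lat

variable [Fintype I] [DecidableEq I]

/-- the cocycle relation of a governing family -/
def URel (R : Lat T I) (β : ι → W → F2) (U : Finset ι) (Θ : Finset ι → W → I → F2) : Prop :=
  ∀ B ⊆ U, ∀ g h, Θ B (g * h) = Θ B g + (R.rb g).mulVec (uop β g (fun C => Θ C h) B)

variable {R : Lat T I} {x0 : W → F2} {β : ι → W → F2}

theorem URel.add {Θ Θ' : Finset ι → W → I → F2} (h : R.URel β U Θ) (h' : R.URel β U Θ') :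
    R.URel β U fun B g => Θ B g + Θ' B g := by
  intro B hB g g'
  simp only
  rw [h B hB, h' B hB, uop_add, Matrix.mulVec_add]
  abel

theorem URel.mono {Θ : Finset ι → W → I → F2} (h : R.URel β U Θ) {B : Finset ι} (hB : B ⊆ U) :
    R.URel β B Θ := fun C hC => h C (hC.trans hB)

theorem URel.congr {Θ Θ' : Finset ι → W → I → F2} (h : R.URel β U Θ)
    (e : ∀ B ⊆ U, ∀ g, Θ B g = Θ' B g) : R.URel β U Θ' := fun B hB g k => by
  rw [← e B hB, ← e B hB, h B hB, uop_congr fun C hC => e C (hC.trans hB) k]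

theorem URel.one {Θ : Finset ι → W → I → F2} (hβ : ∀ i, T.IsHom (β i)) (h : R.URel β U Θ) :
    ∀ B ⊆ U, Θ B 1 = 0 := fun B hB => by
  have := h B hB 1 1
  rw [mul_one, rb_one, Matrix.one_mulVec, uop_of_zero fun i _ => Tame.hom_one (hβ i)] at this
  simpa using this

/-- on a local group where the characters vanish the members are local cocycles -/
theorem URel.lz {Θ : Finset ι → W → I → F2} (h : R.URel β U Θ) {B : Finset ι} (hB : B ⊆ U)
    (hs : T.Sm (Θ B)) {v : P} (hv : ∀ i ∈ B, ∀ g ∈ T.D v, β i g = 0) : R.LZ v (Θ B) :=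
  ⟨fun g hg k _ => by rw [h B hB, uop_of_zero fun i hi => hv i hi g hg], Tame.sm_rel hs v⟩

theorem cube_Dl_rho (B : Finset ι) (f : Finset ι → I → O) (g : W) :
    Dl B (fun e => (R.ρ g).mulVec (f e)) = (R.ρ g).mulVec (Dl B f) :=
  Dl_map (R.ρ g).mulVecLin.toAddMonoidHom B f

theorem cube_grV_rho {f : Finset ι → I → O} (hf : GrV U f) (g : W) :
    GrV U fun e => (R.ρ g).mulVec (f e) := by
  intro B hB
  rw [cube_Dl_rho]
  exact (hf B hB).mulVec _

theorem grV_act {f : Finset ι → I → O} (hf : GrV U f) (g : W) :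
    GrV U fun e => R.act (xe x0 β e) g (f e) := by
  rw [grV_iff]
  intro a
  exact (gr_sg (x0 g) fun i => β i g).mul (grV_iff.1 (cube_grV_rho hf g) a)

theorem digV_Dl_act {f : Finset ι → I → O} (hf : GrV U f) (g : W) :
    digV U.card (Dl U fun e => R.act (xe x0 β e) g (f e)) =
      (R.rb g).mulVec (uop β g (fun C => digV C.card (Dl C f)) U) := by
  rw [← Matrix.mulVecLin_apply, ← uop_map]
  funext a
  have h1 := leibniz (gr_sg (U := U) (x0 g) fun i => β i g)
    (grV_iff.1 (cube_grV_rho (R := R) hf g) a)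
  rw [digV, Dl_apply]
  refine h1.trans ?_
  rw [uop, Finset.sum_apply]
  refine Finset.sum_congr rfl fun C _ => ?_
  rw [dig_Dl_sg, Pi.smul_apply, smul_eq_mul, ← Dl_apply, cube_Dl_rho]
  congr 1
  have h2 := digV_act (R := R) (x := 0) (hf (U \ C) Finset.sdiff_subset) g
  simp only [act, Pi.zero_apply, sg_zero, one_smul] at h2
  exact congrFun h2 a

/-- the leading digit of the cocycle defect of a graded family -/
theorem defect {ψ : Finset ι → W → I → O} (hψ : ∀ g, GrV U fun e => ψ e g) (g h : W) :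
    VD U.card (Dl U fun e => ψ e g + R.act (xe x0 β e) g (ψ e h) - ψ e (g * h)) ∧
    digV U.card (Dl U fun e => ψ e g + R.act (xe x0 β e) g (ψ e h) - ψ e (g * h)) =
      Th ψ U g + (R.rb g).mulVec (uop β g (fun C => Th ψ C h) U) - Th ψ U (g * h) := by
  have h1 := hψ g U subset_rfl
  have h2 := grV_act (R := R) (x0 := x0) (β := β) (hψ h) g U subset_rfl
  have h3 := hψ (g * h) U subset_rfl
  rw [Dl_sub, Dl_add]
  refine ⟨(h1.add h2).sub h3, ?_⟩
  rw [digV_sub (h1.add h2) h3, digV_add h1 h2, digV_Dl_act (hψ h)]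
  rfl

theorem urel_of_coc {j : ℕ} (hj : U.card < j) {ψ : Finset ι → W → I → O}
    (hψ : ∀ g, GrV U fun e => ψ e g) (hc : ∀ e ⊆ U, R.Coc (xe x0 β e) j (ψ e)) :
    R.URel β U (Th ψ) := by
  intro B hB g h
  have h1 := defect (R := R) (x0 := x0) (β := β) (U := B) (ψ := ψ)
    (fun g C hC => hψ g C (hC.trans hB)) g h
  have h2 : VD (B.card + 1) (Dl B fun e => ψ e g + R.act (xe x0 β e) g (ψ e h) - ψ e (g * h)) :=
    (Dl_VD fun e he => (hc e (he.trans hB)).2 g h).mono
      (Nat.succ_le_of_lt (lt_of_le_of_lt (Finset.card_le_card hB) hj))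
  have h3 := (digV_eq_zero_iff h1.1).2 h2
  rw [h1.2] at h3
  exact (sub_eq_zero.1 h3).symm

theorem sm_Th {j : ℕ} (hj : U.card < j) {ψ : Finset ι → W → I → O}
    (hc : ∀ e ⊆ U, R.Coc (xe x0 β e) j (ψ e)) : T.Sm (Th ψ U) := by
  obtain ⟨U', hU', h⟩ := Tame.exists_adm_le (T := T) U.powerset
    (fun e U' => ∀ g, ∀ u ∈ U', VD j (ψ e (g * u) - ψ e g))
    (fun e U1 U2 h1 h2 g u hu => h1 g u (h2 hu))
    fun e he => (hc e (Finset.mem_powerset.1 he)).1
  refine ⟨U', hU', fun g u hu => ?_⟩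
  unfold Th
  refine digV_congr ?_
  rw [← Dl_sub]
  exact (Dl_VD fun e he => h e (Finset.mem_powerset.2 he) g u hu).mono hj

end Lat

namespace Rep

variable {R : Rep T} {lam : O} {β : ι → W → F2} {Θ : Finset ι → W → H → F2}

theorem urel_p0 (h : (R.hat lam).URel β U Θ) : R.URel β U fun B g => p0 (Θ B g) :=
  fun B hB g k => by
    beta_reduce
    rw [h B hB, ← p0_uop, ← p0_rb (lam := lam)]
    rfl

theorem urel_p1 (h : (R.hat lam).URel β U Θ) : R.URel β U fun B g => p1 (Θ B g) :=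
  fun B hB g k => by
    beta_reduce
    rw [h B hB, ← p1_uop, ← p1_rb (lam := lam)]
    rfl

end Rep

end

end Pool.Agent.Quad
end

-- merged part: Pool.Agent.Work.MP_60d5ce_nt.Qt.DnA
section
/-!
# Averages over the cosets of the geometric group: definitions, controlled functions  (task QT DnA)

Hints.
* `av_eq`: for admissible `U` (normal in `W`) the maps `c ↦ z * c` and `c ↦ c * z` (`z` of degree zero)
  permute `G0 / U`; this gives independence of the base point and shift invariance for a fixed `U`.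
  For two groups `U1`, `U2` compute `∑ c1, ∑ c2, f (g0 * c1.out * c2.out)` in the two orders.
  The quotient is finite by `adm_index`; the other `av_*` lemmas follow with a common `U`
  (`adm_inf`, `exists_adm_le`).
* `cl_of_fin`: `U = {u | deg u = 0 ∧ F u = F 1}` is a normal subgroup, admissible by `adm_mono`, and
  `F` induces an injection on `G0 / U` (compare `cheb_zeros` in `Sm/Comm.lean`).
  `Cl.pair`: the index of an intersection is at most the product (`Subgroup.relIndex_inf_le`).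
* `cl_z1`: `F g = (rb g, w g)`; `cl_urel`: `F g = (rb g, β i g, Θ B g)` (strong induction on `B`, `uop_eq_top`).
* `pr_upper`: `T.cheb` with `J = G0 / U`, `z = out`, `θ = dens φ e` (`av_eq` with base point `g`).
  `pr_lower`: apply `T.cheb` to the complement and use `pnt` (compare `Sm/Comm.lean`); if the density
  is not zero it is at least `1 / N` (`le_av`).
* `dens_sym`: the family `z c' = ∏ τ a ^ c' a` (`exists_chi`), `J = A' → F2`: for each `g` exactly one
  `c'` gives the right symbols, and `φ (g * z) = φ g`.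
* `exists_small`: `q ≥ 4` and `e` large.
-/

namespace Pool.Agent.Quad

open scoped Classical

noncomputable section

variable {W P : Type} [Group W]

/-- the indicator of a proposition -/
def ind (p : Prop) : ℝ := if p then 1 else 0

/-- a bound for the indices -/
def NN (n : ℕ) : ℕ := 2 ^ (32 * (n + 1))

theorem NN_mono {m n : ℕ} (h : m ≤ n) : NN m ≤ NN n :=
  Nat.pow_le_pow_right (by norm_num) (by omega)

theorem NN_pos (n : ℕ) : 0 < NN n := Nat.pow_pos (by norm_num)

namespace Tame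

variable (T : Tame W P)

/-- the error terms are small compared with the main term -/
def Small (η : ℝ) (N c e : ℕ) : Prop :=
  (N : ℝ) * (T.err N c e + 2 * (T.q : ℝ) ^ ((e + 1) / 2) + c) ≤ η * (T.q : ℝ) ^ e

/-- functions invariant under an admissible group of index at most `N` that contains the inertia
generators outside `A` -/
def Cl {α : Type*} (A : Finset P) (N : ℕ) (f : W → α) : Prop :=
  ∃ U, T.Adm U ∧ U.relIndex T.G0 ≤ N ∧ (∀ v ∉ A, T.τ v ∈ U) ∧ ∀ g, ∀ u ∈ U, f (g * u) = f g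

/-- the average of a smooth function over the elements of degree `e` -/
def av (f : W → ℝ) (e : ℕ) : ℝ :=
  if h : T.Sm f then
    (∑ᶠ c : T.G0 ⧸ h.choose.subgroupOf T.G0, f (T.σ T.inf ^ e * c.out.1)) / h.choose.relIndex T.G0
  else 0

/-- the density of a condition among the elements of degree `e` -/
def dens (φ : W → Prop) (e : ℕ) : ℝ := T.av (fun g => ind (φ g)) e

/-- primes of degree `e` outside `A` whose Frobenius satisfies `φ` -/
def Pr (A : Finset P) (φ : W → Prop) (e : ℕ) : Set P := {v | T.dg v = e ∧ v ∉ A ∧ φ (T.σ v)}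

/-- the normal closure of the inertia generators outside `A` -/
def NC (A : Finset P) : Subgroup W := Subgroup.normalClosure {g | ∃ v ∉ A, g = T.τ v}

variable {T}

theorem Small.mono {η η' : ℝ} {N N' c c' e : ℕ} (h : T.Small η N c e) (h1 : η ≤ η') (h2 : N' ≤ N)
    (h3 : c' ≤ c) : T.Small η' N' c' e := by
  unfold Small Pre.err at *
  refine le_trans ?_ (h.trans (mul_le_mul_of_nonneg_right h1 (by positivity)))
  gcongr

theorem Small.nonneg {η : ℝ} {N c e : ℕ} (h : T.Small η N c e) : 0 ≤ η := by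
  have hq : (0 : ℝ) < T.q := by exact_mod_cast lt_of_lt_of_le (by norm_num) T.q_ge
  refine nonneg_of_mul_nonneg_left (le_trans ?_ h) (pow_pos hq e)
  unfold Pre.err
  positivity

theorem exists_small {η : ℝ} (hη : 0 < η) (N c : ℕ) : ∃ e, 0 < e ∧ T.Small η N c e := by
  have hq : (1 : ℝ) < T.q := by exact_mod_cast lt_of_lt_of_le (by norm_num) T.q_ge
  obtain ⟨m, hm⟩ := pow_unbounded_of_one_lt (N * (18 * (N : ℝ) ^ 2 * (c + 1) + 2 + c) / η) hq
  have h1 : (1 : ℝ) ≤ T.q ^ (m + 1) := one_le_pow₀ hq.le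
  have h2 := (div_le_iff₀ hη).1 (hm.le.trans (pow_le_pow_right₀ hq.le m.le_succ))
  refine ⟨2 * (m + 1), by omega, ?_⟩
  unfold Small Pre.err
  rw [show (2 * (m + 1) + 1) / 2 = m + 1 by omega, two_mul (m + 1), pow_add _ (m + 1)]
  calc _ ≤ N * (18 * (N : ℝ) ^ 2 * (c + 1) * T.q ^ (m + 1) + 2 * T.q ^ (m + 1) +
        c * T.q ^ (m + 1)) := by
        gcongr
        exact le_mul_of_one_le_right (Nat.cast_nonneg _) h1
    _ = N * (18 * (N : ℝ) ^ 2 * (c + 1) + 2 + c) * T.q ^ (m + 1) := by ring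
    _ ≤ T.q ^ (m + 1) * η * T.q ^ (m + 1) := by gcongr
    _ = _ := by ring

/-! ### controlled functions -/

section Cl

variable {α β γ : Type*} {A A' : Finset P} {N N' : ℕ}

theorem Cl.sm {f : W → α} (h : T.Cl A N f) : T.Sm f := by
  obtain ⟨U, hU, -, -, h⟩ := h
  exact ⟨U, hU, h⟩

theorem Cl.pos {f : W → α} (h : T.Cl A N f) : 0 < N := by
  obtain ⟨U, hU, h, -⟩ := h
  exact (Nat.pos_of_ne_zero (T.adm_index U hU)).trans_le h

theorem Cl.mono {f : W → α} (h : T.Cl A N f) (hA : A ⊆ A') (hN : N ≤ N') : T.Cl A' N' f := by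
  obtain ⟨U, hU, h1, h2, h3⟩ := h
  exact ⟨U, hU, h1.trans hN, fun v hv => h2 v fun k => hv (hA k), h3⟩

theorem Cl.comp {f : W → α} (h : T.Cl A N f) (φ : α → β) : T.Cl A N fun g => φ (f g) := by
  obtain ⟨U, hU, h1, h2, h3⟩ := h
  exact ⟨U, hU, h1, h2, fun g u hu => congrArg φ (h3 g u hu)⟩

theorem Cl.comp₂ {f : W → α} {f' : W → β} (h : T.Cl A N f) (h' : T.Cl A N' f') (φ : α → β → γ) :
    T.Cl A (N * N') fun g => φ (f g) (f' g) := by
  obtain ⟨U, hU, h1, h2, h3⟩ := h
  obtain ⟨U', hU', k1, k2, k3⟩ := h'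
  exact ⟨U ⊓ U', T.adm_inf _ _ hU hU', Subgroup.relIndex_inf_le.trans (Nat.mul_le_mul h1 k1),
    fun v hv => ⟨h2 v hv, k2 v hv⟩, fun g u hu => congrArg₂ φ (h3 g u hu.1) (k3 g u hu.2)⟩

theorem cl_const (a : α) : T.Cl A 1 fun _ : W => a := by
  exact ⟨T.G0, T.adm_G0, (Subgroup.relIndex_self _).le, fun v _ => T.deg_τ v, fun _ _ _ => rfl⟩

theorem cl_pi {ι : Type*} [Fintype ι] {f : W → ι → α} (h : ∀ i, T.Cl A N fun g => f g i) :
    T.Cl A (N ^ Fintype.card ι) f := by
  have key : ∀ s : Finset ι, T.Cl A (N ^ s.card) fun g (i : s) => f g i := fun s => by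
    induction s using Finset.induction_on with
    | empty => exact (cl_const ()).mono subset_rfl le_rfl |>.imp fun U k =>
        ⟨k.1, k.2.1, k.2.2.1, fun _ _ _ => funext fun i => absurd i.2 (Finset.notMem_empty _)⟩
    | insert a s ha ih =>
      obtain ⟨U, hU, h1, h2, h3⟩ := ih.comp₂ (h a) Prod.mk
      refine ⟨U, hU, by rwa [Finset.card_insert_of_notMem ha, pow_succ], h2,
        fun g u hu => funext fun i => ?_⟩
      rcases Finset.mem_insert.1 i.2 with k | k
      · beta_reduce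
        rw [k]
        exact congrArg Prod.snd (h3 g u hu)
      · exact congrFun (congrArg Prod.fst (h3 g u hu)) ⟨i, k⟩
  exact (key Finset.univ).comp fun F i => F ⟨i, Finset.mem_univ i⟩

theorem Cl.nc {f : W → α} (h : T.Cl A N f) (g : W) {u : W} (hu : u ∈ T.NC A) :
    f (g * u) = f g := by
  obtain ⟨U, hU, -, h2, h3⟩ := h
  have := T.adm_normal U hU
  refine h3 g u (Subgroup.normalClosure_le_normal ?_ hu)
  rintro _ ⟨v, hv, rfl⟩
  exact h2 v hv

theorem cl_of_fin [Fintype α] {F : W → α} (hs : T.Sm F)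
    (h1 : ∀ g u, F u = F 1 → F (g * u) = F g) (h2 : ∀ g h, F g = F h → F (g⁻¹ * h) = F 1)
    (h3 : ∀ u h, F u = F 1 → F (h * u * h⁻¹) = F 1) (hτ : ∀ v ∉ A, F (T.τ v) = F 1) :
    T.Cl A (Fintype.card α) F := by
  let U : Subgroup W :=
    { carrier := {g | T.deg g = 0 ∧ F g = F 1}
      one_mem' := ⟨T.deg_one, rfl⟩
      mul_mem' := fun {g h} hg hh =>
        ⟨by rw [T.deg_mul, hg.1, hh.1, add_zero], (h1 g h hh.2).trans hg.2⟩
      inv_mem' := fun {g} hg =>
        ⟨by rw [T.deg_inv, hg.1, neg_zero], by simpa only [mul_one] using h2 g 1 hg.2⟩ }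
  have hUn : U.Normal := ⟨fun u hu g =>
    ⟨by rw [T.deg_mul, T.deg_mul, T.deg_inv, hu.1]; omega, h3 u g hu.2⟩⟩
  obtain ⟨U0, hU0, h0⟩ := hs
  refine ⟨U, T.adm_mono U0 U hU0 (fun u hu => ⟨T.adm_le U0 hU0 hu, by
    simpa only [one_mul] using h0 1 u hu⟩) hUn fun u hu => hu.1, ?_,
    fun v hv => ⟨T.deg_τ v, hτ v hv⟩, fun g u hu => h1 g u hu.2⟩
  rw [← Nat.card_eq_fintype_card]
  refine Nat.card_le_card_of_injective (fun c : T.G0 ⧸ U.subgroupOf T.G0 => F c.out.1)
    fun c c' h => ?_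
  rw [← c.out_eq', ← c'.out_eq']
  exact QuotientGroup.eq.2 ⟨(c.out⁻¹ * c'.out).2, h2 _ _ h⟩

theorem dna_cl [Fintype α] {F : W → α} (hs : T.Sm F)
    (hl : ∀ g h h', F h = F h' → F (g * h) = F (g * h'))
    (hr : ∀ u k, F u = F 1 → F (u * k) = F k) (hτ : ∀ v ∉ A, F (T.τ v) = F 1)
    (hN : Fintype.card α = N) : T.Cl A N F :=
  hN ▸ cl_of_fin hs (fun g u h => by rw [hl g u 1 h, mul_one])
    (fun g h k => by rw [← hl g⁻¹ g h k, inv_mul_cancel])
    (fun u h k => by rw [mul_assoc, hl h _ _ (hr u h⁻¹ k), mul_inv_cancel]) hτ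

theorem cl_hom {x : W → F2} (hx : T.IsHom x) (h : ∀ v ∉ A, x (T.τ v) = 0) : T.Cl A 2 x := by
  exact dna_cl hx.1 (fun g a b k => by rw [hx.2, hx.2, k])
    (fun u a k => by rw [hx.2, k, hom_one hx, zero_add])
    (fun v hv => (h v hv).trans (hom_one hx).symm) (ZMod.card 2)

theorem cl_chi (hA : T.inf ∈ A) {a : P} (ha : a ∈ A) : T.Cl A 2 (T.χ a) := by
  exact cl_hom (T.χ_hom a) fun v hv =>
    T.χ_ne a v (fun k => hv (k ▸ ha)) fun k => hv (k ▸ hA)

theorem cl_sym (hA : T.inf ∈ A) (hA' : A' ⊆ A) (c : P → F2) :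
    T.Cl A (2 ^ A'.card) fun g => ∀ a ∈ A', T.χ a g = c a := by
  have h := (cl_pi (f := fun g (a : A') => T.χ a g) fun a => cl_chi hA (hA' a.2)).comp
    fun F => ∀ a : A', F a = c a
  rw [Fintype.card_coe] at h
  simpa only [Subtype.forall] using h

theorem tau_mem_nc {v : P} (hv : v ∉ A) : T.τ v ∈ T.NC A := by
  exact Subgroup.subset_normalClosure ⟨v, hv, rfl⟩

theorem nc_normal : (T.NC A).Normal := by
  exact Subgroup.normalClosure_normal

theorem nc_deg {u : W} (hu : u ∈ T.NC A) : T.deg u = 0 := by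
  have := T.adm_normal _ T.adm_G0
  refine Subgroup.normalClosure_le_normal (N := T.G0) ?_ hu
  rintro _ ⟨v, -, rfl⟩
  exact T.deg_τ v

theorem nc_mono (h : A ⊆ A') : T.NC A' ≤ T.NC A := by
  exact Subgroup.normalClosure_mono fun g ⟨v, hv, k⟩ => ⟨v, fun k' => hv (h k'), k⟩

end Cl

end Tame

namespace Lat

variable {T : Tame W P} {I : Type} [Fintype I] [DecidableEq I] {L : Lat T I} {A : Finset P}

theorem dna_card : Fintype.card (Matrix I I F2) = 2 ^ (Fintype.card I * Fintype.card I) := by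
  refine (Fintype.card_congr Matrix.of.symm).trans ?_
  rw [Fintype.card_fun, Fintype.card_fun, ZMod.card, pow_mul]

theorem cl_rb (hA : L.S ⊆ A) : T.Cl A (2 ^ (Fintype.card I * Fintype.card I)) L.rb := by
  exact Tame.dna_cl rb_sm (fun g a b k => by rw [rb_mul, rb_mul, k])
    (fun u a k => by rw [rb_mul, k, rb_one, one_mul])
    (fun v hv => (rb_unr fun k => hv (hA k)).trans rb_one.symm) dna_card

theorem cl_z1 (hA : L.S ⊆ A) {w : W → I → F2} (hw : w ∈ L.Z1U A) :
    T.Cl A (2 ^ (Fintype.card I * Fintype.card I + Fintype.card I)) fun g => (L.rb g, w g) := by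
  refine Tame.dna_cl (Tame.sm_comp₂ rb_sm hw.1.1 Prod.mk) (fun g a b k => ?_) (fun u a k => ?_)
    (fun v hv => ?_) ?_
  · obtain ⟨k1, k2⟩ := Prod.mk.inj k
    rw [rb_mul, rb_mul, hw.1.2, hw.1.2, k1, k2]
  · obtain ⟨k1, k2⟩ := Prod.mk.inj k
    rw [rb_mul, hw.1.2, k1, k2, rb_one, hw.1.one, one_mul, zero_add, Matrix.one_mulVec]
  · rw [rb_unr fun k => hv (hA k), hw.2 v hv, rb_one, hw.1.one]
  · rw [Fintype.card_prod, dna_card, Fintype.card_fun, ZMod.card, pow_add]

theorem cl_urel {ι : Type} [Fintype ι] [DecidableEq ι] (hA : L.S ⊆ A) {β : ι → W → F2}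
    (hβ : ∀ i, T.IsHom (β i)) (hβA : ∀ i, ∀ v ∉ A, β i (T.τ v) = 0) {Θ : Finset ι → W → I → F2}
    (h : L.URel β Finset.univ Θ) (hs : ∀ B, T.Sm (Θ B)) (hu : ∀ B, ∀ v ∉ A, Θ B (T.τ v) = 0) :
    T.Cl A (2 ^ (Fintype.card I * Fintype.card I + Fintype.card ι +
      Fintype.card I * 2 ^ Fintype.card ι)) fun g B => Θ B g := by
  have h0 := fun B => h.one hβ B B.subset_univ
  refine (Tame.dna_cl (F := fun g => (L.rb g, fun i => β i g, fun B => Θ B g))
    (Tame.sm_comp₂ rb_sm (Tame.sm_comp₂ (Tame.sm_pi (f := fun g i => β i g) fun i => (hβ i).1)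
      (Tame.sm_pi (f := fun g B => Θ B g) hs) Prod.mk) Prod.mk) (fun g a b k => ?_)
    (fun u a k => ?_) (fun v hv => ?_) ?_).comp fun p => p.2.2
  · obtain ⟨k1, k2⟩ := Prod.mk.inj k
    obtain ⟨k2, k3⟩ := Prod.mk.inj k2
    refine Prod.ext ?_ (Prod.ext (funext fun i => ?_) (funext fun B => ?_)) <;> dsimp only
    · rw [rb_mul, rb_mul, k1]
    · rw [(hβ i).2, (hβ i).2, congrFun k2 i]
    · rw [h B B.subset_univ, h B B.subset_univ, k3]
  · obtain ⟨k1, k2⟩ := Prod.mk.inj k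
    obtain ⟨k2, k3⟩ := Prod.mk.inj k2
    have k4 : ∀ i, β i u = 0 := fun i => (congrFun k2 i).trans (Tame.hom_one (hβ i))
    refine Prod.ext ?_ (Prod.ext (funext fun i => ?_) (funext fun B => ?_)) <;> dsimp only
    · rw [rb_mul, k1, rb_one, one_mul]
    · rw [(hβ i).2, k4, zero_add]
    · rw [h B B.subset_univ, uop_of_zero fun i _ => k4 i, congrFun k3 B, h0, k1, rb_one, zero_add,
        Matrix.one_mulVec]
  · refine Prod.ext ?_ (Prod.ext (funext fun i => ?_) (funext fun B => ?_)) <;> dsimp only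
    · rw [rb_unr fun k => hv (hA k), rb_one]
    · rw [hβA i v hv, Tame.hom_one (hβ i)]
    · rw [hu B v hv, h0]
  · rw [Fintype.card_prod, Fintype.card_prod, dna_card, Fintype.card_fun, Fintype.card_fun,
      Fintype.card_fun, ZMod.card, Fintype.card_finset, pow_add, pow_add, pow_mul, pow_mul,
      mul_assoc]

theorem rb_nc (hA : L.S ⊆ A) {u : W} (hu : u ∈ T.NC A) : L.rb u = 1 := by
  simpa only [one_mul, rb_one] using (cl_rb hA).nc 1 hu

theorem z1_nc (hA : L.S ⊆ A) {w : W → I → F2} (hw : w ∈ L.Z1U A) {u : W} (hu : u ∈ T.NC A) :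
    w u = 0 := by
  simpa only [one_mul, hw.1.one] using congrArg Prod.snd ((cl_z1 hA hw).nc 1 hu)

end Lat

end

end Pool.Agent.Quad
end

-- merged part: Pool.Agent.Work.MP_60d5ce_nt.Qt.Dn
section
/-!
# Averages over the cosets of the geometric group, controlled functions, Chebotarev  (task QT Dn)

Hints.
* `av_eq`: for admissible `U` (normal in `W`) the maps `c ↦ z * c` and `c ↦ c * z` (`z` of degree zero)
  permute `G0 / U`; this gives independence of the base point and shift invariance for a fixed `U`.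
  For two groups `U1`, `U2` compute `∑ c1, ∑ c2, f (g0 * c1.out * c2.out)` in the two orders.
  The quotient is finite by `adm_index`; the other `av_*` lemmas follow with a common `U`
  (`adm_inf`, `exists_adm_le`).
* `cl_of_fin`: `U = {u | deg u = 0 ∧ F u = F 1}` is a normal subgroup, admissible by `adm_mono`, and
  `F` induces an injection on `G0 / U` (compare `cheb_zeros` in `Sm/Comm.lean`).
  `Cl.pair`: the index of an intersection is at most the product (`Subgroup.relIndex_inf_le`).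
* `cl_z1`: `F g = (rb g, w g)`; `cl_urel`: `F g = (rb g, β i g, Θ B g)` (strong induction on `B`, `uop_eq_top`).
* `pr_upper`: `T.cheb` with `J = G0 / U`, `z = out`, `θ = dens φ e` (`av_eq` with base point `g`).
  `pr_lower`: apply `T.cheb` to the complement and use `pnt` (compare `Sm/Comm.lean`); if the density
  is not zero it is at least `1 / N` (`le_av`).
* `dens_sym`: the family `z c' = ∏ τ a ^ c' a` (`exists_chi`), `J = A' → F2`: for each `g` exactly one
  `c'` gives the right symbols, and `φ (g * z) = φ g`.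
* `exists_small`: `q ≥ 4` and `e` large.
-/

namespace Pool.Agent.Quad

open scoped Classical

noncomputable section

variable {W P : Type} [Group W]

namespace Tame

variable {T : Tame W P}

/-! ### averages -/

section Av

variable {f f' : W → ℝ} {e : ℕ}

theorem Dn_deg_pow (e : ℕ) : T.deg (T.σ T.inf ^ e) = e := by
  induction e with
  | zero => simpa using T.deg_one
  | succ e ih => rw [pow_succ, T.deg_mul, ih, T.deg_σ, T.dg_inf]; simp

theorem Dn_fin {U : Subgroup W} (hU : T.Adm U) : Finite (T.G0 ⧸ U.subgroupOf T.G0) :=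
  Nat.finite_of_card_ne_zero (T.adm_index U hU)

theorem Dn_card (U : Subgroup W) [Fintype (T.G0 ⧸ U.subgroupOf T.G0)] :
    (Fintype.card (T.G0 ⧸ U.subgroupOf T.G0) : ℝ) = U.relIndex T.G0 :=
  congrArg _ Nat.card_eq_fintype_card.symm

theorem Dn_pos {U : Subgroup W} (hU : T.Adm U) : (0 : ℝ) < U.relIndex T.G0 :=
  Nat.cast_pos.2 (Nat.pos_of_ne_zero (T.adm_index U hU))

theorem Dn_out {U : Subgroup W} (hf : ∀ g, ∀ u ∈ U, f (g * u) = f g) (g : W) (x : T.G0) :
    f (g * (QuotientGroup.mk x : T.G0 ⧸ U.subgroupOf T.G0).out.1) = f (g * x.1) := by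
  obtain ⟨h, hh⟩ := QuotientGroup.mk_out_eq_mul (U.subgroupOf T.G0) x
  rw [hh, Subgroup.coe_mul, ← mul_assoc]
  exact hf _ _ h.2

theorem Dn_left {U : Subgroup W} (hU : T.Adm U) [Fintype (T.G0 ⧸ U.subgroupOf T.G0)]
    (hf : ∀ g, ∀ u ∈ U, f (g * u) = f g) (g : W) (z : T.G0) :
    ∑ c : T.G0 ⧸ U.subgroupOf T.G0, f (g * z.1 * c.out.1) =
      ∑ c : T.G0 ⧸ U.subgroupOf T.G0, f (g * c.out.1) := by
  have := T.adm_normal U hU
  refine Fintype.sum_equiv (Equiv.mulLeft (QuotientGroup.mk z)) _ _ fun c => ?_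
  have e : Equiv.mulLeft (QuotientGroup.mk z) c = QuotientGroup.mk (z * c.out) := by
    rw [QuotientGroup.mk_mul, QuotientGroup.out_eq']
    rfl
  rw [e, Dn_out hf, Subgroup.coe_mul, mul_assoc]

theorem Dn_right {U : Subgroup W} (hU : T.Adm U) [Fintype (T.G0 ⧸ U.subgroupOf T.G0)]
    (hf : ∀ g, ∀ u ∈ U, f (g * u) = f g) (g : W) (z : T.G0) :
    ∑ c : T.G0 ⧸ U.subgroupOf T.G0, f (g * c.out.1 * z.1) =
      ∑ c : T.G0 ⧸ U.subgroupOf T.G0, f (g * c.out.1) := by
  have := T.adm_normal U hU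
  refine Fintype.sum_equiv (Equiv.mulRight (QuotientGroup.mk z)) _ _ fun c => ?_
  have e : Equiv.mulRight (QuotientGroup.mk z) c = QuotientGroup.mk (c.out * z) := by
    rw [QuotientGroup.mk_mul, QuotientGroup.out_eq']
    rfl
  rw [e, Dn_out hf, Subgroup.coe_mul, mul_assoc]

theorem exists_deg (e : ℤ) : ∃ g, T.deg g = e := by
  have h : T.deg (T.σ T.inf) = 1 := by simpa using Dn_deg_pow (T := T) 1
  induction e using Int.induction_on with
  | zero => exact ⟨1, T.deg_one⟩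
  | succ i ih =>
    obtain ⟨g, hg⟩ := ih
    exact ⟨g * T.σ T.inf, by rw [T.deg_mul, hg, h]⟩
  | pred i ih =>
    obtain ⟨g, hg⟩ := ih
    exact ⟨g * (T.σ T.inf)⁻¹, by rw [T.deg_mul, hg, T.deg_inv, h, sub_eq_add_neg]⟩

theorem av_eq {U : Subgroup W} (hU : T.Adm U) (hf : ∀ g, ∀ u ∈ U, f (g * u) = f g) {g0 : W}
    (h0 : T.deg g0 = e) : T.av f e =
      (∑ᶠ c : T.G0 ⧸ U.subgroupOf T.G0, f (g0 * c.out.1)) / U.relIndex T.G0 := by
  have hs : T.Sm f := ⟨U, hU, hf⟩
  obtain ⟨hV, hf'⟩ := hs.choose_spec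
  rw [av, dif_pos hs]
  generalize hs.choose = V at hV hf'
  have := Dn_fin hU
  have := Dn_fin hV
  have := Fintype.ofFinite (T.G0 ⧸ U.subgroupOf T.G0)
  have := Fintype.ofFinite (T.G0 ⧸ V.subgroupOf T.G0)
  have hz : g0⁻¹ * T.σ T.inf ^ e ∈ T.G0 := by
    show T.deg _ = 0
    rw [T.deg_mul, T.deg_inv, h0, Dn_deg_pow, neg_add_cancel]
  have h1 := Dn_left hV hf' g0 ⟨_, hz⟩
  rw [mul_inv_cancel_left] at h1
  rw [finsum_eq_sum_of_fintype, finsum_eq_sum_of_fintype, h1,
    div_eq_div_iff (Dn_pos hV).ne' (Dn_pos hU).ne', ← Dn_card, ← Dn_card]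
  have h2 := Finset.sum_comm (s := Finset.univ) (t := Finset.univ)
    (f := fun (c : T.G0 ⧸ U.subgroupOf T.G0) (d : T.G0 ⧸ V.subgroupOf T.G0) =>
      f (g0 * c.out.1 * d.out.1))
  simp only [Dn_left hV hf', Dn_right hU hf, Finset.sum_const, Finset.card_univ,
    nsmul_eq_mul] at h2
  rw [mul_comm, h2, mul_comm]

theorem Dn_eq {U : Subgroup W} (hU : T.Adm U) [Fintype (T.G0 ⧸ U.subgroupOf T.G0)]
    (hf : ∀ g, ∀ u ∈ U, f (g * u) = f g) {g0 : W} (h0 : T.deg g0 = e) :
    T.av f e = (∑ c : T.G0 ⧸ U.subgroupOf T.G0, f (g0 * c.out.1)) / U.relIndex T.G0 := by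
  rw [av_eq hU hf h0, finsum_eq_sum_of_fintype]

theorem Dn_two (hf : T.Sm f) (hf' : T.Sm f') :
    ∃ U, T.Adm U ∧ (∀ g, ∀ u ∈ U, f (g * u) = f g) ∧ ∀ g, ∀ u ∈ U, f' (g * u) = f' g := by
  obtain ⟨U, hU, h1⟩ := hf
  obtain ⟨V, hV, h2⟩ := hf'
  exact ⟨U ⊓ V, T.adm_inf U V hU hV, fun g u hu => h1 g u hu.1, fun g u hu => h2 g u hu.2⟩

theorem av_const (c : ℝ) (e : ℕ) : T.av (fun _ => c) e = c := by
  have := Dn_fin T.adm_G0
  have := Fintype.ofFinite (T.G0 ⧸ T.G0.subgroupOf T.G0)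
  rw [Dn_eq T.adm_G0 (fun _ _ _ => rfl) (Dn_deg_pow e), Finset.sum_const, Finset.card_univ,
    nsmul_eq_mul, Dn_card, mul_div_cancel_left₀ _ (Dn_pos T.adm_G0).ne']

theorem av_mono (hf : T.Sm f) (hf' : T.Sm f') (h : ∀ g, T.deg g = e → f g ≤ f' g) :
    T.av f e ≤ T.av f' e := by
  obtain ⟨U, hU, h1, h2⟩ := Dn_two hf hf'
  have := Dn_fin hU
  have := Fintype.ofFinite (T.G0 ⧸ U.subgroupOf T.G0)
  rw [Dn_eq hU h1 (Dn_deg_pow e), Dn_eq hU h2 (Dn_deg_pow e)]
  refine div_le_div_of_nonneg_right (Finset.sum_le_sum fun c _ => h _ ?_) (Dn_pos hU).le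
  rw [T.deg_mul, Dn_deg_pow, show T.deg c.out.1 = 0 from c.out.2, add_zero]

theorem av_congr (hf : T.Sm f) (hf' : T.Sm f') (h : ∀ g, T.deg g = e → f g = f' g) :
    T.av f e = T.av f' e :=
  le_antisymm (av_mono hf hf' fun g hg => (h g hg).le) (av_mono hf' hf fun g hg => (h g hg).ge)

theorem av_nonneg (h : ∀ g, 0 ≤ f g) : 0 ≤ T.av f e := by
  unfold av
  split_ifs
  · exact div_nonneg (finsum_nonneg fun _ => h _) (Nat.cast_nonneg _)
  · exact le_rfl

theorem av_add (hf : T.Sm f) (hf' : T.Sm f') :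
    T.av (fun g => f g + f' g) e = T.av f e + T.av f' e := by
  obtain ⟨U, hU, h1, h2⟩ := Dn_two hf hf'
  have := Dn_fin hU
  have := Fintype.ofFinite (T.G0 ⧸ U.subgroupOf T.G0)
  rw [Dn_eq hU h1 (Dn_deg_pow e), Dn_eq hU h2 (Dn_deg_pow e),
    Dn_eq hU (fun g u hu => by rw [h1 g u hu, h2 g u hu]) (Dn_deg_pow e), Finset.sum_add_distrib,
    add_div]

theorem av_mul_left (hf : T.Sm f) (c : ℝ) : T.av (fun g => c * f g) e = c * T.av f e := by
  obtain ⟨U, hU, h1⟩ := hf
  have := Dn_fin hU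
  have := Fintype.ofFinite (T.G0 ⧸ U.subgroupOf T.G0)
  rw [Dn_eq hU h1 (Dn_deg_pow e), Dn_eq hU (fun g u hu => by rw [h1 g u hu]) (Dn_deg_pow e),
    ← Finset.mul_sum, mul_div_assoc]

theorem Dn_sm_sum {ι : Type*} (s : Finset ι) {F : ι → W → ℝ} (h : ∀ i ∈ s, T.Sm (F i)) :
    T.Sm fun g => ∑ i ∈ s, F i g := by
  obtain ⟨U, hU, h1⟩ := exists_adm_le s (fun i U => ∀ g, ∀ u ∈ U, F i (g * u) = F i g)
    (fun i U U' h1 h2 g u hu => h1 g u (h2 hu)) h
  exact ⟨U, hU, fun g u hu => Finset.sum_congr rfl fun i hi => h1 i hi g u hu⟩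

theorem av_sum {ι : Type*} (s : Finset ι) {F : ι → W → ℝ} (h : ∀ i ∈ s, T.Sm (F i)) :
    T.av (fun g => ∑ i ∈ s, F i g) e = ∑ i ∈ s, T.av (F i) e := by
  induction s using Finset.induction_on with
  | empty => simpa using av_const 0 e
  | insert i s hi ih =>
    have h1 := fun j hj => h j (Finset.mem_insert_of_mem hj)
    simp only [Finset.sum_insert hi]
    rw [av_add (h i (Finset.mem_insert_self _ _)) (Dn_sm_sum s h1), ih h1]

theorem sm_shift {α : Type*} {F : W → α} (hF : T.Sm F) (z : W) : T.Sm fun g => F (g * z) := by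
  obtain ⟨U, hU, h⟩ := hF
  exact ⟨U, hU, fun g u hu => mul_mid hU h g z hu⟩

theorem av_shift (hf : T.Sm f) {z : W} (hz : T.deg z = 0) :
    T.av (fun g => f (g * z)) e = T.av f e := by
  obtain ⟨U, hU, h1⟩ := hf
  have := Dn_fin hU
  have := Fintype.ofFinite (T.G0 ⧸ U.subgroupOf T.G0)
  rw [Dn_eq hU h1 (Dn_deg_pow e), Dn_eq hU (fun g u hu => mul_mid hU h1 g z hu) (Dn_deg_pow e),
    Dn_right hU h1 _ ⟨z, hz⟩]

theorem Dn_family (hf : T.Sm f) {J : Type} [Fintype J] (z : J → W) (hz : ∀ j, T.deg (z j) = 0) :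
    T.av (fun g => ∑ j, f (g * z j)) e = Fintype.card J * T.av f e := by
  rw [av_sum _ fun j _ => sm_shift hf (z j)]
  simp only [fun j => av_shift (e := e) hf (hz j), Finset.sum_const, Finset.card_univ,
    nsmul_eq_mul]

theorem av_family_le (hf : T.Sm f) (hf' : T.Sm f') {J : Type} [Fintype J] [Nonempty J] (z : J → W)
    (hz : ∀ j, T.deg (z j) = 0) {θ : ℝ}
    (h : ∀ g, T.deg g = e → ∑ j, f (g * z j) ≤ θ * Fintype.card J * f' g) :
    T.av f e ≤ θ * T.av f' e := by
  have h1 := av_mono (Dn_sm_sum _ fun j _ => sm_shift hf (z j)) (sm_comp hf' _) h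
  rw [Dn_family hf z hz, av_mul_left hf', mul_comm θ, mul_assoc] at h1
  exact le_of_mul_le_mul_left h1 (Nat.cast_pos.2 Fintype.card_pos)

theorem av_family_eq (hf : T.Sm f) (hf' : T.Sm f') {J : Type} [Fintype J] [Nonempty J] (z : J → W)
    (hz : ∀ j, T.deg (z j) = 0) {θ : ℝ}
    (h : ∀ g, T.deg g = e → ∑ j, f (g * z j) = θ * Fintype.card J * f' g) :
    T.av f e = θ * T.av f' e := by
  have h1 := av_congr (Dn_sm_sum _ fun j _ => sm_shift hf (z j)) (sm_comp hf' _) h
  rw [Dn_family hf z hz, av_mul_left hf', mul_comm θ, mul_assoc] at h1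
  exact mul_left_cancel₀ (Nat.cast_ne_zero.2 Fintype.card_ne_zero) h1

theorem le_av {A : Finset P} {N : ℕ} (hf : T.Cl A N f) (h0 : ∀ g, 0 ≤ f g) {g : W}
    (hg : T.deg g = e) : f g ≤ N * T.av f e := by
  have h3 : 0 ≤ T.av f e := av_nonneg h0
  obtain ⟨U, hU, h1, -, h2⟩ := hf
  have := Dn_fin hU
  have := Fintype.ofFinite (T.G0 ⧸ U.subgroupOf T.G0)
  refine le_trans ?_ (mul_le_mul_of_nonneg_right (Nat.cast_le.2 h1) h3)
  rw [Dn_eq hU h2 hg, mul_div_cancel₀ _ (Dn_pos hU).ne']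
  refine le_of_eq_of_le ?_ (Finset.single_le_sum
    (f := fun c : T.G0 ⧸ U.subgroupOf T.G0 => f (g * c.out.1)) (fun _ _ => h0 _)
    (Finset.mem_univ (QuotientGroup.mk 1)))
  rw [Dn_out h2, Subgroup.coe_one, mul_one]

end Av

/-! ### densities -/

section Dens

variable {φ φ' : W → Prop} {e N : ℕ} {A A' : Finset P}

theorem Dn_ind_nonneg (p : Prop) : 0 ≤ ind p := by
  unfold ind
  split_ifs <;> norm_num

theorem Dn_ind_le (p : Prop) : ind p ≤ 1 := by
  unfold ind
  split_ifs <;> norm_num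

theorem Dn_ncard {J : Type} [Fintype J] (p : J → Prop) :
    ∑ j, ind (p j) = (({j | p j} : Set J).ncard : ℝ) := by
  simp only [ind]
  rw [Finset.sum_boole, ← Set.ncard_coe_finset, Finset.coe_filter_univ]

theorem dens_nonneg : 0 ≤ T.dens φ e := av_nonneg fun _ => Dn_ind_nonneg _

theorem dens_le_one : T.dens φ e ≤ 1 := by
  by_cases h : T.Sm fun g => ind (φ g)
  · exact (av_mono h (sm_const 1) fun _ _ => Dn_ind_le _).trans_eq (av_const 1 e)
  · rw [dens, av, dif_neg h]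
    exact zero_le_one

theorem dens_true : T.dens (fun _ => True) e = 1 := (av_const _ e).trans (if_pos trivial)

theorem dens_false (h : ∀ g, T.deg g = e → ¬ φ g) : T.dens φ e = 0 := by
  by_cases hs : T.Sm fun g => ind (φ g)
  · exact (av_congr hs (sm_const 0) fun g hg => if_neg (h g hg)).trans (av_const 0 e)
  · rw [dens, av, dif_neg hs]

theorem dens_mono (hφ : T.Sm φ) (hφ' : T.Sm φ') (h : ∀ g, T.deg g = e → φ g → φ' g) :
    T.dens φ e ≤ T.dens φ' e :=
  av_mono (sm_comp hφ ind) (sm_comp hφ' ind) fun g hg => by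
    by_cases k : φ g
    · rw [show ind (φ' g) = 1 from if_pos (h g hg k)]
      exact Dn_ind_le _
    · rw [show ind (φ g) = 0 from if_neg k]
      exact Dn_ind_nonneg _

theorem dens_congr (hφ : T.Sm φ) (hφ' : T.Sm φ') (h : ∀ g, T.deg g = e → (φ g ↔ φ' g)) :
    T.dens φ e = T.dens φ' e :=
  av_congr (sm_comp hφ ind) (sm_comp hφ' ind) fun g hg => congrArg ind (propext (h g hg))

theorem le_dens (hφ : T.Cl A N φ) {g : W} (hg : T.deg g = e) (h : φ g) :
    1 ≤ N * T.dens φ e :=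
  le_of_eq_of_le (if_pos h).symm (le_av (hφ.comp ind) (fun _ => Dn_ind_nonneg _) hg)

theorem dens_family_le (hφ : T.Sm φ) (hφ' : T.Sm φ') {J : Type} [Fintype J] [Nonempty J]
    (z : J → W) (hz : ∀ j, T.deg (z j) = 0) {θ : ℝ} (hθ : 0 ≤ θ)
    (h1 : ∀ g, T.deg g = e → ∀ j, φ (g * z j) → φ' g)
    (h2 : ∀ g, T.deg g = e → φ' g →
      (({j | φ (g * z j)} : Set J).ncard : ℝ) ≤ θ * Fintype.card J) :
    T.dens φ e ≤ θ * T.dens φ' e :=
  av_family_le (sm_comp hφ ind) (sm_comp hφ' ind) z hz fun g hg => by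
    by_cases k : φ' g
    · rw [show ind (φ' g) = 1 from if_pos k, mul_one, Dn_ncard]
      exact h2 g hg k
    · rw [show ind (φ' g) = 0 from if_neg k, mul_zero]
      exact (Finset.sum_eq_zero fun j _ => if_neg fun k' => k (h1 g hg j k')).le

theorem exists_chi {A0 S : Finset P} (hA : T.inf ∈ A0) (hS : ∀ a ∈ S, a ∉ A0) (c : P → F2) :
    ∃ y ∈ T.NC A0, ∀ a, T.χ a y = if a ∈ S then c a else 0 := by
  induction S using Finset.induction_on with
  | empty => exact ⟨1, one_mem _, fun a => by simpa using hom_one (T.χ_hom a)⟩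
  | insert v S hv ih =>
    obtain ⟨y, h1, h2⟩ := ih fun a ha => hS a (Finset.mem_insert_of_mem ha)
    have h3 := hS v (Finset.mem_insert_self _ _)
    have h4 : v ≠ T.inf := fun e => h3 (e ▸ hA)
    refine ⟨y * T.τ v ^ (c v).val, mul_mem h1 (pow_mem (tau_mem_nc h3) _), fun a => ?_⟩
    rw [(T.χ_hom a).2, hom_pow (T.χ_hom a), h2]
    by_cases h : a = v
    · subst h
      simp [hv, T.χ_self a h4]
    · simp [h, T.χ_ne a v (Ne.symm h) h4]

theorem dens_sym (hA : T.inf ∈ A) (hφ : T.Cl A N φ) (hA' : ∀ a ∈ A', a ∉ A) (c : P → F2) :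
    T.dens (fun g => φ g ∧ ∀ a ∈ A', T.χ a g = c a) e = (2 : ℝ)⁻¹ ^ A'.card * T.dens φ e := by
  choose y hy hy' using fun c' : A' → F2 =>
    exists_chi (T := T) hA hA' fun a => if h : a ∈ A' then c' ⟨a, h⟩ else 0
  have hs : T.Sm fun g => ind (φ g ∧ ∀ a ∈ A', T.χ a g = c a) := by
    have := sm_comp₂ hφ.sm (sm_pi (f := fun g (a : A') => T.χ a g) fun a => (T.χ_hom a).1)
      fun p x => ind (p ∧ ∀ a : A', x a = c a)
    simpa only [Subtype.forall] using this
  refine av_family_eq hs (sm_comp hφ.sm ind) y (fun j => nc_deg (hy j)) fun g _ => ?_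
  have h1 : ∀ c' : A' → F2, (∀ a ∈ A', T.χ a (g * y c') = c a) ↔
      c' = fun a : A' => c a - T.χ a g := fun c' => by
    rw [funext_iff, Subtype.forall]
    refine forall₂_congr fun a ha => ?_
    rw [(T.χ_hom a).2, hy', if_pos ha, dif_pos ha, eq_sub_iff_add_eq']
  simp only [h1, fun j => hφ.nc g (hy j)]
  refine (Fintype.sum_eq_single (fun a : A' => c a - T.χ a g)
    fun _ h => if_neg fun k => h k.2).trans ?_
  simp [ind]

theorem pr_finite (A : Finset P) (φ : W → Prop) (e : ℕ) : (T.Pr A φ e).Finite :=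
  (T.dg_fin e).subset fun _ h => h.1

theorem Dn_cheb (hA : T.inf ∈ A) (hφ : T.Cl A N φ) (hc : ∀ g h, φ g → φ (h * g * h⁻¹))
    (he : 0 < e) : (e : ℝ) * (T.Pr A φ e).ncard ≤
      T.dens φ e * ((T.q : ℝ) ^ e + T.err N (∑ v ∈ A, T.dg v) e) := by
  obtain ⟨U, hU, h1, h2, h3⟩ := hφ
  have := Dn_fin hU
  have := Fintype.ofFinite (T.G0 ⧸ U.subgroupOf T.G0)
  refine T.cheb U hU N h1 A hA h2 {g | φ g} (fun g hg u hu => (h3 g u hu).mpr hg)
    (fun g hg h => hc g h hg) e he (T.G0 ⧸ U.subgroupOf T.G0) (fun c => c.out.1)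
    (fun c => c.out.2) _ fun g hg => le_of_eq ?_
  rw [dens, Dn_eq hU (fun g u hu => by rw [h3 g u hu]) hg, Dn_card,
    div_mul_cancel₀ _ (Dn_pos hU).ne', Dn_ncard]
  rfl

theorem Dn_err (N c e : ℕ) : 0 ≤ T.err N c e := by
  unfold Pre.err
  positivity

theorem pr_upper (hA : T.inf ∈ A) (hφ : T.Cl A N φ) (hc : ∀ g h, φ g → φ (h * g * h⁻¹))
    (he : 0 < e) {η : ℝ} (h : T.Small η N (∑ v ∈ A, T.dg v) e) :
    ((T.Pr A φ e).ncard : ℝ) ≤ (1 + η) * (T.dens φ e * ((T.q : ℝ) ^ e / e)) := by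
  have he' : (0 : ℝ) < e := by exact_mod_cast he
  refine le_of_mul_le_mul_left ((Dn_cheb hA hφ hc he).trans ?_) he'
  have h1 : (1 : ℝ) ≤ N := by exact_mod_cast hφ.pos
  have h2 := Dn_err (T := T) N (∑ v ∈ A, T.dg v) e
  have h3 : (0 : ℝ) ≤ 2 * (T.q : ℝ) ^ ((e + 1) / 2) + (∑ v ∈ A, T.dg v : ℕ) := by positivity
  have h4 := (le_mul_of_one_le_left (by linarith) h1).trans h
  rw [show (e : ℝ) * ((1 + η) * (T.dens φ e * ((T.q : ℝ) ^ e / e))) =
    T.dens φ e * ((T.q : ℝ) ^ e + η * (T.q : ℝ) ^ e) by field_simp]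
  exact mul_le_mul_of_nonneg_left (by linarith) dens_nonneg

theorem pr_lower (hA : T.inf ∈ A) (hφ : T.Cl A N φ) (hc : ∀ g h, φ g → φ (h * g * h⁻¹))
    (he : 0 < e) {η : ℝ} (h : T.Small η N (∑ v ∈ A, T.dg v) e) :
    (1 - η) * (T.dens φ e * ((T.q : ℝ) ^ e / e)) ≤ ((T.Pr A φ e).ncard : ℝ) := by
  by_cases hex : ∃ g, T.deg g = e ∧ φ g
  swap
  · rw [dens_false fun g hg k => hex ⟨g, hg, k⟩, zero_mul, mul_zero]
    exact Nat.cast_nonneg _
  obtain ⟨g, hg, hg'⟩ := hex
  have he' : (0 : ℝ) < e := by exact_mod_cast he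
  have h1 := le_dens hφ hg hg'
  have h2 := Dn_cheb hA (hφ.comp Not) (fun g h k k' => k (by simpa [mul_assoc] using hc _ h⁻¹ k')) he
  have h3 : T.dens φ e + T.dens (fun g => ¬ φ g) e = 1 := by
    rw [dens, dens, ← av_add (sm_comp hφ.sm ind) (sm_comp hφ.sm fun p => ind ¬ p),
      ← av_const (T := T) 1 e]
    refine congrArg (T.av · e) (funext fun g => ?_)
    by_cases k : φ g <;> simp [ind, k]
  have h4 : e * (A.filter fun v => T.dg v = e).card ≤ ∑ v ∈ A, T.dg v := by
    rw [mul_comm, ← smul_eq_mul]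
    exact (Finset.card_nsmul_le_sum _ _ _ fun v hv => (Finset.mem_filter.1 hv).2.ge).trans
      (Finset.sum_le_sum_of_subset (Finset.filter_subset _ _))
  have h5 : {v | T.dg v = e ∧ v ≠ T.inf}.ncard ≤ (T.Pr A φ e).ncard +
      (T.Pr A (fun g => ¬ φ g) e).ncard + (A.filter fun v => T.dg v = e).card := by
    rw [← Set.ncard_coe_finset]
    refine le_trans (Set.ncard_le_ncard (fun v hv => ?_)
      (((pr_finite A φ e).union (pr_finite A _ e)).union (Finset.finite_toSet _)))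
      ((Set.ncard_union_le _ _).trans (Nat.add_le_add_right (Set.ncard_union_le _ _) _))
    by_cases k : v ∈ A
    · exact Or.inr (Finset.mem_coe.2 (Finset.mem_filter.2 ⟨k, hv.1⟩))
    · exact Or.inl ((em (φ (T.σ v))).imp (fun k' => ⟨hv.1, k, k'⟩) fun k' => ⟨hv.1, k, k'⟩)
  have h4' : (e : ℝ) * (A.filter fun v => T.dg v = e).card ≤ (∑ v ∈ A, T.dg v : ℕ) := by
    exact_mod_cast h4
  have h5' : ({v | T.dg v = e ∧ v ≠ T.inf}.ncard : ℝ) ≤ (T.Pr A φ e).ncard +
      (T.Pr A (fun g => ¬ φ g) e).ncard + (A.filter fun v => T.dg v = e).card := by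
    exact_mod_cast h5
  have h6 := T.pnt e he
  have h7 := Dn_err (T := T) N (∑ v ∈ A, T.dg v) e
  have h8 : 0 ≤ T.dens φ e := dens_nonneg
  have h9 := mul_le_mul_of_nonneg_left h h8
  have h10 := mul_le_mul_of_nonneg_right h1 (show (0 : ℝ) ≤ T.err N (∑ v ∈ A, T.dg v) e +
    2 * (T.q : ℝ) ^ ((e + 1) / 2) + (∑ v ∈ A, T.dg v : ℕ) by positivity)
  refine le_of_mul_le_mul_left ?_ he'
  rw [show (e : ℝ) * ((1 - η) * (T.dens φ e * ((T.q : ℝ) ^ e / e))) =
    T.dens φ e * (T.q : ℝ) ^ e - T.dens φ e * (η * (T.q : ℝ) ^ e) by field_simp]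
  rw [eq_sub_of_add_eq' h3] at h2
  linarith [mul_le_mul_of_nonneg_left h5' he'.le, mul_nonneg h8 h7]

theorem exists_prime (hA : T.inf ∈ A) (hφ : T.Cl A N φ) (hc : ∀ g h, φ g → φ (h * g * h⁻¹))
    (h : ∀ e : ℕ, ∃ g, T.deg g = e ∧ φ g) : ∃ v ∉ A, φ (T.σ v) := by
  obtain ⟨e, he, hs⟩ := exists_small (T := T) one_half_pos N (∑ v ∈ A, T.dg v)
  obtain ⟨g, hg, hg'⟩ := h e
  have h1 : 0 < T.dens φ e := dens_nonneg.lt_of_ne fun k => by
    have := le_dens hφ hg hg'
    rw [← k, mul_zero] at this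
    exact not_lt.2 this one_pos
  have h2 : (0 : ℝ) < T.q := by exact_mod_cast (by have := T.q_ge; omega : 0 < T.q)
  have h3 : (0 : ℝ) < (T.Pr A φ e).ncard :=
    lt_of_lt_of_le (mul_pos (by norm_num) (by positivity)) (pr_lower hA hφ hc he hs)
  obtain ⟨v, hv⟩ := Set.nonempty_of_ncard_ne_zero (Nat.cast_pos.1 h3).ne'
  exact ⟨v, hv.2.1, hv.2.2⟩

end Dens

end Tame

end

end Pool.Agent.Quad
end

-- merged part: Pool.Agent.Work.MP_60d5ce_nt.Qt.Mark
section
/-!
# Marked primes  (task QT Dn)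

A marked prime is a prime `v` with a vector `n` modulo two.  Hints: `cnt g = #{n | Φ g n}` is a class
function (equivariance gives an injection, and `h⁻¹` the other one is not needed: only
`r ≤ cnt g → r ≤ cnt (h * g * h⁻¹)` is used); `card PrM = ∑ r ∈ Icc 1 (card), card (Pr (r ≤ cnt))` and
`∑ r, dens (r ≤ cnt) = av cnt = ∑ n, dens (Φ · n)` (`av_sum`).
-/

namespace Pool.Agent.Quad

open scoped Classical

noncomputable section

variable {W P : Type} [Group W]

/-- the number of marks -/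
def MarkCnt {α : Type} [Fintype α] (f : α → Prop) : ℕ := (Finset.univ.filter f).card

theorem Mark_sum {β : Type} (s : Finset β) (f : β → Prop) :
    ∑ n ∈ s, ind (f n) = (s.filter f).card := by
  simp only [ind, Finset.sum_boole]

theorem Mark_level {α : Type} [Fintype α] (f : α → Prop) :
    ∑ n, ind (f n) = ∑ r ∈ Finset.range (Fintype.card α), ind (r < MarkCnt f) := by
  have h1 : MarkCnt f ≤ Fintype.card α := Finset.card_le_univ _
  have h2 : ∑ r ∈ Finset.range (Fintype.card α), ind (r < MarkCnt f) =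
      ∑ r ∈ Finset.range (MarkCnt f), ind (r < MarkCnt f) := by
    refine (Finset.sum_subset (Finset.range_mono h1) fun r _ hr => ?_).symm
    exact if_neg fun h => hr (Finset.mem_range.2 h)
  have h3 : ∑ r ∈ Finset.range (MarkCnt f), ind (r < MarkCnt f) =
      ∑ r ∈ Finset.range (MarkCnt f), (1 : ℝ) :=
    Finset.sum_congr rfl fun r hr => if_pos (Finset.mem_range.1 hr)
  rw [h2, h3, Mark_sum, Finset.sum_const, Finset.card_range, nsmul_eq_mul, mul_one]
  rfl

namespace Tame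

variable (T : Tame W P) {α : Type} [Fintype α]

/-- the expected number of marks -/
def dM (Φ : W → α → Prop) (e : ℕ) : ℝ := ∑ n, T.dens (fun g => Φ g n) e

/-- marked primes -/
def PrM (A : Finset P) (Φ : W → α → Prop) (e : ℕ) : Set (P × α) :=
  {y | T.dg y.1 = e ∧ y.1 ∉ A ∧ Φ (T.σ y.1) y.2}

variable {T} {Φ : W → α → Prop} {A A' : Finset P} {N e : ℕ}

theorem prM_finite (A : Finset P) (Φ : W → α → Prop) (e : ℕ) : (T.PrM A Φ e).Finite := by
  exact ((T.dg_fin e).prod Set.finite_univ).subset fun y hy => ⟨hy.1, Set.mem_univ _⟩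

theorem Mark_pr (A : Finset P) (φ : W → Prop) (e : ℕ) : ((T.Pr A φ e).ncard : ℝ) =
    ∑ v ∈ (T.dg_fin e).toFinset \ A, ind (φ (T.σ v)) := by
  rw [Mark_sum, ← Set.ncard_coe_finset]
  refine congrArg (fun s : Set P => (s.ncard : ℝ)) (Set.ext fun v => ?_)
  simp [Pr, and_assoc]

theorem Mark_card (A : Finset P) (Φ : W → α → Prop) (e : ℕ) : ((T.PrM A Φ e).ncard : ℝ) =
    ∑ r ∈ Finset.range (Fintype.card α), ((T.Pr A (fun g => r < MarkCnt (Φ g)) e).ncard : ℝ) := by
  simp only [Mark_pr]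
  rw [Finset.sum_comm]
  simp only [← Mark_level]
  rw [← Finset.sum_product' (f := fun v n => ind (Φ (T.σ v) n)),
    Mark_sum _ fun y : P × α => Φ (T.σ y.1) y.2, ← Set.ncard_coe_finset]
  refine congrArg (fun s : Set (P × α) => (s.ncard : ℝ)) (Set.ext fun v => ?_)
  simp [PrM, and_assoc]

theorem Mark_dM (h : T.Sm Φ) : T.dM Φ e =
    ∑ r ∈ Finset.range (Fintype.card α), T.dens (fun g => r < MarkCnt (Φ g)) e := by
  simp only [dM, dens]
  rw [← av_sum _ fun n _ => sm_comp h fun f => ind (f n),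
    ← av_sum _ fun r _ => sm_comp h fun f => ind (r < MarkCnt f)]
  simp only [Mark_level]

theorem dM_nonneg : 0 ≤ T.dM Φ e := by
  exact Finset.sum_nonneg fun _ _ => dens_nonneg

theorem dM_pos (h : T.Sm Φ) {g : W} (hg : T.deg g = e) {n : α} (hn : Φ g n) : 0 < T.dM Φ e := by
  obtain ⟨U, hU, h1⟩ := h
  have h2 : T.Cl (T.fin U hU).toFinset (U.relIndex T.G0) fun g => Φ g n :=
    ⟨U, hU, le_rfl, fun v hv => by simpa using hv, fun g u hu => congrFun (h1 g u hu) n⟩
  have h3 := le_dens h2 hg hn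
  refine Finset.sum_pos' (fun _ _ => dens_nonneg) ⟨n, Finset.mem_univ _, ?_⟩
  refine lt_of_le_of_ne dens_nonneg fun h4 => ?_
  rw [← h4, mul_zero] at h3
  linarith

theorem dM_sym (hA : T.inf ∈ A) (h : T.Cl A N Φ) (hA' : ∀ a ∈ A', a ∉ A) (c : P → F2) :
    T.dM (fun g n => Φ g n ∧ ∀ a ∈ A', T.χ a g = c a) e = (2 : ℝ)⁻¹ ^ A'.card * T.dM Φ e := by
  rw [dM, dM, Finset.mul_sum]
  exact Finset.sum_congr rfl fun n _ => dens_sym hA (h.comp fun f => f n) hA' c

end Tame

namespace Lat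

variable {T : Tame W P} {I : Type} [Fintype I] [DecidableEq I] (L : Lat T I)

/-- controlled and equivariant conditions on marked elements -/
structure MP (A : Finset P) (N : ℕ) (Φ : W → (I → F2) → Prop) : Prop where
  cl : T.Cl A N Φ
  eqv : ∀ g n h, Φ g n → Φ (h * g * h⁻¹) ((L.rb h).mulVec n)

variable {L} {Φ Φ' : W → (I → F2) → Prop} {A A' : Finset P} {N N' e : ℕ}

theorem MP.mono (h : L.MP A N Φ) (hA : A ⊆ A') (hN : N ≤ N') : L.MP A' N' Φ :=
  ⟨h.cl.mono hA hN, h.eqv⟩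

theorem MP.and (h : L.MP A N Φ) (h' : L.MP A N' Φ') :
    L.MP A (N * N') fun g n => Φ g n ∧ Φ' g n := by
  exact ⟨h.cl.comp₂ h'.cl fun a b n => a n ∧ b n,
    fun g n k hk => ⟨h.eqv g n k hk.1, h'.eqv g n k hk.2⟩⟩

theorem MP.sym (hA : T.inf ∈ A) (h : L.MP A N Φ) (hA' : A' ⊆ A) (c : P → F2) :
    L.MP A (N * 2 ^ A'.card) fun g n => Φ g n ∧ ∀ a ∈ A', T.χ a g = c a := by
  refine ⟨h.cl.comp₂ (Tame.cl_sym hA hA' c) fun a b n => a n ∧ b,
    fun g n k hk => ⟨h.eqv g n k hk.1, fun a ha => ?_⟩⟩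
  rw [Tame.hom_conj (T.χ_hom a), hk.2 a ha]

theorem Mark_conj (hΦ : L.MP A N Φ) (r : ℕ) (g h : W) (hr : r < MarkCnt (Φ g)) :
    r < MarkCnt (Φ (h * g * h⁻¹)) := by
  refine hr.trans_le (Finset.card_le_card_of_injOn (fun n => (L.rb h).mulVec n)
    (fun n hn => ?_) fun n _ n' _ e => ?_)
  · simp only [Finset.coe_filter, Finset.mem_univ, true_and, Set.mem_ofPred_eq] at hn ⊢
    exact hΦ.eqv g n h hn
  · have e' : (L.rb h).mulVec n = (L.rb h).mulVec n' := e
    rw [← rb_inv_mulVec (R := L) h n, e', rb_inv_mulVec]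

theorem prM_upper (hA : T.inf ∈ A) (hΦ : L.MP A N Φ) (he : 0 < e) {η : ℝ}
    (h : T.Small η N (∑ v ∈ A, T.dg v) e) :
    ((T.PrM A Φ e).ncard : ℝ) ≤ (1 + η) * (T.dM Φ e * ((T.q : ℝ) ^ e / e)) := by
  rw [Tame.Mark_card, Tame.Mark_dM hΦ.cl.sm, Finset.sum_mul, Finset.mul_sum]
  exact Finset.sum_le_sum fun r _ =>
    Tame.pr_upper hA (hΦ.cl.comp fun f => r < MarkCnt f) (Mark_conj hΦ r) he h

theorem prM_lower (hA : T.inf ∈ A) (hΦ : L.MP A N Φ) (he : 0 < e) {η : ℝ}
    (h : T.Small η N (∑ v ∈ A, T.dg v) e) :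
    (1 - η) * (T.dM Φ e * ((T.q : ℝ) ^ e / e)) ≤ ((T.PrM A Φ e).ncard : ℝ) := by
  rw [Tame.Mark_card, Tame.Mark_dM hΦ.cl.sm, Finset.sum_mul, Finset.mul_sum]
  exact Finset.sum_le_sum fun r _ =>
    Tame.pr_lower hA (hΦ.cl.comp fun f => r < MarkCnt f) (Mark_conj hΦ r) he h

end Lat

end

end Pool.Agent.Quad
end

-- merged part: Pool.Agent.Work.MP_60d5ce_nt.Qt.Seq
section
/-!
# Sequential counting of marked primes with prescribed symbols  (task QT Seq)

Template `Sm/Seq.lean`.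
* `seq_upper`: induction on the number of fixed coordinates: let `s` be a set of indices closed under
  taking smaller rank; the restrictions of `𝒮` to `s` number at most `∏ i ∈ s, hi i` (`seq_fiber`,
  `Finset.induction_on_max_value`).
* `seq_step`: the set is `T.PrM (A0 ∪ image prev) (Mk ν ∧ symbols at image (prev.filter (adj ν))) (e ν)`;
  `MP.mono`, `MP.sym`, `dM_sym`, `prM_upper`, `prM_lower`, `chi_symm`, `Small.mono`.
-/

namespace Pool.Agent.Quad

open scoped Classical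

noncomputable section

/-- unary and binary constraints hold on `𝒜` -/
def ValidOn {𝒱 Pp : Type} (Un : 𝒱 → Pp → Prop) (Bi : 𝒱 → 𝒱 → Pp → Pp → Prop) (𝒜 : Finset 𝒱)
    (f : 𝒱 → Pp) : Prop :=
  (∀ ν ∈ 𝒜, Un ν (f ν)) ∧ ∀ ν ∈ 𝒜, ∀ μ ∈ 𝒜, ν ≠ μ → Bi ν μ (f ν) (f μ)

theorem seq_fiber {α β : Type} (S : Set α) (Tt : Set β) (hT : Tt.Finite) (π : α → β)
    (hπ : ∀ x ∈ S, π x ∈ Tt) (hfib : ∀ y ∈ Tt, {x | x ∈ S ∧ π x = y}.Finite) (lo hi : ℝ)
    (hb : ∀ y ∈ Tt, lo ≤ ({x | x ∈ S ∧ π x = y}.ncard : ℝ) ∧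
      ({x | x ∈ S ∧ π x = y}.ncard : ℝ) ≤ hi) :
    S.Finite ∧ lo * Tt.ncard ≤ (S.ncard : ℝ) ∧ (S.ncard : ℝ) ≤ hi * Tt.ncard := by
  have hS : S.Finite := by
    refine (hT.biUnion hfib).subset fun x hx => ?_
    exact Set.mem_biUnion (hπ x hx) ⟨hx, rfl⟩
  have hc : (S.ncard : ℝ) = ∑ y ∈ hT.toFinset, ({x | x ∈ S ∧ π x = y}.ncard : ℝ) := by
    rw [Set.ncard_eq_toFinset_card S hS,
      Finset.card_eq_sum_card_fiberwise (f := π) (t := hT.toFinset)
        (fun x hx => by simpa using hπ x (by simpa using hx))]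
    push_cast
    refine Finset.sum_congr rfl fun y _ => ?_
    rw [← Set.ncard_coe_finset]
    congr 2
    ext x
    simp
  refine ⟨hS, ?_, ?_⟩
  · rw [hc, Set.ncard_eq_toFinset_card Tt hT, mul_comm, ← nsmul_eq_mul]
    exact Finset.card_nsmul_le_sum _ _ _ fun y hy => (hb y (by simpa using hy)).1
  · rw [hc, Set.ncard_eq_toFinset_card Tt hT, mul_comm, ← nsmul_eq_mul]
    exact Finset.sum_le_card_nsmul _ _ _ fun y hy => (hb y (by simpa using hy)).2

theorem seq_valid_mono {𝒱 Pp : Type} {Un : 𝒱 → Pp → Prop} {Bi : 𝒱 → 𝒱 → Pp → Pp → Prop}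
    {𝒜 𝒜' : Finset 𝒱} {f f' : 𝒱 → Pp} (h : ValidOn Un Bi 𝒜 f) (hs : 𝒜' ⊆ 𝒜)
    (he : ∀ ν ∈ 𝒜', f' ν = f ν) : ValidOn Un Bi 𝒜' f' :=
  ⟨fun ν hν => by rw [he ν hν]; exact h.1 ν (hs hν), fun ν hν μ hμ hne => by
    rw [he ν hν, he μ hμ]; exact h.2 ν (hs hν) μ (hs hμ) hne⟩

theorem seq_count {𝒱 Pp : Type} [LinearOrder 𝒱] (Un : 𝒱 → Pp → Prop)
    (Bi : 𝒱 → 𝒱 → Pp → Pp → Prop) (𝒜 𝒩 : Finset 𝒱) (hd : Disjoint 𝒜 𝒩) (lo hi : 𝒱 → ℝ)
    (hlo : ∀ ν ∈ 𝒩, 0 ≤ lo ν) (hhi : ∀ ν ∈ 𝒩, 0 ≤ hi ν) (hfin : ∀ ν ∈ 𝒩, {p | Un ν p}.Finite)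
    (hstep : ∀ ν ∈ 𝒩, ∀ g, ValidOn Un Bi (𝒜 ∪ 𝒩.filter (· < ν)) g →
      lo ν ≤ ({p | ValidOn Un Bi (insert ν (𝒜 ∪ 𝒩.filter (· < ν))) (Function.update g ν p)}.ncard : ℝ) ∧
      ({p | ValidOn Un Bi (insert ν (𝒜 ∪ 𝒩.filter (· < ν))) (Function.update g ν p)}.ncard : ℝ) ≤ hi ν)
    (f : 𝒱 → Pp) (hf : ValidOn Un Bi 𝒜 f) :
    {g | ValidOn Un Bi (𝒜 ∪ 𝒩) g ∧ ∀ ν ∉ 𝒩, g ν = f ν}.Finite ∧
      ∏ ν ∈ 𝒩, lo ν ≤ ({g | ValidOn Un Bi (𝒜 ∪ 𝒩) g ∧ ∀ ν ∉ 𝒩, g ν = f ν}.ncard : ℝ) ∧
      ({g | ValidOn Un Bi (𝒜 ∪ 𝒩) g ∧ ∀ ν ∉ 𝒩, g ν = f ν}.ncard : ℝ) ≤ ∏ ν ∈ 𝒩, hi ν := by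
  induction 𝒩 using Finset.induction_on_max with
  | empty =>
    have : {g | ValidOn Un Bi (𝒜 ∪ ∅) g ∧ ∀ ν ∉ (∅ : Finset 𝒱), g ν = f ν} = {f} := by
      ext g
      simp only [Finset.union_empty, Finset.notMem_empty, not_false_eq_true, forall_const,
        Set.mem_ofPred_eq, Set.mem_singleton_iff]
      constructor
      · exact fun h => funext h.2
      · rintro rfl
        exact ⟨hf, fun _ => rfl⟩
    rw [this]
    simp
  | insert a s hlt ih =>
    have has : a ∉ s := fun h => lt_irrefl _ (hlt a h)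
    have haA : a ∉ 𝒜 := fun h => Finset.disjoint_left.mp hd h (Finset.mem_insert_self a s)
    have haU : a ∉ 𝒜 ∪ s := by simp [has, haA]
    have hfil : ∀ ν ∈ s, (insert a s).filter (· < ν) = s.filter (· < ν) := by
      intro ν hν
      rw [Finset.filter_insert, if_neg (not_lt.mpr (hlt ν hν).le)]
    have hfila : (insert a s).filter (· < a) = s := by
      rw [Finset.filter_insert, if_neg (lt_irrefl a)]
      exact Finset.filter_true_of_mem hlt
    obtain ⟨h1, h2, h3⟩ := ih (hd.mono_right (Finset.subset_insert a s))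
      (fun ν hν => hlo ν (Finset.mem_insert_of_mem hν))
      (fun ν hν => hhi ν (Finset.mem_insert_of_mem hν))
      (fun ν hν => hfin ν (Finset.mem_insert_of_mem hν))
      (fun ν hν g hg => by
        have := hstep ν (Finset.mem_insert_of_mem hν) g (by rw [hfil ν hν]; exact hg)
        rwa [hfil ν hν] at this)
    have hst := hstep a (Finset.mem_insert_self a s)
    rw [hfila] at hst
    have hun : 𝒜 ∪ insert a s = insert a (𝒜 ∪ s) := Finset.union_insert a 𝒜 s
    have hfibre : ∀ g ∈ {g | ValidOn Un Bi (𝒜 ∪ s) g ∧ ∀ ν ∉ s, g ν = f ν},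
        {x | x ∈ {g | ValidOn Un Bi (𝒜 ∪ insert a s) g ∧ ∀ ν ∉ insert a s, g ν = f ν} ∧
          Function.update x a (f a) = g} =
        (fun p => Function.update g a p) ''
          {p | ValidOn Un Bi (insert a (𝒜 ∪ s)) (Function.update g a p)} := by
      intro g hg
      ext x
      simp only [Set.mem_ofPred_eq, Set.mem_image, hun]
      constructor
      · rintro ⟨⟨hx1, _⟩, rfl⟩
        refine ⟨x a, ?_, by simp⟩
        simpa using hx1
      · rintro ⟨p, hp, rfl⟩
        refine ⟨⟨hp, fun ν hν => ?_⟩, ?_⟩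
        · rw [Finset.mem_insert, not_or] at hν
          rw [Function.update_of_ne hν.1]
          exact hg.2 ν hν.2
        · rw [Function.update_idem, ← hg.2 a has, Function.update_eq_self]
    have hinj : ∀ g : 𝒱 → Pp, Function.Injective fun p => Function.update g a p :=
      fun g p p' h => by simpa using congrFun h a
    obtain ⟨k1, k2, k3⟩ := seq_fiber
      {g | ValidOn Un Bi (𝒜 ∪ insert a s) g ∧ ∀ ν ∉ insert a s, g ν = f ν}
      {g | ValidOn Un Bi (𝒜 ∪ s) g ∧ ∀ ν ∉ s, g ν = f ν} h1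
      (fun x => Function.update x a (f a))
      (fun x hx => ⟨seq_valid_mono hx.1
          (Finset.union_subset_union (Finset.Subset.refl _) (Finset.subset_insert a s))
          (fun ν hν => Function.update_of_ne (fun h : ν = a => haU (h ▸ hν)) _ _), fun ν hν => by
        by_cases h : ν = a
        · subst h; simp
        · rw [Function.update_of_ne h]
          exact hx.2 ν (by simp [h, hν])⟩)
      (fun g hg => by
        rw [hfibre g hg]
        refine Set.Finite.image _ ((hfin a (Finset.mem_insert_self a s)).subset fun p hp => ?_)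
        simpa using hp.1 a (Finset.mem_insert_self a _))
      (lo a) (hi a)
      (fun g hg => by
        rw [hfibre g hg, Set.ncard_image_of_injective _ (hinj g)]
        exact hst g hg.1)
    refine ⟨k1, ?_, ?_⟩
    · rw [Finset.prod_insert has]
      exact (mul_le_mul_of_nonneg_left h2 (hlo a (Finset.mem_insert_self a s))).trans k2
    · rw [Finset.prod_insert has]
      exact k3.trans (mul_le_mul_of_nonneg_left h3 (hhi a (Finset.mem_insert_self a s)))

theorem marginal {Ω Y : Type} (Om : Finset Ω) (YY : Finset Y) (pr : Ω → Y)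
    (hpr : ∀ ω ∈ Om, pr ω ∈ YY) {a b : ℝ} (ha : 0 < a)
    (h : ∀ y ∈ YY, a ≤ (Om.filter fun ω => pr ω = y).card ∧
      ((Om.filter fun ω => pr ω = y).card : ℝ) ≤ b) (B : Finset Y) (hB : B ⊆ YY) :
    ((Om.filter fun ω => pr ω ∈ B).card : ℝ) * YY.card ≤ b / a * Om.card * B.card ∧
      (Om.card : ℝ) * B.card ≤ b / a * (Om.filter fun ω => pr ω ∈ B).card * YY.card ∧
      a * YY.card ≤ Om.card := by
  have key : ∀ C : Finset Y, C ⊆ YY →
      a * C.card ≤ ((Om.filter fun ω => pr ω ∈ C).card : ℝ) ∧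
        ((Om.filter fun ω => pr ω ∈ C).card : ℝ) ≤ b * C.card := by
    intro C hC
    have hc : ((Om.filter fun ω => pr ω ∈ C).card : ℝ) =
        ∑ y ∈ C, ((Om.filter fun ω => pr ω = y).card : ℝ) := by
      rw [Finset.card_eq_sum_card_fiberwise (f := pr) (s := Om.filter fun ω => pr ω ∈ C) (t := C)
        (fun x hx => (Finset.mem_filter.mp hx).2)]
      push_cast
      refine Finset.sum_congr rfl fun y hy => ?_
      congr 2
      ext x
      simp only [Finset.mem_filter]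
      constructor
      · exact fun hx => ⟨hx.1.1, hx.2⟩
      · exact fun hx => ⟨⟨hx.1, hx.2 ▸ hy⟩, hx.2⟩
    constructor
    · rw [hc, mul_comm, ← nsmul_eq_mul]
      exact Finset.card_nsmul_le_sum _ _ _ fun y hy => (h y (hC hy)).1
    · rw [hc, mul_comm, ← nsmul_eq_mul]
      exact Finset.sum_le_card_nsmul _ _ _ fun y hy => (h y (hC hy)).2
  obtain ⟨h1, h2⟩ := key B hB
  obtain ⟨h3, h4⟩ := key YY (Finset.Subset.refl _)
  rw [Finset.filter_true_of_mem hpr] at h3 h4
  have n1 : (0 : ℝ) ≤ (Om.filter fun ω => pr ω ∈ B).card := Nat.cast_nonneg _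
  have n2 : (0 : ℝ) ≤ YY.card := Nat.cast_nonneg _
  have n3 : (0 : ℝ) ≤ B.card := Nat.cast_nonneg _
  have n4 : (0 : ℝ) ≤ Om.card := Nat.cast_nonneg _
  refine ⟨?_, ?_, h3⟩
  · have : b / a * Om.card * B.card = (b * B.card) * Om.card / a := by ring
    rw [this, le_div_iff₀ ha]
    calc ((Om.filter fun ω => pr ω ∈ B).card : ℝ) * YY.card * a
        = ((Om.filter fun ω => pr ω ∈ B).card : ℝ) * (a * YY.card) := by ring
      _ ≤ (b * B.card) * Om.card := mul_le_mul h2 h3 (by positivity) (n1.trans h2)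
  · have : b / a * (Om.filter fun ω => pr ω ∈ B).card * YY.card =
        (b * YY.card) * (Om.filter fun ω => pr ω ∈ B).card / a := by ring
    rw [this, le_div_iff₀ ha]
    calc (Om.card : ℝ) * B.card * a = (Om.card : ℝ) * (a * B.card) := by ring
      _ ≤ (b * YY.card) * (Om.filter fun ω => pr ω ∈ B).card :=
        mul_le_mul h4 h1 (by positivity) (n4.trans h4)

theorem seq_upper {ι Q : Type} [Fintype ι] (rk : ι → ℕ) (hrk : Function.Injective rk)
    (𝒮 : Set (ι → Q)) (hi : ι → ℝ) (h0 : ∀ i, 0 ≤ hi i)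
    (h : ∀ i, ∀ f ∈ 𝒮, {q | ∃ f' ∈ 𝒮, (∀ j, rk j < rk i → f' j = f j) ∧ f' i = q}.Finite ∧
      ({q | ∃ f' ∈ 𝒮, (∀ j, rk j < rk i → f' j = f j) ∧ f' i = q}.ncard : ℝ) ≤ hi i) :
    𝒮.Finite ∧ (𝒮.ncard : ℝ) ≤ ∏ i, hi i := by
  let res : Finset ι → (ι → Q) → ι → Option Q := fun s f j => if j ∈ s then some (f j) else none
  have key : ∀ s : Finset ι, (∀ i ∈ s, ∀ j, rk j < rk i → j ∈ s) →
      (res s '' 𝒮).Finite ∧ ((res s '' 𝒮).ncard : ℝ) ≤ ∏ i ∈ s, hi i := by
    intro s
    induction s using Finset.induction_on_max_value rk with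
    | empty =>
      intro _
      have h1 : res ∅ '' 𝒮 ⊆ {fun _ => none} := by
        rintro _ ⟨f, -, rfl⟩
        exact funext fun j => if_neg (Finset.notMem_empty j)
      refine ⟨(Set.finite_singleton _).subset h1, ?_⟩
      rw [Finset.prod_empty, Nat.cast_le_one]
      exact (Set.ncard_le_ncard h1 (Set.finite_singleton _)).trans (Set.ncard_singleton _).le
    | insert a s has hle ih =>
      intro hc
      have hs : ∀ j, rk j < rk a → j ∈ s := fun j hj =>
        (Finset.mem_insert.1 (hc a (Finset.mem_insert_self a s) j hj)).resolve_left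
          fun e => lt_irrefl _ (e ▸ hj)
      obtain ⟨h1, h2⟩ := ih fun i hi' j hj => hs j (hj.trans_le (hle i hi'))
      have hu : ∀ f, Function.update (res (insert a s) f) a none = res s f := fun f => by
        funext j
        by_cases hj : j = a
        · rw [hj, Function.update_self]
          exact (if_neg has).symm
        · rw [Function.update_of_ne hj]
          simp only [res, Finset.mem_insert, hj, false_or]
      have hf : ∀ f ∈ 𝒮, {x | x ∈ res (insert a s) '' 𝒮 ∧ Function.update x a none = res s f} ⊆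
          (fun q => Function.update (res s f) a (some q)) ''
            {q | ∃ f' ∈ 𝒮, (∀ j, rk j < rk a → f' j = f j) ∧ f' a = q} := by
        rintro f - _ ⟨⟨f', hf', rfl⟩, e⟩
        refine ⟨f' a, ⟨f', hf', fun j hj => ?_, rfl⟩, ?_⟩
        · have e' := congrFun ((hu f').symm.trans e) j
          simpa only [res, if_pos (hs j hj), Option.some.injEq] using e'
        · simp only
          rw [← e, Function.update_idem, Function.update_eq_iff]
          exact ⟨(if_pos (Finset.mem_insert_self a s)).symm, fun _ _ => rfl⟩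
      obtain ⟨k1, -, k3⟩ := seq_fiber (res (insert a s) '' 𝒮) (res s '' 𝒮) h1
        (fun x => Function.update x a none)
        (by
          rintro _ ⟨f, hf', rfl⟩
          exact ⟨f, hf', (hu f).symm⟩)
        (by
          rintro _ ⟨f, hf', rfl⟩
          exact ((h a f hf').1.image _).subset (hf f hf')) 0 (hi a)
        (by
          rintro _ ⟨f, hf', rfl⟩
          refine ⟨Nat.cast_nonneg _, le_trans (Nat.cast_le.2 ?_) (h a f hf').2⟩
          exact (Set.ncard_le_ncard (hf f hf') ((h a f hf').1.image _)).trans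
            (Set.ncard_image_le (h a f hf').1))
      refine ⟨k1, ?_⟩
      rw [Finset.prod_insert has]
      exact k3.trans (mul_le_mul_of_nonneg_left h2 (h0 a))
  have hinj : Function.Injective (res Finset.univ) := fun f f' e => funext fun j => by
    simpa only [res, if_pos (Finset.mem_univ j), Option.some.injEq] using congrFun e j
  obtain ⟨h1, h2⟩ := key Finset.univ fun _ _ j _ => Finset.mem_univ j
  rw [Set.ncard_image_of_injective _ hinj] at h2
  exact ⟨h1.of_finite_image hinj.injOn, h2⟩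

/-- the tail of the number of successes in a product space -/
theorem tail_count {ι Q : Type} [Fintype ι] (Om G : ι → Set Q) (hO : ∀ i, (Om i).Finite)
    (hG : ∀ i, G i ⊆ Om i) (L : Finset ι) {θ : ℝ} (hθ : θ ≤ 1)
    (h : ∀ i ∈ L, θ * (Om i).ncard ≤ (G i).ncard) (r : ℕ) :
    ({p : ι → Q | (∀ i, p i ∈ Om i) ∧ (L.filter fun i => p i ∈ G i).card < r}.ncard : ℝ) ≤
      2 ^ r * (1 - θ / 2) ^ L.card * {p : ι → Q | ∀ i, p i ∈ Om i}.ncard := by
  let O : ι → Finset Q := fun i => (hO i).toFinset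
  let w : ι → Q → ℝ := fun i q => if i ∈ L ∧ q ∈ G i then 2⁻¹ else 1
  have e1 : {p : ι → Q | ∀ i, p i ∈ Om i} = Fintype.piFinset O := by
    ext p
    simp [O]
  have e2 : {p : ι → Q | (∀ i, p i ∈ Om i) ∧ (L.filter fun i => p i ∈ G i).card < r} =
      (Fintype.piFinset O).filter fun p => (L.filter fun i => p i ∈ G i).card < r := by
    ext p
    simp [O]
  have w0 : ∀ i q, 0 ≤ w i q := fun i q => by
    simp only [w]
    split_ifs <;> norm_num
  have h1 : ∀ p : ι → Q, ∏ i, w i (p i) = 2⁻¹ ^ (L.filter fun i => p i ∈ G i).card := fun p => by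
    have e : (Finset.univ.filter fun i => i ∈ L ∧ p i ∈ G i) = L.filter fun i => p i ∈ G i := by
      ext i
      simp
    simp only [w]
    rw [Finset.prod_ite, Finset.prod_const_one, mul_one, Finset.prod_const, e]
  have h2 : ∀ i, ∑ q ∈ O i, w i q ≤ (if i ∈ L then 1 - θ / 2 else 1) * (O i).card := fun i => by
    by_cases hi : i ∈ L
    · have e : ((O i).filter fun q => q ∈ G i).card = (G i).ncard := by
        rw [← Set.ncard_coe_finset]
        refine congrArg Set.ncard (Set.ext fun q => ?_)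
        simp only [O, Finset.coe_filter, Set.Finite.mem_toFinset, Set.mem_ofPred_eq]
        exact and_iff_right_of_imp fun hq => hG i hq
      have e' := congrArg (Nat.cast : ℕ → ℝ)
        (Finset.card_filter_add_card_filter_not (s := O i) fun q => q ∈ G i)
      have h3 := h i hi
      rw [Set.ncard_eq_toFinset_card _ (hO i), ← e] at h3
      simp only [w, hi, true_and, if_true]
      rw [Finset.sum_ite, Finset.sum_const, Finset.sum_const, nsmul_eq_mul, nsmul_eq_mul]
      push_cast at e'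
      linarith
    · simp [w, hi]
  rw [e1, e2, Set.ncard_coe_finset, Set.ncard_coe_finset, Fintype.card_piFinset]
  calc _ = ∑ _p ∈ (Fintype.piFinset O).filter
        fun p => (L.filter fun i => p i ∈ G i).card < r, (1 : ℝ) := by
        rw [Finset.sum_const, nsmul_eq_mul, mul_one]
    _ ≤ ∑ p ∈ (Fintype.piFinset O).filter fun p => (L.filter fun i => p i ∈ G i).card < r,
        2 ^ r * ∏ i, w i (p i) := by
        refine Finset.sum_le_sum fun p hp => ?_
        rw [h1, inv_pow, ← div_eq_mul_inv, le_div_iff₀ (by positivity), one_mul]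
        exact pow_le_pow_right₀ one_le_two (Finset.mem_filter.1 hp).2.le
    _ ≤ ∑ p ∈ Fintype.piFinset O, 2 ^ r * ∏ i, w i (p i) :=
        Finset.sum_le_sum_of_subset_of_nonneg (Finset.filter_subset _ _) fun p _ _ =>
          mul_nonneg (by positivity) (Finset.prod_nonneg fun i _ => w0 i _)
    _ = 2 ^ r * ∏ i, ∑ q ∈ O i, w i q := by rw [← Finset.mul_sum, Finset.prod_univ_sum]
    _ ≤ 2 ^ r * ∏ i, ((if i ∈ L then 1 - θ / 2 else 1) * ((O i).card : ℝ)) :=
        mul_le_mul_of_nonneg_left (Finset.prod_le_prod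
          (fun i _ => Finset.sum_nonneg fun q _ => w0 i q) fun i _ => h2 i) (by positivity)
    _ = _ := by
        rw [Finset.prod_mul_distrib, Finset.prod_ite_mem, Finset.univ_inter, Finset.prod_const,
          Nat.cast_prod, mul_assoc]

/-- a uniform enumeration of small sets -/
theorem exists_enum (α : Type) [Nonempty α] : ∃ en : Set α → ℕ → α, ∀ S : Set α, S.Finite →
    ∀ a ∈ S, ∃ r < S.ncard, en S r = a := by
  have key : ∀ S : Set α, ∃ f : ℕ → α, S.Finite → ∀ a ∈ S, ∃ r < S.ncard, f r = a := by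
    intro S
    by_cases hS : S.Finite
    · refine ⟨fun r => hS.toFinset.toList.getD r (Classical.arbitrary α), fun _ a ha => ?_⟩
      obtain ⟨r, hr, e⟩ := List.mem_iff_getElem.1 (Finset.mem_toList.2 (hS.mem_toFinset.2 ha))
      refine ⟨r, ?_, (List.getD_eq_getElem _ _ hr).trans e⟩
      rwa [Finset.length_toList, ← Set.ncard_eq_toFinset_card S hS] at hr
    · exact ⟨fun _ => Classical.arbitrary α, fun h => absurd h hS⟩
  choose en hen using key
  exact ⟨en, hen⟩

variable {W P : Type} [Group W]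

namespace Tame

variable (T : Tame W P) {α : Type}

/-- degree and unary condition -/
def Un {𝒱 : Type} (A0 : Finset P) (e : 𝒱 → ℕ) (Mk : 𝒱 → W → α → Prop) (ν : 𝒱) (y : P × α) : Prop :=
  T.dg y.1 = e ν ∧ y.1 ∉ A0 ∧ Mk ν (T.σ y.1) y.2

/-- distinctness and mutual symbols -/
def Bi {𝒱 : Type} (adj : 𝒱 → 𝒱 → Prop) (s : 𝒱 → 𝒱 → F2) (ν μ : 𝒱) (y y' : P × α) : Prop :=
  y.1 ≠ y'.1 ∧ (adj ν μ → T.χ y'.1 (T.σ y.1) = s ν μ)

/-- the expected number of choices -/
def wtp (d : ℝ) (e n : ℕ) : ℝ := d * ((T.q : ℝ) ^ e / e) * (2 : ℝ)⁻¹ ^ n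

theorem Seq_eta_nonneg {η : ℝ} {N c e : ℕ} (h : T.Small η N c e) : 0 ≤ η := by
  have hq : (0 : ℝ) < T.q := by
    have := T.q_ge
    exact_mod_cast (by omega : 0 < T.q)
  have h0 : (0 : ℝ) ≤ (N : ℝ) * (T.err N c e + 2 * (T.q : ℝ) ^ ((e + 1) / 2) + c) := by
    unfold Pre.err
    positivity
  exact nonneg_of_mul_nonneg_left (h0.trans h) (pow_pos hq e)

theorem Seq_wtp_nonneg {d : ℝ} (hd : 0 ≤ d) (e n : ℕ) : 0 ≤ T.wtp d e n := by
  unfold wtp
  positivity

end Tame

namespace Lat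

variable {T : Tame W P} {I : Type} [Fintype I] [DecidableEq I] {L : Lat T I}

theorem seq_step {𝒱 : Type} [LinearOrder 𝒱] {A0 : Finset P} (hA : T.inf ∈ A0) (e : 𝒱 → ℕ)
    {N0 : ℕ} (Mk : 𝒱 → W → (I → F2) → Prop) (hMk : ∀ ν, L.MP A0 N0 (Mk ν)) (adj : 𝒱 → 𝒱 → Prop)
    (hadj : ∀ ν μ, adj ν μ → adj μ ν) (s : 𝒱 → 𝒱 → F2)
    (hs : ∀ ν μ, adj ν μ → s ν μ = s μ ν + T.eps * (e ν : F2) * (e μ : F2)) (prev : Finset 𝒱)
    (ν : 𝒱) (hν : ν ∉ prev) {η : ℝ} (he : 0 < e ν)
    (hsm : T.Small η (N0 * 2 ^ prev.card) (∑ v ∈ A0, T.dg v + ∑ μ ∈ prev, e μ) (e ν))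
    (g : 𝒱 → P × (I → F2)) (hg : ValidOn (T.Un A0 e Mk) (T.Bi adj s) prev g) :
    (1 - η) * T.wtp (T.dM (Mk ν) (e ν)) (e ν) (prev.filter (adj ν)).card ≤
      ({p | ValidOn (T.Un A0 e Mk) (T.Bi adj s) (insert ν prev) (Function.update g ν p)}.ncard : ℝ) ∧
    ({p | ValidOn (T.Un A0 e Mk) (T.Bi adj s) (insert ν prev) (Function.update g ν p)}.ncard : ℝ) ≤
      (1 + η) * T.wtp (T.dM (Mk ν) (e ν)) (e ν) (prev.filter (adj ν)).card := by
  have hinj : Set.InjOn (fun μ => (g μ).1) prev := fun μ hμ μ' hμ' h => by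
    by_contra hne
    exact (hg.2 μ hμ μ' hμ' hne).1 h
  have hout : ∀ μ ∈ prev, (g μ).1 ∉ A0 := fun μ hμ => (hg.1 μ hμ).2.1
  set A : Finset P := A0 ∪ prev.image fun μ => (g μ).1 with hAdef
  set A' : Finset P := (prev.filter (adj ν)).image fun μ => (g μ).1 with hA'def
  set c : P → F2 := fun a => if h : ∃ μ ∈ prev, (g μ).1 = a then s ν h.choose else 0 with hc
  have hc1 : ∀ μ ∈ prev, c (g μ).1 = s ν μ := by
    intro μ hμ
    have h : ∃ μ' ∈ prev, (g μ').1 = (g μ).1 := ⟨μ, hμ, rfl⟩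
    have h' : c (g μ).1 = s ν h.choose := dif_pos h
    rw [h', hinj h.choose_spec.1 hμ h.choose_spec.2]
  have hupd : ∀ p, ∀ μ ∈ prev, Function.update g ν p μ = g μ :=
    fun p μ hμ => Function.update_of_ne (fun h : μ = ν => hν (h ▸ hμ)) _ _
  have hset : {p | ValidOn (T.Un A0 e Mk) (T.Bi adj s) (insert ν prev) (Function.update g ν p)} =
      T.PrM A (fun g n => Mk ν g n ∧ ∀ a ∈ A', T.χ a g = c a) (e ν) := by
    ext p
    simp only [Set.mem_ofPred_eq, Tame.PrM]
    constructor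
    · rintro ⟨h1, h2⟩
      have k1 := h1 ν (Finset.mem_insert_self _ _)
      rw [Function.update_self] at k1
      have k2 : ∀ μ ∈ prev, T.Bi adj s ν μ p (g μ) := by
        intro μ hμ
        have := h2 ν (Finset.mem_insert_self _ _) μ (Finset.mem_insert_of_mem hμ)
          (fun h => hν (h ▸ hμ))
        rwa [Function.update_self, hupd p μ hμ] at this
      refine ⟨k1.1, fun hp => ?_, k1.2.2, fun a ha => ?_⟩
      · rcases Finset.mem_union.mp hp with hp | hp
        · exact k1.2.1 hp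
        · obtain ⟨μ, hμ, e'⟩ := Finset.mem_image.mp hp
          exact (k2 μ hμ).1 e'.symm
      · obtain ⟨μ, hμ, rfl⟩ := Finset.mem_image.mp ha
        rw [Finset.mem_filter] at hμ
        rw [hc1 μ hμ.1]
        exact (k2 μ hμ.1).2 hμ.2
    · rintro ⟨h1, h2, h4, h3⟩
      have hp0 : p.1 ∉ A0 := fun h => h2 (Finset.mem_union_left _ h)
      have hpg : ∀ μ ∈ prev, p.1 ≠ (g μ).1 := fun μ hμ h =>
        h2 (Finset.mem_union_right _ (Finset.mem_image.mpr ⟨μ, hμ, h.symm⟩))
      have hsym : ∀ μ ∈ prev, adj ν μ → T.χ (g μ).1 (T.σ p.1) = s ν μ := by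
        intro μ hμ hadjμ
        rw [← hc1 μ hμ]
        exact h3 _ (Finset.mem_image.mpr ⟨μ, Finset.mem_filter.mpr ⟨hμ, hadjμ⟩, rfl⟩)
      constructor
      · intro μ hμ
        rcases Finset.mem_insert.mp hμ with rfl | hμ
        · rw [Function.update_self]
          exact ⟨h1, hp0, h4⟩
        · rw [hupd p μ hμ]
          exact hg.1 μ hμ
      · intro μ hμ μ' hμ' hne
        rcases Finset.mem_insert.mp hμ with hμν | hμ
        · rcases Finset.mem_insert.mp hμ' with hμν' | hμ'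
          · exact absurd (hμν.trans hμν'.symm) hne
          · rw [hμν, Function.update_self, hupd p μ' hμ']
            exact ⟨hpg μ' hμ', hsym μ' hμ'⟩
        · rcases Finset.mem_insert.mp hμ' with hμν' | hμ'
          · rw [hμν', Function.update_self, hupd p μ hμ]
            refine ⟨(hpg μ hμ).symm, fun hadjμ => ?_⟩
            rw [Tame.chi_symm (T := T) (v := p.1) (w := (g μ).1) (fun h => hp0 (h ▸ hA))
              (fun h => hout μ hμ (h ▸ hA)) (hpg μ hμ), hs μ ν hadjμ,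
              hsym μ hμ (hadj _ _ hadjμ), h1, (hg.1 μ hμ).1, mul_right_comm]
          · rw [hupd p μ hμ, hupd p μ' hμ']
            exact hg.2 μ hμ μ' hμ' hne
  have hcard : A'.card = (prev.filter (adj ν)).card :=
    Finset.card_image_of_injOn (hinj.mono (Finset.coe_subset.mpr (Finset.filter_subset _ _)))
  have hsum : ∑ v ∈ A, T.dg v = ∑ v ∈ A0, T.dg v + ∑ μ ∈ prev, e μ := by
    rw [hAdef, Finset.sum_union, Finset.sum_image hinj,
      Finset.sum_congr rfl fun μ hμ => (hg.1 μ hμ).1]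
    rw [Finset.disjoint_right]
    intro a ha ha'
    obtain ⟨μ, hμ, rfl⟩ := Finset.mem_image.mp ha
    exact hout μ hμ ha'
  have hAinf : T.inf ∈ A := Finset.mem_union_left _ hA
  have hsub : A' ⊆ A := (Finset.image_subset_image (Finset.filter_subset _ _)).trans
    Finset.subset_union_right
  have hM := ((hMk ν).mono (A' := A) Finset.subset_union_left le_rfl).sym hAinf hsub c
  have hsm' : T.Small η (N0 * 2 ^ A'.card) (∑ v ∈ A, T.dg v) (e ν) := by
    refine hsm.mono le_rfl (Nat.mul_le_mul_left _ (Nat.pow_le_pow_right (by norm_num) ?_)) hsum.le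
    rw [hcard]
    exact Finset.card_filter_le _ _
  have hd : T.wtp (T.dM (Mk ν) (e ν)) (e ν) (prev.filter (adj ν)).card =
      T.dM (fun g n => Mk ν g n ∧ ∀ a ∈ A', T.χ a g = c a) (e ν) * ((T.q : ℝ) ^ e ν / e ν) := by
    rw [Tame.dM_sym hA (hMk ν).cl (fun a ha => ?_) c, Tame.wtp, hcard]
    · ring
    · obtain ⟨μ, hμ, rfl⟩ := Finset.mem_image.mp ha
      exact hout μ (Finset.mem_filter.mp hμ).1
  rw [hset, hd]
  exact ⟨prM_lower hAinf hM he hsm', prM_upper hAinf hM he hsm'⟩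

theorem valid_count {𝒱 : Type} [LinearOrder 𝒱] {A0 : Finset P} (hA : T.inf ∈ A0) (e : 𝒱 → ℕ)
    {N0 : ℕ} (Mk : 𝒱 → W → (I → F2) → Prop) (hMk : ∀ ν, L.MP A0 N0 (Mk ν)) (adj : 𝒱 → 𝒱 → Prop)
    (hadj : ∀ ν μ, adj ν μ → adj μ ν) (s : 𝒱 → 𝒱 → F2)
    (hs : ∀ ν μ, adj ν μ → s ν μ = s μ ν + T.eps * (e ν : F2) * (e μ : F2))
    (𝒜 𝒩 : Finset 𝒱) (hd : Disjoint 𝒜 𝒩) (η : 𝒱 → ℝ)
    (he : ∀ ν ∈ 𝒩, 0 < e ν) (hη : ∀ ν ∈ 𝒩, η ν ≤ 1)
    (hsm : ∀ ν ∈ 𝒩, T.Small (η ν) (N0 * 2 ^ (𝒜 ∪ 𝒩.filter (· < ν)).card)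
      (∑ v ∈ A0, T.dg v + ∑ μ ∈ 𝒜 ∪ 𝒩.filter (· < ν), e μ) (e ν))
    (f : 𝒱 → P × (I → F2)) (hf : ValidOn (T.Un A0 e Mk) (T.Bi adj s) 𝒜 f) :
    {g | ValidOn (T.Un A0 e Mk) (T.Bi adj s) (𝒜 ∪ 𝒩) g ∧ ∀ ν ∉ 𝒩, g ν = f ν}.Finite ∧
      ∏ ν ∈ 𝒩, (1 - η ν) * T.wtp (T.dM (Mk ν) (e ν)) (e ν)
          ((𝒜 ∪ 𝒩.filter (· < ν)).filter (adj ν)).card ≤
        ({g | ValidOn (T.Un A0 e Mk) (T.Bi adj s) (𝒜 ∪ 𝒩) g ∧ ∀ ν ∉ 𝒩, g ν = f ν}.ncard : ℝ) ∧
      ({g | ValidOn (T.Un A0 e Mk) (T.Bi adj s) (𝒜 ∪ 𝒩) g ∧ ∀ ν ∉ 𝒩, g ν = f ν}.ncard : ℝ) ≤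
        ∏ ν ∈ 𝒩, (1 + η ν) * T.wtp (T.dM (Mk ν) (e ν)) (e ν)
          ((𝒜 ∪ 𝒩.filter (· < ν)).filter (adj ν)).card := by
  refine seq_count (T.Un A0 e Mk) (T.Bi adj s) 𝒜 𝒩 hd _ _
    (fun ν hν => mul_nonneg (sub_nonneg.mpr (hη ν hν)) (T.Seq_wtp_nonneg Tame.dM_nonneg _ _))
    (fun ν hν => mul_nonneg (add_nonneg zero_le_one (T.Seq_eta_nonneg (hsm ν hν)))
      (T.Seq_wtp_nonneg Tame.dM_nonneg _ _))
    (fun ν _ => Tame.prM_finite A0 (Mk ν) (e ν)) (fun ν hν g hg => ?_) f hf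
  refine seq_step hA e Mk hMk adj hadj s hs _ ν (fun h => ?_) (he ν hν) (hsm ν hν) g hg
  rcases Finset.mem_union.mp h with h | h
  · exact Finset.disjoint_left.mp hd h hν
  · exact lt_irrefl _ (Finset.mem_filter.mp h).2

end Lat

end

end Pool.Agent.Quad
end

-- merged part: Pool.Agent.Work.MP_60d5ce_nt.Qt.Comb
section
/-!
# Pure combinatorics: density of consistent cubes, greedy cover and union bound

* `collision`: Cauchy-Schwarz (`sq_sum_le_card_mul_sum_sq`) over the fibres of `f`.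
* `density`: by induction on `B`, `dd δ Col B.card * M ^ (1 + k + B.card) ≤ #{c | Cons B c}`.  Step:
  map a cube to (cube with the `i`-th coordinates replaced by a fixed value, colour); the image has
  at most `M ^ (k + B.card) * Col` elements (use `hdiag`); a colliding pair glues to a cube for
  `insert i B`, injectively.  Last, collide the cubes for `univ` along the first coordinate
  (`M ^ (2 * k)` keys) and average over the base point.
* `cover_union`: for each `p` choose greedily `D 1, D 2, ...` (at most `J` rounds); the pieces are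
  `Y' D \ ⋃ earlier`, determined by `D` and a subset of `𝒟` with at most `J` elements, that is by
  `D` and a map `Fin J → Option 𝒟`.  Call `p` bad if some such piece has many zeros.
* `numerics`: `s = ⌊ε * M ^ (k + 1) / J⌋`; the logarithm of the first factor is `O (M ^ k)`.
-/

namespace Pool.Agent.Quad

open scoped Classical

noncomputable section

theorem collision {α κ : Type*} (C : Finset α) (f : α → κ) (n : ℕ) (hn : (C.image f).card ≤ n) :
    (C.card : ℝ) ^ 2 ≤ n * ((C ×ˢ C).filter fun z => f z.1 = f z.2).card := by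
  have h1 : ((C ×ˢ C).filter fun z => f z.1 = f z.2).card =
      ∑ y ∈ C.image f, (C.filter fun x => f x = y).card ^ 2 := by
    rw [Finset.card_eq_sum_card_fiberwise (f := fun z : α × α => f z.1) (t := C.image f)
      fun z hz => Finset.mem_image_of_mem f (Finset.mem_product.1 (Finset.mem_filter.1 hz).1).1]
    refine Finset.sum_congr rfl fun y _ => ?_
    rw [sq, ← Finset.card_product]
    congr 1
    ext z
    simp only [Finset.mem_filter, Finset.mem_product]
    constructor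
    · rintro ⟨⟨⟨a, b⟩, c⟩, d⟩
      exact ⟨⟨a, d⟩, b, c ▸ d⟩
    · rintro ⟨⟨a, b⟩, c, d⟩
      exact ⟨⟨⟨a, c⟩, b.trans d.symm⟩, b⟩
  have h2 : C.card ^ 2 ≤ n * ((C ×ˢ C).filter fun z => f z.1 = f z.2).card := by
    rw [h1]
    conv_lhs => rw [Finset.card_eq_sum_card_image f C]
    exact sq_sum_le_card_mul_sum_sq.trans (Nat.mul_le_mul_right _ hn)
  exact_mod_cast h2

/-- the density after `m` gluing steps -/
def dd (δ : ℝ) (Col : ℕ) : ℕ → ℝ
  | 0 => δ
  | m + 1 => dd δ Col m ^ 2 / Col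

theorem dd_pos {δ : ℝ} (hδ : 0 < δ) {Col : ℕ} (hC : 0 < Col) (m : ℕ) : 0 < dd δ Col m := by
  induction m with
  | zero => exact hδ
  | succ m ih => exact div_pos (pow_pos ih 2) (Nat.cast_pos.2 hC)

/-- points of the grid -/
abbrev Pt (k M : ℕ) : Type := Fin M × (Fin k → Fin M)

theorem comb_dd_nonneg {δ : ℝ} (hδ : 0 ≤ δ) (Col m : ℕ) : 0 ≤ dd δ Col m := by
  cases m with
  | zero => exact hδ
  | succ m => exact div_nonneg (sq_nonneg _) (Nat.cast_nonneg _)

/-- the consistent cubes -/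
def combC {k M : ℕ} (R : Fin M → (Fin k → Fin M) → (Fin k → Fin M) → Prop) :
    Finset (Fin M × (Fin k → Fin M) × (Fin k → Fin M)) :=
  Finset.univ.filter fun c => R c.1 c.2.1 c.2.2

theorem comb_mem {k M : ℕ} {R : Fin M → (Fin k → Fin M) → (Fin k → Fin M) → Prop}
    {c : Fin M × (Fin k → Fin M) × (Fin k → Fin M)} : c ∈ combC R ↔ R c.1 c.2.1 c.2.2 := by
  simp [combC]

theorem comb_step {k M Col : ℕ} {κ : Type} (B : Finset (Fin k)) {i : Fin k} (hi : i ∉ B)
    (R R' : Fin M → (Fin k → Fin M) → (Fin k → Fin M) → Prop)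
    (col : Fin M → (Fin k → Fin M) → (Fin k → Fin M) → κ)
    (hdiag : ∀ α z0 z1, R α z0 z1 → ∀ i ∉ B, z1 i = z0 i)
    (hcol : ∀ α z0 z1, ∃ 𝒮 : Finset κ, 𝒮.card ≤ Col ∧ ∀ m,
      R α (Function.update z0 i m) (Function.update z1 i m) →
        col α (Function.update z0 i m) (Function.update z1 i m) ∈ 𝒮)
    (hglue : ∀ α z0 z1 m m', R α (Function.update z0 i m) (Function.update z1 i m) →
      R α (Function.update z0 i m') (Function.update z1 i m') →
      col α (Function.update z0 i m) (Function.update z1 i m) =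
        col α (Function.update z0 i m') (Function.update z1 i m') →
      R' α (Function.update z0 i m) (Function.update z1 i m')) :
    ((combC R).card : ℝ) ^ 2 ≤ (M ^ (k + B.card) * Col : ℕ) * (combC R').card := by
  choose 𝒮 h𝒮 h𝒮' using hcol
  let f : Fin M × (Fin k → Fin M) × (Fin k → Fin M) → ((Fin k → Fin M) × (B → Fin M)) × κ :=
    fun c => ((Function.update c.2.1 i c.1, fun j => c.2.2 j), col c.1 c.2.1 c.2.2)
  have h1 : ((combC R).image f).card ≤ M ^ (k + B.card) * Col := by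
    refine (Finset.card_le_card (t := Finset.univ.biUnion
      fun w : (Fin k → Fin M) × (B → Fin M) =>
        {w} ×ˢ 𝒮 (w.1 i) w.1 fun j => if h : j ∈ B then w.2 ⟨j, h⟩ else w.1 j) ?_).trans
      ((Finset.card_biUnion_le_card_mul _ _ Col fun w _ => ?_).trans_eq (by simp [pow_add]))
    · intro y hy
      obtain ⟨⟨α, z0, z1⟩, hc, rfl⟩ := Finset.mem_image.1 hy
      replace hc : R α z0 z1 := comb_mem.1 hc
      refine Finset.mem_biUnion.2 ⟨_, Finset.mem_univ _,
        Finset.mem_product.2 ⟨Finset.mem_singleton_self _, ?_⟩⟩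
      have e0 : Function.update (Function.update z0 i α) i (z0 i) = z0 := by simp
      have e1 : Function.update (fun j => if j ∈ B then z1 j else Function.update z0 i α j) i
          (z0 i) = z1 := by
        funext j
        by_cases hj : j = i
        · rw [hj, Function.update_self, hdiag _ _ _ hc i hi]
        · rw [Function.update_of_ne hj]
          split_ifs with h
          · rfl
          · rw [Function.update_of_ne hj, hdiag _ _ _ hc j h]
      have := h𝒮' α (Function.update z0 i α)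
        (fun j => if j ∈ B then z1 j else Function.update z0 i α j) (z0 i)
      rw [e0, e1] at this
      simpa [f] using this hc
    · rw [Finset.card_product, Finset.card_singleton, one_mul]
      exact h𝒮 _ _ _
  refine (collision _ f _ (le_of_eq_of_le (by congr; exact Subsingleton.elim _ _) h1)).trans
    (mul_le_mul_of_nonneg_left (Nat.cast_le.2 ?_) (Nat.cast_nonneg _))
  have key : ∀ z, z ∈ combC R ×ˢ combC R ∧ f z.1 = f z.2 →
      z.2.1 = z.1.1 ∧ z.2.2.1 = Function.update z.1.2.1 i (z.2.2.2 i) ∧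
        z.1.2.2 = Function.update z.2.2.2 i (z.1.2.1 i) ∧ R' z.1.1 z.1.2.1 z.2.2.2 := by
    rintro ⟨⟨α, z0, z1⟩, α', z0', z1'⟩ hz
    simp only [Finset.mem_product, comb_mem, f, Prod.mk.injEq] at hz
    obtain ⟨⟨hc, hc'⟩, ⟨e0, e1⟩, e2⟩ := hz
    obtain rfl : α' = α := by simpa using (congrFun e0 i).symm
    have g0 : ∀ j, j ≠ i → z0 j = z0' j := fun j hj => by
      simpa [Function.update_of_ne hj] using congrFun e0 j
    have a0 : z0' = Function.update z0 i (z1' i) := by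
      funext j
      by_cases hj : j = i
      · rw [hj, Function.update_self, hdiag _ _ _ hc' i hi]
      · rw [Function.update_of_ne hj, g0 j hj]
    have a1 : z1 = Function.update z1' i (z0 i) := by
      funext j
      by_cases hj : j = i
      · rw [hj, Function.update_self, hdiag _ _ _ hc i hi]
      · rw [Function.update_of_ne hj]
        by_cases h : j ∈ B
        · exact congrFun e1 ⟨j, h⟩
        · rw [hdiag _ _ _ hc j h, hdiag _ _ _ hc' j h, g0 j hj]
    refine ⟨rfl, a0, a1, ?_⟩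
    have := hglue α' z0 z1' (z0 i) (z1' i)
    rw [Function.update_eq_self, Function.update_eq_self, ← a0, ← a1] at this
    exact this hc hc' e2
  refine Finset.card_le_card_of_injOn (fun z => (z.1.1, z.1.2.1, z.2.2.2))
    (fun z hz => comb_mem.2 (key z (by simpa using hz)).2.2.2) fun z hz w hw e => ?_
  obtain ⟨a1, a2, a3, -⟩ := key z (by simpa using hz)
  obtain ⟨b1, b2, b3, -⟩ := key w (by simpa using hw)
  simp only [Prod.mk.injEq] at e
  obtain ⟨e1, e2, e3⟩ := e
  refine Prod.ext (Prod.ext e1 (Prod.ext e2 ?_)) (Prod.ext ?_ (Prod.ext ?_ e3))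
  · rw [a3, b3, e2, e3]
  · rw [a1, b1, e1]
  · rw [a2, b2, e2, e3]

theorem comb_last {k M : ℕ} (R : Fin M → (Fin k → Fin M) → (Fin k → Fin M) → Prop) :
    ((combC R).card : ℝ) ^ 2 ≤ (M ^ k * M ^ k : ℕ) * ∑ x0 : Pt k M,
      ((Finset.univ.filter fun x : Pt k M => R x0.1 x0.2 x.2 ∧ R x.1 x0.2 x.2).card : ℝ) := by
  refine (collision _ (fun c => c.2) _ ((Finset.card_le_univ _).trans_eq (by simp))).trans
    (mul_le_mul_of_nonneg_left ?_ (Nat.cast_nonneg _))
  have h1 : ∑ x0 : Pt k M,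
      (Finset.univ.filter fun x : Pt k M => R x0.1 x0.2 x.2 ∧ R x.1 x0.2 x.2).card =
      (Finset.univ.filter fun p : Pt k M × Pt k M =>
        R p.1.1 p.1.2 p.2.2 ∧ R p.2.1 p.1.2 p.2.2).card := by
    simp only [Finset.card_filter]
    exact (Fintype.sum_prod_type fun p : Pt k M × Pt k M =>
      if R p.1.1 p.1.2 p.2.2 ∧ R p.2.1 p.1.2 p.2.2 then 1 else 0).symm
  rw [← Nat.cast_sum, Nat.cast_le, h1]
  refine Finset.card_le_card_of_injOn (fun z => ((z.1.1, z.1.2.1), (z.2.1, z.1.2.2)))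
    (fun z hz => ?_) fun z hz w hw e => ?_
  · simp only [Finset.coe_filter, Finset.mem_product, comb_mem, Set.mem_ofPred_eq] at hz
    simp only [Finset.coe_filter, Finset.mem_univ, true_and, Set.mem_ofPred_eq]
    exact ⟨hz.1.1, hz.2 ▸ hz.1.2⟩
  · simp only [Finset.coe_filter, Set.mem_ofPred_eq] at hz hw
    simp only [Prod.mk.injEq] at e
    have h2 : z.1.2 = w.1.2 := Prod.ext e.1.2 e.2.2
    exact Prod.ext (Prod.ext e.1.1 h2) (Prod.ext e.2.1 (hz.2.symm.trans (h2.trans hw.2)))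

theorem density {k M Col : ℕ} (hM : 0 < M) (hC : 0 < Col) {κ : Type} {δ : ℝ} (hδ : 0 ≤ δ)
    (Y : Finset (Pt k M)) (hY : δ * (M : ℝ) ^ (k + 1) ≤ Y.card)
    (Cons : Finset (Fin k) → Fin M → (Fin k → Fin M) → (Fin k → Fin M) → Prop)
    (col : Finset (Fin k) → Fin k → Fin M → (Fin k → Fin M) → (Fin k → Fin M) → κ)
    (h0 : ∀ y ∈ Y, Cons ∅ y.1 y.2 y.2)
    (hdiag : ∀ B α z0 z1, Cons B α z0 z1 → ∀ i ∉ B, z1 i = z0 i)
    (hcol : ∀ B, ∀ i ∉ B, ∀ α z0 z1, ∃ 𝒮 : Finset κ, 𝒮.card ≤ Col ∧ ∀ m,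
      Cons B α (Function.update z0 i m) (Function.update z1 i m) →
        col B i α (Function.update z0 i m) (Function.update z1 i m) ∈ 𝒮)
    (hglue : ∀ B, ∀ i ∉ B, ∀ α z0 z1 m m',
      Cons B α (Function.update z0 i m) (Function.update z1 i m) →
      Cons B α (Function.update z0 i m') (Function.update z1 i m') →
      col B i α (Function.update z0 i m) (Function.update z1 i m) =
        col B i α (Function.update z0 i m') (Function.update z1 i m') →
      Cons (insert i B) α (Function.update z0 i m) (Function.update z1 i m')) :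
    ∃ x0 : Pt k M, dd δ Col k ^ 2 * (M : ℝ) ^ (k + 1) ≤
      (Finset.univ.filter fun x : Pt k M =>
        Cons Finset.univ x0.1 x0.2 x.2 ∧ Cons Finset.univ x.1 x0.2 x.2).card := by
  have hM' : (0 : ℝ) < M := Nat.cast_pos.2 hM
  have hC' : (0 : ℝ) < Col := Nat.cast_pos.2 hC
  have key : ∀ B : Finset (Fin k),
      dd δ Col B.card * (M : ℝ) ^ (k + 1 + B.card) ≤ (combC (Cons B)).card := by
    intro B
    induction B using Finset.induction_on with
    | empty =>
      refine hY.trans (Nat.cast_le.2 (Finset.card_le_card_of_injOn (fun y => (y.1, y.2, y.2))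
        (fun y hy => comb_mem.2 (h0 y hy)) fun y _ y' _ e => ?_))
      simp only [Prod.mk.injEq] at e
      exact Prod.ext e.1 e.2.1
    | insert i B hi ih =>
      have h1 := (pow_le_pow_left₀ (mul_nonneg (comb_dd_nonneg hδ _ _) (by positivity)) ih 2).trans
        (comb_step B hi (Cons B) (Cons (insert i B)) (col B i) (hdiag B) (hcol B i hi)
          (hglue B i hi))
      rw [Finset.card_insert_of_notMem hi, dd, div_mul_eq_mul_div, div_le_iff₀ hC']
      refine le_of_mul_le_mul_left ?_ (pow_pos hM' (k + B.card))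
      push_cast at h1
      convert h1 using 1 <;> ring
  have h1 := key Finset.univ
  rw [Finset.card_univ, Fintype.card_fin] at h1
  have h2 := (pow_le_pow_left₀ (mul_nonneg (comb_dd_nonneg hδ _ _) (by positivity)) h1 2).trans
    (comb_last (Cons Finset.univ))
  have : Nonempty (Fin M) := ⟨⟨0, hM⟩⟩
  obtain ⟨x0, -, h⟩ := Finset.exists_le_of_sum_le (s := (Finset.univ : Finset (Pt k M)))
    (f := fun _ => dd δ Col k ^ 2 * (M : ℝ) ^ (k + 1)) Finset.univ_nonempty
    (le_of_mul_le_mul_left (le_trans (le_of_eq (by simp; ring)) h2) (by positivity))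
  exact ⟨x0, h⟩

/-- points sharing a coordinate with `x0` -/
def star {k M : ℕ} (x0 : Pt k M) : Finset (Pt k M) :=
  Finset.univ.filter fun y => y.1 = x0.1 ∨ ∃ i, y.2 i = x0.2 i

theorem card_star {k M : ℕ} (x0 : Pt k M) : (star x0).card ≤ (k + 1) * M ^ k := by
  have h1 : (Finset.univ.filter fun y : Pt k M => y.1 = x0.1).card ≤ M ^ k := by
    refine (Finset.card_le_card_of_injOn (fun y => y.2) (fun _ _ => Finset.mem_univ _)
      fun y hy y' hy' e => ?_).trans_eq (by simp)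
    exact Prod.ext ((Finset.mem_filter.1 hy).2.trans (Finset.mem_filter.1 hy').2.symm) e
  have h2 : ∀ i, (Finset.univ.filter fun y : Pt k M => y.2 i = x0.2 i).card ≤ M ^ k := fun i => by
    refine (Finset.card_le_card_of_injOn (fun y => Function.update y.2 i y.1)
      (fun _ _ => Finset.mem_univ _) fun y hy y' hy' e => ?_).trans_eq (by simp)
    refine Prod.ext (by simpa using congrFun e i) (funext fun j => ?_)
    by_cases hj : j = i
    · rw [hj, (Finset.mem_filter.1 hy).2, (Finset.mem_filter.1 hy').2]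
    · simpa [Function.update_of_ne hj] using congrFun e j
  have h3 : star x0 ⊆ (Finset.univ.filter fun y : Pt k M => y.1 = x0.1) ∪
      Finset.univ.biUnion fun i => Finset.univ.filter fun y : Pt k M => y.2 i = x0.2 i := by
    intro y hy
    simpa [star] using hy
  have h4 := Finset.card_biUnion_le_card_mul _ _ _ fun i (_ : i ∈ Finset.univ) => h2 i
  rw [Finset.card_univ, Fintype.card_fin] at h4
  refine (Finset.card_le_card h3).trans ((Finset.card_union_le _ _).trans ?_)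
  rw [add_mul, one_mul, add_comm]
  exact add_le_add h4 h1

/-- unions of at most `j` of the sets `Y' D` -/
def combF {X Dt : Type} (𝒟 : Finset Dt) (Y' : Dt → Finset X) : ℕ → Finset (Finset X)
  | 0 => {∅}
  | j + 1 => combF 𝒟 Y' j ∪ (combF 𝒟 Y' j ×ˢ 𝒟).image fun z => z.1 ∪ Y' z.2

theorem combF_card {X Dt : Type} (𝒟 : Finset Dt) (Y' : Dt → Finset X) (j : ℕ) :
    (combF 𝒟 Y' j).card ≤ (𝒟.card + 1) ^ j := by
  induction j with
  | zero => simp [combF]
  | succ j ih =>
    refine (Finset.card_union_le _ _).trans ((add_le_add_right Finset.card_image_le _).trans ?_)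
    rw [Finset.card_product, pow_succ, mul_add, mul_one, add_comm]
    exact add_le_add (Nat.mul_le_mul_right _ ih) ih

theorem combF_mono {X Dt : Type} (𝒟 : Finset Dt) (Y' : Dt → Finset X) : Monotone (combF 𝒟 Y') :=
  monotone_nat_of_le_succ fun _ => Finset.subset_union_left

theorem comb_greedy {X Dt : Type} [Fintype X] (𝒟 : Finset Dt) (Y' : Dt → Finset X)
    (valid : Dt → Prop) (Yl Y Z : Finset X) (zero : Dt → X → Prop) {a b : ℝ} {s J : ℕ}
    (h1 : ∀ D ∈ 𝒟, valid D → Y' D ⊆ Yl) (h2 : ∀ D ∈ 𝒟, valid D → ∀ x ∈ Y' D, x ∈ Z → zero D x)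
    (h3 : ∀ Y'' ⊆ Y, a ≤ Y''.card → ∃ D ∈ 𝒟, valid D ∧ b ≤ (Y' D ∩ Y'').card)
    (h4 : ∀ U ∈ combF 𝒟 Y' J, ∀ D ∈ 𝒟, valid D →
      3 * ((Y' D \ U).filter fun x => zero D x).card ≤ 2 * (Y' D \ U).card + 3 * s) :
    ∀ j ≤ J, ∃ U ∈ combF 𝒟 Y' j, U ⊆ Yl ∧ 3 * (Z ∩ U).card ≤ 2 * U.card + 3 * (j * s) ∧
      (((Y \ U).card : ℝ) < a ∨ j * b ≤ U.card) := by
  intro j
  induction j with
  | zero => exact fun _ => ⟨∅, Finset.mem_singleton_self _, Finset.empty_subset _, by simp, by simp⟩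
  | succ j ih =>
    intro hj
    obtain ⟨U, hU, hUY, g1, g2⟩ := ih (by omega)
    by_cases ha : ((Y \ U).card : ℝ) < a
    · exact ⟨U, Finset.mem_union_left _ hU, hUY, by rw [add_mul]; omega, Or.inl ha⟩
    obtain ⟨D, hD, hv, g3⟩ := h3 _ Finset.sdiff_subset (not_lt.1 ha)
    have g4 := h4 U (combF_mono 𝒟 Y' (by omega : j ≤ J) hU) D hD hv
    have g5 : (U ∪ Y' D).card = (Y' D \ U).card + U.card := by
      rw [Finset.card_sdiff_add_card, Finset.union_comm]
    have g6 : (Z ∩ (U ∪ Y' D)).card ≤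
        (Z ∩ U).card + ((Y' D \ U).filter fun x => zero D x).card := by
      refine (Finset.card_le_card fun x hx => ?_).trans (Finset.card_union_le _ _)
      simp only [Finset.mem_inter, Finset.mem_union, Finset.mem_filter, Finset.mem_sdiff] at hx ⊢
      by_cases hxU : x ∈ U
      · exact Or.inl ⟨hx.1, hxU⟩
      · have hx' := hx.2.resolve_left hxU
        exact Or.inr ⟨⟨hx', hxU⟩, h2 D hD hv x hx' hx.1⟩
    have g7 : (Y' D ∩ (Y \ U)).card ≤ (Y' D \ U).card := Finset.card_le_card fun x hx => by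
      simp only [Finset.mem_inter, Finset.mem_sdiff] at hx ⊢
      exact ⟨hx.1, hx.2.2⟩
    refine ⟨U ∪ Y' D, Finset.mem_union_right _
      (Finset.mem_image.2 ⟨(U, D), Finset.mem_product.2 ⟨hU, hD⟩, rfl⟩),
      Finset.union_subset hUY (h1 D hD hv), by rw [add_mul]; omega, Or.inr ?_⟩
    have g8 := g3.trans (Nat.cast_le.2 g7)
    have g9 := g2.resolve_left ha
    rw [g5]
    push_cast
    linarith

theorem cover_union {X Dt Pp : Type} [Fintype X] (𝒟 : Finset Dt) (Y' : Dt → Finset X)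
    (PP : Finset Pp) (valid : Pp → Dt → Prop) (Yl Y Z : Pp → Finset X) (zero : Dt → X → Pp → Prop)
    {ε δ θ : ℝ} {s J : ℕ} (hε : 0 ≤ ε) (hδ : 0 < δ) (hθ : 0 ≤ θ) (hJ : 1 ≤ δ * J)
    (hZ : ∀ p ∈ PP, Z p ⊆ Y p) (h1 : ∀ p ∈ PP, ∀ D ∈ 𝒟, valid p D → Y' D ⊆ Yl p)
    (h2 : ∀ p ∈ PP, ∀ D ∈ 𝒟, valid p D → ∀ x ∈ Y' D, x ∈ Z p → zero D x p)
    (h3 : ∀ p ∈ PP, ∀ Y'' ⊆ Y p, ε * Fintype.card X ≤ Y''.card →
      ∃ D ∈ 𝒟, valid p D ∧ δ * Fintype.card X ≤ (Y' D ∩ Y'').card)
    (h4 : ∀ D ∈ 𝒟, ∀ Q ⊆ Y' D, ((PP.filter fun p => valid p D ∧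
      2 * Q.card + 3 * s ≤ 3 * (Q.filter fun x => zero D x p).card).card : ℝ) ≤ θ) :
    ∑ p ∈ PP, ((Z p).card : ℝ) ≤ 2 / 3 * (∑ p ∈ PP, ((Yl p).card : ℝ)) +
      PP.card * (ε * Fintype.card X + J * s) + ((𝒟.card : ℝ) + 1) ^ (J + 1) * θ * Fintype.card X := by
  let bad : Finset X × Dt → Pp → Prop := fun z p => valid p z.2 ∧ 2 * (Y' z.2 \ z.1).card + 3 * s ≤
    3 * ((Y' z.2 \ z.1).filter fun x => zero z.2 x p).card
  let Bad : Finset Pp := (combF 𝒟 Y' J ×ˢ 𝒟).biUnion fun z => PP.filter (bad z)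
  have hX : (0 : ℝ) ≤ Fintype.card X := Nat.cast_nonneg _
  have hB : (Bad.card : ℝ) ≤ ((𝒟.card : ℝ) + 1) ^ (J + 1) * θ := by
    refine (Nat.cast_le.2 Finset.card_biUnion_le).trans ?_
    rw [Nat.cast_sum]
    refine (Finset.sum_le_card_nsmul _ _ θ fun z hz =>
      h4 z.2 (Finset.mem_product.1 hz).2 _ Finset.sdiff_subset).trans ?_
    rw [nsmul_eq_mul, Finset.card_product]
    refine mul_le_mul_of_nonneg_right ?_ hθ
    have := Nat.mul_le_mul (combF_card 𝒟 Y' J) (Nat.le_succ 𝒟.card)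
    rw [← pow_succ] at this
    exact_mod_cast this
  have hp : ∀ p ∈ PP, ((Z p).card : ℝ) ≤ 2 / 3 * ((Yl p).card : ℝ) + (ε * Fintype.card X + J * s) +
      if p ∈ Bad then (Fintype.card X : ℝ) else 0 := fun p hp => by
    split_ifs with hb
    · exact (Nat.cast_le.2 (Finset.card_le_univ _)).trans (le_add_of_nonneg_left (by positivity))
    obtain ⟨U, -, hUY, g1, g2⟩ := comb_greedy 𝒟 Y' (valid p) (Yl p) (Y p) (Z p) (fun D x => zero D x p)
      (s := s) (h1 p hp) (h2 p hp) (h3 p hp) (fun U hU D hD hv => by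
        by_contra h
        exact hb (Finset.mem_biUnion.2 ⟨(U, D), Finset.mem_product.2 ⟨hU, hD⟩,
          Finset.mem_filter.2 ⟨hp, hv, (not_le.1 h).le⟩⟩)) J le_rfl
    have g3 : (Z p).card ≤ (Z p ∩ U).card + (Y p \ U).card := by
      rw [← Finset.card_inter_add_card_sdiff (Z p) U]
      exact add_le_add_right (Finset.card_le_card (Finset.sdiff_subset_sdiff (hZ p hp) le_rfl)) _
    have g4 : (((Y p \ U).card + U.card : ℕ) : ℝ) ≤ Fintype.card X := by
      rw [Finset.card_sdiff_add_card]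
      exact Nat.cast_le.2 (Finset.card_le_univ _)
    have g5 : (U.card : ℝ) ≤ (Yl p).card := Nat.cast_le.2 (Finset.card_le_card hUY)
    have g6 : (0 : ℝ) ≤ (Y p \ U).card := Nat.cast_nonneg _
    have g7 := mul_le_mul_of_nonneg_right hJ hX
    have g8 := mul_nonneg hε hX
    have g1' := (Nat.cast_le (α := ℝ)).2 g1
    have g3' := (Nat.cast_le (α := ℝ)).2 g3
    push_cast at g1' g3' g4
    rcases g2 with g2 | g2 <;> linarith
  refine (Finset.sum_le_sum hp).trans ?_
  rw [Finset.sum_add_distrib, Finset.sum_add_distrib, ← Finset.mul_sum, Finset.sum_const,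
    nsmul_eq_mul, Finset.sum_ite_mem, Finset.sum_const, nsmul_eq_mul]
  exact add_le_add_right (mul_le_mul_of_nonneg_right
    ((Nat.cast_le.2 (Finset.card_le_card Finset.inter_subset_right)).trans hB) hX) _

theorem numerics (k C J : ℕ) (hJ : 0 < J) {ε : ℝ} (hε : 0 < ε) : ∃ M0 : ℕ, ∀ M ≥ M0, ∃ s : ℕ,
    (J * s : ℝ) ≤ ε * (M : ℝ) ^ (k + 1) ∧
      ((M : ℝ) ^ (k + 1) * (C : ℝ) ^ ((k + 1) * M ^ k) + 1) ^ (J + 1) * (3 * (2 : ℝ)⁻¹ ^ s) ≤ ε := by
  have hJ' : (0 : ℝ) < J := Nat.cast_pos.2 hJ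
  have hr0 : (0 : ℝ) < (2 : ℝ)⁻¹ ^ (ε / J) := by positivity
  have hr1 : (2 : ℝ)⁻¹ ^ (ε / J) < 1 :=
    Real.rpow_lt_one (by norm_num) (by norm_num) (div_pos hε hJ')
  have h1 := (tendsto_pow_const_mul_const_pow_of_abs_lt_one ((k + 1) * (J + 1))
    ((abs_of_pos hr0).trans_lt hr1)).const_mul ((2 * ((C : ℝ) + 1)) ^ ((k + 1) * (J + 1)))
  rw [mul_zero] at h1
  obtain ⟨M0, hM0⟩ := Filter.eventually_atTop.1
    ((h1.eventually (ge_mem_nhds (show 0 < min 1 (ε / 6) by positivity))).and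
      (Filter.eventually_ge_atTop 1))
  refine ⟨M0, fun M hM => ⟨⌊ε * (M : ℝ) ^ (k + 1) / J⌋₊,
    (le_div_iff₀' hJ').1 (Nat.floor_le (by positivity)), ?_⟩⟩
  obtain ⟨g1, g2⟩ := hM0 M hM
  have hM1 : (1 : ℝ) ≤ M := Nat.one_le_cast.2 g2
  have hC : (0 : ℝ) ≤ C := Nat.cast_nonneg C
  have ht : 1 ≤ M ^ k := Nat.one_le_pow _ _ g2
  have hn : k + 1 ≤ (k + 1) * M ^ k := Nat.le_mul_of_pos_right _ ht
  have a1 : (M : ℝ) ^ (k + 1) * (C : ℝ) ^ ((k + 1) * M ^ k) + 1 ≤
      (2 * ((C : ℝ) + 1) * M) ^ ((k + 1) * M ^ k) := by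
    have b1 : (M : ℝ) ^ (k + 1) * (C : ℝ) ^ ((k + 1) * M ^ k) ≤
        (((C : ℝ) + 1) * M) ^ ((k + 1) * M ^ k) := by
      rw [mul_pow, mul_comm]
      exact mul_le_mul (pow_le_pow_left₀ hC (by linarith) _) (pow_le_pow_right₀ hM1 hn)
        (by positivity) (by positivity)
    have b2 : (1 : ℝ) ≤ (((C : ℝ) + 1) * M) ^ ((k + 1) * M ^ k) :=
      one_le_pow₀ (one_le_mul_of_one_le_of_one_le (by linarith) hM1)
    have b3 : (2 : ℝ) ≤ 2 ^ ((k + 1) * M ^ k) := le_self_pow₀ one_le_two (by omega)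
    rw [mul_assoc, mul_pow 2]
    nlinarith
  have a2 : (2 : ℝ)⁻¹ ^ ⌊ε * (M : ℝ) ^ (k + 1) / J⌋₊ ≤ 2 * (((2 : ℝ)⁻¹ ^ (ε / J)) ^ M) ^ M ^ k := by
    rw [← pow_mul, ← Real.rpow_natCast, ← Real.rpow_natCast (_ ^ (ε / J)),
      ← Real.rpow_mul (by norm_num),
      ← inv_mul_le_iff₀ two_pos, mul_comm, ← Real.rpow_add_one (by norm_num)]
    refine Real.rpow_le_rpow_of_exponent_ge (by norm_num) (by norm_num)
      (le_trans (le_of_eq ?_) (Nat.lt_floor_add_one _).le)
    push_cast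
    ring
  have a3 := (pow_le_of_le_one (by positivity) (g1.trans (min_le_left _ _))
    (by omega : M ^ k ≠ 0)).trans (g1.trans (min_le_right _ _))
  refine (mul_le_mul (pow_le_pow_left₀ (by positivity) a1 _)
    (mul_le_mul_of_nonneg_left a2 (by norm_num)) (by positivity) (by positivity)).trans ?_
  rw [← mul_assoc, ← mul_pow, mul_pow, ← pow_mul, le_div_iff₀ (by norm_num)] at a3
  rw [← pow_mul, mul_right_comm (k + 1)]
  linarith

end

end Pool.Agent.Quad
end
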