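import Mathlib

-- merged part: Pool.Agent.Work.MP_60d5ce_nt.Qt.O
section
/-!
# The coefficient ring `O = Z_2`, its digits, vectors, the alternating forms
-/

namespace Pool.Agent.Quad

abbrev F2 : Type := ZMod 2

abbrev O : Type := ℤ_[2]

noncomputable section

theorem F2_cases (a : F2) : a = 0 ∨ a = 1 := by revert a; decide

theorem F2_add_self (a : F2) : a + a = 0 := by revert a; decide

theorem F2_neg (a : F2) : -a = a := by revert a; decide

theorem F2_sub (a b : F2) : a - b = a + b := by revert a b; decide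

theorem F2_mul_self (a : F2) : a * a = a := by revert a; decide

theorem F2_two : (2 : F2) = 0 := rfl

/-- reduction modulo two -/
def res : O →+* F2 := PadicInt.toZMod

/-- the set-theoretic lift `0, 1` -/
def lft (a : F2) : O := (a.val : O)

theorem res_eq_zero_iff (a : O) : res a = 0 ↔ (2 : O) ∣ a := by
  rw [res, ← RingHom.mem_ker, PadicInt.ker_toZMod, PadicInt.maximalIdeal_eq_span_p,
    Ideal.mem_span_singleton]
  rfl

@[simp] theorem res_two : res 2 = 0 := (res_eq_zero_iff _).2 dvd_rfl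

@[simp] theorem res_lft (a : F2) : res (lft a) = a := by simp [lft]

@[simp] theorem lft_zero : lft 0 = 0 := by simp [lft]

@[simp] theorem lft_one : lft 1 = 1 := by simp [lft, ZMod.val_one]

theorem two_mul_eq_zero {a : O} (h : (2 : O) * a = 0) : a = 0 := by simpa using h

theorem two_pow_mul_eq_zero {j : ℕ} {a : O} (h : (2 : O) ^ j * a = 0) : a = 0 := by
  induction j with
  | zero => simpa using h
  | succ j ih => exact ih (two_mul_eq_zero (by rw [← h]; ring))

theorem two_pow_mul_cancel {j : ℕ} {a b : O} (h : (2 : O) ^ j * a = (2 : O) ^ j * b) : a = b :=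
  sub_eq_zero.1 (two_pow_mul_eq_zero (j := j) (by rw [mul_sub, h, sub_self]))

theorem pow_mul_dvd_iff (i j : ℕ) (a : O) : (2 : O) ^ (i + j) ∣ (2 : O) ^ i * a ↔ (2 : O) ^ j ∣ a := by
  constructor
  · rintro ⟨c, hc⟩
    exact ⟨c, two_pow_mul_cancel (j := i) (by rw [hc]; ring)⟩
  · rintro ⟨c, rfl⟩
    exact ⟨c, by ring⟩

theorem eq_zero_of_forall_dvd {a : O} (h : ∀ j : ℕ, (2 : O) ^ j ∣ a) : a = 0 := by
  refine (PadicInt.ext_of_toZModPow (p := 2)).1 fun j => ?_
  rw [map_zero, ← RingHom.mem_ker, PadicInt.ker_toZModPow, Ideal.mem_span_singleton]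
  exact h j

theorem exists_tl (a : O) : ∃ b, a = lft (res a) + (2 : O) * b := by
  obtain ⟨b, hb⟩ := (res_eq_zero_iff (a - lft (res a))).1 (by simp)
  exact ⟨b, by rw [← hb]; ring⟩

/-- the tail `(a - lft (res a)) / (2 : O)` -/
def tl (a : O) : O := (exists_tl a).choose

theorem tl_spec (a : O) : a = lft (res a) + (2 : O) * tl a := (exists_tl a).choose_spec

theorem tl_eq {a b : O} {c : F2} (h : a = lft c + (2 : O) * b) : tl a = b := by
  have h1 : res a = c := by rw [h]; simp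
  have h2 := tl_spec a
  rw [h1] at h2
  exact two_pow_mul_cancel (j := 1) (by linear_combination h - h2)

/-- the `j`-th digit; for `a` divisible by `(2 : O) ^ j` it is the residue of `a / (2 : O) ^ j` -/
def dig (j : ℕ) (a : O) : F2 := res (tl^[j] a)

@[simp] theorem dig_zero (a : O) : dig 0 a = res a := rfl

theorem dig_succ (j : ℕ) (a : O) : dig (j + 1) a = dig j (tl a) := rfl

theorem dig_pow_mul (j : ℕ) (a : O) : dig j ((2 : O) ^ j * a) = res a := by
  induction j with
  | zero => simp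
  | succ j ih => rw [dig_succ, tl_eq (c := 0) (b := (2 : O) ^ j * a) (by simp; ring), ih]

@[simp] theorem dig_zero' (j : ℕ) : dig j 0 = 0 := by simpa using dig_pow_mul j 0

theorem dig_congr {j : ℕ} {a b : O} (h : (2 : O) ^ (j + 1) ∣ a - b) : dig j a = dig j b := by
  induction j generalizing a b with
  | zero =>
    have := (res_eq_zero_iff _).2 (by simpa using h)
    simpa [sub_eq_zero] using this
  | succ j ih =>
    obtain ⟨c, hc⟩ := h
    have : tl a = tl b + (2 : O) ^ (j + 1) * c :=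
      tl_eq (c := res b) (by linear_combination hc + tl_spec b)
    rw [dig_succ, dig_succ]
    exact ih ⟨c, by rw [this]; ring⟩

theorem dvd_sub_of_dig_eq {n : ℕ} {a b : O} (h : ∀ j < n, dig j a = dig j b) : (2 : O) ^ n ∣ a - b := by
  induction n generalizing a b with
  | zero => simp
  | succ n ih =>
    obtain ⟨c, hc⟩ := ih (a := tl a) (b := tl b) fun j hj => h (j + 1) (by omega)
    have h0 : res a = res b := h 0 (by omega)
    refine ⟨c, ?_⟩
    have h1 := tl_spec a
    rw [h0] at h1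
    linear_combination h1 - tl_spec b + (2 : O) * hc

theorem eq_pow_mul_lft_dig {j : ℕ} {a : O} (h : (2 : O) ^ j ∣ a) :
    (2 : O) ^ (j + 1) ∣ a - (2 : O) ^ j * lft (dig j a) := by
  obtain ⟨c, rfl⟩ := h
  rw [dig_pow_mul]
  exact ⟨tl c, by linear_combination (2 : O) ^ j * tl_spec c⟩

theorem dig_eq_zero_iff {j : ℕ} {a : O} (h : (2 : O) ^ j ∣ a) : dig j a = 0 ↔ (2 : O) ^ (j + 1) ∣ a := by
  obtain ⟨c, rfl⟩ := h
  rw [dig_pow_mul, res_eq_zero_iff, pow_mul_dvd_iff, pow_one]

theorem dig_of_dvd {j : ℕ} {a : O} (h : (2 : O) ^ (j + 1) ∣ a) : dig j a = 0 :=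
  (dig_eq_zero_iff ((pow_dvd_pow _ (Nat.le_succ j)).trans h)).2 h

theorem dig_add {j : ℕ} {a b : O} (ha : (2 : O) ^ j ∣ a) (hb : (2 : O) ^ j ∣ b) :
    dig j (a + b) = dig j a + dig j b := by
  obtain ⟨c, rfl⟩ := ha
  obtain ⟨d, rfl⟩ := hb
  rw [← mul_add, dig_pow_mul, dig_pow_mul, dig_pow_mul, map_add]

theorem dig_mul {i j : ℕ} {a b : O} (ha : (2 : O) ^ i ∣ a) (hb : (2 : O) ^ j ∣ b) :
    dig (i + j) (a * b) = dig i a * dig j b := by
  obtain ⟨c, rfl⟩ := ha
  obtain ⟨d, rfl⟩ := hb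
  rw [show (2 : O) ^ i * c * ((2 : O) ^ j * d) = (2 : O) ^ (i + j) * (c * d) by ring, dig_pow_mul, dig_pow_mul,
    dig_pow_mul, map_mul]

theorem dig_mul_left {j : ℕ} (a : O) {b : O} (hb : (2 : O) ^ j ∣ b) :
    dig j (a * b) = res a * dig j b := by
  simpa using dig_mul (i := 0) (a := a) (by simp) hb

theorem dig_neg {j : ℕ} {a : O} (ha : (2 : O) ^ j ∣ a) : dig j (-a) = -dig j a := by
  simpa using dig_mul_left (-1) ha

theorem dig_sub {j : ℕ} {a b : O} (ha : (2 : O) ^ j ∣ a) (hb : (2 : O) ^ j ∣ b) :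
    dig j (a - b) = dig j a - dig j b := by
  rw [sub_eq_add_neg, dig_add ha hb.neg_right, dig_neg hb, sub_eq_add_neg]

theorem dig_sum {ι : Type*} {j : ℕ} (s : Finset ι) {a : ι → O} (ha : ∀ i ∈ s, (2 : O) ^ j ∣ a i) :
    dig j (∑ i ∈ s, a i) = ∑ i ∈ s, dig j (a i) := by
  classical
  induction s using Finset.induction_on with
  | empty => simp
  | insert i s hi ih =>
    rw [Finset.sum_insert hi, Finset.sum_insert hi, dig_add (ha i (Finset.mem_insert_self _ _))
      (Finset.dvd_sum fun l hl => ha l (Finset.mem_insert_of_mem hl)),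
      ih fun l hl => ha l (Finset.mem_insert_of_mem hl)]

/-- the sign `(-1) ^ x` -/
def sg (x : F2) : O := (-1) ^ x.val

@[simp] theorem sg_zero : sg 0 = 1 := by simp [sg]

@[simp] theorem sg_one : sg 1 = -1 := by simp [sg, ZMod.val_one]

theorem sg_add (x y : F2) : sg (x + y) = sg x * sg y := by
  rcases F2_cases x with rfl | rfl <;> rcases F2_cases y with rfl | rfl <;>
    simp [F2_add_self]

theorem sg_mul_self (x : F2) : sg x * sg x = 1 := by rcases F2_cases x with rfl | rfl <;> simp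

theorem sg_eq (x : F2) : sg x = 1 - 2 * lft x := by
  rcases F2_cases x with rfl | rfl <;> norm_num

@[simp] theorem res_sg (x : F2) : res (sg x) = 1 := by simp [sg_eq]

theorem isUnit_of_res_ne_zero {a : O} (h : res a ≠ 0) : IsUnit a := by
  rw [← IsLocalRing.notMem_maximalIdeal, ← PadicInt.ker_toZMod, RingHom.mem_ker]
  exact h

theorem res_natCast_of_mod {n : ℕ} (h : n % 2 = 1) : res (n : O) = 1 := by
  rw [map_natCast, ← Nat.div_add_mod n 2, h]
  push_cast
  rw [F2_two]; simp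

/-- vectors of rank two -/
abbrev V : Type := Fin 2 → O

/-- vectors of rank two modulo two -/
abbrev Vb : Type := Fin 2 → F2

/-- the index set of the doubled lattice -/
abbrev H : Type := Fin 2 ⊕ Fin 2

section vec

variable {I : Type}

/-- divisibility of a vector by `2 ^ j` -/
def VD (j : ℕ) (a : I → O) : Prop := ∀ i, (2 : O) ^ j ∣ a i

/-- digit of a vector -/
def digV (j : ℕ) (a : I → O) : I → F2 := fun i => dig j (a i)

/-- lift of a vector -/
def lftV (a : I → F2) : I → O := fun i => lft (a i)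

theorem VD.zero (j : ℕ) : VD j (0 : I → O) := fun _ => dvd_zero _

theorem VD.triv (a : I → O) : VD 0 a := fun _ => by simp

theorem VD.add {j : ℕ} {a b : I → O} (ha : VD j a) (hb : VD j b) : VD j (a + b) :=
  fun i => (ha i).add (hb i)

theorem VD.neg {j : ℕ} {a : I → O} (ha : VD j a) : VD j (-a) := fun i => (ha i).neg_right

theorem VD.sub {j : ℕ} {a b : I → O} (ha : VD j a) (hb : VD j b) : VD j (a - b) :=
  fun i => (ha i).sub (hb i)

theorem VD.smul {j : ℕ} {a : I → O} (ha : VD j a) (c : O) : VD j (c • a) :=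
  fun i => (ha i).mul_left c

theorem VD.mono {i j : ℕ} {a : I → O} (ha : VD j a) (h : i ≤ j) : VD i a :=
  fun l => (pow_dvd_pow _ h).trans (ha l)

theorem VD.sum {ι : Type*} {j : ℕ} (s : Finset ι) {a : ι → I → O} (ha : ∀ i ∈ s, VD j (a i)) :
    VD j (∑ i ∈ s, a i) := fun l => by
  rw [Finset.sum_apply]; exact Finset.dvd_sum fun i hi => ha i hi l

theorem VD.mulVec [Fintype I] {J : Type} {j : ℕ} {a : I → O} (ha : VD j a) (A : Matrix J I O) :
    VD j (A.mulVec a) := fun i => by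
  simp only [Matrix.mulVec, dotProduct]
  exact Finset.dvd_sum fun l _ => (ha l).mul_left _

theorem VD.exists {j : ℕ} {a : I → O} (ha : VD j a) : ∃ b : I → O, a = (2 : O) ^ j • b := by
  choose b hb using ha
  exact ⟨b, funext hb⟩

theorem VD_pow_smul (j : ℕ) (a : I → O) : VD j ((2 : O) ^ j • a) := fun _ => Dvd.intro _ rfl

theorem VD_pow_smul_iff (i j : ℕ) (a : I → O) : VD (i + j) ((2 : O) ^ i • a) ↔ VD j a :=
  forall_congr' fun l => pow_mul_dvd_iff i j (a l)

theorem digV_pow_smul (j : ℕ) (a : I → O) : digV j ((2 : O) ^ j • a) = digV 0 a :=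
  funext fun l => dig_pow_mul j (a l)

theorem digV_congr {j : ℕ} {a b : I → O} (h : VD (j + 1) (a - b)) : digV j a = digV j b :=
  funext fun l => dig_congr (h l)

theorem digV_eq_zero_iff {j : ℕ} {a : I → O} (h : VD j a) : digV j a = 0 ↔ VD (j + 1) a := by
  rw [funext_iff]
  exact forall_congr' fun l => dig_eq_zero_iff (h l)

theorem digV_add {j : ℕ} {a b : I → O} (ha : VD j a) (hb : VD j b) :
    digV j (a + b) = digV j a + digV j b := funext fun l => dig_add (ha l) (hb l)

theorem digV_sub {j : ℕ} {a b : I → O} (ha : VD j a) (hb : VD j b) :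
    digV j (a - b) = digV j a - digV j b := funext fun l => dig_sub (ha l) (hb l)

theorem digV_smul {j : ℕ} (c : O) {a : I → O} (ha : VD j a) : digV j (c • a) = res c • digV j a :=
  funext fun l => dig_mul_left c (ha l)

theorem digV_sum {ι : Type*} {j : ℕ} (s : Finset ι) {a : ι → I → O} (ha : ∀ i ∈ s, VD j (a i)) :
    digV j (∑ i ∈ s, a i) = ∑ i ∈ s, digV j (a i) := funext fun l => by
  simp only [digV, Finset.sum_apply]
  exact dig_sum s fun i hi => ha i hi l

@[simp] theorem digV_lftV (a : I → F2) : digV 0 (lftV a) = a := funext fun l => res_lft (a l)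

theorem VD_sub_lftV {j : ℕ} {a : I → O} (h : VD j a) : VD (j + 1) (a - (2 : O) ^ j • lftV (digV j a)) :=
  fun l => eq_pow_mul_lft_dig (h l)

theorem VD.eq_zero {a : I → O} (h : ∀ j, VD j a) : a = 0 :=
  funext fun i => eq_zero_of_forall_dvd fun j => h j i

theorem digV_of_VD {j : ℕ} {a : I → O} (h : VD (j + 1) a) : digV j a = 0 :=
  funext fun i => dig_of_dvd (h i)

theorem digV_neg {j : ℕ} {a : I → O} (ha : VD j a) : digV j (-a) = digV j a :=
  funext fun l => (dig_neg (ha l)).trans (F2_neg _)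

theorem digV_mulVec [Fintype I] {J : Type} {j : ℕ} (A : Matrix J I O) {a : I → O} (ha : VD j a) :
    digV j (A.mulVec a) = (A.map res).mulVec (digV j a) := funext fun l => by
  simp only [digV, Matrix.mulVec, dotProduct, Matrix.map_apply]
  rw [dig_sum _ fun i _ => (ha i).mul_left _]
  exact Finset.sum_congr rfl fun i _ => dig_mul_left _ (ha i)

theorem vb_add_self (a : I → F2) : a + a = 0 := funext fun i => F2_add_self (a i)

theorem vb_neg (a : I → F2) : -a = a := funext fun i => F2_neg (a i)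

theorem vb_sub (a b : I → F2) : a - b = a + b := funext fun i => F2_sub (a i) (b i)

end vec

section forms

variable {R : Type} [CommRing R]

/-- the alternating form -/
def ee (a b : Fin 2 → R) : R := a 0 * b 1 - a 1 * b 0

/-- first component -/
def p0 {A : Type} (a : H → A) : Fin 2 → A := fun i => a (Sum.inl i)

/-- second component -/
def p1 {A : Type} (a : H → A) : Fin 2 → A := fun i => a (Sum.inr i)

/-- the symmetric form on the doubled lattice -/
def bil (a b : H → R) : R := ee (p1 a) (p0 b) - ee (p0 a) (p1 b)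

theorem ee_self (a : Fin 2 → R) : ee a a = 0 := by simp only [ee]; ring

theorem ee_swap (a b : Fin 2 → R) : ee a b = -ee b a := by simp only [ee]; ring

theorem ee_comm (a b : Vb) : ee a b = ee b a := by rw [ee_swap, F2_neg]

theorem ee_add_left (a a' b : Fin 2 → R) : ee (a + a') b = ee a b + ee a' b := by
  simp only [ee, Pi.add_apply]; ring

theorem ee_add_right (a b b' : Fin 2 → R) : ee a (b + b') = ee a b + ee a b' := by
  simp only [ee, Pi.add_apply]; ring

theorem ee_sub_left (a a' b : Fin 2 → R) : ee (a - a') b = ee a b - ee a' b := by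
  simp only [ee, Pi.sub_apply]; ring

theorem ee_sub_right (a b b' : Fin 2 → R) : ee a (b - b') = ee a b - ee a b' := by
  simp only [ee, Pi.sub_apply]; ring

theorem ee_smul_left (c : R) (a b : Fin 2 → R) : ee (c • a) b = c * ee a b := by
  simp only [ee, Pi.smul_apply, smul_eq_mul]; ring

theorem ee_smul_right (c : R) (a b : Fin 2 → R) : ee a (c • b) = c * ee a b := by
  simp only [ee, Pi.smul_apply, smul_eq_mul]; ring

@[simp] theorem ee_zero_left (b : Fin 2 → R) : ee 0 b = 0 := by simp [ee]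

@[simp] theorem ee_zero_right (a : Fin 2 → R) : ee a 0 = 0 := by simp [ee]

theorem ee_mulVec (A : Matrix (Fin 2) (Fin 2) R) (a b : Fin 2 → R) :
    ee (A.mulVec a) (A.mulVec b) = A.det * ee a b := by
  simp only [ee, Matrix.mulVec, dotProduct, Fin.sum_univ_two, Matrix.det_fin_two]; ring

theorem bil_comm (a b : H → R) : bil a b = bil b a := by
  simp only [bil, ee]; ring

theorem ee_dvd {i j : ℕ} {a b : V} (ha : VD i a) (hb : VD j b) : (2 : O) ^ (i + j) ∣ ee a b := by
  rw [pow_add]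
  exact (mul_dvd_mul (ha 0) (hb 1)).sub (mul_dvd_mul (ha 1) (hb 0))

theorem dig_ee {i j : ℕ} {a b : V} (ha : VD i a) (hb : VD j b) :
    dig (i + j) (ee a b) = ee (digV i a) (digV j b) := by
  rw [ee, dig_sub (by rw [pow_add]; exact mul_dvd_mul (ha 0) (hb 1))
    (by rw [pow_add]; exact mul_dvd_mul (ha 1) (hb 0)), dig_mul (ha 0) (hb 1),
    dig_mul (ha 1) (hb 0)]
  rfl

theorem VD.p0 {j : ℕ} {a : H → O} (ha : VD j a) : VD j (p0 a) := fun i => ha (Sum.inl i)

theorem VD.p1 {j : ℕ} {a : H → O} (ha : VD j a) : VD j (p1 a) := fun i => ha (Sum.inr i)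

theorem VD_of_p {j : ℕ} {a : H → O} (h0 : VD j (p0 a)) (h1 : VD j (p1 a)) : VD j a := by
  rintro (i | i)
  · exact h0 i
  · exact h1 i

theorem bil_dvd {i j : ℕ} {a b : H → O} (ha : VD i a) (hb : VD j b) :
    (2 : O) ^ (i + j) ∣ bil a b :=
  (ee_dvd ha.p1 hb.p0).sub (ee_dvd ha.p0 hb.p1)

theorem dig_bil {i j : ℕ} {a b : H → O} (ha : VD i a) (hb : VD j b) :
    dig (i + j) (bil a b) = bil (digV i a) (digV j b) := by
  rw [bil, dig_sub (ee_dvd ha.p1 hb.p0) (ee_dvd ha.p0 hb.p1), dig_ee ha.p1 hb.p0,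
    dig_ee ha.p0 hb.p1]
  rfl

/-- nondegeneracy -/
theorem eq_zero_of_ee {a : Vb} (h : ∀ b, ee a b = 0) : a = 0 := by
  have h1 := h ![1, 0]
  have h2 := h ![0, 1]
  simp [ee] at h1 h2
  funext i
  fin_cases i <;> simp [h1, h2]

/-- the orthogonal of a nonzero vector is the line it spans -/
theorem ee_eq_zero_iff {a b : Vb} (ha : a ≠ 0) : ee a b = 0 ↔ b = 0 ∨ b = a := by
  revert a b; decide

end forms

end

end Pool.Agent.Quad
end

-- merged part: Pool.Agent.Work.MP_60d5ce_nt.Qt.Tame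
section
/-!
# Tame data: the arithmetic input of the method, as a structure on an abstract group

`W` is the Weil group of `k(t)`, `P` the set of places.  See `/team-store/h4_quad_plan.md`.
-/

namespace Pool.Agent.Quad

open scoped Classical

noncomputable section

/-- the bare data -/
structure Pre (W P : Type) [Group W] where
  q : ℕ
  deg : W → ℤ
  deg_mul : ∀ g h, deg (g * h) = deg g + deg h
  dg : P → ℕ
  inf : P
  σ : P → W
  τ : P → W
  Adm : Subgroup W → Prop

variable {W P : Type} [Group W]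

namespace Pre

variable (T : Pre W P)

theorem deg_one : T.deg 1 = 0 := by simpa using T.deg_mul 1 1

theorem deg_inv (g : W) : T.deg g⁻¹ = -T.deg g := by
  have := T.deg_mul g g⁻¹
  rw [mul_inv_cancel, T.deg_one] at this
  omega

/-- the geometric group -/
def G0 : Subgroup W where
  carrier := {g | T.deg g = 0}
  mul_mem' {a b} ha hb := by
    simp only [Set.mem_ofPred_eq] at *
    rw [T.deg_mul, ha, hb, add_zero]
  one_mem' := T.deg_one
  inv_mem' {a} ha := by
    simp only [Set.mem_ofPred_eq] at *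
    rw [T.deg_inv, ha, neg_zero]

/-- the residue cardinality -/
def Q (v : P) : ℕ := T.q ^ T.dg v

/-- the local group -/
def D (v : P) : Subgroup W := Subgroup.closure {T.σ v, T.τ v}

/-- smooth functions -/
def Sm {A : Type*} (f : W → A) : Prop := ∃ U, T.Adm U ∧ ∀ g, ∀ u ∈ U, f (g * u) = f g

/-- smooth functions of two variables -/
def Sm2 {A : Type*} (θ : W → W → A) : Prop :=
  ∃ U, T.Adm U ∧ ∀ g h, ∀ u ∈ U, ∀ u' ∈ U, θ (g * u) (h * u') = θ g h

/-- smooth homomorphisms to an additive group -/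
def IsHom {A : Type*} [Add A] (x : W → A) : Prop := T.Sm x ∧ ∀ g h, x (g * h) = x g + x h

/-- the local invariant of a function of two variables -/
def inv {A : Type*} [AddCommGroup A] (v : P) (θ : W → W → A) : A :=
  θ (T.σ v) (T.τ v) - θ (T.τ v ^ T.Q v) (T.σ v) - ∑ i ∈ Finset.Ico 1 (T.Q v), θ (T.τ v ^ i) (T.τ v)

/-- the error term of the Chebotarev estimate -/
def err (N c e : ℕ) : ℝ := 18 * (N : ℝ) ^ 2 * (c + 1) * (T.q : ℝ) ^ ((e + 1) / 2)

end Pre

/-- 2-cocycles with trivial action -/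
def IsCoc2 {A : Type*} [AddCommGroup A] (θ : W → W → A) : Prop :=
  ∀ g h k, θ h k - θ (g * h) k + θ g (h * k) - θ g h = 0

/-- the axioms -/
structure Tame (W P : Type) [Group W] extends Pre W P where
  q_mod : q % 2 = 1
  q_ge : 4 ≤ q
  dg_pos : ∀ v, 0 < dg v
  dg_fin : ∀ e, {v | dg v = e}.Finite
  dg_inf : dg inf = 1
  deg_σ : ∀ v, deg (σ v) = dg v
  deg_τ : ∀ v, deg (τ v) = 0
  adm_G0 : Adm toPre.G0
  adm_normal : ∀ U, Adm U → U.Normal
  adm_le : ∀ U, Adm U → U ≤ toPre.G0
  adm_inf : ∀ U U', Adm U → Adm U' → Adm (U ⊓ U')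
  adm_mono : ∀ U U', Adm U → U ≤ U' → U'.Normal → U' ≤ toPre.G0 → Adm U'
  adm_index : ∀ U, Adm U → U.relIndex toPre.G0 ≠ 0
  rel : ∀ U, Adm U → ∀ v, (σ v * τ v)⁻¹ * (τ v ^ toPre.Q v * σ v) ∈ U
  fin : ∀ U, Adm U → {v | τ v ∉ U}.Finite
  χ : P → W → F2
  χ_hom : ∀ v, toPre.IsHom (χ v)
  χ_self : ∀ v, v ≠ inf → χ v (τ v) = 1
  χ_ne : ∀ v w, w ≠ v → w ≠ inf → χ v (τ w) = 0
  χ_inf : ∀ v, χ v (σ inf) = 0
  uniq : ∀ h : W → F2, toPre.IsHom h → (∀ v, v ≠ inf → h (τ v) = 0) → h (σ inf) = 0 → h = 0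
  recip : ∀ θ : W → W → F2, toPre.Sm2 θ → IsCoc2 θ → ∀ S : Finset P,
    (∀ v ∉ S, toPre.inv v θ = 0) → ∑ v ∈ S, toPre.inv v θ = 0
  hasse : ∀ θ : W → W → F2, toPre.Sm2 θ → IsCoc2 θ → (∀ v, toPre.inv v θ = 0) →
    ∃ b : W → F2, toPre.Sm b ∧ ∀ g h, θ g h = b g + b h - b (g * h)
  cheb : ∀ U, Adm U → ∀ N : ℕ, U.relIndex toPre.G0 ≤ N → ∀ A : Finset P, inf ∈ A →
    (∀ v ∉ A, τ v ∈ U) → ∀ E : Set W, (∀ g ∈ E, ∀ u ∈ U, g * u ∈ E) →
    (∀ g ∈ E, ∀ h, h * g * h⁻¹ ∈ E) → ∀ e : ℕ, 0 < e → ∀ (J : Type) [Fintype J] [Nonempty J]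
    (z : J → W), (∀ j, deg (z j) = 0) → ∀ θ : ℝ,
    (∀ g, deg g = e → (({j | g * z j ∈ E} : Set J).ncard : ℝ) ≤ θ * Fintype.card J) →
    (e : ℝ) * ({v | dg v = e ∧ v ∉ A ∧ σ v ∈ E}.ncard : ℝ) ≤
      θ * ((q : ℝ) ^ e + toPre.err N (∑ v ∈ A, dg v) e)
  pnt : ∀ e : ℕ, 0 < e →
    (q : ℝ) ^ e ≤ e * ({v | dg v = e ∧ v ≠ inf}.ncard : ℝ) + 2 * (q : ℝ) ^ ((e + 1) / 2)

namespace Tame

variable (T : Tame W P)

theorem isUnit_q : IsUnit (T.q : O) :=
  isUnit_of_res_ne_zero (by rw [res_natCast_of_mod T.q_mod]; exact one_ne_zero)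

/-- the cyclotomic character `q ^ deg` -/
def cq (g : W) : O := ((T.isUnit_q.unit ^ T.deg g : Oˣ) : O)

/-- the sign character of the constant field: zero exactly when `q = 1` modulo four -/
def eps : F2 := (T.q.choose 2 : F2)

end Tame

end

end Pool.Agent.Quad
end
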