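import Mathlib

/-!
# Cocycles of signs are coboundaries in the units

Port of `Sm/Brauer.lean` from three to two.  `G` is a finite group acting faithfully on a field `M`.
Hypothesis: for `H ≤ H'` subgroups, `H` normal of index two in `H'`, every element fixed by `H'` is a
norm from the elements fixed by `H`.

`brauer_sign`: `brauer_split` for a Sylow 2-subgroup `P` gives a section `w` of `BrauerExt D → G` that is
multiplicative on `P`.  Transfer: choose representatives `t` of `G / P`, put `s (t p) = s0 t * w p`, so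
`s (g p) = s g * w p`; define `c' g h` by `s g * s h = incl (c' g h) * s (g h)`; then `c' g (h p) = c' g h`.
With `B g = ∏ t : G ⧸ P, c' g t` the cocycle identity gives `φ g (B h) * B g = B (g h) * c' g h ^ n`,
`n = [G : P]` odd.  `c'` and `c` differ by a coboundary, and `c ^ n = c`.
-/

namespace Pool.Agent.Quad

theorem hilbert90 {G M : Type} [Group G] [Finite G] [Field M] (φ : G →* (M ≃+* M))
    (hφ : Function.Injective φ) (f : G → M) (h0 : ∀ g, f g ≠ 0)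
    (hf : ∀ g h, f (g * h) = f g * φ g (f h)) : ∃ a : M, a ≠ 0 ∧ ∀ g, f g * φ g a = a := by
  classical
  have := Fintype.ofFinite G
  have hinj : Function.Injective (fun g : G => ((φ g : M →+* M) : M →* M)) := by
    intro g g' h
    apply hφ
    ext x
    exact DFunLike.congr_fun h x
  have hli := (linearIndependent_monoidHom M M).comp _ hinj
  rw [Fintype.linearIndependent_iff] at hli
  obtain ⟨x, hx⟩ : ∃ x : M, ∑ h, f h * φ h x ≠ 0 := by
    by_contra hn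
    push Not at hn
    refine h0 1 (hli f ?_ 1)
    funext x
    rw [Finset.sum_apply]
    exact hn x
  refine ⟨_, hx, fun g => ?_⟩
  rw [map_sum, Finset.mul_sum, ← Equiv.sum_comp (Equiv.mulLeft g) (fun h => f h * φ h x)]
  refine Finset.sum_congr rfl fun h _ => ?_
  simp only [Equiv.coe_mulLeft, hf, map_mul, RingAut.mul_apply]
  ring

lemma brauer_index_top {G : Type} [Group G] [Finite G] {n : ℕ} (hG : Nat.card G = 2 ^ (n + 1)) :
    ∃ (K : Subgroup G) (s : G), Nat.card K = 2 ^ n ∧ K.Normal ∧ s ∉ K ∧ s ^ 2 ∈ K ∧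
      ∀ g, ∃ (i : ℕ) (h : G), h ∈ K ∧ g = s ^ i * h := by
  have : Fact (Nat.Prime 2) := ⟨Nat.prime_two⟩
  obtain ⟨K, hK⟩ := Sylow.exists_subgroup_card_pow_prime (G := G) 2 (n := n)
    (by rw [hG]; exact pow_dvd_pow 2 (Nat.le_succ n))
  have hi : K.index = 2 := by
    have h := K.card_mul_index
    rw [hK, hG, pow_succ] at h
    exact Nat.eq_of_mul_eq_mul_left (by positivity) h
  have hn : K.Normal := by
    apply Subgroup.normal_of_index_eq_minFac_card
    rw [hi, hG, Nat.prime_two.pow_minFac (Nat.succ_ne_zero n)]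
  obtain ⟨s, hs⟩ : ∃ s, s ∉ K := by
    by_contra h
    push Not at h
    have : K = ⊤ := eq_top_iff.mpr fun x _ => h x
    rw [this, Subgroup.index_top] at hi
    omega
  refine ⟨K, s, hK, hn, hs, by simpa [hi] using K.pow_index_mem s, fun g => ?_⟩
  have hs' : (s : G ⧸ K) ≠ 1 := fun h => hs ((QuotientGroup.eq_one_iff s).mp h)
  obtain ⟨i, hi'⟩ := mem_powers_of_prime_card (G := G ⧸ K) (p := 2) hi (g' := (g : G ⧸ K)) hs'
  refine ⟨i, (s ^ i)⁻¹ * g, ?_, by group⟩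
  rw [← QuotientGroup.eq]
  simpa using hi'

lemma brauer_index {G : Type} [Group G] [Finite G] {n : ℕ} (H : Subgroup G)
    (hH : Nat.card H = 2 ^ (n + 1)) :
    ∃ (K : Subgroup G) (s : G), Nat.card K = 2 ^ n ∧ s ∉ K ∧ s ^ 2 ∈ K ∧
      (∀ h ∈ K, s * h * s⁻¹ ∈ K) ∧ (∀ h ∈ K, s⁻¹ * h * s ∈ K) ∧
      ∀ g ∈ H, ∃ (i : ℕ) (h : G), h ∈ K ∧ g = s ^ i * h := by
  obtain ⟨K, s, hK, hn, hs, hs3, hg⟩ := brauer_index_top hH
  refine ⟨K.map H.subtype, s, ?_, ?_, ⟨s ^ 2, hs3, rfl⟩, ?_, ?_, ?_⟩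
  · rw [Subgroup.card_map_of_injective H.subtype_injective, hK]
  · rintro ⟨t, ht, e⟩
    exact hs (by rwa [← Subtype.ext e])
  · rintro _ ⟨h, hh, rfl⟩
    exact ⟨s * h * s⁻¹, hn.conj_mem h hh s, rfl⟩
  · rintro _ ⟨h, hh, rfl⟩
    exact ⟨s⁻¹ * h * s, hn.conj_mem' h hh s, rfl⟩
  · intro g hgH
    obtain ⟨i, h, hh, e⟩ := hg ⟨g, hgH⟩
    exact ⟨i, h, ⟨h, hh, rfl⟩, congrArg Subtype.val e⟩

/-- Gluing a section on `K` with a lift `u` of `s`. -/
lemma brauer_glue {G E : Type} [Group G] [Group E] (π : E →* G) (H K : Subgroup G) (s : G)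
    (hs : s ∉ K) (hs3 : s ^ 2 ∈ K) (hn : ∀ h ∈ K, s⁻¹ * h * s ∈ K)
    (hg : ∀ g ∈ H, ∃ (i : ℕ) (h : G), h ∈ K ∧ g = s ^ i * h) (v : G → E)
    (hv1 : ∀ h ∈ K, π (v h) = h) (hv2 : ∀ g ∈ K, ∀ h ∈ K, v (g * h) = v g * v h) (u : E)
    (hu : π u = s) (hu1 : ∀ h ∈ K, u * v (s⁻¹ * h * s) = v h * u) (hu3 : u ^ 2 = v (s ^ 2)) :
    ∃ w : G → E, (∀ h ∈ H, π (w h) = h) ∧ ∀ g ∈ H, ∀ h ∈ H, w (g * h) = w g * w h := by
  classical
  have hmove : ∀ (j : ℕ), ∀ h ∈ K, ∃ k ∈ K, h * s ^ j = s ^ j * k ∧ v h * u ^ j = u ^ j * v k := by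
    intro j
    induction j with
    | zero => exact fun h hh => ⟨h, hh, by simp, by simp⟩
    | succ j ih =>
      intro h hh
      obtain ⟨k, hk, e1, e2⟩ := ih h hh
      refine ⟨s⁻¹ * k * s, hn k hk, ?_, ?_⟩
      · rw [pow_succ, ← mul_assoc, e1]; group
      · rw [pow_succ, ← mul_assoc, e2, mul_assoc, mul_assoc, hu1 k hk]
  have hcube : ∀ (k : ℕ), ∀ h ∈ K, u ^ (2 * k) * v h = v (s ^ (2 * k) * h) := by
    intro k
    induction k with
    | zero => intro h _; simp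
    | succ k ih =>
      intro h hh
      rw [Nat.mul_succ, pow_add, pow_add, mul_assoc, mul_assoc, hu3, ← hv2 _ hs3 _ hh,
        ih _ (K.mul_mem hs3 hh)]
  have hd : ∀ d : ℕ, s ^ d ∈ K → ∃ k, d = 2 * k := by
    intro d hd
    have h3 : s ^ (2 * (d / 2)) ∈ K := by rw [pow_mul]; exact K.pow_mem hs3 _
    have hr : s ^ (d % 2) ∈ K := by
      have := K.mul_mem (K.inv_mem h3) hd
      rwa [show s ^ d = s ^ (2 * (d / 2)) * s ^ (d % 2) by rw [← pow_add, Nat.div_add_mod],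
        inv_mul_cancel_left] at this
    have : d % 2 = 0 ∨ d % 2 = 1 := by omega
    rcases this with h | h
    · exact ⟨d / 2, by omega⟩
    · rw [h, pow_one] at hr
      exact absurd hr hs
  have hwd0 : ∀ (i d : ℕ), ∀ h ∈ K, ∀ h' ∈ K, s ^ i * h = s ^ (i + d) * h' →
      u ^ i * v h = u ^ (i + d) * v h' := by
    intro i d h hh h' hh' e
    rw [pow_add, mul_assoc, mul_left_cancel_iff] at e
    have hm : s ^ d ∈ K := by
      have := K.mul_mem hh (K.inv_mem hh')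
      rwa [e, mul_inv_cancel_right] at this
    obtain ⟨k, rfl⟩ := hd d hm
    rw [pow_add, mul_assoc, hcube k h' hh', e]
  have hwd : ∀ (i j : ℕ), ∀ h ∈ K, ∀ h' ∈ K, s ^ i * h = s ^ j * h' →
      u ^ i * v h = u ^ j * v h' := by
    intro i j h hh h' hh' e
    rcases le_total i j with hij | hij
    · obtain ⟨d, rfl⟩ := Nat.exists_eq_add_of_le hij
      exact hwd0 i d h hh h' hh' e
    · obtain ⟨d, rfl⟩ := Nat.exists_eq_add_of_le hij
      exact (hwd0 j d h' hh' h hh e.symm).symm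
  choose! ii hh hK he using hg
  refine ⟨fun g => u ^ ii g * v (hh g), fun g hgH => ?_, fun g hgH g' hgH' => ?_⟩
  · rw [map_mul, map_pow, hu, hv1 _ (hK g hgH), ← he g hgH]
  · obtain ⟨k, hk, e1, e2⟩ := hmove (ii g') (hh g) (hK g hgH)
    have hm := H.mul_mem hgH hgH'
    have e3 : s ^ ii (g * g') * hh (g * g') = s ^ (ii g + ii g') * (k * hh g') := by
      rw [← he _ hm, pow_add, mul_assoc, ← mul_assoc (s ^ ii g'), ← e1, mul_assoc,
        ← he g' hgH', ← mul_assoc, ← he g hgH]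
    beta_reduce
    rw [hwd _ _ _ (hK _ hm) _ (K.mul_mem hk (hK g' hgH')) e3, hv2 _ hk _ (hK g' hgH'), pow_add,
      mul_assoc, mul_assoc, ← mul_assoc (u ^ ii g'), ← e2, mul_assoc]

/-- The action on units. -/
def brauerAct {G M : Type} [Group G] [Field M] (φ : G →* (M ≃+* M)) (g : G) (a : Mˣ) : Mˣ :=
  Units.mk0 (φ g a) (by simp)

lemma brauerAct_coe {G M : Type} [Group G] [Field M] (φ : G →* (M ≃+* M)) (g : G) (a : Mˣ) :
    (brauerAct φ g a : M) = φ g a := rfl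

/-- A good lift of `s`. -/
lemma brauer_lift {G M E : Type} [Group G] [Finite G] [Field M] [Group E] (φ : G →* (M ≃+* M))
    (hφ : Function.Injective φ) (π : E →* G) (hπ : Function.Surjective π) (ι : Mˣ →* E)
    (hι : Function.Injective ι) (hπι : ∀ a, π (ι a) = 1) (hker : ∀ e, π e = 1 → ∃ a, e = ι a)
    (hconj : ∀ e a, e * ι a = ι (brauerAct φ (π e) a) * e) (K : Subgroup G) (s : G)
    (hs3 : s ^ 2 ∈ K) (hn : ∀ h ∈ K, s⁻¹ * h * s ∈ K)
    (hN : ∀ a : M, (∀ h ∈ K, φ h a = a) → φ s a = a →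
        ∃ x : M, (∀ h ∈ K, φ h x = x) ∧ x * φ s x = a) (v : G → E)
    (hv1 : ∀ h ∈ K, π (v h) = h) (hv2 : ∀ g ∈ K, ∀ h ∈ K, v (g * h) = v g * v h) :
    ∃ u : E, π u = s ∧ (∀ h ∈ K, u * v (s⁻¹ * h * s) = v h * u) ∧ u ^ 2 = v (s ^ 2) := by
  obtain ⟨u0, hu0⟩ := hπ s
  have h1 : ∀ h : K, ∃ a : Mˣ, u0 * v (s⁻¹ * h * s) = ι a * v h * u0 := by
    intro h
    obtain ⟨a, ha⟩ := hker (u0 * v (s⁻¹ * h * s) * u0⁻¹ * (v h)⁻¹) (by
      simp only [map_mul, map_inv, hu0, hv1 _ (hn _ h.2), hv1 _ h.2]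
      group)
    exact ⟨a, by rw [← ha]; group⟩
  choose f hf using h1
  have hcoc : ∀ g h : K, f (g * h) = f g * brauerAct φ g (f h) := by
    intro g h
    apply hι
    have e1 := hf (g * h)
    rw [Subgroup.coe_mul, show s⁻¹ * ((g : G) * h) * s = (s⁻¹ * g * s) * (s⁻¹ * h * s) by group,
      hv2 _ (hn _ g.2) _ (hn _ h.2), ← mul_assoc, hf g, mul_assoc _ u0, hf h,
      hv2 _ g.2 _ h.2] at e1
    have e2 := hconj (v g) (f h)
    rw [hv1 _ g.2] at e2
    rw [map_mul]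
    have e3 : ι (f g) * v g * (ι (f h) * v h * u0) =
        ι (f g) * (v g * ι (f h)) * v h * u0 := by group
    rw [e3, e2] at e1
    have e4 : ι (f g) * (ι (brauerAct φ g (f h)) * v g) * v h * u0 =
        ι (f g) * ι (brauerAct φ g (f h)) * (v g * v h) * u0 := by group
    rw [e4] at e1
    exact (mul_right_cancel (mul_right_cancel e1)).symm
  obtain ⟨a, ha0, ha⟩ := hilbert90 (G := K) (φ.comp K.subtype)
    (hφ.comp K.subtype_injective) (fun h => (f h : M)) (fun h => (f h).ne_zero)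
    (fun g h => by rw [hcoc, Units.val_mul, brauerAct_coe]; rfl)
  obtain ⟨u1, hu1⟩ : ∃ u1, u0 = ι (Units.mk0 a ha0) * u1 :=
    ⟨(ι (Units.mk0 a ha0))⁻¹ * u0, by group⟩
  have hπ1 : π u1 = s := by rw [← hu0, hu1, map_mul, hπι, one_mul]
  have P1 : ∀ h ∈ K, u1 * v (s⁻¹ * h * s) = v h * u1 := by
    intro h hh
    have e1 := hf ⟨h, hh⟩
    have e2 := hconj (v h) (Units.mk0 a ha0)
    rw [hv1 _ hh] at e2
    have e3 : f ⟨h, hh⟩ * brauerAct φ h (Units.mk0 a ha0) = Units.mk0 a ha0 :=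
      Units.ext (ha ⟨h, hh⟩)
    rw [hu1] at e1
    have e4 : ι (f ⟨h, hh⟩) * v h * (ι (Units.mk0 a ha0) * u1) =
        ι (f ⟨h, hh⟩) * (v h * ι (Units.mk0 a ha0)) * u1 := by group
    simp only at e1
    rw [e4, e2, ← mul_assoc (ι (f ⟨h, hh⟩)), ← map_mul, e3, mul_assoc (ι _), mul_assoc (ι _)] at e1
    exact mul_left_cancel e1
  obtain ⟨m, hm⟩ : ∃ m, u1 ^ 2 = ι m * v (s ^ 2) := by
    obtain ⟨m, hm⟩ := hker (u1 ^ 2 * (v (s ^ 2))⁻¹) (by
      simp only [map_mul, map_inv, map_pow, hπ1, hv1 _ hs3, mul_inv_cancel])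
    exact ⟨m, by rw [← hm]; group⟩
  have hms : φ s m = m := by
    have e1 := P1 _ hs3
    rw [show s⁻¹ * s ^ 2 * s = s ^ 2 by group] at e1
    have e2 : u1 * u1 ^ 2 = u1 ^ 2 * u1 := by group
    have e3 := hconj u1 m
    rw [hm, ← mul_assoc, e3, hπ1, mul_assoc, mul_assoc, e1] at e2
    exact congrArg Units.val (hι (mul_right_cancel e2))
  have hmK : ∀ h ∈ K, φ h m = m := by
    intro h hh
    have k1 := hn _ hh
    have k2 := hn _ k1
    have e1 : v h * u1 ^ 2 = u1 ^ 2 * v (s⁻¹ * (s⁻¹ * h * s) * s) := by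
      rw [pow_two, ← mul_assoc, ← P1 _ hh, mul_assoc u1 _ u1, ← P1 _ k1, ← mul_assoc]
    have e2 := hconj (v h) m
    rw [hm, ← mul_assoc, e2, hv1 _ hh, mul_assoc, mul_assoc, ← hv2 _ hh _ hs3, ← hv2 _ hs3 _ k2,
      show s ^ 2 * (s⁻¹ * (s⁻¹ * h * s) * s) = h * s ^ 2 by rw [pow_two]; group] at e1
    exact congrArg Units.val (hι (mul_right_cancel e1))
  obtain ⟨x, hxK, hx⟩ := hN m hmK hms
  have hx0 : x ≠ 0 := by
    rintro rfl
    exact m.ne_zero (by rw [← hx]; simp)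
  obtain ⟨u2, hu2⟩ : ∃ u2, u1 = ι (Units.mk0 x hx0) * u2 :=
    ⟨(ι (Units.mk0 x hx0))⁻¹ * u1, by group⟩
  have hπ2 : π u2 = s := by rw [← hπ1, hu2, map_mul, hπι, one_mul]
  refine ⟨u2, hπ2, fun h hh => ?_, ?_⟩
  · have e1 := P1 h hh
    have e2 := hconj (v h) (Units.mk0 x hx0)
    rw [hv1 _ hh, show brauerAct φ h (Units.mk0 x hx0) = Units.mk0 x hx0 from
      Units.ext (hxK h hh)] at e2
    rw [hu2, ← mul_assoc (v h), e2, mul_assoc (ι _), mul_assoc (ι _)] at e1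
    exact mul_left_cancel e1
  · have e1 := hconj u2 (Units.mk0 x hx0)
    rw [hπ2] at e1
    have e3 : Units.mk0 x hx0 * brauerAct φ s (Units.mk0 x hx0) = m := Units.ext hx
    have e4 : (ι (Units.mk0 x hx0) * u2) ^ 2
        = ι (Units.mk0 x hx0) * (u2 * ι (Units.mk0 x hx0)) * u2 := by
      rw [pow_two]; group
    have e6 : ∀ y z : E, y * (z * u2) * u2 = y * z * u2 ^ 2 := by
      intro y z; rw [pow_two]; group
    rw [hu2, e4, e1, e6, ← e3, map_mul] at hm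
    exact mul_left_cancel hm

lemma brauer_split {G M E : Type} [Group G] [Finite G] [Field M] [Group E] (φ : G →* (M ≃+* M))
    (hφ : Function.Injective φ)
    (hN : ∀ (H : Subgroup G) (s : G), s ∉ H → s ^ 2 ∈ H → (∀ h ∈ H, s * h * s⁻¹ ∈ H) →
      ∀ a : M, (∀ h ∈ H, φ h a = a) → φ s a = a →
        ∃ x : M, (∀ h ∈ H, φ h x = x) ∧ x * φ s x = a)
    (π : E →* G) (hπ : Function.Surjective π) (ι : Mˣ →* E)
    (hι : Function.Injective ι) (hπι : ∀ a, π (ι a) = 1) (hker : ∀ e, π e = 1 → ∃ a, e = ι a)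
    (hconj : ∀ e a, e * ι a = ι (brauerAct φ (π e) a) * e) (n : ℕ) :
    ∀ H : Subgroup G, Nat.card H = 2 ^ n →
      ∃ w : G → E, (∀ h ∈ H, π (w h) = h) ∧ ∀ g ∈ H, ∀ h ∈ H, w (g * h) = w g * w h := by
  induction n with
  | zero =>
    intro H hH
    rw [pow_zero, Subgroup.card_eq_one] at hH
    subst hH
    refine ⟨fun _ => 1, fun h hh => ?_, fun _ _ _ _ => by simp⟩
    rw [map_one, Subgroup.mem_bot.mp hh]
  | succ n ih =>
    intro H hH
    obtain ⟨K, s, hK, hs, hs3, hn1, hn2, hg⟩ := brauer_index H hH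
    obtain ⟨v, hv1, hv2⟩ := ih K hK
    obtain ⟨u, hu, hu1, hu3⟩ := brauer_lift φ hφ π hπ ι hι hπι hker hconj K s hs3 hn2
      (hN K s hs hs3 hn1) v hv1 hv2
    exact brauer_glue π H K s hs hs3 hn2 hg v hv1 hv2 u hu hu1 hu3

/-- Data of a cocycle. -/
structure BrauerData (G M : Type) [Group G] [Field M] where
  φ : G →* (M ≃+* M)
  c : G → G → M
  h0 : ∀ g h, c g h ≠ 0
  hc : ∀ g h l, φ g (c h l) * c g (h * l) = c (g * h) l * c g h

/-- The extension defined by a cocycle. -/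
structure BrauerExt {G M : Type} [Group G] [Field M] (D : BrauerData G M) where
  m : M
  g : G
  hm : m ≠ 0

section Ext

variable {G M : Type} [Group G] [Field M] {D : BrauerData G M}

lemma BrauerExt.ext' {a b : BrauerExt D} (h1 : a.m = b.m) (h2 : a.g = b.g) : a = b := by
  cases a; cases b; cases h1; cases h2; rfl

lemma BrauerData.c_one_left (D : BrauerData G M) (l : G) : D.c 1 l = D.c 1 1 := by
  have h := D.hc 1 1 l
  simp only [map_one, one_mul, RingAut.one_apply] at h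
  exact mul_left_cancel₀ (D.h0 1 l) h

lemma BrauerData.c_one_right (D : BrauerData G M) (g : G) : D.c g 1 = D.φ g (D.c 1 1) := by
  have h := D.hc g 1 1
  simp only [mul_one] at h
  exact (mul_right_cancel₀ (D.h0 g 1) h).symm

instance : Mul (BrauerExt D) :=
  ⟨fun a b => ⟨a.m * D.φ a.g b.m * D.c a.g b.g, a.g * b.g,
    mul_ne_zero (mul_ne_zero a.hm (by simpa using b.hm)) (D.h0 _ _)⟩⟩

instance : One (BrauerExt D) := ⟨⟨(D.c 1 1)⁻¹, 1, inv_ne_zero (D.h0 1 1)⟩⟩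

instance : Inv (BrauerExt D) :=
  ⟨fun a => ⟨(D.c 1 1 * D.φ a.g⁻¹ a.m * D.c a.g⁻¹ a.g)⁻¹, a.g⁻¹,
    inv_ne_zero (mul_ne_zero (mul_ne_zero (D.h0 1 1) (by simpa using a.hm)) (D.h0 _ _))⟩⟩

lemma BrauerExt.mul_m (a b : BrauerExt D) : (a * b).m = a.m * D.φ a.g b.m * D.c a.g b.g := rfl
lemma BrauerExt.mul_g (a b : BrauerExt D) : (a * b).g = a.g * b.g := rfl
lemma BrauerExt.one_m : (1 : BrauerExt D).m = (D.c 1 1)⁻¹ := rfl
lemma BrauerExt.one_g : (1 : BrauerExt D).g = 1 := rfl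
lemma BrauerExt.inv_m (a : BrauerExt D) :
    a⁻¹.m = (D.c 1 1 * D.φ a.g⁻¹ a.m * D.c a.g⁻¹ a.g)⁻¹ := rfl
lemma BrauerExt.inv_g (a : BrauerExt D) : a⁻¹.g = a.g⁻¹ := rfl

instance : Group (BrauerExt D) :=
  Group.ofLeftAxioms
    (fun a b c => by
      refine BrauerExt.ext' ?_ (mul_assoc _ _ _)
      simp only [BrauerExt.mul_m, BrauerExt.mul_g, map_mul, RingAut.mul_apply]
      linear_combination (-(a.m * D.φ a.g b.m * D.φ a.g (D.φ b.g c.m))) * D.hc a.g b.g c.g)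
    (fun a => by
      refine BrauerExt.ext' ?_ (one_mul _)
      have := D.h0 1 1
      simp only [BrauerExt.mul_m, BrauerExt.one_m, BrauerExt.one_g, map_one, RingAut.one_apply,
        D.c_one_left a.g]
      field_simp)
    (fun a => by
      refine BrauerExt.ext' ?_ (inv_mul_cancel _)
      have := D.h0 1 1
      have := D.h0 a.g⁻¹ a.g
      have : D.φ a.g⁻¹ a.m ≠ 0 := by simpa using a.hm
      simp only [BrauerExt.mul_m, BrauerExt.one_m, BrauerExt.inv_m, BrauerExt.inv_g]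
      field_simp)

/-- The projection. -/
def BrauerExt.proj (D : BrauerData G M) : BrauerExt D →* G where
  toFun a := a.g
  map_one' := rfl
  map_mul' _ _ := rfl

/-- The inclusion of the units. -/
def BrauerExt.incl (D : BrauerData G M) : Mˣ →* BrauerExt D :=
  MonoidHom.mk' (fun a => ⟨a * (D.c 1 1)⁻¹, 1, mul_ne_zero a.ne_zero (inv_ne_zero (D.h0 1 1))⟩)
    (fun a b => by
      refine BrauerExt.ext' ?_ (mul_one _).symm
      have := D.h0 1 1
      simp only [BrauerExt.mul_m, map_one, RingAut.one_apply, Units.val_mul]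
      field_simp)

lemma BrauerExt.incl_m (a : Mˣ) : (BrauerExt.incl D a).m = a * (D.c 1 1)⁻¹ := rfl
lemma BrauerExt.incl_g (a : Mˣ) : (BrauerExt.incl D a).g = 1 := rfl

end Ext

lemma Brauer_transfer {G M : Type} [Group G] [Finite G] [Field M] (φ : G →* (M ≃+* M))
    (c : G → G → M) (h2 : ∀ g h, c g h ^ 2 = 1)
    (hc : ∀ g h l, φ g (c h l) * c g (h * l) = c (g * h) l * c g h) (P : Subgroup G)
    (hP : Odd P.index) (a : G → M) (ha : ∀ g, a g ≠ 0) (β : G → M) (hβ : ∀ g, β g ≠ 0)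
    (h : ∀ g, ∀ p ∈ P, a (g * p) = a g * φ g (β p) * c g p) :
    ∃ b : G → M, (∀ g, b g ≠ 0) ∧ ∀ g h, c g h * b (g * h) = b g * φ g (b h) := by
  classical
  have := Fintype.ofFinite (G ⧸ P)
  have h0 : ∀ g h, c g h ≠ 0 := fun g h e => by simpa [e] using h2 g h
  have hφ : ∀ g x, x ≠ 0 → φ g x ≠ 0 := fun g x hx => by simpa using hx
  obtain ⟨d, hd⟩ : ∃ d : G → G → M, ∀ g h, d g h = a g * φ g (a h) * c g h / a (g * h) :=
    ⟨_, fun _ _ => rfl⟩
  have d0 : ∀ g h, d g h ≠ 0 := fun g h => by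
    rw [hd]
    exact div_ne_zero (mul_ne_zero (mul_ne_zero (ha g) (hφ _ _ (ha h))) (h0 g h)) (ha _)
  have d1 : ∀ g h l, φ g (d h l) * d g (h * l) = d (g * h) l * d g h := fun g h l => by
    have := ha (g * h)
    have := ha (g * (h * l))
    have := hφ g _ (ha (h * l))
    simp only [hd, map_div₀, map_mul, RingAut.mul_apply, mul_assoc g]
    field_simp
    linear_combination (a g * φ g (a h) * φ g (φ h (a l))) * hc g h l
  have d2 : ∀ g x, ∀ p ∈ P, d g (x * p) = d g x := fun g x p hp => by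
    have := ha (g * x)
    have := h0 (g * x) p
    have := hφ g _ (hφ x _ (hβ p))
    rw [hd, hd, ← mul_assoc g, h _ p hp, h _ p hp]
    simp only [map_mul, RingAut.mul_apply]
    field_simp
    linear_combination (a g * φ g (a x)) * hc g x p
  have d3 : ∀ g x (t : G ⧸ P), d g (x * t.out) = d g (x • t).out := fun g x t => by
    obtain ⟨p, hp⟩ := QuotientGroup.mk_out_eq_mul P (x * t.out)
    rw [← MulAction.Quotient.mk_smul_out, smul_eq_mul, hp, d2 _ _ _ p.2]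
  have d4 : ∀ g h, φ g (∏ t : G ⧸ P, d h t.out) * ∏ t : G ⧸ P, d g t.out
      = (∏ t : G ⧸ P, d (g * h) t.out) * d g h ^ P.index := fun g h => by
    rw [← Equiv.prod_comp (MulAction.toPerm h) fun t : G ⧸ P => d g t.out, map_prod,
      ← Finset.prod_mul_distrib, Subgroup.index, Nat.card_eq_fintype_card, ← Finset.card_univ,
      ← Finset.prod_const, ← Finset.prod_mul_distrib]
    exact Finset.prod_congr rfl fun t _ => by rw [MulAction.toPerm_apply, ← d3, d1]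
  refine ⟨fun g => (∏ t : G ⧸ P, d g t.out) / a g ^ P.index, fun g => div_ne_zero
    (Finset.prod_ne_zero_iff.2 fun t _ => d0 _ _) (pow_ne_zero _ (ha g)), fun g h => ?_⟩
  have e := d4 g h
  obtain ⟨k, hk⟩ := hP
  have e2 : c g h ^ P.index = c g h := by rw [hk, pow_succ, pow_mul, h2, one_pow, one_mul]
  rw [hd g h, div_pow, mul_pow, mul_pow, e2] at e
  have := pow_ne_zero P.index (ha g)
  have := pow_ne_zero P.index (ha (g * h))
  have := pow_ne_zero P.index (hφ g _ (ha h))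
  rw [map_div₀, map_pow, div_mul_div_comm, mul_comm (∏ t : G ⧸ P, d g t.out), e]
  field_simp

theorem brauer_sign {G M : Type} [Group G] [Finite G] [Field M]
    (φ : G →* (M ≃+* M)) (hφ : Function.Injective φ)
    (hN : ∀ (H : Subgroup G) (s : G), s ∉ H → s ^ 2 ∈ H → (∀ h ∈ H, s * h * s⁻¹ ∈ H) →
      ∀ a : M, (∀ h ∈ H, φ h a = a) → φ s a = a →
        ∃ x : M, (∀ h ∈ H, φ h x = x) ∧ x * φ s x = a)
    (c : G → G → M) (h2 : ∀ g h, c g h ^ 2 = 1)
    (hc : ∀ g h l, φ g (c h l) * c g (h * l) = c (g * h) l * c g h) :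
    ∃ b : G → M, (∀ g, b g ≠ 0) ∧ ∀ g h, c g h * b (g * h) = b g * φ g (b h) := by
  classical
  have : Fact (Nat.Prime 2) := ⟨Nat.prime_two⟩
  have h0 : ∀ g h, c g h ≠ 0 := fun g h e => by simpa [e] using h2 g h
  obtain ⟨P⟩ : Nonempty (Sylow 2 G) := inferInstance
  obtain ⟨n, hn⟩ := IsPGroup.iff_card.mp P.isPGroup'
  let D : BrauerData G M := ⟨φ, c, h0, hc⟩
  have h11 := D.h0 1 1
  obtain ⟨w, hw1, hw2⟩ := brauer_split φ hφ hN (BrauerExt.proj D)
    (fun g => ⟨⟨1, g, one_ne_zero⟩, rfl⟩) (BrauerExt.incl D)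
    (fun a b h => Units.ext (mul_right_cancel₀ (inv_ne_zero h11) (congrArg BrauerExt.m h)))
    (fun _ => rfl)
    (fun e he => ⟨Units.mk0 (e.m * D.c 1 1) (mul_ne_zero e.hm h11),
      BrauerExt.ext' (by rw [BrauerExt.incl_m, Units.val_mk0, mul_inv_cancel_right₀ h11]) he⟩)
    (fun e a => by
      refine BrauerExt.ext' ?_ ((mul_one _).trans (one_mul _).symm)
      have h2 : D.φ e.g (D.c 1 1) ≠ 0 := by simpa using h11
      have h3 : φ (BrauerExt.proj D e) a = D.φ e.g a := rfl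
      simp only [BrauerExt.mul_m, BrauerExt.incl_m, BrauerExt.incl_g, brauerAct_coe, map_mul,
        map_inv₀, map_one, RingAut.one_apply, D.c_one_left e.g, D.c_one_right e.g, h3]
      field_simp)
    n P hn
  let r : G → G := fun g => (g : G ⧸ (P : Subgroup G)).out
  have r1 : ∀ g, (r g)⁻¹ * g ∈ (P : Subgroup G) := fun g =>
    QuotientGroup.eq.1 (QuotientGroup.out_eq' _)
  have r2 : ∀ g, ∀ p ∈ (P : Subgroup G), r (g * p) = r g := fun g p hp =>
    congrArg Quotient.out (QuotientGroup.mk_mul_of_mem g hp)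
  let σ : G → BrauerExt D := fun g => ⟨1, r g, one_ne_zero⟩ * w ((r g)⁻¹ * g)
  have s1 : ∀ g, (σ g).g = g := fun g => by
    have e : (w ((r g)⁻¹ * g)).g = (r g)⁻¹ * g := hw1 _ (r1 g)
    simp only [σ, BrauerExt.mul_g, e, mul_inv_cancel_left]
  have s2 : ∀ g, ∀ p ∈ (P : Subgroup G), (σ (g * p)).m = (σ g).m * φ g (w p).m * c g p :=
    fun g p hp => by
      have e : σ (g * p) = σ g * w p := by
        simp only [σ, r2 g p hp]
        rw [← mul_assoc, hw2 _ (r1 g) _ hp, mul_assoc]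
      have e2 : (w p).g = p := hw1 p hp
      rw [e, BrauerExt.mul_m, s1, e2]
  exact Brauer_transfer φ c h2 hc P (Nat.odd_iff.2 (Nat.two_dvd_ne_zero.1 P.not_dvd_index))
    (fun g => (σ g).m) (fun g => (σ g).hm) (fun p => (w p).m) (fun p => (w p).hm) s2

end Pool.Agent.Quad
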