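import Pool.Agent.Work.MP_60d5ce_nt.Qt.Tame

-- merged part: Pool.Agent.Work.MP_60d5ce_nt.Qt.Gal
section
/-!
# The Weil group of `k(t)`, places, admissible subgroups, local models: definitions
-/

namespace Pool.Agent.Quad

open scoped Classical
open Polynomial

noncomputable section

variable (k : Type) [Field k] [Fintype k] (Ω : Type) [Field Ω] [Algebra (RatFunc k) Ω]
  [Algebra k Ω] [IsScalarTower k (RatFunc k) Ω]

/-- the constants -/
abbrev Kb : Type := algebraicClosure k Ω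

/-- the variable -/
def tt : Ω := algebraMap (RatFunc k) Ω RatFunc.X

theorem transcendental_tt : Transcendental (Kb k Ω) (tt k Ω) := by
  refine Transcendental.algebraicClosure ?_
  exact (transcendental_algebraMap_iff (algebraMap (RatFunc k) Ω).injective).2
    RatFunc.transcendental_X

theorem aeval_tt_injective : Function.Injective (aeval (tt k Ω) : (Kb k Ω)[X] →ₐ[Kb k Ω] Ω) :=
  transcendental_iff_injective.1 (transcendental_tt k Ω)

/-- the geometric function field inside `Ω` -/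
def jK : RatFunc (Kb k Ω) →ₐ[Kb k Ω] Ω :=
  RatFunc.liftAlgHom (aeval (tt k Ω))
    (nonZeroDivisors_le_comap_nonZeroDivisors_of_injective _ (aeval_tt_injective k Ω))

instance algGeom : Algebra (RatFunc (Kb k Ω)) Ω := (jK k Ω).toRingHom.toAlgebra

instance towerGeom : IsScalarTower (Kb k Ω) (RatFunc (Kb k Ω)) Ω :=
  IsScalarTower.of_algebraMap_eq fun c => ((jK k Ω).commutes c).symm

theorem algebraMap_geom (a : RatFunc (Kb k Ω)) : algebraMap (RatFunc (Kb k Ω)) Ω a = jK k Ω a := rfl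

theorem jK_poly (p : (Kb k Ω)[X]) :
    jK k Ω (algebraMap (Kb k Ω)[X] (RatFunc (Kb k Ω)) p) = aeval (tt k Ω) p := by
  have := RatFunc.liftAlgHom_apply_div (aeval (tt k Ω) : (Kb k Ω)[X] →ₐ[Kb k Ω] Ω)
    (nonZeroDivisors_le_comap_nonZeroDivisors_of_injective _ (aeval_tt_injective k Ω)) p 1
  simpa [jK] using this

/-- Frobenius of the constants -/
def frob : Kb k Ω ≃ₐ[k] Kb k Ω := FiniteField.frobeniusAlgEquivOfAlgebraic k (Kb k Ω)

/-- the absolute Galois group -/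
abbrev Gam : Type := Ω ≃ₐ[RatFunc k] Ω

/-- the Weil group as a subgroup of `Gam × ℤ` -/
def WSub : Subgroup (Gam k Ω × Multiplicative ℤ) where
  carrier := {z | ∀ c : Kb k Ω, z.1 c = ((frob k Ω ^ z.2.toAdd) c : Kb k Ω)}
  mul_mem' {a b} ha hb c := by
    simp only [Set.mem_ofPred_eq] at ha hb
    simp only [Prod.fst_mul, AlgEquiv.mul_apply, Prod.snd_mul, toAdd_mul, zpow_add]
    rw [hb, ha]
  one_mem' c := by simp
  inv_mem' {a} ha c := by
    simp only [Set.mem_ofPred_eq] at ha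
    simp only [Prod.fst_inv, Prod.snd_inv, toAdd_inv, zpow_neg]
    rw [AlgEquiv.aut_inv, AlgEquiv.symm_apply_eq, ha, ← AlgEquiv.mul_apply, mul_inv_cancel]
    rfl

/-- the Weil group -/
abbrev WG : Type := WSub k Ω

variable {k Ω}

/-- the underlying automorphism -/
def gal : WG k Ω →* Gam k Ω := (MonoidHom.fst _ _).comp (WSub k Ω).subtype

/-- the degree -/
def wdeg (g : WG k Ω) : ℤ := g.1.2.toAdd

theorem wdeg_mul (g h : WG k Ω) : wdeg (g * h) = wdeg g + wdeg h := rfl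

theorem gal_const (g : WG k Ω) (c : Kb k Ω) : gal g c = ((frob k Ω ^ wdeg g) c : Kb k Ω) := g.2 c

/-- admissible subgroups -/
def Adm (U : Subgroup (WG k Ω)) : Prop :=
  U.Normal ∧ (∀ u ∈ U, wdeg u = 0) ∧
    (∃ S : Finset Ω, ∀ g, wdeg g = 0 → (∀ a ∈ S, gal g a = a) → g ∈ U) ∧
    ∀ g, wdeg g = 0 → ∃ j : ℕ, g ^ 6 ^ j ∈ U

variable (k) in
/-- places of `k(t)` -/
abbrev Pl : Type := Option {p : k[X] // p.Monic ∧ Irreducible p}

/-- degree of a place -/
def pdg : Pl k → ℕ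
  | none => 1
  | some p => p.1.natDegree

/-- local uniformiser attached to a geometric point -/
def unif (v : Pl k) (x : Kb k Ω) : Ω :=
  match v with
  | none => (tt k Ω)⁻¹
  | some _ => tt k Ω - x

variable (Ω) in
/-- a local model at the place `v` -/
structure Loc (v : Pl k) where
  L : Type
  Λ : Type
  [iL : NontriviallyNormedField L]
  [cL : CompleteSpace L]
  [uL : IsUltrametricDist L]
  [aL : Algebra (RatFunc k) L]
  [fΛ : Field Λ]
  [aΛ : Algebra L Λ]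
  [aΛ' : Algebra (RatFunc k) Λ]
  [tΛ : IsScalarTower (RatFunc k) L Λ]
  [sΛ : IsSepClosure L Λ]
  ι : Ω →ₐ[RatFunc k] Λ
  wΛ : AbsoluteValue Λ ℝ
  wΛ_eq : ∀ a, wΛ a = spectralNorm L Λ a
  wΛ_na : IsNonarchimedean wΛ
  wΛ_iso : ∀ (s : Λ ≃ₐ[L] Λ) a, wΛ (s a) = wΛ a
  L_disc : ∀ a : L, a ≠ 0 → ∃ n : ℤ, ‖a‖ = 2 ^ n
  σh : Λ ≃ₐ[L] Λ
  τh : Λ ≃ₐ[L] Λ
  σh_res : ∀ a, wΛ a ≤ 1 → wΛ (σh a - a ^ Fintype.card k ^ pdg v) < 1
  τh_res : ∀ a, wΛ a ≤ 1 → wΛ (τh a - a) < 1
  Λ_res : ∀ a, wΛ a ≤ 1 → ∃ c : Kb k Ω, wΛ (a - ι c) < 1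
  σ : WG k Ω
  τ : WG k Ω
  ι_σ : ∀ a, ι (gal σ a) = σh (ι a)
  ι_τ : ∀ a, ι (gal τ a) = τh (ι a)
  deg_σ : wdeg σ = pdg v
  deg_τ : wdeg τ = 0
  x : Kb k Ω
  root : ∀ p, v = some p → aeval x p.1 = 0
  w_const : ∀ c : Kb k Ω, c ≠ 0 → wΛ (ι c) = 1
  w_unif : wΛ (ι (unif v x)) = 2⁻¹
  kummer : ∀ r : Ω, r ^ 2 = unif v x → gal τ r = -r
  disc : ∀ U : Subgroup (WG k Ω), Adm U → ∀ a : Ω, a ≠ 0 → (∀ u ∈ U, gal u a = a) → gal τ a = a →
    ∃ n : ℤ, wΛ (ι a) = 2 ^ n
  rel : ∀ U : Subgroup (WG k Ω), Adm U → (σ * τ)⁻¹ * (τ ^ Fintype.card k ^ pdg v * σ) ∈ U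

attribute [instance] Loc.iL Loc.cL Loc.uL Loc.aL Loc.fΛ Loc.aΛ Loc.aΛ' Loc.tΛ Loc.sΛ

/-- the absolute value on `Ω` -/
def Loc.w {v : Pl k} (l : Loc Ω v) : AbsoluteValue Ω ℝ :=
  l.wΛ.comp l.ι.toRingHom.injective

theorem Loc.w_apply {v : Pl k} (l : Loc Ω v) (a : Ω) : l.w a = l.wΛ (l.ι a) := rfl

/-- the Kummer character attached to a square root `r` -/
def kum (r : Ω) (g : Gam k Ω) : F2 := if g r = r then 0 else 1

variable (k Ω) in
/-- a family of local models -/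
abbrev Locs : Type 1 := ∀ v : Pl k, Loc Ω v

/-- the bare tame data -/
def pre (ℓ : Locs k Ω) : Pre (WG k Ω) (Pl k) where
  q := Fintype.card k
  deg := wdeg
  deg_mul := wdeg_mul
  dg := pdg
  inf := none
  σ v := (ℓ v).σ
  τ v := (ℓ v).τ
  Adm := Adm

/-- a chosen square root -/
def sqr (a : Ω) : Ω := if h : ∃ r : Ω, r ^ 2 = a then h.choose else 1

/-- the normalised character attached to a place -/
def chi (ℓ : Locs k Ω) : Pl k → WG k Ω → F2
  | none => 0
  | some p => fun g => kum (sqr (aeval (tt k Ω) p.1)) (gal g) -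
      (wdeg g : F2) * kum (sqr (aeval (tt k Ω) p.1)) (gal (ℓ none).σ)

end

end Pool.Agent.Quad
end

-- merged part: Pool.Agent.Work.MP_60d5ce_nt.Qt.GalKum
section
/-!
# Kummer characters of order two
-/

namespace Pool.Agent.Quad

open scoped Classical
open Polynomial

noncomputable section

section abstract

theorem GalKum_val0 : (0 : F2).val = 0 := rfl

theorem GalKum_val1 : (1 : F2).val = 1 := rfl

theorem GalKum_pow_add {Ω : Type} [Field Ω] (a b : F2) :
    (-1 : Ω) ^ (a + b).val = (-1) ^ a.val * (-1) ^ b.val := by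
  rw [ZMod.val_add, ← pow_add, ← pow_eq_pow_mod _ neg_one_sq]

theorem kummer_abstract {G Ω : Type} [Group G] [Field Ω] (φ : G →* (Ω ≃+* Ω)) (h : G → F2)
    (hh : ∀ g g', h (g * g') = h g + h g')
    (hsep : ∀ g, (∀ a, (∀ n, h n = 0 → φ n a = a) → φ g a = a) → h g = 0) :
    ∃ r : Ω, r ≠ 0 ∧ ∀ g, φ g r = (-1) ^ (h g).val * r := by
  by_cases h0 : ∀ g, h g = 0
  · exact ⟨1, one_ne_zero, fun g => by rw [h0 g, map_one, GalKum_val0, pow_zero, one_mul]⟩
  obtain ⟨g0, hg0⟩ : ∃ g0, h g0 = 1 := by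
    push Not at h0
    obtain ⟨g, hg⟩ := h0
    exact ⟨g, (F2_cases _).resolve_left hg⟩
  obtain ⟨a, ha, hne⟩ : ∃ a, (∀ n, h n = 0 → φ n a = a) ∧ φ g0 a ≠ a := by
    by_contra hc
    push Not at hc
    rw [hsep g0 hc] at hg0
    exact absurd hg0 (by decide)
  have hmul : ∀ g g' x, φ (g * g') x = φ g (φ g' x) := fun g g' x => by
    rw [map_mul]; rfl
  have key : ∀ g g', h g = h g' → φ g a = φ g' a := fun g g' e => by
    have e1 : h (g'⁻¹ * g) = 0 := by
      have := hh g' (g'⁻¹ * g)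
      rw [mul_inv_cancel_left, e] at this
      exact left_eq_add.1 this
    rw [← mul_inv_cancel_left g' g, hmul, ha _ e1]
  refine ⟨a - φ g0 a, sub_ne_zero.2 hne.symm, fun g => ?_⟩
  rw [map_sub, ← hmul]
  rcases F2_cases (h g) with e | e
  · rw [ha g e, key (g * g0) g0 (by rw [hh, e, zero_add]), e, GalKum_val0]
    ring
  · rw [key g g0 (e.trans hg0.symm), ha (g * g0) (by rw [hh, e, hg0]; rfl), e, GalKum_val1]
    ring

end abstract

variable {k : Type} [Field k] [Fintype k] {Ω : Type} [Field Ω] [Algebra (RatFunc k) Ω]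
  [Algebra k Ω] [IsScalarTower k (RatFunc k) Ω]

theorem two_ne_of_six {K : Type} [Field K] (h6 : (6 : K) ≠ 0) : (2 : K) ≠ 0 := fun h =>
  h6 (by linear_combination 3 * h)

theorem three_ne_of_six {K : Type} [Field K] (h6 : (6 : K) ≠ 0) : (3 : K) ≠ 0 := fun h =>
  h6 (by linear_combination 2 * h)

theorem six_ne_map {K L : Type} [Field K] [Field L] (f : K →+* L) (h6 : (6 : K) ≠ 0) :
    (6 : L) ≠ 0 := by
  rw [← map_ofNat f 6]
  exact (_root_.map_ne_zero f).2 h6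

section kum

theorem GalKum_two (h6 : (6 : k) ≠ 0) : (2 : Ω) ≠ 0 :=
  two_ne_of_six (six_ne_map (algebraMap k Ω) h6)

theorem GalKum_fix (g : Gam k Ω) (c : k) : g (algebraMap k Ω c) = algebraMap k Ω c := by
  rw [IsScalarTower.algebraMap_apply k (RatFunc k) Ω, AlgEquiv.commutes]

theorem kum_eq (h6 : (6 : k) ≠ 0) {r : Ω} (hr : r ≠ 0) {g : Gam k Ω} {n : F2}
    (h : g r = (-1 : Ω) ^ n.val * r) : kum r g = n := by
  unfold kum
  rcases F2_cases n with rfl | rfl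
  · rw [if_pos (by rw [h, GalKum_val0, pow_zero, one_mul])]
  · rw [if_neg]
    rw [h, GalKum_val1]
    intro e
    exact mul_ne_zero (GalKum_two h6) hr (by linear_combination -e)

theorem kum_spec (h6 : (6 : k) ≠ 0) {r : Ω} (hr : r ≠ 0) {g : Gam k Ω}
    (h : g (r ^ 2) = r ^ 2) : g r = (-1 : Ω) ^ (kum r g).val * r := by
  rw [map_pow] at h
  rcases sq_eq_sq_iff_eq_or_eq_neg.1 h with e | e
  · rw [kum_eq h6 hr (n := 0) (by rw [e, GalKum_val0, pow_zero, one_mul]), e, GalKum_val0]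
    ring
  · rw [kum_eq h6 hr (n := 1) (by rw [e, GalKum_val1]; ring), e, GalKum_val1]
    ring

theorem kum_mul (h6 : (6 : k) ≠ 0) {r : Ω} (hr : r ≠ 0) {g g' : Gam k Ω}
    (h : g (r ^ 2) = r ^ 2) (h' : g' (r ^ 2) = r ^ 2) :
    kum r (g * g') = kum r g + kum r g' := by
  refine kum_eq h6 hr ?_
  rw [AlgEquiv.mul_apply, GalKum_pow_add]
  nth_rewrite 1 [kum_spec h6 hr h']
  rw [map_mul, map_pow, map_neg, map_one]
  nth_rewrite 1 [kum_spec h6 hr h]
  ring

theorem kum_mul_left (h6 : (6 : k) ≠ 0) {r s : Ω} (hr : r ≠ 0) (hs : s ≠ 0) {g : Gam k Ω}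
    (h : g (r ^ 2) = r ^ 2) (h' : g (s ^ 2) = s ^ 2) :
    kum (r * s) g = kum r g + kum s g := by
  refine kum_eq h6 (mul_ne_zero hr hs) ?_
  rw [map_mul, GalKum_pow_add]
  nth_rewrite 1 [kum_spec h6 hr h, kum_spec h6 hs h']
  ring

theorem kum_congr {r s : Ω} (h : r ^ 2 = s ^ 2) (g : Gam k Ω) : kum r g = kum s g := by
  rcases sq_eq_sq_iff_eq_or_eq_neg.1 h with e | e
  · rw [e]
  · unfold kum
    simp only [e, map_neg, neg_inj]

theorem kum_eq_zero_iff {r : Ω} {g : Gam k Ω} : kum r g = 0 ↔ g r = r := by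
  unfold kum
  split_ifs with h
  · simp [h]
  · simp [h]

end kum

theorem sqr_spec [IsSepClosure (RatFunc k) Ω] (h6 : (6 : k) ≠ 0) (a : Ω) : sqr a ^ 2 = a := by
  have := IsSepClosure.sep_closed (RatFunc k) (K := Ω)
  have : NeZero ((2 : ℕ) : Ω) := ⟨by exact_mod_cast GalKum_two h6⟩
  have h := IsSepClosed.exists_pow_nat_eq a 2
  unfold sqr
  rw [dif_pos h]
  exact h.choose_spec

end

end Pool.Agent.Quad
end

-- merged part: Pool.Agent.Work.MP_60d5ce_nt.Qt.GalBasic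
section
/-!
# Basic Galois theory of the Weil group

Hints.
* `isAlgClosed_Kb`: `Kb` is algebraic over the finite field `k`, so perfect; an irreducible
  polynomial over it is separable, has a root in the separably closed `Ω`, algebraic over `k`.
* `isSepClosure_geom`: the minimal polynomial over `RatFunc Kb` divides the image of the one over
  `RatFunc k` (use `jK_range`; build the ring map `RatFunc k → RatFunc Kb` by `RatFunc.mapRingHom`).
* `fixed_all`: `a = jK b`, `b = num / denom` with monic denominator, an element of degree one acts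
  on coefficients through `frob`; uniqueness of the reduced fraction; `c ^ q = c` gives `c ∈ k`.
* `dense`: normal closure `M` of `S` is finite Galois over `RatFunc k`; the image of `WG` in its
  group has fixed field the bottom (`fixed_all`), so it is everything.
* `adm_core`: replace `S` by the finite set of all conjugates (roots of the minimal polynomials
  over `RatFunc k`); its fixer `N` in `WG0` is normal of finite index; `g` has finite order
  `3 ^ a * m` modulo `N`; for every conjugate `g'` of `g ^ 6 ^ a` both `g' ^ 6 ^ j` and `g' ^ m` lie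
  in `H`, Bezout.
* `exists_kummer`: `kummer_abstract` for the group `WG0`, with `Adm.exists_res` and finite Galois
  theory for the separation hypothesis; `r ^ 2` is fixed by `WG0`.
-/

namespace Pool.Agent.Quad

open scoped Classical
open Polynomial

noncomputable section

variable {k : Type} [Field k] [Fintype k] {Ω : Type} [Field Ω] [Algebra (RatFunc k) Ω]
  [Algebra k Ω] [IsScalarTower k (RatFunc k) Ω]

variable (k Ω) in
/-- the geometric group -/
def WG0 : Subgroup (WG k Ω) where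
  carrier := {g | wdeg g = 0}
  mul_mem' {a b} ha hb := by
    simp only [Set.mem_ofPred_eq] at *
    rw [wdeg_mul, ha, hb, add_zero]
  one_mem' := rfl
  inv_mem' {a} ha := by
    simp only [Set.mem_ofPred_eq] at *
    have := wdeg_mul a a⁻¹
    rw [mul_inv_cancel, ha, zero_add] at this
    exact this.symm

theorem mem_WG0 {g : WG k Ω} : g ∈ WG0 k Ω ↔ wdeg g = 0 := Iff.rfl

theorem pre_G0 (ℓ : Locs k Ω) : (pre ℓ).G0 = WG0 k Ω := rfl

theorem wdeg_one : wdeg (1 : WG k Ω) = 0 := rfl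

theorem wdeg_inv (g : WG k Ω) : wdeg g⁻¹ = -wdeg g := rfl

theorem wdeg_zpow (g : WG k Ω) (n : ℤ) : wdeg (g ^ n) = n * wdeg g := by
  simp [wdeg]

theorem wdeg_pow (g : WG k Ω) (n : ℕ) : wdeg (g ^ n) = n * wdeg g := by
  simp [wdeg]

theorem frob_apply (c : Kb k Ω) : frob k Ω c = c ^ Fintype.card k := by
  rfl

theorem frob_pow_apply (n : ℕ) (c : Kb k Ω) : (frob k Ω ^ n) c = c ^ Fintype.card k ^ n := by
  induction n with
  | zero => simp
  | succ n ih => rw [pow_succ', AlgEquiv.mul_apply, ih, frob_apply, ← pow_mul, ← pow_succ]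

theorem gal_tt (g : WG k Ω) : gal g (tt k Ω) = tt k Ω := by
  exact (gal g).commutes _

theorem gal_algebraMap (g : WG k Ω) (c : k) : gal g (algebraMap k Ω c) = algebraMap k Ω c := by
  rw [IsScalarTower.algebraMap_apply k (RatFunc k) Ω, AlgEquiv.commutes]

theorem gal_aeval (g : WG k Ω) (p : (Kb k Ω)[X]) : gal g (aeval (tt k Ω) p) =
    aeval (tt k Ω) (p.map ((frob k Ω ^ wdeg g : Kb k Ω ≃ₐ[k] Kb k Ω) : Kb k Ω →+* Kb k Ω)) := by
  conv_rhs => rw [← gal_tt g]
  exact map_aeval_eq_aeval_map (ψ := (gal g : Ω →+* Ω))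
    (RingHom.ext fun c => (gal_const g c).symm) p _

theorem aeval_tt_base (p : k[X]) :
    aeval (tt k Ω) p = algebraMap (RatFunc k) Ω (algebraMap k[X] (RatFunc k) p) := by
  rw [tt, aeval_algebraMap_apply, RatFunc.aeval_X_left_eq_algebraMap]

theorem aeval_tt_map (p : k[X]) :
    aeval (tt k Ω) (p.map (algebraMap k (Kb k Ω))) = aeval (tt k Ω) p := by
  exact aeval_map_algebraMap _ _ _

variable (k Ω) in
/-- extension of the constants -/
def gb_base : RatFunc k →+* RatFunc (Kb k Ω) :=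
  RatFunc.mapRingHom (mapRingHom (algebraMap k (Kb k Ω)))
    (nonZeroDivisors_le_comap_nonZeroDivisors_of_injective _
      (map_injective _ (algebraMap k (Kb k Ω)).injective))

theorem gb_jK_base (a : RatFunc k) : jK k Ω (gb_base k Ω a) = algebraMap (RatFunc k) Ω a := by
  induction a using RatFunc.induction_on with
  | f p q hq =>
    rw [gb_base, RatFunc.coe_mapRingHom_eq_coe_map, RatFunc.map_apply_div, map_div₀, map_div₀,
      jK_poly, jK_poly, coe_mapRingHom, aeval_tt_map, aeval_tt_map, aeval_tt_base, aeval_tt_base]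

theorem jK_range (a : RatFunc k) : ∃ b, jK k Ω b = algebraMap (RatFunc k) Ω a := by
  exact ⟨_, gb_jK_base a⟩

theorem jK_div (b : RatFunc (Kb k Ω)) :
    jK k Ω b = aeval (tt k Ω) b.num / aeval (tt k Ω) b.denom := by
  rw [← jK_poly, ← jK_poly, ← map_div₀, RatFunc.num_div_denom]

theorem geom_fix {g : WG k Ω} (hg : wdeg g = 0) (b : RatFunc (Kb k Ω)) :
    gal g (jK k Ω b) = jK k Ω b := by
  rw [jK_div, map_div₀, gal_aeval, gal_aeval, hg, zpow_zero]
  congr 2 <;> exact map_id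

theorem gal_jK (g : WG k Ω) (b : RatFunc (Kb k Ω)) : ∃ b', gal g (jK k Ω b) = jK k Ω b' := by
  rw [jK_div, map_div₀, gal_aeval, gal_aeval, ← jK_poly, ← jK_poly, ← map_div₀]
  exact ⟨_, rfl⟩

variable (k Ω) in
/-- the geometric group acts over the geometric function field -/
def toGeom : WG0 k Ω →* (Ω ≃ₐ[RatFunc (Kb k Ω)] Ω) where
  toFun g := { (gal g.1).toRingEquiv with commutes' := geom_fix g.2 }
  map_one' := by ext a; simp
  map_mul' a b := by ext c; simp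

theorem toGeom_apply (g : WG0 k Ω) (a : Ω) : toGeom k Ω g a = gal g.1 a := rfl

theorem toGeom_bijective : Function.Bijective (toGeom k Ω) := by
  refine ⟨fun g g' h => Subtype.ext (Subtype.ext (Prod.ext
    (AlgEquiv.ext fun a => DFunLike.congr_fun h a) (g.2.trans g'.2.symm))), fun s => ?_⟩
  refine ⟨⟨⟨({ s.toRingEquiv with commutes' := fun a => ?_ }, 1), fun c => ?_⟩, rfl⟩, rfl⟩
  · obtain ⟨b, hb⟩ := jK_range (Ω := Ω) a
    rw [← hb]
    exact s.commutes b
  · have := s.commutes (algebraMap (Kb k Ω) _ c)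
    rwa [← IsScalarTower.algebraMap_apply] at this

/-- the fixed field of a subgroup of the geometric group -/
def MU (U : Subgroup (WG k Ω)) : IntermediateField (RatFunc (Kb k Ω)) Ω :=
  IntermediateField.fixedField ((U.subgroupOf (WG0 k Ω)).map (toGeom k Ω))

theorem mem_MU {U : Subgroup (WG k Ω)} (hU : U ≤ WG0 k Ω) {a : Ω} :
    a ∈ MU U ↔ ∀ u ∈ U, gal u a = a := by
  rw [MU, IntermediateField.mem_fixedField_iff]
  refine ⟨fun h u hu => h _ ⟨⟨u, hU hu⟩, hu, rfl⟩, ?_⟩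
  rintro h _ ⟨u, hu, rfl⟩
  exact h u.1 hu

theorem Adm.normal {U : Subgroup (WG k Ω)} (hU : Adm U) : U.Normal := hU.1

theorem Adm.le {U : Subgroup (WG k Ω)} (hU : Adm U) : U ≤ WG0 k Ω := hU.2.1

theorem adm_WG0 : Adm (WG0 k Ω) := by
  refine ⟨⟨fun u hu g => ?_⟩, fun _ hu => hu, ⟨∅, fun _ hg _ => hg⟩, fun g hg => ⟨0, by simpa⟩⟩
  rw [mem_WG0] at hu ⊢
  rw [wdeg_mul, wdeg_mul, wdeg_inv, hu, add_zero, add_neg_cancel]

theorem Adm.inf {U U' : Subgroup (WG k Ω)} (hU : Adm U) (hU' : Adm U') : Adm (U ⊓ U') := by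
  obtain ⟨h1, h2, ⟨S, h3⟩, h4⟩ := hU
  obtain ⟨h1', -, ⟨S', h3'⟩, h4'⟩ := hU'
  refine ⟨inferInstance, fun u hu => h2 u hu.1, ⟨S ∪ S', fun g hg h =>
    ⟨h3 g hg fun a ha => h a (Finset.mem_union_left _ ha),
      h3' g hg fun a ha => h a (Finset.mem_union_right _ ha)⟩⟩, fun g hg => ?_⟩
  obtain ⟨j, hj⟩ := h4 g hg
  obtain ⟨j', hj'⟩ := h4' g hg
  refine ⟨j + j', ?_, ?_⟩
  · rw [pow_add, pow_mul]
    exact U.pow_mem hj _
  · rw [add_comm, pow_add, pow_mul]
    exact U'.pow_mem hj' _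

theorem Adm.mono {U U' : Subgroup (WG k Ω)} (hU : Adm U) (h : U ≤ U') (hn : U'.Normal)
    (hl : U' ≤ WG0 k Ω) : Adm U' := by
  obtain ⟨-, -, ⟨S, h3⟩, h4⟩ := hU
  exact ⟨hn, hl, ⟨S, fun g hg h' => h (h3 g hg h')⟩, fun g hg => (h4 g hg).imp fun _ hj => h hj⟩

theorem Adm.gal_mem_MU {U : Subgroup (WG k Ω)} (hU : Adm U) (g : WG k Ω) {a : Ω} (ha : a ∈ MU U) :
    gal g a ∈ MU U := by
  rw [mem_MU hU.le] at ha ⊢
  intro u hu
  conv_rhs => rw [← ha _ (hU.normal.conj_mem' u hu g)]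
  rw [← AlgEquiv.mul_apply, ← AlgEquiv.mul_apply, ← map_mul, ← map_mul, ← mul_assoc, ← mul_assoc,
    mul_inv_cancel, one_mul]

variable [IsSepClosure (RatFunc k) Ω]

instance isAlgClosed_Kb : IsAlgClosed (Kb k Ω) := by
  have := IsSepClosure.sep_closed (RatFunc k) (K := Ω)
  have := Algebra.IsAlgebraic.perfectField k (L := Kb k Ω)
  refine IsAlgClosed.of_exists_root _ fun p hm hp => ?_
  obtain ⟨x, hx⟩ := IsSepClosed.exists_aeval_eq_zero Ω p (degree_pos_of_irreducible hp).ne'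
    (PerfectField.separable_of_irreducible hp)
  have h1 : x ∈ algebraicClosure k Ω :=
    mem_algebraicClosure_iff'.2 (isIntegral_trans x (show IsIntegral (Kb k Ω) x from ⟨p, hm, hx⟩))
  refine ⟨⟨x, h1⟩, (algebraMap (Kb k Ω) Ω).injective ?_⟩
  rw [← aeval_algebraMap_apply_eq_algebraMap_eval, map_zero]
  exact hx

instance isSepClosure_geom : IsSepClosure (RatFunc (Kb k Ω)) Ω := by
  let := (gb_base k Ω).toAlgebra
  have : IsScalarTower (RatFunc k) (RatFunc (Kb k Ω)) Ω :=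
    IsScalarTower.of_algebraMap_eq fun a => (gb_jK_base a).symm
  exact ⟨IsSepClosure.sep_closed (RatFunc k),
    Algebra.isSeparable_tower_top_of_isSeparable (RatFunc k) _ _⟩

theorem fixed_geom {a : Ω} (h : ∀ g : WG k Ω, wdeg g = 0 → gal g a = a) : ∃ b, jK k Ω b = a := by
  refine (InfiniteGalois.mem_range_algebraMap_iff_fixed (k := RatFunc (Kb k Ω)) a).2 fun s => ?_
  obtain ⟨g, rfl⟩ := toGeom_bijective.2 s
  exact h g.1 g.2

omit [Algebra (RatFunc k) Ω] [IsScalarTower k (RatFunc k) Ω] [IsSepClosure (RatFunc k) Ω] in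
theorem gb_descend {p : (Kb k Ω)[X]} (h : p.map (frob k Ω : Kb k Ω →+* Kb k Ω) = p) :
    ∃ q : k[X], q.map (algebraMap k (Kb k Ω)) = p := by
  refine (mem_lifts p).1 ((lifts_iff_coeff_lifts p).2 fun n => ?_)
  have h1 : p.coeff n ^ Fintype.card k = p.coeff n := by
    conv_rhs => rw [← h, coeff_map]
    rfl
  have h2 := splits_X_pow_nat_card_sub_X (K := k)
  rw [Nat.card_eq_fintype_card] at h2
  exact h2.mem_range_of_isRoot (FiniteField.X_pow_card_sub_X_ne_zero k Fintype.one_lt_card)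
    (by simp [h1])

theorem fixed_all (φ : WG k Ω) (hφ : wdeg φ = 1) {a : Ω} (h : ∀ g : WG k Ω, gal g a = a) :
    ∃ b, algebraMap (RatFunc k) Ω b = a := by
  obtain ⟨b, rfl⟩ := fixed_geom fun g _ => h g
  have h1 := h φ
  conv_lhs at h1 => rw [jK_div, map_div₀, gal_aeval, gal_aeval, hφ, zpow_one, ← jK_poly, ← jK_poly,
    ← map_div₀]
  replace h1 := (jK k Ω).toRingHom.injective h1
  have hm := (RatFunc.monic_denom b).map (frob k Ω : Kb k Ω →+* Kb k Ω)
  have h2 := eq_of_monic_of_dvd_of_natDegree_le (RatFunc.monic_denom b) hm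
    ((RatFunc.denom_dvd hm.ne_zero).2 ⟨_, h1.symm⟩) natDegree_map_le
  rw [h2] at h1
  have h3 := RatFunc.algebraMap_injective _ ((div_left_inj'
    (RatFunc.algebraMap_ne_zero b.denom_ne_zero)).1 (h1.trans b.num_div_denom.symm))
  obtain ⟨p, hp⟩ := gb_descend h3
  obtain ⟨q, hq⟩ := gb_descend h2
  exact ⟨_, by rw [jK_div, ← hp, ← hq, aeval_tt_map, aeval_tt_map, aeval_tt_base, aeval_tt_base,
    ← map_div₀]⟩

theorem dense (φ : WG k Ω) (hφ : wdeg φ = 1) (s : Gam k Ω) (S : Finset Ω) :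
    ∃ g : WG k Ω, ∀ a ∈ S, gal g a = s a := by
  let M := (FiniteGaloisIntermediateField.adjoin (RatFunc k) (S : Set Ω)).toIntermediateField
  let H := ((AlgEquiv.restrictNormalHom M).comp (gal (k := k) (Ω := Ω))).range
  have h1 : IntermediateField.fixedField H = ⊥ := by
    refine eq_bot_iff.2 fun a ha => ?_
    obtain ⟨b, hb⟩ := fixed_all φ hφ (a := a.1) fun g => by
      rw [← AlgEquiv.restrictNormalHom_apply]
      exact congrArg Subtype.val ((IntermediateField.mem_fixedField_iff _ _).1 ha _ ⟨g, rfl⟩)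
    exact ⟨b, Subtype.ext hb⟩
  have h2 : H = ⊤ := by
    rw [← IntermediateField.fixingSubgroup_fixedField H, h1, IntermediateField.fixingSubgroup_bot]
  obtain ⟨g, hg⟩ : AlgEquiv.restrictNormalHom M s ∈ H := h2 ▸ Subgroup.mem_top _
  refine ⟨g, fun a ha => ?_⟩
  have h3 : a ∈ M := FiniteGaloisIntermediateField.subset_adjoin (RatFunc k) (S : Set Ω) ha
  have h4 := AlgEquiv.restrictNormalHom_apply M (gal g) ⟨a, h3⟩
  rw [show AlgEquiv.restrictNormalHom M (gal g) = _ from hg,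
    AlgEquiv.restrictNormalHom_apply] at h4
  exact h4.symm

theorem exists_stable (S : Finset Ω) :
    ∃ S' : Finset Ω, S ⊆ S' ∧ ∀ (g : Gam k Ω), ∀ a ∈ S', g a ∈ S' := by
  refine ⟨S.biUnion fun a => ((minpoly (RatFunc k) a).rootSet Ω).toFinset, fun a ha =>
    Finset.mem_biUnion.2 ⟨a, ha, Set.mem_toFinset.2 (mem_rootSet.2 ⟨minpoly.ne_zero
      (Algebra.IsIntegral.isIntegral a), minpoly.aeval _ _⟩)⟩, fun g a ha => ?_⟩
  obtain ⟨b, hb, h⟩ := Finset.mem_biUnion.1 ha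
  exact Finset.mem_biUnion.2
    ⟨b, hb, Set.mem_toFinset.2 (rootSet_mapsTo g.toAlgHom (Set.mem_toFinset.1 h))⟩

variable (k) in
/-- the fixer of a finite set -/
def gb_fix (S : Finset Ω) : Subgroup (WG k Ω) where
  carrier := {g | ∀ a ∈ S, gal g a = a}
  one_mem' a _ := by simp
  mul_mem' {g h} hg hh a ha := by rw [map_mul, AlgEquiv.mul_apply, hh a ha, hg a ha]
  inv_mem' {g} hg a ha := by
    rw [map_inv, AlgEquiv.aut_inv, AlgEquiv.symm_apply_eq, hg a ha]

theorem gb_fix_index (S : Finset Ω) : (gb_fix k S).FiniteIndex := by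
  obtain ⟨S', h1, h2⟩ := exists_stable (k := k) S
  have : Finite (WG k Ω ⧸ gb_fix k S) := by
    refine Finite.of_injective
      (fun x (a : S) => (⟨gal x.out a, h2 _ _ (h1 a.2)⟩ : S')) fun x y h => ?_
    rw [← x.out_eq, ← y.out_eq]
    refine Quotient.sound (QuotientGroup.leftRel_apply.2 fun a ha => ?_)
    rw [map_mul, map_inv, AlgEquiv.mul_apply, AlgEquiv.aut_inv, AlgEquiv.symm_apply_eq]
    exact (congrArg Subtype.val (congrFun h ⟨a, ha⟩)).symm
  exact ⟨Subgroup.index_ne_zero_of_finite⟩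

theorem gb_fd (S : Finset Ω) : FiniteDimensional (RatFunc (Kb k Ω))
    (IntermediateField.adjoin (RatFunc (Kb k Ω)) (S : Set Ω)) :=
  IntermediateField.finiteDimensional_adjoin fun x _ => Algebra.IsIntegral.isIntegral x

omit [IsSepClosure (RatFunc k) Ω] in
theorem gb_le {U : Subgroup (WG k Ω)} {S : Finset Ω}
    (hS : ∀ g, wdeg g = 0 → (∀ a ∈ S, gal g a = a) → g ∈ U) :
    (IntermediateField.adjoin (RatFunc (Kb k Ω)) (S : Set Ω)).fixingSubgroup ≤
      (U.subgroupOf (WG0 k Ω)).map (toGeom k Ω) := fun s hs => by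
  obtain ⟨g, rfl⟩ := toGeom_bijective.2 s
  exact ⟨g, hS g.1 g.2 fun a ha => (IntermediateField.mem_fixingSubgroup_iff _ _).1 hs a
    (IntermediateField.subset_adjoin _ _ ha), rfl⟩

theorem gb_closed {U : Subgroup (WG k Ω)} {S : Finset Ω}
    (hS : ∀ g, wdeg g = 0 → (∀ a ∈ S, gal g a = a) → g ∈ U) {g : WG k Ω} (hg : wdeg g = 0)
    (h : ∀ a ∈ MU U, gal g a = a) : g ∈ U := by
  have := gb_fd (k := k) S
  have h1 := InfiniteGalois.fixingSubgroup_fixedField ⟨_, Subgroup.isClosed_of_isOpen _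
    (Subgroup.isOpen_mono (gb_le hS) (IntermediateField.fixingSubgroup_isOpen _))⟩
  obtain ⟨g', h2, h3⟩ := h1.le ((IntermediateField.mem_fixingSubgroup_iff _
    (toGeom k Ω ⟨g, hg⟩)).2 h)
  rw [toGeom_bijective.1 h3] at h2
  exact h2

theorem gb_split {n : ℕ} (hn : n ≠ 0) :
    ∃ e m : ℕ, Nat.Coprime 6 m ∧ m ∣ n ∧ n ∣ 6 ^ e * m := by
  obtain ⟨a, n1, h1, rfl⟩ := Nat.exists_eq_pow_mul_and_not_dvd hn 2 (by norm_num)
  obtain ⟨b, m, h2, rfl⟩ :=
    Nat.exists_eq_pow_mul_and_not_dvd (right_ne_zero_of_mul hn) 3 (by norm_num)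
  refine ⟨a + b, m, Nat.Coprime.mul_left (m := 2) (n := 3)
    (Nat.prime_two.coprime_iff_not_dvd.2 fun h => h1 (h.mul_left _))
    (Nat.prime_three.coprime_iff_not_dvd.2 h2), ((dvd_refl m).mul_left _).mul_left _,
    3 ^ a * 2 ^ b, ?_⟩
  rw [show 6 = 2 * 3 from rfl, mul_pow, pow_add, pow_add]
  ring

theorem adm_core (H : Subgroup (WG k Ω)) (hH : H ≤ WG0 k Ω) (S : Finset Ω)
    (hS : ∀ g, wdeg g = 0 → (∀ a ∈ S, gal g a = a) → g ∈ H)
    (h3 : ∀ g, wdeg g = 0 → ∃ j : ℕ, g ^ 6 ^ j ∈ H) : Adm H.normalCore := by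
  obtain ⟨S', h1, h2⟩ := exists_stable (k := k) S
  have key : ∀ g, wdeg g = 0 → (∀ a ∈ S', gal g a = a) → g ∈ H.normalCore := fun g hg h b =>
    hS _ (adm_WG0.normal.conj_mem g hg b) fun a ha => by
      rw [map_mul, map_mul, AlgEquiv.mul_apply, AlgEquiv.mul_apply, h _ (h2 _ a (h1 ha)),
        ← AlgEquiv.mul_apply, ← map_mul, mul_inv_cancel, map_one, AlgEquiv.one_apply]
  refine ⟨inferInstance, fun u hu => hH (H.normalCore_le hu), ⟨S', key⟩, fun g hg => ?_⟩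
  obtain ⟨n, hn, -, hgn⟩ :=
    Subgroup.exists_pow_mem_of_index_ne_zero (gb_fix_index (k := k) S').index_ne_zero g
  obtain ⟨e, m, hm, -, c, hc⟩ := gb_split hn.ne'
  replace hgn : g ^ (6 ^ e * m) ∈ gb_fix k S' := by
    rw [hc, pow_mul]
    exact Subgroup.pow_mem _ hgn c
  refine ⟨e, fun b => ?_⟩
  have h4 := key _ ((WG0 k Ω).pow_mem hg _) hgn b
  rw [pow_mul, ← conj_pow] at h4
  obtain ⟨j, hj⟩ := h3 _ (adm_WG0.normal.conj_mem _ ((WG0 k Ω).pow_mem hg (6 ^ e)) b)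
  have h5 := Nat.gcd_eq_gcd_ab (6 ^ j) m
  rw [hm.pow_left j] at h5
  rw [← zpow_one (b * g ^ 6 ^ e * b⁻¹), ← Nat.cast_one, h5, zpow_add, zpow_mul, zpow_mul,
    zpow_natCast, zpow_natCast]
  exact H.mul_mem (H.zpow_mem hj _) (H.zpow_mem h4 _)

theorem Adm.index {U : Subgroup (WG k Ω)} (hU : Adm U) : U.relIndex (WG0 k Ω) ≠ 0 := by
  obtain ⟨S, hS⟩ := hU.2.2.1
  have := gb_fix_index (k := k) S
  exact (Subgroup.finiteIndex_of_le (H := (gb_fix k S).subgroupOf (WG0 k Ω))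
    (K := U.subgroupOf (WG0 k Ω)) fun g hg => hS g.1 g.2 hg).index_ne_zero

theorem Adm.index_pow {U : Subgroup (WG k Ω)} (hU : Adm U) :
    ∃ j : ℕ, U.relIndex (WG0 k Ω) ∣ 6 ^ j := by
  have := hU.normal
  have : (U.subgroupOf (WG0 k Ω)).FiniteIndex := ⟨hU.index⟩
  obtain ⟨e, m, h1, h2, h3⟩ := gb_split hU.index
  refine ⟨e, ?_⟩
  by_cases hm : m = 1
  · rwa [hm, mul_one] at h3
  obtain ⟨p, hp, hpm⟩ := Nat.exists_prime_and_dvd hm
  have : Fact p.Prime := ⟨hp⟩
  obtain ⟨x, hx⟩ := exists_prime_orderOf_dvd_card' (G := WG0 k Ω ⧸ U.subgroupOf (WG0 k Ω)) p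
    (hpm.trans h2)
  obtain ⟨g, rfl⟩ := QuotientGroup.mk_surjective x
  obtain ⟨j, hj⟩ := hU.2.2.2 g.1 g.2
  have h4 := orderOf_dvd_of_pow_eq_one (x := (g : WG0 k Ω ⧸ U.subgroupOf (WG0 k Ω)))
    ((QuotientGroup.eq_one_iff (g ^ 6 ^ j)).2 hj)
  rw [hx] at h4
  exact absurd (Nat.eq_one_of_dvd_coprimes h1 (hp.dvd_of_dvd_pow h4) hpm) hp.ne_one

theorem Adm.finiteDimensional {U : Subgroup (WG k Ω)} (hU : Adm U) :
    FiniteDimensional (RatFunc (Kb k Ω)) (MU U) := by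
  obtain ⟨S, hS⟩ := hU.2.2.1
  have := gb_fd (k := k) S
  have h := IntermediateField.fixedField_le (gb_le hS)
  rw [InfiniteGalois.fixedField_fixingSubgroup] at h
  exact FiniteDimensional.of_injective (IntermediateField.inclusion h).toLinearMap
    (IntermediateField.inclusion_injective h)

theorem Adm.isGalois {U : Subgroup (WG k Ω)} (hU : Adm U) :
    IsGalois (RatFunc (Kb k Ω)) (MU U) := by
  have := hU.normal
  have : ((U.subgroupOf (WG0 k Ω)).map (toGeom k Ω)).Normal :=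
    Subgroup.Normal.map inferInstance _ toGeom_bijective.2
  exact IsGalois.of_fixedField_normal_subgroup _

theorem Adm.mem_iff {U : Subgroup (WG k Ω)} (hU : Adm U) {g : WG k Ω} (hg : wdeg g = 0) :
    g ∈ U ↔ ∀ a ∈ MU U, gal g a = a := by
  obtain ⟨S, hS⟩ := hU.2.2.1
  exact ⟨fun h a ha => (mem_MU hU.le).1 ha g h, gb_closed hS hg⟩

/-- the quotient of the geometric group is the Galois group of the fixed field -/
theorem Adm.exists_res {U : Subgroup (WG k Ω)} (hU : Adm U) :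
    ∃ π : WG0 k Ω →* (MU U ≃ₐ[RatFunc (Kb k Ω)] MU U), Function.Surjective π ∧
      (∀ g (a : MU U), (π g a : Ω) = gal g.1 a) ∧ ∀ g, π g = 1 ↔ g.1 ∈ U := by
  have := hU.isGalois
  refine ⟨(AlgEquiv.restrictNormalHom (MU U)).comp (toGeom k Ω),
    (AlgEquiv.restrictNormalHom_surjective Ω).comp toGeom_bijective.2,
    fun g a => AlgEquiv.restrictNormalHom_apply _ _ a, fun g => ?_⟩
  rw [hU.mem_iff g.2, AlgEquiv.ext_iff, Subtype.forall]
  refine forall₂_congr fun a ha => ?_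
  rw [Subtype.ext_iff, MonoidHom.comp_apply, AlgEquiv.restrictNormalHom_apply]
  rfl

theorem Adm.card_gal {U : Subgroup (WG k Ω)} (hU : Adm U) :
    Nat.card (MU U ≃ₐ[RatFunc (Kb k Ω)] MU U) = U.relIndex (WG0 k Ω) := by
  obtain ⟨π, h1, -, h3⟩ := hU.exists_res
  have h4 : U.subgroupOf (WG0 k Ω) = π.ker := Subgroup.ext fun g => (h3 g).symm
  rw [Subgroup.relIndex, h4, Subgroup.index_ker, MonoidHom.range_eq_top.2 h1, Subgroup.card_top]

/-- Kummer theory for the geometric group -/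
theorem exists_kummer (h6 : (6 : k) ≠ 0) (h : WG k Ω → F2)
    (hh : ∀ g g', wdeg g = 0 → wdeg g' = 0 → h (g * g') = h g + h g') {U : Subgroup (WG k Ω)}
    (hU : Adm U) (hs : ∀ u ∈ U, h u = 0) :
    ∃ (r : Ω) (b : RatFunc (Kb k Ω)), r ≠ 0 ∧ r ^ 2 = jK k Ω b ∧
      ∀ g, wdeg g = 0 → kum r (gal g) = h g := by
  have h1 : h 1 = 0 := hs 1 U.one_mem
  let H : Subgroup (WG k Ω) :=
    { carrier := {g | wdeg g = 0 ∧ h g = 0}
      one_mem' := ⟨rfl, h1⟩
      mul_mem' := fun {a b} ha hb => ⟨(WG0 k Ω).mul_mem ha.1 hb.1, by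
        rw [hh a b ha.1 hb.1, ha.2, hb.2, add_zero]⟩
      inv_mem' := fun {a} ha => ⟨(WG0 k Ω).inv_mem ha.1, by
        have := hh a a⁻¹ ha.1 ((WG0 k Ω).inv_mem ha.1)
        rwa [mul_inv_cancel, h1, ha.2, zero_add, eq_comm] at this⟩ }
  obtain ⟨S, hS⟩ := hU.2.2.1
  obtain ⟨r, hr, hg⟩ := kummer_abstract
    (((MulSemiringAction.toRingAut (Gam k Ω) Ω).comp gal).comp (WG0 k Ω).subtype)
    (fun g => h g.1) (fun g g' => hh _ _ g.2 g'.2) fun g hg =>
      (gb_closed (U := H) (fun g hg h' => ⟨hg, hs g (hS g hg h')⟩) g.2 fun a ha => hg a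
        fun n hn => (mem_MU (U := H) fun _ hu => hu.1).1 ha n.1 ⟨n.2, hn⟩).2
  replace hg : ∀ g, wdeg g = 0 → gal g r = (-1) ^ (h g).val * r :=
    fun g h0 => hg ⟨g, h0⟩
  obtain ⟨b, hb⟩ := fixed_geom (a := r ^ 2) fun g h0 => by
    rw [map_pow, hg g h0, mul_pow, ← pow_mul, mul_comm _ 2, pow_mul, neg_one_sq, one_pow, one_mul]
  exact ⟨r, b, hr, hb.symm, fun g h0 => kum_eq h6 hr (hg g h0)⟩

/-- the fixer of a square root of a geometric function contains an admissible subgroup -/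
theorem adm_kum (h6 : (6 : k) ≠ 0) {r : Ω} {b : RatFunc (Kb k Ω)}
    (hr : r ^ 2 = jK k Ω b) : ∃ U : Subgroup (WG k Ω), Adm U ∧ ∀ u ∈ U, gal u r = r := by
  rcases eq_or_ne r 0 with rfl | h0
  · exact ⟨_, adm_WG0, fun u _ => map_zero _⟩
  refine ⟨_, adm_core (WG0 k Ω ⊓ gb_fix k {r}) inf_le_left {r} (fun g hg h => ⟨hg, h⟩)
    fun g hg => ⟨1, (WG0 k Ω).pow_mem hg _, fun a ha => ?_⟩, fun u hu =>
      (Subgroup.normalCore_le _ hu).2 r (Finset.mem_singleton_self r)⟩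
  have h1 := kum_spec h6 h0 (g := gal g) (by rw [hr, geom_fix hg])
  generalize (kum r (gal g)).val = m at h1
  have h2 : ∀ n : ℕ, gal (g ^ n) r = ((-1) ^ n) ^ m * r := by
    intro n
    induction n with
    | zero => simp
    | succ n ih =>
      rw [pow_succ', map_mul, AlgEquiv.mul_apply, ih, map_mul, map_pow, map_pow, map_neg, map_one,
        h1, pow_succ (-1 : Ω) n, mul_pow, mul_assoc]
  rw [Finset.mem_singleton.1 ha, h2, Even.neg_one_pow (by decide), one_pow, one_mul]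

end

end Pool.Agent.Quad
end
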