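import Mathlib

-- merged part: Pool.Agent.Work.MP_60d5ce_nt.Qt.Crv
section
/-!
# Galois covers of the line given by absolute values; spaces of functions with bounded poles

Hints.
* `mem_LL_iff`: for `f ∈ LL m` the coefficients of `∏ (X - h f)` lie in `RatFunc 𝕜`, have size at most
  one at all finite points, so are polynomials, and their size at infinity bounds the degree.  The
  converse is the ultrametric inequality.
* `card_zeros`: the norm `∏ h f` is a nonzero polynomial of degree at most `N m`; at `x ∉ Ram` each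
  small factor has size at most `1/2`.
* `exists_ord`: `card_zeros`-like, the order of `f` at `x` is at most the order of the norm.
* `finrank_le`: `N m + 1` points outside `Ram`; the residue at a point is a linear form (`res`).
* `exists_ord_basis`: induction on the dimension, or: the orders taken by nonzero elements of the
  space form a set with as many elements as the dimension.
-/

namespace Pool.Agent.Quad

open Polynomial

noncomputable section

variable (𝕜 M : Type) [Field 𝕜] [Field M] [Algebra 𝕜 M] [Algebra (RatFunc 𝕜) M]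

/-- the coordinate -/
def tM : M := algebraMap (RatFunc 𝕜) M RatFunc.X

/-- one absolute value above every point of the line -/
structure Crv where
  w : Option 𝕜 → AbsoluteValue M ℝ
  na : ∀ y, IsNonarchimedean (w y)
  w_fin : ∀ (x : 𝕜) (p : 𝕜[X]), p ≠ 0 →
    w (some x) (aeval (tM 𝕜 M) p) = 2 ^ (-(p.rootMultiplicity x : ℤ))
  w_inf : ∀ p : 𝕜[X], p ≠ 0 → w none (aeval (tM 𝕜 M) p) = 2 ^ (p.natDegree : ℤ)
  res : ∀ y a, w y a ≤ 1 → ∃ c : 𝕜, w y (a - algebraMap 𝕜 M c) < 1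
  Ram : Finset 𝕜
  disc : ∀ x ∉ Ram, ∀ a, a ≠ 0 → ∃ n : ℤ, w (some x) a = 2 ^ n
  tame : (Nat.card (M ≃ₐ[RatFunc 𝕜] M) : 𝕜) ≠ 0

variable {𝕜 M} [IsScalarTower 𝕜 (RatFunc 𝕜) M]

theorem crv_aeval (p : 𝕜[X]) :
    aeval (tM 𝕜 M) p = algebraMap (RatFunc 𝕜) M (algebraMap 𝕜[X] (RatFunc 𝕜) p) := by
  rw [tM, aeval_algebraMap_apply, RatFunc.aeval_X_left_eq_algebraMap]

theorem crv_fix (h : M ≃ₐ[RatFunc 𝕜] M) (p : 𝕜[X]) : h (aeval (tM 𝕜 M) p) = aeval (tM 𝕜 M) p := by
  rw [crv_aeval, AlgEquiv.commutes]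

theorem crv_fix_const (h : M ≃ₐ[RatFunc 𝕜] M) (c : 𝕜) :
    h (algebraMap 𝕜 M c) = algebraMap 𝕜 M c := by
  rw [IsScalarTower.algebraMap_apply 𝕜 (RatFunc 𝕜) M, AlgEquiv.commutes]

theorem crv_root {w : AbsoluteValue M ℝ} (hw : IsNonarchimedean w) {B : ℝ} (hB : 0 < B) {n : ℕ}
    (hn : 0 < n) {c : ℕ → M} (hc : ∀ i < n, w (c i) ≤ B ^ (n - i)) {g : M}
    (h : g ^ n + ∑ i ∈ Finset.range n, c i * g ^ i = 0) : w g ≤ B := by
  by_contra h1
  rw [not_le] at h1
  obtain ⟨i, hi, h2⟩ := hw.finset_image_add_of_nonempty (fun i => c i * g ^ i)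
    (Finset.nonempty_range_iff.2 hn.ne')
  have hi' := Finset.mem_range.1 hi
  rw [eq_neg_of_add_eq_zero_right h, w.map_neg, map_pow, map_mul, map_pow,
    ← Nat.sub_add_cancel hi'.le, pow_add] at h2
  have h3 := (hc i hi').trans_lt (pow_lt_pow_left₀ h1 hB.le (Nat.sub_ne_zero_of_lt hi'))
  exact (mul_lt_mul_of_pos_right h3 (pow_pos (hB.trans h1) i)).not_ge h2

namespace Crv

variable (C : Crv 𝕜 M)

omit [IsScalarTower 𝕜 (RatFunc 𝕜) M] in
theorem crv_const (y : Option 𝕜) {c : 𝕜} (hc : c ≠ 0) : C.w y (algebraMap 𝕜 M c) = 1 := by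
  rw [← aeval_C (tM 𝕜 M)]
  cases y with
  | none => rw [C.w_inf _ (C_ne_zero.2 hc), natDegree_C, Nat.cast_zero, zpow_zero]
  | some x => rw [C.w_fin x _ (C_ne_zero.2 hc), rootMultiplicity_C, Nat.cast_zero, neg_zero, zpow_zero]

omit [IsScalarTower 𝕜 (RatFunc 𝕜) M] in
theorem crv_step {x : 𝕜} (hx : x ∉ C.Ram) {k : ℕ} {g : M} (h : C.w (some x) g < 2 ^ (-(k : ℤ))) :
    C.w (some x) g ≤ 2 ^ (-((k + 1 : ℕ) : ℤ)) := by
  rcases eq_or_ne g 0 with rfl | h0
  · rw [map_zero]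
    positivity
  · obtain ⟨n, hn⟩ := C.disc x hx g h0
    rw [hn, zpow_lt_zpow_iff_right₀ one_lt_two] at h
    rw [hn, zpow_le_zpow_iff_right₀ one_lt_two]
    omega

theorem w_const (y : Option 𝕜) (c : 𝕜) : C.w y (algebraMap 𝕜 M c) ≤ 1 := by
  rcases eq_or_ne c 0 with rfl | hc
  · simp
  · exact (C.crv_const y hc).le

/-- functions regular at finite distance with poles of order at most `m` at infinity -/
def LL (m : ℕ) : Submodule 𝕜 M where
  carrier := {f | (∀ (x : 𝕜) (h : M ≃ₐ[RatFunc 𝕜] M), C.w (some x) (h f) ≤ 1) ∧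
    ∀ h : M ≃ₐ[RatFunc 𝕜] M, C.w none (h f) ≤ 2 ^ m}
  add_mem' := by
    rintro f g ⟨h1, h2⟩ ⟨h3, h4⟩
    refine ⟨fun x h => ?_, fun h => ?_⟩
    · rw [map_add]
      exact (C.na _ _ _).trans (max_le (h1 x h) (h3 x h))
    · rw [map_add]
      exact (C.na _ _ _).trans (max_le (h2 h) (h4 h))
  zero_mem' := by
    refine ⟨fun x h => ?_, fun h => ?_⟩ <;> simp
  smul_mem' := by
    rintro c f ⟨h1, h2⟩
    refine ⟨fun x h => ?_, fun h => ?_⟩
    · rw [Algebra.smul_def, map_mul, crv_fix_const, map_mul]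
      exact mul_le_one₀ (C.w_const _ c) ((C.w _).nonneg _) (h1 x h)
    · rw [Algebra.smul_def, map_mul, crv_fix_const, map_mul]
      exact (mul_le_of_le_one_left ((C.w _).nonneg _) (C.w_const _ c)).trans (h2 h)

theorem mem_LL {m : ℕ} {f : M} : f ∈ C.LL m ↔
    (∀ (x : 𝕜) (h : M ≃ₐ[RatFunc 𝕜] M), C.w (some x) (h f) ≤ 1) ∧
      ∀ h : M ≃ₐ[RatFunc 𝕜] M, C.w none (h f) ≤ 2 ^ m := Iff.rfl

theorem LL_mono {m n : ℕ} (h : m ≤ n) : C.LL m ≤ C.LL n := by
  exact fun f hf => ⟨hf.1, fun g => (hf.2 g).trans (pow_le_pow_right₀ one_le_two h)⟩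

theorem mul_mem_LL {m n : ℕ} {f g : M} (hf : f ∈ C.LL m) (hg : g ∈ C.LL n) :
    f * g ∈ C.LL (m + n) := by
  refine ⟨fun x h => ?_, fun h => ?_⟩
  · rw [map_mul, map_mul]
    exact mul_le_one₀ (hf.1 x h) ((C.w _).nonneg _) (hg.1 x h)
  · rw [map_mul, map_mul, pow_add]
    exact mul_le_mul (hf.2 h) (hg.2 h) ((C.w _).nonneg _) (by positivity)

theorem pow_mem_LL {m : ℕ} {f : M} (hf : f ∈ C.LL m) (n : ℕ) : f ^ n ∈ C.LL (m * n) := by
  induction n with
  | zero => exact ⟨fun x h => by simp, fun h => by simp⟩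
  | succ n ih =>
    rw [pow_succ, mul_add_one]
    exact C.mul_mem_LL ih hf

theorem aeval_mem_LL (p : 𝕜[X]) : aeval (tM 𝕜 M) p ∈ C.LL p.natDegree := by
  rcases eq_or_ne p 0 with rfl | hp
  · rw [map_zero]
    exact zero_mem _
  refine ⟨fun x h => ?_, fun h => ?_⟩
  · rw [crv_fix, C.w_fin x p hp]
    exact zpow_le_one_of_nonpos₀ one_le_two (by simp)
  · rw [crv_fix, C.w_inf p hp, zpow_natCast]

theorem crv_act {m : ℕ} {f : M} (hf : f ∈ C.LL m) (g : M ≃ₐ[RatFunc 𝕜] M) : g f ∈ C.LL m :=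
  ⟨fun x h => hf.1 x (h * g), fun h => hf.2 (h * g)⟩

theorem crv_prod {ι : Type*} {m : ℕ} (s : Finset ι) {r : ι → M} (h : ∀ i ∈ s, r i ∈ C.LL m) :
    ∏ i ∈ s, r i ∈ C.LL (s.card * m) := by
  classical
  induction s using Finset.induction_on with
  | empty => exact ⟨fun x h => by simp, fun h => by simp⟩
  | insert a s ha ih =>
    rw [Finset.prod_insert ha, Finset.card_insert_of_notMem ha, add_one_mul, add_comm]
    exact C.mul_mem_LL (h a (Finset.mem_insert_self a s))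
      (ih fun i hi => h i (Finset.mem_insert_of_mem hi))

theorem crv_res (m : ℕ) (x : 𝕜) : ∃ φ : C.LL m →ₗ[𝕜] 𝕜, ∀ f : C.LL m,
    C.w (some x) (f - algebraMap 𝕜 M (φ f)) < 1 := by
  choose φ hφ using fun f : C.LL m => C.res (some x) f (f.2.1 x 1)
  have h1 : ∀ (f : C.LL m) (c : 𝕜), C.w (some x) (f - algebraMap 𝕜 M c) < 1 → φ f = c := by
    intro f c h
    by_contra h2
    have h3 := C.na (some x) (f - algebraMap 𝕜 M c) (-(f - algebraMap 𝕜 M (φ f)))
    rw [(C.w _).map_neg, show (f : M) - algebraMap 𝕜 M c + -(f - algebraMap 𝕜 M (φ f)) =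
      algebraMap 𝕜 M (φ f - c) by rw [map_sub]; ring, C.crv_const _ (sub_ne_zero.2 h2)] at h3
    exact (max_lt h (hφ f)).not_ge h3
  refine ⟨⟨⟨φ, fun f g => h1 _ _ ?_⟩, fun c f => h1 _ _ ?_⟩, hφ⟩
  · rw [Submodule.coe_add, map_add, add_sub_add_comm]
    exact (C.na _ _ _).trans_lt (max_lt (hφ f) (hφ g))
  · rw [Submodule.coe_smul, RingHom.id_apply, smul_eq_mul, map_mul, Algebra.smul_def, ← mul_sub,
      map_mul]
    exact (mul_le_of_le_one_left ((C.w _).nonneg _) (C.w_const _ c)).trans_lt (hφ f)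

variable [IsAlgClosed 𝕜] [FiniteDimensional (RatFunc 𝕜) M] [IsGalois (RatFunc 𝕜) M]

theorem exists_poly {a : RatFunc 𝕜} (ha : ∀ x, C.w (some x) (algebraMap (RatFunc 𝕜) M a) ≤ 1) :
    ∃ p : 𝕜[X], algebraMap 𝕜[X] (RatFunc 𝕜) p = a := by
  have h1 : a.denom = 1 := by
    refine a.monic_denom.degree_le_zero_iff_eq_one.1 (not_lt.1 fun hd => ?_)
    obtain ⟨x, hx⟩ := IsAlgClosed.exists_root _ hd.ne'
    have h2 : ¬ a.num.IsRoot x := fun h => by
      obtain ⟨u, v, e⟩ := a.isCoprime_num_denom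
      have := congrArg (eval x) e
      rw [eval_add, eval_mul, eval_mul, h.eq_zero, hx.eq_zero, eval_one] at this
      simp at this
    have h3 : a.num ≠ 0 := fun h => h2 (by simp [h])
    have h4 := ha x
    rw [← a.num_div_denom, map_div₀, map_div₀, ← crv_aeval, ← crv_aeval, C.w_fin x _ h3,
      C.w_fin x _ a.denom_ne_zero, rootMultiplicity_eq_zero h2, ← zpow_sub₀ two_ne_zero,
      zpow_le_one_iff_right₀ one_lt_two] at h4
    have h5 := (rootMultiplicity_pos a.denom_ne_zero).2 hx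
    omega
  exact ⟨a.num, by simpa [h1] using a.num_div_denom⟩

theorem crv_fixed {d : ℕ} {c : M} (hc : c ∈ C.LL d) (h : ∀ g : M ≃ₐ[RatFunc 𝕜] M, g c = c) :
    ∃ p : 𝕜[X], p.natDegree ≤ d ∧ aeval (tM 𝕜 M) p = c := by
  obtain ⟨a, rfl⟩ := (IsGalois.mem_range_algebraMap_iff_fixed c).2 h
  obtain ⟨p, rfl⟩ := C.exists_poly (a := a) fun x => hc.1 x 1
  refine ⟨p, ?_, crv_aeval p⟩
  rcases eq_or_ne p 0 with rfl | hp
  · simp
  · have h1 := hc.2 1
    rwa [AlgEquiv.one_apply, ← crv_aeval, C.w_inf p hp, zpow_natCast,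
      pow_le_pow_iff_right₀ one_lt_two] at h1

theorem crv_norm {m : ℕ} {f : M} (hf : f ∈ C.LL m) (h0 : f ≠ 0) : ∃ p : 𝕜[X], p ≠ 0 ∧
    p.natDegree ≤ Module.finrank (RatFunc 𝕜) M * m ∧ ∀ x : 𝕜,
      ∏ h : M ≃ₐ[RatFunc 𝕜] M, C.w (some x) (h f) = 2 ^ (-(p.rootMultiplicity x : ℤ)) := by
  obtain ⟨p, h1, h2⟩ := C.crv_fixed (C.crv_prod Finset.univ fun h _ => C.crv_act hf h) fun g => by
    rw [map_prod]
    exact Fintype.prod_equiv (Equiv.mulLeft g) _ _ fun h => rfl
  have h3 : p ≠ 0 := by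
    rintro rfl
    rw [map_zero] at h2
    exact Finset.prod_ne_zero_iff.2 (fun h _ => (map_ne_zero h).2 h0) h2.symm
  rw [Finset.card_univ, ← Nat.card_eq_fintype_card, IsGalois.card_aut_eq_finrank] at h1
  exact ⟨p, h3, h1, fun x => by rw [← C.w_fin x p h3, h2, map_prod]⟩

theorem mem_LL_iff {m : ℕ} {f : M} : f ∈ C.LL m ↔ ∃ (n : ℕ) (a : ℕ → 𝕜[X]), 0 < n ∧
    (∀ i < n, (a i).natDegree ≤ (n - i) * m) ∧
      f ^ n + ∑ i ∈ Finset.range n, aeval (tM 𝕜 M) (a i) * f ^ i = 0 := by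
  constructor
  · intro hf
    obtain ⟨P, hP⟩ : ∃ P : M[X], P = ∏ h : M ≃ₐ[RatFunc 𝕜] M, (X + Polynomial.C (-h f)) := ⟨_, rfl⟩
    have h1 : P.Monic := hP ▸ monic_prod_of_monic _ _ fun h _ => monic_X_add_C _
    have h2 : P.natDegree = Fintype.card (M ≃ₐ[RatFunc 𝕜] M) := by
      rw [hP, natDegree_prod_of_monic _ _ fun h _ => monic_X_add_C _]
      simp only [natDegree_X_add_C, Finset.sum_const, Finset.card_univ, smul_eq_mul, mul_one]
    have h3 : ∀ g : M ≃ₐ[RatFunc 𝕜] M, P.map (g : M →+* M) = P := fun g => by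
      rw [hP, Polynomial.map_prod]
      refine Fintype.prod_equiv (Equiv.mulLeft g) _ _ fun h => ?_
      simp
    have h4 : ∀ i, ∃ p : 𝕜[X], i < P.natDegree →
        p.natDegree ≤ (P.natDegree - i) * m ∧ aeval (tM 𝕜 M) p = P.coeff i := fun i => by
      by_cases hi : i < P.natDegree
      · refine (C.crv_fixed (d := (P.natDegree - i) * m) (c := P.coeff i) ?_ fun g => ?_).imp
          fun p hp _ => hp
        · rw [h2] at hi ⊢
          rw [hP, Finset.prod_X_add_C_coeff _ _ hi.le]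
          refine Submodule.sum_mem _ fun s hs => ?_
          rw [← Finset.card_univ, ← (Finset.mem_powersetCard.1 hs).2]
          exact C.crv_prod s fun h _ => neg_mem (C.crv_act hf h)
        · conv_rhs => rw [← h3 g, coeff_map]
          rfl
      · exact ⟨0, fun h => (hi h).elim⟩
    choose a ha using h4
    refine ⟨P.natDegree, a, h2 ▸ Fintype.card_pos, fun i hi => (ha i hi).1, ?_⟩
    have h5 : P.eval f = 0 := by
      rw [hP, eval_prod]
      exact Finset.prod_eq_zero (Finset.mem_univ 1) (by simp)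
    rw [h1.as_sum, eval_add, eval_pow, eval_X, eval_finsetSum] at h5
    rw [← h5]
    congr 1
    refine Finset.sum_congr rfl fun i hi => ?_
    rw [(ha i (Finset.mem_range.1 hi)).2, eval_mul, eval_C, eval_pow, eval_X]
  · rintro ⟨n, a, hn, h1, h2⟩
    have h3 : ∀ h : M ≃ₐ[RatFunc 𝕜] M,
        h f ^ n + ∑ i ∈ Finset.range n, aeval (tM 𝕜 M) (a i) * h f ^ i = 0 := fun h => by
      have := congrArg h h2
      simpa only [map_add, map_pow, map_sum, map_mul, crv_fix, map_zero] using this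
    refine ⟨fun x h => crv_root (C.na _) one_pos hn (fun i _ => ?_) (h3 h),
      fun h => crv_root (C.na _) (by positivity) hn (fun i hi => ?_) (h3 h)⟩
    · rw [one_pow]
      exact (C.aeval_mem_LL (a i)).1 x 1
    · rw [← pow_mul, mul_comm]
      exact (C.LL_mono (h1 i hi) (C.aeval_mem_LL (a i))).2 1

theorem map_mem_LL (g : M ≃+* M) (ht : g (tM 𝕜 M) = tM 𝕜 M)
    (hc : ∀ c : 𝕜, ∃ c' : 𝕜, g (algebraMap 𝕜 M c) = algebraMap 𝕜 M c') {m : ℕ} {f : M}
    (hf : f ∈ C.LL m) : g f ∈ C.LL m := by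
  choose σ hσ using hc
  have h1 : ∀ p : 𝕜[X], ∃ q : 𝕜[X], q.natDegree ≤ p.natDegree ∧
      g (aeval (tM 𝕜 M) p) = aeval (tM 𝕜 M) q := fun p => by
    refine ⟨∑ i ∈ Finset.range (p.natDegree + 1), Polynomial.C (σ (p.coeff i)) * X ^ i,
      natDegree_sum_le_of_forall_le _ _ fun i hi => (natDegree_C_mul_X_pow_le _ _).trans
        (Nat.lt_succ_iff.1 (Finset.mem_range.1 hi)), ?_⟩
    rw [aeval_eq_sum_range, map_sum, map_sum]
    refine Finset.sum_congr rfl fun i _ => ?_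
    rw [Algebra.smul_def, map_mul, map_pow, hσ, ht, map_mul, map_pow, aeval_C, aeval_X]
  choose τ h2 h3 using h1
  obtain ⟨n, a, hn, h4, h5⟩ := C.mem_LL_iff.1 hf
  refine C.mem_LL_iff.2 ⟨n, fun i => τ (a i), hn, fun i hi => (h2 _).trans (h4 i hi), ?_⟩
  have := congrArg g h5
  simpa only [map_add, map_pow, map_sum, map_mul, h3, map_zero] using this

theorem card_zeros {m : ℕ} {f : M} (hf : f ∈ C.LL m) (h0 : f ≠ 0)
    (Z : Finset (𝕜 × (M ≃ₐ[RatFunc 𝕜] M)))
    (hZ : ∀ z ∈ Z, z.1 ∉ C.Ram ∧ C.w (some z.1) (z.2 f) < 1) :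
    Z.card ≤ Module.finrank (RatFunc 𝕜) M * m := by
  classical
  obtain ⟨p, hp, h1, h2⟩ := C.crv_norm hf h0
  refine le_trans ?_ ((card_roots' p).trans h1)
  rw [← Finset.card_val, ← Multiset.card_map Prod.fst]
  refine Multiset.card_le_card (Multiset.le_iff_count.2 fun x => ?_)
  rw [count_roots, Multiset.count_map, ← Finset.filter_val, Finset.card_val,
    ← Finset.card_image_of_injOn (f := Prod.snd) fun z hz z' hz' e => Prod.ext
      ((Finset.mem_filter.1 hz).2.symm.trans (Finset.mem_filter.1 hz').2) e]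
  generalize hS : (Z.filter fun z => x = z.1).image Prod.snd = S
  have h3 : ∏ h : M ≃ₐ[RatFunc 𝕜] M, C.w (some x) (h f) ≤
      ∏ h : M ≃ₐ[RatFunc 𝕜] M, if h ∈ S then (2 : ℝ) ^ (-1 : ℤ) else 1 := by
    refine Finset.prod_le_prod (fun h _ => (C.w _).nonneg _) fun h _ => ?_
    split_ifs with h4
    · rw [← hS] at h4
      obtain ⟨z, h5, rfl⟩ := Finset.mem_image.1 h4
      obtain ⟨h6, rfl⟩ := Finset.mem_filter.1 h5
      simpa using C.crv_step (k := 0) (hZ z h6).1 (by simpa using (hZ z h6).2)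
    · exact hf.1 x h
  rw [h2, Finset.prod_ite_mem, Finset.univ_inter, Finset.prod_const, ← zpow_natCast, ← zpow_mul,
    zpow_le_zpow_iff_right₀ one_lt_two] at h3
  omega

theorem exists_ord {m : ℕ} {f : M} (hf : f ∈ C.LL m) (h0 : f ≠ 0) {x : 𝕜} (hx : x ∉ C.Ram) :
    ∃ n : ℕ, n ≤ Module.finrank (RatFunc 𝕜) M * m ∧ C.w (some x) f = 2 ^ (-(n : ℤ)) := by
  classical
  obtain ⟨p, hp, h1, h2⟩ := C.crv_norm hf h0
  obtain ⟨n, hn⟩ := C.disc x hx f h0
  have h3 : C.w (some x) f ≤ 1 := hf.1 x 1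
  have h4 : ∏ h : M ≃ₐ[RatFunc 𝕜] M, C.w (some x) (h f) ≤ C.w (some x) f := by
    rw [← Finset.mul_prod_erase _ _ (Finset.mem_univ 1)]
    exact mul_le_of_le_one_right ((C.w _).nonneg _)
      (Finset.prod_le_one (fun h _ => (C.w _).nonneg _) fun h _ => hf.1 x h)
  rw [h2, hn, zpow_le_zpow_iff_right₀ one_lt_two] at h4
  rw [hn, zpow_le_one_iff_right₀ one_lt_two] at h3
  have h5 : p.rootMultiplicity x ≤ p.natDegree := by
    rw [← count_roots]
    exact (Multiset.count_le_card _ _).trans (card_roots' p)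
  refine ⟨(-n).toNat, by omega, ?_⟩
  rw [hn]
  congr 1
  omega

theorem crv_inj (m : ℕ) :
    ∃ Φ : C.LL m →ₗ[𝕜] Fin (Module.finrank (RatFunc 𝕜) M * m + 1) → 𝕜, Function.Injective Φ := by
  classical
  choose φ hφ using C.crv_res m
  have := C.Ram.finite_toSet.infinite_compl.to_subtype
  let e : ℕ ↪ ↥((C.Ram : Set 𝕜)ᶜ) := Infinite.natEmbedding _
  refine ⟨LinearMap.pi fun i => φ (e i), (injective_iff_map_eq_zero _).2 fun f hf => ?_⟩
  by_contra h0
  have h1 := C.card_zeros f.2 (fun h => h0 (Subtype.ext h))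
    (Finset.univ.image fun i : Fin (Module.finrank (RatFunc 𝕜) M * m + 1) => ((e i : 𝕜), 1))
    fun z hz => by
      obtain ⟨i, -, rfl⟩ := Finset.mem_image.1 hz
      have h2 := hφ (e i) f
      rw [show φ (e i) f = 0 from congrFun hf i, map_zero, sub_zero] at h2
      exact ⟨(e i).2, h2⟩
  rw [Finset.card_image_of_injective _ fun i j h =>
    Fin.ext (e.injective (Subtype.ext (Prod.ext_iff.1 h).1)), Finset.card_univ,
    Fintype.card_fin] at h1
  omega

theorem finite_LL (m : ℕ) : Module.Finite 𝕜 (C.LL m) := by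
  obtain ⟨Φ, hΦ⟩ := C.crv_inj m
  exact Module.Finite.of_injective Φ hΦ

theorem finrank_le (m : ℕ) :
    Module.finrank 𝕜 (C.LL m) ≤ Module.finrank (RatFunc 𝕜) M * m + 1 := by
  obtain ⟨Φ, hΦ⟩ := C.crv_inj m
  simpa using LinearMap.finrank_le_finrank_of_injective hΦ

theorem exists_ord_basis (m : ℕ) {x : 𝕜} (hx : x ∉ C.Ram) :
    ∃ (r : Fin (Module.finrank 𝕜 (C.LL m)) → M) (n : Fin (Module.finrank 𝕜 (C.LL m)) → ℕ),
      Function.Injective n ∧ ∀ i, r i ∈ C.LL m ∧ n i ≤ Module.finrank (RatFunc 𝕜) M * m ∧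
        C.w (some x) (r i) = 2 ^ (-(n i : ℤ)) := by
  classical
  have := C.finite_LL m
  let V : ℕ → Submodule 𝕜 M := fun k =>
    { carrier := {g | g ∈ C.LL m ∧ C.w (some x) g ≤ 2 ^ (-(k : ℤ))}
      add_mem' := fun hf hg => ⟨add_mem hf.1 hg.1, (C.na _ _ _).trans (max_le hf.2 hg.2)⟩
      zero_mem' := ⟨zero_mem _, by
        rw [map_zero]
        positivity⟩
      smul_mem' := fun c f hf => ⟨Submodule.smul_mem _ c hf.1, by
        rw [Algebra.smul_def, map_mul]
        exact (mul_le_of_le_one_left ((C.w _).nonneg _) (C.w_const _ c)).trans hf.2⟩ }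
  have hV : ∀ k, FiniteDimensional 𝕜 (V k) := fun k =>
    Submodule.finiteDimensional_of_le (S₂ := C.LL m) fun g hg => hg.1
  let A : ℕ → Finset ℕ := fun k => (Finset.range k).filter fun n =>
    ∃ r ∈ C.LL m, C.w (some x) r = 2 ^ (-(n : ℤ))
  have h1 : ∀ k, Module.finrank 𝕜 (C.LL m) ≤ Module.finrank 𝕜 (V k) + (A k).card := fun k => by
    induction k with
    | zero => exact Submodule.finrank_mono fun g hg => ⟨hg, by simpa using hg.1 x 1⟩
    | succ k ih =>
      refine ih.trans ?_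
      simp only [A, Finset.range_add_one, Finset.filter_insert]
      split_ifs with hk
      · obtain ⟨r, hr, e⟩ := hk
        have h2 : 0 < C.w (some x) r := by
          rw [e]
          positivity
        have h3 : r ≠ 0 := (C.w _).pos_iff.1 h2
        have h4 : V k ≤ V (k + 1) ⊔ 𝕜 ∙ r := fun g hg => by
          obtain ⟨c, hc⟩ := C.res (some x) (g / r) (by
            rw [map_div₀, div_le_one h2, e]
            exact hg.2)
          refine Submodule.mem_sup.2 ⟨g - c • r, ⟨sub_mem hg.1 (Submodule.smul_mem _ c hr), ?_⟩,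
            c • r, Submodule.smul_mem _ c (Submodule.mem_span_singleton_self r), sub_add_cancel _ _⟩
          refine C.crv_step hx ?_
          rw [← e, show g - c • r = (g / r - algebraMap 𝕜 M c) * r by
            rw [sub_mul, div_mul_cancel₀ _ h3, Algebra.smul_def], map_mul]
          exact mul_lt_of_lt_one_left h2 hc
        have h5 := Submodule.finrank_mono h4
        have h6 := Submodule.finrank_sup_add_finrank_inf_eq (V (k + 1)) (𝕜 ∙ r)
        rw [finrank_span_singleton h3] at h6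
        rw [Finset.card_insert_of_notMem (by simp)]
        omega
      · have h2 : V k ≤ V (k + 1) := fun g hg =>
          ⟨hg.1, C.crv_step hx (hg.2.lt_of_ne fun e => hk ⟨g, hg.1, e⟩)⟩
        exact Nat.add_le_add_right (Submodule.finrank_mono h2) _
  have h2 : V (Module.finrank (RatFunc 𝕜) M * m + 1) = ⊥ := by
    refine eq_bot_iff.2 fun g hg => ?_
    by_contra h0
    obtain ⟨n, h3, h4⟩ := C.exists_ord hg.1 h0 hx
    have h5 := hg.2
    rw [h4, zpow_le_zpow_iff_right₀ one_lt_two] at h5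
    omega
  have h3 := h1 (Module.finrank (RatFunc 𝕜) M * m + 1)
  rw [h2, finrank_bot, zero_add] at h3
  have h4 := fun i => Finset.mem_filter.1 (Finset.orderEmbOfCardLe_mem _ h3 i)
  choose r h5 h6 using fun i => (h4 i).2
  exact ⟨r, _, (Finset.orderEmbOfCardLe _ h3).injective, fun i =>
    ⟨h5 i, Nat.lt_succ_iff.1 (Finset.mem_range.1 (h4 i).1), h6 i⟩⟩

end Crv

end

end Pool.Agent.Quad
end

-- merged part: Pool.Agent.Work.MP_60d5ce_nt.Qt.RiemannA
section
/-!
# Tools for the different bound and Riemann's inequality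
-/

namespace Pool.Agent.Quad

open Polynomial

section Abs

variable {M : Type} [Field M]

theorem riemann_sum_le {w : AbsoluteValue M ℝ} (hw : IsNonarchimedean w) {ι : Type*}
    (s : Finset ι) (f : ι → M) {B : ℝ} (hB : 0 ≤ B) (h : ∀ i ∈ s, w (f i) ≤ B) :
    w (∑ i ∈ s, f i) ≤ B := by
  rcases s.eq_empty_or_nonempty with rfl | hs
  · simpa using hB
  · obtain ⟨i, hi, h'⟩ := hw.finset_image_add_of_nonempty f hs
    exact h'.trans (h i hi)

theorem riemann_sum_lt {w : AbsoluteValue M ℝ} (hw : IsNonarchimedean w) {ι : Type*}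
    (s : Finset ι) (f : ι → M) {B : ℝ} (hB : 0 < B) (h : ∀ i ∈ s, w (f i) < B) :
    w (∑ i ∈ s, f i) < B := by
  rcases s.eq_empty_or_nonempty with rfl | hs
  · simpa using hB
  · obtain ⟨i, hi, h'⟩ := hw.finset_image_add_of_nonempty f hs
    exact h'.trans_lt (h i hi)

theorem riemann_sub_le {w : AbsoluteValue M ℝ} (hw : IsNonarchimedean w) {a b : M} {B : ℝ}
    (ha : w a ≤ B) (hb : w b ≤ B) : w (a - b) ≤ B := by
  rw [sub_eq_add_neg]
  exact (hw _ _).trans (max_le ha (by rwa [w.map_neg]))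

theorem riemann_add_eq {w : AbsoluteValue M ℝ} (hw : IsNonarchimedean w) {a b : M}
    (h : w b < w a) : w (a + b) = w a := by
  refine le_antisymm ((hw _ _).trans (max_le le_rfl h.le)) ?_
  by_contra hc
  have h1 : w a ≤ max (w (a + b)) (w b) := by
    have := riemann_sub_le hw (le_max_left (w (a + b)) (w b)) (le_max_right (w (a + b)) (w b))
    rwa [add_sub_cancel_right] at this
  exact absurd h1 (not_le.mpr (max_lt (not_le.mp hc) h))

variable {K : Type} [Field K] [Algebra K M]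

/-- the conjugate of an absolute value -/
def riemannConj (w : AbsoluteValue M ℝ) (h : M ≃ₐ[K] M) : AbsoluteValue M ℝ where
  toFun a := w (h a)
  map_mul' a b := by rw [map_mul, map_mul]
  nonneg' a := w.nonneg _
  eq_zero' a := by rw [w.eq_zero, map_eq_zero_iff _ h.injective]
  add_le' a b := by
    rw [map_add]
    exact w.add_le _ _

theorem riemannConj_apply (w : AbsoluteValue M ℝ) (h : M ≃ₐ[K] M) (a : M) :
    riemannConj w h a = w (h a) := rfl

theorem riemann_sep [Finite (M ≃ₐ[K] M)] (w : AbsoluteValue M ℝ) {π : K}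
    (hπ : w (algebraMap K M π) = 2⁻¹) (h0 : M ≃ₐ[K] M) :
    ∃ e : M, 1 < w (h0 e) ∧ ∀ h : M ≃ₐ[K] M, riemannConj w h ≠ riemannConj w h0 → w (h e) < 1 := by
  let v : Set.range (riemannConj (K := K) w) → AbsoluteValue M ℝ := fun i => i.1
  have hv : ∀ i, v i (algebraMap K M π) = 2⁻¹ := by
    rintro ⟨_, h, rfl⟩
    change w (h (algebraMap K M π)) = _
    rw [h.commutes, hπ]
  have h1 : ∀ i, (v i).IsNontrivial := by
    intro i
    refine ⟨algebraMap K M π, fun h => ?_, by rw [hv]; norm_num⟩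
    have := hv i
    rw [h, map_zero] at this
    norm_num at this
  have h2 : Pairwise fun i j => ¬ (v i).IsEquiv (v j) := by
    intro i j hij he
    obtain ⟨c, -, hc⟩ := AbsoluteValue.isEquiv_iff_exists_rpow_eq.mp he
    have h3 : ((2 : ℝ)⁻¹) ^ c = ((2 : ℝ)⁻¹) ^ (1 : ℝ) := by
      have := congrFun hc (algebraMap K M π)
      simp only [hv] at this
      rw [this, Real.rpow_one]
    have h4 : c = 1 := (Real.rpow_right_inj (by norm_num) (by norm_num)).mp h3
    refine hij (Subtype.ext (AbsoluteValue.ext fun a => ?_))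
    have := congrFun hc a
    simp only [h4, Real.rpow_one] at this
    exact this
  obtain ⟨e, he, he'⟩ := AbsoluteValue.exists_one_lt_lt_one_pi_of_not_isEquiv h1 h2 ⟨_, h0, rfl⟩
  exact ⟨e, he, fun h hh => he' ⟨_, h, rfl⟩ fun hc => hh (congrArg Subtype.val hc)⟩

theorem riemann_approx [Finite (M ≃ₐ[K] M)] {w : AbsoluteValue M ℝ} (hw : IsNonarchimedean w)
    {π : K} (hπ : w (algebraMap K M π) = 2⁻¹) (h0 : M ≃ₐ[K] M) {u : M} (hu : u ≠ 0) :
    ∃ ε : M, ∀ h : M ≃ₐ[K] M, (riemannConj w h = riemannConj w h0 → w (h ε - 1) < 1) ∧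
      (riemannConj w h ≠ riemannConj w h0 → w (h ε) < 1 ∧ w (h ε) ≤ w (h u)) := by
  obtain ⟨e, he, he'⟩ := riemann_sep w hπ h0
  have h1 : ∀ h : M ≃ₐ[K] M, ∀ᶠ n : ℕ in Filter.atTop,
      riemannConj w h ≠ riemannConj w h0 → w (h e) ^ n ≤ w (h u) := by
    intro h
    by_cases hh : riemannConj w h = riemannConj w h0
    · exact Filter.Eventually.of_forall fun n hn => absurd hh hn
    · have hpos : 0 < w (h u) := w.pos ((map_ne_zero_iff _ h.injective).mpr hu)
      have := (tendsto_pow_atTop_nhds_zero_of_lt_one (w.nonneg (h e)) (he' h hh)).eventually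
        (ge_mem_nhds hpos)
      exact this.mono fun n hn _ => hn
  obtain ⟨n, hn, hn1⟩ := ((Filter.eventually_all.mpr h1).and (Filter.eventually_gt_atTop 0)).exists
  refine ⟨e ^ n / (1 + e ^ n), fun h => ⟨fun hh => ?_, fun hh => ?_⟩⟩
  · have h2 : w (h e) = w (h0 e) := by rw [← riemannConj_apply, hh, riemannConj_apply]
    have h3 : 1 < w (h e ^ n) := by
      rw [map_pow, h2]
      exact one_lt_pow₀ he hn1.ne'
    have h4 : w (1 + h e ^ n) = w (h e ^ n) := by
      rw [add_comm]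
      exact riemann_add_eq hw (by rwa [map_one])
    have h5 : 1 + h e ^ n ≠ 0 := by
      intro hc
      rw [hc, map_zero] at h4
      linarith only [h3, h4]
    have h6 : h (e ^ n / (1 + e ^ n)) - 1 = -(1 + h e ^ n)⁻¹ := by
      rw [map_div₀, map_add, map_one, map_pow]
      field_simp
      ring
    rw [h6, w.map_neg, map_inv₀, h4]
    exact inv_lt_one_of_one_lt₀ h3
  · have h3 : w (h e ^ n) < 1 := by
      rw [map_pow]
      exact pow_lt_one₀ (w.nonneg _) (he' h hh) hn1.ne'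
    have h4 : w (1 + h e ^ n) = 1 := by
      rw [riemann_add_eq hw (by rwa [map_one]), map_one]
    have h6 : w (h (e ^ n / (1 + e ^ n))) = w (h e ^ n) := by
      rw [map_div₀, map_add, map_one, map_pow, map_div₀, h4, div_one]
    rw [h6]
    refine ⟨h3, ?_⟩
    rw [map_pow]
    exact hn h hh

open Classical in
theorem riemann_card [Fintype (M ≃ₐ[K] M)] (w : AbsoluteValue M ℝ)
    (h0 : M ≃ₐ[K] M) :
    (Finset.univ.filter fun h : M ≃ₐ[K] M => riemannConj w h = riemannConj w h0).card ∣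
      Nat.card (M ≃ₐ[K] M) := by
  let S : Subgroup (M ≃ₐ[K] M) :=
    { carrier := {g | ∀ a, w (g a) = w a}
      one_mem' := fun _ => rfl
      mul_mem' := fun {g g'} hg hg' a => by rw [AlgEquiv.mul_apply, hg, hg']
      inv_mem' := fun {g} hg a => by
        rw [← hg (g⁻¹ a), ← AlgEquiv.mul_apply, mul_inv_cancel, AlgEquiv.one_apply] }
  refine dvd_of_eq ?_ |>.trans S.card_subgroup_dvd_card
  rw [← Fintype.card_subtype, ← Nat.card_eq_fintype_card]
  refine Nat.card_congr ((Equiv.mulRight h0⁻¹).subtypeEquiv fun h => ?_)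
  change _ ↔ ∀ a, w ((h * h0⁻¹) a) = w a
  constructor
  · intro hh a
    rw [AlgEquiv.mul_apply, ← riemannConj_apply, hh, riemannConj_apply, ← AlgEquiv.mul_apply,
      mul_inv_cancel, AlgEquiv.one_apply]
  · intro hh
    refine AbsoluteValue.ext fun a => ?_
    rw [riemannConj_apply, riemannConj_apply, ← hh (h0 a), ← AlgEquiv.mul_apply,
      inv_mul_cancel_right]

theorem riemann_dual [FiniteDimensional K M] [IsGalois K M] {w : AbsoluteValue M ℝ}
    (hw : IsNonarchimedean w) {π : K} (hπ : w (algebraMap K M π) = 2⁻¹)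
    (h3 : ∀ n : ℕ, n ∣ Nat.card (M ≃ₐ[K] M) → w n = 1) (a : M)
    (ha : ∀ b : M, (∀ h : M ≃ₐ[K] M, w (h b) ≤ 1) →
      w (algebraMap K M (Algebra.trace K M (a * b))) ≤ 1) (h0 : M ≃ₐ[K] M) : w (h0 a) < 2 := by
  classical
  by_contra hc
  rw [not_lt] at hc
  have ha0 : a ≠ 0 := by
    rintro rfl
    rw [map_zero, map_zero] at hc
    linarith only [hc]
  have hπ0 : algebraMap K M π ≠ 0 := by
    intro h
    rw [h, map_zero] at hπ
    norm_num at hπ
  have hu : algebraMap K M π * a ≠ 0 := mul_ne_zero hπ0 ha0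
  obtain ⟨ε, hε⟩ := riemann_approx hw hπ h0 hu
  have h1 := ha (ε / (algebraMap K M π * a)) fun h => by
    have hpos : 0 < w (h (algebraMap K M π * a)) :=
      w.pos ((map_ne_zero_iff _ h.injective).mpr hu)
    rw [map_div₀, map_div₀, div_le_one hpos]
    by_cases hh : riemannConj w h = riemannConj w h0
    · have h2 : w (h ε) ≤ 1 := by
        have := hw (h ε - 1) 1
        rw [sub_add_cancel, map_one] at this
        exact this.trans (max_le ((hε h).1 hh).le le_rfl)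
      have h4 : w (h a) = w (h0 a) := by rw [← riemannConj_apply, hh, riemannConj_apply]
      rw [map_mul, map_mul, h.commutes, hπ, h4]
      linarith only [hc, h2]
    · exact ((hε h).2 hh).2
  have h2 : algebraMap K M (Algebra.trace K M (a * (ε / (algebraMap K M π * a)))) =
      (algebraMap K M π)⁻¹ * ∑ h : M ≃ₐ[K] M, h ε := by
    rw [trace_eq_sum_automorphisms, Finset.mul_sum]
    refine Finset.sum_congr rfl fun h _ => ?_
    have : a * (ε / (algebraMap K M π * a)) = (algebraMap K M π)⁻¹ * ε := by field_simp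
    rw [this, map_mul, map_inv₀, h.commutes]
  have h5 := h3 _ (riemann_card w h0)
  obtain ⟨k, hk⟩ : ∃ k : ℕ, (Finset.univ.filter fun h : M ≃ₐ[K] M =>
    riemannConj w h = riemannConj w h0).card = k := ⟨_, rfl⟩
  rw [hk] at h5
  have h4 : ∑ h : M ≃ₐ[K] M, h ε = (k : M) + ∑ h : M ≃ₐ[K] M,
      (h ε - if riemannConj w h = riemannConj w h0 then 1 else 0) := by
    rw [Finset.sum_sub_distrib, Finset.sum_boole, hk]
    ring
  have h6 : w (∑ h : M ≃ₐ[K] M, h ε) = 1 := by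
    rw [h4, riemann_add_eq hw, h5]
    rw [h5]
    refine riemann_sum_lt hw _ _ one_pos fun h _ => ?_
    split_ifs with hh
    · exact (hε h).1 hh
    · rw [sub_zero]
      exact ((hε h).2 hh).1
  rw [h2, map_mul, map_inv₀, hπ, h6] at h1
  norm_num at h1

end Abs

end Pool.Agent.Quad
end

-- merged part: Pool.Agent.Work.MP_60d5ce_nt.Qt.Riemann
section
/-!
# The tame different bound and Riemann's inequality

Hints.
* `dual_bound`: suppose `w (h0 a) ≥ 2`.  Two absolute values `w ∘ h` are equal or inequivalent (they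
  agree on `RatFunc 𝕜`; `AbsoluteValue.isEquiv_iff_exists_rpow_eq`).  Weak approximation
  (`AbsoluteValue.exists_one_lt_lt_one_pi_of_not_isEquiv`, then `e ^ n / (1 + e ^ n)`) gives `ε` close
  to one for `w ∘ h0` and as small as we like for the others.  With `π` of size `1/2` in the base,
  `b = ε / (π a)` is integral and `trace (a b) = π⁻¹ ∑ h ε`, where `∑ h ε` is congruent to the order of
  the stabiliser of `w`, of order prime to the characteristic.  So the trace has size two.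
* `riemann`: take a basis `b i ∈ LL (d i)` of `M` with `∑ d i` minimal.  By minimality it is a local
  integral basis at every point (on `b i / t ^ d i` at infinity), so `dual_bound` applies to the dual
  basis; `R * b* i`, `R = ∏ (X - x)` over `x ∈ Ram`, is nonzero and integral at finite distance, so it
  is not small at infinity, and `d i ≤ card Ram`.  The `t ^ j * b i` are independent in `LL m`.
-/

namespace Pool.Agent.Quad

open Polynomial

variable {𝕜 M : Type} [Field 𝕜] [Field M] [Algebra 𝕜 M] [Algebra (RatFunc 𝕜) M]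
  [IsScalarTower 𝕜 (RatFunc 𝕜) M] [IsAlgClosed 𝕜] [FiniteDimensional (RatFunc 𝕜) M]
  [IsGalois (RatFunc 𝕜) M]

omit [IsAlgClosed 𝕜] [FiniteDimensional (RatFunc 𝕜) M] [IsGalois (RatFunc 𝕜) M] in
theorem riemann_alg (p : 𝕜[X]) :
    algebraMap (RatFunc 𝕜) M (algebraMap 𝕜[X] (RatFunc 𝕜) p) = aeval (tM 𝕜 M) p := by
  rw [← RatFunc.aeval_X_left_eq_algebraMap, tM, aeval_algebraMap_apply]

theorem riemann_zpow_le {n : ℤ} {k : ℤ} (h : (2 : ℝ) ^ n < 2 ^ (k + 1)) : (2 : ℝ) ^ n ≤ 2 ^ k := by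
  rw [zpow_lt_zpow_iff_right₀ one_lt_two] at h
  exact zpow_le_zpow_right₀ one_le_two (by omega)

namespace Crv

variable (C : Crv 𝕜 M)

section Base

omit [IsAlgClosed 𝕜] [FiniteDimensional (RatFunc 𝕜) M] [IsGalois (RatFunc 𝕜) M]

theorem riemann_int (y : Option 𝕜) {g : RatFunc 𝕜} (hg : g ≠ 0) :
    ∃ n : ℤ, C.w y (algebraMap (RatFunc 𝕜) M g) = 2 ^ n := by
  have h : ∀ p : 𝕜[X], p ≠ 0 → ∃ n : ℤ, C.w y (aeval (tM 𝕜 M) p) = 2 ^ n := by
    intro p hp
    cases y with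
    | none => exact ⟨_, C.w_inf p hp⟩
    | some x => exact ⟨_, C.w_fin x p hp⟩
  obtain ⟨n, hn⟩ := h _ (RatFunc.num_ne_zero hg)
  obtain ⟨m, hm⟩ := h _ (RatFunc.denom_ne_zero g)
  refine ⟨n - m, ?_⟩
  rw [← RatFunc.num_div_denom g, map_div₀, map_div₀, riemann_alg, riemann_alg, hn, hm,
    zpow_sub₀ two_ne_zero]

theorem riemann_lin_self (x : 𝕜) : C.w (some x) (algebraMap (RatFunc 𝕜) M
    (algebraMap 𝕜[X] (RatFunc 𝕜) (X - Polynomial.C x))) = 2⁻¹ := by
  rw [riemann_alg, C.w_fin x _ (X_sub_C_ne_zero x), rootMultiplicity_X_sub_C_self]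
  norm_num

theorem riemann_lin_ne {x x' : 𝕜} (h : x' ≠ x) : C.w (some x') (algebraMap (RatFunc 𝕜) M
    (algebraMap 𝕜[X] (RatFunc 𝕜) (X - Polynomial.C x))) = 1 := by
  classical
  rw [riemann_alg, C.w_fin x' _ (X_sub_C_ne_zero x), rootMultiplicity_X_sub_C, if_neg h]
  norm_num

theorem riemann_lin_inf (x : 𝕜) : C.w none (algebraMap (RatFunc 𝕜) M
    (algebraMap 𝕜[X] (RatFunc 𝕜) (X - Polynomial.C x))) = 2 := by
  rw [riemann_alg, C.w_inf _ (X_sub_C_ne_zero x), natDegree_X_sub_C]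
  norm_num

theorem riemann_X_inf : C.w none (algebraMap (RatFunc 𝕜) M RatFunc.X) = 2 := by
  have := C.riemann_lin_inf 0
  rwa [map_zero, sub_zero, RatFunc.algebraMap_X] at this

theorem riemann_poly_fin (x : 𝕜) (p : 𝕜[X]) :
    C.w (some x) (algebraMap (RatFunc 𝕜) M (algebraMap 𝕜[X] (RatFunc 𝕜) p)) ≤ 1 := by
  by_cases hp : p = 0
  · simp [hp]
  · rw [riemann_alg, C.w_fin x p hp]
    exact zpow_le_one_of_nonpos₀ one_le_two (by omega)

theorem riemann_X_fin (x : 𝕜) : C.w (some x) (algebraMap (RatFunc 𝕜) M RatFunc.X) ≤ 1 := by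
  have := C.riemann_poly_fin x X
  rwa [RatFunc.algebraMap_X] at this

theorem riemann_unif (y : Option 𝕜) :
    ∃ π : RatFunc 𝕜, C.w y (algebraMap (RatFunc 𝕜) M π) = 2⁻¹ := by
  cases y with
  | none => exact ⟨RatFunc.X⁻¹, by rw [map_inv₀, map_inv₀, C.riemann_X_inf]⟩
  | some x => exact ⟨_, C.riemann_lin_self x⟩

theorem riemann_const (y : Option 𝕜) (c : 𝕜) :
    C.w y (algebraMap (RatFunc 𝕜) M (algebraMap 𝕜 (RatFunc 𝕜) c)) ≤ 1 := by
  rw [← IsScalarTower.algebraMap_apply]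
  exact C.w_const y c

omit [IsScalarTower 𝕜 (RatFunc 𝕜) M] in
theorem riemann_tame (y : Option 𝕜) (n : ℕ) (hn : n ∣ Nat.card (M ≃ₐ[RatFunc 𝕜] M)) :
    C.w y n = 1 := by
  rw [← map_natCast (algebraMap 𝕜 M) n]
  refine C.crv_const y fun h => C.tame ?_
  obtain ⟨c, hc⟩ := hn
  rw [hc, Nat.cast_mul, h, zero_mul]

theorem riemann_half (y : Option 𝕜) {g : RatFunc 𝕜}
    (hg : C.w y (algebraMap (RatFunc 𝕜) M g) < 1) : C.w y (algebraMap (RatFunc 𝕜) M g) ≤ 2⁻¹ := by
  by_cases h0 : g = 0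
  · simp [h0]
  · obtain ⟨n, hn⟩ := C.riemann_int y h0
    rw [hn] at hg ⊢
    have := riemann_zpow_le (n := n) (k := -1) (by simpa using hg)
    simpa using this

theorem riemann_res (y : Option 𝕜) {g : RatFunc 𝕜}
    (hg : C.w y (algebraMap (RatFunc 𝕜) M g) ≤ 1) : ∃ c : 𝕜,
    C.w y (algebraMap (RatFunc 𝕜) M (g - algebraMap 𝕜 (RatFunc 𝕜) c)) ≤ 2⁻¹ := by
  obtain ⟨c, hc⟩ := C.res y _ hg
  refine ⟨c, C.riemann_half y ?_⟩
  rwa [map_sub, ← IsScalarTower.algebraMap_apply]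

omit [IsScalarTower 𝕜 (RatFunc 𝕜) M] in
theorem riemann_smul (y : Option 𝕜) (h : M ≃ₐ[RatFunc 𝕜] M) (g : RatFunc 𝕜) (a : M) :
    C.w y (h (g • a)) = C.w y (algebraMap (RatFunc 𝕜) M g) * C.w y (h a) := by
  rw [map_smul, Algebra.smul_def, map_mul]

end Base

theorem dual_bound (y : Option 𝕜) (a : M)
    (ha : ∀ b : M, (∀ h : M ≃ₐ[RatFunc 𝕜] M, C.w y (h b) ≤ 1) →
      C.w y (algebraMap (RatFunc 𝕜) M (Algebra.trace (RatFunc 𝕜) M (a * b))) ≤ 1)
    (h : M ≃ₐ[RatFunc 𝕜] M) : C.w y (h a) < 2 := by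
  obtain ⟨π, hπ⟩ := C.riemann_unif y
  exact riemann_dual (C.na y) hπ (C.riemann_tame y) a ha h

theorem riemann_nonzero {f : M}
    (h1 : ∀ (x : 𝕜) (h : M ≃ₐ[RatFunc 𝕜] M), C.w (some x) (h f) ≤ 1)
    (h2 : ∀ h : M ≃ₐ[RatFunc 𝕜] M, C.w none (h f) < 1) : f = 0 := by
  by_contra h0
  have hn := Algebra.norm_eq_prod_automorphisms (K := RatFunc 𝕜) f
  obtain ⟨p, hp⟩ := C.exists_poly (a := Algebra.norm (RatFunc 𝕜) f) fun x => by
    rw [hn, map_prod]
    exact Finset.prod_le_one (fun _ _ => (C.w _).nonneg _) fun h _ => h1 x h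
  have hp0 : p ≠ 0 := by
    rintro rfl
    rw [map_zero] at hp
    exact h0 (Algebra.norm_eq_zero_iff.mp hp.symm)
  have h3 : 1 ≤ C.w none (algebraMap (RatFunc 𝕜) M (Algebra.norm (RatFunc 𝕜) f)) := by
    rw [← hp, riemann_alg, C.w_inf p hp0]
    exact one_le_zpow₀ one_le_two (by omega)
  classical
  rw [hn, map_prod, ← Finset.mul_prod_erase _ _ (Finset.mem_univ 1)] at h3
  have h4 : ∏ h ∈ Finset.univ.erase (1 : M ≃ₐ[RatFunc 𝕜] M), C.w none (h f) ≤ 1 :=
    Finset.prod_le_one (fun _ _ => (C.w _).nonneg _) fun h _ => (h2 h).le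
  have h5 := mul_le_of_le_one_right ((C.w none).nonneg ((1 : M ≃ₐ[RatFunc 𝕜] M) f)) h4
  linarith [h2 1]

theorem riemann_local {ι : Type} [Fintype ι] [DecidableEq ι] (y : Option 𝕜)
    (b : Module.Basis ι (RatFunc 𝕜) M) (s : ι → RatFunc 𝕜) (hs : ∀ i, s i ≠ 0)
    (hb : ∀ (i : ι) (h : M ≃ₐ[RatFunc 𝕜] M),
      C.w y (h (b i)) ≤ C.w y (algebraMap (RatFunc 𝕜) M (s i))) :
    (∀ (i : ι) (h : M ≃ₐ[RatFunc 𝕜] M),
      C.w y (algebraMap (RatFunc 𝕜) M (s i)) * C.w y (h (b.traceDual i)) < 2) ∨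
    ∃ c : ι → 𝕜, (∃ i, c i ≠ 0) ∧ ∀ h : M ≃ₐ[RatFunc 𝕜] M,
      C.w y (h (∑ i, (algebraMap 𝕜 (RatFunc 𝕜) (c i) / s i) • b i)) ≤ 2⁻¹ := by
  by_cases hA : ∀ x : M, (∀ h : M ≃ₐ[RatFunc 𝕜] M, C.w y (h x) ≤ 1) →
      ∀ i, C.w y (algebraMap (RatFunc 𝕜) M (s i * b.repr x i)) ≤ 1
  · refine Or.inl fun i h => ?_
    rw [← C.riemann_smul]
    refine C.dual_bound y _ (fun x hx => ?_) h
    have h1 : Algebra.trace (RatFunc 𝕜) M (s i • b.traceDual i * x) = s i * b.repr x i := by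
      have h2 := b.traceDual.traceDual_repr_apply x i
      rw [Module.Basis.traceDual_traceDual, Algebra.traceForm_apply] at h2
      rw [smul_mul_assoc, map_smul, h2, mul_comm x, smul_eq_mul]
    rw [h1]
    exact hA x hx i
  · right
    push Not at hA
    obtain ⟨x, hx, i1, hi1⟩ := hA
    obtain ⟨i0, -, hi0⟩ := Finset.exists_max_image Finset.univ
      (fun i => C.w y (algebraMap (RatFunc 𝕜) M (s i * b.repr x i))) ⟨i1, Finset.mem_univ _⟩
    set u := s i0 * b.repr x i0 with hu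
    have hu1 : 1 < C.w y (algebraMap (RatFunc 𝕜) M u) := hi1.trans_le (hi0 i1 (Finset.mem_univ _))
    have hu0 : u ≠ 0 := by
      intro h
      rw [h, map_zero, map_zero] at hu1
      linarith
    have hu2 : C.w y (algebraMap (RatFunc 𝕜) M u⁻¹) ≤ 2⁻¹ := by
      refine C.riemann_half y ?_
      rw [map_inv₀, map_inv₀]
      exact inv_lt_one_of_one_lt₀ hu1
    have hc : ∀ i, ∃ c : 𝕜, C.w y (algebraMap (RatFunc 𝕜) M
        (s i * b.repr x i / u - algebraMap 𝕜 (RatFunc 𝕜) c)) ≤ 2⁻¹ := fun i =>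
      C.riemann_res y (by
        rw [map_div₀, map_div₀, div_le_one (by linarith only [hu1])]
        exact hi0 i (Finset.mem_univ _))
    choose c hc using hc
    refine ⟨c, ⟨i0, fun h => ?_⟩, fun h => ?_⟩
    · have := hc i0
      rw [h, map_zero, sub_zero, ← hu, div_self hu0, map_one, map_one] at this
      norm_num at this
    · have h1 : ∑ i, (algebraMap 𝕜 (RatFunc 𝕜) (c i) / s i) • b i = u⁻¹ • x -
          ∑ i, ((s i * b.repr x i / u - algebraMap 𝕜 (RatFunc 𝕜) (c i)) / s i) • b i := by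
        conv_rhs => rw [← b.sum_repr x]
        rw [Finset.smul_sum, ← Finset.sum_sub_distrib]
        refine Finset.sum_congr rfl fun i _ => ?_
        rw [b.sum_repr x, smul_smul, ← sub_smul]
        congr 1
        have := hs i
        field_simp
        ring
      rw [h1, map_sub]
      refine riemann_sub_le (C.na y) ?_ ?_
      · rw [C.riemann_smul]
        exact (mul_le_of_le_one_right ((C.w y).nonneg _) (hx h)).trans hu2
      · rw [map_sum]
        refine riemann_sum_le (C.na y) _ _ (by norm_num) fun i _ => ?_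
        have hpos : 0 < C.w y (algebraMap (RatFunc 𝕜) M (s i)) :=
          (C.w y).pos ((_root_.map_ne_zero _).mpr (hs i))
        rw [C.riemann_smul, map_div₀, map_div₀, div_mul_eq_mul_div, mul_div_assoc]
        exact (mul_le_of_le_one_right ((C.w y).nonneg _)
          ((div_le_one hpos).mpr (hb i h))).trans (hc i)

theorem riemann_mult (a : M) : ∃ g : RatFunc 𝕜, g ≠ 0 ∧ ∃ d : ℕ, g • a ∈ C.LL d := by
  let : Algebra 𝕜[X] M :=
    ((algebraMap (RatFunc 𝕜) M).comp (algebraMap 𝕜[X] (RatFunc 𝕜))).toAlgebra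
  have : IsScalarTower 𝕜[X] (RatFunc 𝕜) M := IsScalarTower.of_algebraMap_eq fun _ => rfl
  have h1 : IsAlgebraic 𝕜[X] a := (IsFractionRing.isAlgebraic_iff 𝕜[X] (RatFunc 𝕜) M).mpr
    (Algebra.IsAlgebraic.isAlgebraic a)
  obtain ⟨p, hp0, P, hP, hPa⟩ := h1.exists_integral_multiple
  refine ⟨algebraMap 𝕜[X] (RatFunc 𝕜) p, RatFunc.algebraMap_ne_zero hp0,
    ∑ i ∈ Finset.range P.natDegree, (P.coeff i).natDegree, ?_⟩
  rw [algebraMap_smul]
  have hn : 0 < P.natDegree := by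
    rw [Nat.pos_iff_ne_zero]
    intro h
    rw [hP.natDegree_eq_zero.mp h, eval₂_one] at hPa
    exact one_ne_zero hPa
  refine C.mem_LL_iff.mpr ⟨P.natDegree, P.coeff, hn, fun i hi => ?_, ?_⟩
  · refine (Finset.single_le_sum (f := fun i => (P.coeff i).natDegree) (fun _ _ => Nat.zero_le _)
      (Finset.mem_range.mpr hi)).trans ?_
    exact Nat.le_mul_of_pos_left _ (by omega)
  · rw [hP.as_sum, eval₂_add, eval₂_pow, eval₂_X, eval₂_finsetSum] at hPa
    rw [← hPa]
    congr 1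
    refine Finset.sum_congr rfl fun i _ => ?_
    rw [eval₂_mul, eval₂_C, eval₂_pow, eval₂_X, ← riemann_alg]
    rfl

theorem riemann_exch {ι : Type} [Fintype ι] [DecidableEq ι] {b : ι → M}
    (hb : LinearIndependent (RatFunc 𝕜) b) {d : ι → ℕ} (hd : ∀ i, b i ∈ C.LL (d i)) (i0 : ι)
    (g : ι → RatFunc 𝕜) (hg : g i0 ≠ 0)
    (h1 : ∀ (x : 𝕜) (h : M ≃ₐ[RatFunc 𝕜] M), C.w (some x) (h (∑ i, g i • b i)) ≤ 1)
    (h2 : ∀ h : M ≃ₐ[RatFunc 𝕜] M, C.w none (h (∑ i, g i • b i)) ≤ 2 ^ d i0 * 2⁻¹) :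
    ∃ (b' : ι → M) (d' : ι → ℕ), LinearIndependent (RatFunc 𝕜) b' ∧ (∀ i, b' i ∈ C.LL (d' i)) ∧
      ∑ i, d' i < ∑ i, d i := by
  have h0 : ∑ i, g i • b i ≠ 0 := fun h => hg (Fintype.linearIndependent_iff.mp hb g h i0)
  obtain ⟨k, hk⟩ : ∃ k, d i0 = k + 1 := by
    refine Nat.exists_eq_succ_of_ne_zero fun h => h0 (C.riemann_nonzero h1 fun σ => ?_)
    have := h2 σ
    rw [h] at this
    exact this.trans_lt (by norm_num)
  refine ⟨Function.update b i0 (∑ i, g i • b i), Function.update d i0 k, ?_, fun i => ?_, ?_⟩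
  · refine hb.update i0 _ ⟨1, one_mem _,
      (Finsupp.linearEquivFunOnFinite (RatFunc 𝕜) (RatFunc 𝕜) ι).symm g,
      mem_nonZeroDivisors_of_ne_zero hg, ?_⟩
    rw [one_smul, Finsupp.linearCombination_eq_fintype_linearCombination_apply,
      Fintype.linearCombination_apply]
  · by_cases hi : i = i0
    · subst hi
      rw [Function.update_self, Function.update_self]
      refine C.mem_LL.mpr ⟨h1, fun σ => ?_⟩
      have := h2 σ
      rwa [hk, pow_succ, mul_inv_cancel_right₀ two_ne_zero] at this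
    · rw [Function.update_of_ne hi, Function.update_of_ne hi]
      exact hd i
  · refine Finset.sum_lt_sum (fun i _ => ?_) ⟨i0, Finset.mem_univ _, ?_⟩
    · by_cases hi : i = i0
      · subst hi
        rw [Function.update_self]
        omega
      · rw [Function.update_of_ne hi]
    · rw [Function.update_self]
      omega

theorem riemann_fin {ι : Type} [Fintype ι] [DecidableEq ι] (b : Module.Basis ι (RatFunc 𝕜) M)
    {d : ι → ℕ} (hd : ∀ i, b i ∈ C.LL (d i))
    (hmin : ∀ (b' : ι → M) (d' : ι → ℕ), LinearIndependent (RatFunc 𝕜) b' →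
      (∀ i, b' i ∈ C.LL (d' i)) → ∑ i, d i ≤ ∑ i, d' i) (x : 𝕜) (i : ι)
    (h : M ≃ₐ[RatFunc 𝕜] M) : C.w (some x) (h (b.traceDual i)) < 2 := by
  rcases C.riemann_local (some x) b (fun _ => 1) (fun _ => one_ne_zero)
    (fun i h => by simpa using (C.mem_LL.mp (hd i)).1 x h) with hA | ⟨c, ⟨i1, hi1⟩, hc⟩
  · simpa using hA i h
  exfalso
  classical
  obtain ⟨i0, hi0, hmax⟩ := Finset.exists_max_image (Finset.univ.filter fun i => c i ≠ 0) d
    ⟨i1, by simpa using hi1⟩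
  have hc0 : c i0 ≠ 0 := by simpa using hi0
  set π := algebraMap 𝕜[X] (RatFunc 𝕜) (X - Polynomial.C x) with hπ
  have hπ0 : π ≠ 0 := RatFunc.algebraMap_ne_zero (X_sub_C_ne_zero x)
  have he : ∑ i, (π⁻¹ * (algebraMap 𝕜 (RatFunc 𝕜) (c i) / 1)) • b i =
      π⁻¹ • ∑ i, (algebraMap 𝕜 (RatFunc 𝕜) (c i) / 1) • b i := by
    rw [Finset.smul_sum]
    exact Finset.sum_congr rfl fun i _ => mul_smul _ _ _
  obtain ⟨b', d', h1, h2, h3⟩ := C.riemann_exch b.linearIndependent hd i0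
    (fun i => π⁻¹ * (algebraMap 𝕜 (RatFunc 𝕜) (c i) / 1))
    (mul_ne_zero (inv_ne_zero hπ0) (div_ne_zero ((_root_.map_ne_zero _).mpr hc0) one_ne_zero))
    (fun x' σ => by
      rw [he, C.riemann_smul, map_inv₀, map_inv₀]
      by_cases hx : x' = x
      · subst hx
        rw [C.riemann_lin_self]
        have := hc σ
        linarith only [this]
      · rw [C.riemann_lin_ne hx, inv_one, one_mul, map_sum]
        refine riemann_sum_le (C.na _) _ _ zero_le_one fun i _ => ?_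
        rw [C.riemann_smul, div_one]
        exact mul_le_one₀ (C.riemann_const _ _) ((C.w _).nonneg _) ((C.mem_LL.mp (hd i)).1 x' σ))
    (fun σ => by
      rw [he, C.riemann_smul, map_inv₀, map_inv₀, C.riemann_lin_inf, mul_comm, map_sum]
      refine mul_le_mul_of_nonneg_right ?_ (by norm_num)
      refine riemann_sum_le (C.na _) _ _ (by positivity) fun i _ => ?_
      rw [C.riemann_smul, div_one]
      by_cases hi : c i = 0
      · rw [hi, map_zero, map_zero, map_zero, zero_mul]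
        positivity
      · refine (mul_le_of_le_one_left ((C.w _).nonneg _) (C.riemann_const _ _)).trans ?_
        exact ((C.mem_LL.mp (hd i)).2 σ).trans
          (pow_le_pow_right₀ one_le_two (hmax i (by simpa using hi))))
  exact absurd (hmin b' d' h1 h2) (not_le.mpr h3)

theorem riemann_inf {ι : Type} [Fintype ι] [DecidableEq ι] (b : Module.Basis ι (RatFunc 𝕜) M)
    {d : ι → ℕ} (hd : ∀ i, b i ∈ C.LL (d i))
    (hmin : ∀ (b' : ι → M) (d' : ι → ℕ), LinearIndependent (RatFunc 𝕜) b' →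
      (∀ i, b' i ∈ C.LL (d' i)) → ∑ i, d i ≤ ∑ i, d' i) (i : ι)
    (h : M ≃ₐ[RatFunc 𝕜] M) : 2 ^ d i * C.w none (h (b.traceDual i)) < 2 := by
  have hX : ∀ k : ℕ, C.w none (algebraMap (RatFunc 𝕜) M (RatFunc.X ^ k)) = 2 ^ k := fun k => by
    rw [map_pow, map_pow, C.riemann_X_inf]
  rcases C.riemann_local none b (fun i => RatFunc.X ^ d i)
    (fun _ => pow_ne_zero _ RatFunc.X_ne_zero)
    (fun i h => by rw [hX]; exact (C.mem_LL.mp (hd i)).2 h) with hA | ⟨c, ⟨i1, hi1⟩, hc⟩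
  · have := hA i h
    rwa [hX] at this
  exfalso
  classical
  obtain ⟨i0, hi0, hmax⟩ := Finset.exists_max_image (Finset.univ.filter fun i => c i ≠ 0) d
    ⟨i1, by simpa using hi1⟩
  have hc0 : c i0 ≠ 0 := by simpa using hi0
  have he : ∑ i, (RatFunc.X ^ d i0 * (algebraMap 𝕜 (RatFunc 𝕜) (c i) / RatFunc.X ^ d i)) • b i =
      (RatFunc.X ^ d i0 : RatFunc 𝕜) •
        ∑ i, (algebraMap 𝕜 (RatFunc 𝕜) (c i) / RatFunc.X ^ d i) • b i := by
    rw [Finset.smul_sum]
    exact Finset.sum_congr rfl fun i _ => mul_smul _ _ _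
  obtain ⟨b', d', h1, h2, h3⟩ := C.riemann_exch b.linearIndependent hd i0
    (fun i => RatFunc.X ^ d i0 * (algebraMap 𝕜 (RatFunc 𝕜) (c i) / RatFunc.X ^ d i))
    (mul_ne_zero (pow_ne_zero _ RatFunc.X_ne_zero)
      (div_ne_zero ((_root_.map_ne_zero _).mpr hc0) (pow_ne_zero _ RatFunc.X_ne_zero)))
    (fun x σ => by
      rw [map_sum]
      refine riemann_sum_le (C.na _) _ _ zero_le_one fun i _ => ?_
      rw [C.riemann_smul]
      refine mul_le_one₀ ?_ ((C.w _).nonneg _) ((C.mem_LL.mp (hd i)).1 x σ)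
      by_cases hi : c i = 0
      · simp [hi]
      · obtain ⟨k, hk⟩ := Nat.exists_eq_add_of_le (hmax i (by simpa using hi))
        have h4 : RatFunc.X ^ d i0 * (algebraMap 𝕜 (RatFunc 𝕜) (c i) / RatFunc.X ^ d i) =
            RatFunc.X ^ k * algebraMap 𝕜 (RatFunc 𝕜) (c i) := by
          have : (RatFunc.X : RatFunc 𝕜) ≠ 0 := RatFunc.X_ne_zero
          rw [hk, pow_add]
          field_simp
        rw [h4, map_mul, map_mul, map_pow, map_pow]
        exact mul_le_one₀ (pow_le_one₀ ((C.w _).nonneg _) (C.riemann_X_fin x)) ((C.w _).nonneg _)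
          (C.riemann_const _ _))
    (fun σ => by
      rw [he, C.riemann_smul, hX]
      exact mul_le_mul_of_nonneg_left (hc σ) (by positivity))
  exact absurd (hmin b' d' h1 h2) (not_le.mpr h3)

theorem riemann_deg {ι : Type} [Fintype ι] [DecidableEq ι] (b : Module.Basis ι (RatFunc 𝕜) M)
    {d : ι → ℕ} (hd : ∀ i, b i ∈ C.LL (d i))
    (hmin : ∀ (b' : ι → M) (d' : ι → ℕ), LinearIndependent (RatFunc 𝕜) b' →
      (∀ i, b' i ∈ C.LL (d' i)) → ∑ i, d i ≤ ∑ i, d' i) (i : ι) : d i ≤ C.Ram.card := by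
  by_contra hlt
  rw [not_le] at hlt
  set R : 𝕜[X] := ∏ x ∈ C.Ram, (X - Polynomial.C x) with hR
  have hR0 : R ≠ 0 := Finset.prod_ne_zero_iff.mpr fun x _ => X_sub_C_ne_zero x
  refine smul_ne_zero (RatFunc.algebraMap_ne_zero hR0) (b.traceDual.ne_zero i)
    (C.riemann_nonzero (fun x σ => ?_) fun σ => ?_)
  · rw [C.riemann_smul]
    have h1 := C.riemann_fin b hd hmin x i σ
    by_cases hx : x ∈ C.Ram
    · have h2 : C.w (some x) (algebraMap (RatFunc 𝕜) M (algebraMap 𝕜[X] (RatFunc 𝕜) R)) ≤ 2⁻¹ := by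
        classical
        rw [hR, ← Finset.mul_prod_erase _ _ hx, map_mul, map_mul, map_mul, C.riemann_lin_self]
        exact mul_le_of_le_one_right (by norm_num) (C.riemann_poly_fin x _)
      refine (mul_le_mul h2 h1.le ((C.w _).nonneg _) (by norm_num)).trans (by norm_num)
    · obtain ⟨n, hn⟩ := C.disc x hx (σ (b.traceDual i))
        ((map_ne_zero_iff _ σ.injective).mpr (b.traceDual.ne_zero i))
      refine mul_le_one₀ (C.riemann_poly_fin x _) ((C.w _).nonneg _) ?_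
      rw [hn] at h1 ⊢
      have := riemann_zpow_le (n := n) (k := 0) (by simpa using h1)
      simpa using this
  · rw [C.riemann_smul, riemann_alg, C.w_inf R hR0, hR, natDegree_finsetProd_X_sub_C_eq_card,
      zpow_natCast]
    have h1 := C.riemann_inf b hd hmin i σ
    have h2 : (2 : ℝ) ^ (C.Ram.card + 1) ≤ 2 ^ d i := pow_le_pow_right₀ one_le_two hlt
    have h3 := mul_le_mul_of_nonneg_right h2 ((C.w none).nonneg (σ (b.traceDual i)))
    rw [pow_succ] at h3
    linarith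

theorem riemann_basis : ∃ b : Fin (Module.finrank (RatFunc 𝕜) M) → M,
    LinearIndependent (RatFunc 𝕜) b ∧ ∀ i, b i ∈ C.LL C.Ram.card := by
  classical
  have hex : ∃ D : ℕ, ∃ (b : Fin (Module.finrank (RatFunc 𝕜) M) → M)
      (d : Fin (Module.finrank (RatFunc 𝕜) M) → ℕ), LinearIndependent (RatFunc 𝕜) b ∧
      (∀ i, b i ∈ C.LL (d i)) ∧ ∑ i, d i = D := by
    let b0 := Module.finBasis (RatFunc 𝕜) M
    choose g hg d hd using fun i => C.riemann_mult (b0 i)
    exact ⟨_, fun i => g i • b0 i, d,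
      b0.linearIndependent.units_smul fun i => Units.mk0 (g i) (hg i), hd, rfl⟩
  obtain ⟨b, d, hb, hd, hD⟩ := Nat.find_spec hex
  have : Nonempty (Fin (Module.finrank (RatFunc 𝕜) M)) := ⟨⟨0, Module.finrank_pos⟩⟩
  refine ⟨b, hb, fun i => C.LL_mono ?_ (hd i)⟩
  refine C.riemann_deg (basisOfLinearIndependentOfCardEqFinrank hb (Fintype.card_fin _))
    (fun j => ?_) (fun b' d' h1 h2 => ?_) i
  · rw [coe_basisOfLinearIndependentOfCardEqFinrank]
    exact hd j
  · rw [hD]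
    exact Nat.find_min' hex ⟨b', d', h1, h2, rfl⟩

theorem riemann (m : ℕ) : Module.finrank (RatFunc 𝕜) M * m ≤
    Module.finrank 𝕜 (C.LL m) + Module.finrank (RatFunc 𝕜) M * C.Ram.card := by
  rcases le_total m C.Ram.card with hm | hm
  · exact (Nat.mul_le_mul_left _ hm).trans (Nat.le_add_left _ _)
  obtain ⟨k, rfl⟩ := Nat.exists_eq_add_of_le hm
  obtain ⟨b, hb, hd⟩ := C.riemann_basis
  have h1 : LinearIndependent 𝕜 fun j : Fin k => (RatFunc.X : RatFunc 𝕜) ^ (j : ℕ) := by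
    have h2 := ((basisMonomials 𝕜).linearIndependent.comp (fun j : Fin k => (j : ℕ))
      Fin.val_injective).map' (IsScalarTower.toAlgHom 𝕜 𝕜[X] (RatFunc 𝕜)).toLinearMap
      (LinearMap.ker_eq_bot.mpr (RatFunc.algebraMap_injective 𝕜))
    have h3 : (fun j : Fin k => (RatFunc.X : RatFunc 𝕜) ^ (j : ℕ)) =
        (IsScalarTower.toAlgHom 𝕜 𝕜[X] (RatFunc 𝕜)).toLinearMap ∘ (basisMonomials 𝕜) ∘
          fun j : Fin k => (j : ℕ) := by
      funext j
      simp [← X_pow_eq_monomial]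
    rw [h3]
    exact h2
  have h3 := linearIndependent_smul h1 hb
  have h4 : ∀ p : Fin k × Fin (Module.finrank (RatFunc 𝕜) M),
      (RatFunc.X : RatFunc 𝕜) ^ (p.1 : ℕ) • b p.2 ∈ C.LL (C.Ram.card + k) := by
    intro p
    have h5 := C.mul_mem_LL (C.aeval_mem_LL (X ^ (p.1 : ℕ))) (hd p.2)
    rw [natDegree_X_pow, ← riemann_alg, map_pow, RatFunc.algebraMap_X, ← Algebra.smul_def] at h5
    exact C.LL_mono (by have := p.1.2; omega) h5
  have := C.finite_LL (C.Ram.card + k)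
  have h6 : LinearIndependent 𝕜 fun p : Fin k × Fin (Module.finrank (RatFunc 𝕜) M) =>
      (⟨_, h4 p⟩ : C.LL (C.Ram.card + k)) :=
    LinearIndependent.of_comp (C.LL (C.Ram.card + k)).subtype h3
  have h7 := h6.fintype_card_le_finrank
  rw [Fintype.card_prod, Fintype.card_fin, Fintype.card_fin, mul_comm] at h7
  rw [mul_add]
  omega

end Crv

end Pool.Agent.Quad
end

-- merged part: Pool.Agent.Work.MP_60d5ce_nt.Qt.Stepanov
section
/-!
# The Bombieri-Stepanov upper bound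

Hints.  `N = finrank`, `r = card Ram`, `s = q ^ (e / 2)`, `s' = q ^ ((e + 1) / 2)`, `s * s' = q ^ e`,
`l = (s' - 1) / N`.  If `l ≤ 2 r + 1` use `card_zeros` for `t - t ^ q ^ e`: at most `N q ^ e` zeros and
`s ≤ s' ≤ N (2 r + 2)`.  Otherwise `m = r + s / N + 3 r + 22`.  With `r i` from `exists_ord_basis l`,
the linear map `(b i) ↦ ∑ r i ^ s * b i` from `(LL m) ^ dim (LL l)` to `LL (l s + m)` has a nonzero
kernel (`riemann`, `finrank_le`: `N (l - r) * N (m - r) > N (l s + m) + 1`).  Put `c i = g⁻¹ (b i)`,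
`F = ∑ r i * c i ^ s' ∈ LL (l + m s')`.  `F ≠ 0` since the orders of the nonzero terms at the chosen
point are distinct modulo `s'` (`N l < s'`).  `F ^ s = ∑ r i ^ s * (c i ^ q ^ e - g (c i))` is small at
the points of `Z`.  So `card Z ≤ N (l + m s') ≤ q ^ e + N (4 r + 23) s'`.
-/

namespace Pool.Agent.Quad

open Polynomial

theorem stepanov_sum_lt {M ι : Type} [Field M] {w : AbsoluteValue M ℝ} (hw : IsNonarchimedean w)
    {c : ℝ} (hc : 0 < c) (T : Finset ι) (f : ι → M) (h : ∀ i ∈ T, w (f i) < c) :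
    w (∑ i ∈ T, f i) < c := by
  refine Finset.sum_induction f (fun a => w a < c) (fun a b ha hb => ?_) (by simpa using hc) h
  exact (hw a b).trans_lt (max_lt ha hb)

theorem stepanov_sum_ne {M ι : Type} [Field M] [Fintype ι] {w : AbsoluteValue M ℝ}
    (hw : IsNonarchimedean w) (f : ι → M) {j : ι} (hj : f j ≠ 0)
    (h : ∀ i k, f i ≠ 0 → w (f i) = w (f k) → i = k) : ∑ i, f i ≠ 0 := by
  classical
  obtain ⟨i, -, hi⟩ := Finset.exists_max_image Finset.univ (fun i => w (f i)) ⟨j, Finset.mem_univ j⟩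
  have h0 : 0 < w (f i) := (w.pos hj).trans_le (hi j (Finset.mem_univ j))
  have h1 := stepanov_sum_lt hw h0 (Finset.univ.erase i) f fun k hk =>
    lt_of_le_of_ne (hi k (Finset.mem_univ k)) fun e =>
      Finset.ne_of_mem_erase hk (h i k (w.pos_iff.1 h0) e.symm).symm
  intro e
  rw [← Finset.add_sum_erase _ _ (Finset.mem_univ i), add_eq_zero_iff_eq_neg] at e
  rw [e, w.map_neg] at h1
  exact lt_irrefl _ h1

theorem stepanov_pow_sum {M ι : Type} [Field M] {q : ℕ} (hq : q ≠ 0)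
    (hadd : ∀ a b : M, (a + b) ^ q = a ^ q + b ^ q) (k : ℕ) (T : Finset ι) (f : ι → M) :
    (∑ i ∈ T, f i) ^ q ^ k = ∑ i ∈ T, f i ^ q ^ k := by
  classical
  have h : ∀ (k : ℕ) (a b : M), (a + b) ^ q ^ k = a ^ q ^ k + b ^ q ^ k := by
    intro k
    induction k with
    | zero => simp
    | succ k ih => intro a b; simp only [pow_succ q, pow_mul, ih, hadd]
  induction T using Finset.induction_on with
  | empty => simp [hq]
  | insert a T ha ih => rw [Finset.sum_insert ha, Finset.sum_insert ha, h, ih]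

theorem stepanov_num {N r s l u A D : ℕ} (hN : 0 < N) (hl : 2 * r + 2 ≤ l)
    (hs : s ≤ N * l + N) (hu : s + N * (3 * r + 21) + 1 ≤ N * u) (hA : N * l ≤ A + N * r)
    (hD : N * (r + u) ≤ D + N * r) : N * (l * s + (r + u)) + 1 < A * D := by
  obtain ⟨v, rfl⟩ : ∃ v, l = r + (v + r + 2) := ⟨l - (2 * r + 2), by omega⟩
  obtain ⟨a, ha⟩ : ∃ a, N * (v + r + 2) = a + 1 := ⟨N * (v + r + 2) - 1, by
    have := Nat.mul_pos hN (show 0 < v + r + 2 by omega)
    omega⟩
  have h1 : a + 1 ≤ A := by rw [mul_add, ha] at hA; omega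
  have h2 : N * u ≤ D := by rw [mul_add] at hD; omega
  refine lt_of_lt_of_le ?_ (Nat.mul_le_mul h1 h2)
  have h3 : N * ((r + (v + r + 2)) * s + (r + u)) = N * r * s + (a + 1) * s + N * r + N * u := by
    rw [← ha]; ring
  have h4 : N * r + 2 * N ≤ a + 1 := by rw [← ha]; linarith only [Nat.zero_le (N * v)]
  have h5 : s + 1 ≤ 2 * (a + 1) := by rw [mul_add, ha] at hs; omega
  have h6 : s + 3 * (N * r) + 22 ≤ N * u := by
    have : N * (3 * r + 21) = 3 * (N * r) + 21 * N := by ring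
    omega
  have h7 : r = 0 ∨ 2 ≤ a := by
    rcases Nat.eq_zero_or_pos r with h | h
    · exact Or.inl h
    · have := Nat.mul_pos hN h
      omega
  rw [h3]
  have h8 := Nat.mul_le_mul_left a h6
  have h9 := Nat.mul_le_mul_right (N * r + 1) h5
  have h10 : 2 * (N * r) ≤ a * (N * r) := by
    rcases h7 with h | h
    · simp [h]
    · exact Nat.mul_le_mul_right _ h
  have h11 : 1 ≤ a := by omega
  generalize N * r = R at *
  generalize N * u = b at *
  linarith only [h11, h9, h10, h8]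

variable {𝕜 M : Type} [Field 𝕜] [Field M] [Algebra 𝕜 M] [Algebra (RatFunc 𝕜) M]
  [IsScalarTower 𝕜 (RatFunc 𝕜) M] [IsAlgClosed 𝕜] [FiniteDimensional (RatFunc 𝕜) M]
  [IsGalois (RatFunc 𝕜) M]

/-- the auxiliary function -/
theorem Crv.stepanov_aux (C : Crv 𝕜 M) {s s' l m : ℕ} (hs : s ≠ 0)
    (hadd : ∀ (d : ℕ) (f : Fin d → M), (∑ i, f i) ^ s = ∑ i, f i ^ s) (g : M ≃+* M)
    (ht : g (tM 𝕜 M) = tM 𝕜 M)
    (hc : ∀ c : 𝕜, ∃ c' : 𝕜, g.symm (algebraMap 𝕜 M c) = algebraMap 𝕜 M c')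
    (hl : Module.finrank (RatFunc 𝕜) M * l < s')
    (hd : Module.finrank (RatFunc 𝕜) M * (l * s + m) + 1 <
      Module.finrank 𝕜 (C.LL l) * Module.finrank 𝕜 (C.LL m))
    (Z : Finset (𝕜 × (M ≃ₐ[RatFunc 𝕜] M)))
    (hZ : ∀ z ∈ Z, z.1 ∉ C.Ram ∧
      ∀ m, ∀ f ∈ C.LL m, C.w (some z.1) (z.2 (g f - f ^ (s' * s))) < 1) :
    Z.card ≤ Module.finrank (RatFunc 𝕜) M * (l + m * s') := by
  obtain ⟨x, hx⟩ := Infinite.exists_notMem_finset C.Ram
  obtain ⟨r, n, hn, hr⟩ := C.exists_ord_basis l hx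
  have := C.finite_LL m
  have := C.finite_LL (l * s + m)
  let φ : (Fin (Module.finrank 𝕜 (C.LL l)) → C.LL m) →ₗ[𝕜] C.LL (l * s + m) :=
    { toFun := fun b => ⟨∑ i, r i ^ s * (b i : M), Submodule.sum_mem _ fun i _ =>
        C.mul_mem_LL (C.pow_mem_LL (hr i).1 s) (b i).2⟩
      map_add' := fun b b' => Subtype.ext (by simp [mul_add, Finset.sum_add_distrib])
      map_smul' := fun a b => Subtype.ext (by simp [Finset.smul_sum]) }
  have hk : LinearMap.ker φ ≠ ⊥ := φ.ker_ne_bot_of_finrank_lt (by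
    rw [Module.finrank_pi_fintype, Finset.sum_const, Finset.card_univ, Fintype.card_fin,
      smul_eq_mul]
    exact (C.finrank_le _).trans_lt hd)
  obtain ⟨b, hb, hb0⟩ := Submodule.exists_mem_ne_zero_of_ne_bot hk
  have hb1 : ∑ i, r i ^ s * (b i : M) = 0 := congrArg Subtype.val (LinearMap.mem_ker.1 hb)
  obtain ⟨j, hj⟩ := Function.ne_iff.1 hb0
  have hcm : ∀ i, g.symm (b i) ∈ C.LL m := fun i =>
    C.map_mem_LL g.symm (g.symm_apply_eq.2 ht.symm) hc (b i).2
  have hr0 : ∀ i, r i ≠ 0 := fun i h => by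
    have h1 := (hr i).2.2
    rw [h, map_zero] at h1
    exact (zpow_pos two_pos _).ne h1
  have hw : ∀ i, r i * g.symm (b i) ^ s' ≠ 0 →
      ∃ k : ℕ, C.w (some x) (r i * g.symm (b i) ^ s') = 2 ^ (-((n i + s' * k : ℕ) : ℤ)) := by
    intro i hi
    obtain ⟨k, -, hk⟩ := C.exists_ord (hcm i)
      (fun h => hi (by rw [h, zero_pow (by omega), mul_zero])) hx
    refine ⟨k, ?_⟩
    rw [map_mul, map_pow, (hr i).2.2, hk, ← zpow_natCast, ← zpow_mul, ← zpow_add₀ two_ne_zero]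
    congr 1
    push_cast
    ring
  refine C.card_zeros (f := ∑ i, r i * g.symm (b i) ^ s') (Submodule.sum_mem _ fun i _ =>
    C.mul_mem_LL (hr i).1 (C.pow_mem_LL (hcm i) s')) ?_ Z fun z hz => ⟨(hZ z hz).1, ?_⟩
  · refine stepanov_sum_ne (C.na (some x)) _ (j := j) (mul_ne_zero (hr0 j) (pow_ne_zero _ ?_)) ?_
    · exact (map_ne_zero g.symm).2 fun h => hj (Subtype.ext h)
    · intro i k hi hik
      obtain ⟨a, ha⟩ := hw i hi
      obtain ⟨a', ha'⟩ := hw k fun h => hi (by rwa [h, map_zero, AbsoluteValue.eq_zero] at hik)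
      rw [ha, ha', zpow_right_inj₀ two_pos (by norm_num), neg_inj, Nat.cast_inj] at hik
      have h1 := congrArg (· % s') hik
      simp only [Nat.add_mul_mod_self_left] at h1
      rw [Nat.mod_eq_of_lt ((hr i).2.1.trans_lt hl), Nat.mod_eq_of_lt ((hr k).2.1.trans_lt hl)] at h1
      exact hn h1
  · have h1 : (∑ i, r i * g.symm (b i) ^ s') ^ s =
        -∑ i, r i ^ s * (g (g.symm (b i)) - g.symm (b i) ^ (s' * s)) := by
      simp only [hadd, mul_pow, ← pow_mul, g.apply_symm_apply, mul_sub, Finset.sum_sub_distrib, hb1,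
        zero_sub, neg_neg]
    rw [← pow_lt_one_iff_of_nonneg (AbsoluteValue.nonneg _ _) hs, ← map_pow, ← map_pow, h1, map_neg,
      AbsoluteValue.map_neg, map_sum]
    refine stepanov_sum_lt (C.na _) one_pos _ _ fun i _ => ?_
    rw [map_mul, map_mul, map_pow, map_pow]
    exact mul_lt_one_of_nonneg_of_lt_one_right
      (pow_le_one₀ (AbsoluteValue.nonneg _ _) ((hr i).1.1 z.1 z.2)) (AbsoluteValue.nonneg _ _)
      ((hZ z hz).2 m _ (hcm i))

theorem Crv.stepanov_triv (C : Crv 𝕜 M) {Q : ℕ} (hQ : 2 ≤ Q) (g : M ≃+* M)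
    (ht : g (tM 𝕜 M) = tM 𝕜 M) (Z : Finset (𝕜 × (M ≃ₐ[RatFunc 𝕜] M)))
    (hZ : ∀ z ∈ Z, z.1 ∉ C.Ram ∧
      ∀ m, ∀ f ∈ C.LL m, C.w (some z.1) (z.2 (g f - f ^ Q)) < 1) :
    Z.card ≤ Module.finrank (RatFunc 𝕜) M * Q := by
  have hd : (X - X ^ Q : 𝕜[X]).natDegree = Q := by
    rw [natDegree_sub_eq_right_of_natDegree_lt (by rw [natDegree_X, natDegree_X_pow]; omega),
      natDegree_X_pow]
  have h0 : (X - X ^ Q : 𝕜[X]) ≠ 0 := fun h => by
    rw [h, natDegree_zero] at hd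
    omega
  have h1 := C.aeval_mem_LL (X - X ^ Q)
  have h2 := C.w_inf _ h0
  have h3 := C.aeval_mem_LL X
  rw [hd] at h1
  rw [map_sub, map_pow, aeval_X] at h1 h2
  rw [aeval_X] at h3
  refine C.card_zeros h1 (fun h => ?_) Z fun z hz => ⟨(hZ z hz).1, ?_⟩
  · rw [h, map_zero] at h2
    exact (zpow_pos two_pos _).ne h2
  · have h4 := (hZ z hz).2 _ _ h3
    rwa [ht] at h4

theorem Crv.stepanov (C : Crv 𝕜 M) {q e : ℕ} (hq : 4 ≤ q) (he : 0 < e)
    (hadd : ∀ a b : M, (a + b) ^ q = a ^ q + b ^ q) (g : M ≃+* M) (ht : g (tM 𝕜 M) = tM 𝕜 M)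
    (hc : ∀ c : 𝕜, ∃ c' : 𝕜, g.symm (algebraMap 𝕜 M c) = algebraMap 𝕜 M c')
    (Z : Finset (𝕜 × (M ≃ₐ[RatFunc 𝕜] M)))
    (hZ : ∀ z ∈ Z, z.1 ∉ C.Ram ∧
      ∀ m, ∀ f ∈ C.LL m, C.w (some z.1) (z.2 (g f - f ^ q ^ e)) < 1) :
    (Z.card : ℝ) ≤ (q : ℝ) ^ e + 18 * (Module.finrank (RatFunc 𝕜) M : ℝ) ^ 2 *
      (C.Ram.card + 2) * (q : ℝ) ^ ((e + 1) / 2) := by
  have hN : 0 < Module.finrank (RatFunc 𝕜) M := Module.finrank_pos
  have hss : q ^ ((e + 1) / 2) * q ^ (e / 2) = q ^ e := by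
    rw [← pow_add]
    congr 1
    omega
  have hs0 : 0 < q ^ (e / 2) := by positivity
  have hs1 : q ^ (e / 2) ≤ q ^ ((e + 1) / 2) := Nat.pow_le_pow_right (by omega) (by omega)
  have hQ : 2 ≤ q ^ e := le_trans (by omega) (Nat.le_self_pow he.ne' q)
  have haux := fun l m => C.stepanov_aux (s := q ^ (e / 2)) (s' := q ^ ((e + 1) / 2)) (l := l)
    (m := m) hs0.ne' (fun d f => stepanov_pow_sum (by omega) hadd _ _ f) g ht hc
  have htriv := C.stepanov_triv hQ g ht Z hZ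
  have hR := C.riemann
  suffices h : Z.card ≤ q ^ e + 18 * Module.finrank (RatFunc 𝕜) M ^ 2 * (C.Ram.card + 2) *
      q ^ ((e + 1) / 2) by exact_mod_cast h
  rw [← hss] at hZ htriv ⊢
  generalize q ^ (e / 2) = s at *
  generalize q ^ ((e + 1) / 2) = s' at *
  generalize Module.finrank (RatFunc 𝕜) M = N at *
  generalize C.Ram.card = r at *
  have hl1 := Nat.mul_div_le (s' - 1) N
  have hl2 := Nat.lt_mul_div_succ (s' - 1) hN
  have hu1 := Nat.mul_div_le s N
  have hu2 := Nat.lt_mul_div_succ s hN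
  generalize (s' - 1) / N = l at *
  generalize s / N = u at *
  rw [mul_add, mul_one] at hl2 hu2
  have hNN : N ≤ N ^ 2 := Nat.le_self_pow two_ne_zero N
  by_cases hl : l ≤ 2 * r + 1
  · have h1 := Nat.mul_le_mul_left N hl
    have h2 : s ≤ N * (2 * r + 2) := by
      have : N * (2 * r + 2) = N * (2 * r + 1) + N := by ring
      omega
    calc Z.card ≤ N * (s' * s) := htriv
      _ ≤ N * (s' * (N * (2 * r + 2))) := by gcongr
      _ = N ^ 2 * (2 * r + 2) * s' := by ring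
      _ ≤ N ^ 2 * (18 * (r + 2)) * s' := by gcongr; omega
      _ = 18 * N ^ 2 * (r + 2) * s' := by ring
      _ ≤ _ := Nat.le_add_left _ _
  · have h1 := haux l (r + (u + 3 * r + 22)) (by omega) (stepanov_num hN (by omega) (by omega) (by
      have : N * (u + 3 * r + 22) = N * u + N + N * (3 * r + 21) := by ring
      omega) (hR _) (hR _)) Z hZ
    calc Z.card ≤ _ := h1
      _ = N * l + s' * (N * u) + N * (4 * r + 22) * s' := by ring
      _ ≤ N * s' + s' * s + N * (4 * r + 22) * s' := by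
          have h2 : N * l ≤ N * s' := (hl1.trans (Nat.sub_le _ _)).trans
            (Nat.le_mul_of_pos_left _ hN)
          exact Nat.add_le_add_right (Nat.add_le_add h2 (Nat.mul_le_mul_left _ hu1)) _
      _ = s' * s + N * (4 * r + 23) * s' := by ring
      _ ≤ s' * s + N ^ 2 * (18 * (r + 2)) * s' := by gcongr; omega
      _ = _ := by ring

end Pool.Agent.Quad
end
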