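import Pool.Agent.Work.MP_60d5ce_nt.Qt.ZoneA

/-!
# Counting primes with a type, symbols and level one conditions  (task QT Cnt)

Hints.  All bounds come from `pr_upper`, `pr_lower`, `prM_upper` (indices: `cl_nf`, `cl_sym`, `cl_z1'`,
`Cl.comp₂`, `cl_pi`, `Small.mono`), `dens_sym` (with `A0`, `N = 16`) and `dens_family_le`.
* `cnt_w`: family `z t` of `spread`, `J = Vb`: `w (g * z t) = w g + rb g t`, and the number of `t` with
  `ee (w g + rb g t) n = 0` for all `n` fixed by `g` is at most `4 / nf g` (finite check on `rb g`).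
  Conjugation invariance: `ee_conj`, `fx_conj` (with `h⁻¹`).
* `cnt_mark`: for a fixed mark `n ≠ 0` use the family `z m` of `exists_zm`, `J = A'' → Matrix`:
  `ch u n' (g * z m) = ch u n' g + rb g (m u n')` for `n'` fixed by `σ u` (`ch_spec`), and
  `ee (rb g t) n = ee t n` as `g` fixes `n`; for each `u` the number of matrices `m` with
  `ee (m n') n = b n'` for all `n'` fixed by `σ u` is at most `16 / nf (σ u)` (finite check on `rb (σ u)`);
  the count is a product (`Fintype.piFinset`).  There are three nonzero marks.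
-/

namespace Pool.Agent.Quad

open scoped Classical

noncomputable section

theorem cnt_vec : ∀ r : Matrix (Fin 2) (Fin 2) F2, r.det = 1 → ∀ y : Vb,
    (Finset.univ.filter fun t : Vb => ∀ n, r.mulVec n = n → ee (y + r.mulVec t) n = 0).card *
      (Finset.univ.filter fun n => r.mulVec n = n).card ≤ 4 := by
  simp only [Matrix.det_fin_two]
  decide +kernel

theorem cnt_mat : ∀ (r : Matrix (Fin 2) (Fin 2) F2) (n : Vb), n ≠ 0 → ∀ b : Vb → F2,
    (Finset.univ.filter fun m : Matrix (Fin 2) (Fin 2) F2 =>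
      ∀ n', r.mulVec n' = n' → ee (m.mulVec n') n = b n').card *
      (Finset.univ.filter fun n => r.mulVec n = n).card ≤ 16 := by
  decide +kernel

theorem cnt_nc {α : Type} [Fintype α] (p : α → Prop) [DecidablePred p] :
    ({a | p a} : Set α).ncard = (Finset.univ.filter p).card := by
  rw [← Finset.coe_filter_univ, Set.ncard_coe_finset]

theorem cnt_div {a t c : ℕ} (ht : t = 1 ∨ t = 2 ∨ t = 4) (h : a * t ≤ c) :
    (a : ℝ) ≤ (t : ℝ)⁻¹ * c := by
  rw [le_inv_mul_iff₀' (by exact_mod_cast (by omega : 0 < t))]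
  exact_mod_cast h

theorem cnt_NN {n a : ℕ} (h : a ≤ 32 * (n + 1)) : 2 ^ a ≤ NN n :=
  Nat.pow_le_pow_right (by norm_num) h

variable {W P : Type} [Group W] {T : Tame W P}

namespace Rep

variable (R : Rep T)

/-- the expected number of primes of type `t` and degree `e` with `n` prescribed symbols -/
def wt (t e n : ℕ) : ℝ := T.dens (fun g => R.nf g = t) e * ((T.q : ℝ) ^ e / e) * (2 : ℝ)⁻¹ ^ n

/-- type and symbols -/
def TS (t : ℕ) (A' : Finset P) (c : P → F2) (g : W) : Prop := R.nf g = t ∧ ∀ a ∈ A', T.χ a g = c a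

variable {R} {A0 A' : Finset P} {e : ℕ} {η : ℝ}

theorem cnt_nf (g : W) :
    R.nf g = (Finset.univ.filter fun n => (R.rb g).mulVec n = n).card :=
  cnt_nc fun n => (R.rb g).mulVec n = n

theorem cnt_cl (hS : R.S ⊆ A0) (t : ℕ) (c : P → F2) :
    T.Cl (A0 ∪ A') (2 ^ (4 + A'.card)) (R.TS t A' c) := by
  rw [pow_add]
  exact (cl_nf (hS.trans Finset.subset_union_left)).comp₂
    (Tame.cl_sym (Finset.mem_union_left _ (hS R.inf_mem)) Finset.subset_union_right c)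
    fun a p => a = t ∧ p

theorem cnt_conj {t : ℕ} {c : P → F2} {g : W} (h : W) (k : R.TS t A' c g) :
    R.TS t A' c (h * g * h⁻¹) :=
  ⟨(nf_conj g h).trans k.1, fun a ha => (Tame.hom_conj (T.χ_hom a) g h).trans (k.2 a ha)⟩

theorem cnt_shift {t : ℕ} {c : P → F2} {g z : W} (h1 : R.rb z = 1)
    (h2 : ∀ h : W → F2, T.IsHom h → h z = 0) (k : R.TS t A' c (g * z)) : R.TS t A' c g :=
  ⟨(nf_congr (by rw [Lat.rb_mul, h1, mul_one])).trans k.1, fun a ha => by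
    rw [← k.2 a ha, (T.χ_hom a).2, h2 _ (T.χ_hom a), add_zero]⟩

theorem cnt_dens (hS : R.S ⊆ A0) (hd : ∀ a ∈ A', a ∉ A0) (t : ℕ) (c : P → F2) (e : ℕ) :
    T.dens (R.TS t A' c) e * ((T.q : ℝ) ^ e / e) = R.wt t e A'.card := by
  have h := Tame.dens_sym (e := e) (hS R.inf_mem) ((cl_nf hS).comp (· = t)) hd c
  rw [wt, mul_comm _ (_ ^ A'.card), ← mul_assoc, ← h]
  rfl

theorem cnt_end {a d d' θ X : ℝ} (hη : 0 ≤ η) (hX : 0 ≤ X) (h1 : a ≤ (1 + η) * (d * X))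
    (h2 : d ≤ θ * d') : a ≤ θ * ((1 + η) * (d' * X)) :=
  h1.trans ((mul_le_mul_of_nonneg_left (mul_le_mul_of_nonneg_right h2 hX) (by linarith)).trans_eq
    (by ring))

theorem wt_nonneg (t e n : ℕ) : 0 ≤ R.wt t e n := by
  exact mul_nonneg (mul_nonneg Tame.dens_nonneg (by positivity)) (by positivity)

theorem cnt_lower (hS : R.S ⊆ A0) (t : ℕ) (he : 0 < e)
    (h : T.Small η 16 (∑ v ∈ A0, T.dg v) e) :
    (1 - η) * R.wt t e 0 ≤ ((T.Pr A0 (fun g => R.nf g = t) e).ncard : ℝ) := by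
  rw [wt, pow_zero, mul_one]
  exact Tame.pr_lower (hS R.inf_mem) ((cl_nf hS).comp (· = t))
    (fun g k h1 => (nf_conj g k).trans h1) he h

theorem cnt_frac (hS : R.S ⊆ A0) {t : ℕ} (ht : t = 1 ∨ t = 4) (he : 0 < e) (hη : η ≤ 1 / 8)
    (h : T.Small η 16 (∑ v ∈ A0, T.dg v) e) :
    1 / 32 * ((T.Pr A0 (fun _ => True) e).ncard : ℝ) ≤
      ((T.Pr A0 (fun g => R.nf g = t) e).ncard : ℝ) := by
  have h1 := Tame.pr_upper (hS R.inf_mem) (Tame.cl_const True) (fun _ _ k => k) he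
    (h.mono le_rfl (by norm_num) le_rfl)
  have h2 := cnt_lower hS t he h
  have h3 : (0 : ℝ) ≤ (T.q : ℝ) ^ e / e := by positivity
  have h4 := mul_le_mul_of_nonneg_left (mul_le_mul_of_nonneg_right (dens_nf (R := R) ht e) h3)
    (show 0 ≤ 1 - η by linarith)
  rw [Tame.dens_true] at h1
  rw [wt, pow_zero, mul_one] at h2
  nlinarith [mul_le_mul_of_nonneg_right hη h3]

theorem cnt_ty (hS : R.S ⊆ A0) (hd : ∀ a ∈ A', a ∉ A0) (t : ℕ) (c : P → F2) (he : 0 < e)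
    (h : T.Small η (NN A'.card) (∑ v ∈ A0 ∪ A', T.dg v) e) :
    ((T.Pr (A0 ∪ A') (R.TS t A' c) e).ncard : ℝ) ≤ (1 + η) * R.wt t e A'.card := by
  rw [← cnt_dens hS hd t c]
  exact Tame.pr_upper (Finset.mem_union_left _ (hS R.inf_mem)) (cnt_cl hS t c)
    (fun g k => cnt_conj k) he (h.mono le_rfl (cnt_NN (by omega)) le_rfl)

theorem cnt_w (hS : R.S ⊆ A0) (hd : ∀ a ∈ A', a ∉ A0) (t : ℕ) (c : P → F2) (he : 0 < e)
    (h : T.Small η (NN A'.card) (∑ v ∈ A0 ∪ A', T.dg v) e) {w : W → Vb}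
    (hw : w ∈ R.Z1U (A0 ∪ A')) (hc : ¬ R.IsCob w) :
    ((T.Pr (A0 ∪ A') (fun g => R.TS t A' c g ∧ ∀ n, R.Fx g n → ee (w g) n = 0) e).ncard : ℝ) ≤
      (t : ℝ)⁻¹ * ((1 + η) * R.wt t e A'.card) := by
  have hc1 : T.Cl (A0 ∪ A') (2 ^ (4 + A'.card) * 64)
      fun g => R.TS t A' c g ∧ ∀ n, R.Fx g n → ee (w g) n = 0 :=
    (cnt_cl hS t c).comp₂ (cl_z1' (hS.trans Finset.subset_union_left) hw)
      fun p y => p ∧ ∀ n, y.1.mulVec n = n → ee y.2 n = 0
  choose z z1 z2 z3 z4 using spread hw.1 hc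
  rw [← cnt_dens hS hd t c]
  refine cnt_end h.nonneg (by positivity) (Tame.pr_upper (Finset.mem_union_left _ (hS R.inf_mem))
    hc1 (fun g k h1 => ⟨cnt_conj k h1.1, fun n hn => ?_⟩) he (h.mono le_rfl ?_ le_rfl))
    (Tame.dens_family_le hc1.sm (cnt_cl hS t c).sm z z1 (by positivity)
      (fun g _ j h1 => cnt_shift (z2 j) (z3 j) h1.1) fun g _ h1 => ?_)
  · have h2 := fx_conj hn k⁻¹
    rw [show k⁻¹ * (k * g * k⁻¹) * k⁻¹⁻¹ = g by group] at h2
    rw [← Lat.rb_mulVec_inv (R := R.toLat) k n, ee_conj hw.1 h2, h1.2 _ h2]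
  · rw [show 64 = 2 ^ 6 from rfl, ← pow_add]
    exact cnt_NN (by omega)
  · have h2 := cnt_vec _ (det_rb (R := R) g) (w g)
    rw [← cnt_nf, h1.1, ← cnt_nc] at h2
    refine cnt_div (h1.1 ▸ nf_cases g) (le_trans (Nat.mul_le_mul_right _
      (Set.ncard_le_ncard ?_ (Set.toFinite _))) h2)
    intro j hj n hn
    rw [← z4 j, ← hw.1.2]
    exact hj.2 n (by rwa [Lat.Fx, Lat.rb_mul, z2, mul_one])

theorem cnt_mark (hS : R.S ⊆ A0) (hd : ∀ a ∈ A', a ∉ A0) (t : ℕ) (c : P → F2) (he : 0 < e)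
    (h : T.Small η (NN A'.card) (∑ v ∈ A0 ∪ A', T.dg v) e) {A'' : Finset P} (hA : A'' ⊆ A')
    (b : P → Vb → F2) :
    ((T.PrM (A0 ∪ A') (fun g (n : Vb) => R.TS t A' c g ∧ R.Fx g n ∧ n ≠ 0 ∧
        ∀ u ∈ A'', ∀ n', R.Fx (T.σ u) n' → ee (R.ch u n' g) n = b u n') e).ncard : ℝ) ≤
      3 * (∏ u ∈ A'', (R.nf (T.σ u) : ℝ)⁻¹) * ((1 + η) * R.wt t e A'.card) := by
  have hu : ∀ u ∈ A'', u ∉ R.S := fun u k k' => hd u (hA k) (hS k')
  have hS' : R.S ⊆ A0 ∪ A' := hS.trans Finset.subset_union_left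
  have hc0 : T.Cl (A0 ∪ A') (64 ^ Fintype.card (A'' × Vb)) fun g (p : A'' × Vb) =>
      R.ch p.1 p.2 g := Tame.cl_pi fun p => (cl_z1' hS' (z1U_mono (Finset.insert_subset
        (Finset.mem_union_right _ (hA p.1.2)) hS') (ch_mem (R := R) p.1.1 p.2))).comp Prod.snd
  have hm : R.MP (A0 ∪ A') (2 ^ (4 + A'.card) * 16 * 64 ^ Fintype.card (A'' × Vb))
      fun g (n : Vb) => R.TS t A' c g ∧ R.Fx g n ∧ n ≠ 0 ∧
        ∀ u ∈ A'', ∀ n', R.Fx (T.σ u) n' → ee (R.ch u n' g) n = b u n' := by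
    refine ⟨?_, fun g n k h1 => ⟨cnt_conj k h1.1, fx_conj h1.2.1 k,
      fun h2 => h1.2.2.1 (Lat.rb_mulVec_eq_zero h2),
      fun u k1 n' k2 => (ee_conj (ch_mem u n').1 h1.2.1 k).trans (h1.2.2.2 u k1 n' k2)⟩⟩
    simpa only [Subtype.forall, Lat.Fx] using (((cnt_cl hS t c).comp₂ (cl_rb' hS') Prod.mk).comp₂ hc0
      fun y F (n : Vb) => y.1 ∧ y.2.mulVec n = n ∧ n ≠ 0 ∧
        ∀ u : A'', ∀ n', R.Fx (T.σ u) n' → ee (F (u, n')) n = b u n')
  choose z z1 z2 z3 z4 using fun m : A'' → Matrix (Fin 2) (Fin 2) F2 =>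
    exists_zm hu fun u => if k : u ∈ A'' then m ⟨u, k⟩ else 0
  have z5 : ∀ m (u : A'') n', R.Fx (T.σ u) n' → R.ch u n' (z m) = (m u).mulVec n' :=
    fun m u n' k => by
      rw [z4 m _ (ch_mem (R := R) u.1 n').1, Finset.sum_eq_single_of_mem u.1 u.2 fun v hv k' => by
        rw [(ch_mem u.1 n').2 v fun k1 => (Finset.mem_insert.1 k1).elim k' (hu v hv),
          Matrix.mulVec_zero], dif_pos u.2, (ch_spec (hu _ u.2) k).2]
  have hθ : 0 ≤ ∏ u ∈ A'', (R.nf (T.σ u) : ℝ)⁻¹ := by positivity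
  rw [← cnt_dens hS hd t c]
  refine cnt_end h.nonneg (by positivity) (Lat.prM_upper (Finset.mem_union_left _ (hS R.inf_mem))
    hm he (h.mono le_rfl ?_ le_rfl)) ?_
  · have := Finset.card_le_card hA
    rw [show 64 = 2 ^ 6 from rfl, show 16 = 2 ^ 4 from rfl, ← pow_mul, ← pow_add, ← pow_add,
      Fintype.card_prod, Fintype.card_coe, show Fintype.card Vb = 4 from rfl]
    exact cnt_NN (by omega)
  rw [Tame.dM, ← Finset.add_sum_erase _ _ (Finset.mem_univ 0),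
    Tame.dens_false fun g _ k => k.2.2.1 rfl, zero_add, mul_assoc]
  refine (Finset.sum_le_card_nsmul _ _ _ fun n hn => Tame.dens_family_le
    (Tame.sm_comp hm.cl.sm fun F => F n) (cnt_cl hS t c).sm z z1 hθ
    (fun g _ j h1 => cnt_shift (z2 j) (z3 j) h1.1) fun g _ _ => ?_).trans_eq ?_
  · have h2 : ∀ u : A'', _ := fun u => cnt_div (nf_cases (R := R) (T.σ u)) ((cnt_nf (R := R) _).symm ▸
      cnt_mat (R.rb (T.σ u)) n (Finset.ne_of_mem_erase hn) fun n' => b u n' - ee (R.ch u n' g) n)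
    refine le_trans ?_ ((Finset.prod_le_prod (s := Finset.univ) (fun _ _ => Nat.cast_nonneg _)
      fun u _ => h2 u).trans_eq ?_)
    · rw [← Nat.cast_prod, Nat.cast_le, ← Fintype.card_piFinset, ← Set.ncard_coe_finset]
      refine Set.ncard_le_ncard (fun m hm => Finset.mem_coe.2 (Fintype.mem_piFinset.2 fun u =>
        Finset.mem_filter.2 ⟨Finset.mem_univ _, fun n' k => ?_⟩)) (Set.toFinite _)
      have h3 : (R.rb g).mulVec n = n := by
        have := hm.2.1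
        rwa [Lat.Fx, Lat.rb_mul, z2, mul_one] at this
      rw [← hm.2.2.2 u u.2 n' k, (ch_mem u.1 n').1.2, z5 m u n' k, ee_add_left,
        add_sub_cancel_left, ← ee_rb (R := R) g, h3]
    · rw [Finset.prod_mul_distrib, Finset.prod_coe_sort A'' fun u => (R.nf (T.σ u) : ℝ)⁻¹,
        Finset.prod_const, Fintype.card_fun, Nat.cast_pow]
      rfl
  · rw [Finset.card_erase_of_mem (Finset.mem_univ _), nsmul_eq_mul]
    exact congrArg (· * _) (Nat.cast_ofNat (n := 3))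

end Rep

end

end Pool.Agent.Quad
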