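import Pool.Agent.Work.MP_60d5ce_nt.Qt.GalBasic
import Pool.Agent.Work.MP_60d5ce_nt.Lb.Elem
import Pool.Agent.Work.MP_60d5ce_nt.Qt.Stepanov

-- merged part: Pool.Agent.Work.MP_60d5ce_nt.Qt.RecipB
section
-- merged part: Pool.Agent.Work.MP_60d5ce_nt.Qt.GalLoc
section
/-!
# Places and local models: elementary facts

Hints.
* `Loc.kum_tau`: `r ^ 2 = unif ^ n * u` with `w u = 1`; a cube root `s` of `u` has `τ s = ζ ^ i * s`
  and `w (τ s - s) < 1` (`τh_res`), while `ζ ^ i - 1` is zero or a constant of size one.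
* `exists_place`: `v` is the minimal polynomial of `y` over `k`; its roots are the `x ^ q ^ i`
  (`FiniteField.minpoly_frobeniusAlgHom`, `FiniteField.orderOf_frobeniusAlgEquivOfAlgebraic` on
  `k⟮x⟯`, or: the product of `X - x ^ q ^ i` over one period has coefficients fixed by `frob`).
-/

namespace Pool.Agent.Quad

open scoped Classical
open Polynomial

noncomputable section

variable {k : Type} [Field k] [Fintype k] {Ω : Type} [Field Ω] [Algebra (RatFunc k) Ω]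
  [Algebra k Ω] [IsScalarTower k (RatFunc k) Ω]

section places

theorem pdg_pos (v : Pl k) : 0 < pdg v := by
  cases v with
  | none => exact Nat.one_pos
  | some p => exact p.2.2.natDegree_pos

theorem pdg_fin (e : ℕ) : {v : Pl k | pdg v = e}.Finite := by
  have h : {p : {p : k[X] // p.Monic ∧ Irreducible p} | p.1.natDegree = e}.Finite := by
    refine Set.Finite.of_finite_image (f := fun p (i : Fin (e + 1)) => p.1.coeff i)
      (Set.toFinite _) fun p hp p' hp' h => Subtype.ext (Polynomial.ext fun i => ?_)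
    by_cases hi : i < e + 1
    · exact congrFun h ⟨i, hi⟩
    · have h1 : p.1.natDegree = e := hp
      have h2 : p'.1.natDegree = e := hp'
      rw [coeff_eq_zero_of_natDegree_lt (by omega), coeff_eq_zero_of_natDegree_lt (by omega)]
  refine ((h.image some).insert none).subset fun v hv => ?_
  cases v with
  | none => exact Set.mem_insert _ _
  | some p => exact Set.mem_insert_of_mem _ ⟨p, hv, rfl⟩

variable {v : Pl k}

theorem Loc.w_na (l : Loc Ω v) : IsNonarchimedean l.w := by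
  intro a b
  simpa only [Loc.w_apply, map_add] using l.wΛ_na (l.ι a) (l.ι b)

theorem Loc.w_lin (l : Loc Ω v) (hv : v ≠ none) {y : Kb k Ω} (hy : y ≠ l.x) :
    l.w (tt k Ω - y) = 1 := by
  obtain ⟨p, rfl⟩ := Option.ne_none_iff_exists'.1 hv
  have h1 : l.w (tt k Ω - l.x) = 2⁻¹ := l.w_unif
  have h2 : l.w ((l.x - y : Kb k Ω) : Ω) = 1 := l.w_const _ (sub_ne_zero.2 hy.symm)
  have e : tt k Ω - y = (tt k Ω - l.x) + ((l.x - y : Kb k Ω) : Ω) := by
    push_cast
    ring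
  rw [e, l.w_na.add_eq_right_of_lt (by rw [h1, h2]; norm_num), h2]

theorem Loc.w_τ (l : Loc Ω v) (a : Ω) : l.w (gal l.τ a) = l.w a := by
  rw [Loc.w_apply, l.ι_τ, l.wΛ_iso, Loc.w_apply]

theorem Loc.w_σ (l : Loc Ω v) (a : Ω) : l.w (gal l.σ a) = l.w a := by
  rw [Loc.w_apply, l.ι_σ, l.wΛ_iso, Loc.w_apply]

theorem Loc.τ_res (l : Loc Ω v) {a : Ω} (ha : l.w a ≤ 1) : l.w (gal l.τ a - a) < 1 := by
  rw [Loc.w_apply, map_sub, l.ι_τ]
  exact l.τh_res _ ha

theorem Loc.σ_res (l : Loc Ω v) {a : Ω} (ha : l.w a ≤ 1) :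
    l.w (gal l.σ a - a ^ Fintype.card k ^ pdg v) < 1 := by
  rw [Loc.w_apply, map_sub, map_pow, l.ι_σ]
  exact l.σh_res _ ha

theorem Loc.w_res (l : Loc Ω v) {a : Ω} (ha : l.w a ≤ 1) : ∃ c : Kb k Ω, l.w (a - c) < 1 := by
  obtain ⟨c, hc⟩ := l.Λ_res _ ha
  exact ⟨c, by rwa [Loc.w_apply, map_sub]⟩

end places

variable [IsSepClosure (RatFunc k) Ω]

section places

variable {v : Pl k}

theorem galloc_split (l : Loc Ω v) {p : (Kb k Ω)[X]} (hp : p ≠ 0) :
    l.w (aeval (tt k Ω) p) = (p.roots.map fun a : Kb k Ω => l.w (tt k Ω - a)).prod := by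
  have h1 : l.w (algebraMap (Kb k Ω) Ω p.leadingCoeff) = 1 :=
    l.w_const _ (leadingCoeff_ne_zero.2 hp)
  conv_lhs => rw [(IsAlgClosed.splits p).eq_prod_roots]
  rw [map_mul, map_mul, aeval_C, h1, one_mul, map_multiset_prod, map_multiset_prod,
    Multiset.map_map, Multiset.map_map]
  congr 1
  refine Multiset.map_congr rfl fun a _ => ?_
  simp

omit [IsSepClosure (RatFunc k) Ω] in
theorem galloc_fix {x : Kb k Ω} (m : ℕ) : (frob k Ω ^ m) x = x ↔ (minpoly k x).natDegree ∣ m := by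
  have hx : IsIntegral k x := Algebra.IsIntegral.isIntegral x
  rw [(minpoly.irreducible hx).natDegree_dvd_iff_dvd_X_pow_card_pow_sub_X, minpoly.dvd_iff,
    frob_pow_apply, Nat.card_eq_fintype_card, map_sub, map_pow, aeval_X, sub_eq_zero]

omit [IsSepClosure (RatFunc k) Ω] in
theorem galloc_inj {x : Kb k Ω} {i j : ℕ} (hi : i < (minpoly k x).natDegree)
    (hj : j < (minpoly k x).natDegree) (h : (frob k Ω ^ i) x = (frob k Ω ^ j) x) : i = j := by
  wlog hij : i ≤ j generalizing i j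
  · exact (this hj hi h.symm (by omega)).symm
  obtain ⟨m, rfl⟩ := Nat.exists_eq_add_of_le hij
  rw [pow_add, AlgEquiv.mul_apply] at h
  have h1 := (galloc_fix m).1 ((frob k Ω ^ i).injective h).symm
  have := Nat.eq_zero_of_dvd_of_lt h1 (by omega)
  omega

omit [IsSepClosure (RatFunc k) Ω] in
theorem galloc_min {p : {p : k[X] // p.Monic ∧ Irreducible p}} (l : Loc Ω (some p)) :
    p.1 = minpoly k l.x :=
  minpoly.eq_of_irreducible_of_monic p.2.2 (l.root p rfl) p.2.1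

theorem Loc.w_poly (l : Loc Ω v) (hv : v ≠ none) {p : (Kb k Ω)[X]} (hp : p ≠ 0) :
    l.w (aeval (tt k Ω) p) = 2 ^ (-(p.rootMultiplicity l.x : ℤ)) := by
  rw [galloc_split l hp, ← count_roots]
  generalize p.roots = s
  induction s using Multiset.induction_on with
  | empty => simp
  | cons a s ih =>
    rw [Multiset.map_cons, Multiset.prod_cons, ih]
    by_cases ha : a = l.x
    · obtain ⟨p, rfl⟩ := Option.ne_none_iff_exists'.1 hv
      have h1 : l.w (tt k Ω - l.x) = 2⁻¹ := l.w_unif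
      rw [ha, h1, Multiset.count_cons_self]
      push_cast
      rw [neg_add, zpow_add₀ two_ne_zero, zpow_neg_one, mul_comm]
    · rw [l.w_lin hv ha, one_mul, Multiset.count_cons_of_ne (Ne.symm ha)]

theorem Loc.w_poly_inf (l : Loc Ω (none : Pl k)) {p : (Kb k Ω)[X]} (hp : p ≠ 0) :
    l.w (aeval (tt k Ω) p) = 2 ^ (p.natDegree : ℤ) := by
  have h1 : l.w (tt k Ω) = 2 := by
    have h : l.w (tt k Ω)⁻¹ = 2⁻¹ := l.w_unif
    rwa [map_inv₀, inv_inj] at h
  have h2 : ∀ a : Kb k Ω, l.w (tt k Ω - a) = 2 := fun a => by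
    by_cases ha : a = 0
    · simp [ha, h1]
    · have h3 : l.w (-(a : Ω)) = 1 := by
        rw [AbsoluteValue.map_neg]
        exact l.w_const _ ha
      rw [sub_eq_add_neg, l.w_na.add_eq_left_of_lt (by rw [h1, h3]; norm_num), h1]
  rw [galloc_split l hp, (IsAlgClosed.splits p).natDegree_eq_card_roots]
  simp [h2]

theorem Loc.kum_tau (h6 : (6 : k) ≠ 0) (l : Loc Ω v) {r : Ω} (hr : r ≠ 0)
    (hf : gal l.τ (r ^ 2) = r ^ 2) {n : ℤ} (hn : l.w (r ^ 2) = 2 ^ (-n)) :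
    kum r (gal l.τ) = (n : F2) := by
  have h2 : (2 : Ω) ≠ 0 := GalKum_two h6
  obtain ⟨s, hs⟩ : ∃ s : Ω, s ^ 2 = unif v l.x := ⟨_, sqr_spec h6 _⟩
  have hw : l.w (s ^ 2) = 2⁻¹ := hs ▸ l.w_unif
  have hs0 : s ≠ 0 := by
    rintro rfl
    simp at hw
  have hτ := l.kummer s hs
  obtain ⟨u, rfl⟩ : ∃ u, r = u * s ^ n := ⟨r / s ^ n, (div_mul_cancel₀ _ (zpow_ne_zero _ hs0)).symm⟩
  have hu0 : u ≠ 0 := left_ne_zero_of_mul hr
  have e3 : (s ^ n) ^ 2 = (s ^ 2) ^ n := by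
    rw [← zpow_natCast, ← zpow_natCast, ← zpow_mul, ← zpow_mul, mul_comm]
  have hu : l.w u = 1 := by
    rw [mul_pow, e3, map_mul, map_zpow₀, hw, inv_zpow', map_pow,
      mul_eq_right₀ (zpow_ne_zero _ two_ne_zero)] at hn
    exact (pow_eq_one_iff_of_nonneg (l.w.nonneg u) two_ne_zero).1 hn
  have hf' : gal l.τ (u ^ 2) = u ^ 2 := by
    have h1 : gal l.τ (s ^ 2) = s ^ 2 := by rw [map_pow, hτ, neg_sq]
    rw [mul_pow, e3, map_mul, map_zpow₀, h1] at hf
    exact mul_right_cancel₀ (zpow_ne_zero _ (pow_ne_zero _ hs0)) hf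
  have hτu : gal l.τ u = u := by
    rw [map_pow] at hf'
    refine (sq_eq_sq_iff_eq_or_eq_neg.1 hf').resolve_right fun h1 => ?_
    have h3 := l.τ_res hu.le
    have h4 : algebraMap k (Kb k Ω) 2 ≠ 0 := (_root_.map_ne_zero _).2 (two_ne_of_six h6)
    have h5 : l.w (algebraMap k Ω 2) = 1 := l.w_const _ h4
    rw [map_ofNat] at h5
    rw [h1, show -u - u = -(2 * u) by ring, l.w.map_neg, map_mul, hu, mul_one] at h3
    exact h3.ne h5
  refine kum_eq h6 hr ?_
  have e : (-1 : Ω) ^ n = (-1) ^ (n : F2).val := by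
    rw [← zpow_natCast, ZMod.val_intCast]
    conv_lhs => rw [← Int.mul_ediv_add_emod n (2 : ℕ), zpow_add₀ (neg_ne_zero.2 one_ne_zero),
      zpow_mul, zpow_natCast, neg_one_sq, one_zpow, one_mul]
  rw [map_mul, map_zpow₀, hτu, hτ, neg_eq_neg_one_mul s, mul_zpow, e]
  ring

/-- every constant is conjugate to the chosen point of a finite place -/
theorem exists_place (ℓ : Locs k Ω) (y : Kb k Ω) :
    ∃ (v : Pl k) (i : ℕ), v ≠ none ∧ i < pdg v ∧ y = (frob k Ω ^ i) (ℓ v).x := by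
  have hy : IsIntegral k y := Algebra.IsIntegral.isIntegral y
  let p : {p : k[X] // p.Monic ∧ Irreducible p} :=
    ⟨minpoly k y, minpoly.monic hy, minpoly.irreducible hy⟩
  have hp : minpoly k y = minpoly k (ℓ (some p)).x := galloc_min (ℓ (some p))
  have hd : pdg (some p) = (minpoly k (ℓ (some p)).x).natDegree := congrArg natDegree hp
  refine ⟨some p, ?_⟩
  rw [hd]
  generalize (ℓ (some p)).x = x at hp
  have h0 : minpoly k x ≠ 0 := hp ▸ minpoly.ne_zero hy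
  have h1 : (Finset.range (minpoly k x).natDegree).image (fun i => (frob k Ω ^ i) x) =
      ((minpoly k x).aroots (Kb k Ω)).toFinset := by
    refine Finset.eq_of_subset_of_card_le (fun z hz => ?_) ?_
    · obtain ⟨i, -, rfl⟩ := Finset.mem_image.1 hz
      rw [Multiset.mem_toFinset, mem_aroots]
      exact ⟨h0, by rw [aeval_algHom_apply, minpoly.aeval, map_zero]⟩
    · rw [Finset.card_image_of_injOn fun i hi j hj h =>
        galloc_inj (Finset.mem_range.1 hi) (Finset.mem_range.1 hj) h, Finset.card_range]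
      exact (Multiset.toFinset_card_le _).trans ((card_roots' _).trans natDegree_map_le)
  have h2 : y ∈ ((minpoly k x).aroots (Kb k Ω)).toFinset := by
    rw [Multiset.mem_toFinset, mem_aroots]
    exact ⟨h0, hp ▸ minpoly.aeval k y⟩
  rw [← h1] at h2
  obtain ⟨i, hi, rfl⟩ := Finset.mem_image.1 h2
  exact ⟨i, Option.some_ne_none _, Finset.mem_range.1 hi, rfl⟩

theorem place_unique (ℓ : Locs k Ω) {v v' : Pl k} (hv : v ≠ none) (hv' : v' ≠ none) {i i' : ℕ}
    (hi : i < pdg v) (hi' : i' < pdg v')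
    (h : (frob k Ω ^ i) (ℓ v).x = (frob k Ω ^ i') (ℓ v').x) : v = v' ∧ i = i' := by
  obtain ⟨p, rfl⟩ := Option.ne_none_iff_exists'.1 hv
  obtain ⟨p', rfl⟩ := Option.ne_none_iff_exists'.1 hv'
  have h1 := congrArg (minpoly k) h
  rw [minpoly.algEquiv_eq, minpoly.algEquiv_eq, ← galloc_min, ← galloc_min] at h1
  obtain rfl : p = p' := Subtype.ext h1
  have hd : pdg (some p) = (minpoly k (ℓ (some p)).x).natDegree :=
    congrArg natDegree (galloc_min (ℓ (some p)))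
  exact ⟨rfl, galloc_inj (hd ▸ hi) (hd ▸ hi') h⟩

theorem frob_pdg (l : Loc Ω v) (hv : v ≠ none) : (frob k Ω ^ pdg v) l.x = l.x := by
  obtain ⟨p, rfl⟩ := Option.ne_none_iff_exists'.1 hv
  rw [galloc_fix, ← galloc_min]
  rfl

end places

end

end Pool.Agent.Quad
end

-- merged part: Pool.Agent.Work.MP_60d5ce_nt.Qt.ChebP
section
/-!
# Counting monic irreducible polynomials over a finite field
-/

namespace Pool.Agent.Quad

open scoped Classical
open Polynomial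

variable {k : Type} [Field k] [Fintype k]

theorem chebp_sum (e : ℕ) (he : 0 < e) : ∃ S : Finset k[X],
    (∀ p, p ∈ S ↔ p.Monic ∧ Irreducible p ∧ p.natDegree ∣ e) ∧
      ∑ p ∈ S, p.natDegree = Fintype.card k ^ e := by
  have h1 : 1 < Fintype.card k := Fintype.one_lt_card
  have h0 : (X ^ Fintype.card k ^ e - X : k[X]) ≠ 0 :=
    FiniteField.X_pow_card_pow_sub_X_ne_zero k he.ne' h1
  have hd : (X ^ Fintype.card k ^ e - X : k[X]).natDegree = Fintype.card k ^ e :=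
    FiniteField.X_pow_card_pow_sub_X_natDegree_eq k he.ne' h1
  have hsep : (X ^ Fintype.card k ^ e - X : k[X]).Separable := by
    obtain ⟨p, hp⟩ := CharP.exists k
    obtain ⟨n, hpp, hn⟩ := FiniteField.card k p
    refine galois_poly_separable p _ ?_
    rw [hn]
    exact dvd_pow (dvd_pow_self p n.ne_zero) he.ne'
  have hnd := (UniqueFactorizationMonoid.squarefree_iff_nodup_normalizedFactors h0).1
    hsep.squarefree
  refine ⟨⟨_, hnd⟩, fun p => ?_, ?_⟩
  · rw [Finset.mem_mk, Polynomial.mem_normalizedFactors_iff h0]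
    constructor
    · rintro ⟨a, b, c⟩
      refine ⟨b, a, ?_⟩
      rw [a.natDegree_dvd_iff_dvd_X_pow_card_pow_sub_X, Nat.card_eq_fintype_card]
      exact c
    · rintro ⟨b, a, c⟩
      refine ⟨a, b, ?_⟩
      rwa [a.natDegree_dvd_iff_dvd_X_pow_card_pow_sub_X, Nat.card_eq_fintype_card] at c
  · refine Eq.trans ?_ hd
    rw [Finset.sum_mk, ← natDegree_multiset_prod _
      (UniqueFactorizationMonoid.zero_notMem_normalizedFactors _)]
    exact natDegree_eq_of_degree_eq (degree_eq_degree_of_associated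
      (UniqueFactorizationMonoid.prod_normalizedFactors h0))

theorem chebp_le (d : ℕ) (T : Finset k[X])
    (hT : ∀ p ∈ T, p.Monic ∧ Irreducible p ∧ p.natDegree = d) :
    d * T.card ≤ Fintype.card k ^ d := by
  rcases Nat.eq_zero_or_pos d with rfl | hd
  · simp
  obtain ⟨S, hS, hs⟩ := chebp_sum (k := k) d hd
  rw [← hs, mul_comm, ← smul_eq_mul, ← Finset.sum_const,
    ← Finset.sum_congr rfl fun p hp => (hT p hp).2.2]
  exact Finset.sum_le_sum_of_subset fun p hp =>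
    (hS p).2 ⟨(hT p hp).1, (hT p hp).2.1, (hT p hp).2.2 ▸ dvd_rfl⟩

theorem chebp_card (d : ℕ) : ∃ T : Finset k[X],
    (∀ p, p ∈ T ↔ p.Monic ∧ Irreducible p ∧ p.natDegree = d) ∧
      {v : Pl k | pdg v = d ∧ v ≠ none}.ncard = T.card := by
  have hf : {v : Pl k | pdg v = d ∧ v ≠ none}.Finite := (pdg_fin d).subset fun v hv => hv.1
  let f : Pl k → k[X] := fun v => v.elim 0 Subtype.val
  have hinj : Set.InjOn f {v : Pl k | pdg v = d ∧ v ≠ none} := by
    intro v hv v' hv' h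
    obtain ⟨p, rfl⟩ := Option.ne_none_iff_exists'.1 hv.2
    obtain ⟨p', rfl⟩ := Option.ne_none_iff_exists'.1 hv'.2
    exact congrArg some (Subtype.ext h)
  refine ⟨(hf.image f).toFinset, fun p => ?_, ?_⟩
  · rw [Set.Finite.mem_toFinset]
    constructor
    · rintro ⟨v, hv, rfl⟩
      obtain ⟨p, rfl⟩ := Option.ne_none_iff_exists'.1 hv.2
      exact ⟨p.2.1, p.2.2, hv.1⟩
    · rintro ⟨a, b, c⟩
      exact ⟨some ⟨p, a, b⟩, ⟨c, Option.some_ne_none _⟩, rfl⟩
  · rw [← Set.ncard_eq_toFinset_card _ (hf.image f), hinj.ncard_image]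

theorem chebp_geom {q : ℕ} (hq : 2 ≤ q) (m : ℕ) : ∑ d ∈ Finset.range (m + 1), q ^ d ≤ 2 * q ^ m := by
  induction m with
  | zero => simp
  | succ m ih =>
    rw [Finset.sum_range_succ, pow_succ]
    nlinarith [Nat.zero_le (q ^ m)]

theorem chebp_upper (e : ℕ) :
    e * {v : Pl k | pdg v = e ∧ v ≠ none}.ncard ≤ Fintype.card k ^ e := by
  obtain ⟨T, hT, h⟩ := chebp_card (k := k) e
  rw [h]
  exact chebp_le e T fun p hp => (hT p).1 hp

theorem chebp_lower (e : ℕ) (he : 0 < e) : Fintype.card k ^ e ≤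
    e * {v : Pl k | pdg v = e ∧ v ≠ none}.ncard + 2 * Fintype.card k ^ ((e + 1) / 2) := by
  obtain ⟨T, hT, h⟩ := chebp_card (k := k) e
  obtain ⟨S, hS, hs⟩ := chebp_sum (k := k) e he
  have h1 : 1 < Fintype.card k := Fintype.one_lt_card
  rw [h, ← hs, ← Finset.sum_filter_add_sum_filter_not S fun p => p.natDegree = e]
  refine add_le_add (le_of_eq ?_) ?_
  · have : S.filter (fun p => p.natDegree = e) = T := by
      ext p
      rw [Finset.mem_filter, hS, hT]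
      exact ⟨fun h => ⟨h.1.1, h.1.2.1, h.2⟩, fun h => ⟨⟨h.1, h.2.1, h.2.2 ▸ dvd_rfl⟩, h.2.2⟩⟩
    rw [this, Finset.sum_congr rfl fun p hp => ((hT p).1 hp).2.2, Finset.sum_const, smul_eq_mul,
      mul_comm]
  · rw [← Finset.sum_fiberwise_of_maps_to (t := Finset.range (e / 2 + 1)) (g := natDegree)]
    · refine (Finset.sum_le_sum fun d _ => ?_).trans ((chebp_geom h1 (e / 2)).trans
        (Nat.mul_le_mul_left 2 (Nat.pow_le_pow_right h1.le (by omega))))
      rw [Finset.sum_congr rfl fun p hp => (Finset.mem_filter.1 hp).2, Finset.sum_const,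
        smul_eq_mul, mul_comm]
      refine chebp_le d _ fun p hp => ?_
      obtain ⟨hp1, hp2⟩ := Finset.mem_filter.1 hp
      have := (hS p).1 (Finset.mem_filter.1 hp1).1
      exact ⟨this.1, this.2.1, hp2⟩
    · intro p hp
      obtain ⟨hp1, hp2⟩ := Finset.mem_filter.1 hp
      obtain ⟨c, hc⟩ := ((hS p).1 hp1).2.2
      rw [Finset.mem_range, Nat.lt_succ_iff, Nat.le_div_iff_mul_le two_pos]
      have : 2 ≤ c := by
        rcases c with _ | _ | c
        · omega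
        · omega
        · omega
      rw [hc]
      exact Nat.mul_le_mul_left _ this

end Pool.Agent.Quad
end

-- merged part: Pool.Agent.Work.MP_60d5ce_nt.Qt.RecipA
section
/-!
# Characters of the Weil group: existence, uniqueness, finiteness

Hints.
* `ord_conj`: `kum r (g⁻¹ τ g) = kum (g r) τ`, then `Loc.kum_tau`.
* `uniq_geom`: `exists_kummer` gives `r ^ 2 = jK b`; for a constant `y = frob ^ i x_v`
  (`exists_place`) and `g = φ ^ (-i)`, `Loc.kum_tau` and `Loc.w_poly` show that two divides the order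
  of `b` at `y`; so `b` is a constant times a square, constants are squares, `r ∈ jK`-range.
* `tau_fin`: `U` contains the fixer of a finite set; for `a` in it, the minimal polynomial over
  `RatFunc k` has integral coefficients and its roots have differences of size one at all places
  outside a finite set (a nonzero element of `RatFunc k` has size one at almost all places; use the
  product of the differences of the roots, or Bezout `u f + v f' = 1`), and `w (τ a - a) < 1`.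
-/

namespace Pool.Agent.Quad

open Polynomial

theorem RecipA_square {K : Type} [Field K] [IsAlgClosed K] (p : K[X])
    (h : ∀ y, 2 ∣ p.rootMultiplicity y) : ∃ s, p = s ^ 2 := by
  classical
  obtain ⟨u, hu⟩ := Multiset.exists_smul_of_dvd_count p.roots (k := 2) fun a _ => by
    rw [count_roots]
    exact h a
  obtain ⟨d, hd⟩ := IsAlgClosed.exists_pow_nat_eq p.leadingCoeff (n := 2) (by norm_num)
  refine ⟨C d * (u.map fun a => X - C a).prod, ?_⟩
  rw [mul_pow, ← map_pow, hd, ← Multiset.prod_nsmul, ← Multiset.map_nsmul, ← hu]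
  exact (IsAlgClosed.splits p).eq_prod_roots

theorem RecipA_sum {Ω ι : Type} [Field Ω] {w : AbsoluteValue Ω ℝ} (hw : IsNonarchimedean w)
    (s : Finset ι) (f : ι → Ω) {B : ℝ} (hB : 0 < B) (h : ∀ i ∈ s, w (f i) < B) :
    w (∑ i ∈ s, f i) < B := by
  classical
  induction s using Finset.induction_on with
  | empty => simpa using hB
  | insert i s hi ih =>
    rw [Finset.sum_insert hi]
    exact (hw _ _).trans_lt (max_lt (h i (Finset.mem_insert_self _ _))
      (ih fun j hj => h j (Finset.mem_insert_of_mem hj)))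

variable {k : Type} [Field k] [Fintype k] {Ω : Type} [Field Ω] [Algebra (RatFunc k) Ω]
  [Algebra k Ω] [IsScalarTower k (RatFunc k) Ω] [IsSepClosure (RatFunc k) Ω]

omit [Fintype k] [Algebra k Ω] [IsScalarTower k (RatFunc k) Ω] [IsSepClosure (RatFunc k) Ω] in
theorem RecipA_congr {r s : Ω} {g g' : Gam k Ω} (h : g r = r ↔ g' s = s) : kum r g = kum s g' := by
  classical
  unfold kum
  by_cases h1 : g' s = s
  · rw [if_pos h1, if_pos (h.2 h1)]
  · rw [if_neg h1, if_neg (mt h.1 h1)]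

theorem ord_conj (h6 : (6 : k) ≠ 0) {v : Pl k} (l : Loc Ω v) {r : Ω}
    {b : RatFunc (Kb k Ω)} (hr : r ≠ 0) (hb : r ^ 2 = jK k Ω b) (g : WG k Ω) {n : ℤ}
    (hn : l.w (gal g (r ^ 2)) = 2 ^ (-n)) : kum r (gal (g⁻¹ * l.τ * g)) = (n : F2) := by
    obtain ⟨b', hb'⟩ := gal_jK g b
    have h1 : gal g r ≠ 0 := (_root_.map_ne_zero _).2 hr
    have h2 : gal l.τ (gal g r ^ 2) = gal g r ^ 2 := by
      rw [← map_pow, hb, hb', geom_fix l.deg_τ]
    have h3 := kum_spec h6 h1 h2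
    rw [l.kum_tau h6 h1 h2 (by rwa [← map_pow])] at h3
    refine kum_eq h6 hr ?_
    rw [map_mul, map_mul, AlgEquiv.mul_apply, AlgEquiv.mul_apply, h3, map_mul, map_pow, map_neg,
      map_one, ← AlgEquiv.mul_apply, ← map_mul, inv_mul_cancel, map_one, AlgEquiv.one_apply]

theorem kum_hom (h6 : (6 : k) ≠ 0) (ℓ : Locs k Ω) {r : Ω} {a : RatFunc k} (hr : r ≠ 0)
    (ha : r ^ 2 = algebraMap (RatFunc k) Ω a) : (pre ℓ).IsHom fun g => kum r (gal g) := by
    obtain ⟨b, hb⟩ := jK_range (Ω := Ω) a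
    obtain ⟨U, hU, h⟩ := adm_kum h6 (ha.trans hb.symm)
    have h3 : ∀ g : Gam k Ω, g (r ^ 2) = r ^ 2 := fun g => by rw [ha, AlgEquiv.commutes]
    refine ⟨⟨U, hU, fun g u hu => ?_⟩, fun g g' => ?_⟩
    · refine RecipA_congr ?_
      rw [map_mul, AlgEquiv.mul_apply, h u hu]
    · simp only [map_mul]
      exact kum_mul h6 hr (h3 _) (h3 _)

theorem deg_hom (ℓ : Locs k Ω) (c : F2) : (pre ℓ).IsHom fun g => (wdeg g : F2) * c := by
  refine ⟨⟨_, adm_WG0, fun g u hu => ?_⟩, fun g g' => ?_⟩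
  · simp only [wdeg_mul, mem_WG0.1 hu, add_zero]
  · simp only [wdeg_mul, Int.cast_add, add_mul]

theorem RecipA_sqr (h6 : (6 : k) ≠ 0) {p : k[X]} (hp : p ≠ 0) :
    sqr (aeval (tt k Ω) p) ≠ 0 ∧ sqr (aeval (tt k Ω) p) ^ 2 = aeval (tt k Ω) p := by
    have h := sqr_spec (k := k) h6 (aeval (tt k Ω) p)
    refine ⟨fun h0 => ?_, h⟩
    rw [h0, zero_pow two_ne_zero, aeval_tt_base] at h
    exact (_root_.map_ne_zero _).2 (RatFunc.algebraMap_ne_zero hp) h.symm

theorem RecipA_chi_tau (h6 : (6 : k) ≠ 0) (ℓ : Locs k Ω)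
    (p : {p : k[X] // p.Monic ∧ Irreducible p}) {w : Pl k} (hw : w ≠ none) :
    chi ℓ (some p) (ℓ w).τ =
      ((p.1.map (algebraMap k (Kb k Ω))).rootMultiplicity (ℓ w).x : ℤ) := by
  obtain ⟨h1, h2⟩ := RecipA_sqr (Ω := Ω) h6 p.2.1.ne_zero
  simp only [chi, (ℓ w).deg_τ, Int.cast_zero, zero_mul, sub_zero]
  refine (ℓ w).kum_tau h6 h1 (by rw [h2, aeval_tt_base, AlgEquiv.commutes]) ?_
  rw [h2, ← aeval_tt_map]
  exact (ℓ w).w_poly hw (Polynomial.map_ne_zero p.2.1.ne_zero)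

theorem chi_hom (h6 : (6 : k) ≠ 0) (ℓ : Locs k Ω) (v : Pl k) :
    (pre ℓ).IsHom (chi ℓ v) := by
  cases v with
  | none => exact ⟨⟨_, adm_WG0, fun _ _ _ => rfl⟩, fun _ _ => (add_zero _).symm⟩
  | some p =>
    obtain ⟨h1, h2⟩ := RecipA_sqr (Ω := Ω) h6 p.2.1.ne_zero
    obtain ⟨⟨U, hU, a1⟩, a2⟩ := kum_hom h6 ℓ h1 (h2.trans (aeval_tt_base _))
    refine ⟨⟨U, hU, fun g u hu => ?_⟩, fun g g' => ?_⟩
    · have h3 : wdeg u = 0 := hU.2.1 u hu
      have h4 := a1 g u hu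
      simp only [chi, wdeg_mul, h3, add_zero] at h4 ⊢
      rw [h4]
    · have h4 := a2 g g'
      simp only [chi, wdeg_mul, Int.cast_add] at h4 ⊢
      rw [h4]
      ring

theorem chi_self (h6 : (6 : k) ≠ 0) (ℓ : Locs k Ω) (v : Pl k) (hv : v ≠ none) :
    chi ℓ v (ℓ v).τ = 1 := by
  obtain ⟨p, rfl⟩ := Option.ne_none_iff_exists'.1 hv
  have h1 := rootMultiplicity_le_one_of_separable
    ((PerfectField.separable_of_irreducible p.2.2).map (f := algebraMap k (Kb k Ω))) (ℓ (some p)).x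
  have h2 := (rootMultiplicity_pos (Polynomial.map_ne_zero (f := algebraMap k (Kb k Ω))
    p.2.1.ne_zero) (x := (ℓ (some p)).x)).2 (by
      rw [IsRoot, eval_map_algebraMap]
      exact (ℓ (some p)).root p rfl)
  rw [RecipA_chi_tau h6 ℓ p hv, le_antisymm h1 h2]
  rfl

theorem chi_ne (h6 : (6 : k) ≠ 0) (ℓ : Locs k Ω) (v w : Pl k) (h : w ≠ v) (hw : w ≠ none) :
    chi ℓ v (ℓ w).τ = 0 := by
  cases v with
  | none => rfl
  | some p =>
    rw [RecipA_chi_tau h6 ℓ p hw, rootMultiplicity_eq_zero]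
    · rfl
    · obtain ⟨p', rfl⟩ := Option.ne_none_iff_exists'.1 hw
      rw [IsRoot, eval_map_algebraMap]
      exact fun h0 => h (congrArg some (Subtype.ext ((galloc_min _).trans
        (minpoly.eq_of_irreducible_of_monic p.2.2 h0 p.2.1).symm)))

theorem chi_inf (ℓ : Locs k Ω) (v : Pl k) : chi ℓ v (ℓ none).σ = 0 := by
  cases v with
  | none => rfl
  | some p => simp [chi, (ℓ none).deg_σ, pdg]

theorem RecipA_deg (ℓ : Locs k Ω) (i : ℤ) : wdeg ((ℓ none).σ ^ i) = i := by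
  rw [wdeg_zpow, (ℓ none).deg_σ]
  exact mul_one i

theorem uniq_geom (h6 : (6 : k) ≠ 0) (ℓ : Locs k Ω) (h : WG k Ω → F2)
    (hh : ∀ g g', wdeg g = 0 → wdeg g' = 0 → h (g * g') = h g + h g') {U : Subgroup (WG k Ω)}
    (hU : Adm U) (hs : ∀ u ∈ U, h u = 0)
    (h0 : ∀ v, v ≠ none → ∀ i : ℤ, h ((ℓ none).σ ^ i * (ℓ v).τ * (ℓ none).σ ^ (-i)) = 0) :
    ∀ g, wdeg g = 0 → h g = 0 := by
    obtain ⟨r0, b, hr0, hb, hk0⟩ := exists_kummer h6 h hh hU hs
    have hfix : ∀ g : WG k Ω, wdeg g = 0 → ∀ p : (Kb k Ω)[X],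
        gal g (aeval (tt k Ω) p) = aeval (tt k Ω) p := fun g hg p => by
      rw [← jK_poly, geom_fix hg]
    have hd : aeval (tt k Ω) b.denom ≠ 0 :=
      (map_ne_zero_iff _ (aeval_tt_injective k Ω)).2 b.denom_ne_zero
    obtain ⟨r, p, hr, hp, hk⟩ : ∃ (r : Ω) (p : (Kb k Ω)[X]), r ≠ 0 ∧ r ^ 2 = aeval (tt k Ω) p ∧
        ∀ g, wdeg g = 0 → kum r (gal g) = h g := by
      refine ⟨r0 * aeval (tt k Ω) b.denom, b.num * b.denom, mul_ne_zero hr0 hd, ?_,
        fun g hg => ?_⟩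
      · rw [mul_pow, hb, jK_div, map_mul]
        field_simp
      · rw [← hk0 g hg]
        refine RecipA_congr ?_
        rw [map_mul, hfix g hg, mul_left_inj' hd]
    have hp0 : p ≠ 0 := by
      rintro rfl
      exact pow_ne_zero 2 hr (hp.trans (map_zero _))
    obtain ⟨s, rfl⟩ := RecipA_square p fun y => by
      obtain ⟨v, i, hv, -, rfl⟩ := exists_place ℓ y
      have h1 := ord_conj h6 (ℓ v) hr (hp.trans (jK_poly k Ω p).symm) ((ℓ none).σ ^ (-(i : ℤ)))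
        (by rw [hp, gal_aeval]; exact (ℓ v).w_poly hv (Polynomial.map_ne_zero hp0))
      rw [hk _ (by rw [wdeg_mul, wdeg_mul, wdeg_inv, (ℓ v).deg_τ]; ring), ← zpow_neg, neg_neg,
        h0 v hv, RecipA_deg] at h1
      rw [eq_rootMultiplicity_map (f := ((frob k Ω ^ (-(i : ℤ)) : Kb k Ω ≃ₐ[k] Kb k Ω) :
        Kb k Ω →+* Kb k Ω)) (RingHom.injective _), RingHom.coe_coe, ← AlgEquiv.mul_apply,
        ← zpow_natCast, ← zpow_add, neg_add_cancel, zpow_zero, AlgEquiv.one_apply]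
      exact Int.natCast_dvd_natCast.1 ((ZMod.intCast_zmod_eq_zero_iff_dvd _ 2).1 h1.symm)
    intro g hg
    rw [map_pow] at hp
    rw [← hk g hg, kum_congr hp, kum_eq_zero_iff, hfix g hg]

theorem uniq_hom (h6 : (6 : k) ≠ 0) (ℓ : Locs k Ω) (h : WG k Ω → F2)
    (hh : (pre ℓ).IsHom h) (h0 : ∀ v, v ≠ none → h (ℓ v).τ = 0) (h1 : h (ℓ none).σ = 0) :
    h = 0 := by
  obtain ⟨⟨U, hU, a1⟩, a2⟩ := hh
  have h2 : h 1 = 0 := by simpa using a2 1 1
  have h3 : ∀ i : ℤ, h ((ℓ none).σ ^ i) = 0 := fun i => by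
    have := map_zpow (MonoidHom.mk' (fun g => Multiplicative.ofAdd (h g))
      fun g g' => congrArg Multiplicative.ofAdd (a2 g g')) (ℓ none).σ i
    simpa [h1] using this
  have h4 := uniq_geom h6 ℓ h (fun g g' _ _ => a2 g g') hU
    (fun u hu => by rw [← h2, ← a1 1 u hu, one_mul])
    fun v hv i => by rw [a2, a2, h3, h3, h0 v hv, add_zero, add_zero]
  funext g
  have h5 := h4 (g * (ℓ none).σ ^ (-wdeg g)) (by rw [wdeg_mul, RecipA_deg, add_neg_cancel])
  rwa [a2, h3, add_zero] at h5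

theorem RecipA_int0 (ℓ : Locs k Ω) (b : RatFunc k) :
    {v | ¬ (ℓ v).w (algebraMap (RatFunc k) Ω b) ≤ 1}.Finite := by
  refine (((Set.finite_le_nat b.denom.natDegree).biUnion fun e _ => pdg_fin (k := k) e).insert
    none).subset fun v hv => ?_
  by_contra hc
  rw [Set.mem_insert_iff, not_or] at hc
  obtain ⟨p, rfl⟩ := Option.ne_none_iff_exists'.1 hc.1
  refine hv ?_
  rw [← b.num_div_denom, map_div₀, map_div₀, ← aeval_tt_base, ← aeval_tt_base, ← aeval_tt_map,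
    ← aeval_tt_map b.denom, (ℓ _).w_poly hc.1 (Polynomial.map_ne_zero b.denom_ne_zero),
    rootMultiplicity_eq_zero, Nat.cast_zero, neg_zero, zpow_zero, div_one]
  · by_cases h0 : b.num = 0
    · simp [h0]
    · rw [(ℓ _).w_poly hc.1 (Polynomial.map_ne_zero h0)]
      exact zpow_le_one_of_nonpos₀ one_le_two (by simp)
  · rw [IsRoot, eval_map_algebraMap]
    refine fun h0 => hc.2 (Set.mem_biUnion (x := p.1.natDegree) ?_ rfl)
    refine natDegree_le_of_dvd ?_ b.denom_ne_zero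
    rw [galloc_min (ℓ (some p))]
    exact minpoly.dvd _ _ h0

theorem RecipA_int (ℓ : Locs k Ω) (c : Ω) : {v | ¬ (ℓ v).w c ≤ 1}.Finite := by
  have : Algebra.IsSeparable (RatFunc k) Ω := IsSepClosure.separable
  have hc : IsIntegral (RatFunc k) c := Algebra.IsIntegral.isIntegral c
  refine ((Finset.range (minpoly (RatFunc k) c).natDegree).finite_toSet.biUnion
    fun i _ => RecipA_int0 ℓ ((minpoly (RatFunc k) c).coeff i)).subset fun v hv => ?_
  by_contra hn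
  have h1 : 1 < (ℓ v).w c := not_le.1 hv
  have h2 := minpoly.aeval (RatFunc k) c
  rw [(minpoly.monic hc).as_sum, map_add, map_pow, aeval_X, map_sum, add_eq_zero_iff_eq_neg] at h2
  have h3 := congrArg (ℓ v).w h2
  rw [AbsoluteValue.map_neg, map_pow] at h3
  refine (RecipA_sum (ℓ v).w_na _ _ (pow_pos (zero_lt_one.trans h1) _) fun i hi => ?_).ne h3.symm
  rw [map_mul, aeval_C, map_pow, aeval_X, map_mul, map_pow]
  exact (mul_le_of_le_one_left (pow_nonneg ((ℓ v).w.nonneg c) i)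
    (by_contra fun h => hn (Set.mem_biUnion hi h))).trans_lt
    (pow_lt_pow_right₀ h1 (Finset.mem_range.1 hi))

theorem tau_fin (ℓ : Locs k Ω) {U : Subgroup (WG k Ω)} (hU : Adm U) :
    {v | (ℓ v).τ ∉ U}.Finite := by
  obtain ⟨S, hS⟩ := hU.2.2.1
  obtain ⟨S', h1, h2⟩ := exists_stable (k := k) S
  refine (S'.finite_toSet.biUnion fun a _ => (RecipA_int ℓ a).union
    (S'.finite_toSet.biUnion fun a' _ => RecipA_int ℓ (a' - a)⁻¹)).subset fun v hv => ?_
  by_contra hn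
  refine hv (hS _ (ℓ v).deg_τ fun a ha => by_contra fun hne => ?_)
  have h3 : (ℓ v).w a ≤ 1 := by_contra fun h => hn (Set.mem_biUnion (h1 ha) (Or.inl h))
  have h4 : (ℓ v).w (gal (ℓ v).τ a - a)⁻¹ ≤ 1 := by_contra fun h =>
    hn (Set.mem_biUnion (h1 ha) (Or.inr (Set.mem_biUnion (h2 _ a (h1 ha)) h)))
  rw [map_inv₀, inv_le_one₀ ((ℓ v).w.pos (sub_ne_zero.2 hne))] at h4
  exact h4.not_gt ((ℓ v).τ_res h3)

end Pool.Agent.Quad
end

-- merged part: Pool.Agent.Work.MP_60d5ce_nt.Qt.RecipB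
section
/-!
# Reciprocity and the Hasse principle for `F2`-valued 2-cocycles of the Weil group

Hints.  `inv v` kills coboundaries of smooth functions (by `rel`; same computation as `inv_cob` in
`Basic.lean`, redo it here for `pre ℓ`).  By `h2_geom` assume `θ g h = 0` for `g, h ∈ WG0`.  Put
`H g u = θ g u - θ (g u g⁻¹) g` for `u ∈ WG0`: additive in `u`, `H (g g') u = H g (g' u g'⁻¹) + H g' u`,
`H g = 0` for `g ∈ WG0`, so `H g` depends only on the degree of `g`.  With `φ = σ ∞` and `h = H φ`: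
`inv v θ = H (σ v) (τ v) = ∑ i < pdg v, h (φ ^ i * τ v * φ ^ (-i))`.  By `exists_kummer`, `h` is the
Kummer character of `r`, `r ^ 2 = jK b`, and by `ord_conj` the `i`-th term is the order of `b` at
the constant `frob ^ i x_v` (at infinity: degree of the denominator minus degree of the numerator).
`recip`: all orders add up to zero (`exists_place`, `place_unique`).
`hasse`: if the orders add up to zero modulo two over each Frobenius orbit there is a polynomial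
`p` over `Kb` (prescribed orders modulo two) with Kummer character `h'` such that
`h u = h' (φ u φ⁻¹) - h' u` (check on the conjugates of the `τ v`, `uniq_geom`); subtract the
coboundary of `h'` extended by zero, so `h = 0` and `H = 0`; then with `g = u φ ^ n` define
`b (u φ ^ n) = β n - θ u (φ ^ n)` where `β` trivialises `θ` on the powers of `φ`.
-/

namespace Pool.Agent.Quad

section abstract

variable {W : Type} [Group W] {θ : W → W → F2}

theorem RecipB_one_left (hθ : IsCoc2 θ) (g : W) : θ 1 g = θ 1 1 := by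
  have := hθ 1 1 g
  simp only [one_mul] at this
  linear_combination this

theorem RecipB_one_right (hθ : IsCoc2 θ) (g : W) : θ g 1 = θ 1 1 := by
  have := hθ g 1 1
  simp only [mul_one] at this
  linear_combination -this

/-- the conjugation defect of a cocycle -/
def RecipB_H (θ : W → W → F2) (g u : W) : F2 := θ g u - θ (g * u * g⁻¹) g

theorem RecipB_H_add (hθ : IsCoc2 θ) (g u u' : W) (h1 : θ u u' = 0)
    (h2 : θ (g * u * g⁻¹) (g * u' * g⁻¹) = 0) :
    RecipB_H θ g (u * u') = RecipB_H θ g u + RecipB_H θ g u' := by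
  have c1 := hθ g u u'
  have c2 := hθ (g * u * g⁻¹) (g * u' * g⁻¹) g
  have c3 := hθ (g * u * g⁻¹) g u'
  have e1 : g * u * g⁻¹ * (g * u' * g⁻¹) = g * (u * u') * g⁻¹ := by group
  have e2 : g * u' * g⁻¹ * g = g * u' := by group
  have e3 : g * u * g⁻¹ * g = g * u := by group
  rw [e1, e2] at c2
  rw [e3] at c3
  unfold RecipB_H
  linear_combination c1 + c2 - c3 - h1 + h2

theorem RecipB_H_mul (hθ : IsCoc2 θ) (g g' u : W) :
    RecipB_H θ (g * g') u = RecipB_H θ g (g' * u * g'⁻¹) + RecipB_H θ g' u := by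
  have c1 := hθ g g' u
  have c2 := hθ (g * (g' * u * g'⁻¹) * g⁻¹) g g'
  have c3 := hθ g (g' * u * g'⁻¹) g'
  have e1 : g * g' * u * (g * g')⁻¹ = g * (g' * u * g'⁻¹) * g⁻¹ := by group
  have e2 : g * (g' * u * g'⁻¹) * g⁻¹ * g = g * (g' * u * g'⁻¹) := by group
  have e3 : g' * u * g'⁻¹ * g' = g' * u := by group
  rw [e2] at c2
  rw [e3] at c3
  unfold RecipB_H
  rw [e1]
  linear_combination -c1 - c2 + c3

theorem RecipB_H_one (hθ : IsCoc2 θ) (u : W) : RecipB_H θ 1 u = 0 := by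
  unfold RecipB_H
  rw [RecipB_one_left hθ u, RecipB_one_right hθ (1 * u * 1⁻¹), sub_self]

theorem RecipB_H_pow (hθ : IsCoc2 θ) (φ u : W) (n : ℕ) :
    RecipB_H θ (φ ^ n) u =
      ∑ i ∈ Finset.range n, RecipB_H θ φ (φ ^ (i : ℤ) * u * φ ^ (-(i : ℤ))) := by
  induction n with
  | zero => simpa using RecipB_H_one hθ u
  | succ n ih =>
    rw [pow_succ', RecipB_H_mul hθ, ih, Finset.sum_range_succ, add_comm, zpow_neg, zpow_natCast]

theorem RecipB_exists_seq (c : F2) (f : ℤ → F2) :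
    ∃ β : ℤ → F2, β 0 = c ∧ ∀ n, β (n + 1) = β n - f n := by
  refine ⟨fun n => c - ∑ i ∈ Finset.Ico 0 n, f i + ∑ i ∈ Finset.Ico n 0, f i, by simp, fun n => ?_⟩
  beta_reduce
  rcases le_or_gt 0 n with h | h
  · have h1 : Finset.Ico 0 (n + 1) = insert n (Finset.Ico 0 n) := by
      ext i
      simp only [Finset.mem_Ico, Finset.mem_insert]
      omega
    rw [h1, Finset.sum_insert (by simp), Finset.Ico_eq_empty_of_le (a := n + 1) (by omega),
      Finset.Ico_eq_empty_of_le h]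
    ring
  · have h1 : Finset.Ico n 0 = insert n (Finset.Ico (n + 1) 0) := by
      ext i
      simp only [Finset.mem_Ico, Finset.mem_insert]
      omega
    rw [h1, Finset.sum_insert (by simp), Finset.Ico_eq_empty_of_le (b := n + 1) (by omega),
      Finset.Ico_eq_empty_of_le h.le]
    ring

theorem RecipB_cyclic (hθ : IsCoc2 θ) (φ : W) :
    ∃ β : ℤ → F2, ∀ n m : ℤ, θ (φ ^ n) (φ ^ m) = β n + β m - β (n + m) := by
  obtain ⟨β, h0, h1⟩ := RecipB_exists_seq (θ 1 1) fun n => θ (φ ^ n) φ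
  refine ⟨β, fun n m => ?_⟩
  have step : ∀ m : ℤ, θ (φ ^ n) (φ ^ (m + 1)) - (β n + β (m + 1) - β (n + (m + 1))) =
      θ (φ ^ n) (φ ^ m) - (β n + β m - β (n + m)) := fun m => by
    have c := hθ (φ ^ n) (φ ^ m) φ
    rw [← zpow_add, ← zpow_add_one] at c
    rw [← add_assoc n m 1, h1, h1]
    linear_combination c
  induction m using Int.induction_on with
  | zero => rw [zpow_zero, RecipB_one_right hθ, h0, add_zero]; ring
  | succ m ih => linear_combination step m + ih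
  | pred m ih =>
    have := step (-(m : ℤ) - 1)
    rw [sub_add_cancel] at this
    linear_combination ih - this

theorem RecipB_final (hθ : IsCoc2 θ) (u u' a a' : W) (h1 : θ u (a * u' * a⁻¹) = 0)
    (h2 : RecipB_H θ a u' = 0) :
    θ (u * a) (u' * a') = θ a a' - θ u a - θ u' a' + θ (u * (a * u' * a⁻¹)) (a * a') := by
  have c1 := hθ u a (u' * a')
  have c2 := hθ a u' a'
  have c3 := hθ (a * u' * a⁻¹) a a'
  have c4 := hθ u (a * u' * a⁻¹) (a * a')
  have e1 : a * u' * a⁻¹ * a = a * u' := by group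
  have e2 : a * u' * a⁻¹ * (a * a') = a * (u' * a') := by group
  rw [e1] at c3
  rw [e2] at c4
  unfold RecipB_H at h2
  linear_combination -c1 + c2 - c3 + c4 + h1 + h2

theorem RecipB_tel (f : ℕ → F2) (c : F2) {n : ℕ} (hn : 1 ≤ n) :
    ∑ i ∈ Finset.Ico 1 n, (f i + c - f (i + 1)) = f 1 + (n - 1) * c - f n := by
  induction n, hn using Nat.le_induction with
  | base => simp
  | succ n hn ih =>
    rw [Finset.sum_Ico_succ_top hn, ih]
    push_cast
    ring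

theorem RecipB_exists_poly {K : Type} [Field K] (M : K → F2) (hM : {y | M y ≠ 0}.Finite) :
    ∃ p : Polynomial K, p ≠ 0 ∧ ∀ y, (p.rootMultiplicity y : F2) = M y := by
  classical
  have hfin : (Function.support fun y => (M y).val).Finite :=
    hM.subset fun y hy h => hy (by simp only [h]; rfl)
  refine ⟨((Finsupp.toMultiset (Finsupp.ofSupportFinite _ hfin)).map fun a =>
    Polynomial.X - Polynomial.C a).prod, (Polynomial.monic_multiset_prod_of_monic _ _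
      fun a _ => Polynomial.monic_X_sub_C a).ne_zero, fun y => ?_⟩
  rw [← Polynomial.count_roots, Polynomial.roots_multiset_prod_X_sub_C, Finsupp.count_toMultiset,
    Finsupp.ofSupportFinite_coe, ZMod.natCast_zmod_val]

end abstract

variable {k : Type} [Field k] [Fintype k] {Ω : Type} [Field Ω] [Algebra (RatFunc k) Ω]
  [Algebra k Ω] [IsScalarTower k (RatFunc k) Ω] [IsSepClosure (RatFunc k) Ω]

omit [IsSepClosure (RatFunc k) Ω] in
theorem RecipB_conj_deg (g : WG k Ω) {u : WG k Ω} (hu : wdeg u = 0) : wdeg (g * u * g⁻¹) = 0 := by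
  rw [wdeg_mul, wdeg_mul, wdeg_inv, hu]
  ring

omit [IsSepClosure (RatFunc k) Ω] [IsScalarTower k (RatFunc k) Ω] in
theorem RecipB_deg_inf (ℓ : Locs k Ω) : wdeg (ℓ none).σ = 1 := (ℓ none).deg_σ

theorem RecipB_card (h6 : (6 : k) ≠ 0) : (Fintype.card k : F2) = 1 := by
    have h1 := (FiniteField.odd_card_of_char_ne_two fun h => two_ne_of_six h6
      (by exact_mod_cast (ringChar.spec k 2).2 (h ▸ dvd_rfl)))
    rw [← ZMod.natCast_mod, h1, Nat.cast_one]

omit [IsSepClosure (RatFunc k) Ω] in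
/-- subtracting a smooth coboundary -/
theorem RecipB_sub (h6 : (6 : k) ≠ 0) (ℓ : Locs k Ω) {θ : WG k Ω → WG k Ω → F2}
    (hs : (pre ℓ).Sm2 θ) (hθ : IsCoc2 θ) {b : WG k Ω → F2} (hb : (pre ℓ).Sm b) :
    (pre ℓ).Sm2 (fun g h => θ g h - (b g + b h - b (g * h))) ∧
      IsCoc2 (fun g h => θ g h - (b g + b h - b (g * h))) ∧
      ∀ v, (pre ℓ).inv v (fun g h => θ g h - (b g + b h - b (g * h))) = (pre ℓ).inv v θ := by
  obtain ⟨U, hU, h1⟩ := hs
  obtain ⟨U', hU', h2⟩ := hb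
  have hU0 : Adm U := hU
  have hU1 : Adm U' := hU'
  refine ⟨⟨U ⊓ U', hU0.inf hU1, fun g h u hu u' hu' => ?_⟩, fun g h l => ?_, fun v => ?_⟩
  · have e : g * u * (h * u') = g * h * (h⁻¹ * u * h * u') := by group
    simp only
    rw [h1 g h u hu.1 u' hu'.1, h2 g u hu.2, h2 h u' hu'.2, e,
      h2 _ _ (mul_mem (hU1.normal.conj_mem' u hu.2 h) hu'.2)]
  · have := hθ g h l
    simp only [mul_assoc]
    linear_combination this
  · have hQ : ((pre ℓ).Q v : F2) = 1 := by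
      change ((Fintype.card k ^ pdg v : ℕ) : F2) = 1
      rw [Nat.cast_pow, RecipB_card h6, one_pow]
    have hQ1 : 1 ≤ (pre ℓ).Q v := Nat.one_le_pow _ _ Fintype.card_pos
    have hr : b ((pre ℓ).σ v * (pre ℓ).τ v) = b ((pre ℓ).τ v ^ (pre ℓ).Q v * (pre ℓ).σ v) := by
      have := h2 ((ℓ v).σ * (ℓ v).τ) _ ((ℓ v).rel U' hU1)
      rw [mul_inv_cancel_left] at this
      exact this.symm
    have h3 := RecipB_tel (fun i => b ((pre ℓ).τ v ^ i)) (b ((pre ℓ).τ v)) hQ1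
    simp only [Pre.inv, Finset.sum_sub_distrib (f := fun i => θ ((pre ℓ).τ v ^ i) ((pre ℓ).τ v)),
      ← pow_succ, h3, hr, hQ, pow_one]
    ring

omit [IsSepClosure (RatFunc k) Ω] in
/-- the invariant of a cocycle vanishing on the geometric group -/
theorem RecipB_inv (ℓ : Locs k Ω) {θ : WG k Ω → WG k Ω → F2} (hs : (pre ℓ).Sm2 θ) (hθ : IsCoc2 θ)
    (h0 : ∀ g h, wdeg g = 0 → wdeg h = 0 → θ g h = 0) (v : Pl k) :
    (pre ℓ).inv v θ = ∑ i ∈ Finset.range (pdg v),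
      RecipB_H θ (ℓ none).σ ((ℓ none).σ ^ (i : ℤ) * (ℓ v).τ * (ℓ none).σ ^ (-(i : ℤ))) := by
  obtain ⟨U, hU, h1⟩ := hs
  have hU0 : Adm U := hU
  have hτ : wdeg (ℓ v).τ = 0 := (ℓ v).deg_τ
  have e1 : (ℓ v).σ = ((ℓ v).σ * ((ℓ none).σ ^ pdg v)⁻¹) * (ℓ none).σ ^ pdg v := by group
  have d1 : wdeg ((ℓ v).σ * ((ℓ none).σ ^ pdg v)⁻¹) = 0 := by
    rw [wdeg_mul, wdeg_inv, wdeg_pow, RecipB_deg_inf, (ℓ v).deg_σ]
    ring
  have e2 : RecipB_H θ (ℓ v).σ (ℓ v).τ = RecipB_H θ ((ℓ none).σ ^ pdg v) (ℓ v).τ := by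
    conv_lhs => rw [e1]
    rw [RecipB_H_mul hθ, RecipB_H, h0 _ _ d1 (RecipB_conj_deg _ hτ),
      h0 _ _ (RecipB_conj_deg _ (RecipB_conj_deg _ hτ)) d1, sub_self, zero_add]
  rw [← RecipB_H_pow hθ, ← e2]
  have e3 : (ℓ v).τ ^ Fintype.card k ^ pdg v = (ℓ v).σ * (ℓ v).τ * (ℓ v).σ⁻¹ *
      ((ℓ v).σ * (((ℓ v).σ * (ℓ v).τ)⁻¹ * ((ℓ v).τ ^ Fintype.card k ^ pdg v * (ℓ v).σ)) *
        (ℓ v).σ⁻¹) := by group
  have e4 : θ ((ℓ v).τ ^ Fintype.card k ^ pdg v) (ℓ v).σ =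
      θ ((ℓ v).σ * (ℓ v).τ * (ℓ v).σ⁻¹) (ℓ v).σ := by
    have := h1 ((ℓ v).σ * (ℓ v).τ * (ℓ v).σ⁻¹) (ℓ v).σ _
      (hU0.normal.conj_mem _ ((ℓ v).rel U hU0) (ℓ v).σ) 1 (one_mem _)
    rw [← e3, mul_one] at this
    exact this
  have e5 : ∑ i ∈ Finset.Ico 1 (Fintype.card k ^ pdg v), θ ((ℓ v).τ ^ i) (ℓ v).τ = 0 :=
    Finset.sum_eq_zero fun i _ => h0 _ _ (by rw [wdeg_pow, hτ, mul_zero]) hτ
  change θ (ℓ v).σ (ℓ v).τ - θ ((ℓ v).τ ^ Fintype.card k ^ pdg v) (ℓ v).σ -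
    ∑ i ∈ Finset.Ico 1 (Fintype.card k ^ pdg v), θ ((ℓ v).τ ^ i) (ℓ v).τ = _
  rw [e4, e5, sub_zero, RecipB_H]

omit [IsSepClosure (RatFunc k) Ω] in
theorem RecipB_ne {r : Ω} {b : RatFunc (Kb k Ω)} (hr : r ≠ 0) (hb : r ^ 2 = jK k Ω b) : b ≠ 0 := by
    rintro rfl
    rw [map_zero] at hb
    exact pow_ne_zero 2 hr hb

/-- the order of a geometric function at a constant, modulo two -/
noncomputable def RecipB_ord (b : RatFunc (Kb k Ω)) (y : Kb k Ω) : F2 :=
  (b.num.rootMultiplicity y : F2) - (b.denom.rootMultiplicity y : F2)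

theorem RecipB_kum_fin (h6 : (6 : k) ≠ 0) (ℓ : Locs k Ω) {r : Ω} {b : RatFunc (Kb k Ω)}
    (hr : r ≠ 0) (hb : r ^ 2 = jK k Ω b) {v : Pl k} (hv : v ≠ none) (i : ℤ) :
    kum r (gal ((ℓ none).σ ^ i * (ℓ v).τ * (ℓ none).σ ^ (-i))) =
      RecipB_ord b ((frob k Ω ^ i) (ℓ v).x) := by
  have hb0 := RecipB_ne hr hb
  have hd : wdeg ((ℓ none).σ ^ (-i)) = -i := by rw [wdeg_zpow, RecipB_deg_inf, mul_one]
  have key : ∀ p : Polynomial (Kb k Ω), p ≠ 0 →
      (ℓ v).w (gal ((ℓ none).σ ^ (-i)) (Polynomial.aeval (tt k Ω) p)) =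
        2 ^ (-(p.rootMultiplicity ((frob k Ω ^ i) (ℓ v).x) : ℤ)) := fun p hp => by
    have hinj : Function.Injective
        ((frob k Ω ^ (-i) : Kb k Ω ≃ₐ[k] Kb k Ω) : Kb k Ω →+* Kb k Ω) := RingHom.injective _
    rw [gal_aeval, hd, (ℓ v).w_poly hv ((Polynomial.map_ne_zero_iff hinj).2 hp),
      Polynomial.eq_rootMultiplicity_map hinj ((frob k Ω ^ i) (ℓ v).x)]
    congr 4
    change _ = (frob k Ω ^ (-i)) ((frob k Ω ^ i) (ℓ v).x)
    rw [← AlgEquiv.mul_apply, ← zpow_add, neg_add_cancel, zpow_zero, AlgEquiv.one_apply]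
  have h1 := ord_conj h6 (ℓ v) hr hb ((ℓ none).σ ^ (-i))
    (n := (b.num.rootMultiplicity ((frob k Ω ^ i) (ℓ v).x) : ℤ) -
      (b.denom.rootMultiplicity ((frob k Ω ^ i) (ℓ v).x) : ℤ)) (by
      rw [hb, jK_div, map_div₀, map_div₀, key _ (RatFunc.num_ne_zero hb0), key _ b.denom_ne_zero,
        ← zpow_sub₀ two_ne_zero]
      congr 1
      ring)
  rw [← zpow_neg, neg_neg] at h1
  rw [h1, RecipB_ord]
  push_cast
  rfl

theorem RecipB_kum_inf (h6 : (6 : k) ≠ 0) (ℓ : Locs k Ω) {r : Ω} {b : RatFunc (Kb k Ω)}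
    (hr : r ≠ 0) (hb : r ^ 2 = jK k Ω b) :
    kum r (gal (ℓ none).τ) = (b.denom.natDegree : F2) - (b.num.natDegree : F2) := by
  have hb0 := RecipB_ne hr hb
  have h1 := (ℓ none).kum_tau h6 hr (by rw [hb, geom_fix (ℓ none).deg_τ])
    (n := (b.denom.natDegree : ℤ) - (b.num.natDegree : ℤ)) (by
      rw [hb, jK_div, map_div₀, (ℓ none).w_poly_inf (RatFunc.num_ne_zero hb0),
        (ℓ none).w_poly_inf b.denom_ne_zero, ← zpow_sub₀ two_ne_zero]
      congr 1
      ring)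
  rw [h1]
  push_cast
  rfl

/-- the description of all invariants by one geometric function -/
theorem RecipB_main (h6 : (6 : k) ≠ 0) (ℓ : Locs k Ω) {θ : WG k Ω → WG k Ω → F2}
    (hs : (pre ℓ).Sm2 θ) (hθ : IsCoc2 θ) (h0 : ∀ g h, wdeg g = 0 → wdeg h = 0 → θ g h = 0) :
    ∃ (r : Ω) (b : RatFunc (Kb k Ω)), r ≠ 0 ∧ r ^ 2 = jK k Ω b ∧
      (∀ g, wdeg g = 0 → kum r (gal g) = RecipB_H θ (ℓ none).σ g) ∧
      (pre ℓ).inv none θ = (b.denom.natDegree : F2) - (b.num.natDegree : F2) ∧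
      ∀ v, v ≠ none → (pre ℓ).inv v θ =
        ∑ i ∈ Finset.range (pdg v), RecipB_ord b ((frob k Ω ^ i) (ℓ v).x) := by
  have hinv := RecipB_inv ℓ hs hθ h0
  obtain ⟨U, hU, h1⟩ := hs
  have hU0 : Adm U := hU
  obtain ⟨r, b, hr, hb, hk⟩ := exists_kummer h6 (RecipB_H θ (ℓ none).σ)
    (fun g g' hg hg' => RecipB_H_add hθ _ _ _ (h0 _ _ hg hg')
      (h0 _ _ (RecipB_conj_deg _ hg) (RecipB_conj_deg _ hg'))) hU0 (fun u hu => by
      have e1 := h1 (ℓ none).σ 1 1 (one_mem _) u hu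
      have e2 := h1 1 (ℓ none).σ _ (hU0.normal.conj_mem u hu (ℓ none).σ) 1 (one_mem _)
      rw [mul_one, one_mul] at e1 e2
      rw [RecipB_H, e1, e2, RecipB_one_left hθ, RecipB_one_right hθ, sub_self])
  refine ⟨r, b, hr, hb, hk, ?_, fun v hv => ?_⟩
  · rw [hinv, ← RecipB_kum_inf h6 ℓ hr hb, hk _ (ℓ none).deg_τ]
    simp [pdg]
  · rw [hinv]
    refine Finset.sum_congr rfl fun i _ => ?_
    rw [← hk, RecipB_kum_fin h6 ℓ hr hb hv, zpow_natCast]
    rw [zpow_neg]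
    exact RecipB_conj_deg _ (ℓ v).deg_τ

open scoped Classical in
theorem RecipB_count (ℓ : Locs k Ω) (S : Finset (Pl k)) (hS : none ∉ S) (s : Multiset (Kb k Ω))
    (hs : ∀ y ∈ s, ∃ v ∈ S, ∃ i < pdg v, y = (frob k Ω ^ i) (ℓ v).x) :
    ∑ v ∈ S, ∑ i ∈ Finset.range (pdg v), s.count ((frob k Ω ^ i) (ℓ v).x) = s.card := by
  induction s using Multiset.induction_on with
  | empty => simp
  | cons a s ih =>
    obtain ⟨v, hv, i, hi, ha⟩ := hs a (Multiset.mem_cons_self _ _)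
    have hne : ∀ w ∈ S, w ≠ none := fun w hw h => hS (h ▸ hw)
    simp only [Multiset.count_cons, Finset.sum_add_distrib]
    rw [ih fun y hy => hs y (Multiset.mem_cons_of_mem hy), Multiset.card_cons]
    congr 1
    rw [Finset.sum_eq_single v, Finset.sum_eq_single i, if_pos ha.symm]
    · intro j hj hji
      rw [if_neg]
      intro h
      exact hji (place_unique ℓ (hne v hv) (hne v hv) (Finset.mem_range.1 hj) hi (h.trans ha)).2
    · intro h
      exact absurd (Finset.mem_range.2 hi) h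
    · intro w hw hwv
      refine Finset.sum_eq_zero fun j hj => if_neg fun h => ?_
      exact hwv (place_unique ℓ (hne w hw) (hne v hv) (Finset.mem_range.1 hj) hi (h.trans ha)).1
    · intro h
      exact absurd hv h

/-- a finite set of finite places carrying all roots of a polynomial -/
theorem RecipB_places (ℓ : Locs k Ω) (s : Multiset (Kb k Ω)) :
    ∃ T : Finset (Pl k), none ∉ T ∧ ∀ y ∈ s, ∃ v ∈ T, ∃ i < pdg v, y = (frob k Ω ^ i) (ℓ v).x := by
  classical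
  choose pl ix h1 h2 h3 using exists_place ℓ
  refine ⟨s.toFinset.image pl, fun h => ?_, fun y hy =>
    ⟨pl y, Finset.mem_image_of_mem _ (Multiset.mem_toFinset.2 hy), ix y, h2 y, h3 y⟩⟩
  obtain ⟨y, -, hy⟩ := Finset.mem_image.1 h
  exact h1 y hy

/-- solving the difference equation along Frobenius orbits -/
theorem RecipB_solve (ℓ : Locs k Ω) (o : Kb k Ω → F2) (s : Multiset (Kb k Ω))
    (hs : ∀ y, o y ≠ 0 → y ∈ s)
    (h0 : ∀ v, v ≠ none → ∑ i ∈ Finset.range (pdg v), o ((frob k Ω ^ i) (ℓ v).x) = 0) :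
    ∃ M : Kb k Ω → F2, {y | M y ≠ 0}.Finite ∧ ∀ y, M (frob k Ω y) - M y = o y := by
  classical
  obtain ⟨T, hT, hT'⟩ := RecipB_places ℓ s
  choose pl ix h1 h2 h3 using exists_place ℓ
  have key : ∀ v, v ≠ none → ∀ i < pdg v,
      pl ((frob k Ω ^ i) (ℓ v).x) = v ∧ ix ((frob k Ω ^ i) (ℓ v).x) = i := fun v hv i hi =>
    place_unique ℓ (h1 _) hv (h2 _) hi (h3 _).symm
  refine ⟨fun y => ∑ j ∈ Finset.range (ix y), o ((frob k Ω ^ j) (ℓ (pl y)).x), ?_, fun y => ?_⟩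
  · refine (T.biUnion fun v => (Finset.range (pdg v)).image
      fun i => (frob k Ω ^ i) (ℓ v).x).finite_toSet.subset fun y hy => ?_
    obtain ⟨j, hj, hj'⟩ := Finset.exists_ne_zero_of_sum_ne_zero hy
    obtain ⟨v, hv, i, hi, e⟩ := hT' _ (hs _ hj')
    have e1 : pl y = v := (place_unique ℓ (h1 y) (fun h => hT (h ▸ hv))
      ((Finset.mem_range.1 hj).trans (h2 y)) hi e).1
    refine Finset.mem_coe.2 (Finset.mem_biUnion.2 ⟨pl y, e1 ▸ hv, ?_⟩)
    exact Finset.mem_image.2 ⟨ix y, Finset.mem_range.2 (h2 y), (h3 y).symm⟩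
  · have e1 : frob k Ω y = (frob k Ω ^ (ix y + 1)) (ℓ (pl y)).x := by
      rw [pow_succ', AlgEquiv.mul_apply, ← h3 y]
    have e2 : ∑ j ∈ Finset.range (ix (frob k Ω y)), o ((frob k Ω ^ j) (ℓ (pl (frob k Ω y))).x) =
        ∑ j ∈ Finset.range (ix y + 1), o ((frob k Ω ^ j) (ℓ (pl y)).x) := by
      rcases (Nat.succ_le_of_lt (h2 y)).eq_or_lt with h | h
      · have h' : ix y + 1 = pdg (pl y) := h
        have e3 : frob k Ω y = (frob k Ω ^ 0) (ℓ (pl y)).x := by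
          rw [e1, h', frob_pdg _ (h1 y), pow_zero, AlgEquiv.one_apply]
        rw [h', h0 _ (h1 y), e3, (key _ (h1 y) 0 (pdg_pos _)).2, Finset.sum_range_zero]
      · obtain ⟨a1, a2⟩ := key _ (h1 y) _ h
        rw [← e1] at a1 a2
        rw [a1, a2]
    simp only
    rw [e2, Finset.sum_range_succ, ← h3 y]
    ring

/-- reduction to cocycles vanishing on the geometric group -/
theorem RecipB_reduce (h6 : (6 : k) ≠ 0) (ℓ : Locs k Ω) {θ : WG k Ω → WG k Ω → F2}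
    (hs : (pre ℓ).Sm2 θ) (hθ : IsCoc2 θ) :
    ∃ b : WG k Ω → F2, (pre ℓ).Sm b ∧
      ∀ g h, wdeg g = 0 → wdeg h = 0 → θ g h - (b g + b h - b (g * h)) = 0 := by
  obtain ⟨U, hU, h1⟩ := hs
  obtain ⟨b, U', hU', h2, h3⟩ := h2_geom h6 θ hU h1 hθ
  exact ⟨b, ⟨U', hU', h2⟩, fun g h hg hh => sub_eq_zero.2 (h3 g h hg hh)⟩

omit [IsSepClosure (RatFunc k) Ω] in
/-- the last step of the Hasse principle -/
theorem RecipB_split (ℓ : Locs k Ω) {θ : WG k Ω → WG k Ω → F2} (hs : (pre ℓ).Sm2 θ)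
    (hθ : IsCoc2 θ) (h0 : ∀ g h, wdeg g = 0 → wdeg h = 0 → θ g h = 0)
    (hH : ∀ u, wdeg u = 0 → RecipB_H θ (ℓ none).σ u = 0) :
    ∃ b : WG k Ω → F2, (pre ℓ).Sm b ∧ ∀ g h, θ g h = b g + b h - b (g * h) := by
  obtain ⟨U, hU, h1⟩ := hs
  have hU0 : Adm U := hU
  obtain ⟨φ, hφ⟩ : ∃ φ, φ = (ℓ none).σ := ⟨_, rfl⟩
  have hd : ∀ n : ℤ, wdeg (φ ^ n) = n := fun n => by rw [wdeg_zpow, hφ, RecipB_deg_inf, mul_one]
  rw [← hφ] at hH
  have hH' : ∀ (n : ℤ) u, wdeg u = 0 → RecipB_H θ (φ ^ n) u = 0 := fun n u hu => by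
    have step : ∀ n : ℤ, RecipB_H θ (φ ^ (n + 1)) u = RecipB_H θ (φ ^ n) u := fun n => by
      rw [add_comm, zpow_one_add, RecipB_H_mul hθ, hH _ (RecipB_conj_deg _ hu), zero_add]
    induction n using Int.induction_on with
    | zero => rw [zpow_zero, RecipB_H_one hθ]
    | succ n ih => rw [step, ih]
    | pred n ih => rw [← step, sub_add_cancel, ih]
  obtain ⟨β, hβ⟩ := RecipB_cyclic hθ φ
  refine ⟨fun g => β (wdeg g) - θ (g * (φ ^ wdeg g)⁻¹) (φ ^ wdeg g),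
    ⟨U, hU, fun g u hu => ?_⟩, fun g h => ?_⟩
  · have e1 : wdeg (g * u) = wdeg g := by rw [wdeg_mul, hU0.le hu, add_zero]
    have e2 : g * u * (φ ^ wdeg g)⁻¹ =
        g * (φ ^ wdeg g)⁻¹ * (φ ^ wdeg g * u * (φ ^ wdeg g)⁻¹) := by group
    have e3 := h1 (g * (φ ^ wdeg g)⁻¹) (φ ^ wdeg g) _
      (hU0.normal.conj_mem u hu (φ ^ wdeg g)) 1 (one_mem _)
    rw [mul_one] at e3
    simp only
    rw [e1, e2, e3]
  · have dz : ∀ g : WG k Ω, wdeg (g * (φ ^ wdeg g)⁻¹) = 0 := fun g => by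
      rw [wdeg_mul, wdeg_inv, hd, add_neg_cancel]
    have c := RecipB_final hθ (g * (φ ^ wdeg g)⁻¹) (h * (φ ^ wdeg h)⁻¹) (φ ^ wdeg g) (φ ^ wdeg h)
      (h0 _ _ (dz g) (RecipB_conj_deg _ (dz h))) (hH' _ _ (dz h))
    have e1 : g * (φ ^ wdeg g)⁻¹ * (φ ^ wdeg g * (h * (φ ^ wdeg h)⁻¹) * (φ ^ wdeg g)⁻¹) =
        g * h * (φ ^ (wdeg g + wdeg h))⁻¹ := by
      rw [zpow_add, mul_inv_rev]
      simp only [mul_assoc, inv_mul_cancel_left]
    rw [inv_mul_cancel_right, inv_mul_cancel_right, e1, ← zpow_add, hβ] at c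
    simp only [wdeg_mul]
    linear_combination c

theorem recip (h6 : (6 : k) ≠ 0) (ℓ : Locs k Ω) (θ : WG k Ω → WG k Ω → F2)
    (hs : (pre ℓ).Sm2 θ) (hθ : IsCoc2 θ) (S : Finset (Pl k))
    (hS : ∀ v ∉ S, (pre ℓ).inv v θ = 0) : ∑ v ∈ S, (pre ℓ).inv v θ = 0 := by
  classical
  obtain ⟨b0, hb0, h0⟩ := RecipB_reduce h6 ℓ hs hθ
  obtain ⟨hs', hθ', hi⟩ := RecipB_sub h6 ℓ hs hθ hb0
  obtain ⟨r, b, hr, hb, -, hinf, hfin⟩ := RecipB_main h6 ℓ hs' hθ' h0
  simp only [hi] at hinf hfin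
  obtain ⟨T, hT, hT'⟩ := RecipB_places ℓ (b.num.roots + b.denom.roots)
  have hn : (none : Pl k) ∉ (S ∪ T).erase none := Finset.notMem_erase _ _
  have hsub : S ⊆ insert none ((S ∪ T).erase none) := fun v hv => by
    by_cases h : v = none
    · exact h ▸ Finset.mem_insert_self _ _
    · exact Finset.mem_insert_of_mem (Finset.mem_erase.2 ⟨h, Finset.mem_union_left _ hv⟩)
  have hc : ∀ p : Polynomial (Kb k Ω), (∀ y ∈ p.roots, y ∈ b.num.roots + b.denom.roots) →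
      ∑ v ∈ (S ∪ T).erase none, ∑ i ∈ Finset.range (pdg v),
        (p.rootMultiplicity ((frob k Ω ^ i) (ℓ v).x) : F2) = p.natDegree := fun p hp => by
    have := RecipB_count ℓ _ hn p.roots fun y hy => by
      obtain ⟨v, hv, h⟩ := hT' y (hp y hy)
      exact ⟨v, Finset.mem_erase.2 ⟨fun e => hT (e ▸ hv), Finset.mem_union_right _ hv⟩, h⟩
    rw [(IsAlgClosed.splits p).natDegree_eq_card_roots, ← this]
    push_cast
    simp only [Polynomial.count_roots]
  rw [Finset.sum_subset hsub fun v _ hv => hS v hv, Finset.sum_insert hn, hinf,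
    Finset.sum_congr rfl fun v hv => hfin v (Finset.ne_of_mem_erase hv)]
  simp only [RecipB_ord, Finset.sum_sub_distrib]
  rw [hc _ fun y hy => Multiset.mem_add.2 (Or.inl hy), hc _ fun y hy => Multiset.mem_add.2 (Or.inr hy)]
  ring

theorem hasse (h6 : (6 : k) ≠ 0) (ℓ : Locs k Ω) (θ : WG k Ω → WG k Ω → F2)
    (hs : (pre ℓ).Sm2 θ) (hθ : IsCoc2 θ) (h0 : ∀ v, (pre ℓ).inv v θ = 0) :
    ∃ b : WG k Ω → F2, (pre ℓ).Sm b ∧ ∀ g h, θ g h = b g + b h - b (g * h) := by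
    classical
    obtain ⟨b0, hb0, hz⟩ := RecipB_reduce h6 ℓ hs hθ
    obtain ⟨hs', hθ', hi⟩ := RecipB_sub h6 ℓ hs hθ hb0
    obtain ⟨θ', hθe⟩ : ∃ θ' : WG k Ω → WG k Ω → F2,
        θ' = fun g h => θ g h - (b0 g + b0 h - b0 (g * h)) := ⟨_, rfl⟩
    have hz' : ∀ g h, wdeg g = 0 → wdeg h = 0 → θ' g h = 0 := by
      rw [hθe]
      exact hz
    rw [← hθe] at hs' hθ' hi
    obtain ⟨r, b, hr, hb, hk, -, hfin⟩ := RecipB_main h6 ℓ hs' hθ' hz'
    have hbne := RecipB_ne hr hb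
    obtain ⟨M, hM, hM'⟩ := RecipB_solve ℓ (RecipB_ord b) (b.num.roots + b.denom.roots)
      (fun y hy => by
        by_contra hc
        rw [Multiset.mem_add, not_or] at hc
        apply hy
        rw [RecipB_ord, ← Polynomial.count_roots, ← Polynomial.count_roots,
          Multiset.count_eq_zero_of_notMem hc.1, Multiset.count_eq_zero_of_notMem hc.2, sub_self])
      (fun v hv => by rw [← hfin v hv, hi, h0])
    obtain ⟨p, hp, hp'⟩ := RecipB_exists_poly M hM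
    obtain ⟨s, hs3⟩ : ∃ s : Ω, s ^ 2 = jK k Ω (algebraMap _ _ p) := ⟨_, sqr_spec h6 _⟩
    have hs0 : s ≠ 0 := by
      rintro rfl
      rw [zero_pow two_ne_zero, eq_comm, map_eq_zero] at hs3
      exact RatFunc.algebraMap_ne_zero hp hs3
    have hord : ∀ y, RecipB_ord (algebraMap _ (RatFunc (Kb k Ω)) p) y = M y := fun y => by
      rw [RecipB_ord, RatFunc.num_algebraMap, RatFunc.denom_algebraMap, hp', ← Polynomial.C_1,
        Polynomial.rootMultiplicity_C, Nat.cast_zero, sub_zero]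
    have hadd : ∀ {t : Ω} {c : RatFunc (Kb k Ω)}, t ≠ 0 → t ^ 2 = jK k Ω c → ∀ g g' : WG k Ω,
        wdeg g = 0 → wdeg g' = 0 → kum t (gal (g * g')) = kum t (gal g) + kum t (gal g') :=
      fun ht hc g g' hg hg' => by
        rw [map_mul, kum_mul h6 ht (by rw [hc, geom_fix hg]) (by rw [hc, geom_fix hg'])]
    have hker : ∀ {t : Ω} (u : WG k Ω), gal u t = t → kum t (gal u) = 0 :=
      fun u hu => kum_eq_zero_iff.2 hu
    obtain ⟨U1, hU1, hf1⟩ := adm_kum h6 hb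
    obtain ⟨U2, hU2, hf2⟩ := adm_kum h6 hs3
    have hD := uniq_geom h6 ℓ (fun u => kum r (gal u) -
        (kum s (gal ((ℓ none).σ * u * (ℓ none).σ⁻¹)) - kum s (gal u)))
      (fun g g' hg hg' => by
        have e : (ℓ none).σ * (g * g') * (ℓ none).σ⁻¹ =
            (ℓ none).σ * g * (ℓ none).σ⁻¹ * ((ℓ none).σ * g' * (ℓ none).σ⁻¹) := by group
        rw [e, hadd hr hb g g' hg hg', hadd hs0 hs3 g g' hg hg',
          hadd hs0 hs3 _ _ (RecipB_conj_deg _ hg) (RecipB_conj_deg _ hg')]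
        ring)
      (hU1.inf hU2) (fun u hu => by
        rw [hker u (hf1 u hu.1), hker u (hf2 u hu.2),
          hker _ (hf2 _ (hU2.normal.conj_mem u hu.2 _))]
        ring)
      (fun v hv i => by
        have e : (ℓ none).σ * ((ℓ none).σ ^ i * (ℓ v).τ * (ℓ none).σ ^ (-i)) * (ℓ none).σ⁻¹ =
            (ℓ none).σ ^ (1 + i) * (ℓ v).τ * (ℓ none).σ ^ (-(1 + i)) := by group
        rw [e, RecipB_kum_fin h6 ℓ hr hb hv, RecipB_kum_fin h6 ℓ hs0 hs3 hv,
          RecipB_kum_fin h6 ℓ hs0 hs3 hv, hord, hord, zpow_one_add, AlgEquiv.mul_apply, hM', sub_self])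
    have hb1 : (pre ℓ).Sm fun g => if wdeg g = 0 then -kum s (gal g) else 0 := by
      refine ⟨U2, hU2, fun g u hu => ?_⟩
      have hu0 : wdeg u = 0 := hU2.le hu
      simp only [wdeg_mul, hu0, add_zero]
      split_ifs with hg
      · rw [hadd hs0 hs3 g u hg hu0, hker u (hf2 u hu), add_zero]
      · rfl
    obtain ⟨hs2, hθ2, -⟩ := RecipB_sub h6 ℓ hs' hθ' hb1
    obtain ⟨b2, hb2, he⟩ := RecipB_split ℓ hs2 hθ2
      (fun g h hg hh => by
        rw [hz' g h hg hh, if_pos hg, if_pos hh, if_pos (by rw [wdeg_mul, hg, hh, add_zero]),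
          hadd hs0 hs3 g h hg hh]
        ring)
      (fun u hu => by
        have e1 := hD u hu
        have e2 := hk u hu
        have e3 : (ℓ none).σ * u * (ℓ none).σ⁻¹ * (ℓ none).σ = (ℓ none).σ * u := by group
        unfold RecipB_H at e2 ⊢
        simp only at e1 ⊢
        rw [e3, if_pos hu, if_pos (RecipB_conj_deg _ hu)]
        linear_combination e1 - e2)
    obtain ⟨V0, hV0, a0⟩ := hb0
    obtain ⟨V1, hV1, a1⟩ := hb1
    obtain ⟨V2, hV2, a2⟩ := hb2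
    refine ⟨fun g => b0 g + (if wdeg g = 0 then -kum s (gal g) else 0) + b2 g,
      ⟨V0 ⊓ V1 ⊓ V2, Adm.inf (Adm.inf hV0 hV1) hV2, fun g u hu => ?_⟩, fun g h => ?_⟩
    · have := a1 g u hu.1.2
      simp only at this ⊢
      rw [a0 g u hu.1.1, this, a2 g u hu.2]
    · have e1 := he g h
      have e2 : θ' g h = θ g h - (b0 g + b0 h - b0 (g * h)) := by rw [hθe]
      linear_combination e1 - e2

end Pool.Agent.Quad
end
end

-- merged part: Pool.Agent.Work.MP_60d5ce_nt.Qt.StatB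
section
-- merged part: Pool.Agent.Work.MP_60d5ce_nt.Qt.Cheb
section
/-!
# The Chebotarev upper bound and the prime polynomial lower bound

Hints.  `φ = σ ∞` has degree one.
* `exists_crv`: `M = MU U`; for `y = frob ^ i x_v` (`exists_place`, `place_unique`) let `w (some y)` be
  `(ℓ v).w ∘ gal (φ ^ (-i))` on `M` (`Adm.gal_mem_MU`); `Ram` is the set of `y` over `A`; `disc` is the
  field `disc` of `Loc`; `tame` from `Adm.card_gal`, `Adm.index_pow`.
* `card_pairs`: for `f ∈ LL m`, `h (g f - f ^ Q) = σ (h f) - (h f) ^ Q` is small (`Loc.σ_res`), where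
  `h = φ ^ (-i) * h0`; map `(v, i, h0)` to `(frob ^ i x_v, π h0)` and use `Crv.stepanov`.
* `cheb`: each triple `(v, i, h0 U)` with `σ v ∈ E` determines the coset of `g = h⁻¹ * σ v * h ∈ E`.
  The cosets of degree `e` are `φ ^ e * WG0 / U`, `N'` of them, right multiplication by `z j` permutes
  them, so at most `θ N'` lie in `E`.  Divide by `N'`.
* `pnt`: the `q ^ e` roots of `X ^ q ^ e - X` in an algebraic closure have minimal polynomials of
  degree `d ∣ e`; those with `d < e` are roots of `X ^ q ^ d - X`, `d ≤ e / 2`.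
-/

namespace Pool.Agent.Quad

open scoped Classical

variable {k : Type} [Field k] [Fintype k] {Ω : Type} [Field Ω] [Algebra (RatFunc k) Ω]
  [Algebra k Ω] [IsScalarTower k (RatFunc k) Ω]

theorem pnt (e : ℕ) (he : 0 < e) : (Fintype.card k : ℝ) ^ e ≤
    e * ({v : Pl k | pdg v = e ∧ v ≠ none}.ncard : ℝ) + 2 * (Fintype.card k : ℝ) ^ ((e + 1) / 2) := by
  exact_mod_cast chebp_lower (k := k) e he

theorem pnt_upper (e : ℕ) :
    e * {v : Pl k | pdg v = e ∧ v ≠ none}.ncard ≤ Fintype.card k ^ e := by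
  exact chebp_upper e

/-- the action of the Weil group on the fixed field -/
noncomputable def chebRes {U : Subgroup (WG k Ω)} (hU : Adm U) (g : WG k Ω) : MU U ≃+* MU U where
  toFun a := ⟨gal g a, hU.gal_mem_MU g a.2⟩
  invFun a := ⟨gal g⁻¹ a, hU.gal_mem_MU g⁻¹ a.2⟩
  left_inv a := Subtype.ext (by
    show gal g⁻¹ (gal g (a : Ω)) = a
    rw [← AlgEquiv.mul_apply, ← map_mul, inv_mul_cancel, map_one, AlgEquiv.one_apply])
  right_inv a := Subtype.ext (by
    show gal g (gal g⁻¹ (a : Ω)) = a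
    rw [← AlgEquiv.mul_apply, ← map_mul, mul_inv_cancel, map_one, AlgEquiv.one_apply])
  map_mul' a b := Subtype.ext (map_mul (gal g) (a : Ω) b)
  map_add' a b := Subtype.ext (map_add (gal g) (a : Ω) b)

theorem chebRes_coe {U : Subgroup (WG k Ω)} (hU : Adm U) (g : WG k Ω) (a : MU U) :
    (chebRes hU g a : Ω) = gal g a := rfl

theorem chebRes_symm_coe {U : Subgroup (WG k Ω)} (hU : Adm U) (g : WG k Ω) (a : MU U) :
    ((chebRes hU g).symm a : Ω) = gal g⁻¹ a := rfl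

theorem cheb_tM (U : Subgroup (WG k Ω)) : ((tM (Kb k Ω) (MU U) : MU U) : Ω) = tt k Ω := by
  have h := jK_poly k Ω Polynomial.X
  rw [Polynomial.aeval_X, RatFunc.algebraMap_X] at h
  exact h

theorem cheb_const (U : Subgroup (WG k Ω)) (c : Kb k Ω) :
    ((algebraMap (Kb k Ω) (MU U) c : MU U) : Ω) = c := rfl

theorem cheb_aeval (U : Subgroup (WG k Ω)) (p : Polynomial (Kb k Ω)) :
    ((Polynomial.aeval (tM (Kb k Ω) (MU U)) p : MU U) : Ω) = Polynomial.aeval (tt k Ω) p := by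
  rw [← cheb_tM U]
  exact (Polynomial.aeval_algHom_apply ((MU U).val.restrictScalars (Kb k Ω)) _ p).symm

/-- a translated absolute value on the fixed field -/
noncomputable def chebW {v : Pl k} (l : Loc Ω v) (U : Subgroup (WG k Ω)) (g : WG k Ω) :
    AbsoluteValue (MU U) ℝ :=
  l.w.comp (f := (gal g : Ω →+* Ω).comp (MU U).subtype) (RingHom.injective _)

theorem chebW_apply {v : Pl k} (l : Loc Ω v) (U : Subgroup (WG k Ω)) (g : WG k Ω)
    (a : MU U) : chebW l U g a = l.w (gal g a) := rfl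

theorem chebW_na {v : Pl k} (l : Loc Ω v) (U : Subgroup (WG k Ω)) (g : WG k Ω) :
    IsNonarchimedean (chebW l U g) := by
  intro a b
  simpa only [chebW_apply, IntermediateField.coe_add, map_add] using l.w_na (gal g a) (gal g b)

theorem chebW_res {v : Pl k} (l : Loc Ω v) (U : Subgroup (WG k Ω)) (g : WG k Ω)
    (a : MU U) (ha : chebW l U g a ≤ 1) :
    ∃ c : Kb k Ω, chebW l U g (a - algebraMap (Kb k Ω) (MU U) c) < 1 := by
  obtain ⟨c, hc⟩ := l.w_res ha
  refine ⟨(frob k Ω ^ wdeg g).symm c, ?_⟩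
  rw [chebW_apply, AddSubgroupClass.coe_sub, map_sub, cheb_const, gal_const,
    AlgEquiv.apply_symm_apply]
  exact hc

variable [IsSepClosure (RatFunc k) Ω]

theorem exists_crv (h6 : (6 : k) ≠ 0) (ℓ : Locs k Ω) {U : Subgroup (WG k Ω)} (hU : Adm U)
    (A : Finset (Pl k)) (hA : none ∈ A) (hτ : ∀ v ∉ A, (ℓ v).τ ∈ U) :
    ∃ C : Crv (Kb k Ω) (MU U), C.Ram.card + 1 ≤ ∑ v ∈ A, pdg v ∧
      ∀ v ∉ A, ∀ i < pdg v, (frob k Ω ^ i) (ℓ v).x ∉ C.Ram ∧ ∀ a : MU U,
        C.w (some ((frob k Ω ^ i) (ℓ v).x)) a = (ℓ v).w (gal ((ℓ none).σ ^ i)⁻¹ a) := by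
  choose pv pi hv hi hy using exists_place ℓ
  obtain ⟨j, hj⟩ := hU.index_pow
  have hdeg : ∀ i : ℕ, wdeg ((ℓ none).σ ^ i)⁻¹ = -(i : ℤ) := fun i => by
    rw [wdeg_inv, wdeg_pow, (ℓ none).deg_σ]
    simp [pdg]
  let R : Finset (Kb k Ω) := (A.erase none).biUnion fun v =>
    (Finset.range (pdg v)).image fun i => (frob k Ω ^ i) (ℓ v).x
  have hR : ∀ y, y ∉ R → pv y ∉ A := fun y h hA' => h (Finset.mem_biUnion.2
    ⟨pv y, Finset.mem_erase.2 ⟨hv y, hA'⟩,
      Finset.mem_image.2 ⟨pi y, Finset.mem_range.2 (hi y), (hy y).symm⟩⟩)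
  let W : Pl k → ℕ → AbsoluteValue (MU U) ℝ := fun v i => chebW (ℓ v) U ((ℓ none).σ ^ i)⁻¹
  refine ⟨{ w := fun y => y.elim (W none 0) fun y => W (pv y) (pi y)
            na := ?_, w_fin := ?_, w_inf := ?_, res := ?_, Ram := R, disc := ?_
            tame := ?_ }, ?_, ?_⟩
  · rintro (_ | y)
    · exact chebW_na _ _ _
    · exact chebW_na _ _ _
  · intro y p hp
    have hinj : Function.Injective
        ((frob k Ω ^ (-(pi y : ℤ)) : Kb k Ω ≃ₐ[k] Kb k Ω) : Kb k Ω →+* Kb k Ω) :=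
      RingHom.injective _
    show chebW (ℓ (pv y)) U ((ℓ none).σ ^ pi y)⁻¹ _ = _
    rw [chebW_apply, cheb_aeval, gal_aeval, hdeg, (ℓ (pv y)).w_poly (hv y)
      ((Polynomial.map_ne_zero_iff hinj).2 hp), Polynomial.eq_rootMultiplicity_map hinj y]
    have e : ((frob k Ω ^ (-(pi y : ℤ)) : Kb k Ω ≃ₐ[k] Kb k Ω) : Kb k Ω →+* Kb k Ω) y =
        (ℓ (pv y)).x := by
      conv_lhs => arg 2; rw [hy y]
      rw [zpow_neg, zpow_natCast]
      exact (frob k Ω ^ pi y).symm_apply_apply _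
    rw [e]
  · intro p hp
    show chebW (ℓ none) U ((ℓ none).σ ^ 0)⁻¹ _ = _
    rw [chebW_apply, cheb_aeval, pow_zero, inv_one, map_one, AlgEquiv.one_apply, (ℓ none).w_poly_inf hp]
  · rintro (_ | y) a ha
    · exact chebW_res _ _ _ a ha
    · exact chebW_res _ _ _ a ha
  · intro y hyR a ha
    have hm := (mem_MU hU.le).1 (hU.gal_mem_MU ((ℓ none).σ ^ pi y)⁻¹ a.2)
    exact (ℓ (pv y)).disc U hU _ (by simpa using ha) hm (hm _ (hτ _ (hR y hyR)))
  · obtain ⟨c, hc⟩ := hj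
    intro h
    refine pow_ne_zero j (six_ne_map (algebraMap k (Kb k Ω)) h6) ?_
    rw [← Nat.cast_ofNat, ← Nat.cast_pow, hc, Nat.cast_mul, ← hU.card_gal, h, zero_mul]
  · show R.card + 1 ≤ _
    rw [← Finset.add_sum_erase A _ hA, add_comm]
    refine add_le_add le_rfl (Finset.card_biUnion_le.trans (Finset.sum_le_sum fun v _ => ?_))
    exact Finset.card_image_le.trans (Finset.card_range _).le
  · intro v hvA i hiv
    have hv0 : v ≠ none := fun h => hvA (h ▸ hA)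
    obtain ⟨e1, e2⟩ := place_unique ℓ hv0 (hv _) hiv (hi _) (hy ((frob k Ω ^ i) (ℓ v).x))
    refine ⟨fun h => ?_, fun a => ?_⟩
    · obtain ⟨v', hv', h⟩ := Finset.mem_biUnion.1 h
      obtain ⟨i', hi', h⟩ := Finset.mem_image.1 h
      obtain ⟨h1, h2⟩ := Finset.mem_erase.1 hv'
      exact hvA ((place_unique ℓ h1 hv0 (Finset.mem_range.1 hi') hiv h).1 ▸ h2)
    · show W (pv _) (pi _) a = W v i a
      rw [← e1, ← e2]

theorem card_pairs (h6 : (6 : k) ≠ 0) (hq : 4 ≤ Fintype.card k) (ℓ : Locs k Ω)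
    {U : Subgroup (WG k Ω)} (hU : Adm U) (A : Finset (Pl k)) (hA : none ∈ A)
    (hτ : ∀ v ∉ A, (ℓ v).τ ∈ U) {e : ℕ} (he : 0 < e) (g : WG k Ω) (hg : wdeg g = e)
    (Z : Finset (Pl k × ℕ × (WG0 k Ω ⧸ U.subgroupOf (WG0 k Ω))))
    (hZ : ∀ z ∈ Z, z.1 ∉ A ∧ pdg z.1 = e ∧ z.2.1 < e ∧
      (((ℓ none).σ ^ z.2.1)⁻¹ * z.2.2.out.1 * g)⁻¹ *
        ((ℓ z.1).σ * (((ℓ none).σ ^ z.2.1)⁻¹ * z.2.2.out.1)) ∈ U) :
    (Z.card : ℝ) ≤ (Fintype.card k : ℝ) ^ e +
      (pre ℓ).err (U.relIndex (WG0 k Ω)) (∑ v ∈ A, pdg v) e := by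
  have := hU.finiteDimensional
  have := hU.isGalois
  obtain ⟨C, hC1, hC2⟩ := exists_crv h6 ℓ hU A hA hτ
  obtain ⟨π, -, hπ1, hπ2⟩ := hU.exists_res
  have hne : ∀ z ∈ Z, z.1 ≠ none := fun z hz h => (hZ z hz).1 (h ▸ hA)
  have hlt : ∀ z ∈ Z, z.2.1 < pdg z.1 := fun z hz => (hZ z hz).2.1 ▸ (hZ z hz).2.2.1
  have hinj : Set.InjOn (fun z : Pl k × ℕ × (WG0 k Ω ⧸ U.subgroupOf (WG0 k Ω)) =>
      ((frob k Ω ^ z.2.1) (ℓ z.1).x, π z.2.2.out)) Z := by
    intro z hz z' hz' h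
    obtain ⟨h1, h2⟩ := Prod.mk.inj h
    obtain ⟨e1, e2⟩ := place_unique ℓ (hne z hz) (hne z' hz') (hlt z hz) (hlt z' hz') h1
    refine Prod.ext e1 (Prod.ext e2 ?_)
    rw [← QuotientGroup.out_eq' z.2.2, ← QuotientGroup.out_eq' z'.2.2, QuotientGroup.eq,
      Subgroup.mem_subgroupOf, ← hπ2, map_mul, map_inv, h2, inv_mul_cancel]
  have key := C.stepanov hq he (fun a b => Subtype.ext (by
      simpa using map_add (FiniteField.frobeniusAlgHom k Ω) (a : Ω) b))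
    (chebRes hU g) (Subtype.ext (by rw [chebRes_coe, cheb_tM, gal_tt]))
    (fun c => ⟨(frob k Ω ^ wdeg g⁻¹) c, Subtype.ext (by
      rw [chebRes_symm_coe, cheb_const, cheb_const, gal_const])⟩)
    (Z.image fun z => ((frob k Ω ^ z.2.1) (ℓ z.1).x, π z.2.2.out)) ?_
  · rw [Finset.card_image_of_injOn hinj, ← IsGalois.card_aut_eq_finrank, hU.card_gal] at key
    refine key.trans (add_le_add le_rfl ?_)
    have h1 : (C.Ram.card + 2 : ℝ) ≤ (∑ v ∈ A, pdg v : ℕ) + 1 := by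
      have : (C.Ram.card + 1 : ℝ) ≤ (∑ v ∈ A, pdg v : ℕ) := by exact_mod_cast hC1
      linarith
    show _ ≤ 18 * _ ^ 2 * (_ + 1) * (Fintype.card k : ℝ) ^ ((e + 1) / 2)
    gcongr
  · intro y hy
    obtain ⟨z, hz, rfl⟩ := Finset.mem_image.1 hy
    obtain ⟨h1, h2, h3, h4⟩ := hZ z hz
    obtain ⟨h5, h6⟩ := hC2 z.1 h1 z.2.1 (hlt z hz)
    refine ⟨h5, fun m f hf => ?_⟩
    have h7 := (C.mem_LL.1 hf).1 ((frob k Ω ^ z.2.1) (ℓ z.1).x) (π z.2.2.out)
    simp only [h6, hπ1] at h7 ⊢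
    rw [← AlgEquiv.mul_apply, ← map_mul] at h7 ⊢
    have h8 := (mem_MU hU.le).1 f.2 _ h4
    generalize ((ℓ none).σ ^ z.2.1)⁻¹ * z.2.2.out.1 = h at h7 h8 ⊢
    have h9 : gal (ℓ z.1).σ (gal h f) = gal h (gal g f) := by
      conv_rhs => rw [← h8]
      simp only [← AlgEquiv.mul_apply, ← map_mul]
      congr 2
      group
    have h10 := (ℓ z.1).σ_res h7
    rw [h9, h2] at h10
    rw [AddSubgroupClass.coe_sub, IntermediateField.coe_pow, chebRes_coe, map_sub, map_pow]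
    exact h10

theorem cheb (h6 : (6 : k) ≠ 0) (hq : 4 ≤ Fintype.card k) (ℓ : Locs k Ω)
    (U : Subgroup (WG k Ω)) (hU : Adm U) (N : ℕ) (hN : U.relIndex (WG0 k Ω) ≤ N)
    (A : Finset (Pl k)) (hA : none ∈ A) (hτ : ∀ v ∉ A, (ℓ v).τ ∈ U) (E : Set (WG k Ω))
    (hE : ∀ g ∈ E, ∀ u ∈ U, g * u ∈ E) (hc : ∀ g ∈ E, ∀ h, h * g * h⁻¹ ∈ E) (e : ℕ) (he : 0 < e)
    (J : Type) [Fintype J] [Nonempty J] (z : J → WG k Ω) (hz : ∀ j, wdeg (z j) = 0) (θ : ℝ)
    (hθ : ∀ g, wdeg g = e → (({j | g * z j ∈ E} : Set J).ncard : ℝ) ≤ θ * Fintype.card J) :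
    (e : ℝ) * ({v | pdg v = e ∧ v ∉ A ∧ (ℓ v).σ ∈ E}.ncard : ℝ) ≤
      θ * ((Fintype.card k : ℝ) ^ e + (pre ℓ).err N (∑ v ∈ A, pdg v) e) := by
  have := hU.normal
  have : (U.subgroupOf (WG0 k Ω)).FiniteIndex := ⟨hU.index⟩
  have := Fintype.ofFinite (WG0 k Ω ⧸ U.subgroupOf (WG0 k Ω))
  have hcard : Fintype.card (WG0 k Ω ⧸ U.subgroupOf (WG0 k Ω)) = U.relIndex (WG0 k Ω) :=
    Nat.card_eq_fintype_card.symm
  have hpos : (0 : ℝ) < U.relIndex (WG0 k Ω) := by
    exact_mod_cast Nat.pos_of_ne_zero hU.index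
  have hφ : ∀ i : ℕ, wdeg ((ℓ none).σ ^ i) = i := fun i => by
    rw [wdeg_pow, (ℓ none).deg_σ]
    simp [pdg]
  have hE' : ∀ g g', g⁻¹ * g' ∈ U → (g ∈ E ↔ g' ∈ E) := fun g g' h =>
    ⟨fun hg => by simpa using hE g hg _ h, fun hg => by simpa using hE g' hg _ (U.inv_mem h)⟩
  -- representatives
  obtain ⟨rep, hrep⟩ : ∃ rep : WG0 k Ω ⧸ U.subgroupOf (WG0 k Ω) → WG k Ω,
      ∀ c, rep c = (ℓ none).σ ^ e * c.out.1 := ⟨_, fun _ => rfl⟩
  have hrd : ∀ c, wdeg (rep c) = e := fun c => by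
    rw [hrep, wdeg_mul, hφ, mem_WG0.1 c.out.2, add_zero]
  have hrep' : ∀ (c) (x : WG0 k Ω), (x : WG0 k Ω ⧸ U.subgroupOf (WG0 k Ω)) = c →
      (rep c)⁻¹ * ((ℓ none).σ ^ e * x.1) ∈ U := fun c x hx => by
    rw [← QuotientGroup.out_eq' c, eq_comm, QuotientGroup.eq, Subgroup.mem_subgroupOf] at hx
    rw [hrep, mul_inv_rev, mul_assoc, inv_mul_cancel_left]
    exact hx
  obtain ⟨G, hG⟩ : ∃ G : Finset (WG0 k Ω ⧸ U.subgroupOf (WG0 k Ω)), ∀ c, c ∈ G ↔ rep c ∈ E :=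
    ⟨Finset.univ.filter fun c => rep c ∈ E, fun c => by simp⟩
  -- the number of good cosets
  have hGle : (G.card : ℝ) ≤ θ * U.relIndex (WG0 k Ω) := by
    have h1 : ∀ j, (Finset.univ.filter fun c => rep c * z j ∈ E).card = G.card := by
      intro j
      refine Finset.card_bijective _
        (Group.mulRight_bijective ((⟨z j, hz j⟩ : WG0 k Ω) : WG0 k Ω ⧸ U.subgroupOf (WG0 k Ω)))
        fun c => ?_
      rw [hG, Finset.mem_filter_univ, iff_comm]
      refine hE' _ _ ?_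
      have := hrep' (c * ((⟨z j, hz j⟩ : WG0 k Ω) : WG0 k Ω ⧸ U.subgroupOf (WG0 k Ω)))
        (c.out * ⟨z j, hz j⟩) (by rw [QuotientGroup.mk_mul, QuotientGroup.out_eq'])
      rwa [hrep c, mul_assoc]
    have h2 : ∑ c, (Finset.univ.filter fun j => rep c * z j ∈ E).card =
        ∑ j, (Finset.univ.filter fun c => rep c * z j ∈ E).card := by
      simp only [Finset.card_filter]
      exact Finset.sum_comm
    rw [Finset.sum_congr rfl fun j _ => h1 j, Finset.sum_const, Finset.card_univ,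
      smul_eq_mul] at h2
    have h3 : ∀ c, ((Finset.univ.filter fun j => rep c * z j ∈ E).card : ℝ) ≤
        θ * Fintype.card J := fun c => by
      have := hθ (rep c) (hrd c)
      rwa [Set.ncard_eq_toFinset_card', Set.toFinset_ofPred] at this
    have h4 : ((Fintype.card J * G.card : ℕ) : ℝ) ≤
        U.relIndex (WG0 k Ω) * (θ * Fintype.card J) := by
      rw [← h2, Nat.cast_sum]
      refine (Finset.sum_le_sum fun c _ => h3 c).trans (le_of_eq ?_)
      rw [Finset.sum_const, Finset.card_univ, hcard, nsmul_eq_mul]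
    have hJ : (0 : ℝ) < Fintype.card J := by exact_mod_cast Fintype.card_pos
    push_cast at h4
    refine le_of_mul_le_mul_left ?_ hJ
    linarith
  have hθ0 : 0 ≤ θ := by
    have : (0 : ℝ) ≤ θ * U.relIndex (WG0 k Ω) := (Nat.cast_nonneg _).trans hGle
    exact nonneg_of_mul_nonneg_left this hpos
  -- triples
  have hfin : {v | pdg v = e ∧ v ∉ A ∧ (ℓ v).σ ∈ E}.Finite := (pdg_fin e).subset fun v hv => hv.1
  obtain ⟨B, hB⟩ : ∃ B : ℝ, B = (Fintype.card k : ℝ) ^ e +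
      (pre ℓ).err (U.relIndex (WG0 k Ω)) (∑ v ∈ A, pdg v) e := ⟨_, rfl⟩
  have hB0 : 0 ≤ B := by
    rw [hB, Pre.err]
    positivity
  have hBle : B ≤ (Fintype.card k : ℝ) ^ e + (pre ℓ).err N (∑ v ∈ A, pdg v) e := by
    rw [hB, Pre.err, Pre.err]
    gcongr
  obtain ⟨T, hT⟩ : ∃ T : Finset (Pl k × ℕ × (WG0 k Ω ⧸ U.subgroupOf (WG0 k Ω))),
      T = hfin.toFinset ×ˢ Finset.range e ×ˢ Finset.univ := ⟨_, rfl⟩
  have hTm : ∀ t ∈ T, (pdg t.1 = e ∧ t.1 ∉ A ∧ (ℓ t.1).σ ∈ E) ∧ t.2.1 < e := fun t ht => by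
    rw [hT, Finset.mem_product, Finset.mem_product, Set.Finite.mem_toFinset,
      Finset.mem_range] at ht
    exact ⟨ht.1, ht.2.1⟩
  obtain ⟨P, hP⟩ : ∃ P : (WG0 k Ω ⧸ U.subgroupOf (WG0 k Ω)) →
      Finset (Pl k × ℕ × (WG0 k Ω ⧸ U.subgroupOf (WG0 k Ω))), ∀ c t, t ∈ P c ↔ t ∈ T ∧
      (((ℓ none).σ ^ t.2.1)⁻¹ * t.2.2.out.1 * rep c)⁻¹ *
        ((ℓ t.1).σ * (((ℓ none).σ ^ t.2.1)⁻¹ * t.2.2.out.1)) ∈ U :=
    ⟨fun c => T.filter _, fun c t => Finset.mem_filter⟩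
  have hsub : T ⊆ G.biUnion P := by
    intro t ht
    obtain ⟨⟨h1, h2, h3⟩, h4⟩ := hTm t ht
    obtain ⟨h, hh⟩ : ∃ h, h = ((ℓ none).σ ^ t.2.1)⁻¹ * t.2.2.out.1 := ⟨_, rfl⟩
    have hx : ((ℓ none).σ ^ e)⁻¹ * (h⁻¹ * (ℓ t.1).σ * h) ∈ WG0 k Ω := by
      rw [mem_WG0, wdeg_mul, wdeg_mul, wdeg_mul, wdeg_inv, wdeg_inv, hφ, (ℓ t.1).deg_σ, h1]
      ring
    have h5 := hrep' _ ⟨_, hx⟩ rfl
    rw [mul_inv_cancel_left] at h5
    refine Finset.mem_biUnion.2 ⟨_, (hG _).2 ((hE' _ _ h5).2 ?_), (hP _ _).2 ⟨ht, ?_⟩⟩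
    · simpa using hc _ h3 h⁻¹
    · rw [← hh, mul_inv_rev, mul_assoc, ← mul_assoc h⁻¹]
      exact h5
  have hPle : ∀ c, ((P c).card : ℝ) ≤ B := fun c => by
    rw [hB]
    refine card_pairs h6 hq ℓ hU A hA hτ he (rep c) (hrd c) (P c) fun t ht => ?_
    obtain ⟨h1, h2⟩ := (hP c t).1 ht
    obtain ⟨⟨h3, h4, -⟩, h5⟩ := hTm t h1
    exact ⟨h4, h3, h5, h2⟩
  have hTle : (T.card : ℝ) ≤ G.card * B := by
    have h1 : (T.card : ℝ) ≤ ∑ c ∈ G, ((P c).card : ℝ) := by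
      exact_mod_cast (Finset.card_le_card hsub).trans Finset.card_biUnion_le
    refine h1.trans ((Finset.sum_le_sum fun c _ => hPle c).trans (le_of_eq ?_))
    rw [Finset.sum_const, nsmul_eq_mul]
  rw [hT, Finset.card_product, Finset.card_product, Finset.card_range, Finset.card_univ, hcard,
    ← Set.ncard_eq_toFinset_card _ hfin] at hTle
  push_cast at hTle
  refine le_trans ?_ (mul_le_mul_of_nonneg_left hBle hθ0)
  refine le_of_mul_le_mul_left ?_ hpos
  have := mul_le_mul_of_nonneg_right hGle hB0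
  linarith

end Pool.Agent.Quad
end

-- merged part: Pool.Agent.Work.MP_60d5ce_nt.Qt.StatA
section
/-!
# Factorisation types of polynomials over a finite field: definitions and basic counts

Hints.
* `card_dvd`: `d ↦ g * d` is a bijection from `Pn (n - deg g)` onto the multiples of `g` in `Pn n`.
* `decomp`: for `d` of good type put `d0 = C (leadingCoeff d) * ∏ pl v ^ mult d v` over the `v` of degree
  less than `e0`, and `𝓔` the set of degrees of the other prime factors.  The sets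
  `{d0 * ∏ pl (p i) | p ∈ BoxP 𝓔}` for the pairs `(d0, 𝓔)` that occur are disjoint subsets of `Pn n`,
  each in bijection with `BoxP 𝓔` (`fac_box`).
-/

namespace Pool.Agent.Quad

open scoped Classical
open Polynomial

noncomputable section

variable {k : Type} [Field k] [Fintype k]

/-- the polynomial of a finite place -/
def pl : Pl k → k[X]
  | none => 1
  | some p => p.1

/-- the multiplicity of a place in a polynomial -/
def mult (d : k[X]) : Pl k → ℕ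
  | none => 0
  | some p => multiplicity p.1 d

/-- the prime factors -/
def fac (d : k[X]) : Finset (Pl k) :=
  if h : {v | mult d v ≠ 0}.Finite then h.toFinset else ∅

variable (k) in
/-- nonzero polynomials of degree `n` -/
def Pn (n : ℕ) : Set k[X] := {d | d ≠ 0 ∧ d.natDegree = n}

/-- good factorisation types -/
structure GT (e0 A n : ℕ) (d : k[X]) : Prop where
  one : ∀ v ∈ fac d, e0 ≤ pdg v → mult d v = 1
  inj : ∀ v ∈ fac d, ∀ v' ∈ fac d, e0 ≤ pdg v → pdg v = pdg v' → v = v'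
  few : ∀ e, e0 ≤ e → 2 ^ ((fac d).filter fun v => pdg v ≤ e).card ≤ e ^ 4
  many : A ≤ ((fac d).filter fun v => n ≤ pdg v ^ 2 ∧ pdg v % 2 = 1).card

variable (k) in
/-- one finite place in each degree -/
def BoxP (𝓔 : Finset ℕ) : Set (𝓔 → Pl k) := {p | ∀ i, pdg (p i) = i ∧ p i ≠ none}

theorem natDegree_pl {v : Pl k} (hv : v ≠ none) : (pl v).natDegree = pdg v := by
  cases v with
  | none => exact absurd rfl hv
  | some p => rfl

theorem monic_pl (v : Pl k) : (pl v).Monic := by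
  cases v with
  | none => exact monic_one
  | some p => exact p.2.1

theorem StatA_ne_zero_iff (d : k[X]) (v : Pl k) : mult d v ≠ 0 ↔ v ≠ none ∧ pl v ∣ d := by
  cases v with
  | none => simp [mult]
  | some p => simp [mult, pl, multiplicity_eq_zero]

theorem StatA_fin {d : k[X]} (hd : d ≠ 0) : {v | mult d v ≠ 0}.Finite := by
  refine ((Set.finite_Iic d.natDegree).biUnion fun e _ => pdg_fin (k := k) e).subset fun v hv => ?_
  obtain ⟨h1, h2⟩ := (StatA_ne_zero_iff d v).1 hv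
  refine Set.mem_biUnion (x := pdg v) ?_ rfl
  rw [Set.mem_Iic, ← natDegree_pl h1]
  exact natDegree_le_of_dvd h2 hd

theorem mem_fac {d : k[X]} (hd : d ≠ 0) {v : Pl k} : v ∈ fac d ↔ mult d v ≠ 0 := by
  rw [fac, dif_pos (StatA_fin hd), Set.Finite.mem_toFinset]
  rfl

theorem mem_fac_iff {d : k[X]} (hd : d ≠ 0) {v : Pl k} : v ∈ fac d ↔ v ≠ none ∧ pl v ∣ d := by
  rw [mem_fac hd, StatA_ne_zero_iff]

theorem mult_mul {a b : k[X]} (ha : a ≠ 0) (hb : b ≠ 0) (v : Pl k) :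
    mult (a * b) v = mult a v + mult b v := by
  cases v with
  | none => rfl
  | some p =>
    exact multiplicity_mul p.2.2.prime
      (FiniteMultiplicity.of_prime_left p.2.2.prime (mul_ne_zero ha hb))

theorem mult_pl {v : Pl k} (hv : v ≠ none) (w : Pl k) :
    mult (pl v) w = if w = v then 1 else 0 := by
  cases v with
  | none => exact absurd rfl hv
  | some p =>
    cases w with
    | none => simp [mult]
    | some q =>
      by_cases h : q = p
      · subst h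
        rw [if_pos rfl]
        exact multiplicity_self
      · rw [if_neg (fun e => h (Option.some_injective _ e))]
        refine multiplicity_eq_zero.2 fun hd => h (Subtype.ext ?_)
        exact eq_of_monic_of_associated q.2.1 p.2.1 (q.2.2.associated_of_dvd p.2.2 hd)

theorem StatA_mult_unit {d : k[X]} (hd : IsUnit d) (v : Pl k) : mult d v = 0 := by
  cases v with
  | none => rfl
  | some p => exact multiplicity_eq_zero.2 fun h => p.2.2.not_isUnit (isUnit_of_dvd_unit h hd)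

theorem StatA_mult_prod {ι : Type} (s : Finset ι) (f : ι → k[X]) (hf : ∀ i, f i ≠ 0) (v : Pl k) :
    mult (∏ i ∈ s, f i) v = ∑ i ∈ s, mult (f i) v := by
  induction s using Finset.induction_on with
  | empty => simpa using StatA_mult_unit isUnit_one v
  | insert a s ha ih =>
    rw [Finset.prod_insert ha, Finset.sum_insert ha,
      mult_mul (hf a) (Finset.prod_ne_zero_iff.2 fun i _ => hf i), ih]

theorem StatA_mult_pow {a : k[X]} (ha : a ≠ 0) (m : ℕ) (v : Pl k) :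
    mult (a ^ m) v = m * mult a v := by
  have := StatA_mult_prod (Finset.range m) (fun _ => a) (fun _ => ha) v
  simpa using this

theorem StatA_prod (n : ℕ) : ∀ d : k[X], d ≠ 0 → d.natDegree = n → ∀ S : Finset (Pl k),
    (∀ v, mult d v ≠ 0 → v ∈ S) → d = C d.leadingCoeff * ∏ v ∈ S, pl v ^ mult d v := by
  induction n using Nat.strong_induction_on with
  | _ n ih =>
    intro d hd hn S hS
    by_cases hu : IsUnit d
    · have h0 : d.natDegree = 0 := natDegree_eq_zero_of_isUnit hu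
      simp only [StatA_mult_unit hu, pow_zero, Finset.prod_const_one, mul_one]
      rw [leadingCoeff, h0]
      exact eq_C_of_natDegree_eq_zero h0
    · obtain ⟨g, hg1, hg2, e, rfl⟩ := exists_monic_irreducible_factor d hu
      have he : e ≠ 0 := right_ne_zero_of_mul hd
      let w : Pl k := some ⟨g, hg1, hg2⟩
      have hw : w ≠ none := Option.some_ne_none _
      have hm : ∀ v, mult (g * e) v = (if v = w then 1 else 0) + mult e v := fun v => by
        rw [← mult_pl hw v]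
        exact mult_mul hg1.ne_zero he v
      have hlt : e.natDegree < n := by
        rw [← hn, natDegree_mul hg1.ne_zero he]
        have := hg2.natDegree_pos
        omega
      have h1 := ih _ hlt e he rfl S fun v hv => hS v (by rw [hm]; omega)
      have hwS : w ∈ S := hS w (by rw [hm, if_pos rfl]; omega)
      have h2 : ∏ v ∈ S, pl v ^ (if v = w then 1 else 0) = g := by
        rw [Finset.prod_eq_single w (fun v _ hv => by rw [if_neg hv, pow_zero])
          (fun h => absurd hwS h), if_pos rfl, pow_one]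
        rfl
      simp only [hm, pow_add, Finset.prod_mul_distrib, h2]
      rw [leadingCoeff_monic_mul hg1, mul_left_comm, ← h1]

theorem prod_fac {d : k[X]} (hd : d ≠ 0) :
    d = C d.leadingCoeff * ∏ v ∈ fac d, pl v ^ mult d v :=
  StatA_prod _ d hd rfl _ fun _ hv => (mem_fac hd).2 hv

theorem sum_fac {d : k[X]} (hd : d ≠ 0) : ∑ v ∈ fac d, mult d v * pdg v = d.natDegree := by
  have h := congrArg natDegree (prod_fac hd)
  rw [natDegree_C_mul (leadingCoeff_ne_zero.2 hd),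
    natDegree_prod_of_monic _ _ fun v _ => (monic_pl v).pow _] at h
  rw [h]
  refine Finset.sum_congr rfl fun v hv => ?_
  rw [natDegree_pow, natDegree_pl ((mem_fac_iff hd).1 hv).1]

theorem StatA_degreeLT (m : ℕ) :
    (degreeLT k m : Set k[X]).Finite ∧ (degreeLT k m : Set k[X]).ncard = Fintype.card k ^ m := by
  have e := (degreeLTEquiv k m).toEquiv
  refine ⟨Set.finite_coe_iff.1 (Finite.of_equiv _ e.symm), ?_⟩
  rw [← Nat.card_coe_set_eq]
  refine (Nat.card_congr e).trans ?_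
  simp

theorem StatA_Pn (n : ℕ) : Pn k n = (degreeLT k (n + 1) : Set k[X]) \ degreeLT k n := by
  ext d
  simp only [Pn, Set.mem_ofPred_eq, Set.mem_sdiff, SetLike.mem_coe, mem_degreeLT]
  by_cases hd : d = 0
  · subst hd
    simp
  · rw [degree_eq_natDegree hd, Nat.cast_lt, Nat.cast_lt]
    constructor
    · rintro ⟨_, h⟩
      omega
    · rintro ⟨h1, h2⟩
      exact ⟨hd, by omega⟩

theorem Pn_finite (n : ℕ) : (Pn k n).Finite := by
  rw [StatA_Pn]
  exact (StatA_degreeLT (n + 1)).1.sdiff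

theorem Pn_ncard (n : ℕ) : (Pn k n).ncard = (Fintype.card k - 1) * Fintype.card k ^ n := by
  have hs : (degreeLT k n : Set k[X]) ⊆ degreeLT k (n + 1) := fun d hd => by
    rw [SetLike.mem_coe, mem_degreeLT] at hd ⊢
    exact hd.trans (Nat.cast_lt.2 n.lt_succ_self)
  rw [StatA_Pn, Set.ncard_sdiff hs (StatA_degreeLT n).1, (StatA_degreeLT n).2,
    (StatA_degreeLT (n + 1)).2, Nat.sub_mul, one_mul, pow_succ']

theorem card_dvd_eq {g : k[X]} (hg : g ≠ 0) {n : ℕ} (hn : g.natDegree ≤ n) :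
    {d | d ∈ Pn k n ∧ g ∣ d}.ncard * Fintype.card k ^ g.natDegree = (Pn k n).ncard := by
  have h : {d | d ∈ Pn k n ∧ g ∣ d} = (fun e => g * e) '' Pn k (n - g.natDegree) := by
    ext d
    constructor
    · rintro ⟨⟨h0, h1⟩, e, rfl⟩
      have he : e ≠ 0 := right_ne_zero_of_mul h0
      rw [natDegree_mul hg he] at h1
      exact ⟨e, ⟨he, by omega⟩, rfl⟩
    · rintro ⟨e, ⟨he, h1⟩, rfl⟩
      refine ⟨⟨mul_ne_zero hg he, ?_⟩, dvd_mul_right _ _⟩
      rw [natDegree_mul hg he]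
      omega
  rw [h, Set.ncard_image_of_injective _ (mul_right_injective₀ hg), Pn_ncard, Pn_ncard, mul_assoc,
    ← pow_add, Nat.sub_add_cancel hn]

theorem card_dvd {g : k[X]} (hg : g ≠ 0) (n : ℕ) :
    {d | d ∈ Pn k n ∧ g ∣ d}.ncard * Fintype.card k ^ g.natDegree ≤ (Pn k n).ncard := by
  by_cases hn : g.natDegree ≤ n
  · exact (card_dvd_eq hg hn).le
  · have h : {d | d ∈ Pn k n ∧ g ∣ d} = ∅ := by
      refine Set.eq_empty_of_forall_notMem fun d hd => hn ?_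
      rw [← hd.1.2]
      exact natDegree_le_of_dvd hd.2 hd.1.1
    simp [h]

theorem BoxP_finite (𝓔 : Finset ℕ) : (BoxP k 𝓔).Finite :=
  (Set.Finite.pi' fun i : 𝓔 => pdg_fin (k := k) i).subset fun _ hp i => (hp i).1

theorem StatA_box_inj {𝓔 : Finset ℕ} {p p' : 𝓔 → Pl k} (hp : p ∈ BoxP k 𝓔) (hp' : p' ∈ BoxP k 𝓔)
    {i j : 𝓔} (h : p i = p' j) : i = j :=
  Subtype.ext (by rw [← (hp i).1, ← (hp' j).1, h])

theorem StatA_monic {𝓔 : Finset ℕ} (p : 𝓔 → Pl k) : (∏ i, pl (p i)).Monic :=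
  monic_prod_of_monic _ _ fun i _ => monic_pl (p i)

theorem StatA_mult_box {d0 : k[X]} (h0 : d0 ≠ 0) {𝓔 : Finset ℕ} {p : 𝓔 → Pl k}
    (hp : p ∈ BoxP k 𝓔) (v : Pl k) :
    mult (d0 * ∏ i, pl (p i)) v = mult d0 v + ∑ i, if v = p i then 1 else 0 := by
  rw [mult_mul h0 (StatA_monic p).ne_zero, StatA_mult_prod _ _ fun i => (monic_pl (p i)).ne_zero]
  simp only [mult_pl (hp _).2]

theorem fac_box {e0 : ℕ} {d0 : k[X]} (h0 : d0 ≠ 0) (hs : ∀ v ∈ fac d0, pdg v < e0) {𝓔 : Finset ℕ}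
    (hE : ∀ e ∈ 𝓔, e0 ≤ e) {p : 𝓔 → Pl k} (hp : p ∈ BoxP k 𝓔) :
    fac (d0 * ∏ i, pl (p i)) = fac d0 ∪ Finset.univ.image p ∧
      (∀ v ∈ fac d0, mult (d0 * ∏ i, pl (p i)) v = mult d0 v) ∧
      ∀ i, mult (d0 * ∏ i, pl (p i)) (p i) = 1 := by
  have hne : ∀ i, p i ∉ fac d0 := fun i hi => by
    have h1 := hs _ hi
    have h2 := hE i i.2
    rw [(hp i).1] at h1
    omega
  refine ⟨?_, fun v hv => ?_, fun i => ?_⟩
  · ext v
    rw [mem_fac (mul_ne_zero h0 (StatA_monic p).ne_zero), StatA_mult_box h0 hp, Finset.mem_union,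
      mem_fac h0, Finset.mem_image]
    constructor
    · intro h
      by_contra hc
      rw [not_or, not_not, not_exists] at hc
      refine h ?_
      rw [hc.1, zero_add]
      exact Finset.sum_eq_zero fun i _ => if_neg fun e => hc.2 i ⟨Finset.mem_univ _, e.symm⟩
    · rintro (h | ⟨i, _, rfl⟩)
      · omega
      · have : (if p i = p i then 1 else 0 : ℕ) ≤ ∑ j, if p i = p j then 1 else 0 :=
          Finset.single_le_sum (f := fun j => if p i = p j then 1 else 0)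
            (fun _ _ => Nat.zero_le _) (Finset.mem_univ i)
        rw [if_pos rfl] at this
        omega
  · rw [StatA_mult_box h0 hp,
      Finset.sum_eq_zero fun i _ => if_neg fun (e : v = p i) => hne i (e ▸ hv), add_zero]
  · have h1 : mult d0 (p i) = 0 := by
      by_contra h
      exact hne i ((mem_fac h0).2 h)
    rw [StatA_mult_box h0 hp, h1, zero_add, Finset.sum_eq_single i
      (fun j _ hj => if_neg fun e => hj (StatA_box_inj hp hp e).symm)
      (fun h => absurd (Finset.mem_univ i) h), if_pos rfl]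

/-- the small part of a polynomial and the degrees of its other prime factors -/
def StatA_key (e0 : ℕ) (d : k[X]) : k[X] × Finset ℕ :=
  (C d.leadingCoeff * ∏ v ∈ (fac d).filter (fun v => pdg v < e0), pl v ^ mult d v,
    ((fac d).filter fun v => ¬ pdg v < e0).image pdg)

theorem StatA_key_ne {e0 : ℕ} {d : k[X]} (hd : d ≠ 0) : (StatA_key e0 d).1 ≠ 0 :=
  mul_ne_zero (C_ne_zero.2 (leadingCoeff_ne_zero.2 hd))
    (monic_prod_of_monic _ _ fun v _ => (monic_pl v).pow _).ne_zero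

theorem StatA_key_small {e0 : ℕ} {d : k[X]} (hd : d ≠ 0) :
    ∀ v ∈ fac (StatA_key e0 d).1, pdg v < e0 := by
  intro v hv
  rw [mem_fac (StatA_key_ne hd)] at hv
  by_contra hc
  refine hv ?_
  have hC : C d.leadingCoeff ≠ 0 := C_ne_zero.2 (leadingCoeff_ne_zero.2 hd)
  simp only [StatA_key]
  rw [mult_mul hC (monic_prod_of_monic _ _ fun v _ => (monic_pl v).pow _).ne_zero,
    StatA_mult_unit (isUnit_C.2 (leadingCoeff_ne_zero.2 hd).isUnit), zero_add,
    StatA_mult_prod _ _ fun w => ((monic_pl w).pow _).ne_zero]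
  refine Finset.sum_eq_zero fun w hw => ?_
  rw [Finset.mem_filter] at hw
  rw [StatA_mult_pow (monic_pl w).ne_zero, mult_pl ((mem_fac_iff hd).1 hw.1).1,
    if_neg fun (e : v = w) => hc (e ▸ hw.2), mul_zero]

theorem StatA_key_big {e0 : ℕ} (d : k[X]) : ∀ e ∈ (StatA_key e0 d).2, e0 ≤ e := by
  intro e he
  obtain ⟨v, hv, rfl⟩ := Finset.mem_image.1 he
  exact not_lt.1 (Finset.mem_filter.1 hv).2

theorem StatA_key_ex {e0 A n : ℕ} {d : k[X]} (hd : d ≠ 0) (hG : GT e0 A n d) :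
    ∃ p ∈ BoxP k (StatA_key e0 d).2, d = (StatA_key e0 d).1 * ∏ i, pl (p i) := by
  have hex : ∀ i : (StatA_key e0 d).2, ∃ v ∈ (fac d).filter fun v => ¬ pdg v < e0, pdg v = i :=
    fun i => Finset.mem_image.1 i.2
  choose p hp1 hp2 using hex
  have hbox : p ∈ BoxP k (StatA_key e0 d).2 := fun i =>
    ⟨hp2 i, ((mem_fac_iff hd).1 (Finset.mem_filter.1 (hp1 i)).1).1⟩
  refine ⟨p, hbox, ?_⟩
  have h1 : ∏ i, pl (p i) = ∏ v ∈ (fac d).filter (fun v => ¬ pdg v < e0), pl v ^ mult d v := by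
    refine Finset.prod_bij (fun i _ => p i) (fun i _ => hp1 i)
      (fun i _ j _ h => StatA_box_inj hbox hbox h) (fun v hv => ?_) (fun i _ => ?_)
    · refine ⟨⟨pdg v, Finset.mem_image_of_mem _ hv⟩, Finset.mem_univ _, ?_⟩
      have h2 := Finset.mem_filter.1 hv
      have h3 := Finset.mem_filter.1 (hp1 ⟨pdg v, Finset.mem_image_of_mem _ hv⟩)
      exact hG.inj _ h3.1 _ h2.1 (not_lt.1 h3.2) (hp2 _)
    · have h3 := Finset.mem_filter.1 (hp1 i)
      rw [hG.one _ h3.1 (not_lt.1 h3.2), pow_one]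
  rw [h1]
  simp only [StatA_key]
  rw [mul_assoc, Finset.prod_filter_mul_prod_filter_not]
  exact prod_fac hd

theorem StatA_key_box {e0 : ℕ} {d0 : k[X]} (h0 : d0 ≠ 0) (hs : ∀ v ∈ fac d0, pdg v < e0)
    {𝓔 : Finset ℕ} (hE : ∀ e ∈ 𝓔, e0 ≤ e) {p : 𝓔 → Pl k} (hp : p ∈ BoxP k 𝓔) :
    StatA_key e0 (d0 * ∏ i, pl (p i)) = (d0, 𝓔) := by
  obtain ⟨h1, h2, _⟩ := fac_box h0 hs hE hp
  have hbig : ∀ i, ¬ pdg (p i) < e0 := fun i => by
    rw [(hp i).1]
    exact not_lt.2 (hE i i.2)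
  have h3 : (fac (d0 * ∏ i, pl (p i))).filter (fun v => pdg v < e0) = fac d0 := by
    ext v
    rw [Finset.mem_filter, h1, Finset.mem_union, Finset.mem_image]
    constructor
    · rintro ⟨h | ⟨i, _, rfl⟩, h'⟩
      · exact h
      · exact absurd h' (hbig i)
    · exact fun h => ⟨Or.inl h, hs v h⟩
  refine Prod.ext ?_ ?_
  · simp only [StatA_key]
    rw [h3, leadingCoeff_mul_monic (StatA_monic p), Finset.prod_congr rfl fun v hv => by rw [h2 v hv]]
    exact (prod_fac h0).symm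
  · simp only [StatA_key]
    ext e
    rw [Finset.mem_image]
    constructor
    · rintro ⟨v, hv, rfl⟩
      rw [Finset.mem_filter, h1, Finset.mem_union, Finset.mem_image] at hv
      obtain ⟨h | ⟨i, _, rfl⟩, h'⟩ := hv
      · exact absurd (hs v h) h'
      · rw [(hp i).1]
        exact i.2
    · intro he
      refine ⟨p ⟨e, he⟩, ?_, (hp ⟨e, he⟩).1⟩
      rw [Finset.mem_filter, h1]
      exact ⟨Finset.mem_union_right _ (Finset.mem_image_of_mem _ (Finset.mem_univ _)), hbig _⟩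

theorem StatA_deg_box {d0 : k[X]} (h0 : d0 ≠ 0) {𝓔 : Finset ℕ} {p : 𝓔 → Pl k}
    (hp : p ∈ BoxP k 𝓔) : (d0 * ∏ i, pl (p i)).natDegree = d0.natDegree + ∑ i : 𝓔, (i : ℕ) := by
  rw [natDegree_mul h0 (StatA_monic p).ne_zero,
    natDegree_prod_of_monic _ _ fun i _ => monic_pl (p i)]
  simp only [natDegree_pl (hp _).2, (hp _).1]

theorem StatA_injOn {e0 : ℕ} {d0 : k[X]} (h0 : d0 ≠ 0) (hs : ∀ v ∈ fac d0, pdg v < e0)
    {𝓔 : Finset ℕ} (hE : ∀ e ∈ 𝓔, e0 ≤ e) :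
    Set.InjOn (fun p : 𝓔 → Pl k => d0 * ∏ i, pl (p i)) (BoxP k 𝓔) := by
  intro p hp p' hp' h
  funext i
  have h1 : p i ∈ fac (d0 * ∏ i, pl (p i)) := by
    rw [(fac_box h0 hs hE hp).1]
    exact Finset.mem_union_right _ (Finset.mem_image_of_mem _ (Finset.mem_univ _))
  have h' : d0 * ∏ i, pl (p i) = d0 * ∏ i, pl (p' i) := h
  rw [h', (fac_box h0 hs hE hp').1, Finset.mem_union, Finset.mem_image] at h1
  obtain h2 | ⟨j, _, h2⟩ := h1
  · have h3 := hs _ h2
    have h4 := hE i i.2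
    rw [(hp i).1] at h3
    omega
  · rw [← h2, StatA_box_inj hp' hp h2]

theorem decomp (e0 A n : ℕ) (Bad : k[X] → Prop) {ε : ℝ} (hε : 0 ≤ ε)
    (h : ∀ (d0 : k[X]) (𝓔 : Finset ℕ), d0 ≠ 0 → (∀ v ∈ fac d0, pdg v < e0) → (∀ e ∈ 𝓔, e0 ≤ e) →
      (∃ p ∈ BoxP k 𝓔, (d0 * ∏ i, pl (p i)).natDegree = n ∧ GT e0 A n (d0 * ∏ i, pl (p i))) →
      ({p | p ∈ BoxP k 𝓔 ∧ Bad (d0 * ∏ i, pl (p i))}.ncard : ℝ) ≤ ε * (BoxP k 𝓔).ncard) :
    ({d | d ∈ Pn k n ∧ GT e0 A n d ∧ Bad d}.ncard : ℝ) ≤ ε * (Pn k n).ncard := by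
  set P := (Pn_finite (k := k) n).toFinset with hP
  have hmem : ∀ d, d ∈ P ↔ d ∈ Pn k n := fun d => Set.Finite.mem_toFinset _
  set B := P.filter fun d => GT e0 A n d ∧ Bad d with hB
  set K := B.image (StatA_key e0) with hK
  have e1 : {d | d ∈ Pn k n ∧ GT e0 A n d ∧ Bad d} = (B : Set k[X]) := by
    ext d
    rw [Finset.mem_coe, Finset.mem_filter, hmem]
    rfl
  have e2 : (Pn k n).ncard = P.card := Set.ncard_eq_toFinset_card _ _
  have e3 : B.card = ∑ κ ∈ K, (B.filter fun d => StatA_key e0 d = κ).card :=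
    Finset.card_eq_sum_card_fiberwise fun d hd => Finset.mem_image_of_mem _ hd
  have e4 : ∑ κ ∈ K, (P.filter fun d => StatA_key e0 d = κ).card ≤ P.card := by
    rw [Finset.sum_card_fiberwise_eq_card_filter]
    exact Finset.card_filter_le _ _
  have key : ∀ κ ∈ K, ((B.filter fun d => StatA_key e0 d = κ).card : ℝ) ≤
      ε * (P.filter fun d => StatA_key e0 d = κ).card := by
    intro κ hκ
    obtain ⟨d, hd, rfl⟩ := Finset.mem_image.1 hκ
    obtain ⟨hdP, hdG, _⟩ := Finset.mem_filter.1 hd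
    obtain ⟨hd0, hdn⟩ := (hmem d).1 hdP
    have h0 := StatA_key_ne (e0 := e0) hd0
    have hs := StatA_key_small (e0 := e0) hd0
    have hE := StatA_key_big (e0 := e0) d
    obtain ⟨p, hp, hdp⟩ := StatA_key_ex hd0 hdG
    have h1 := h _ _ h0 hs hE ⟨p, hp, hdp ▸ hdn, hdp ▸ hdG⟩
    have h2 : (B.filter fun d' => StatA_key e0 d' = StatA_key e0 d).card ≤
        {p | p ∈ BoxP k (StatA_key e0 d).2 ∧ Bad ((StatA_key e0 d).1 * ∏ i, pl (p i))}.ncard := by
      rw [← Set.ncard_coe_finset]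
      refine (Set.ncard_le_ncard ?_ (((BoxP_finite _).subset fun _ hq => hq.1).image
        fun p => (StatA_key e0 d).1 * ∏ i, pl (p i))).trans
        (Set.ncard_image_le ((BoxP_finite _).subset fun _ hq => hq.1))
      intro d' hd'
      obtain ⟨hd1, hd2⟩ := Finset.mem_filter.1 (Finset.mem_coe.1 hd')
      obtain ⟨hd3, hd4, hd5⟩ := Finset.mem_filter.1 hd1
      have h3 := StatA_key_ex ((hmem d').1 hd3).1 hd4
      rw [hd2] at h3
      obtain ⟨q, hq, hdq⟩ := h3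
      exact ⟨q, ⟨hq, hdq ▸ hd5⟩, hdq.symm⟩
    have h3 : (BoxP k (StatA_key e0 d).2).ncard ≤
        (P.filter fun d' => StatA_key e0 d' = StatA_key e0 d).card := by
      rw [← Set.ncard_coe_finset, ← (StatA_injOn h0 hs hE).ncard_image]
      refine Set.ncard_le_ncard ?_ (Finset.finite_toSet _)
      rintro _ ⟨q, hq, rfl⟩
      refine Finset.mem_coe.2 (Finset.mem_filter.2 ⟨(hmem _).2
        ⟨mul_ne_zero h0 (StatA_monic q).ne_zero, ?_⟩, StatA_key_box h0 hs hE hq⟩)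
      rw [StatA_deg_box h0 hq, ← StatA_deg_box h0 hp, ← hdp, hdn]
    exact (Nat.cast_le.2 h2).trans (h1.trans (mul_le_mul_of_nonneg_left (Nat.cast_le.2 h3) hε))
  rw [e1, Set.ncard_coe_finset, e2, e3, Nat.cast_sum]
  refine (Finset.sum_le_sum key).trans ?_
  rw [← Finset.mul_sum, ← Nat.cast_sum]
  exact mul_le_mul_of_nonneg_left (Nat.cast_le.2 e4) hε

end

end Pool.Agent.Quad
end

-- merged part: Pool.Agent.Work.MP_60d5ce_nt.Qt.StatB
section
/-!
# Almost all polynomials have a good factorisation type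

Write `π e` for the number of finite places of degree `e`: `e * π e ≤ q ^ e` (`pnt_upper`) and
`q ^ e ≤ e * π e + 2 * q ^ ((e + 1) / 2)` (`pnt`).  The proportion of multiples of `g` in `Pn n` is at
most `q ^ (-deg g)` (`card_dvd`), with equality if `deg g ≤ n` (`card_dvd_eq`).
* `bad_one`: `pl v ^ 2 ∣ d`; `∑ e ≥ e0, π e * q ^ (-2 e) ≤ ∑ 2 ^ (-e)`.
* `bad_inj`: `pl v * pl v' ∣ d`; `∑ e ≥ e0, 1 / e ^ 2 ≤ 1 / (e0 - 1)`.
* `bad_few`: `2 ^ card` is the number of subsets `B` of the places of degree at most `e` with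
  `∏ v ∈ B, pl v ∣ d`; its mean is at most `∏ (1 + q ^ (-deg v)) ≤ exp (∑ j ≤ e, 1 / j) ≤ 3 e`
  (`Finset.prod_one_add`, `harmonic_le_one_add_log`); Markov: proportion at most `3 / e ^ 3`.
  Only `e ≤ max e0 n` matters.
* `bad_many`: second moment for the number `X` of prime factors with degree in
  `I = {e | n ≤ e ^ 2, 2 e ≤ n, e odd}`: mean `μ = ∑ e ∈ I, π e * q ^ (-e)`, mean of `X (X - 1)` at most
  `μ ^ 2`, so the variance is at most `μ`, and `μ ≥ (1 / 2) ∑ e ∈ I, 1 / e` tends to infinity.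
-/

namespace Pool.Agent.Quad

open scoped Classical
open Polynomial Filter

variable {k : Type} [Field k] [Fintype k]

variable (k) in
/-- the sample space -/
noncomputable def StatB_Om (n : ℕ) : Finset k[X] := (Pn_finite (k := k) n).toFinset

theorem StatB_mem {n : ℕ} {d : k[X]} : d ∈ StatB_Om k n ↔ d ∈ Pn k n := Set.Finite.mem_toFinset _

theorem StatB_cnt (n : ℕ) (p : k[X] → Prop) : ({d | d ∈ Pn k n ∧ p d}.ncard : ℝ) =
    ∑ d ∈ StatB_Om k n, if p d then (1 : ℝ) else 0 := by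
  rw [Finset.sum_boole, ← Set.ncard_coe_finset]
  congr 2
  ext d
  simp [StatB_mem]

theorem StatB_N (n : ℕ) : ((Pn k n).ncard : ℝ) = (StatB_Om k n).card := by
  rw [← Set.ncard_coe_finset, StatB_Om, Set.Finite.coe_toFinset]

theorem StatB_markov (n : ℕ) (p : k[X] → Prop) (f : k[X] → ℝ) (c : ℝ)
    (h0 : ∀ d ∈ Pn k n, 0 ≤ f d) (h : ∀ d ∈ Pn k n, p d → c ≤ f d) :
    c * ({d | d ∈ Pn k n ∧ p d}.ncard : ℝ) ≤ ∑ d ∈ StatB_Om k n, f d := by
  rw [StatB_cnt, Finset.mul_sum]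
  refine Finset.sum_le_sum fun d hd => ?_
  split_ifs with hp
  · rw [mul_one]
    exact h d (StatB_mem.1 hd) hp
  · rw [mul_zero]
    exact h0 d (StatB_mem.1 hd)

theorem StatB_union {ι : Type} (n : ℕ) (p : k[X] → Prop) (s : Finset ι) (r : ι → k[X] → Prop)
    (h : ∀ d ∈ Pn k n, p d → ∃ i ∈ s, r i d) :
    ({d | d ∈ Pn k n ∧ p d}.ncard : ℝ) ≤ ∑ i ∈ s, ({d | d ∈ Pn k n ∧ r i d}.ncard : ℝ) := by
  have := StatB_markov n p (fun d => ∑ i ∈ s, if r i d then (1 : ℝ) else 0) 1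
    (fun d _ => Finset.sum_nonneg fun i _ => by split_ifs <;> norm_num) (fun d hd hp => by
      obtain ⟨i, hi, hr⟩ := h d hd hp
      have := Finset.single_le_sum (f := fun i => if r i d then (1 : ℝ) else 0)
        (fun i _ => by split_ifs <;> norm_num) hi
      simpa [hr] using this)
  rw [one_mul, Finset.sum_comm] at this
  simpa only [StatB_cnt] using this

variable (k) in
/-- the finite places of degree `e` -/
noncomputable def StatB_Pe (e : ℕ) : Finset (Pl k) :=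
  Set.Finite.toFinset (s := {v : Pl k | pdg v = e ∧ v ≠ none})
    ((pdg_fin (k := k) e).subset fun _ hv => hv.1)

theorem StatB_mem_Pe {e : ℕ} {v : Pl k} : v ∈ StatB_Pe k e ↔ pdg v = e ∧ v ≠ none :=
  Set.Finite.mem_toFinset _

theorem StatB_card_Pe (e : ℕ) :
    {v : Pl k | pdg v = e ∧ v ≠ none}.ncard = (StatB_Pe k e).card := by
  rw [← Set.ncard_coe_finset, StatB_Pe, Set.Finite.coe_toFinset]

theorem StatB_q : (2 : ℝ) ≤ Fintype.card k := by
  exact_mod_cast Fintype.one_lt_card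

theorem StatB_upper {e : ℕ} (he : 0 < e) :
    ((StatB_Pe k e).card : ℝ) * ((Fintype.card k : ℝ) ^ e)⁻¹ ≤ (e : ℝ)⁻¹ := by
  have h := pnt_upper (k := k) e
  rw [StatB_card_Pe] at h
  have h' : (e : ℝ) * (StatB_Pe k e).card ≤ (Fintype.card k : ℝ) ^ e := by exact_mod_cast h
  have hq : (0 : ℝ) < (Fintype.card k : ℝ) ^ e := pow_pos (by linarith [StatB_q (k := k)]) _
  have he' : (0 : ℝ) < e := by exact_mod_cast he
  rw [← div_eq_mul_inv, inv_eq_one_div, div_le_div_iff₀ hq he']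
  linarith

theorem StatB_lower {e : ℕ} (he : 4 ≤ e) :
    (2 * e : ℝ)⁻¹ ≤ ((StatB_Pe k e).card : ℝ) * ((Fintype.card k : ℝ) ^ e)⁻¹ := by
  have h := pnt (k := k) e (by omega)
  rw [StatB_card_Pe] at h
  have h2 := StatB_q (k := k)
  have hq : (0 : ℝ) < (Fintype.card k : ℝ) ^ e := pow_pos (by linarith) _
  have he' : (0 : ℝ) < e := by exact_mod_cast (by omega : 0 < e)
  have h3 : (Fintype.card k : ℝ) ^ ((e + 1) / 2 + 2) ≤ (Fintype.card k : ℝ) ^ e :=
    pow_le_pow_right₀ (by linarith) (by omega)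
  have h4 : (0 : ℝ) < (Fintype.card k : ℝ) ^ ((e + 1) / 2) := pow_pos (by linarith) _
  have h5 : (4 : ℝ) ≤ (Fintype.card k : ℝ) ^ 2 := by nlinarith
  rw [pow_add] at h3
  have h6 := mul_le_mul_of_nonneg_left h5 h4.le
  rw [← div_eq_mul_inv, inv_eq_one_div, div_le_div_iff₀ (by positivity) hq]
  linarith

/-- the weight of a place -/
noncomputable def StatB_w (v : Pl k) : ℝ := ((Fintype.card k : ℝ) ^ pdg v)⁻¹

theorem StatB_w_nonneg (v : Pl k) : 0 ≤ StatB_w v := by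
  unfold StatB_w
  positivity

theorem StatB_sum_w (I : Finset ℕ) : ∑ v ∈ I.biUnion (StatB_Pe k), StatB_w v =
    ∑ e ∈ I, ((StatB_Pe k e).card : ℝ) * ((Fintype.card k : ℝ) ^ e)⁻¹ := by
  rw [Finset.sum_biUnion]
  · refine Finset.sum_congr rfl fun e _ => ?_
    rw [← nsmul_eq_mul, ← Finset.sum_const]
    exact Finset.sum_congr rfl fun v hv => by rw [StatB_w, (StatB_mem_Pe.1 hv).1]
  · intro e _ e' _ hne
    exact Finset.disjoint_left.2 fun v hv hv' =>
      hne ((StatB_mem_Pe.1 hv).1.symm.trans (StatB_mem_Pe.1 hv').1)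

theorem StatB_dvd {g : k[X]} (hg : g ≠ 0) (n : ℕ) : ({d | d ∈ Pn k n ∧ g ∣ d}.ncard : ℝ) ≤
    ((Fintype.card k : ℝ) ^ g.natDegree)⁻¹ * (Pn k n).ncard := by
  have h := card_dvd hg n
  have hq : (0 : ℝ) < (Fintype.card k : ℝ) ^ g.natDegree :=
    pow_pos (by linarith [StatB_q (k := k)]) _
  rw [le_inv_mul_iff₀ hq, mul_comm]
  exact_mod_cast h

theorem StatB_dvd_eq {v : Pl k} (hv : v ≠ none) {n : ℕ} (hn : pdg v ≤ n) :
    ({d | d ∈ Pn k n ∧ pl v ∣ d}.ncard : ℝ) = StatB_w v * (Pn k n).ncard := by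
  have h := card_dvd_eq (monic_pl v).ne_zero (n := n) (by rw [natDegree_pl hv]; exact hn)
  rw [natDegree_pl hv] at h
  have hq : (0 : ℝ) < (Fintype.card k : ℝ) ^ pdg v := pow_pos (by linarith [StatB_q (k := k)]) _
  rw [StatB_w, eq_inv_mul_iff_mul_eq₀ hq.ne', mul_comm]
  exact_mod_cast h

omit [Fintype k] in
theorem StatB_coprime {v v' : Pl k} (hv : v ≠ none) (hv' : v' ≠ none) (h : v ≠ v') :
    IsCoprime (pl v) (pl v') := by
  obtain _ | p := v
  · exact absurd rfl hv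
  obtain _ | p' := v'
  · exact absurd rfl hv'
  refine p.2.2.coprime_iff_not_dvd.2 fun hd => h ?_
  exact congrArg some (Subtype.ext (eq_of_monic_of_associated p.2.1 p'.2.1
    (p.2.2.associated_of_dvd p'.2.2 hd)))

theorem StatB_prod (B : Finset (Pl k)) (hB : ∀ v ∈ B, v ≠ none) (n : ℕ) :
    ({d | d ∈ Pn k n ∧ ∀ v ∈ B, pl v ∣ d}.ncard : ℝ) ≤ (∏ v ∈ B, StatB_w v) * (Pn k n).ncard := by
  have hm : (∏ v ∈ B, pl v).Monic := monic_prod_of_monic _ _ fun v _ => monic_pl v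
  have h := StatB_dvd hm.ne_zero n
  rw [natDegree_prod_of_monic _ _ fun v _ => monic_pl v,
    Finset.sum_congr rfl fun v hv => natDegree_pl (hB v hv), ← Finset.prod_pow_eq_pow_sum,
    ← Finset.prod_inv_distrib] at h
  refine le_trans ?_ h
  refine Nat.cast_le.2 (Set.ncard_le_ncard (fun d hd => ⟨hd.1, ?_⟩)
    ((Pn_finite n).subset fun d hd => hd.1))
  exact Finset.prod_dvd_of_coprime (fun v hv v' hv' hne => StatB_coprime (hB v hv) (hB v' hv') hne)
    hd.2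

theorem StatB_pair {v v' : Pl k} (hv : v ≠ none) (hv' : v' ≠ none) (h : v ≠ v') (n : ℕ) :
    ({d | d ∈ Pn k n ∧ (pl v ∣ d ∧ pl v' ∣ d)}.ncard : ℝ) ≤
      StatB_w v * StatB_w v' * (Pn k n).ncard := by
  have := StatB_prod {v, v'} (by simp [hv, hv']) n
  rw [Finset.prod_pair h] at this
  simpa using this

theorem StatB_pdg_le {n : ℕ} {d : k[X]} (hd : d ∈ Pn k n) {v : Pl k} (hv : v ∈ fac d) :
    pdg v ≤ n := by
  obtain ⟨h1, h2⟩ := (mem_fac_iff hd.1).1 hv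
  rw [← natDegree_pl h1, ← hd.2]
  exact natDegree_le_of_dvd h2 hd.1

theorem StatB_inv_sq {e0 : ℕ} (he : 1 ≤ e0) (m : ℕ) :
    ∑ e ∈ Finset.Icc e0 m, ((e : ℝ) ^ 2)⁻¹ ≤ 2 / e0 := by
  obtain ⟨j, rfl⟩ := Nat.exists_eq_add_of_le' he
  have h := sum_Ioo_inv_sq_le (α := ℝ) j (m + 1)
  have e : Finset.Icc (j + 1) m = Finset.Ioo j (m + 1) := by
    ext i
    simp only [Finset.mem_Icc, Finset.mem_Ioo]
    omega
  rw [e]
  push_cast
  exact h

theorem StatB_few {e : ℕ} (he : 1 ≤ e) (n : ℕ) :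
    ({d | d ∈ Pn k n ∧ e ^ 4 < 2 ^ ((fac d).filter fun v => pdg v ≤ e).card}.ncard : ℝ) ≤
      3 * ((e : ℝ) ^ 2)⁻¹ * (Pn k n).ncard := by
  set L := (Finset.Icc 1 e).biUnion (StatB_Pe k) with hL
  have he' : (1 : ℝ) ≤ e := by exact_mod_cast he
  have h1 := StatB_markov n (fun d => e ^ 4 < 2 ^ ((fac d).filter fun v => pdg v ≤ e).card)
    (fun d => ∑ B ∈ L.powerset, if ∀ v ∈ B, pl v ∣ d then (1 : ℝ) else 0) ((e : ℝ) ^ 4)
    (fun d _ => Finset.sum_nonneg fun i _ => by split_ifs <;> norm_num) (fun d hd hp => by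
      rw [Finset.sum_boole]
      rw [← Finset.card_powerset] at hp
      refine le_trans (by exact_mod_cast hp.le) (Nat.cast_le.2 (Finset.card_le_card fun B hB => ?_))
      have hB' := Finset.mem_powerset.1 hB
      refine Finset.mem_filter.2 ⟨Finset.mem_powerset.2 fun v hv => ?_, fun v hv => ?_⟩
      · obtain ⟨h1, h2⟩ := Finset.mem_filter.1 (hB' hv)
        exact Finset.mem_biUnion.2 ⟨pdg v, Finset.mem_Icc.2 ⟨pdg_pos v, h2⟩,
          StatB_mem_Pe.2 ⟨rfl, ((mem_fac_iff hd.1).1 h1).1⟩⟩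
      · exact ((mem_fac_iff hd.1).1 (Finset.mem_filter.1 (hB' hv)).1).2)
  have h2 : ∑ d ∈ StatB_Om k n, ∑ B ∈ L.powerset, (if ∀ v ∈ B, pl v ∣ d then (1 : ℝ) else 0) ≤
      (∏ v ∈ L, (1 + StatB_w v)) * (Pn k n).ncard := by
    rw [Finset.sum_comm, Finset.prod_one_add, Finset.sum_mul]
    refine Finset.sum_le_sum fun B hB => ?_
    have := StatB_prod B (fun v hv => by
      obtain ⟨j, -, hj⟩ := Finset.mem_biUnion.1 (Finset.mem_powerset.1 hB hv)
      exact (StatB_mem_Pe.1 hj).2) n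
    rw [StatB_cnt] at this
    exact le_trans (le_of_eq (Finset.sum_congr rfl fun d _ => by congr)) this
  have h3 : ∑ v ∈ L, StatB_w v ≤ 1 + Real.log e := by
    rw [hL, StatB_sum_w]
    refine le_trans (Finset.sum_le_sum fun j hj => StatB_upper (Finset.mem_Icc.1 hj).1) ?_
    have := harmonic_le_one_add_log e
    rw [harmonic_eq_sum_Icc] at this
    push_cast at this
    exact this
  have h4 : ∏ v ∈ L, (1 + StatB_w v) ≤ 3 * (e : ℝ) ^ 2 := by
    refine (Real.prod_one_add_le_exp_sum L StatB_w_nonneg).trans ((Real.exp_le_exp.2 h3).trans ?_)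
    rw [Real.exp_add, Real.exp_log (by linarith)]
    exact mul_le_mul Real.exp_one_lt_three.le (by nlinarith) (by linarith) (by norm_num)
  have h5 := h1.trans (h2.trans (mul_le_mul_of_nonneg_right h4 (Nat.cast_nonneg _)))
  have h6 : (0 : ℝ) < (e : ℝ) ^ 4 := by positivity
  refine le_of_mul_le_mul_left (h5.trans_eq ?_) h6
  field_simp

theorem StatB_var (L : Finset (Pl k)) (n : ℕ) (hL : ∀ v ∈ L, v ≠ none ∧ pdg v ≤ n) :
    ∑ d ∈ StatB_Om k n, ((∑ v ∈ L, if pl v ∣ d then (1 : ℝ) else 0) - ∑ v ∈ L, StatB_w v) ^ 2 ≤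
      (∑ v ∈ L, StatB_w v) * (Pn k n).ncard := by
  set μ := ∑ v ∈ L, StatB_w v with hμ
  have h1 : ∑ d ∈ StatB_Om k n, ∑ v ∈ L, (if pl v ∣ d then (1 : ℝ) else 0) =
      μ * (Pn k n).ncard := by
    rw [Finset.sum_comm, hμ, Finset.sum_mul]
    refine Finset.sum_congr rfl fun v hv => ?_
    rw [← StatB_dvd_eq (hL v hv).1 (hL v hv).2, StatB_cnt]
  have h2 : ∑ d ∈ StatB_Om k n, (∑ v ∈ L, if pl v ∣ d then (1 : ℝ) else 0) ^ 2 ≤
      (μ ^ 2 + μ) * (Pn k n).ncard := by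
    have e1 : (μ ^ 2 + μ) * (Pn k n).ncard = ∑ v ∈ L, ∑ v' ∈ L,
        (StatB_w v * StatB_w v' + if v = v' then StatB_w v else 0) * (Pn k n).ncard := by
      simp only [← Finset.sum_mul, Finset.sum_add_distrib, Finset.sum_ite_eq]
      rw [Finset.sum_congr rfl fun v hv => if_pos hv, sq, hμ, Finset.sum_mul_sum]
    simp only [sq, Finset.sum_mul_sum] at e1 ⊢
    rw [e1, Finset.sum_comm]
    refine Finset.sum_le_sum fun v hv => ?_
    rw [Finset.sum_comm]
    refine Finset.sum_le_sum fun v' hv' => ?_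
    have e2 : ∑ d ∈ StatB_Om k n, (if pl v ∣ d then (1 : ℝ) else 0) *
        (if pl v' ∣ d then (1 : ℝ) else 0) =
        ({d | d ∈ Pn k n ∧ (pl v ∣ d ∧ pl v' ∣ d)}.ncard : ℝ) := by
      rw [StatB_cnt]
      refine Finset.sum_congr rfl fun d _ => ?_
      by_cases a1 : pl v ∣ d <;> by_cases a2 : pl v' ∣ d <;> simp [a1, a2]
    rw [e2]
    by_cases hvv : v = v'
    · subst hvv
      simp only [and_self, if_true]
      rw [StatB_dvd_eq (hL v hv).1 (hL v hv).2]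
      exact mul_le_mul_of_nonneg_right (le_add_of_nonneg_left (mul_self_nonneg _))
        (Nat.cast_nonneg _)
    · rw [if_neg hvv, add_zero]
      exact StatB_pair (hL v hv).1 (hL v' hv').1 hvv n
  simp only [sub_sq, Finset.sum_add_distrib, Finset.sum_sub_distrib, ← Finset.sum_mul,
    ← Finset.mul_sum, h1, Finset.sum_const, nsmul_eq_mul, ← StatB_N]
  linarith

theorem StatB_harm {s : ℕ} (hs : 1 ≤ s) (K : ℕ) :
    (K : ℝ) / 2 ≤ ∑ j ∈ Finset.Ico s (2 ^ K * s), (j : ℝ)⁻¹ := by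
  induction K with
  | zero => simp
  | succ K ih =>
    have h1 : s ≤ 2 ^ K * s := Nat.le_mul_of_pos_left _ (by positivity)
    have h2 : 2 ^ (K + 1) * s = 2 ^ K * s + 2 ^ K * s := by ring
    rw [← Finset.sum_Ico_consecutive _ h1 (by omega : 2 ^ K * s ≤ 2 ^ (K + 1) * s), h2]
    set a := 2 ^ K * s with ha
    have ha0 : (0 : ℝ) < a := by exact_mod_cast (by omega : 0 < a)
    have h3 : ∑ _j ∈ Finset.Ico a (a + a), (2 * a : ℝ)⁻¹ ≤ ∑ j ∈ Finset.Ico a (a + a), (j : ℝ)⁻¹ := by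
      refine Finset.sum_le_sum fun j hj => ?_
      obtain ⟨h4, h5⟩ := Finset.mem_Ico.1 hj
      refine inv_anti₀ (by exact_mod_cast (by omega : 0 < j)) ?_
      exact_mod_cast (by omega : j ≤ 2 * a)
    rw [Finset.sum_const, Nat.card_Ico, Nat.add_sub_cancel, nsmul_eq_mul] at h3
    have h6 : (a : ℝ) * (2 * a : ℝ)⁻¹ = 1 / 2 := by field_simp
    push_cast
    linarith

theorem StatB_mean (K : ℕ) : ∀ᶠ n : ℕ in atTop, ∃ L : Finset (Pl k),
    (∀ v ∈ L, v ≠ none ∧ pdg v ≤ n ∧ n ≤ pdg v ^ 2 ∧ pdg v % 2 = 1) ∧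
      (K : ℝ) / 16 ≤ ∑ v ∈ L, StatB_w v := by
  filter_upwards [eventually_ge_atTop ((6 * 2 ^ K + 1) * (6 * 2 ^ K + 1))] with n hn
  have h1 : 6 * 2 ^ K + 1 ≤ Nat.sqrt n := Nat.le_sqrt.2 hn
  have h2 : Nat.sqrt n * Nat.sqrt n ≤ n := Nat.sqrt_le n
  have h3 : n < (Nat.sqrt n + 1) * (Nat.sqrt n + 1) := Nat.lt_succ_sqrt n
  set r := Nat.sqrt n with hr
  refine ⟨((Finset.Ico (r + 1) (2 ^ K * (r + 1))).image fun j => 2 * j + 1).biUnion (StatB_Pe k),
    fun v hv => ?_, ?_⟩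
  · obtain ⟨e, he, hve⟩ := Finset.mem_biUnion.1 hv
    obtain ⟨j, hj, rfl⟩ := Finset.mem_image.1 he
    obtain ⟨h4, h5⟩ := Finset.mem_Ico.1 hj
    obtain ⟨h6, h7⟩ := StatB_mem_Pe.1 hve
    rw [h6]
    refine ⟨h7, ?_, ?_, by omega⟩
    · have a1 : 2 ^ K * (r + 1) ≤ 2 ^ K * (2 * r) := Nat.mul_le_mul_left _ (by omega)
      have a2 : (6 * 2 ^ K + 1) * r ≤ r * r := Nat.mul_le_mul_right _ h1
      have a3 : (6 * 2 ^ K + 1) * r = 3 * (2 ^ K * (2 * r)) + r := by ring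
      omega
    · rw [sq]
      exact h3.le.trans (Nat.mul_le_mul (by omega) (by omega))
  · rw [StatB_sum_w, Finset.sum_image fun a _ b _ h => by simpa using h]
    have h4 := StatB_harm (s := r + 1) (by omega) K
    have h5 : (K : ℝ) / 16 ≤ ∑ j ∈ Finset.Ico (r + 1) (2 ^ K * (r + 1)), 8⁻¹ * (j : ℝ)⁻¹ := by
      rw [← Finset.mul_sum]
      linarith
    refine h5.trans (Finset.sum_le_sum fun j hj => ?_)
    have h6 : 1 ≤ j := by have := (Finset.mem_Ico.1 hj).1; omega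
    have h7 : (1 : ℝ) ≤ j := by exact_mod_cast h6
    have h8 : 2 ≤ j := by
      have := (Finset.mem_Ico.1 hj).1
      have : 0 < 2 ^ K := by positivity
      omega
    refine le_trans ?_ (StatB_lower (by omega))
    rw [← mul_inv]
    refine inv_anti₀ (by positivity) ?_
    push_cast
    linarith

theorem bad_one {e0 : ℕ} (he : 1 ≤ e0) (n : ℕ) :
    ({d | d ∈ Pn k n ∧ ∃ v ∈ fac d, e0 ≤ pdg v ∧ mult d v ≠ 1}.ncard : ℝ) ≤
      2 / e0 * (Pn k n).ncard := by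
  refine (StatB_union n _ ((Finset.Icc e0 n).sigma (StatB_Pe k)) (fun i d => pl i.2 ^ 2 ∣ d)
    fun d hd hp => ?_).trans ?_
  · obtain ⟨v, hv, h1, h2⟩ := hp
    have h3 := (mem_fac hd.1).1 hv
    have h4 := ((mem_fac_iff hd.1).1 hv).1
    refine ⟨⟨pdg v, v⟩, Finset.mem_sigma.2 ⟨Finset.mem_Icc.2 ⟨h1, StatB_pdg_le hd hv⟩,
      StatB_mem_Pe.2 ⟨rfl, h4⟩⟩, ?_⟩
    obtain _ | p := v
    · exact absurd rfl h4
    · exact pow_dvd_of_le_multiplicity (show 2 ≤ mult d (some p) by omega)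
  rw [Finset.sum_sigma]
  refine le_trans (Finset.sum_le_sum fun e hE => ?_) ((Finset.sum_mul _ _ _).symm.trans_le
    (mul_le_mul_of_nonneg_right (StatB_inv_sq he n) (Nat.cast_nonneg _)))
  have he0 : 0 < e := lt_of_lt_of_le he (Finset.mem_Icc.1 hE).1
  have h1 : ∀ v ∈ StatB_Pe k e, ({d | d ∈ Pn k n ∧ pl v ^ 2 ∣ d}.ncard : ℝ) ≤
      ((Fintype.card k : ℝ) ^ e)⁻¹ * ((Fintype.card k : ℝ) ^ e)⁻¹ * (Pn k n).ncard := by
    intro v hv
    have := StatB_dvd (pow_ne_zero 2 (monic_pl v).ne_zero) n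
    rwa [natDegree_pow, natDegree_pl (StatB_mem_Pe.1 hv).2, (StatB_mem_Pe.1 hv).1, two_mul, pow_add,
      mul_inv] at this
  refine (Finset.sum_le_card_nsmul _ _ _ h1).trans ?_
  rw [nsmul_eq_mul, ← mul_assoc, ← mul_assoc, sq, mul_inv]
  refine mul_le_mul_of_nonneg_right (mul_le_mul (StatB_upper he0) ?_ (by positivity)
    (by positivity)) (Nat.cast_nonneg _)
  refine inv_anti₀ (by exact_mod_cast he0) ?_
  exact_mod_cast (Nat.lt_pow_self Fintype.one_lt_card).le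

theorem bad_inj {e0 : ℕ} (he : 1 ≤ e0) (n : ℕ) :
    ({d | d ∈ Pn k n ∧ ∃ v ∈ fac d, ∃ v' ∈ fac d, e0 ≤ pdg v ∧ pdg v = pdg v' ∧ v ≠ v'}.ncard : ℝ)
      ≤ 2 / e0 * (Pn k n).ncard := by
  refine (StatB_union n _ ((Finset.Icc e0 n).sigma fun e => (StatB_Pe k e).offDiag)
    (fun i d => pl i.2.1 ∣ d ∧ pl i.2.2 ∣ d) fun d hd hp => ?_).trans ?_
  · obtain ⟨v, hv, v', hv', h1, h2, h3⟩ := hp
    have h4 := (mem_fac_iff hd.1).1 hv
    have h5 := (mem_fac_iff hd.1).1 hv'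
    exact ⟨⟨pdg v, v, v'⟩, Finset.mem_sigma.2 ⟨Finset.mem_Icc.2 ⟨h1, StatB_pdg_le hd hv⟩,
      Finset.mem_offDiag.2 ⟨StatB_mem_Pe.2 ⟨rfl, h4.1⟩, StatB_mem_Pe.2 ⟨h2.symm, h5.1⟩, h3⟩⟩,
      h4.2, h5.2⟩
  rw [Finset.sum_sigma]
  refine le_trans (Finset.sum_le_sum fun e hE => ?_) ((Finset.sum_mul _ _ _).symm.trans_le
    (mul_le_mul_of_nonneg_right (StatB_inv_sq he n) (Nat.cast_nonneg _)))
  have he0 : 0 < e := lt_of_lt_of_le he (Finset.mem_Icc.1 hE).1
  have h1 : ∀ p ∈ (StatB_Pe k e).offDiag,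
      ({d | d ∈ Pn k n ∧ (pl p.1 ∣ d ∧ pl p.2 ∣ d)}.ncard : ℝ) ≤
      ((Fintype.card k : ℝ) ^ e)⁻¹ * ((Fintype.card k : ℝ) ^ e)⁻¹ * (Pn k n).ncard := by
    intro p hp
    obtain ⟨a1, a2, a3⟩ := Finset.mem_offDiag.1 hp
    have := StatB_pair (StatB_mem_Pe.1 a1).2 (StatB_mem_Pe.1 a2).2 a3 n
    rwa [StatB_w, StatB_w, (StatB_mem_Pe.1 a1).1, (StatB_mem_Pe.1 a2).1] at this
  refine (Finset.sum_le_card_nsmul _ _ _ h1).trans ?_
  rw [nsmul_eq_mul, ← mul_assoc, sq, mul_inv]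
  refine mul_le_mul_of_nonneg_right ?_ (Nat.cast_nonneg _)
  have h2 : ((StatB_Pe k e).offDiag.card : ℝ) ≤ (StatB_Pe k e).card * (StatB_Pe k e).card := by
    rw [Finset.offDiag_card]
    exact_mod_cast Nat.sub_le _ _
  refine (mul_le_mul_of_nonneg_right h2 (by positivity)).trans ?_
  rw [mul_mul_mul_comm]
  exact mul_le_mul (StatB_upper he0) (StatB_upper he0) (by positivity) (by positivity)

theorem bad_few {e0 : ℕ} (he : 1 ≤ e0) (n : ℕ) :
    ({d | d ∈ Pn k n ∧ ∃ e, e0 ≤ e ∧ e ^ 4 < 2 ^ ((fac d).filter fun v => pdg v ≤ e).card}.ncard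
      : ℝ) ≤ 6 / e0 * (Pn k n).ncard := by
  refine (StatB_union n _ (Finset.Icc e0 (max e0 n))
    (fun e d => e ^ 4 < 2 ^ ((fac d).filter fun v => pdg v ≤ e).card) fun d hd hp => ?_).trans ?_
  · obtain ⟨e, h1, h2⟩ := hp
    by_cases h3 : e ≤ max e0 n
    · exact ⟨e, Finset.mem_Icc.2 ⟨h1, h3⟩, h2⟩
    · refine ⟨max e0 n, Finset.mem_Icc.2 ⟨le_max_left _ _, le_rfl⟩, ?_⟩
      refine lt_of_le_of_lt (Nat.pow_le_pow_left (not_le.1 h3).le 4) (h2.trans_le ?_)
      refine Nat.pow_le_pow_right (by norm_num) (Finset.card_le_card fun v hv => ?_)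
      have h4 := (Finset.mem_filter.1 hv).1
      exact Finset.mem_filter.2 ⟨h4, (StatB_pdg_le hd h4).trans (le_max_right _ _)⟩
  refine (Finset.sum_le_sum fun e hE => StatB_few (he.trans (Finset.mem_Icc.1 hE).1) n).trans ?_
  rw [← Finset.sum_mul, ← Finset.mul_sum]
  refine mul_le_mul_of_nonneg_right ?_ (Nat.cast_nonneg _)
  have := StatB_inv_sq he (max e0 n)
  calc _ ≤ 3 * (2 / (e0 : ℝ)) := by linarith
    _ = _ := by ring

theorem bad_many (A : ℕ) {δ : ℝ} (hδ : 0 < δ) : ∀ᶠ n in atTop,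
    ({d | d ∈ Pn k n ∧
      ((fac d).filter fun v => n ≤ pdg v ^ 2 ∧ pdg v % 2 = 1).card < A}.ncard : ℝ) ≤
      δ * (Pn k n).ncard := by
  obtain ⟨K, hK⟩ := exists_nat_ge (16 * (2 * A + 4 / δ))
  filter_upwards [StatB_mean (k := k) K] with n hn
  obtain ⟨L, hL, hμ⟩ := hn
  have hv := StatB_var L n fun v hv => ⟨(hL v hv).1, (hL v hv).2.1⟩
  set μ := ∑ v ∈ L, StatB_w v with hμdef
  have h1 : 0 < 4 / δ := by positivity
  have hA : (0 : ℝ) ≤ A := Nat.cast_nonneg _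
  have h2 : 2 * A ≤ μ := by linarith
  have h3 : 4 / δ ≤ μ := by linarith
  have h4 : 0 < μ := by linarith
  have h5 := StatB_markov n
    (fun d => ((fac d).filter fun v => n ≤ pdg v ^ 2 ∧ pdg v % 2 = 1).card < A)
    (fun d => ((∑ v ∈ L, if pl v ∣ d then (1 : ℝ) else 0) - μ) ^ 2) ((μ / 2) ^ 2)
    (fun d _ => sq_nonneg _) (fun d hd hp => by
      rw [Finset.sum_boole]
      have a1 : (L.filter fun v => pl v ∣ d).card ≤ A := by
        refine le_trans (Finset.card_le_card fun v hv => ?_) hp.le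
        obtain ⟨b1, b2⟩ := Finset.mem_filter.1 hv
        exact Finset.mem_filter.2 ⟨(mem_fac_iff hd.1).2 ⟨(hL v b1).1, b2⟩, (hL v b1).2.2⟩
      have a2 : ((L.filter fun v => pl v ∣ d).card : ℝ) ≤ A := by exact_mod_cast a1
      rw [← neg_sq (_ - μ)]
      exact pow_le_pow_left₀ (by positivity) (by linarith) 2)
  have h6 := h5.trans hv
  rw [div_le_iff₀ hδ] at h3
  refine le_of_mul_le_mul_left (h6.trans ?_) (by positivity : 0 < (μ / 2) ^ 2)
  rw [← mul_assoc]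
  refine mul_le_mul_of_nonneg_right ?_ (Nat.cast_nonneg _)
  nlinarith

theorem stat_good {δ : ℝ} (hδ : 0 < δ) : ∃ e1 : ℕ, ∀ e0, e1 ≤ e0 → ∀ A, ∀ᶠ n in atTop,
    ({d | d ∈ Pn k n ∧ ¬ GT e0 A n d}.ncard : ℝ) ≤ δ * (Pn k n).ncard := by
  obtain ⟨e1, he1⟩ := exists_nat_ge (20 / δ)
  refine ⟨e1 + 1, fun e0 he0 A => ?_⟩
  filter_upwards [bad_many (k := k) A (half_pos hδ)] with n h4
  have he : 1 ≤ e0 := by omega
  have h1 := bad_one (k := k) he n
  have h2 := bad_inj (k := k) he n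
  have h3 := bad_few (k := k) he n
  have h5 := StatB_union (k := k) n (fun d => ¬ GT e0 A n d) (Finset.univ : Finset (Fin 4))
    ![fun d => ∃ v ∈ fac d, e0 ≤ pdg v ∧ mult d v ≠ 1,
      fun d => ∃ v ∈ fac d, ∃ v' ∈ fac d, e0 ≤ pdg v ∧ pdg v = pdg v' ∧ v ≠ v',
      fun d => ∃ e, e0 ≤ e ∧ e ^ 4 < 2 ^ ((fac d).filter fun v => pdg v ≤ e).card,
      fun d => ((fac d).filter fun v => n ≤ pdg v ^ 2 ∧ pdg v % 2 = 1).card < A] fun d _ hp => by
    by_contra hc
    have hc' := fun i hi => hc ⟨i, Finset.mem_univ i, hi⟩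
    refine hp ⟨fun v hv h => ?_, fun v hv v' hv' h h' => ?_, fun e h => ?_, ?_⟩
    · by_contra hn
      exact hc' 0 ⟨v, hv, h, hn⟩
    · by_contra hn
      exact hc' 1 ⟨v, hv, v', hv', h, h', hn⟩
    · by_contra hn
      exact hc' 2 ⟨e, h, not_le.1 hn⟩
    · by_contra hn
      exact hc' 3 (not_le.1 hn)
  rw [Fin.sum_univ_four] at h5
  have h6 : (10 : ℝ) / e0 ≤ δ / 2 := by
    have a1 : (e1 : ℝ) + 1 ≤ e0 := by exact_mod_cast he0
    rw [div_le_iff₀ hδ] at he1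
    rw [div_le_iff₀ (by exact_mod_cast he)]
    nlinarith
  have h7 := mul_le_mul_of_nonneg_right h6 (Nat.cast_nonneg (Pn k n).ncard)
  refine h5.trans ((add_le_add (add_le_add (add_le_add h1 h2) h3) h4).trans ?_)
  have e : (10 : ℝ) / e0 = 2 / e0 + 2 / e0 + 6 / e0 := by ring
  rw [e] at h7
  linarith

end Pool.Agent.Quad
end
end
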