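import Pool.Agent.Work.MP_60d5ce_nt.Qt.Alg
import Pool.Agent.Work.MP_60d5ce_nt.Lb.DCl
import Pool.Agent.Work.MP_60d5ce_nt.Lb.LkAbs
import Pool.Agent.Work.MP_60d5ce_nt.Qt.EllB
import Pool.Agent.Work.MP_60d5ce_nt.Asc.Basic
import Pool.Agent.Work.MP_60d5ce_nt.Lb.CZ
import Pool.Agent.Work.MP_60d5ce_nt.Qt.StatB
import Pool.Agent.Work.MP_60d5ce_nt.Lb.LDefs

-- merged part: Pool.Agent.Work.MP_60d5ce_nt.Qt.EllM
section
/-!
# Two by two matrices over the two-adic integers; the determinant of a lattice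

Templates: `../Sm/LatM.lean` (`unip_of_fix`, `det_of_mult`), `../Sm/RepAbs.lean` (`eq_one_of_pow`, `char_tau`,
`char_eq_cq`).  Hints.
* `pow_six_congr`: modulo two `m ^ 6 = 1` (`decide` on matrices over `F2` with a right inverse); if
  `X = 1 + 2 ^ i K`, `i ≥ 1`, then `X ^ 2 = 1` modulo `2 ^ (i + 1)`.
* `char_one`: `u = d (σ inf)`, `f g = d g * u ^ (-deg g)`, `dig j (f g - 1)` is a smooth character killing all
  `τ v` and `σ inf` (`uniq`); so `d g = u ^ deg g`, and `u ^ deg g0 = 1` gives `u = 1`.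
* `surj_of`: `s = rb t` is an involution with exactly one nonzero fixed vector `n`; some `g` moves `n`;
  `s' = rb (g t g⁻¹)` is another involution; `1, s, s', s s', s' s, s s' s` are all the matrices.
* `det_four`: `z ^ 3` fixes everything modulo two, and `x ^ 3 = x` modulo four for odd `x`; one of
  `g, z g, z z g` fixes `![1, 1]`.
* `det_eq_cq`: `d g = det (ρ g) * cq g⁻¹`; `char_tau` gives `det (ρ τ) = 1`; `rho_rel` twice gives
  `A B = B ^ (Q ^ 2) A` for `A = ρ (σ σ)`; `det_of_mult`; `char_one` with `g0 = σ σ`.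
-/

namespace Pool.Agent.Quad

open scoped Classical

theorem EllM_prime : Prime (2 : O) := by simpa using PadicInt.prime_p (p := 2)

theorem EllM_zero {c : O} (h : ∀ j : ℕ, ∃ u : O, ¬ (2 : O) ∣ u ∧ 2 ^ j ∣ c * u) : c = 0 :=
  eq_zero_of_forall_dvd fun j => by
    obtain ⟨u, h1, h2⟩ := h j
    exact EllM_prime.pow_dvd_of_dvd_mul_right j h1 h2

theorem EllM_dvd {c x y : O} (h : c ∣ x) (e : y = x) : c ∣ y := e ▸ h

theorem EllM_det {a b : Matrix (Fin 2) (Fin 2) F2} (h : a * b = 1) : a.det = 1 := by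
  have h1 : a.det * b.det = 1 := by rw [← Matrix.det_mul, h, Matrix.det_one]
  rcases F2_cases a.det with h0 | h0
  · rw [h0, zero_mul] at h1
    exact absurd h1 zero_ne_one
  · exact h0

theorem EllM_sl2 (m : Matrix (Fin 2) (Fin 2) F2) (h : m.det = 1) :
    m = 1 ∨ m = !![0, 1; 1, 1] ∨ m = !![1, 1; 1, 0] ∨ m = !![0, 1; 1, 0] ∨ m = !![1, 1; 0, 1] ∨
      m = !![1, 0; 1, 1] := by
  rw [Matrix.det_fin_two] at h
  rw [Matrix.eta_fin_two m]
  generalize m 0 0 = a at *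
  generalize m 0 1 = b at *
  generalize m 1 0 = c at *
  generalize m 1 1 = d at *
  revert a b c d
  decide

theorem pow_six_congr {m m' : Matrix (Fin 2) (Fin 2) O} (h : m * m' = 1) (j : ℕ) :
    ∀ a b, (2 : O) ^ j ∣ (m ^ 6 ^ j - 1 : Matrix (Fin 2) (Fin 2) O) a b := by
  cases j with
  | zero => simp
  | succ j =>
    suffices h : ∃ K : Matrix (Fin 2) (Fin 2) O, m ^ 6 ^ (j + 1) = 1 + (2 : O) ^ (j + 1) • K by
      obtain ⟨K, hK⟩ := h
      intro a b
      rw [hK, add_sub_cancel_left]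
      exact ⟨K a b, rfl⟩
    induction j with
    | zero =>
      have h1 : res.mapMatrix m * res.mapMatrix m' = 1 := by rw [← map_mul, h, map_one]
      have h2 : res.mapMatrix (m ^ 6 - 1) = 0 := by
        rw [map_sub, map_pow, map_one, sub_eq_zero]
        rcases EllM_sl2 _ (EllM_det h1) with e | e | e | e | e | e <;> rw [e] <;> decide
      have h3 : ∀ a b, ∃ c, (m ^ 6 - 1 : Matrix (Fin 2) (Fin 2) O) a b = 2 * c := fun a b =>
        (res_eq_zero_iff _).1 (congrFun (congrFun h2 a) b)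
      choose K hK using h3
      refine ⟨Matrix.of K, ?_⟩
      rw [zero_add, pow_one, pow_one, ← sub_eq_iff_eq_add']
      exact Matrix.ext hK
    | succ j ih =>
      obtain ⟨K, hK⟩ := ih
      have h2 : ∀ N : Matrix (Fin 2) (Fin 2) O, (1 + N) ^ 2 = 1 + (N + N) + N * N := fun N => by
        noncomm_ring
      have h3 : ∀ N : Matrix (Fin 2) (Fin 2) O,
          (1 + N) ^ 3 = 1 + (N + N + N) + (N * N + N * N + N * N) + N * N * N := fun N => by
        noncomm_ring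
      have h4 : (1 + (2 : O) ^ (j + 1) • K) ^ 2 =
          1 + (2 : O) ^ (j + 1 + 1) • (K + (2 : O) ^ j • (K * K)) := by
        rw [h2]
        simp only [smul_mul_assoc, mul_smul_comm]
        match_scalars <;> ring
      rw [pow_succ 6 (j + 1), pow_mul, hK, show 6 = 2 * 3 from rfl, pow_mul, h4]
      generalize K + (2 : O) ^ j • (K * K) = N
      generalize (2 : O) ^ (j + 1 + 1) = c
      refine ⟨(3 : O) • N + (3 * c) • (N * N) + c ^ 2 • (N * N * N), ?_⟩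
      rw [h3]
      simp only [smul_mul_assoc, mul_smul_comm]
      match_scalars <;> ring

theorem unip_of_fix {B : Matrix (Fin 2) (Fin 2) O} (hB : B.det = 1)
    (h : ∀ j : ℕ, ∃ a : V, (∃ i, ¬ (2 : O) ∣ a i) ∧ VD j (B.mulVec a - a)) :
    (B - 1) * (B - 1) = 0 := by
  rw [Matrix.det_fin_two] at hB
  have h0 : (B 0 0 - 1) * (B 1 1 - 1) - B 0 1 * B 1 0 = 0 := EllM_zero fun j => by
    obtain ⟨a, ⟨i, hi⟩, ha⟩ := h j
    have a0 := ha 0
    have a1 := ha 1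
    simp only [Pi.sub_apply, Matrix.mulVec, dotProduct, Fin.sum_univ_two] at a0 a1
    refine ⟨a i, hi, ?_⟩
    fin_cases i
    · refine EllM_dvd ((a0.mul_left (B 1 1 - 1)).sub (a1.mul_left (B 0 1))) ?_
      simp only [Fin.zero_eta]
      ring
    · refine EllM_dvd ((a1.mul_left (B 0 0 - 1)).sub (a0.mul_left (B 1 0))) ?_
      simp only [Fin.mk_one]
      ring
  refine Matrix.ext fun a b => ?_
  fin_cases a <;> fin_cases b <;> simp [Matrix.mul_apply, Fin.sum_univ_two, Matrix.one_apply]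
  · linear_combination (B 0 0 - 1) * hB - B 0 0 * h0
  · linear_combination B 0 1 * hB - B 0 1 * h0
  · linear_combination B 1 0 * hB - B 1 0 * h0
  · linear_combination (B 1 1 - 1) * hB - B 1 1 * h0

theorem det_of_mult {A B : Matrix (Fin 2) (Fin 2) O} {Q : ℕ} (hQ : 1 < Q) (hB : B.det = 1)
    (hne : B ≠ 1) (hrel : A * B = B ^ Q * A)
    (h : ∀ j : ℕ, ∃ a : V, (∃ i, ¬ (2 : O) ∣ a i) ∧ VD j (B.mulVec a - a) ∧
      VD j (A.mulVec a - (Q : O) • a)) : A.det = Q := by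
  have h1 := unip_of_fix hB fun j => (h j).imp fun a ha => ⟨ha.1, ha.2.1⟩
  obtain ⟨N, rfl⟩ : ∃ N, B = 1 + N := ⟨B - 1, by simp⟩
  rw [add_sub_cancel_left] at h1
  have hN : N ≠ 0 := fun e => hne (by rw [e, add_zero])
  have h2 : ∀ n : ℕ, (1 + N) ^ n = 1 + (n : O) • N := by
    intro n
    induction n with
    | zero => simp
    | succ n ih =>
      rw [pow_succ, ih, add_mul, mul_add, mul_add, smul_mul_assoc, smul_mul_assoc, h1]
      simp only [one_mul, mul_one, Nat.cast_succ]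
      module
  have h3 : A * N = (Q : O) • (N * A) := by
    rw [h2, mul_add, add_mul, mul_one, one_mul, smul_mul_assoc] at hrel
    exact add_left_cancel hrel
  have ht : N 1 1 = -N 0 0 := by
    have a0 : N.det * N.det = 0 := by rw [← Matrix.det_mul, h1, Matrix.det_zero]
    have a1 := mul_self_eq_zero.1 a0
    simp [Matrix.det_fin_two] at a1 hB
    linear_combination hB - a1
  have key : ∀ v0 v1 c0 c1 : O, (∀ j : ℕ, ∃ a : V, (∃ i, ¬ (2 : O) ∣ a i) ∧
      2 ^ j ∣ v0 * a 1 - v1 * a 0 ∧ 2 ^ j ∣ c0 * a 0 + c1 * a 1) → c0 * v0 + c1 * v1 = 0 := by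
    intro v0 v1 c0 c1 hh
    refine EllM_zero fun j => ?_
    obtain ⟨a, ⟨i, hi⟩, a0, a1⟩ := hh j
    refine ⟨a i, hi, ?_⟩
    fin_cases i
    · refine EllM_dvd ((a1.mul_left v0).sub (a0.mul_left c1)) ?_
      simp only [Fin.zero_eta]
      ring
    · refine EllM_dvd ((a1.mul_left v1).add (a0.mul_left c0)) ?_
      simp only [Fin.mk_one]
      ring
  have h4 : (A - (Q : O) • 1) * N = 0 := by
    refine Matrix.ext fun r c => ?_
    rw [Matrix.mul_apply, Fin.sum_univ_two]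
    refine key _ _ _ _ fun j => ?_
    obtain ⟨a, hi, a0, a1⟩ := h j
    refine ⟨a, hi, ?_, ?_⟩
    · have b0 := a0 0
      have b1 := a0 1
      simp only [Matrix.add_mulVec, Matrix.one_mulVec, add_sub_cancel_left] at b0 b1
      simp only [Matrix.mulVec, dotProduct, Fin.sum_univ_two] at b0 b1
      fin_cases c
      · refine EllM_dvd b1.neg_right ?_
        simp only [Fin.zero_eta, ht]
        ring
      · refine EllM_dvd b0 ?_
        simp only [Fin.mk_one, ht]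
        ring
    · have b0 := a1 r
      rw [← Matrix.one_mulVec a, ← Matrix.smul_mulVec, Matrix.one_mulVec, ← Matrix.sub_mulVec] at b0
      simpa only [Matrix.mulVec, dotProduct, Fin.sum_univ_two] using b0
  rw [sub_mul, smul_mul_assoc, one_mul, sub_eq_zero] at h4
  have hQ0 : (Q : O) ≠ 0 := Nat.cast_ne_zero.2 (by omega)
  have hQ1 : (Q : O) - 1 ≠ 0 := sub_ne_zero.2 (Nat.cast_ne_one.2 (by omega))
  have h5 : N * A = N := smul_right_injective _ hQ0 (h3.symm.trans h4)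
  have ch : A * A - (A 0 0 + A 1 1) • A + A.det • (1 : Matrix (Fin 2) (Fin 2) O) = 0 := by
    refine Matrix.ext fun a b => ?_
    fin_cases a <;> fin_cases b <;> simp [Matrix.mul_apply, Fin.sum_univ_two, Matrix.det_fin_two] <;>
      ring
  have e1 : (1 - (A 0 0 + A 1 1) + A.det) • N = 0 := by
    have := congrArg (N * ·) ch
    simp only [mul_add, mul_sub, mul_smul_comm, ← mul_assoc, h5, mul_one, mul_zero] at this
    rw [← this]
    module
  have e2 : ((Q : O) * Q - (A 0 0 + A 1 1) * Q + A.det) • N = 0 := by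
    have := congrArg (· * N) ch
    simp only [add_mul, sub_mul, smul_mul_assoc, mul_smul_comm, mul_assoc, h4, one_mul,
      zero_mul] at this
    rw [← this]
    module
  have f1 := (smul_eq_zero.1 e1).resolve_right hN
  have f2 := (smul_eq_zero.1 e2).resolve_right hN
  refine mul_left_cancel₀ hQ1 ?_
  linear_combination (Q : O) * f1 - f2

theorem EllM_ne_of_res {a : O} (h : res a ≠ 0) : a ≠ 0 := fun h' => h (by rw [h', map_zero])

theorem EllM_res_one {a : O} (h : (4 : O) ∣ a - 1) : res a = 1 := by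
  have := (res_eq_zero_iff _).2 ((show (2 : O) ∣ 4 from ⟨2, by norm_num⟩).trans h)
  rwa [map_sub, map_one, sub_eq_zero] at this

theorem EllM_cube {a : O} (h : res a = 1) : (4 : O) ∣ a ^ 3 - a := by
  obtain ⟨c, hc⟩ := (res_eq_zero_iff (a - 1)).1 (by rw [map_sub, map_one, h, sub_self])
  refine ⟨a * c * (1 + c), ?_⟩
  obtain rfl : a = 1 + 2 * c := by linear_combination hc
  ring

theorem eq_one_of_pow {a : O} (h : (4 : O) ∣ a - 1) {n : ℕ} (hn : 0 < n) (ha : a ^ n = 1) :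
    a = 1 := by
  induction n using Nat.strong_induction_on generalizing a with
  | _ n ih =>
    rcases Nat.mod_two_eq_zero_or_one n with h2 | h2
    · obtain ⟨k, rfl⟩ : ∃ k, n = 2 * k := ⟨n / 2, by omega⟩
      have h1 : a ^ 2 = 1 := ih k (by omega) (h.trans (sub_one_dvd_pow_sub_one a 2)) (by omega)
        (by rw [← pow_mul, ha])
      obtain ⟨c, hc⟩ := h
      have h3 : (a - 1) * (2 * (1 + 2 * c)) = 0 := by
        linear_combination h1 - (a - 1) * hc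
      rcases mul_eq_zero.1 h3 with h4 | h4
      · exact sub_eq_zero.1 h4
      · refine absurd (two_mul_eq_zero h4) (EllM_ne_of_res ?_)
        simp
    · have h3 : (∑ i ∈ Finset.range n, a ^ i) * (a - 1) = 0 := by rw [geom_sum_mul, ha, sub_self]
      rcases mul_eq_zero.1 h3 with h4 | h4
      · refine absurd h4 (EllM_ne_of_res ?_)
        have h5 : res (n : O) = 1 := res_natCast_of_mod h2
        rw [map_natCast] at h5
        simp [map_sum, EllM_res_one h, h5]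
      · exact sub_eq_zero.1 h4

variable {W P : Type} [Group W] {T : Tame W P}

theorem EllM_d_pow (d : W → O) (hm : ∀ g h, d (g * h) = d g * d h) (h1 : ∀ g, (4 : O) ∣ d g - 1)
    (g : W) (n : ℕ) : d (g ^ n) = d g ^ n := by
  induction n with
  | zero =>
    have hne : d 1 ≠ 0 := EllM_ne_of_res (by rw [EllM_res_one (h1 1)]; exact one_ne_zero)
    have := hm 1 1
    rw [mul_one] at this
    rw [pow_zero, pow_zero]
    exact mul_left_cancel₀ hne (by rw [← this, mul_one])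
  | succ n ih => rw [pow_succ, hm, ih, pow_succ]

theorem char_tau (d : W → O) (hm : ∀ g h, d (g * h) = d g * d h) (h1 : ∀ g, (4 : O) ∣ d g - 1)
    (hs : ∀ j : ℕ, ∃ U, T.Adm U ∧ ∀ u ∈ U, (2 : O) ^ j ∣ d u - 1) (v : P) : d (T.τ v) = 1 := by
  have hne : ∀ g, d g ≠ 0 := fun g =>
    EllM_ne_of_res (by rw [EllM_res_one (h1 g)]; exact one_ne_zero)
  have hrel : d (T.τ v ^ T.Q v * T.σ v) = d (T.σ v * T.τ v) := by
    refine sub_eq_zero.1 (eq_zero_of_forall_dvd fun j => ?_)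
    obtain ⟨U, hU, h⟩ := hs j
    have hu := h _ (T.rel U hU v)
    have e : d (T.τ v ^ T.Q v * T.σ v) = d (T.σ v * T.τ v) *
        d ((T.σ v * T.τ v)⁻¹ * (T.τ v ^ T.Q v * T.σ v)) := by
      rw [← hm, mul_inv_cancel_left]
    rw [e, ← mul_sub_one]
    exact hu.mul_left _
  rw [hm, hm, EllM_d_pow d hm h1] at hrel
  have hQ := T.one_lt_Q v
  obtain ⟨n, hn⟩ : ∃ n, T.Q v = n + 1 := ⟨T.Q v - 1, by omega⟩
  rw [hn] at hrel
  refine eq_one_of_pow (h1 _) (n := n) (by omega) ?_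
  refine mul_right_cancel₀ (mul_ne_zero (hne (T.τ v)) (hne (T.σ v))) ?_
  linear_combination hrel

theorem char_one (d : W → O) (hm : ∀ g h, d (g * h) = d g * d h) (h1 : ∀ g, (4 : O) ∣ d g - 1)
    (hs : ∀ j : ℕ, ∃ U, T.Adm U ∧ ∀ u ∈ U, (2 : O) ^ j ∣ d u - 1) {g0 : W} (hg : T.deg g0 ≠ 0)
    (h0 : d g0 = 1) (g : W) : d g = 1 := by
  have hu : IsUnit (d (T.σ T.inf)) :=
    isUnit_of_res_ne_zero (by rw [EllM_res_one (h1 _)]; exact one_ne_zero)
  set u : Oˣ := hu.unit with hudef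
  have huv : (u : O) = d (T.σ T.inf) := hu.unit_spec
  have hres : ∀ n : ℤ, res ((u ^ n : Oˣ) : O) = 1 := by
    intro n
    have e : Units.map (res : O →* F2) u = 1 := by
      refine Units.ext ?_
      simpa [huv] using EllM_res_one (h1 (T.σ T.inf))
    have e2 : Units.map (res : O →* F2) (u ^ n) = 1 := by rw [map_zpow, e, one_zpow]
    exact congrArg Units.val e2
  let f : W → O := fun g => d g * ((u ^ (-T.deg g) : Oˣ) : O)
  have fm : ∀ g h, f (g * h) = f g * f h := by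
    intro g h
    simp only [f]
    rw [hm, T.deg_mul, neg_add, zpow_add, Units.val_mul]
    ring
  have f1 : ∀ g, (2 : O) ∣ f g - 1 := by
    intro g
    rw [← res_eq_zero_iff]
    simp only [f]
    rw [map_sub, map_mul, hres, EllM_res_one (h1 g), map_one, mul_one, sub_self]
  have key : ∀ j g, (2 : O) ^ j ∣ f g - 1 := by
    intro j
    induction j with
    | zero => simp
    | succ j ih =>
      have hx : T.IsHom fun g => dig j (f g - 1) := by
        constructor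
        · obtain ⟨U, hU, h⟩ := hs (j + 1)
          refine ⟨U, hU, fun g w hw => dig_congr ?_⟩
          have hw0 : T.deg w = 0 := T.adm_le U hU hw
          have e : f w = d w := by simp [f, hw0]
          rw [sub_sub_sub_cancel_right, fm, e, ← mul_sub_one]
          exact (h w hw).mul_left _
        · intro g h
          rw [← dig_add (ih g) (ih h)]
          refine dig_congr ?_
          have e : f (g * h) - 1 - (f g - 1 + (f h - 1)) = (f g - 1) * (f h - 1) := by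
            rw [fm]
            ring
          rw [e, pow_succ]
          exact mul_dvd_mul (ih g) (f1 h)
      have hz := T.uniq _ hx (fun v _ => by
        have e : f (T.τ v) = 1 := by simp [f, T.deg_τ, char_tau d hm h1 hs v]
        rw [e, sub_self]
        exact dig_of_dvd (dvd_zero _)) (by
        have e : f (T.σ T.inf) = 1 := by
          simp only [f]
          rw [T.deg_σ, T.dg_inf, ← huv, ← Units.val_mul]
          simp
        rw [e, sub_self]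
        exact dig_of_dvd (dvd_zero _))
      intro g
      exact (dig_eq_zero_iff (ih g)).1 (congrFun hz g)
  have hd : ∀ g, d g = ((u ^ T.deg g : Oˣ) : O) := by
    intro g
    have e : f g = 1 := sub_eq_zero.1 (eq_zero_of_forall_dvd fun j => key j g)
    simp only [f] at e
    rw [zpow_neg] at e
    exact Units.mul_inv_eq_one.1 e
  have h2 : u ^ T.deg g0 = 1 := Units.ext ((hd g0).symm.trans h0)
  have h3 : u ^ (T.deg g0).natAbs = 1 := pow_natAbs_eq_one.2 h2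
  have h4 : u = 1 := Units.ext (eq_one_of_pow (huv ▸ h1 _) (Int.natAbs_pos.2 hg)
    (by rw [← Units.val_pow_eq_pow_val, h3, Units.val_one]))
  rw [hd, h4, one_zpow, Units.val_one]

/-- the invertible matrices over the field with two elements -/
def EllM_L : List (Matrix (Fin 2) (Fin 2) F2) :=
  [1, !![0, 1; 1, 1], !![1, 1; 1, 0], !![0, 1; 1, 0], !![1, 1; 0, 1], !![1, 0; 1, 1]]

theorem EllM_mem {m : Matrix (Fin 2) (Fin 2) F2} (h : m.det = 1) : m ∈ EllM_L := by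
  simpa only [EllM_L, List.mem_cons, List.not_mem_nil, or_false] using EllM_sl2 m h

theorem EllM_gen1 : ∀ s ∈ EllM_L.drop 3, ∀ s' ∈ EllM_L.drop 3, s' ≠ s → ∀ m ∈ EllM_L,
    m ∈ [1, s, s', s * s', s' * s, s * s' * s] := by
  decide

theorem EllM_gen2 : ∀ s ∈ EllM_L.drop 3, ∃ n : Vb, n ≠ 0 ∧
    ∀ a ∈ EllM_L, a * s = s * a → a.mulVec n = n := by
  decide

theorem EllM_gen3 : ∀ s ∈ EllM_L.drop 3, ∀ a ∈ EllM_L, ∀ a' ∈ EllM_L, a * a' = 1 →
    a * s * a' ∈ EllM_L.drop 3 := by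
  decide

theorem EllM_fix : ∀ a ∈ EllM_L, a.mulVec ![1, 1] = ![1, 1] ∨
    (!![0, 1; 1, 1] * a).mulVec ![1, 1] = ![1, 1] ∨
      (!![0, 1; 1, 1] * (!![0, 1; 1, 1] * a)).mulVec ![1, 1] = ![1, 1] := by
  decide

theorem EllM_cq (g : W) : T.cq g * T.cq g⁻¹ = 1 := by
  rw [← Tame.cq_mul, mul_inv_cancel, Tame.cq_of_deg_zero T.deg_one]

namespace Lat

variable (L : Lat T (Fin 2))

theorem EllM_rb (g : W) : (L.rb g).det = 1 :=
  EllM_det (b := L.rb g⁻¹) (by rw [← rb_mul, mul_inv_cancel, rb_one])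

theorem EllM_pow (g : W) (n : ℕ) : L.ρ (g ^ n) = L.ρ g ^ n := by
  induction n with
  | zero => rw [pow_zero, pow_zero, L.ρ_one]
  | succ n ih => rw [pow_succ, L.ρ_mul, ih, pow_succ]

theorem surj_of {t : W} (ht : T.deg t = 0) (h1 : L.rb t ≠ 1) (h2 : L.rb t ≠ !![0, 1; 1, 1])
    (h3 : L.rb t ≠ !![1, 1; 1, 0]) (hirr : ∀ n : Vb, (∀ g, L.Fx g n) → n = 0)
    (m : Matrix (Fin 2) (Fin 2) F2) (hm : m.det = 1) : ∃ z, T.deg z = 0 ∧ L.rb z = m := by
  have key : ∃ n : Vb, n ≠ 0 ∧ ∀ a a' : Matrix (Fin 2) (Fin 2) F2, a * a' = 1 → a.mulVec n ≠ n →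
      m = 1 ∨ m = L.rb t ∨ m = a * L.rb t * a' ∨ m = L.rb t * (a * L.rb t * a') ∨
        m = a * L.rb t * a' * L.rb t ∨ m = L.rb t * (a * L.rb t * a') * L.rb t := by
    have hs : L.rb t ∈ EllM_L.drop 3 := by
      rcases EllM_sl2 _ (L.EllM_rb t) with e | e | e | e | e | e
      · exact absurd e h1
      · exact absurd e h2
      · exact absurd e h3
      all_goals
        rw [e]
        decide
    obtain ⟨n, hn, h⟩ := EllM_gen2 _ hs
    refine ⟨n, hn, fun a a' h4 h5 => ?_⟩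
    have h6 := mul_eq_one_comm.1 h4
    have ha := EllM_mem (EllM_det h4)
    have h7 : a * L.rb t * a' ≠ L.rb t := fun e => h5 (h a ha (by
      have e' := congrArg (· * a) e
      simp only [mul_assoc, h6, mul_one] at e'
      exact e'))
    simpa only [List.mem_cons, List.not_mem_nil, or_false] using EllM_gen1 _ hs _
      (EllM_gen3 _ hs a ha a' (EllM_mem (EllM_det h6)) h4) h7 m (EllM_mem hm)
  obtain ⟨n, hn, h⟩ := key
  obtain ⟨g, hg⟩ := not_forall.1 fun h' => hn (hirr n h')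
  have e : L.rb (g * t * g⁻¹) = L.rb g * L.rb t * L.rb g⁻¹ := by rw [rb_mul, rb_mul]
  have d0 : T.deg (g * t * g⁻¹) = 0 := by
    rw [T.deg_mul, T.deg_mul, T.deg_inv, ht]
    ring
  have h6 := h (L.rb g) (L.rb g⁻¹) (by rw [← rb_mul, mul_inv_cancel, rb_one]) hg
  rw [← e] at h6
  generalize g * t * g⁻¹ = t' at d0 h6
  rcases h6 with rfl | rfl | rfl | rfl | rfl | rfl
  · exact ⟨1, T.deg_one, rb_one⟩
  · exact ⟨t, ht, rfl⟩
  · exact ⟨t', d0, rfl⟩
  · exact ⟨t * t', by rw [T.deg_mul, ht, d0, add_zero], rb_mul _ _⟩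
  · exact ⟨t' * t, by rw [T.deg_mul, ht, d0, add_zero], rb_mul _ _⟩
  · exact ⟨t * t' * t, by rw [T.deg_mul, T.deg_mul, ht, d0, add_zero, add_zero],
      by rw [rb_mul, rb_mul]⟩

theorem det_four {z : W} (hz : L.rb z = !![0, 1; 1, 1])
    (h : ∀ g, L.Fx g ![1, 1] → (4 : O) ∣ (L.ρ g).det - T.cq g) (g : W) :
    (4 : O) ∣ (L.ρ g).det - T.cq g := by
  have h1 : (4 : O) ∣ (L.ρ z).det - T.cq z := by
    have h2 := h (z * (z * z)) (by
      rw [Fx, rb_mul, rb_mul, hz]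
      decide)
    rw [L.ρ_mul, L.ρ_mul, Matrix.det_mul, Matrix.det_mul, Tame.cq_mul, Tame.cq_mul] at h2
    have h3 : res (L.ρ z).det = 1 := by
      rw [RingHom.map_det]
      exact L.EllM_rb z
    refine EllM_dvd ((h2.sub (EllM_cube h3)).add (EllM_cube (T.res_cq z))) ?_
    ring
  have h4 : ∀ g, (4 : O) ∣ (L.ρ (z * g)).det - T.cq (z * g) → (4 : O) ∣ (L.ρ g).det - T.cq g := by
    intro g h5
    rw [L.ρ_mul, Matrix.det_mul, Tame.cq_mul] at h5
    refine EllM_dvd ((h5.sub (h1.mul_right (L.ρ g).det)).mul_right (T.cq z⁻¹)) ?_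
    linear_combination (T.cq g - (L.ρ g).det) * EllM_cq (T := T) z
  rcases EllM_fix _ (EllM_mem (L.EllM_rb g)) with e | e | e
  · exact h g e
  · refine h4 g (h _ ?_)
    rw [Fx, rb_mul, hz]
    exact e
  · refine h4 g (h4 _ (h _ ?_))
    rw [Fx, rb_mul, rb_mul, hz]
    exact e

theorem det_eq_cq (h4 : ∀ g, (4 : O) ∣ (L.ρ g).det - T.cq g) {v : P} (hne : L.ρ (T.τ v) ≠ 1)
    (hv : ∀ j : ℕ, ∃ a : V, (∃ i, ¬ (2 : O) ∣ a i) ∧ VD j ((L.ρ (T.τ v)).mulVec a - a) ∧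
      VD j ((L.ρ (T.σ v * T.σ v)).mulVec a - ((T.Q v ^ 2 : ℕ) : O) • a)) (g : W) :
    (L.ρ g).det = T.cq g := by
  let d : W → O := fun g => (L.ρ g).det * T.cq g⁻¹
  have hm : ∀ g h, d (g * h) = d g * d h := fun g h => by
    simp only [d]
    rw [L.ρ_mul, Matrix.det_mul, mul_inv_rev, Tame.cq_mul]
    ring
  have h1 : ∀ g, (4 : O) ∣ d g - 1 := fun g => by
    refine EllM_dvd ((h4 g).mul_right (T.cq g⁻¹)) ?_
    simp only [d]
    linear_combination EllM_cq (T := T) g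
  have hd0 : ∀ u, T.deg u = 0 → d u = (L.ρ u).det := fun u hu => by
    simp only [d]
    rw [Tame.cq_of_deg_zero (by rw [T.deg_inv, hu, neg_zero]), mul_one]
  have hs : ∀ j : ℕ, ∃ U, T.Adm U ∧ ∀ u ∈ U, (2 : O) ^ j ∣ d u - 1 := fun j => by
    obtain ⟨U, hU, h⟩ := L.sm j
    refine ⟨U, hU, fun u hu => ?_⟩
    rw [hd0 u (T.adm_le U hU hu), Matrix.det_fin_two]
    have a0 := h u hu 0 0
    have a1 := h u hu 0 1
    have a2 := h u hu 1 1
    simp only [Matrix.sub_apply, Matrix.one_apply_eq, Matrix.one_apply_ne zero_ne_one,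
      sub_zero] at a0 a1 a2
    refine EllM_dvd (((a0.mul_right (L.ρ u 1 1)).add a2).sub (a1.mul_right (L.ρ u 1 0))) ?_
    ring
  have hB : (L.ρ (T.τ v)).det = 1 := by
    rw [← hd0 _ (T.deg_τ v)]
    exact char_tau d hm h1 hs v
  have hr : SemiconjBy (L.ρ (T.σ v)) (L.ρ (T.τ v)) (L.ρ (T.τ v) ^ T.Q v) := by
    have := rho_rel (R := L) v
    rwa [L.ρ_mul, L.ρ_mul, L.EllM_pow] at this
  have hrel : L.ρ (T.σ v * T.σ v) * L.ρ (T.τ v) =
      L.ρ (T.τ v) ^ T.Q v ^ 2 * L.ρ (T.σ v * T.σ v) := by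
    rw [L.ρ_mul, pow_two, pow_mul]
    exact ((hr.pow_right (T.Q v)).mul_left hr).eq
  have hA := det_of_mult (Nat.one_lt_pow two_ne_zero (T.one_lt_Q v)) hB hne hrel hv
  have h0 : d (T.σ v * T.σ v) = 1 := by
    simp only [d]
    rw [hA, ← EllM_cq (T := T) (T.σ v * T.σ v), Tame.cq_mul, Tame.cq_σ, Nat.cast_pow, pow_two]
  have hg : T.deg (T.σ v * T.σ v) ≠ 0 := by
    have := T.dg_pos v
    rw [T.deg_mul, T.deg_σ]
    omega
  have h5 := char_one d hm h1 hs hg h0 g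
  simp only [d] at h5
  linear_combination T.cq g * h5 - (L.ρ g).det * EllM_cq (T := T) g

end Lat

end Pool.Agent.Quad
end

-- merged part: Pool.Agent.Work.MP_60d5ce_nt.Qt.EllFin
section
-- merged part: Pool.Agent.Work.MP_60d5ce_nt.Lb.DTr
section
/-!
# The trace of Frobenius on torsion points of an elliptic curve  (task LB DTr)

`exists_ef`, `F.aut` for `σ = iterateFrobeniusEquiv κ p f` and `ε = 1` give `γ` with `IsFr p γ Q`; `γ • F.pp h P = F.pp h (s P)` (`val_smul`, `sl_mem`, `pp_some`, `pp_zero`).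
The fixed places are `o` and the places of the fixed affine points (`pp_bij`, `fix_finite`).  `HasTr.comap` for `P ↦ cl (F.dd h P)` and `thmA`; a torsion class has degree zero (`cl_eq_zero`, `dg_dv`).
-/

namespace Pool.Agent.Lef

open PR0 Pool.Agent.Ell.AT Pool.Agent.Quad WeierstrassCurve WeierstrassCurve.Affine

variable {κ : Type} [Field κ] {E : Affine κ}

/-- `s` acts on coordinates by `φ` -/
def Cmp (s : E.Point → E.Point) (φ : κ → κ) : Prop :=
  s 0 = 0 ∧ ∀ x y h, ∃ h', s (.some x y h) = .some (φ x) (φ y) h'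

/-- the number of affine points over the field with `Q` elements -/
noncomputable def affN (a b : κ) (Q : ℕ) : ℕ :=
  {z : κ × κ | z.2 ^ 2 = z.1 ^ 3 + a * z.1 + b ∧ z.1 ^ Q = z.1 ∧ z.2 ^ Q = z.2}.ncard

theorem exists_cmp (h : SW E) (φ : κ →+* κ) (h4 : φ E.a₄ = E.a₄) (h6 : φ E.a₆ = E.a₆) :
    ∃ s : E.Point → E.Point, Cmp s φ := by
  have key : ∀ x y, E.Nonsingular x y → E.Nonsingular (φ x) (φ y) := fun x y hn => h.nonsing (by
    have := congrArg φ (h.eqn hn)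
    rwa [map_pow, map_add, map_add, map_pow, map_mul, h4, h6] at this)
  exact ⟨fun P => match P with
    | .zero => 0
    | .some x y hn => .some (φ x) (φ y) (key x y hn), rfl, fun x y hn => ⟨key x y hn, rfl⟩⟩

theorem thmE [IsAlgClosed κ] [DecidableEq κ] (h : SW E) {p : ℕ} [Fact p.Prime] [CharP κ p]
    {f Q : ℕ} (hf : 0 < f) (hQ : Q = p ^ f) (h4 : E.a₄ ^ Q = E.a₄) (h6 : E.a₆ ^ Q = E.a₆)
    {s : E.Point → E.Point} (hs : Cmp s fun c => c ^ Q) (J : ℕ) :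
    HasTr (2 ^ (J + 1)) (tors E.Point (2 ^ (J + 1))) s
      (Q - (affN E.a₄ E.a₆ Q : ZMod (2 ^ (J + 1)))) := by
  obtain ⟨K, _, _, ⟨F⟩⟩ := exists_ef h
  have : Fact (IsFF κ K) := ⟨F.isFF⟩
  have : ExpChar κ p := ExpChar.prime Fact.out
  have hσ : ∀ c, iterateFrobeniusEquiv κ p f c = c ^ Q := fun c => by
    rw [iterateFrobeniusEquiv_def, hQ]
  obtain ⟨γ, g1, g2, g3⟩ := F.aut (iterateFrobeniusEquiv κ p f) ((hσ _).trans h4) ((hσ _).trans h6) 1
    (Or.inl rfl)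
  rw [one_mul] at g3
  have hγ : IsFr p γ Q := ⟨⟨f, hf, hQ⟩, fun c => by rw [g1, hσ], F.x, F.tr, g2⟩
  have m1 : ∀ z : Place κ K, F.x ∈ (γ • z).1 ↔ F.x ∈ z.1 := fun z => by
    have := sl_mem (σ := γ) (P := z) (a := F.x)
    rwa [g2] at this
  have m2 : ∀ z : Place κ K, F.x ∈ z.1 →
      (γ • z).val F.x = z.val F.x ^ Q ∧ (γ • z).val F.y = z.val F.y ^ Q := fun z hz => by
    have k1 := val_smul γ z hz
    have k2 := val_smul γ z (F.aff hz).1
    rw [g2, hγ.c] at k1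
    rw [g3, hγ.c] at k2
    exact ⟨k1, k2⟩
  have m0 : γ • F.pp h 0 = F.pp h 0 :=
    (F.pp_zero h _).1 fun k => (F.pp_zero h _).2 rfl ((m1 _).1 k)
  have key : ∀ P, γ • F.pp h P = F.pp h (s P) := fun P => by
    rcases P with _ | ⟨x0, y0, hn⟩
    · exact m0.trans (congrArg (F.pp h) hs.1.symm)
    · obtain ⟨hn', e⟩ := hs.2 x0 y0 hn
      obtain ⟨k1, k2, k3⟩ := (F.pp_some h hn _).2 rfl
      rw [e]
      exact (F.pp_some h hn' _).1 ⟨(m1 _).2 k1, by rw [(m2 _ k1).1, k2], by rw [(m2 _ k1).2, k3]⟩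
  have cnt : {y : Place κ K | γ • y = y}.ncard = affN E.a₄ E.a₆ Q + 1 := by
    have e : {y : Place κ K | γ • y = y} = insert (F.pp h 0) {y | γ • y = y ∧ F.x ∈ y.1} := by
      ext z
      refine ⟨fun k => or_iff_not_imp_left.2 fun k1 => ⟨k, by_contra fun k2 => k1 ?_⟩, ?_⟩
      · exact (F.pp_zero h z).1 k2
      · rintro (rfl | k)
        exacts [m0, k.1]
    rw [e, Set.ncard_insert_of_notMem (fun k => (F.pp_zero h _).2 rfl k.2)
      ((fix_finite hγ).subset fun _ k => k.1), affN]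
    refine congrArg (· + 1) (Set.ncard_congr (fun z _ => (z.val F.x, z.val F.y)) (fun z hz => ?_)
      (fun z z' hz hz' k => ?_) fun b hb => ?_)
    · have k := m2 z hz.2
      rw [hz.1] at k
      exact ⟨(F.aff hz.2).2, k.1.symm, k.2.symm⟩
    · have hn := h.nonsing (F.aff hz.2).2
      exact ((F.pp_some h hn z).1 ⟨hz.2, rfl, rfl⟩).trans ((F.pp_some h hn z').1
        ⟨hz'.2, (congrArg Prod.fst k).symm, (congrArg Prod.snd k).symm⟩).symm
    · have hn := h.nonsing hb.1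
      obtain ⟨k1, k2, k3⟩ := (F.pp_some h hn _).2 rfl
      exact ⟨_, ⟨(F.pp_some h hn _).1 ⟨(m1 _).2 k1, by rw [(m2 _ k1).1, k2, hb.2.1],
        by rw [(m2 _ k1).2, k3, hb.2.2]⟩, k1⟩, Prod.ext k2 k3⟩
  have hA := thmA h.two hγ J
  rw [cnt, Nat.cast_add, Nat.cast_one, add_comm 1, add_sub_add_right_eq_sub] at hA
  obtain ⟨j, hj⟩ : ∃ j : E.Point →+ Pic κ K, ∀ P, j P = cl (F.dd h P) :=
    ⟨AddMonoidHom.mk' (fun P => cl (F.dd h P)) (F.cls_add h), fun _ => rfl⟩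
  have inj : Function.Injective j :=
    (injective_iff_map_eq_zero j).2 fun P k => F.cls_inj h ((hj P).symm.trans k)
  have hc : ∀ P, j (s P) = pa γ (j P) := fun P => by
    rw [hj, hj, pa_cl, EF.dd, EF.dd, smul_sub, smul_single, smul_single, key, m0]
  have ht : ∀ P, P ∈ tors E.Point (2 ^ (J + 1)) ↔ j P ∈ tors (Pic κ K) (2 ^ (J + 1)) := fun P => by
    rw [mem_tors, mem_tors, ← map_nsmul, map_eq_zero_iff j inj]
  refine hA.comap (j := j) (fun x _ y _ => map_add j x y) inj.injOn (Set.ext fun c => ⟨?_, fun k => ?_⟩)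
    (fun P k => (ht _).2 (hc P ▸ ThmA_pa γ ((ht P).1 k))) fun P _ => hc P
  · rintro ⟨P, k, rfl⟩
    exact (ht P).1 k
  · obtain ⟨u, -, D, k1, rfl⟩ := exists_kum (mem_tors.1 k)
    have k2 := dg_dv (K := κ) u
    rw [k1, ← natCast_zsmul, dg_smul] at k2
    obtain ⟨P, k3⟩ := F.cls_surj h ((mul_eq_zero.1 k2).resolve_left (by positivity))
    exact ⟨P, (ht P).2 (by rw [hj, k3]; exact k), (hj P).trans k3⟩

end Pool.Agent.Lef
end

-- merged part: Pool.Agent.Work.MP_60d5ce_nt.Qt.EllC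
section
/-!
# A place of multiplicative reduction

Template: `../Sm/EllC.lean` (same architecture: `key`, `closure`, `prod`, `line`, `InE0`, `uu`, `InE0.add`,
`InE0.nsmul`, `exists_u`, `mult_point`).  `a = a₄`, `b = a₆`, `D = 4 a ^ 3 + 27 b ^ 2`, `w a = 1`, `w D < 1`.
Node `c = α ^ 2 / 3 = -3 b / (2 a)`, `X = x - c`; the curve is `y ^ 2 = X ^ 3 + α ^ 2 X ^ 2 + ε1 X + ε0` with
`ε1 = a + 3 c ^ 2 = D / (4 a ^ 2)`, `ε0 = c ^ 3 + a c + b = ε1 c + b D / (4 a ^ 3)`, both of size `< 1`.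
`w α = 1`: `w (27 b ^ 2) = w (4 a ^ 3) = 1`.
* `InE0 P` is `1 ≤ w (x - c)`, `uu (x, y) = (y - α X) / (y + α X)`, `uu 0 = 1`, `uu (-P) * uu P = 1`.
* `key`: `p = y - α X`, `p' = y + α X`, `w p * w p' = t ^ 3`, `w (p' - p) = t` for `t = w X ≥ 1`; hence
  `w p = w p'`, `w u = 1`, `w (u - 1) ^ 2 * t = 1`.  `InE1 w 1 P` iff `1 < w X` (as `w c = 1`).
* on a line `y = l X + n`: `X1 + X2 + X3 = l ^ 2 - α ^ 2`, `X1 X2 + X1 X3 + X2 X3 = ε1 - 2 l n`,
  `X1 X2 X3 = n ^ 2 - ε0`, and for `m = l - α` or `m = l + α`: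
  `∏ (m Xi + n) = n ^ 3 + ε1 m ^ 2 n - ε0 m ^ 3`.  If all `w Xi ≥ 1` then
  `w n ≥ max 1 (w l)`, so both products are `n ^ 3` up to smaller terms.
* `closure`: if `w X3 < 1` then `w y3 < 1`, `w n < M = max 1 (w l)`, `M ^ 2 ≤ w X1 * w X2`, and
  `X1 X2 = ε1 - 2 l n - X3 (l ^ 2 - α ^ 2 - X3)` is too small.
* `exists_u`: `X = 4 α ^ 2 η / (1 - η) ^ 2`, `y` from `exists_sqrt`; `p p' (u - 1) ^ 2 = 4 α ^ 2 X ^ 2 u`.
-/

namespace Pool.Agent.Quad

open WeierstrassCurve WeierstrassCurve.Affine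

noncomputable section

variable {Λ : Type} [Field Λ] {C : Affine Λ} [DecidableEq Λ] {w : AbsoluteValue Λ ℝ}

omit [DecidableEq Λ] in
theorem EllC.key (na : IsNonarchimedean w) (h2 : w 2 = 1) {α e1 e0 X y : Λ} (h1 : w α = 1)
    (he1 : w e1 < 1) (he0 : w e0 < 1) (he : y ^ 2 = X ^ 3 + α ^ 2 * X ^ 2 + e1 * X + e0)
    (hx : 1 ≤ w X) : w (y - α * X) = w (y + α * X) ∧ w (y + α * X) ^ 2 = w X ^ 3 := by
  have hp : 0 < w X := one_pos.trans_le hx
  have h13 : w X ≤ w X ^ 3 := le_self_pow₀ hx (by norm_num)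
  have h23 : w X ^ 2 ≤ w X ^ 3 := pow_le_pow_right₀ hx (by norm_num)
  have hs : w (e1 * X + e0) < w (X ^ 3) := by
    rw [map_pow]
    refine EllC.add_lt na ?_ (by linarith)
    rw [map_mul]
    exact (mul_lt_of_lt_one_left hp he1).trans_le h13
  have e : w (y - α * X) * w (y + α * X) = w X ^ 3 := by
    rw [← map_mul, show (y - α * X) * (y + α * X) = X ^ 3 + (e1 * X + e0) by
      linear_combination he, EllC.add_eq na hs, map_pow]
  have ed : w (y + α * X - (y - α * X)) = w X := by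
    rw [show y + α * X - (y - α * X) = 2 * (α * X) by ring, map_mul, map_mul, h2, h1, one_mul,
      one_mul]
  have hq : w (y - α * X) = w (y + α * X) := by
    rcases lt_trichotomy (w (y - α * X)) (w (y + α * X)) with h | h | h
    · rw [EllC.sub_eq na h] at ed
      rw [ed] at h e
      nlinarith
    · exact h
    · rw [w.map_sub, EllC.sub_eq na h] at ed
      rw [ed] at h e
      nlinarith
  refine ⟨hq, ?_⟩
  rw [← e, hq, sq]

omit [DecidableEq Λ] in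
theorem EllC.sq_le (na : IsNonarchimedean w) {α x1 x2 x3 l : Λ} {T : ℝ} (h1 : w α = 1)
    (e1 : x1 + x2 + x3 = l ^ 2 - α ^ 2) (hl : 1 < w l) (hx1 : w x1 ≤ T) (hx2 : w x2 ≤ T)
    (hx3 : w x3 ≤ T) : w l ^ 2 ≤ T := by
  refine not_lt.1 fun hc => ?_
  have e : l ^ 2 = x1 + x2 + x3 + α ^ 2 := by linear_combination -e1
  have : w (l ^ 2) < w l ^ 2 := by
    rw [e]
    refine EllC.add_lt na (EllC.add_lt na (EllC.add_lt na (hx1.trans_lt hc) (hx2.trans_lt hc))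
      (hx3.trans_lt hc)) ?_
    rw [map_pow, h1]
    exact pow_lt_pow_left₀ hl zero_le_one (by norm_num)
  rw [map_pow] at this
  exact lt_irrefl _ this

omit [DecidableEq Λ] in
theorem EllC.closure (na : IsNonarchimedean w) {α ε1 ε0 x1 x2 x3 y3 l n : Λ} (h1 : w α = 1)
    (he1 : w ε1 < 1) (he0 : w ε0 < 1) (he : y3 ^ 2 = x3 ^ 3 + α ^ 2 * x3 ^ 2 + ε1 * x3 + ε0)
    (hy : y3 = l * x3 + n) (e1 : x1 + x2 + x3 = l ^ 2 - α ^ 2)
    (e2 : x1 * x2 + x1 * x3 + x2 * x3 = ε1 - 2 * l * n)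
    (hx1 : 1 ≤ w x1) (hx2 : 1 ≤ w x2) : 1 ≤ w x3 := by
  by_contra! hx3
  have hy3 : w y3 < 1 := by
    have h4 : w (y3 ^ 2) < 1 := by
      rw [he]
      refine EllC.add_lt na (EllC.add_lt na (EllC.add_lt na ?_ ?_) (EllC.mul_lt he1 hx3.le)) he0
      · rw [map_pow]
        exact pow_lt_one₀ (w.nonneg _) hx3 (by norm_num)
      · rw [map_mul, map_pow, map_pow, h1, one_pow, one_mul]
        exact pow_lt_one₀ (w.nonneg _) hx3 (by norm_num)
    rw [map_pow] at h4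
    exact lt_of_pow_lt_pow_left₀ 2 zero_le_one (by rwa [one_pow])
  obtain ⟨M, hM1, hMl, hM⟩ : ∃ M : ℝ, 1 ≤ M ∧ w l ≤ M ∧ M ^ 2 ≤ w x1 * w x2 := by
    rcases le_or_gt (w l) 1 with hl | hl
    · exact ⟨1, le_rfl, hl, by nlinarith⟩
    exact ⟨w l, hl.le, le_rfl, EllC.sq_le na h1 e1 hl (by nlinarith) (by nlinarith) (by nlinarith)⟩
  have hM0 : 0 < M := one_pos.trans_le hM1
  have hM2 : M ≤ M ^ 2 := by nlinarith
  have hn : w n < M := by
    rw [show n = y3 - l * x3 by linear_combination -hy]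
    refine EllC.sub_lt na (hy3.trans_le hM1) ?_
    rw [map_mul]
    calc w l * w x3 ≤ M * w x3 := mul_le_mul_of_nonneg_right hMl (w.nonneg _)
      _ < M := mul_lt_of_lt_one_right hM0 hx3
  have hln : w (l * n) < M ^ 2 := by
    rw [map_mul]
    calc w l * w n ≤ M * w n := mul_le_mul_of_nonneg_right hMl (w.nonneg _)
      _ < M * M := mul_lt_mul_of_pos_left hn hM0
      _ = M ^ 2 := (sq M).symm
  have hs : w (l ^ 2 - α ^ 2 - x3) ≤ M ^ 2 := by
    refine EllC.sub_le na (EllC.sub_le na ?_ ?_) (by linarith)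
    · rw [map_pow]
      exact pow_le_pow_left₀ (w.nonneg _) hMl 2
    · rw [map_pow, h1, one_pow]
      linarith
  have e : x1 * x2 = ε1 - (l * n + l * n + x3 * (l ^ 2 - α ^ 2 - x3)) := by
    linear_combination e2 - x3 * e1
  have : w (x1 * x2) < M ^ 2 := by
    rw [e]
    refine EllC.sub_lt na (by linarith) (EllC.add_lt na (EllC.add_lt na hln hln) ?_)
    rw [map_mul]
    calc w x3 * w (l ^ 2 - α ^ 2 - x3) ≤ w x3 * M ^ 2 :=
          mul_le_mul_of_nonneg_left hs (w.nonneg _)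
      _ < M ^ 2 := mul_lt_of_lt_one_left (by positivity) hx3
  rw [map_mul] at this
  linarith

omit [DecidableEq Λ] in
theorem EllC.small (na : IsNonarchimedean w) {ε1 ε0 m n : Λ} (he1 : w ε1 < 1) (he0 : w ε0 < 1)
    (hp : 0 < w n) (hm : w m ≤ w n) : w (ε1 * (m ^ 2 * n) - ε0 * m ^ 3) < w n ^ 3 := by
  have h3 : 0 < w n ^ 3 := pow_pos hp 3
  refine EllC.sub_lt na ?_ ?_
  · rw [map_mul]
    refine lt_of_le_of_lt (mul_le_mul_of_nonneg_left ?_ (w.nonneg _))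
      (mul_lt_of_lt_one_left h3 he1)
    rw [map_mul, map_pow, pow_succ _ 2]
    exact mul_le_mul_of_nonneg_right (pow_le_pow_left₀ (w.nonneg _) hm 2) hp.le
  · rw [map_mul]
    refine lt_of_le_of_lt (mul_le_mul_of_nonneg_left ?_ (w.nonneg _))
      (mul_lt_of_lt_one_left h3 he0)
    rw [map_pow]
    exact pow_le_pow_left₀ (w.nonneg _) hm 3

omit [DecidableEq Λ] in
theorem EllC.prod (na : IsNonarchimedean w) {α ε1 ε0 x1 x2 x3 y1 y2 y3 l n : Λ} (h1 : w α = 1)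
    (he1 : w ε1 < 1) (he0 : w ε0 < 1) (hy1 : y1 = l * x1 + n) (hy2 : y2 = l * x2 + n)
    (hy3 : y3 = l * x3 + n) (e1 : x1 + x2 + x3 = l ^ 2 - α ^ 2)
    (e2 : x1 * x2 + x1 * x3 + x2 * x3 = ε1 - 2 * l * n) (e3 : x1 * x2 * x3 = n ^ 2 - ε0)
    (hx1 : 1 ≤ w x1) (hx2 : 1 ≤ w x2) (hx3 : 1 ≤ w x3) :
    w ((y1 - α * x1) / (y1 + α * x1) * ((y2 - α * x2) / (y2 + α * x2)) *
      ((y3 - α * x3) / (y3 + α * x3)) - 1) < 1 := by
  have h12 := one_le_mul_of_one_le_of_one_le hx1 hx2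
  have h13 := one_le_mul_of_one_le_of_one_le hx1 hx3
  have h23 := one_le_mul_of_one_le_of_one_le hx2 hx3
  have hT : w (n ^ 2 - ε0) = w x1 * w x2 * w x3 := by rw [← e3, map_mul, map_mul]
  have hge : 1 ≤ w (n ^ 2 - ε0) := hT ▸ one_le_mul_of_one_le_of_one_le h12 hx3
  have hn : 1 ≤ w n := by
    by_contra! hc
    refine absurd (EllC.sub_lt na ?_ he0) (not_lt.2 hge)
    rw [map_pow]
    exact pow_lt_one₀ (w.nonneg _) hc (by norm_num)
  have hp : 0 < w n := one_pos.trans_le hn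
  have hn2 : w n ^ 2 = w x1 * w x2 * w x3 := by
    rw [← hT, EllC.sub_eq na (by rw [map_pow]; exact he0.trans_le (one_le_pow₀ hn)), map_pow]
  have hl : w l ≤ w n := by
    rcases le_or_gt (w l) 1 with hl | hl
    · exact hl.trans hn
    · refine le_of_pow_le_pow_left₀ two_ne_zero hp.le ?_
      rw [hn2]
      exact EllC.sq_le na h1 e1 hl (by nlinarith) (by nlinarith) (by nlinarith)
  have hα : w α ≤ w n := h1 ▸ hn
  have hA := EllC.small na he1 he0 hp (EllC.sub_le na hl hα)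
  have hB := EllC.small na he1 he0 hp (EllC.add_le na hl hα)
  have eA : (y1 - α * x1) * (y2 - α * x2) * (y3 - α * x3) =
      n ^ 3 + (ε1 * ((l - α) ^ 2 * n) - ε0 * (l - α) ^ 3) := by
    rw [hy1, hy2, hy3]
    linear_combination (l - α) ^ 3 * e3 + (l - α) ^ 2 * n * e2 + (l - α) * n ^ 2 * e1
  have eB : (y1 + α * x1) * (y2 + α * x2) * (y3 + α * x3) =
      n ^ 3 + (ε1 * ((l + α) ^ 2 * n) - ε0 * (l + α) ^ 3) := by
    rw [hy1, hy2, hy3]
    linear_combination (l + α) ^ 3 * e3 + (l + α) ^ 2 * n * e2 + (l + α) * n ^ 2 * e1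
  rw [div_mul_div_comm, div_mul_div_comm, eA, eB]
  generalize ε1 * ((l - α) ^ 2 * n) - ε0 * (l - α) ^ 3 = A at hA ⊢
  generalize ε1 * ((l + α) ^ 2 * n) - ε0 * (l + α) ^ 3 = B at hB ⊢
  have h3 : 0 < w n ^ 3 := pow_pos hp 3
  have hwB : w (n ^ 3 + B) = w n ^ 3 := by rw [EllC.add_eq na (by rwa [map_pow]), map_pow]
  have hB0 : n ^ 3 + B ≠ 0 := w.pos_iff.1 (hwB ▸ h3)
  rw [div_sub_one hB0, add_sub_add_left_eq_sub, map_div₀, hwB, div_lt_one h3]
  exact EllC.sub_lt na hA hB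

/-- the data of the node -/
structure EllC.Nd (C : Affine Λ) (w : AbsoluteValue Λ ℝ) (α c : Λ) : Prop where
  sw : SW C
  sz : Sz C w 1
  wa : w α = 1
  hc : 3 * c = α ^ 2
  e1 : w (C.a₄ + 3 * c ^ 2) < 1
  e0 : w (c ^ 3 + C.a₄ * c + C.a₆) < 1

variable {α c : Λ}

omit [DecidableEq Λ] in
theorem EllC.Nd.wc (h : EllC.Nd C w α c) : w c = 1 := by
  have := congrArg w h.hc
  rwa [map_mul, map_pow, h.sz.three, h.wa, one_pow, one_mul] at this

omit [DecidableEq Λ] in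
theorem EllC.Nd.eqn (h : EllC.Nd C w α c) {x y : Λ} (hn : C.Nonsingular x y) :
    y ^ 2 = (x - c) ^ 3 + α ^ 2 * (x - c) ^ 2 + (C.a₄ + 3 * c ^ 2) * (x - c) +
      (c ^ 3 + C.a₄ * c + C.a₆) := by
  linear_combination h.sw.eqn hn + (x - c) ^ 2 * h.hc

omit [DecidableEq Λ] in
theorem EllC.Nd.key (h : EllC.Nd C w α c) {x y : Λ} (hn : C.Nonsingular x y)
    (hx : 1 ≤ w (x - c)) : w (y - α * (x - c)) = w (y + α * (x - c)) ∧
      w (y + α * (x - c)) ^ 2 = w (x - c) ^ 3 ∧ 0 < w (y + α * (x - c)) := by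
  obtain ⟨k1, k2⟩ := EllC.key h.sz.na h.sz.two h.wa h.e1 h.e0 (h.eqn hn) hx
  refine ⟨k1, k2, lt_of_le_of_ne (w.nonneg _) fun h0 => ?_⟩
  rw [← h0] at k2
  nlinarith [one_le_pow₀ hx (n := 3)]

theorem EllC.line (h : EllC.Nd C w α c) {x1 y1 x2 y2 l x3 y3 n : Λ} (h1 : C.Equation x1 y1)
    (h2 : C.Equation x2 y2) (hxy : ¬(x1 = x2 ∧ y1 = C.negY x2 y2)) (hl : l = C.slope x1 x2 y1 y2)
    (hx : x3 = C.addX x1 x2 l) (hy : y3 = C.negAddY x1 x2 y1 l) (hn : n = y1 - l * (x1 - c)) :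
    y1 = l * (x1 - c) + n ∧ y2 = l * (x2 - c) + n ∧ y3 = l * (x3 - c) + n ∧
      (x1 - c) + (x2 - c) + (x3 - c) = l ^ 2 - α ^ 2 ∧
      (x1 - c) * (x2 - c) + (x1 - c) * (x3 - c) + (x2 - c) * (x3 - c) =
        (C.a₄ + 3 * c ^ 2) - 2 * l * n ∧
      (x1 - c) * (x2 - c) * (x3 - c) = n ^ 2 - (c ^ 3 + C.a₄ * c + C.a₆) := by
  have key := addPolynomial_slope h1 h2 hxy
  rw [addPolynomial_eq, neg_inj, Cubic.prod_X_sub_C_eq, Cubic.toPoly_injective, ← hl, ← hx,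
    h.sw.a1, h.sw.a2, h.sw.a3] at key
  obtain ⟨-, kb, kc, kd⟩ := Cubic.mk.inj key
  have hy1 : y1 = l * (x1 - c) + n := by rw [hn]; ring
  have hy2 : y2 = l * (x2 - c) + n := by
    by_cases hx' : x1 = x2
    · rw [← Y_eq_of_Y_ne h1 h2 hx' fun h' => hxy ⟨hx', h'⟩, ← hx', hy1]
    · have : l * (x1 - x2) = y1 - y2 := by
        rw [hl, slope_of_X_ne hx', div_mul_cancel₀ _ (sub_ne_zero.2 hx')]
      linear_combination hy1 + this
  have hy3 : y3 = l * (x3 - c) + n := by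
    rw [hy, negAddY, ← hx, hn]
    ring
  refine ⟨hy1, hy2, hy3, by linear_combination kb - h.hc, ?_, ?_⟩
  · rw [hn]
    linear_combination -kc - 2 * c * kb
  · rw [hn]
    linear_combination kd + c * kc + c ^ 2 * kb

/-- points with nonsingular reduction -/
def EllC.InE0 (w : AbsoluteValue Λ ℝ) (c : Λ) : C.Point → Prop
  | .zero => True
  | .some x _ _ => 1 ≤ w (x - c)

/-- the multiplicative parameter -/
def EllC.uu (α c : Λ) : C.Point → Λ
  | .zero => 1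
  | .some x y _ => (y - α * (x - c)) / (y + α * (x - c))

open EllC

omit [DecidableEq Λ] in
theorem EllC.Nd.lt_iff (h : EllC.Nd C w α c) (x : Λ) : (1 : ℝ) ^ 2 < w x ↔ 1 < w (x - c) := by
  rw [one_pow]
  constructor
  · intro hx
    rwa [EllC.sub_eq h.sz.na (by rwa [h.wc])]
  · intro hx
    have := EllC.add_eq h.sz.na (a := x - c) (b := c) (by rwa [h.wc])
    rw [sub_add_cancel] at this
    rwa [this]

omit [DecidableEq Λ] in
theorem EllC.Nd.inE0_of_inE1 (h : EllC.Nd C w α c) {P : C.Point} (hP : InE1 w 1 P) :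
    InE0 w c P := by
  rcases P with _ | ⟨x, y, hn⟩
  · trivial
  · exact ((h.lt_iff x).1 hP).le

theorem EllC.Nd.map (h : EllC.Nd C w α c) {s : C.Point →+ C.Point} {φ : Λ →+* Λ}
    (hc : Compat s φ) (hw : ∀ a, w (φ a) = w a) (hα : φ α = α) {P : C.Point} (hP : InE0 w c P) :
    InE0 w c (s P) ∧ uu α c (s P) = φ (uu α c P) := by
  have hφc : φ c = c := by
    have := congrArg φ h.hc
    rw [map_mul, map_pow, hα, map_ofNat, ← h.hc] at this
    exact mul_left_cancel₀ h.sw.three this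
  rcases P with _ | ⟨x, y, hn⟩
  · rw [← Point.zero_def, map_zero]
    exact ⟨trivial, (map_one φ).symm⟩
  · obtain ⟨h', e⟩ := hc x y hn
    rw [e]
    constructor
    · change 1 ≤ w (φ x - c)
      rw [← hφc, ← map_sub, hw]
      exact hP
    · change (φ y - α * (φ x - c)) / (φ y + α * (φ x - c)) =
        φ ((y - α * (x - c)) / (y + α * (x - c)))
      rw [map_div₀, map_sub, map_add, map_mul, map_sub, hα, hφc]

omit [DecidableEq Λ] in
theorem EllC.Nd.w_uu (h : EllC.Nd C w α c) {P : C.Point} (hP : InE0 w c P) :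
    w (uu α c P) = 1 := by
  rcases P with _ | ⟨x, y, hn⟩
  · exact map_one w
  · obtain ⟨k1, -, k3⟩ := h.key hn hP
    change w ((y - α * (x - c)) / (y + α * (x - c))) = 1
    rw [map_div₀, k1, div_self k3.ne']

omit [DecidableEq Λ] in
theorem EllC.Nd.inE1_iff (h : EllC.Nd C w α c) {P : C.Point} (hP : InE0 w c P) :
    InE1 w 1 P ↔ w (uu α c P - 1) < 1 := by
  rcases P with _ | ⟨x, y, hn⟩
  · refine ⟨fun _ => ?_, fun _ => trivial⟩
    change w (1 - 1) < 1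
    simp
  · obtain ⟨-, k2, k3⟩ := h.key hn hP
    have hx : 1 ≤ w (x - c) := hP
    refine (h.lt_iff x).trans ?_
    change _ ↔ w ((y - α * (x - c)) / (y + α * (x - c)) - 1) < 1
    rw [div_sub_one (w.pos_iff.1 k3), map_div₀, div_lt_one k3,
      show y - α * (x - c) - (y + α * (x - c)) = -(2 * (α * (x - c))) by ring, w.map_neg, map_mul,
      map_mul, h.sz.two, h.wa, one_mul, one_mul]
    generalize w (y + α * (x - c)) = p at k2 k3 ⊢
    generalize w (x - c) = t at k2 hx ⊢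
    constructor
    · intro hlt
      refine lt_of_pow_lt_pow_left₀ 2 k3.le ?_
      rw [k2]
      exact pow_lt_pow_right₀ hlt (by norm_num)
    · intro hlt
      refine lt_of_le_of_ne hx fun hc => ?_
      rw [← hc] at k2 hlt
      nlinarith

omit [DecidableEq Λ] in
theorem EllC.Nd.neg (h : EllC.Nd C w α c) {P : C.Point} (hP : InE0 w c P) :
    InE0 w c (-P) ∧ uu α c (-P) * uu α c P = 1 := by
  rcases P with _ | ⟨x, y, hn⟩
  · exact ⟨trivial, mul_one _⟩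
  · refine ⟨hP, ?_⟩
    obtain ⟨k1, -, k3⟩ := h.key hn hP
    have h1 : y + α * (x - c) ≠ 0 := w.pos_iff.1 k3
    have h2 : y - α * (x - c) ≠ 0 := w.pos_iff.1 (k1 ▸ k3)
    change (C.negY x y - α * (x - c)) / (C.negY x y + α * (x - c)) *
      ((y - α * (x - c)) / (y + α * (x - c))) = 1
    rw [h.sw.negY_eq, show -y - α * (x - c) = -(y + α * (x - c)) by ring,
      show -y + α * (x - c) = -(y - α * (x - c)) by ring, neg_div_neg_eq, div_mul_div_comm,
      mul_comm, div_self (mul_ne_zero h2 h1)]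

theorem EllC.Nd.add (h : EllC.Nd C w α c) {P Q : C.Point} (hP : InE0 w c P) (hQ : InE0 w c Q) :
    InE0 w c (P + Q) ∧ w (uu α c (P + Q) - uu α c P * uu α c Q) < 1 := by
  rcases P with _ | ⟨x1, y1, hn1⟩
  · rw [← Point.zero_def, zero_add]
    refine ⟨hQ, ?_⟩
    change w (uu α c Q - 1 * uu α c Q) < 1
    simp
  rcases Q with _ | ⟨x2, y2, hn2⟩
  · rw [← Point.zero_def, add_zero]
    refine ⟨hP, ?_⟩
    change w (_ - _ * 1) < 1
    simp
  by_cases hxy : x1 = x2 ∧ y1 = C.negY x2 y2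
  · rw [Point.add_of_Y_eq hxy.1 hxy.2]
    refine ⟨trivial, ?_⟩
    obtain ⟨rfl, rfl⟩ := hxy
    have := (h.neg hQ).2
    change w (1 - uu α c (-Point.some x1 y2 hn2) * _) < 1
    rw [this]
    simp
  have hn3 := nonsingular_negAdd hn1 hn2 hxy
  have hsum : Point.some x1 y1 hn1 + Point.some x2 y2 hn2 = -Point.some _ _ hn3 :=
    Point.add_some hxy
  obtain ⟨hy1, hy2, hy3, e1, e2, e3⟩ := EllC.line h hn1.1 hn2.1 hxy rfl rfl rfl rfl
  have hx3 : InE0 w c (Point.some _ _ hn3) :=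
    EllC.closure h.sz.na h.wa h.e1 h.e0 (h.eqn hn3) hy3 e1 e2 hP hQ
  have hprod : w (uu α c (Point.some x1 y1 hn1) * uu α c (Point.some x2 y2 hn2) *
      uu α c (Point.some _ _ hn3) - 1) < 1 :=
    EllC.prod h.sz.na h.wa h.e1 h.e0 hy1 hy2 hy3 e1 e2 e3 hP hQ hx3
  obtain ⟨hneg, hinv⟩ := h.neg hx3
  rw [hsum]
  refine ⟨hneg, ?_⟩
  have hw := h.w_uu hneg
  generalize uu α c (-Point.some _ _ hn3) = v at hinv hw ⊢
  generalize uu α c (Point.some _ _ hn3) = u3 at hinv hprod ⊢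
  generalize uu α c (Point.some x1 y1 hn1) * uu α c (Point.some x2 y2 hn2) = u at hprod ⊢
  rw [show v - u = -((u * u3 - 1) * v) by linear_combination u * hinv, w.map_neg]
  exact EllC.mul_lt hprod hw.le

theorem EllC.Nd.nsmul (h : EllC.Nd C w α c) {P : C.Point} (hP : InE0 w c P) (n : ℕ) :
    InE0 w c (n • P) ∧ w (uu α c (n • P) - uu α c P ^ n) < 1 := by
  induction n with
  | zero =>
    rw [zero_smul, pow_zero]
    refine ⟨trivial, ?_⟩
    change w (1 - 1) < 1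
    simp
  | succ n ih =>
    rw [succ_nsmul]
    obtain ⟨ha, hb⟩ := h.add ih.1 hP
    refine ⟨ha, EllC.trans h.sz.na hb ?_⟩
    rw [pow_succ, ← sub_mul]
    exact EllC.mul_lt ih.2 (h.w_uu hP).le

omit [DecidableEq Λ] in
theorem EllC.Nd.exists_u [IsSepClosed Λ] (h : EllC.Nd C w α c) {η : Λ} (hη : w η = 1)
    (hm : w (1 - η) = 1) : ∃ P : C.Point, InE0 w c P ∧ w (uu α c P - η) < 1 := by
  have hm0 : 1 - η ≠ 0 := w.pos_iff.1 (hm ▸ one_pos)
  obtain ⟨X, hX⟩ : ∃ X : Λ, X * (1 - η) ^ 2 = η * (2 * α) ^ 2 :=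
    ⟨_, div_mul_cancel₀ _ (pow_ne_zero 2 hm0)⟩
  have h2α : w (2 * α) = 1 := by rw [map_mul, h.sz.two, h.wa, one_mul]
  obtain ⟨x, rfl⟩ : ∃ x, X = x - c := ⟨X + c, by ring⟩
  have hwx : w (x - c) = 1 := by
    have := congrArg w hX
    rwa [map_mul, map_mul, map_pow, map_pow, hm, hη, h2α, one_pow, mul_one, mul_one] at this
  obtain ⟨y, he⟩ := exists_sqrt h.sw.two (x ^ 3 + C.a₄ * x + C.a₆)
  have hn := h.sw.nonsing he
  have hP : InE0 w c (Point.some x y hn) := hwx.ge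
  have hu := h.w_uu hP
  obtain ⟨hneg, hinv⟩ := h.neg hP
  have hv := h.w_uu hneg
  have e0 : uu α c (Point.some x y hn) * (y + α * (x - c)) = y - α * (x - c) :=
    div_mul_cancel₀ _ (w.pos_iff.1 (h.key hn hP).2.2)
  have hE := h.eqn hn
  have hε : w ((C.a₄ + 3 * c ^ 2) * (x - c) + (c ^ 3 + C.a₄ * c + C.a₆)) < 1 :=
    EllC.add_lt h.sz.na (EllC.mul_lt h.e1 hwx.le) h.e0
  rw [add_assoc] at hE
  generalize (C.a₄ + 3 * c ^ 2) * (x - c) + (c ^ 3 + C.a₄ * c + C.a₆) = ε at hE hε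
  have key : ∀ u : Λ, u * (y + α * (x - c)) = y - α * (x - c) → w u = 1 →
      w (u - η) < 1 ∨ w (η * u - 1) < 1 := by
    generalize x - c = X at hX hwx hE
    intro u e0 hu
    have e1 : (u - 1) * (y + α * X) = -(2 * α * X) := by linear_combination e0
    have e : (u - 1) ^ 2 * (X ^ 3 + ε) = (2 * α * X) ^ 2 * u := by
      calc (u - 1) ^ 2 * (X ^ 3 + ε) = (u - 1) ^ 2 * ((y - α * X) * (y + α * X)) := by
            linear_combination -(u - 1) ^ 2 * hE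
        _ = ((u - 1) * (y + α * X)) ^ 2 * u := by rw [← e0]; ring
        _ = (2 * α * X) ^ 2 * u := by rw [e1]; ring
    have e2 : (2 * α * X) ^ 2 * ((u - η) * (η * u - 1)) = -(ε * ((u - 1) * (1 - η)) ^ 2) := by
      linear_combination (1 - η) ^ 2 * e - (u - 1) ^ 2 * X ^ 2 * hX
    have e3 : w (u - η) * w (η * u - 1) < 1 := by
      have h4 : w (-(ε * ((u - 1) * (1 - η)) ^ 2)) < 1 := by
        rw [w.map_neg]
        refine EllC.mul_lt hε ?_
        rw [map_pow, map_mul, hm, mul_one]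
        exact pow_le_one₀ (w.nonneg _) (EllC.sub_le h.sz.na hu.le (map_one w).le)
      rwa [← e2, map_mul, map_pow, map_mul, h2α, hwx, one_mul, one_pow, one_mul, map_mul] at h4
    by_contra! hc
    linarith [one_le_mul_of_one_le_of_one_le hc.1 hc.2]
  rcases key _ e0 hu with hk | hk
  · exact ⟨_, hP, hk⟩
  · refine ⟨_, hneg, ?_⟩
    generalize uu α c (-Point.some x y hn) = v at hinv hv ⊢
    generalize uu α c (Point.some x y hn) = u at hinv hk ⊢
    rw [show v - η = -((η * u - 1) * v) by linear_combination η * hinv, w.map_neg]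
    exact EllC.mul_lt hk hv.le

theorem EllC.Nd.mult_point [IsSepClosed Λ] (h : EllC.Nd C w α c) (j : ℕ) :
    ∃ P : C.Point, 2 ^ (j + 1) • P = 0 ∧ 2 ^ j • P ≠ 0 ∧
      ∀ (s : C.Point →+ C.Point) (φ : Λ →+* Λ) (Q : ℕ), Compat s φ → (∀ a, w (φ a) = w a) →
        (∀ a, w a ≤ 1 → w (φ a - a ^ Q) < 1) → φ α = α → s P = Q • P := by
  have hs := h.sz
  have : NeZero ((2 : ℕ) : Λ) := ⟨by exact_mod_cast h.sw.two⟩
  obtain ⟨η, hη⟩ := HasEnoughRootsOfUnity.exists_primitiveRoot Λ (2 ^ (j + 1))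
  have hwη : w η = 1 := EllC.w_root (by positivity) hη.pow_eq_one
  have hne : η ^ 2 ^ j ≠ 1 :=
    hη.pow_ne_one_of_pos_of_lt (by positivity) (Nat.pow_lt_pow_right (by norm_num) j.lt_succ_self)
  have hm : w (1 - η) = 1 := by
    refine le_antisymm (EllC.sub_le hs.na (map_one w).le hwη.le) (not_lt.1 fun hc => hne ?_)
    rw [EllC.root_eq_one hs.na hs.two _ η hη.pow_eq_one (EllC.symm hc), one_pow]
  obtain ⟨P0, hP0, hu0⟩ := h.exists_u hwη hm
  have hw0 := h.w_uu hP0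
  obtain ⟨hN, hNu⟩ := h.nsmul hP0 (2 ^ (j + 1))
  have hN1 : InE1 w 1 (2 ^ (j + 1) • P0) := by
    refine (h.inE1_iff hN).2 (EllC.trans hs.na hNu ?_)
    have := EllC.pow_sub hs.na hw0.le hwη.le hu0 (2 ^ (j + 1))
    rwa [hη.pow_eq_one] at this
  obtain ⟨R, hR, hRe⟩ := InE1.div h.sw hs hN1 (j + 1)
  have hR0 := h.inE0_of_inE1 hR.neg
  obtain ⟨hP, hPu⟩ := h.add hP0 hR0
  have hu : w (uu α c (P0 + -R) - η) < 1 := by
    refine EllC.trans hs.na (EllC.trans hs.na hPu ?_) hu0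
    rw [show uu α c P0 * uu α c (-R) - uu α c P0 = (uu α c (-R) - 1) * uu α c P0 by ring]
    exact EllC.mul_lt ((h.inE1_iff hR0).1 hR.neg) hw0.le
  have hT : 2 ^ (j + 1) • (P0 + -R) = 0 := by rw [smul_add, smul_neg, hRe, add_neg_cancel]
  generalize P0 + -R = P at hP hu hT
  have hw := h.w_uu hP
  refine ⟨P, hT, fun h0 => hne ?_, fun s φ Q hc hφ hQ hα => ?_⟩
  · have h4 := (h.nsmul hP (2 ^ j)).2
    rw [h0] at h4
    refine EllC.root_eq_one hs.na hs.two 1 _ ?_ ?_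
    · rw [← pow_mul, ← pow_add, hη.pow_eq_one]
    · exact EllC.symm (EllC.trans hs.na h4 (EllC.pow_sub hs.na hw.le hwη.le hu _))
  · obtain ⟨hs0, hsu⟩ := h.map hc hφ hα hP
    obtain ⟨hq0, hqu⟩ := h.nsmul hP Q
    obtain ⟨hn0, hnu⟩ := h.neg hq0
    obtain ⟨hd0, hdu⟩ := h.add hs0 hn0
    have hd1 : InE1 w 1 (s P + -(Q • P)) := by
      refine (h.inE1_iff hd0).2 (EllC.trans hs.na hdu ?_)
      rw [← hnu, mul_comm (uu α c (-(Q • P))), ← sub_mul, hsu]
      exact EllC.mul_lt (EllC.trans hs.na (hQ _ hw.le) (EllC.symm hqu)) (h.w_uu hn0).le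
    refine add_neg_eq_zero.1 (InE1.eq_zero h.sw hs hd1 (j := j + 1) ?_)
    rw [smul_add, smul_neg, ← map_nsmul, smul_comm, hT, map_zero, smul_zero, add_neg_cancel]

omit [DecidableEq Λ] in
theorem EllC.exists_nd [IsSepClosed Λ] (h : SW C) (hs : Sz C w 1) (h4 : w C.a₄ = 1)
    (hD : w (4 * C.a₄ ^ 3 + 27 * C.a₆ ^ 2) < 1) :
    ∃ α c : Λ, 2 * C.a₄ * α ^ 2 = -9 * C.a₆ ∧ EllC.Nd C w α c := by
  have ha0 : C.a₄ ≠ 0 := w.pos_iff.1 (h4 ▸ one_pos)
  obtain ⟨α, hα⟩ := exists_sqrt h.two (-9 * C.a₆ / (2 * C.a₄))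
  have e : 2 * C.a₄ * α ^ 2 = -9 * C.a₆ := by
    rw [hα, mul_div_cancel₀ _ (mul_ne_zero h.two ha0)]
  obtain ⟨c, hc⟩ : ∃ c : Λ, 3 * c = α ^ 2 := ⟨_, mul_div_cancel₀ _ h.three⟩
  have ec : 2 * C.a₄ * c = -(3 * C.a₆) := by
    refine mul_left_cancel₀ h.three ?_
    linear_combination e + 2 * C.a₄ * hc
  have h2a : w (2 * C.a₄) = 1 := by rw [map_mul, hs.two, h4, one_mul]
  have h43 : w ((2 * C.a₄) ^ 2 * C.a₄) = 1 := by rw [map_mul, map_pow, h2a, h4, one_pow, one_mul]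
  have hb : w C.a₆ = 1 := by
    have h1 := EllB_eq_sub hs.na (hD.trans_eq h43.symm)
    rw [show 4 * C.a₄ ^ 3 + 27 * C.a₆ ^ 2 - (2 * C.a₄) ^ 2 * C.a₄ = 3 ^ 3 * C.a₆ ^ 2 by ring, h43,
      map_mul, map_pow, map_pow, hs.three, one_pow, one_mul] at h1
    exact (pow_eq_one_iff_of_nonneg (w.nonneg _) two_ne_zero).1 h1
  have hwc : w c = 1 := by
    have := congrArg w ec
    rwa [map_mul, h2a, w.map_neg, map_mul, hs.three, hb, one_mul, one_mul] at this
  have hwα : w α = 1 := by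
    have := congrArg w hc
    rw [map_mul, map_pow, hs.three, hwc, one_mul] at this
    exact (pow_eq_one_iff_of_nonneg (w.nonneg _) two_ne_zero).1 this.symm
  refine ⟨α, c, e, h, hs, hwα, hc, ?_, ?_⟩
  · have e1 : (2 * C.a₄) ^ 2 * (C.a₄ + 3 * c ^ 2) = 4 * C.a₄ ^ 3 + 27 * C.a₆ ^ 2 := by
      linear_combination 3 * (2 * C.a₄ * c - 3 * C.a₆) * ec
    rwa [← e1, map_mul, map_pow, h2a, one_pow, one_mul] at hD
  · have e1 : (2 * C.a₄) ^ 2 * C.a₄ * (c ^ 3 + C.a₄ * c + C.a₆) =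
        (4 * C.a₄ ^ 3 + 27 * C.a₆ ^ 2) * (C.a₄ * c + C.a₆) := by
      linear_combination (C.a₄ * c * (2 * C.a₄ * c - 3 * C.a₆) - 9 * C.a₆ ^ 2) * ec
    have h1 : w ((4 * C.a₄ ^ 3 + 27 * C.a₆ ^ 2) * (C.a₄ * c + C.a₆)) < 1 :=
      EllC.mul_lt hD (EllC.add_le hs.na (by rw [map_mul, h4, hwc, one_mul]) hb.le)
    rwa [← e1, map_mul, h43, one_mul] at h1

theorem SW.mult_point [IsSepClosed Λ] (h : SW C) (hs : Sz C w 1) (h4 : w C.a₄ = 1)
    (hD : w (4 * C.a₄ ^ 3 + 27 * C.a₆ ^ 2) < 1) :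
    ∃ α : Λ, w α = 1 ∧ 2 * C.a₄ * α ^ 2 = -9 * C.a₆ ∧ ∀ j : ℕ, ∃ P : C.Point,
      2 ^ (j + 1) • P = 0 ∧ 2 ^ j • P ≠ 0 ∧
      ∀ (s : C.Point →+ C.Point) (φ : Λ →+* Λ) (Q : ℕ), Compat s φ → (∀ a, w (φ a) = w a) →
        (∀ a, w a ≤ 1 → w (φ a - a ^ Q) < 1) → φ α = α → s P = Q • P := by
  obtain ⟨α, c, e, hN⟩ := EllC.exists_nd h hs h4 hD
  exact ⟨α, hN.wa, e, hN.mult_point⟩

end

end Pool.Agent.Quad
end

-- merged part: Pool.Agent.Work.MP_60d5ce_nt.Qt.EllDef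
section
/-!
# The curve over `k(t)`: local facts, the lattice
-/

namespace Pool.Agent.Quad

open scoped Classical
open Polynomial WeierstrassCurve WeierstrassCurve.Affine Pool.Agent.ShaAsc

noncomputable section

variable {k : Type} [Field k] {A B : k[X]}

/-- the discriminant up to a constant -/
def dsc (A B : k[X]) : k[X] := 4 * A ^ 3 + 27 * B ^ 2

theorem Hyp.D_ne (h : Hyp A B) (h6 : (6 : k) ≠ 0) : dsc A B ≠ 0 := by
  intro h0
  have h2 : (2 : RatFunc k) ≠ 0 := two_ne_of_six (six_ne_map (algebraMap k (RatFunc k)) h6)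
  have h3 : (3 : RatFunc k) ≠ 0 := three_ne_of_six (six_ne_map (algebraMap k (RatFunc k)) h6)
  have e := congrArg (algebraMap k[X] (RatFunc k)) h0
  simp only [dsc, map_add, map_mul, map_pow, map_ofNat, map_zero] at e
  have hn := h.noroot
  generalize algebraMap k[X] (RatFunc k) A = a at e hn
  generalize algebraMap k[X] (RatFunc k) B = b at e hn
  by_cases ha : a = 0
  · refine hn 0 ?_
    have hb : (3 : RatFunc k) ^ 3 * b ^ 2 = 0 := by
      rw [ha] at e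
      linear_combination e
    have := pow_eq_zero_iff two_ne_zero |>.1 ((mul_eq_zero.1 hb).resolve_left (pow_ne_zero 3 h3))
    rw [this]
    ring
  · refine hn (-3 * b / (2 * a)) ?_
    field_simp
    linear_combination (-b) * e

section ext

variable (Ω : Type) [Field Ω] [Algebra (RatFunc k) Ω]

/-- polynomials as elements of `Ω` -/
def bp : k[X] →+* Ω := (algebraMap (RatFunc k) Ω).comp (algebraMap k[X] (RatFunc k))

/-- the curve over `Ω` -/
abbrev CO (A B : k[X]) : Affine Ω := (EC A B).toAffine.baseChange Ω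

variable {Ω}

theorem bp_apply (p : k[X]) :
    bp Ω p = algebraMap (RatFunc k) Ω (algebraMap k[X] (RatFunc k) p) := rfl

theorem bp_ne {p : k[X]} (hp : p ≠ 0) : bp Ω p ≠ 0 :=
  (map_ne_zero_iff _ (algebraMap (RatFunc k) Ω).injective).2
    ((map_ne_zero_iff _ (RatFunc.algebraMap_injective k)).2 hp)

theorem fix_bp (s : Ω ≃ₐ[RatFunc k] Ω) (p : k[X]) : s (bp Ω p) = bp Ω p := s.commutes _

theorem CO_a4 : (CO Ω A B).a₄ = bp Ω A := rfl

theorem CO_a6 : (CO Ω A B).a₆ = bp Ω B := rfl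

theorem CO_disc : 4 * (CO Ω A B).a₄ ^ 3 + 27 * (CO Ω A B).a₆ ^ 2 = bp Ω (dsc A B) := by
  rw [CO_a4, CO_a6, dsc]
  simp only [map_add, map_pow, map_mul, map_ofNat]

theorem Hyp.sw (h : Hyp A B) (h6 : (6 : k) ≠ 0) : SW (CO Ω A B) := by
  refine ⟨map_zero (algebraMap (RatFunc k) Ω), map_zero (algebraMap (RatFunc k) Ω),
    map_zero (algebraMap (RatFunc k) Ω), ?_, ?_⟩
  · rw [CO_disc]
    exact bp_ne (h.D_ne h6)
  · have := bp_ne (Ω := Ω) (C_ne_zero.2 h6)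
    rwa [map_ofNat, map_ofNat] at this

theorem compat_act [DecidableEq Ω] (s : Ω ≃ₐ[RatFunc k] Ω) :
    Compat (C := CO Ω A B) (act (EC A B) s) (s : Ω →+* Ω) := by
  intro x y h
  exact ⟨_, rfl⟩

/-- a root of the cubic has degree three -/
theorem Hyp.quad_ne (h : Hyp A B) {e : Ω} (he : e ^ 3 + bp Ω A * e + bp Ω B = 0) {c0 c1 c2 : k[X]}
    (hc : ¬ (c0 = 0 ∧ c1 = 0 ∧ c2 = 0)) : bp Ω c0 + bp Ω c1 * e + bp Ω c2 * e ^ 2 ≠ 0 := by
  intro h0
  set a := algebraMap k[X] (RatFunc k) with ha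
  let f : (RatFunc k)[X] := X ^ 3 + C (a A) * X + C (a B)
  have hfd : f.natDegree = 3 := by
    simp only [f]
    compute_degree!
  have hfm : f.Monic := by
    simp only [f]
    monicity!
  have hirr : Irreducible f := by
    rw [hfm.irreducible_iff_roots_eq_zero_of_degree_le_three (by omega) (by omega)]
    refine Multiset.eq_zero_of_forall_notMem fun r hr => h.noroot r ?_
    have := (mem_roots hfm.ne_zero).1 hr
    simpa [f] using this
  have hf0 : aeval e f = 0 := by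
    simp only [f, map_add, map_mul, map_pow, aeval_X, aeval_C]
    exact he
  have hmin := minpoly.eq_of_irreducible_of_monic hirr hf0 hfm
  let g : (RatFunc k)[X] := C (a c2) * X ^ 2 + C (a c1) * X + C (a c0)
  have hg0 : aeval e g = 0 := by
    simp only [g, map_add, map_mul, map_pow, aeval_X, aeval_C]
    rw [← h0]
    simp only [bp_apply]
    ring
  have hgd : g.natDegree ≤ 2 := by
    simp only [g]
    compute_degree
  have hgz : g = 0 := by
    by_contra hg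
    have := natDegree_le_of_dvd (hmin ▸ minpoly.dvd (RatFunc k) e hg0) hg
    omega
  have inj := RatFunc.algebraMap_injective k
  refine hc ⟨?_, ?_, ?_⟩
  · have := congrArg (fun p => coeff p 0) hgz
    simp only [g, coeff_add, coeff_C_mul, coeff_X_pow, coeff_X, coeff_C, coeff_zero] at this
    exact (map_eq_zero_iff a inj).1 (by simpa [-map_eq_zero] using this)
  · have := congrArg (fun p => coeff p 1) hgz
    simp only [g, coeff_add, coeff_C_mul, coeff_X_pow, coeff_X, coeff_C, coeff_zero] at this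
    exact (map_eq_zero_iff a inj).1 (by simpa [-map_eq_zero] using this)
  · have := congrArg (fun p => coeff p 2) hgz
    simp only [g, coeff_add, coeff_C_mul, coeff_X_pow, coeff_X, coeff_C, coeff_zero] at this
    exact (map_eq_zero_iff a inj).1 (by simpa [-map_eq_zero] using this)

end ext

theorem exists_pl {P : k[X]} (hP : Irreducible P) :
    ∃ v : Pl k, v ≠ none ∧ Associated P (pl v) := by
  have h := associated_normalize P
  exact ⟨some ⟨normalize P, monic_normalize hP.ne_zero, h.irreducible hP⟩,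
    Option.some_ne_none _, h⟩

theorem mult_eq {P : k[X]} {v : Pl k} (hv : v ≠ none) (h : Associated P (pl v)) (p : k[X]) :
    mult p v = multiplicity P p := by
  obtain ⟨q, rfl⟩ := Option.ne_none_iff_exists'.1 hv
  exact multiplicity_eq_of_associated_left h

theorem Hyp.exists_pl (h : Hyp A B) :
    ∃ v : Pl k, v ≠ none ∧ ¬ pl v ∣ A ∧ Odd (Quad.mult (dsc A B) v) := by
  obtain ⟨P, hP, h1, h3⟩ := h.mult
  obtain ⟨v, hv, e⟩ := Quad.exists_pl hP
  exact ⟨v, hv, fun hd => h1 (e.dvd.trans hd), by rwa [mult_eq hv e]⟩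

variable [Fintype k]

theorem small_fin (n : ℕ) : {v : Pl k | pdg v ≤ n}.Finite := by
  refine ((Set.finite_le_nat n).biUnion fun e _ => pdg_fin (k := k) e).subset fun v hv => ?_
  exact Set.mem_biUnion hv rfl

/-- infinity, the places of bad reduction, and the places of small degree -/
def badS (A B : k[X]) : Finset (Pl k) :=
  insert none (fac (dsc A B) ∪ (small_fin (2 * (A.natDegree + B.natDegree))).toFinset)

theorem not_mem_badS (hD : dsc A B ≠ 0) {v : Pl k} : v ∉ badS A B ↔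
    v ≠ none ∧ mult (dsc A B) v = 0 ∧ 2 * (A.natDegree + B.natDegree) < pdg v := by
  simp only [badS, Finset.mem_insert, Finset.mem_union, mem_fac hD, Set.Finite.mem_toFinset,
    Set.mem_ofPred_eq, not_or, not_not, not_le, ne_eq]

variable {Ω : Type} [Field Ω] [Algebra (RatFunc k) Ω] [Algebra k Ω]
  [IsScalarTower k (RatFunc k) Ω] [IsSepClosure (RatFunc k) Ω] {v : Pl k}

theorem Loc.w_base (l : Loc Ω v) (hv : v ≠ none) {p : k[X]} (hp : p ≠ 0) :
    l.w (bp Ω p) = 2 ^ (-(mult p v : ℤ)) := by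
  obtain ⟨q, rfl⟩ := Option.ne_none_iff_exists'.1 hv
  have key : ∀ r : k[X], r ≠ 0 → l.w (bp Ω r) =
        2 ^ (-((r.map (algebraMap k (Kb k Ω))).rootMultiplicity l.x : ℤ)) := fun r hr => by
    rw [bp_apply, ← aeval_tt_base, ← aeval_tt_map]
    exact l.w_poly hv (Polynomial.map_ne_zero hr)
  have hfin : FiniteMultiplicity q.1 p :=
    finiteMultiplicity_of_degree_pos_of_monic (degree_pos_of_irreducible q.2.2) q.2.1 hp
  obtain ⟨r, hr, hqr⟩ := hfin.exists_eq_pow_mul_and_not_dvd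
  have hr0 : r ≠ 0 := fun h0 => hqr (h0 ▸ dvd_zero _)
  have h1 : (q.1.map (algebraMap k (Kb k Ω))).rootMultiplicity l.x = 1 := by
    have hs : (q.1.map (algebraMap k (Kb k Ω))).Separable :=
      (PerfectField.separable_of_irreducible q.2.2).map
    have ha := rootMultiplicity_le_one_of_separable hs l.x
    have hb : 0 < (q.1.map (algebraMap k (Kb k Ω))).rootMultiplicity l.x := by
      rw [rootMultiplicity_pos (Polynomial.map_ne_zero q.2.1.ne_zero), IsRoot, eval_map_algebraMap]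
      exact l.root q rfl
    omega
  have h2 : (r.map (algebraMap k (Kb k Ω))).rootMultiplicity l.x = 0 := by
    refine rootMultiplicity_eq_zero ?_
    rw [IsRoot, eval_map_algebraMap]
    intro h0
    exact hqr (by rw [galloc_min l]; exact minpoly.dvd k l.x h0)
  have e : mult p (some q) = multiplicity q.1 p := rfl
  rw [e]
  generalize multiplicity q.1 p = m at hr
  rw [hr, map_mul, map_mul, map_pow, map_pow, key _ q.2.1.ne_zero, key _ hr0, h1,
    h2, ← zpow_natCast, ← zpow_mul]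
  simp

theorem Loc.w_bp_le (l : Loc Ω v) (hv : v ≠ none) (p : k[X]) : l.w (bp Ω p) ≤ 1 := by
  by_cases hp : p = 0
  · simp [hp]
  · rw [l.w_base hv hp]
    exact zpow_le_one_of_nonpos₀ (by norm_num) (by omega)

omit [IsSepClosure (RatFunc k) Ω] in
theorem Loc.w_kb (l : Loc Ω v) {c : Kb k Ω} (hc : c ≠ 0) : l.w c = 1 := l.w_const c hc

omit [IsSepClosure (RatFunc k) Ω] in
theorem Loc.w_two (h6 : (6 : k) ≠ 0) (l : Loc Ω v) : l.w 2 = 1 :=
  l.w_kb (c := 2) (two_ne_of_six (six_ne_map (algebraMap k (Kb k Ω)) h6))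

omit [IsSepClosure (RatFunc k) Ω] in
theorem Loc.w_three (h6 : (6 : k) ≠ 0) (l : Loc Ω v) : l.w 3 = 1 :=
  l.w_kb (c := 3) (three_ne_of_six (six_ne_map (algebraMap k (Kb k Ω)) h6))

/-- a uniformiser in the base field -/
theorem Loc.nontriv (l : Loc Ω v) :
    ∃ a : RatFunc k, l.w (algebraMap (RatFunc k) Ω a) = 2⁻¹ := by
  cases v with
  | none =>
    refine ⟨RatFunc.X⁻¹, ?_⟩
    rw [map_inv₀]
    exact l.w_unif
  | some q =>
    refine ⟨algebraMap k[X] (RatFunc k) q.1, ?_⟩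
    have hv : (some q : Pl k) ≠ none := Option.some_ne_none _
    have := mult_pl hv (some q)
    rw [if_pos rfl] at this
    have e : mult q.1 (some q) = 1 := this
    rw [← bp_apply, l.w_base hv q.2.1.ne_zero, e]
    simp

omit [IsSepClosure (RatFunc k) Ω] in
/-- residues of integral elements fixed by `σ` -/
theorem Loc.res_fin (l : Loc Ω v) : ∃ R : Finset (Kb k Ω), R.card ≤ Fintype.card k ^ pdg v ∧
    ∀ a : Ω, l.w a ≤ 1 → gal l.σ a = a → ∃ c ∈ R, l.w (a - c) < 1 := by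
  set Q := Fintype.card k ^ pdg v with hQ
  have hQ1 : 1 < Q := Nat.one_lt_pow (pdg_pos v).ne' Fintype.one_lt_card
  have hf : (X ^ Q - X : (Kb k Ω)[X]) ≠ 0 := FiniteField.X_pow_card_sub_X_ne_zero _ hQ1
  refine ⟨(X ^ Q - X : (Kb k Ω)[X]).roots.toFinset, ?_, fun a ha hσ => ?_⟩
  · refine (Multiset.toFinset_card_le _).trans ((card_roots' _).trans ?_)
    rw [FiniteField.X_pow_card_sub_X_natDegree_eq _ hQ1]
  obtain ⟨c, hc⟩ := l.w_res ha
  have hc1 : l.w c ≤ 1 := by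
    by_cases h0 : c = 0
    · simp [h0]
    · exact (l.w_kb h0).le
  have h1 := l.σ_res ha
  rw [hσ] at h1
  have h2 := EllC.pow_sub l.w_na ha hc1 hc Q
  have h3 := EllC.trans l.w_na (EllC.trans l.w_na (EllC.symm hc) h1) h2
  have h4 : c - c ^ Q = 0 := by
    by_contra h0
    have := l.w_kb h0
    push_cast at this
    exact absurd this h3.ne
  refine ⟨c, ?_, hc⟩
  rw [Multiset.mem_toFinset, mem_roots hf, IsRoot, eval_sub, eval_pow, eval_X]
  linear_combination -h4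

omit [IsSepClosure (RatFunc k) Ω] in
theorem Loc.exists_sz (h6 : (6 : k) ≠ 0) (l : Loc Ω v) : ∃ ρ, Sz (CO Ω A B) l.w ρ := by
  set a := l.w (CO Ω A B).a₄
  set b := l.w (CO Ω A B).a₆
  have h1 : 1 ≤ max (max a b) 1 := le_max_right _ _
  exact ⟨max (max a b) 1, l.w_na, l.w_two h6, l.w_three h6, one_pos.trans_le h1,
    ((le_max_left _ _).trans (le_max_left _ _)).trans (le_self_pow₀ h1 (by norm_num)),
    ((le_max_right _ _).trans (le_max_left _ _)).trans (le_self_pow₀ h1 (by norm_num))⟩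

theorem Loc.sz_one (h6 : (6 : k) ≠ 0) (l : Loc Ω v) (hv : v ≠ none) : Sz (CO Ω A B) l.w 1 := by
  refine ⟨l.w_na, l.w_two h6, l.w_three h6, one_pos, ?_, ?_⟩
  · rw [CO_a4, one_pow]
    exact l.w_bp_le hv _
  · rw [CO_a6, one_pow]
    exact l.w_bp_le hv _

variable [DecidableEq Ω]

theorem Loc.tau_fix (h6 : (6 : k) ≠ 0) (h : Hyp A B) (l : Loc Ω v) (hv : v ∉ badS A B) {j : ℕ}
    {y : Pts (EC A B) Ω} (hy : 2 ^ j • y = 0) : act (EC A B) (gal l.τ) y = y := by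
  obtain ⟨h1, h2, -⟩ := (not_mem_badS (h.D_ne h6)).1 hv
  refine (h.sw h6).unram (l.sz_one h6 h1) ?_ (compat_act (gal l.τ)) (fun a ha => l.τ_res ha) hy
  rw [CO_disc, l.w_base h1 (h.D_ne h6), h2]
  simp

/-- the curve with a basis of the Tate module lifting two points of order two -/
structure EllD (A B : k[X]) (Ω : Type) [Field Ω] [Algebra (RatFunc k) Ω] [DecidableEq Ω] where
  e1 : Ω
  e2 : Ω
  e3 : Ω
  rt : Rt (CO Ω A B) e1 e2 e3
  TB : TateB (Pts (EC A B) Ω)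
  h1 : TB.pt 1 ![1, 0] = tp (CO Ω A B) e1
  h2 : TB.pt 1 ![0, 1] = tp (CO Ω A B) e2

omit [Fintype k] [Algebra k Ω] [IsScalarTower k (RatFunc k) Ω] in
theorem exists_ellD (h : Hyp A B) (h6 : (6 : k) ≠ 0) : Nonempty (EllD A B Ω) := by
  have := IsSepClosure.sep_closed (RatFunc k) (K := Ω)
  have hs : SW (CO Ω A B) := h.sw h6
  obtain ⟨e1, e2, e3, rt⟩ := hs.exists_rt
  obtain ⟨TB, h1, h2⟩ := exists_tateB (tp (CO Ω A B) e1) (tp (CO Ω A B) e2) hs.exists_half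
    rt.two_tp rt.swap12.two_tp rt.indep rt.span
  exact ⟨⟨e1, e2, e3, rt, TB, h1, h2⟩⟩

namespace EllD

variable (X : EllD A B Ω)

section basic

omit [Fintype k] [Algebra k Ω] [IsScalarTower k (RatFunc k) Ω] [IsSepClosure (RatFunc k) Ω]

/-- the matrix of an automorphism -/
def m : (Ω ≃ₐ[RatFunc k] Ω) →* Matrix (Fin 2) (Fin 2) O where
  toFun s := X.TB.mat (act (EC A B) s)
  map_one' := X.TB.mat_one fun _ P _ => act_one P
  map_mul' s t := X.TB.mat_mul (act_mul s t)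

theorem m_def (s : Ω ≃ₐ[RatFunc k] Ω) : X.m s = X.TB.mat (act (EC A B) s) := rfl

theorem act_pt (s : Ω ≃ₐ[RatFunc k] Ω) (j : ℕ) (a : V) :
    act (EC A B) s (X.TB.pt j a) = X.TB.pt j ((X.m s).mulVec a) := X.TB.mat_spec _ j a

theorem h3 : X.TB.pt 1 ![1, 1] = tp (CO Ω A B) X.e3 := by
  rw [← X.rt.tp_add, ← X.h1, ← X.h2, ← map_add]
  congr 1
  funext i
  fin_cases i <;> simp

/-- the root attached to a vector modulo two -/
def er (n : Vb) : Ω := xc (C := CO Ω A B) (X.TB.pt 1 (lftV n))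

theorem er10 : X.er ![1, 0] = X.e1 := by
  have e : lftV ![1, 0] = (![1, 0] : V) := by
    funext i
    fin_cases i <;> simp [lftV]
  rw [er, e, X.h1, X.rt.xc_tp]

theorem er01 : X.er ![0, 1] = X.e2 := by
  have e : lftV ![0, 1] = (![0, 1] : V) := by
    funext i
    fin_cases i <;> simp [lftV]
  rw [er, e, X.h2, X.rt.swap12.xc_tp]

theorem er11 : X.er ![1, 1] = X.e3 := by
  have e : lftV ![1, 1] = (![1, 1] : V) := by
    funext i
    fin_cases i <;> simp [lftV]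
  rw [er, e, X.h3, X.rt.rot.rot.xc_tp]

theorem vb_cases (n : Vb) : n = 0 ∨ n = ![1, 0] ∨ n = ![0, 1] ∨ n = ![1, 1] := by
  revert n
  decide

theorem er_root {n : Vb} (hn : n ≠ 0) : X.er n ^ 3 + bp Ω A * X.er n + bp Ω B = 0 := by
  rcases vb_cases n with rfl | rfl | rfl | rfl
  · exact absurd rfl hn
  · rw [er10]
    exact X.rt.root
  · rw [er01]
    exact X.rt.swap12.root
  · rw [er11]
    exact X.rt.rot.rot.root

theorem act_er (s : Ω ≃ₐ[RatFunc k] Ω) (n : Vb) :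
    s (X.er n) = X.er (((X.m s).map res).mulVec n) := by
  have h1 := (compat_act (A := A) (B := B) s).xc_eq (X.TB.pt 1 (lftV n))
  rw [act_pt] at h1
  refine h1.symm.trans (congrArg (xc (C := CO Ω A B)) ((X.TB.pt_eq_iff _ _ _).2 ?_))
  have h2 := VD_sub_lftV (VD.triv ((X.m s).mulVec (lftV n)))
  rw [pow_zero, one_smul, digV_mulVec _ (VD.triv _), digV_lftV] at h2
  exact h2

end basic

include X in
theorem adm (j : ℕ) : ∃ U : Subgroup (WG k Ω), Adm U ∧
    ∀ u ∈ U, ∀ y : Pts (EC A B) Ω, 2 ^ j • y = 0 → act (EC A B) (gal u) y = y := by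
  let H : Subgroup (WG k Ω) :=
    { carrier := {g | wdeg g = 0 ∧
        ∀ y : Pts (EC A B) Ω, 2 ^ j • y = 0 → act (EC A B) (gal g) y = y}
      mul_mem' := fun {a b} ha hb => ⟨by rw [wdeg_mul, ha.1, hb.1, add_zero], fun y hy => by
        rw [map_mul, act_mul, hb.2 y hy, ha.2 y hy]⟩
      one_mem' := ⟨wdeg_one, fun y _ => by rw [map_one, act_one]⟩
      inv_mem' := fun {a} ha => ⟨by rw [wdeg_inv, ha.1, neg_zero], fun y hy => by
        conv_lhs => rw [← ha.2 y hy]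
        rw [← act_mul, ← map_mul, inv_mul_cancel, map_one, act_one]⟩ }
  choose S hS using fun y : Pts (EC A B) Ω => act_fix (K := RatFunc k) y
  refine ⟨H.normalCore, adm_core H (fun g hg => hg.1) ((X.TB.torsion_finite j).toFinset.biUnion S)
    (fun g hg hf => ⟨hg, fun y hy => hS y _ fun a ha => hf a (Finset.mem_biUnion.2
      ⟨y, (Set.Finite.mem_toFinset _).2 hy, ha⟩)⟩)
    (fun g hg => ⟨j, by rw [wdeg_pow, hg, mul_zero], ?_⟩),
    fun u hu => (H.normalCore_le hu).2⟩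
  rw [← X.TB.mat_dvd_iff, ← m_def, map_pow, map_pow]
  exact pow_six_congr (m' := X.m (gal g)⁻¹) (by rw [← map_mul, mul_inv_cancel, map_one]) j

/-- the lattice -/
def lat (h : Hyp A B) (h6 : (6 : k) ≠ 0) (ℓ : Locs k Ω) : Lat (tame h6 ℓ) (Fin 2) where
  ρ g := X.m (gal g)
  ρ_one := by rw [map_one, map_one]
  ρ_mul g g' := by rw [map_mul, map_mul]
  S := badS A B
  inf_mem := Finset.mem_insert_self _ _
  unr v hv := X.TB.mat_one fun _ _ hP => (ℓ v).tau_fix h6 h hv hP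
  sm j := by
    obtain ⟨U, h1, h2⟩ := X.adm j
    exact ⟨U, h1, fun u hu => (X.TB.mat_dvd_iff _ _).2 (h2 u hu)⟩

variable {h : Hyp A B} {h6 : (6 : k) ≠ 0} {ℓ : Locs k Ω}

theorem lat_ρ (g : WG k Ω) : (X.lat h h6 ℓ).ρ g = X.m (gal g) := rfl

theorem lat_S : (X.lat h h6 ℓ).S = badS A B := rfl

theorem gal_er (g : WG k Ω) (n : Vb) :
    gal g (X.er n) = X.er (((X.lat h h6 ℓ).rb g).mulVec n) := X.act_er (gal g) n

end EllD

end

end Pool.Agent.Quad
end

-- merged part: Pool.Agent.Work.MP_60d5ce_nt.Lb.DCnt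
section
/-!
# Sums over points of the line as sums over places  (task LB DCnt)

* `exists_emb_fix`: `IsAlgClosed.lift`; the image lies in the root set of `X ^ (q ^ n) - X`, which has at most `q ^ n` elements (`FiniteField.pow_card`, `Module.natCard_eq_pow_finrank`).
* `frobSum_eq`: transport along the embedding (`aeval_algHom_apply`).
* `affN_frob`: the bijection `(x, y) ↦ (φ x, φ y)`.
* `sum_places`: `(v, i) ↦ (frob ^ i) (ℓ v).x` for `i < pdg v` is a bijection onto `Kb` (`exists_place`, `place_unique`); `(frob ^ n) c = c` iff `pdg v ∣ n` (`frob_pdg`, `place_unique`);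
  `aeval c D = 0` iff `pl v ∣ D` (`(ℓ v).root`, `minpoly.eq_of_irreducible_of_monic`, `mem_fac_iff`).
-/

namespace Pool.Agent.Lef

open scoped Classical
open Pool.Agent.Quad Polynomial

variable {k : Type} [Field k] [Fintype k]

theorem exists_emb_fix {κ : Type} [Field κ] [Algebra k κ] [IsAlgClosed κ] {F : Type} [Field F]
    [Algebra k F] {n : ℕ} (hn : 0 < n) (hF : Module.finrank k F = n) :
    Finite F ∧ Nat.card F = Fintype.card k ^ n ∧
      ∃ ι : F →ₐ[k] κ, ∀ c, c ∈ Set.range ι ↔ c ^ Fintype.card k ^ n = c := by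
  have : Module.Finite k F := Module.finite_of_finrank_pos (hF ▸ hn)
  have hfin : Finite F := Module.finite_of_finite k
  have hc : Nat.card F = Fintype.card k ^ n := by
    rw [Module.natCard_eq_pow_finrank (K := k), hF, Nat.card_eq_fintype_card]
  have := Fintype.ofFinite F
  have hQ : 1 < Fintype.card k ^ n := Nat.one_lt_pow hn.ne' Fintype.one_lt_card
  refine ⟨hfin, hc, IsAlgClosed.lift, fun c => ?_⟩
  generalize (IsAlgClosed.lift : F →ₐ[k] κ) = ι
  generalize Fintype.card k ^ n = Q at hc hQ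
  rw [Nat.card_eq_fintype_card] at hc
  have hm : ∀ c, c ∈ (X ^ Q - X : κ[X]).roots.toFinset ↔ c ^ Q = c := fun c => by
    rw [Multiset.mem_toFinset, mem_roots (FiniteField.X_pow_card_sub_X_ne_zero _ hQ), IsRoot,
      eval_sub, eval_pow, eval_X, sub_eq_zero]
  have h1 : Finset.univ.image ι = (X ^ Q - X : κ[X]).roots.toFinset := by
    refine Finset.eq_of_subset_of_card_le (fun z hz => ?_) ?_
    · obtain ⟨t, -, rfl⟩ := Finset.mem_image.1 hz
      rw [hm, ← map_pow, ← hc, FiniteField.pow_card]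
    · rw [Finset.card_image_of_injective _ (f := ι) ι.toRingHom.injective, Finset.card_univ, hc]
      exact (Multiset.toFinset_card_le _).trans ((card_roots' _).trans
        (FiniteField.X_pow_card_sub_X_natDegree_eq _ hQ).le)
  rw [← hm, ← h1, ← Finset.mem_coe, Finset.coe_image, Finset.coe_univ, Set.image_univ]

theorem DCnt_aff {κ F : Type} [Field κ] [Field F] (ι : F →+* κ) (a b : F) {Q : ℕ}
    (h : ∀ c, c ^ Q = c → c ∈ Set.range ι) : affN (ι a) (ι b) Q = affN a b Q := by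
  rw [affN, affN, ← Set.ncard_image_of_injective _ (ι.injective.prodMap ι.injective)]
  congr 1
  ext ⟨x, y⟩
  constructor
  · rintro ⟨h1, h2, h3⟩
    obtain ⟨x, rfl⟩ := h x h2
    obtain ⟨y, rfl⟩ := h y h3
    refine ⟨(x, y), ⟨ι.injective ?_, ι.injective ?_, ι.injective ?_⟩, rfl⟩
    · simpa only [map_add, map_mul, map_pow] using h1
    · simpa only [map_pow] using h2
    · simpa only [map_pow] using h3
  · rintro ⟨⟨x, y⟩, ⟨h1, h2, h3⟩, ⟨⟩⟩
    refine ⟨?_, ?_, ?_⟩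
    · simpa only [map_add, map_mul, map_pow] using congrArg ι h1
    · simpa only [map_pow] using congrArg ι h2
    · simpa only [map_pow] using congrArg ι h3

theorem frobSum_eq {κ : Type} [Field κ] [Algebra k κ] [IsAlgClosed κ] {F : Type} [Field F]
    [Algebra k F] {n : ℕ} (hn : 0 < n) (hF : Module.finrank k F = n) (a b : k[X]) (S : Finset κ)
    (hS : ∀ c, c ∈ S ↔ c ^ Fintype.card k ^ n = c ∧ aeval c (dsc a b) ≠ 0) :
    frobSum F a b = ∑ c ∈ S, (((Fintype.card k ^ n : ℕ) : ℤ) -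
      affN (aeval c a) (aeval c b) (Fintype.card k ^ n)) := by
  obtain ⟨h1, h2, ι, h3⟩ := exists_emb_fix (κ := κ) hn hF
  have := Fintype.ofFinite F
  have inj : Function.Injective ι := ι.toRingHom.injective
  have h4 : ∀ t : F, aeval (ι t) (dsc a b) ≠ 0 ↔ 4 * aeval t a ^ 3 + 27 * aeval t b ^ 2 ≠ 0 :=
    fun t => by
      rw [aeval_algHom_apply, map_ne_zero_iff _ inj, dsc]
      simp only [map_add, map_mul, map_pow, map_ofNat]
  have h5 : ∀ t : F, t ^ Fintype.card k ^ n = t := fun t =>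
    inj (by rw [map_pow, (h3 _).1 ⟨t, rfl⟩])
  rw [frobSum, finsum_eq_sum_of_fintype]
  simp only [finsum_eq_if]
  rw [← Finset.sum_filter]
  refine Finset.sum_nbij ι (fun t ht => ?_) inj.injOn (fun c hc => ?_) fun t _ => ?_
  · exact (hS _).2 ⟨(h3 _).1 ⟨t, rfl⟩, (h4 t).2 (Finset.mem_filter.1 ht).2⟩
  · obtain ⟨h6, h7⟩ := (hS c).1 hc
    obtain ⟨t, rfl⟩ := (h3 c).2 h6
    exact ⟨t, Finset.mem_coe.2 (Finset.mem_filter.2 ⟨Finset.mem_univ _, (h4 t).1 h7⟩), rfl⟩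
  · rw [h2, aeval_algHom_apply, aeval_algHom_apply]
    refine congrArg (fun m : ℕ => ((Fintype.card k ^ n : ℕ) : ℤ) - m) (Eq.symm ?_)
    refine (DCnt_aff ι.toRingHom _ _ fun c => (h3 c).2).trans ?_
    simp only [affN, h5, and_true]
    exact (Nat.card_coe_set_eq _).symm

theorem affN_frob {κ : Type} [Field κ] (φ : κ ≃+* κ) (a b : κ) (Q : ℕ) :
    affN (φ a) (φ b) Q = affN a b Q := by
  exact DCnt_aff φ.toRingHom a b fun c _ => φ.surjective c

variable {Ω : Type} [Field Ω] [Algebra (RatFunc k) Ω] [Algebra k Ω]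
  [IsScalarTower k (RatFunc k) Ω] [IsSepClosure (RatFunc k) Ω]

omit [IsSepClosure (RatFunc k) Ω] in
theorem DCnt_min {v : Pl k} (l : Loc Ω v) (hv : v ≠ none) (i : ℕ) :
    minpoly k ((frob k Ω ^ i) l.x) = pl v := by
  obtain ⟨p, rfl⟩ := Option.ne_none_iff_exists'.1 hv
  rw [minpoly.algEquiv_eq, ← galloc_min]
  rfl

theorem sum_places (h6 : (6 : k) ≠ 0) (ℓ : Locs k Ω) {D : k[X]} (hD : D ≠ 0) {n : ℕ} (hn : 0 < n)
    (f : Kb k Ω → ℤ) (hf : ∀ c, f (frob k Ω c) = f c) : ∃ S : Finset (Kb k Ω),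
      (∀ c, c ∈ S ↔ c ^ Fintype.card k ^ n = c ∧ aeval c D ≠ 0) ∧
      ∑ c ∈ S, f c = ∑ v ∈ Pd (tame h6 ℓ) (insert none (fac D)) n, (pdg v : ℤ) * f (ℓ v).x := by
  have h1 : ∀ v, v ∈ Pd (tame h6 ℓ) (insert none (fac D)) n ↔
      v ≠ none ∧ pdg v ∣ n ∧ ¬ pl v ∣ D := fun v => by
    rw [mem_Pd, Finset.mem_insert, mem_fac_iff hD]
    exact ⟨fun h => ⟨fun e => h.1 (Or.inl e), h.2.1, fun e => h.1 (Or.inr ⟨fun e' =>
      h.1 (Or.inl e'), e⟩)⟩, fun h => ⟨fun e => e.elim h.1 fun e' => h.2.2 e'.2, h.2.1, hn.ne'⟩⟩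
  have h2 : ∀ v, v ≠ none → ∀ i : ℕ, ((frob k Ω ^ i) (ℓ v).x ^ Fintype.card k ^ n =
      (frob k Ω ^ i) (ℓ v).x ∧ aeval ((frob k Ω ^ i) (ℓ v).x) D ≠ 0 ↔ pdg v ∣ n ∧ ¬ pl v ∣ D) :=
    fun v hv i => by
      rw [← frob_pow_apply, galloc_fix, Ne, ← minpoly.dvd_iff, DCnt_min _ hv, natDegree_pl hv]
  have h3 : ∀ (i : ℕ) c, f ((frob k Ω ^ i) c) = f c := fun i c => by
    induction i with
    | zero => rfl
    | succ i ih => rw [pow_succ', AlgEquiv.mul_apply, hf, ih]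
  refine ⟨((Pd (tame h6 ℓ) (insert none (fac D)) n).sigma fun v => Finset.range (pdg v)).image
    fun z => (frob k Ω ^ z.2) (ℓ z.1).x, fun c => ⟨fun h => ?_, fun h => ?_⟩, ?_⟩
  · obtain ⟨⟨v, i⟩, h', rfl⟩ := Finset.mem_image.1 h
    have h4 := Finset.mem_sigma.1 h'
    exact (h2 v ((h1 v).1 h4.1).1 i).2 ((h1 v).1 h4.1).2
  · obtain ⟨v, i, hv, hi, rfl⟩ := exists_place ℓ c
    exact Finset.mem_image.2 ⟨⟨v, i⟩, Finset.mem_sigma.2
      ⟨(h1 v).2 ⟨hv, (h2 v hv i).1 h⟩, Finset.mem_range.2 hi⟩, rfl⟩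
  · rw [Finset.sum_image, Finset.sum_sigma]
    · simp only [h3, Finset.sum_const, Finset.card_range, nsmul_eq_mul]
    · rintro ⟨v, i⟩ h ⟨v', i'⟩ h' e
      have h4 := Finset.mem_sigma.1 (Finset.mem_coe.1 h)
      have h5 := Finset.mem_sigma.1 (Finset.mem_coe.1 h')
      obtain ⟨rfl, rfl⟩ := place_unique ℓ ((h1 v).1 h4.1).1 ((h1 v').1 h5.1).1
        (Finset.mem_range.1 h4.2) (Finset.mem_range.1 h5.2) e
      rfl

theorem frobSum_places (h6 : (6 : k) ≠ 0) (ℓ : Locs k Ω) {a b : k[X]} (hD : dsc a b ≠ 0)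
    {F : Type} [Field F] [Algebra k F] {n : ℕ} (hn : 0 < n) (hF : Module.finrank k F = n) :
    frobSum F a b = ∑ v ∈ Pd (tame h6 ℓ) (insert none (fac (dsc a b))) n,
      (pdg v : ℤ) * (((Fintype.card k ^ n : ℕ) : ℤ) -
        affN (aeval (ℓ v).x a) (aeval (ℓ v).x b) (Fintype.card k ^ n)) := by
  obtain ⟨S, h1, h2⟩ := sum_places h6 ℓ hD hn (fun c => ((Fintype.card k ^ n : ℕ) : ℤ) -
    affN (aeval c a) (aeval c b) (Fintype.card k ^ n)) fun c => by
      rw [aeval_algHom_apply, aeval_algHom_apply]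
      exact congrArg (fun m : ℕ => ((Fintype.card k ^ n : ℕ) : ℤ) - m)
        (affN_frob (frob k Ω).toRingEquiv _ _ _)
  exact (frobSum_eq hn hF a b S h1).trans h2

end Pool.Agent.Lef
end

-- merged part: Pool.Agent.Work.MP_60d5ce_nt.Lb.DRed
section
/-!
# Reduction of torsion points  (task LB DRed)

* `Rd.eq`: the residue is unique (`w (j c - j c') < 1` forces `c = c'`); then `add`, `mul`, `div` by the lemmas of `Qt/EllV.lean`.
* `exists_redPt`: `red (x, y) = (rd x, rd y)` if that is a point, else `0`.  Torsion points have integral coordinates (`SW.tors_le`, `SW.w_y_le`).  Injective: `SW.close`, `InE1.eq_zero`.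
  Additive: let `P₁ + P₂ ≠ 0` be affine torsion points.  If `rd x₁ = rd x₂` then `rd y₁ = ± rd y₂`, so `P₁ = ± P₂` by injectivity, so `P₁ = P₂`, and `rd y₁ ≠ 0` (otherwise `P₁ = -P₁`).
  In both cases the slope has a denominator of value one, so `rd` of the slope is the slope (`slope_of_X_ne`, `slope_of_Y_ne`, `addX`, `addY`).
  Onto: both torsion groups have `(2 ^ n) ^ 2` elements (`sw_tate`, `TateR.card_tors`).
-/

namespace Pool.Agent.Lef

open Pool.Agent.Quad WeierstrassCurve WeierstrassCurve.Affine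

variable {Λ κ : Type} [Field Λ] [Field κ]

/-- a residue map -/
structure Rd (w : AbsoluteValue Λ ℝ) (j : κ →+* Λ) (rd : Λ → κ) : Prop where
  na : IsNonarchimedean w
  wj : ∀ c, c ≠ 0 → w (j c) = 1
  spec : ∀ a, w a ≤ 1 → w (a - j (rd a)) < 1

variable {w : AbsoluteValue Λ ℝ} {j : κ →+* Λ} {rd : Λ → κ}

theorem Rd.DRed_le (h : Rd w j rd) (c : κ) : w (j c) ≤ 1 := by
  rcases eq_or_ne c 0 with rfl | hc
  · rw [map_zero, w.map_zero]
    exact zero_le_one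
  · exact (h.wj c hc).le

theorem Rd.eq (h : Rd w j rd) {a : Λ} {c : κ} (e : w (a - j c) < 1) : w a ≤ 1 ∧ rd a = c := by
  have h1 : w a ≤ 1 := by
    have := EllB_add h.na e.le (h.DRed_le c)
    rwa [sub_add_cancel] at this
  refine ⟨h1, sub_eq_zero.1 (by_contra fun h2 => ?_)⟩
  have h3 := EllC.trans h.na (EllC.symm (h.spec a h1)) e
  rw [← map_sub, h.wj _ h2] at h3
  exact lt_irrefl _ h3

theorem Rd.add (h : Rd w j rd) {a b : Λ} (ha : w a ≤ 1) (hb : w b ≤ 1) :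
    rd (a + b) = rd a + rd b := by
  refine (h.eq ?_).2
  have := EllB_addl h.na (h.spec a ha) (h.spec b hb)
  rwa [sub_add_sub_comm, ← map_add] at this

theorem Rd.sub (h : Rd w j rd) {a b : Λ} (ha : w a ≤ 1) (hb : w b ≤ 1) :
    rd (a - b) = rd a - rd b := by
  refine (h.eq ?_).2
  have := EllB_subl h.na (h.spec a ha) (h.spec b hb)
  rwa [sub_sub_sub_comm, ← map_sub] at this

theorem Rd.mul (h : Rd w j rd) {a b : Λ} (ha : w a ≤ 1) (hb : w b ≤ 1) :
    rd (a * b) = rd a * rd b := by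
  refine (h.eq ?_).2
  have := EllB_addl h.na (EllC.mul_lt (h.spec a ha) hb) (EllC.mul_lt (h.spec b hb) (h.DRed_le (rd a)))
  rwa [show (a - j (rd a)) * b + (b - j (rd b)) * j (rd a) = a * b - j (rd a * rd b) by
    rw [map_mul]; ring] at this

theorem Rd.pow (h : Rd w j rd) {a : Λ} (ha : w a ≤ 1) (n : ℕ) : rd (a ^ n) = rd a ^ n := by
  refine (h.eq ?_).2
  rw [map_pow]
  exact EllC.pow_sub h.na ha (h.DRed_le _) (h.spec a ha) n

theorem Rd.eq_zero (h : Rd w j rd) {a : Λ} (ha : w a ≤ 1) : rd a = 0 ↔ w a < 1 := by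
  constructor
  · intro e
    have := h.spec a ha
    rwa [e, map_zero, sub_zero] at this
  · intro e
    exact (h.eq (by rwa [map_zero, sub_zero])).2

theorem Rd.div (h : Rd w j rd) {a b : Λ} (ha : w a ≤ 1) (hb : w b = 1) :
    rd (a / b) = rd a / rd b := by
  have h0 : b ≠ 0 := fun e => by
    rw [e, w.map_zero] at hb
    exact zero_ne_one hb
  have h1 : rd b ≠ 0 := fun e => ((h.eq_zero hb.le).1 e).ne hb
  have h2 : w (a / b) ≤ 1 := by rwa [map_div₀, hb, div_one]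
  rw [eq_div_iff h1, ← h.mul h2 hb.le, div_mul_cancel₀ a h0]

theorem Rd.DRed_j (h : Rd w j rd) (c : κ) : rd (j c) = c :=
  (h.eq (by rw [sub_self, w.map_zero]; exact zero_lt_one)).2

/-- the valuation ring -/
def Rd.DRedO (h : Rd w j rd) : Subring Λ where
  carrier := {a | w a ≤ 1}
  mul_mem' ha hb := (EllB_mul ha hb).trans (one_mul 1).le
  one_mem' := w.map_one.le
  add_mem' ha hb := EllB_add h.na ha hb
  zero_mem' := w.map_zero.le.trans zero_le_one
  neg_mem' {a} ha := (w.map_neg a).le.trans ha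

/-- the residue homomorphism -/
def Rd.DRedH (h : Rd w j rd) : h.DRedO →+* κ where
  toFun a := rd a
  map_one' := by simpa using h.DRed_j 1
  map_mul' a b := h.mul a.2 b.2
  map_zero' := by simpa using h.DRed_j 0
  map_add' a b := h.add a.2 b.2

theorem Rd.DRed_neg (h : Rd w j rd) {a : Λ} (ha : w a ≤ 1) : rd (-a) = -rd a :=
  map_neg h.DRedH ⟨a, ha⟩

theorem Rd.DRed_one (h : Rd w j rd) {a : Λ} (ha : w a ≤ 1) (h0 : rd a ≠ 0) : w a = 1 :=
  ha.eq_or_lt.resolve_right fun e => h0 ((h.eq_zero ha).2 e)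

theorem Rd.DRed_slope (h : Rd w j rd) {l a b : Λ} (ha : w a ≤ 1) (hb : w b ≤ 1) (h0 : rd a ≠ 0)
    (e : l * a = b) {l' : κ} (e' : l' * rd a = rd b) : w l ≤ 1 ∧ rd l = l' := by
  have h1 : w l ≤ 1 := by
    rw [← e, w.map_mul, h.DRed_one ha h0, mul_one] at hb
    exact hb
  refine ⟨h1, mul_right_cancel₀ h0 ?_⟩
  rw [e', ← e, h.mul h1 ha]

open Classical in
/-- reduction of points -/
noncomputable def DRedPt (rd : Λ → κ) (E : Affine Λ) (E' : Affine κ) : E.Point → E'.Point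
  | .zero => 0
  | .some x y _ => if hn : E'.Nonsingular (rd x) (rd y) then .some (rd x) (rd y) hn else 0

section
variable [DecidableEq Λ] (h : Rd w j rd) {E : Affine Λ} {E' : Affine κ} (hE : SW E) (hE' : SW E')
  (hs : Sz E w 1) (h4 : E'.a₄ = rd E.a₄) (h6 : E'.a₆ = rd E.a₆) {n : ℕ}
include h hE hE' hs h4 h6

theorem DRed_some {x y : Λ} {hn : E.Nonsingular x y} (e : 2 ^ n • (Point.some x y hn : E.Point) = 0) :
    w x ≤ 1 ∧ w y ≤ 1 ∧ ∃ hn', DRedPt rd E E' (.some x y hn) = .some (rd x) (rd y) hn' := by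
  have hx : w x ≤ 1 ^ 2 := hE.tors_le hs e
  have hy := hE.w_y_le hs hn hx
  have a4 := hs.a4
  have a6 := hs.a6
  rw [one_pow] at hx hy a4 a6
  have h1 : (⟨y, hy⟩ : h.DRedO) ^ 2 = ⟨x, hx⟩ ^ 3 + ⟨E.a₄, a4⟩ * ⟨x, hx⟩ + ⟨E.a₆, a6⟩ :=
    Subtype.ext (hE.eqn hn)
  have h2 := congrArg h.DRedH h1
  rw [map_add, map_add, map_mul, map_pow, map_pow] at h2
  have h3 : E'.Nonsingular (rd x) (rd y) := hE'.nonsing (by rw [h4, h6]; exact h2)
  exact ⟨hx, hy, h3, dif_pos h3⟩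

theorem DRed_inj {P Q : E.Point} (hP : 2 ^ n • P = 0) (hQ : 2 ^ n • Q = 0)
    (e : DRedPt rd E E' P = DRedPt rd E E' Q) : P = Q := by
  rcases P with _ | ⟨x, y, hn⟩ <;> rcases Q with _ | ⟨x', y', hn'⟩
  · rfl
  · obtain ⟨-, -, h1, e1⟩ := DRed_some h hE hE' hs h4 h6 hQ
    exact absurd (e1.symm.trans e.symm) (Point.some_ne_zero h1)
  · obtain ⟨-, -, h1, e1⟩ := DRed_some h hE hE' hs h4 h6 hP
    exact absurd (e1.symm.trans e) (Point.some_ne_zero h1)
  obtain ⟨hx, hy, h1, e1⟩ := DRed_some h hE hE' hs h4 h6 hP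
  obtain ⟨hx', hy', h2, e2⟩ := DRed_some h hE hE' hs h4 h6 hQ
  rw [e1, e2, Point.some.injEq] at e
  have a4 := hs.a4
  have a6 := hs.a6
  rw [one_pow] at a4 a6
  have h5 : rd (4 * E.a₄ ^ 3 + 27 * E.a₆ ^ 2) = 4 * E'.a₄ ^ 3 + 27 * E'.a₆ ^ 2 := by
    have := map_add h.DRedH (4 * ⟨E.a₄, a4⟩ ^ 3) (27 * ⟨E.a₆, a6⟩ ^ 2)
    rw [map_mul, map_mul, map_pow, map_pow, map_ofNat, map_ofNat] at this
    rw [h4, h6]
    exact this
  have hD : w (4 * E.a₄ ^ 3 + 27 * E.a₆ ^ 2) = 1 :=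
    h.DRed_one (EllB_add h.na (EllB_num h.na 4 (h.DRedO.pow_mem a4 3))
      (EllB_num h.na 27 (h.DRedO.pow_mem a6 2))) (h5 ▸ hE'.disc)
  have k1 : w (x - x') < 1 :=
    (h.eq_zero (EllB_sub h.na hx hx')).1 (by rw [h.sub hx hx', e.1, sub_self])
  have k2 : w (y - y') < 1 :=
    (h.eq_zero (EllB_sub h.na hy hy')).1 (by rw [h.sub hy hy', e.2, sub_self])
  have h3 := hE.close hs hn hn' (by rwa [one_pow]) (by rwa [one_pow])
    (by rwa [hD, one_pow, mul_one]) (by rwa [hD, one_pow, mul_one])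
  exact sub_eq_zero.1 (h3.eq_zero hE hs (j := n) (by rw [nsmul_sub, hP, hQ, sub_zero]))

theorem DRed_negPt {P : E.Point} (hP : 2 ^ n • P = 0) :
    DRedPt rd E E' (-P) = -DRedPt rd E E' P := by
  rcases P with _ | ⟨x, y, hn⟩
  · rfl
  obtain ⟨-, hy, h1, e1⟩ := DRed_some h hE hE' hs h4 h6 hP
  obtain ⟨hn', e⟩ := hE.neg_some hn
  obtain ⟨h2, e2⟩ := hE'.neg_some h1
  obtain ⟨-, -, h3, e3⟩ := DRed_some (n := n) (hn := hn') h hE hE' hs h4 h6
    (by rw [← e, neg_nsmul, hP, neg_zero])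
  rw [e, e3, e1, e2, Point.some.injEq]
  exact ⟨rfl, h.DRed_neg hy⟩

theorem DRed_add [DecidableEq κ] {P Q : E.Point} (hP : 2 ^ n • P = 0) (hQ : 2 ^ n • Q = 0) :
    DRedPt rd E E' (P + Q) = DRedPt rd E E' P + DRedPt rd E E' Q := by
  have hPQ : 2 ^ n • (P + Q) = 0 := by rw [nsmul_add, hP, hQ, add_zero]
  by_cases h0 : P = -Q
  · rw [h0, neg_add_cancel, DRed_negPt h hE hE' hs h4 h6 hQ, neg_add_cancel]
    rfl
  rcases P with _ | ⟨x, y, hn⟩
  · rw [← Point.zero_def, zero_add]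
    exact (zero_add _).symm
  rcases Q with _ | ⟨x', y', hn'⟩
  · rw [← Point.zero_def, add_zero]
    exact (add_zero _).symm
  obtain ⟨hx, hy, h1, e1⟩ := DRed_some h hE hE' hs h4 h6 hP
  obtain ⟨hx', hy', h2, e2⟩ := DRed_some h hE hE' hs h4 h6 hQ
  by_cases hxx : rd x = rd x'
  · have k1 : rd y ≠ -rd y' := fun e => h0 (DRed_inj h hE hE' hs h4 h6 hP
      (by rw [neg_nsmul, hQ, neg_zero]) (by
        obtain ⟨h3, e3⟩ := hE'.neg_some h2
        rw [DRed_negPt h hE hE' hs h4 h6 hQ, e1, e2, e3, Point.some.injEq]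
        exact ⟨hxx, e⟩))
    have k2 : rd y = rd y' := (sq_eq_sq_iff_eq_or_eq_neg.1
      (by rw [hE'.eqn h1, hE'.eqn h2, hxx])).resolve_right k1
    have k3 := DRed_inj h hE hE' hs h4 h6 hP hQ (by
      rw [e1, e2, Point.some.injEq]
      exact ⟨hxx, k2⟩)
    rw [← k3] at hPQ ⊢
    have k4 : rd y ≠ 0 := fun e => k1 (by rw [← k2, e, neg_zero])
    have k5 : y ≠ 0 := fun e => k4 (by rw [e]; exact map_zero h.DRedH)
    obtain ⟨l, hl, h3, e3⟩ := hE.EllA_dbl hn k5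
    obtain ⟨l', hl', h3', e3'⟩ := hE'.EllA_dbl h1 k4
    have a4 := hs.a4
    rw [one_pow] at a4
    have k6 : rd (2 * y) = 2 * rd y := by
      have := map_mul h.DRedH 2 ⟨y, hy⟩
      rwa [map_ofNat] at this
    have k7 : rd (3 * x ^ 2 + E.a₄) = 3 * rd x ^ 2 + E'.a₄ := by
      have := map_add h.DRedH (3 * ⟨x, hx⟩ ^ 2) ⟨E.a₄, a4⟩
      rw [map_mul, map_pow, map_ofNat] at this
      rw [h4]
      exact this
    obtain ⟨k8, rfl⟩ := h.DRed_slope (2 * ⟨y, hy⟩ : h.DRedO).2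
      (3 * ⟨x, hx⟩ ^ 2 + ⟨E.a₄, a4⟩ : h.DRedO).2 (k6 ▸ mul_ne_zero hE'.two k4) hl (l' := l')
      (k6 ▸ k7 ▸ hl')
    rw [← two_nsmul, e3] at hPQ ⊢
    obtain ⟨-, -, h5, e5⟩ := DRed_some h hE hE' hs h4 h6 hPQ
    rw [e5, e1, ← two_nsmul, e3', Point.some.injEq]
    constructor
    · have := map_sub h.DRedH (⟨l, k8⟩ ^ 2) (2 * ⟨x, hx⟩)
      rwa [map_mul, map_pow, map_ofNat] at this
    · have := map_sub h.DRedH (⟨l, k8⟩ * (⟨x, hx⟩ - (⟨l, k8⟩ ^ 2 - 2 * ⟨x, hx⟩))) ⟨y, hy⟩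
      rwa [map_mul, map_sub h.DRedH ⟨x, hx⟩, map_sub h.DRedH (_ ^ 2), map_mul, map_pow,
        map_ofNat] at this
  · obtain ⟨l, hl, h3, e3⟩ := hE.EllA_add hn hn' fun e => hxx (by rw [e])
    obtain ⟨l', hl', h3', e3'⟩ := hE'.EllA_add h1 h2 hxx
    obtain ⟨k8, rfl⟩ := h.DRed_slope (EllB_sub h.na hx hx') (EllB_sub h.na hy hy')
      (by rw [h.sub hx hx']; exact sub_ne_zero.2 hxx) hl (l' := l')
      (by rw [h.sub hx hx', h.sub hy hy', hl'])
    rw [e3] at hPQ ⊢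
    obtain ⟨-, -, h5, e5⟩ := DRed_some h hE hE' hs h4 h6 hPQ
    rw [e5, e1, e2, e3', Point.some.injEq]
    constructor
    · have := map_sub h.DRedH (⟨l, k8⟩ ^ 2 - ⟨x, hx⟩) ⟨x', hx'⟩
      rwa [map_sub h.DRedH (_ ^ 2), map_pow] at this
    · have := map_sub h.DRedH (⟨l, k8⟩ * (⟨x, hx⟩ - (⟨l, k8⟩ ^ 2 - ⟨x, hx⟩ - ⟨x', hx'⟩))) ⟨y, hy⟩
      rwa [map_mul, map_sub h.DRedH ⟨x, hx⟩, map_sub h.DRedH (_ - _), map_sub h.DRedH (_ ^ 2),
        map_pow] at this

end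

theorem sw_tate [DecidableEq Λ] [IsSepClosed Λ] {E : Affine Λ} (h : SW E) :
    Nonempty (TateB E.Point) := by
  obtain ⟨e1, e2, e3, he⟩ := h.exists_rt
  obtain ⟨B, -⟩ := exists_tateB (tp E e1) (tp E e2) h.exists_half he.two_tp he.rot.two_tp he.indep
    he.span
  exact ⟨B⟩

theorem exists_redPt [DecidableEq Λ] [DecidableEq κ] [IsSepClosed Λ] [IsSepClosed κ]
    (h : Rd w j rd) {E : Affine Λ} {E' : Affine κ} (hE : SW E) (hE' : SW E') (hs : Sz E w 1)
    (h4 : E'.a₄ = rd E.a₄) (h6 : E'.a₆ = rd E.a₆) :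
    ∃ red : E.Point → E'.Point, red 0 = 0 ∧
      (∀ x y hn, Tor2 (Point.some x y hn : E.Point) → w x ≤ 1 ∧ w y ≤ 1 ∧
        ∃ hn', red (.some x y hn) = .some (rd x) (rd y) hn') ∧
      ∀ n : ℕ, AddOn (tors E.Point (2 ^ n)) red ∧ Set.InjOn red (tors E.Point (2 ^ n)) ∧
        red '' (tors E.Point (2 ^ n)) = tors E'.Point (2 ^ n) := by
  refine ⟨DRedPt rd E E', rfl, fun x y hn ⟨n, e⟩ => DRed_some h hE hE' hs h4 h6 e, fun n => ?_⟩
  have h1 : AddOn (tors E.Point (2 ^ n)) (DRedPt rd E E') := fun P hP Q hQ =>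
    DRed_add h hE hE' hs h4 h6 hP hQ
  have h2 : Set.InjOn (DRedPt rd E E') (tors E.Point (2 ^ n)) := fun P hP Q hQ =>
    DRed_inj h hE hE' hs h4 h6 hP hQ
  obtain ⟨B⟩ := sw_tate hE
  obtain ⟨B'⟩ := sw_tate hE'
  refine ⟨h1, h2, Set.eq_of_subset_of_ncard_le ?_ ?_ ((ofB B').card_tors n).1⟩
  · rintro _ ⟨P, hP, rfl⟩
    show 2 ^ n • DRedPt rd E E' P = 0
    rw [← h1.nsmul hP, mem_tors.1 hP]
    rfl
  · rw [h2.ncard_image, ((ofB B').card_tors n).2, ((ofB B).card_tors n).2]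

end Pool.Agent.Lef
end

-- merged part: Pool.Agent.Work.MP_60d5ce_nt.Lb.DLoc
section
/-!
# Local traces at good places  (task LB DLoc)

* `sw_co`, `good_tau`: as `Hyp.sw`, `Loc.tau_fix`.
* `res_bp`: `bp Ω p = aeval t p` (`aeval_tt_base`), `l.w (t - l.x) = 2⁻¹` (`l.w_unif`); induction on `p`, or `Polynomial.sub_dvd_eval_sub`.
* `sigma_pow_res`: induction with `Loc.σ_res`, `Loc.w_σ`, `EllC.pow_sub`.
* `good_trace`: `rd` from `Loc.w_res`; `E' = ⟨0, 0, 0, aeval l.x a, aeval l.x b⟩`; its coefficients are fixed by the power `Q = (q ^ pdg v) ^ i` (`frob_pdg`, `frob_pow_apply`); `exists_redPt`, `exists_cmp`, `thmE`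
  (`p = ringChar k`), `HasTr.comap` (`compat_act`, `Rd.eq`, `Rd.pow`).
-/

namespace Pool.Agent.Lef

open Pool.Agent.Quad Pool.Agent.ShaAsc Polynomial

variable {k : Type} [Field k] [Fintype k] {Ω : Type} [Field Ω] [Algebra (RatFunc k) Ω]
  [Algebra k Ω] [IsScalarTower k (RatFunc k) Ω] {a b : k[X]} {v : Pl k}

omit [Fintype k] [Algebra k Ω] [IsScalarTower k (RatFunc k) Ω] in
theorem sw_co (h6 : (6 : k) ≠ 0) (hD : dsc a b ≠ 0) : SW (CO Ω a b) := by
  refine ⟨map_zero (algebraMap (RatFunc k) Ω), map_zero (algebraMap (RatFunc k) Ω),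
    map_zero (algebraMap (RatFunc k) Ω), ?_, ?_⟩
  · rw [CO_disc]
    exact bp_ne hD
  · have := bp_ne (Ω := Ω) (C_ne_zero.2 h6)
    rwa [map_ofNat, map_ofNat] at this

theorem DLoc_le (l : Loc Ω v) (c : Kb k Ω) : l.w c ≤ 1 := by
  by_cases h : c = 0
  · simp [h]
  · exact (l.w_kb h).le

theorem DLoc_fix [IsSepClosure (RatFunc k) Ω] (l : Loc Ω v) (hv : v ≠ none) (i : ℕ) (p : k[X]) :
    (aeval l.x p : Kb k Ω) ^ Fintype.card k ^ (pdg v * i) = aeval l.x p := by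
  have h : (frob k Ω ^ (pdg v * i)) l.x = l.x := by
    induction i with
    | zero => rfl
    | succ i ih => rw [mul_add_one, pow_add, AlgEquiv.mul_apply, frob_pdg l hv, ih]
  rw [← frob_pow_apply, ← aeval_algHom_apply, h]

theorem res_bp (l : Loc Ω v) (hv : v ≠ none) (p : k[X]) :
    l.w (bp Ω p - (aeval l.x p : Kb k Ω)) < 1 := by
  have h1 : l.w (tt k Ω - l.x) < 1 := by
    obtain ⟨q, rfl⟩ := Option.ne_none_iff_exists'.1 hv
    exact (l.w_unif : l.w (tt k Ω - l.x) = 2⁻¹).trans_lt (by norm_num)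
  have h2 : l.w (tt k Ω) ≤ 1 := by
    simpa using EllC.add_le l.w_na h1.le (DLoc_le l l.x)
  have e : ((aeval l.x p : Kb k Ω) : Ω) = aeval (l.x : Ω) p :=
    (aeval_algebraMap_apply Ω l.x p).symm
  rw [bp_apply, ← aeval_tt_base, e]
  clear e
  induction p using Polynomial.induction_on' with
  | add p q hp hq =>
    rw [map_add, map_add, add_sub_add_comm]
    exact EllC.add_lt l.w_na hp hq
  | monomial n c =>
    rw [aeval_monomial, aeval_monomial, ← mul_sub, mul_comm]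
    exact EllC.mul_lt (EllC.pow_sub l.w_na h2 (DLoc_le l l.x) h1 n)
      (DLoc_le l (algebraMap k (Kb k Ω) c))

theorem sigma_pow_res (l : Loc Ω v) (i : ℕ) {z : Ω} (hz : l.w z ≤ 1) :
    l.w (gal (l.σ ^ i) z - z ^ Fintype.card k ^ (pdg v * i)) < 1 := by
  induction i with
  | zero => simp
  | succ i ih =>
    have h1 : l.w (z ^ Fintype.card k ^ (pdg v * i)) ≤ 1 := by
      rw [map_pow]
      exact pow_le_one₀ (l.w.nonneg z) hz
    have h2 : l.w (gal (l.σ ^ i) z) ≤ 1 := by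
      simpa only [sub_add_cancel] using EllC.add_le l.w_na ih.le h1
    rw [pow_succ', map_mul, AlgEquiv.mul_apply, mul_add_one, pow_add, pow_mul z]
    exact EllC.trans l.w_na (l.σ_res h2) (EllC.pow_sub l.w_na h2 h1 ih _)

variable [IsSepClosure (RatFunc k) Ω] [DecidableEq Ω]

omit [DecidableEq Ω] in
theorem DLoc_dsc (hD : dsc a b ≠ 0) (l : Loc Ω v) (hv : v ≠ none) (hv' : v ∉ fac (dsc a b)) :
    l.w (bp Ω (dsc a b)) = 1 := by
  rw [l.w_base hv hD, not_not.1 fun h => hv' ((mem_fac hD).2 h)]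
  simp

theorem good_tau (h6 : (6 : k) ≠ 0) (hD : dsc a b ≠ 0) (l : Loc Ω v)
    (hv : v ≠ none) (hv' : v ∉ fac (dsc a b)) {j : ℕ} {y : Pts (EC a b) Ω} (hy : 2 ^ j • y = 0) :
    act (EC a b) (gal l.τ) y = y := by
  refine (sw_co h6 hD).unram (l.sz_one h6 hv) ?_ (compat_act (gal l.τ)) (fun a ha => l.τ_res ha) hy
  rw [CO_disc, DLoc_dsc hD l hv hv']

theorem good_trace (h6 : (6 : k) ≠ 0) (hD : dsc a b ≠ 0) (l : Loc Ω v)
    (hv : v ≠ none) (hv' : v ∉ fac (dsc a b)) {i : ℕ} (hi : 0 < i) (J : ℕ) :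
    HasTr (2 ^ (J + 1)) (tors (Pts (EC a b) Ω) (2 ^ (J + 1))) (act (EC a b) (gal (l.σ ^ i)))
      (((Fintype.card k ^ (pdg v * i) : ℕ) : ZMod (2 ^ (J + 1))) -
        (affN (aeval l.x a) (aeval l.x b) (Fintype.card k ^ (pdg v * i)) : ℕ)) := by
  have := IsSepClosure.sep_closed (RatFunc k) (K := Ω)
  choose! rd hrd using fun z (hz : l.w z ≤ 1) => l.w_res hz
  have hR : Rd l.w (algebraMap (Kb k Ω) Ω) rd := ⟨l.w_na, fun c hc => l.w_kb hc, hrd⟩
  let E' : WeierstrassCurve.Affine (Kb k Ω) := ⟨0, 0, 0, aeval l.x a, aeval l.x b⟩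
  have hE' : SW E' := by
    refine ⟨rfl, rfl, rfl, fun h => ?_, six_ne_map (algebraMap k (Kb k Ω)) h6⟩
    have e : (aeval l.x (dsc a b) : Kb k Ω) = 0 := by
      rw [← h, dsc]
      simp only [map_add, map_mul, map_pow, map_ofNat, E']
    have h1 := res_bp l hv (dsc a b)
    rw [e, ZeroMemClass.coe_zero, sub_zero, DLoc_dsc hD l hv hv'] at h1
    exact lt_irrefl _ h1
  obtain ⟨red, r0, r1, r2⟩ := exists_redPt hR (sw_co h6 hD) hE' (l.sz_one h6 hv)
    (hR.eq (res_bp l hv a)).2.symm (hR.eq (res_bp l hv b)).2.symm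
  obtain ⟨p, hp⟩ := CharP.exists k
  obtain ⟨n, hp', hn⟩ := FiniteField.card k p
  have : Fact p.Prime := ⟨hp'⟩
  have : CharP (Kb k Ω) p := charP_of_injective_algebraMap (algebraMap k (Kb k Ω)).injective p
  obtain ⟨s, hs⟩ := exists_cmp hE'
    ((frob k Ω ^ (pdg v * i) : Kb k Ω ≃ₐ[k] Kb k Ω) : Kb k Ω →+* Kb k Ω)
    ((frob_pow_apply _ _).trans (DLoc_fix l hv i a)) ((frob_pow_apply _ _).trans (DLoc_fix l hv i b))
  have hs' : Cmp s fun c => c ^ Fintype.card k ^ (pdg v * i) := by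
    rw [← funext (frob_pow_apply (k := k) (Ω := Ω) (pdg v * i))]
    exact hs
  have key : ∀ z, l.w z ≤ 1 → rd (gal (l.σ ^ i) z) = rd z ^ Fintype.card k ^ (pdg v * i) :=
    fun z hz => (hR.eq (by
      rw [map_pow]
      exact EllC.trans l.w_na (sigma_pow_res l i hz)
        (EllC.pow_sub l.w_na hz (DLoc_le l _) (hrd z hz) _))).2
  obtain ⟨a1, a2, a3⟩ := r2 (J + 1)
  refine (thmE hE' (mul_pos n.pos (mul_pos (pdg_pos v) hi)) (by rw [hn, ← pow_mul])
    (DLoc_fix l hv i a) (DLoc_fix l hv i b) hs' J).comap a1 a2 a3 (fun P hP => ?_) fun P hP => ?_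
  · rw [mem_tors] at hP ⊢
    rw [← map_nsmul, hP, map_zero]
  · have hP' : 2 ^ (J + 1) • act (EC a b) (gal (l.σ ^ i)) P = 0 := by
      rw [← map_nsmul, mem_tors.1 hP, map_zero]
    rcases P with _ | ⟨x, y, hxy⟩
    · exact ((congrArg red (map_zero _)).trans r0).trans (hs'.1.symm.trans (congrArg s r0.symm))
    · obtain ⟨h', e1⟩ := compat_act (A := a) (B := b) (gal (l.σ ^ i)) x y hxy
      obtain ⟨hx, hy, h1, e2⟩ := r1 x y hxy ⟨_, hP⟩
      rw [e1] at hP' ⊢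
      obtain ⟨-, -, h2, e3⟩ := r1 _ _ h' ⟨_, hP'⟩
      obtain ⟨h3, e4⟩ := hs'.2 _ _ h1
      obtain ⟨h4, e5⟩ := EllA_congr h2 (key x hx) (key y hy)
      rw [e2, e3, e4]
      exact e5

end Pool.Agent.Lef
end

-- merged part: Pool.Agent.Work.MP_60d5ce_nt.Qt.EllFour
section
/-!
# The determinant modulo four

Hints.
* `cq_four`: `i` is algebraic over `k`, `gal_const`; `frob i = i ^ q` is `i` or `-i` according to `q` modulo four
  (`frob_apply`, `card_mod`); induction on `n : ℤ` for the statement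
  `(frob ^ n) i = i ∧ 4 ∣ u ^ n - 1 ∨ (frob ^ n) i = -i ∧ 4 ∣ u ^ n + 1`; `i ≠ -i`.
* `four_fix`: `P = pt 2 ![1, 0]`, `Q = pt 2 ![0, 1]`, `2 P = tp e1`, `2 Q = tp e2` (`TateB.two`),
  `i = sl e3 P / sl e3 Q`, `i ^ 2 = -1` (`Rt.half_sl` for `rt` and `rt.swap12`).  `gal g` fixes `e3`;
  `Compat.sl_eq`.  For `a b : O`: `sl e3 (pt 2 ![1 + 2 a, 2 b]) = ± sl e3 P` with the sign given by the parity
  of `a` (`pt 2 (2 • t) = pt 1 t`, `pt_pow_smul`), the same for `Q`.  `rb g` is `1` or the swap.  In the first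
  case `det = 1 + 2 (a + d)` modulo four and `g i = (-1) ^ (a + d) i`; in the second case both change sign
  (`i⁻¹ = -i`).
-/

namespace Pool.Agent.Quad

open scoped Classical
open Polynomial WeierstrassCurve WeierstrassCurve.Affine Pool.Agent.ShaAsc

noncomputable section

variable {k : Type} [Field k] [Fintype k] {A B : k[X]} {Ω : Type} [Field Ω]
  [Algebra (RatFunc k) Ω] [Algebra k Ω] [IsScalarTower k (RatFunc k) Ω]
  [IsSepClosure (RatFunc k) Ω] {v : Pl k}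

theorem EllFour_zpow {k K : Type} [Field k] [Field K] [Algebra k K] (c : K) (φ : K ≃ₐ[k] K)
    (u : Oˣ) (h : (φ c = c ∧ (4 : O) ∣ u - 1) ∨ (φ c = -c ∧ (4 : O) ∣ u + 1)) (n : ℤ) :
    ((φ ^ n) c = c ∧ (4 : O) ∣ (u ^ n : Oˣ) - 1) ∨
      ((φ ^ n) c = -c ∧ (4 : O) ∣ (u ^ n : Oˣ) + 1) := by
  let S : Subgroup ((K ≃ₐ[k] K) × Oˣ) :=
    { carrier := {z | (z.1 c = c ∧ (4 : O) ∣ z.2 - 1) ∨ (z.1 c = -c ∧ (4 : O) ∣ z.2 + 1)}
      one_mem' := Or.inl ⟨rfl, by simp⟩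
      mul_mem' := by
        rintro ⟨a, x⟩ ⟨b, y⟩ (⟨h1, r, h2⟩ | ⟨h1, r, h2⟩) (⟨h3, s, h4⟩ | ⟨h3, s, h4⟩) <;>
          simp only [Set.mem_ofPred_eq, Prod.mk_mul_mk, AlgEquiv.mul_apply, Units.val_mul]
            at h1 h2 h3 h4 ⊢
        · exact Or.inl ⟨by rw [h3, h1], x * s + r, by linear_combination x * h4 + h2⟩
        · exact Or.inr ⟨by rw [h3, map_neg, h1], x * s - r, by linear_combination x * h4 - h2⟩
        · exact Or.inr ⟨by rw [h3, h1], x * s + r, by linear_combination x * h4 + h2⟩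
        · exact Or.inl ⟨by rw [h3, map_neg, h1, neg_neg], x * s - r,
            by linear_combination x * h4 - h2⟩
      inv_mem' := by
        rintro ⟨a, x⟩ (⟨h1, r, h2⟩ | ⟨h1, r, h2⟩) <;>
          simp only [Set.mem_ofPred_eq, Prod.inv_mk, AlgEquiv.aut_inv, AlgEquiv.symm_apply_eq]
            at h1 h2 ⊢
        · exact Or.inl ⟨h1.symm, -(x⁻¹ : Oˣ) * r,
            by linear_combination -(x⁻¹ : Oˣ) * h2 + x.inv_mul⟩
        · exact Or.inr ⟨by rw [map_neg, h1, neg_neg], (x⁻¹ : Oˣ) * r,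
            by linear_combination (x⁻¹ : Oˣ) * h2 - x.inv_mul⟩ }
  exact S.zpow_mem (x := (φ, u)) h n

theorem EllFour_sl {Λ : Type} [Field Λ] [DecidableEq Λ] {C : Affine Λ} {e1 e2 e3 : Λ}
    (h : Rt C e1 e2 e3) (m n : ℕ) {P : C.Point} (hP : 2 • P = tp C e1) :
    sl e3 (P + (m • tp C e1 + n • tp C e2)) = (-1) ^ m * sl e3 P := by
  induction n generalizing P with
  | succ n ih =>
    rw [succ_nsmul', add_left_comm (m • tp C e1), ← add_assoc, ih, (h.half_sl hP).2.2]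
    rw [smul_add, hP, h.swap12.two_tp, add_zero]
  | zero =>
    rw [zero_smul, add_zero]
    induction m generalizing P with
    | zero => simp
    | succ m ih =>
      rw [succ_nsmul', ← add_assoc, ih, (h.half_sl hP).2.1, pow_succ]
      · ring
      · rw [smul_add, hP, h.two_tp, add_zero]

theorem EllFour_pt {G : Type} [AddCommGroup G] (T : TateB G) (a : V) (x y : O) :
    T.pt 2 (a + ![2 * x, 2 * y]) =
      T.pt 2 a + ((res x).val • T.pt 1 ![1, 0] + (res y).val • T.pt 1 ![0, 1]) := by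
  have e : (![2 * x, 2 * y] : V) = (2 : O) ^ 1 • ![x, y] := by
    funext i; fin_cases i <;> simp
  rw [map_add, e, T.pt_pow_smul 1 1, ← map_nsmul, ← map_nsmul, ← map_add]
  congr 1
  rw [T.pt_eq_iff]
  intro i
  fin_cases i
  · exact ⟨tl x, by simpa [lft, sub_eq_iff_eq_add'] using tl_spec x⟩
  · exact ⟨tl y, by simpa [lft, sub_eq_iff_eq_add'] using tl_spec y⟩

theorem EllFour_sign {K : Type} [Field K] (x y : O) :
    ((-1 : K) ^ (res x).val / (-1) ^ (res y).val = 1 ∧ (2 : O) ∣ x + y) ∨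
      ((-1 : K) ^ (res x).val / (-1) ^ (res y).val = -1 ∧ (2 : O) ∣ x + y + 1) := by
  simp only [← res_eq_zero_iff, map_add, map_one]
  rcases F2_cases (res x) with a | a <;> rcases F2_cases (res y) with b | b <;> rw [a, b] <;>
    simp [ZMod.val_one, F2_add_self]

theorem cq_four (h6 : (6 : k) ≠ 0) (ℓ : Locs k Ω) {i : Ω} (hi : i ^ 2 = -1) (g : WG k Ω) :
    (gal g i = i → (4 : O) ∣ (tame h6 ℓ).cq g - 1) ∧
      (gal g i = -i → (4 : O) ∣ (tame h6 ℓ).cq g + 1) := by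
  have hc : i ∈ algebraicClosure k Ω := mem_algebraicClosure_iff'.2
    ⟨Polynomial.X ^ 2 + 1, by monicity!, by simp [hi]⟩
  have h2 : (2 : Ω) ≠ 0 := two_ne_of_six (six_ne_map (algebraMap k Ω) h6)
  have hne : i ≠ -i := fun e => by
    have : i = 0 := (mul_eq_zero.1 (show 2 * i = 0 by linear_combination e)).resolve_left h2
    rw [this] at hi
    simp at hi
  have hi' : (⟨i, hc⟩ : Kb k Ω) ^ 2 = -1 := Subtype.ext hi
  have hq := card_mod h6
  have e := Nat.div_add_mod (Fintype.card k) 4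
  have h4 : (⟨i, hc⟩ : Kb k Ω) ^ 4 = 1 := by
    rw [show 4 = 2 * 2 from rfl, pow_mul, hi']; simp
  have key := EllFour_zpow (⟨i, hc⟩ : Kb k Ω) (frob k Ω) (tame h6 ℓ).isUnit_q.unit (by
    rw [frob_apply, IsUnit.unit_spec]
    change (_ ∧ (4 : O) ∣ (Fintype.card k : O) - 1) ∨ (_ ∧ (4 : O) ∣ (Fintype.card k : O) + 1)
    generalize Fintype.card k / 4 = r at e
    rcases (by omega : Fintype.card k % 4 = 1 ∨ Fintype.card k % 4 = 3) with h1 | h1 <;>
      rw [h1] at e <;> rw [← e, pow_add, pow_mul, h4, one_pow, one_mul]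
    · exact Or.inl ⟨pow_one _, r, by push_cast; ring⟩
    · exact Or.inr ⟨by rw [pow_succ, hi', neg_one_mul], r + 1, by push_cast; ring⟩) (wdeg g)
  have e2 : gal g i = ((frob k Ω ^ wdeg g) ⟨i, hc⟩ : Kb k Ω) := gal_const g ⟨i, hc⟩
  rcases key with ⟨a, b⟩ | ⟨a, b⟩ <;> rw [a] at e2
  · exact ⟨fun _ => b, fun h => absurd (e2.symm.trans h) hne⟩
  · exact ⟨fun h => absurd (h.symm.trans e2) hne, fun _ => b⟩

variable [DecidableEq Ω]

namespace EllD

variable (X : EllD A B Ω) (h : Hyp A B) (h6 : (6 : k) ≠ 0) (ℓ : Locs k Ω)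

theorem four_fix {g : WG k Ω} (hg : (X.lat h h6 ℓ).Fx g ![1, 1]) :
    (4 : O) ∣ ((X.lat h h6 ℓ).ρ g).det - (tame h6 ℓ).cq g := by
  have hP : 2 • X.TB.pt 2 ![1, 0] = tp (CO Ω A B) X.e1 := (X.TB.two 1 _).trans X.h1
  have hQ : 2 • X.TB.pt 2 ![0, 1] = tp (CO Ω A B) X.e2 := (X.TB.two 1 _).trans X.h2
  have h3 : gal g X.e3 = X.e3 := by
    have := X.gal_er (h := h) (h6 := h6) (ℓ := ℓ) g ![1, 1]
    rwa [hg, er11] at this
  have act : ∀ a : V, gal g (sl X.e3 (X.TB.pt 2 a : (CO Ω A B).Point)) =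
      sl X.e3 (X.TB.pt 2 (((X.lat h h6 ℓ).ρ g).mulVec a) : (CO Ω A B).Point) := fun a => by
    have := (compat_act (A := A) (B := B) (gal g)).sl_eq X.e3 (X.TB.pt 2 a)
    rw [X.act_pt, RingHom.coe_coe, h3] at this
    exact this.symm
  have sP : ∀ x y : O, sl X.e3 (X.TB.pt 2 ![1 + 2 * x, 2 * y] : (CO Ω A B).Point) =
      (-1) ^ (res x).val * sl X.e3 (X.TB.pt 2 ![1, 0] : (CO Ω A B).Point) := fun x y => by
    rw [← EllFour_sl X.rt _ (res y).val hP, ← X.h1, ← X.h2, ← EllFour_pt]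
    simp
  have sQ : ∀ x y : O, sl X.e3 (X.TB.pt 2 ![2 * x, 1 + 2 * y] : (CO Ω A B).Point) =
      (-1) ^ (res y).val * sl X.e3 (X.TB.pt 2 ![0, 1] : (CO Ω A B).Point) := fun x y => by
    rw [← EllFour_sl X.rt.swap12 _ (res x).val hQ, ← X.h1, ← X.h2, add_comm ((res y).val • _),
      ← EllFour_pt]
    simp
  have p2 := (X.rt.half_sl hP).1
  have q2 := (X.rt.swap12.half_sl hQ).1
  have a1 := act ![1, 0]
  have a2 := act ![0, 1]
  have hd := (X.lat h h6 ℓ).EllM_rb g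
  have f0 := congrFun hg 0
  have f1 := congrFun hg 1
  simp only [Lat.rb] at hd f0 f1
  generalize (X.lat h h6 ℓ).ρ g = M at a1 a2 hd f0 f1 ⊢
  generalize sl X.e3 (X.TB.pt 2 ![1, 0] : (CO Ω A B).Point) = p at a1 p2 sP
  generalize sl X.e3 (X.TB.pt 2 ![0, 1] : (CO Ω A B).Point) = q at a2 q2 sQ
  have hne := sub_ne_zero.2 X.rt.ne12
  have p0 : p ≠ 0 := fun e => hne (by rw [← p2, e]; simp)
  have q0 : q ≠ 0 := fun e => hne (by rw [e] at q2; linear_combination q2)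
  have hi : (p / q) ^ 2 = -1 := by
    rw [div_pow, div_eq_iff (pow_ne_zero 2 q0)]
    linear_combination p2 + q2
  have hi' : q / p = -(p / q) := by
    rw [← neg_div, div_eq_div_iff p0 q0]
    linear_combination p2 + q2
  obtain ⟨c1, c2⟩ := cq_four h6 ℓ hi g
  rw [map_div₀] at c1 c2
  have v1 : M.mulVec ![1, 0] = ![M 0 0, M 1 0] := by
    funext i; fin_cases i <;> simp [Matrix.mulVec, dotProduct]
  have v2 : M.mulVec ![0, 1] = ![M 0 1, M 1 1] := by
    funext i; fin_cases i <;> simp [Matrix.mulVec, dotProduct]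
  rw [v1] at a1
  rw [v2] at a2
  rw [Matrix.det_fin_two] at hd ⊢
  simp only [Matrix.mulVec, dotProduct, Fin.sum_univ_two, Matrix.map_apply, Matrix.cons_val_zero,
    Matrix.cons_val_one, mul_one] at hd f0 f1
  have t00 := tl_spec (M 0 0)
  have t01 := tl_spec (M 0 1)
  have t10 := tl_spec (M 1 0)
  have t11 := tl_spec (M 1 1)
  have cs : ∀ a b c d : F2, a * d - b * c = 1 → a + b = 1 → c + d = 1 →
      (a = 1 ∧ b = 0 ∧ c = 0 ∧ d = 1) ∨ (a = 0 ∧ b = 1 ∧ c = 1 ∧ d = 0) := by decide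
  generalize tl (M 0 0) = x at t00
  generalize tl (M 0 1) = z at t01
  generalize tl (M 1 0) = y at t10
  generalize tl (M 1 1) = w at t11
  rcases cs _ _ _ _ hd f0 f1 with ⟨b1, b2, b3, b4⟩ | ⟨b1, b2, b3, b4⟩ <;>
    simp only [b1, b2, b3, b4, lft_zero, lft_one, zero_add] at t00 t01 t10 t11 <;>
    rw [t00, t10] at a1 <;> rw [t01, t11] at a2 <;> rw [t00, t01, t10, t11]
  · rw [a1, a2, sP, sQ, mul_div_mul_comm] at c1 c2
    rcases EllFour_sign (K := Ω) x w with ⟨d1, r, d2⟩ | ⟨d1, r, d2⟩ <;> rw [d1] at c1 c2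
    · obtain ⟨s, hs⟩ := c1 (one_mul _)
      exact ⟨r + x * w - z * y - s, by linear_combination 2 * d2 - hs⟩
    · obtain ⟨s, hs⟩ := c2 (neg_one_mul _)
      exact ⟨r + x * w - z * y - s, by linear_combination 2 * d2 - hs⟩
  · rw [a1, a2, sP, sQ, mul_div_mul_comm, hi'] at c1 c2
    rcases EllFour_sign (K := Ω) y z with ⟨d1, r, d2⟩ | ⟨d1, r, d2⟩ <;> rw [d1] at c1 c2
    · obtain ⟨s, hs⟩ := c2 (one_mul _)
      exact ⟨-r + x * w - z * y - s, by linear_combination -2 * d2 - hs⟩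
    · obtain ⟨s, hs⟩ := c1 (by ring)
      exact ⟨-r + x * w - z * y - s, by linear_combination -2 * d2 - hs⟩

end EllD

end

end Pool.Agent.Quad
end

-- merged part: Pool.Agent.Work.MP_60d5ce_nt.Qt.EllDet
section
/-!
# The image modulo two and the determinant

Hints (compare `../Sm/EllRep.lean`).
* `tau_odd`: `δ = (e1 - e2) (e1 - e3) (e2 - e3)`, `δ ^ 2 = - bp dsc` (`Rt.disc_eq`, `CO_disc`), `Loc.w_base`,
  `Loc.kum_tau` give `τ δ ≠ δ` (`kum_eq_zero_iff`).  If `rb τ` is one of the three matrices then `τ` permutes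
  the roots cyclically (`gal_er`, `er10`, `er01`, `er11`), so fixes `δ`.
* `irr`: `er n` is fixed by all `gal g`; `fixed_all` with `(ℓ none).σ` (`deg_σ`), `er_root`, `Hyp.noroot`.
* `vec`: `SW.mult_point` with `w = l.w`; `s (α ^ 2) = α ^ 2` for all `s`, so `σ σ α = α`, and `τ α = α` because
  of `τ_res` and `w (2 α) = 1`; `σ σ a ≡ a ^ (Q ^ 2)` from `σ_res` twice (`EllC.pow_sub`).
-/

namespace Pool.Agent.Quad

open scoped Classical
open Polynomial WeierstrassCurve WeierstrassCurve.Affine Pool.Agent.ShaAsc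

noncomputable section

variable {k : Type} [Field k] [Fintype k] {A B : k[X]} {Ω : Type} [Field Ω]
  [Algebra (RatFunc k) Ω] [Algebra k Ω] [IsScalarTower k (RatFunc k) Ω]
  [IsSepClosure (RatFunc k) Ω] {v : Pl k}

theorem EllDet_rot :
    (!![0, 1; 1, 1] : Matrix (Fin 2) (Fin 2) F2).mulVec ![1, 0] = ![0, 1] ∧
    (!![0, 1; 1, 1] : Matrix (Fin 2) (Fin 2) F2).mulVec ![0, 1] = ![1, 1] ∧
    (!![0, 1; 1, 1] : Matrix (Fin 2) (Fin 2) F2).mulVec ![1, 1] = ![1, 0] := by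
  decide

theorem EllDet_rot' :
    (!![1, 1; 1, 0] : Matrix (Fin 2) (Fin 2) F2).mulVec ![1, 0] = ![1, 1] ∧
    (!![1, 1; 1, 0] : Matrix (Fin 2) (Fin 2) F2).mulVec ![0, 1] = ![1, 0] ∧
    (!![1, 1; 1, 0] : Matrix (Fin 2) (Fin 2) F2).mulVec ![1, 1] = ![0, 1] := by
  decide

variable [DecidableEq Ω]

namespace EllD

variable (X : EllD A B Ω) (h : Hyp A B) (h6 : (6 : k) ≠ 0) (ℓ : Locs k Ω)

theorem tau_odd (hv : v ≠ none) (ho : Odd (mult (dsc A B) v)) :
    (X.lat h h6 ℓ).rb (ℓ v).τ ≠ 1 ∧ (X.lat h h6 ℓ).rb (ℓ v).τ ≠ !![0, 1; 1, 1] ∧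
      (X.lat h h6 ℓ).rb (ℓ v).τ ≠ !![1, 1; 1, 0] := by
  have hd : ((X.e1 - X.e2) * (X.e1 - X.e3) * (X.e2 - X.e3)) ^ 2 = -bp Ω (dsc A B) := by
    rw [X.rt.disc_eq, CO_disc]
  have h0 : (X.e1 - X.e2) * (X.e1 - X.e3) * (X.e2 - X.e3) ≠ 0 :=
    mul_ne_zero (mul_ne_zero (sub_ne_zero.2 X.rt.ne12) (sub_ne_zero.2 X.rt.ne13))
      (sub_ne_zero.2 X.rt.ne23)
  have h1 := (ℓ v).kum_tau h6 h0 (by rw [hd, map_neg, fix_bp]) (n := mult (dsc A B) v)
    (by rw [hd, AbsoluteValue.map_neg, (ℓ v).w_base hv (h.D_ne h6)])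
  have h2 : gal (ℓ v).τ ((X.e1 - X.e2) * (X.e1 - X.e3) * (X.e2 - X.e3)) ≠
      (X.e1 - X.e2) * (X.e1 - X.e3) * (X.e2 - X.e3) := fun e => by
    rw [kum_eq_zero_iff.2 e, Int.cast_natCast, eq_comm, ZMod.natCast_eq_zero_iff_even] at h1
    exact Nat.not_even_iff_odd.2 ho h1
  have g1 := X.gal_er (h := h) (h6 := h6) (ℓ := ℓ) (ℓ v).τ ![1, 0]
  have g2 := X.gal_er (h := h) (h6 := h6) (ℓ := ℓ) (ℓ v).τ ![0, 1]
  have g3 := X.gal_er (h := h) (h6 := h6) (ℓ := ℓ) (ℓ v).τ ![1, 1]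
  rw [X.er10] at g1
  rw [X.er01] at g2
  rw [X.er11] at g3
  rw [map_mul, map_mul, map_sub, map_sub, map_sub, g1, g2, g3] at h2
  refine ⟨fun e => h2 ?_, fun e => h2 ?_, fun e => h2 ?_⟩
  · rw [e, Matrix.one_mulVec, Matrix.one_mulVec, Matrix.one_mulVec, X.er10, X.er01, X.er11]
  · rw [e, EllDet_rot.1, EllDet_rot.2.1, EllDet_rot.2.2, X.er10, X.er01, X.er11]
    ring
  · rw [e, EllDet_rot'.1, EllDet_rot'.2.1, EllDet_rot'.2.2, X.er10, X.er01, X.er11]
    ring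

theorem irr (n : Vb) (hn : ∀ g, (X.lat h h6 ℓ).Fx g n) : n = 0 := by
  by_contra h0
  obtain ⟨b, hb⟩ := fixed_all (ℓ none).σ (ℓ none).deg_σ (a := X.er n) fun g => by
    have e : ((X.lat h h6 ℓ).rb g).mulVec n = n := hn g
    rw [X.gal_er (h := h) (h6 := h6) (ℓ := ℓ), e]
  refine h.noroot b ((algebraMap (RatFunc k) Ω).injective ?_)
  rw [map_add, map_add, map_mul, map_pow, map_zero, hb]
  exact X.er_root h0

theorem surj (m : Matrix (Fin 2) (Fin 2) F2) (hm : m.det = 1) :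
    ∃ z, (tame h6 ℓ).deg z = 0 ∧ (X.lat h h6 ℓ).rb z = m := by
  obtain ⟨v, hv, -, ho⟩ := h.exists_pl
  obtain ⟨h1, h2, h3⟩ := X.tau_odd h h6 ℓ hv ho
  exact (X.lat h h6 ℓ).surj_of (ℓ v).deg_τ h1 h2 h3 (X.irr h h6 ℓ) m hm

include h h6 in
theorem vec (l : Loc Ω v) (hv : v ≠ none) (hA : ¬ pl v ∣ A) (hD : mult (dsc A B) v ≠ 0) (j : ℕ) :
    ∃ a : V, (∃ i, ¬ (2 : O) ∣ a i) ∧ VD j ((X.m (gal l.τ)).mulVec a - a) ∧
      VD j ((X.m (gal (l.σ * l.σ))).mulVec a -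
        (((Fintype.card k ^ pdg v) ^ 2 : ℕ) : O) • a) := by
  have := IsSepClosure.sep_closed (RatFunc k) (K := Ω)
  have hA0 : A ≠ 0 := fun e => hA (e ▸ dvd_zero _)
  have hm : mult A v = 0 := by
    by_contra hc
    exact hA ((StatA_ne_zero_iff _ _).1 hc).2
  have w4 : l.w (CO Ω A B).a₄ = 1 := by
    rw [CO_a4, l.w_base hv hA0, hm]
    simp
  have wD : l.w (4 * (CO Ω A B).a₄ ^ 3 + 27 * (CO Ω A B).a₆ ^ 2) < 1 := by
    rw [CO_disc, l.w_base hv (h.D_ne h6)]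
    exact zpow_lt_one_of_neg₀ (by norm_num) (by omega)
  obtain ⟨α, h1, h2, h3⟩ := (h.sw h6).mult_point (l.sz_one h6 hv) w4 wD
  rw [CO_a4, CO_a6] at h2
  have hs : ∀ s : Ω ≃ₐ[RatFunc k] Ω, s α = α ∨ s α = -α := by
    intro s
    have h4 := congrArg s h2
    rw [map_mul, map_mul, map_mul, map_neg, map_ofNat, map_ofNat, map_pow, fix_bp, fix_bp,
      ← h2] at h4
    exact sq_eq_sq_iff_eq_or_eq_neg.1
      (mul_left_cancel₀ (mul_ne_zero (h.sw (Ω := Ω) h6).two (bp_ne hA0)) h4)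
  have hτ : gal l.τ α = α := by
    refine (hs _).resolve_right fun e => ?_
    have h4 := l.τ_res h1.le
    rw [e, show -α - α = -(2 * α) by ring, AbsoluteValue.map_neg, map_mul, l.w_two h6, h1,
      one_mul] at h4
    exact lt_irrefl _ h4
  have hσ : gal (l.σ * l.σ) α = α := by
    rw [map_mul, AlgEquiv.mul_apply]
    rcases hs (gal l.σ) with e | e
    · rw [e, e]
    · rw [e, map_neg, e, neg_neg]
  obtain ⟨P, hP, hP', hf⟩ := h3 j
  obtain ⟨a, rfl⟩ := X.TB.surj _ P hP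
  have e1 := hf _ _ 1 (compat_act (gal l.τ)) l.w_τ (fun a ha => by
    rw [pow_one]
    exact l.τ_res ha) hτ
  have e2 := hf _ _ ((Fintype.card k ^ pdg v) ^ 2) (compat_act (gal (l.σ * l.σ)))
    (fun a => by
      change l.w (gal (l.σ * l.σ) a) = _
      rw [map_mul, AlgEquiv.mul_apply, l.w_σ, l.w_σ])
    (fun a ha => by
      change l.w (gal (l.σ * l.σ) a - _) < 1
      have ha' : l.w (gal l.σ a) ≤ 1 := by rwa [l.w_σ]
      rw [map_mul, AlgEquiv.mul_apply, pow_two, pow_mul]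
      refine EllC.trans l.w_na (l.σ_res ha') (EllC.pow_sub l.w_na ha' ?_ (l.σ_res ha) _)
      rw [map_pow]
      exact pow_le_one₀ (l.w.nonneg a) ha) hσ
  rw [one_smul, X.act_pt, X.TB.pt_eq_iff] at e1
  rw [← map_nsmul, X.act_pt, X.TB.pt_eq_iff] at e2
  refine ⟨a, ?_, fun i => (pow_dvd_pow _ j.le_succ).trans (e1 i), fun i => ?_⟩
  · rw [X.TB.pow_smul_add, Ne, X.TB.ker, pow_one] at hP'
    exact not_forall.1 hP'
  · rw [Nat.cast_smul_eq_nsmul]
    exact (pow_dvd_pow _ j.le_succ).trans (e2 i)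

theorem det_eq (g : WG k Ω) : ((X.lat h h6 ℓ).ρ g).det = (tame h6 ℓ).cq g := by
  obtain ⟨v, hv, hA, ho⟩ := h.exists_pl
  obtain ⟨z, -, hz⟩ := X.surj h h6 ℓ !![0, 1; 1, 1] (by decide)
  refine (X.lat h h6 ℓ).det_eq_cq ((X.lat h h6 ℓ).det_four hz fun g hg => X.four_fix h h6 ℓ hg)
    (v := v) (fun e => (X.tau_odd h h6 ℓ hv ho).1 ?_)
    (X.vec h h6 (ℓ v) hv hA fun e => by simp [e] at ho) g
  have e' : (X.lat h h6 ℓ).ρ (ℓ v).τ = 1 := e
  simp [Lat.rb, e']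

end EllD

end

end Pool.Agent.Quad
end

-- merged part: Pool.Agent.Work.MP_60d5ce_nt.Qt.EllFin
section
/-!
# Finiteness of the local torsion

Hints.
* `Loc.tb`: port `Loc.EllDef_res`, `Loc.EllDef_iter`, `Loc.tb_base` of `../Sm/EllDef.lean` with the set `l.Fixd` in
  place of the field `L`: it is closed under sums, differences, products and contains the base field
  (`Adm.inf`, `adm_WG0`); residues from `Loc.res_fin` (choose representatives in the set itself), sizes from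
  `Loc.disc`, uniformiser from `Loc.nontriv`.
* `tors_fin`: `exists_sz`, `SW.sep`, `SW.tors_le`; `xc P` lies in `l.Fixd` (`Compat.xc_eq`, `xc_neg`, `EllD.adm`).
  If `2 ^ N • P ≠ 0` for `N = Cs.card`, two of the points `2 ^ i • P`, `i ≤ N`, have close coordinates, so
  `2 ^ i • P = ± 2 ^ i' • P` with `i < i'`, and then `2 ^ i • P = 0` (iterate: `y = ± 2 ^ d • y`, `d > 0`, `y` torsion).
* `locfin`: `c` the maximum over the finite set; `P = pt m t`, `act_pt`, `pt_eq_iff`, `F2_cases`;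
  `2 ^ c • pt m t = pt m (2 ^ c • t)`, `TateB.ker`, `VD_pow_smul_iff`.
-/

namespace Pool.Agent.Quad

open scoped Classical
open Polynomial WeierstrassCurve WeierstrassCurve.Affine Pool.Agent.ShaAsc

noncomputable section

variable {k : Type} [Field k] [Fintype k] {A B : k[X]} {Ω : Type} [Field Ω]
  [Algebra (RatFunc k) Ω] [Algebra k Ω] [IsScalarTower k (RatFunc k) Ω]
  [IsSepClosure (RatFunc k) Ω] {v : Pl k}

/-- elements of the tame local field -/
def Loc.Fixd (l : Loc Ω v) (a : Ω) : Prop :=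
  (∃ U : Subgroup (WG k Ω), Adm U ∧ ∀ u ∈ U, gal u a = a) ∧ gal l.σ a = a ∧ gal l.τ a = a

omit [IsSepClosure (RatFunc k) Ω] in
theorem Loc.EllFin_sub {l : Loc Ω v} {a b : Ω} (ha : l.Fixd a) (hb : l.Fixd b) :
    l.Fixd (a - b) := by
  obtain ⟨⟨U, h1, h2⟩, h3, h4⟩ := ha
  obtain ⟨⟨U', k1, k2⟩, k3, k4⟩ := hb
  exact ⟨⟨U ⊓ U', h1.inf k1, fun u hu => by rw [map_sub, h2 u hu.1, k2 u hu.2]⟩,
    by rw [map_sub, h3, k3], by rw [map_sub, h4, k4]⟩

omit [IsSepClosure (RatFunc k) Ω] in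
theorem Loc.EllFin_mul {l : Loc Ω v} {a : Ω} (ha : l.Fixd a) (r : RatFunc k) :
    l.Fixd (a * algebraMap (RatFunc k) Ω r) := by
  obtain ⟨⟨U, h1, h2⟩, h3, h4⟩ := ha
  exact ⟨⟨U, h1, fun u hu => by rw [map_mul, h2 u hu, AlgEquiv.commutes]⟩,
    by rw [map_mul, h3, AlgEquiv.commutes], by rw [map_mul, h4, AlgEquiv.commutes]⟩

omit [IsSepClosure (RatFunc k) Ω] in
theorem Loc.EllFin_res (l : Loc Ω v) :
    ∃ Cs : Finset Ω, ∀ a, l.Fixd a → l.w a ≤ 1 → ∃ c ∈ Cs, l.Fixd c ∧ l.w (a - c) ≤ 2⁻¹ := by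
  obtain ⟨R, -, hR⟩ := l.res_fin
  have hrep : ∀ c : Kb k Ω, ∃ r : Ω, (∃ a, l.Fixd a ∧ l.w (a - c) < 1) →
      l.Fixd r ∧ l.w (r - c) < 1 := fun c => by
    by_cases h : ∃ a, l.Fixd a ∧ l.w (a - c) < 1
    · obtain ⟨a, ha⟩ := h
      exact ⟨a, fun _ => ha⟩
    · exact ⟨0, fun h' => absurd h' h⟩
  choose r hr using hrep
  refine ⟨R.image r, fun a ha h1 => ?_⟩
  obtain ⟨c, hc, hc'⟩ := hR a h1 ha.2.1
  obtain ⟨h2, h3⟩ := hr c ⟨a, ha, hc'⟩
  refine ⟨r c, Finset.mem_image_of_mem r hc, h2, ?_⟩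
  have h5 := EllC.trans l.w_na hc' (EllC.symm h3)
  by_cases h0 : a - r c = 0
  · rw [h0, l.w.map_zero]
    positivity
  · obtain ⟨⟨U, k1, k2⟩, -, k4⟩ := Loc.EllFin_sub ha h2
    obtain ⟨n, hn⟩ := l.disc U k1 _ h0 k2 k4
    rw [l.w_apply, hn] at h5 ⊢
    have : n < 0 := (zpow_lt_one_iff_right₀ (by norm_num : (1 : ℝ) < 2)).1 h5
    rw [← zpow_neg_one]
    exact zpow_le_zpow_right₀ (by norm_num) (by omega)

theorem Loc.EllFin_iter (l : Loc Ω v) (n : ℕ) :
    ∃ Cs : Finset Ω, ∀ a, l.Fixd a → l.w a ≤ 1 → ∃ c ∈ Cs, l.w (a - c) ≤ 2⁻¹ ^ n := by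
  obtain ⟨u, hu⟩ := l.nontriv
  have hπ : algebraMap (RatFunc k) Ω u ≠ 0 := fun h0 => by simp [h0] at hu
  obtain ⟨C1, h1⟩ := l.EllFin_res
  induction n with
  | zero => exact ⟨{0}, fun a _ ha => ⟨0, by simp, by simpa using ha⟩⟩
  | succ n ih =>
    obtain ⟨Cn, hn⟩ := ih
    refine ⟨(C1 ×ˢ Cn).image fun z => z.1 + algebraMap (RatFunc k) Ω u * z.2, fun a ha h2 => ?_⟩
    obtain ⟨c, hc, hf, hc'⟩ := h1 a ha h2
    have hf' := Loc.EllFin_mul (Loc.EllFin_sub ha hf) u⁻¹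
    rw [map_inv₀, ← div_eq_mul_inv] at hf'
    generalize algebraMap (RatFunc k) Ω u = π at hu hπ hf' ⊢
    obtain ⟨d, hd, hd'⟩ := hn ((a - c) / π) hf' (by
      rw [map_div₀, hu, div_le_one (by norm_num)]
      exact hc')
    refine ⟨c + π * d, Finset.mem_image.2 ⟨(c, d), Finset.mem_product.2 ⟨hc, hd⟩, rfl⟩, ?_⟩
    have e : a - (c + π * d) = π * ((a - c) / π - d) := by
      field_simp
      ring
    rw [e, map_mul, hu, pow_succ']
    exact mul_le_mul_of_nonneg_left hd' (by norm_num)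

theorem Loc.tb (l : Loc Ω v) (R ε : ℝ) (hε : 0 < ε) :
    ∃ Cs : Finset Ω, ∀ a, l.Fixd a → l.w a ≤ R → ∃ c ∈ Cs, l.w (a - c) < ε := by
  obtain ⟨u, hu⟩ := l.nontriv
  have hπ : algebraMap (RatFunc k) Ω u ≠ 0 := fun h0 => by simp [h0] at hu
  obtain ⟨N, hN⟩ := pow_unbounded_of_one_lt R (by norm_num : (1 : ℝ) < 2)
  obtain ⟨n, hn⟩ := exists_pow_lt_of_lt_one (show 0 < ε / 2 ^ N by positivity)
    (by norm_num : (2⁻¹ : ℝ) < 1)
  obtain ⟨Cs, h⟩ := l.EllFin_iter n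
  refine ⟨Cs.image fun c => c / algebraMap (RatFunc k) Ω u ^ N, fun a hf ha => ?_⟩
  have hf' := Loc.EllFin_mul hf (u ^ N)
  rw [map_pow] at hf'
  generalize algebraMap (RatFunc k) Ω u = π at hu hπ hf' ⊢
  have h2 : (0 : ℝ) < 2 ^ N := by positivity
  obtain ⟨c, hc, hc'⟩ := h (a * π ^ N) hf' (by
    rw [map_mul, map_pow, hu, inv_pow, ← div_eq_mul_inv, div_le_one h2]
    exact ha.trans hN.le)
  refine ⟨_, Finset.mem_image_of_mem _ hc, ?_⟩
  have e : a - c / π ^ N = (a * π ^ N - c) / π ^ N := by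
    field_simp
  rw [e, map_div₀, map_pow, hu, inv_pow, div_inv_eq_mul]
  rw [lt_div_iff₀ h2] at hn
  exact (mul_le_mul_of_nonneg_right hc' h2.le).trans_lt hn

theorem EllFin_zero {G : Type} [AddCommGroup G] {y : G} {j d : ℕ} (hj : 2 ^ j • y = 0)
    (h : y = 2 ^ (d + 1) • y ∨ y = -(2 ^ (d + 1) • y)) : y = 0 := by
  obtain ⟨f, hf⟩ : ∃ f : G →+ G, (∀ z, f (2 • z) = 2 • f z) ∧ y = 2 • f y := by
    rcases h with h | h
    · exact ⟨2 ^ d • AddMonoidHom.id G, fun z => map_nsmul _ _ _, by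
        rw [AddMonoidHom.smul_apply, AddMonoidHom.id_apply, ← mul_smul, ← pow_succ']
        exact h⟩
    · exact ⟨-(2 ^ d • AddMonoidHom.id G), fun z => map_nsmul _ _ _, by
        rw [AddMonoidHom.neg_apply, AddMonoidHom.smul_apply, AddMonoidHom.id_apply, smul_neg,
          ← mul_smul, ← pow_succ']
        exact h⟩
  induction j with
  | zero => simpa using hj
  | succ j ih =>
    refine ih ?_
    rw [hf.2, ← mul_smul, ← pow_succ, ← map_nsmul, hj, map_zero]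

variable [DecidableEq Ω]

namespace EllD

variable (X : EllD A B Ω)

include X in
theorem tors_fin (h6 : (6 : k) ≠ 0) (l : Loc Ω v) : ∃ c : ℕ, ∀ (P : Pts (EC A B) Ω) (j : ℕ),
    2 ^ j • P = 0 → (act (EC A B) (gal l.σ) P = P ∨ act (EC A B) (gal l.σ) P = -P) →
      (act (EC A B) (gal l.τ) P = P ∨ act (EC A B) (gal l.τ) P = -P) → 2 ^ c • P = 0 := by
  have hs : SW (CO Ω A B) := X.rt.sw
  obtain ⟨ρ, hρ⟩ := l.exists_sz (A := A) (B := B) h6
  obtain ⟨ε, hε, hsep⟩ := hs.sep hρ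
  obtain ⟨Cs, hC⟩ := l.tb (ρ ^ 2) ε hε
  refine ⟨Cs.card, fun P j hj h1 h2 => ?_⟩
  by_contra hne
  have tor : ∀ i : ℕ, 2 ^ j • 2 ^ i • P = 0 := fun i => by rw [smul_comm, hj, smul_zero]
  have nz : ∀ i ≤ Cs.card, 2 ^ i • P ≠ 0 := fun i hi h0 => hne (by
    obtain ⟨d, hd⟩ := Nat.exists_eq_add_of_le' hi
    rw [hd, pow_add, mul_smul, h0, smul_zero])
  have fx : ∀ (s : Ω ≃ₐ[RatFunc k] Ω) (i : ℕ), (act (EC A B) s P = P ∨ act (EC A B) s P = -P) →
      s (xc (C := CO Ω A B) (2 ^ i • P)) = xc (C := CO Ω A B) (2 ^ i • P) := fun s i h => by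
    refine ((compat_act s).xc_eq (2 ^ i • P)).symm.trans ?_
    rw [map_nsmul]
    rcases h with h | h
    · rw [h]
    · rw [h, smul_neg, xc_neg]
  obtain ⟨U, hU, hU'⟩ := X.adm j
  have hex : ∀ i : ℕ, ∃ c ∈ Cs, l.w (xc (C := CO Ω A B) (2 ^ i • P) - c) < ε := fun i =>
    hC _ ⟨⟨U, hU, fun u hu => fx _ i (Or.inl (hU' u hu P hj))⟩, fx _ i h1, fx _ i h2⟩
      (hs.tors_le hρ (tor i))
  choose c hc hc' using hex
  obtain ⟨i, hi, i', hi', hlt, e⟩ : ∃ i ≤ Cs.card, ∃ i' ≤ Cs.card, i < i' ∧ c i = c i' := by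
    obtain ⟨i, hi, i', hi', h3, e⟩ := Finset.exists_ne_map_eq_of_card_lt_of_maps_to
      (s := Finset.range (Cs.card + 1)) (t := Cs) (by simp) (f := c) fun i _ => hc i
    rw [Finset.mem_range] at hi hi'
    rcases lt_or_gt_of_ne h3 with h | h
    · exact ⟨i, by omega, i', by omega, h, e⟩
    · exact ⟨i', by omega, i, by omega, h, e.symm⟩
  have h3 := EllC.sub_lt l.w_na (hc' i) (hc' i')
  rw [e, sub_sub_sub_cancel_right] at h3
  have h4 := hsep _ _ j (nz i hi) (nz i' hi') (tor i) (tor i') h3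
  obtain ⟨d, rfl⟩ := Nat.exists_eq_add_of_lt hlt
  rw [add_assoc, add_comm i, pow_add, mul_smul] at h4
  exact nz i hi (EllFin_zero (tor i) h4)

theorem locfin (h6 : (6 : k) ≠ 0) (ℓ : Locs k Ω) (S : Finset (Pl k)) :
    ∃ c : ℕ, ∀ v ∈ S, ∀ (a b : F2) (m : ℕ) (t : V),
      VD m (sg a • (X.m (gal (ℓ v).σ)).mulVec t - t) →
        VD m (sg b • (X.m (gal (ℓ v).τ)).mulVec t - t) → VD (m - c) t := by
  choose c hc using fun v => X.tors_fin h6 (ℓ v)
  refine ⟨S.sup c, fun v hv a b m t h1 h2 => ?_⟩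
  have key : ∀ (s : Ω ≃ₐ[RatFunc k] Ω) (a : F2), VD m (sg a • (X.m s).mulVec t - t) →
      act (EC A B) s (X.TB.pt m t) = X.TB.pt m t ∨
        act (EC A B) s (X.TB.pt m t) = -X.TB.pt m t := fun s a h => by
    have e := (X.TB.pt_eq_iff m _ _).2 h
    rw [X.act_pt]
    rcases F2_cases a with rfl | rfl
    · rw [sg_zero, one_smul] at e
      exact Or.inl e
    · rw [sg_one, neg_one_smul, map_neg] at e
      exact Or.inr (neg_eq_iff_eq_neg.1 e)
  have h3 := hc v _ m (X.TB.pow_smul_pt m t) (key _ a h1) (key _ b h2)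
  have h4 : c v ≤ S.sup c := Finset.le_sup hv
  rcases le_or_gt m (c v) with h | h
  · rw [Nat.sub_eq_zero_of_le (h.trans h4)]
    exact fun i => by simp
  · obtain ⟨d, rfl⟩ := Nat.exists_eq_add_of_le h.le
    rw [X.TB.pow_smul_add, X.TB.ker] at h3
    exact fun i => (pow_dvd_pow _ (by omega)).trans (h3 i)

end EllD

end

end Pool.Agent.Quad
end
end
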