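import Mathlib

/-!
# Nonarchimedean absolute values; roots over separably closed fields
-/

namespace Pool.Agent.Quad

open Polynomial

variable {Λ : Type} [Field Λ]

theorem exists_root_of_derivative [IsSepClosed Λ] {f : Λ[X]} (hf : derivative f ≠ 0) :
    ∃ x, f.IsRoot x := by
  induction f using WfDvdMonoid.induction_on_irreducible with
  | zero => exact absurd derivative_zero hf
  | unit u hu =>
    obtain ⟨c, -, rfl⟩ := Polynomial.isUnit_iff.1 hu
    exact absurd derivative_C hf
  | mul a i _ hi ih =>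
    by_cases hd : derivative i = 0
    · obtain ⟨x, hx⟩ := ih fun h0 => hf (by rw [derivative_mul, hd, h0]; simp)
      exact ⟨x, root_mul_left_of_isRoot i hx⟩
    · obtain ⟨x, hx⟩ := IsSepClosed.exists_root i (degree_pos_of_irreducible hi).ne'
        ((separable_iff_derivative_ne_zero hi).2 hd)
      exact ⟨x, root_mul_right_of_isRoot a hx⟩

variable {w : AbsoluteValue Λ ℝ} {ρ : ℝ}

theorem EllB_add (na : IsNonarchimedean w) {a b : Λ} {r : ℝ} (ha : w a ≤ r) (hb : w b ≤ r) :
    w (a + b) ≤ r :=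
  (na a b).trans (max_le ha hb)

theorem EllB_sub (na : IsNonarchimedean w) {a b : Λ} {r : ℝ} (ha : w a ≤ r) (hb : w b ≤ r) :
    w (a - b) ≤ r := by
  rw [sub_eq_add_neg]
  exact EllB_add na ha (by rwa [w.map_neg])

theorem EllB_addl (na : IsNonarchimedean w) {a b : Λ} {r : ℝ} (ha : w a < r) (hb : w b < r) :
    w (a + b) < r :=
  (na a b).trans_lt (max_lt ha hb)

theorem EllB_subl (na : IsNonarchimedean w) {a b : Λ} {r : ℝ} (ha : w a < r) (hb : w b < r) :
    w (a - b) < r := by
  rw [sub_eq_add_neg]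
  exact EllB_addl na ha (by rwa [w.map_neg])

theorem EllB_eq (na : IsNonarchimedean w) {a b : Λ} (h : w b < w a) : w (a + b) = w a := by
  refine le_antisymm (EllB_add na le_rfl h.le) (not_lt.1 fun h' => ?_)
  have := EllB_subl na h' h
  rw [add_sub_cancel_right] at this
  exact lt_irrefl _ this

theorem EllB_eq_sub (na : IsNonarchimedean w) {a b : Λ} (h : w a < w b) : w (a - b) = w b := by
  rw [w.map_sub, sub_eq_add_neg]
  exact EllB_eq na (by rwa [w.map_neg])

theorem EllB_mul {a b : Λ} {r s : ℝ} (ha : w a ≤ r) (hb : w b ≤ s) : w (a * b) ≤ r * s := by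
  rw [w.map_mul]
  exact mul_le_mul ha hb (w.nonneg _) ((w.nonneg _).trans ha)

theorem EllB_mulk {a b : Λ} {k l : ℕ} (ha : w a ≤ ρ ^ k) (hb : w b ≤ ρ ^ l) :
    w (a * b) ≤ ρ ^ (k + l) :=
  (EllB_mul ha hb).trans (pow_add ρ k l).ge

theorem EllB_int (na : IsNonarchimedean w) (c : ℤ) : w (c : Λ) ≤ 1 :=
  IsNonarchimedean.apply_intCast_le_one na

theorem EllB_num (na : IsNonarchimedean w) (n : ℕ) [n.AtLeastTwo] {a : Λ} {r : ℝ} (ha : w a ≤ r) :
    w (OfNat.ofNat n * a) ≤ r := by
  have h : w (OfNat.ofNat n : Λ) ≤ 1 := by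
    have := EllB_int (Λ := Λ) na n
    rwa [Int.cast_natCast] at this
  simpa using EllB_mul h ha

theorem EllC.add_lt (na : IsNonarchimedean w) {a b : Λ} {M : ℝ} (ha : w a < M) (hb : w b < M) :
    w (a + b) < M :=
  (na a b).trans_lt (max_lt ha hb)

theorem EllC.add_le (na : IsNonarchimedean w) {a b : Λ} {M : ℝ} (ha : w a ≤ M) (hb : w b ≤ M) :
    w (a + b) ≤ M :=
  (na a b).trans (max_le ha hb)

theorem EllC.sub_lt (na : IsNonarchimedean w) {a b : Λ} {M : ℝ} (ha : w a < M) (hb : w b < M) :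
    w (a - b) < M := by
  rw [sub_eq_add_neg]
  exact EllC.add_lt na ha (by rwa [w.map_neg])

theorem EllC.sub_le (na : IsNonarchimedean w) {a b : Λ} {M : ℝ} (ha : w a ≤ M) (hb : w b ≤ M) :
    w (a - b) ≤ M := by
  rw [sub_eq_add_neg]
  exact EllC.add_le na ha (by rwa [w.map_neg])

theorem EllC.add_eq (na : IsNonarchimedean w) {a b : Λ} (h : w b < w a) : w (a + b) = w a := by
  refine le_antisymm (EllC.add_le na le_rfl h.le) (not_lt.1 fun h' => ?_)
  have := EllC.sub_lt na h' h
  rw [add_sub_cancel_right] at this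
  exact lt_irrefl _ this

theorem EllC.sub_eq (na : IsNonarchimedean w) {a b : Λ} (h : w b < w a) : w (a - b) = w a := by
  rw [sub_eq_add_neg]
  exact EllC.add_eq na (by rwa [w.map_neg])

theorem EllC.trans (na : IsNonarchimedean w) {a b c : Λ} (h : w (a - b) < 1) (h' : w (b - c) < 1) :
    w (a - c) < 1 := by
  have := EllC.add_lt na h h'
  rwa [sub_add_sub_cancel] at this

theorem EllC.symm {a b : Λ} (h : w (a - b) < 1) : w (b - a) < 1 := by
  rwa [w.map_sub]

theorem EllC.mul_lt {a b : Λ} (h : w a < 1) (h' : w b ≤ 1) : w (a * b) < 1 := by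
  rw [map_mul]
  exact mul_lt_one_of_nonneg_of_lt_one_left (w.nonneg a) h h'

theorem EllC.pow_sub (na : IsNonarchimedean w) {a b : Λ} (ha : w a ≤ 1) (hb : w b ≤ 1)
    (h : w (a - b) < 1) (n : ℕ) : w (a ^ n - b ^ n) < 1 := by
  induction n with
  | zero => simp
  | succ n ih =>
    have e : a ^ (n + 1) - b ^ (n + 1) = (a ^ n - b ^ n) * a + (a - b) * b ^ n := by ring
    rw [e]
    refine EllC.add_lt na (EllC.mul_lt ih ha) (EllC.mul_lt h ?_)
    rw [map_pow]
    exact pow_le_one₀ (w.nonneg b) hb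

theorem EllC.w_root {z : Λ} {n : ℕ} (hn : n ≠ 0) (h : z ^ n = 1) : w z = 1 := by
  have : w z ^ n = 1 := by rw [← map_pow, h, map_one]
  exact (pow_eq_one_iff_of_nonneg (w.nonneg z) hn).1 this

theorem EllC.root_eq_one (na : IsNonarchimedean w) (h2 : w 2 = 1) (k : ℕ) :
    ∀ z : Λ, z ^ 2 ^ k = 1 → w (z - 1) < 1 → z = 1 := by
  induction k with
  | zero => intro z hz _; simpa using hz
  | succ k ih =>
    intro z hz h1
    have hw : w z = 1 := EllC.w_root (by positivity) hz
    have h : z ^ 2 = 1 := by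
      refine ih _ (by rw [← pow_mul, ← pow_succ', hz]) ?_
      have := EllC.pow_sub na hw.le (map_one w).le h1 2
      rwa [one_pow] at this
    by_contra hne
    have e : z + 1 = 0 := by
      refine mul_left_cancel₀ (sub_ne_zero.2 hne) ?_
      linear_combination h
    have e3 : (2 : Λ) = -(z - 1) := by linear_combination e
    have : w 2 < 1 := by
      rw [e3, w.map_neg]
      exact h1
    exact absurd h2 this.ne

/-- square roots in a separably closed field of characteristic not two -/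
theorem exists_sqrt [IsSepClosed Λ] (h2 : (2 : Λ) ≠ 0) (a : Λ) : ∃ r : Λ, r ^ 2 = a := by
  have : NeZero ((2 : ℕ) : Λ) := ⟨by exact_mod_cast h2⟩
  exact IsSepClosed.exists_pow_nat_eq a 2

end Pool.Agent.Quad
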