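import Pool.Agent.Work.MP_60d5ce_nt.Qt.Cube
import Pool.Agent.Work.MP_60d5ce_nt.Qt.Pair

/-!
# Level one: types of Frobenius elements, values of cocycles, finiteness  (task QT ZoneA)

Hints.
* Facts about `GL2(F2)` are finite checks (`decide` on `Matrix (Fin 2) (Fin 2) F2`, or on four
  elements of `F2`); `det_rb`.
* `exists_conj`: every matrix over `F2` is a sum of four matrices `m1, ..., m4` of determinant one;
  take `h i` with `rb (h i) = m i` (`surj`) and the product of the conjugates `h i * z0 * (h i)⁻¹`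
  (`Z1.conj`, `db_of_rb`).  `exists_zm`: induction on the set, `z0 = τ u`.
* `exists_ne`: suppose `w` vanishes on `K = {deg = 0, rb = 1}`.  Let `c` of degree zero have
  `rb c = !![0, 1; 1, 1]` (free), `t` with `w c = db t c`, `w' = w + db t`; `w'` kills `c`, `c ^ 2`, `K`.
  For any `g`, `g c g⁻¹` has degree zero and `rb` equal to `rb c` or `rb (c ^ 2)`, so `w'` kills it,
  and `Z1.conj` gives `db (w' g) (g c g⁻¹) = 0`, hence `w' g = 0`.  `spread` follows with `exists_conj`.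
* `cob_of_loc`: otherwise `exists_prime` for `φ g = (rb g = 1 ∧ w g ≠ 0)` (`cl_z1`, `surj`, `spread`) gives
  `v ∉ A`; take `n` with `ee (w (σ v)) n ≠ 0`; `br_recip` for `w` and `ch v n` over `insert v A`,
  `br_zero_left` on `A` (`eq_zero_on_D`), `br_unr_left` at `v`.
* `z1U_card`: `fam_diff` with the values at `σ v`, `τ v`, `v ∈ A`; there are at most four coboundaries.
* `recip`: `br_recip` for `ch v n'`, `ch b m` over `S ∪ {v, b}`, `br_good` at `v`, `br_unr_left` at `b`.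
-/

namespace Pool.Agent.Quad

open scoped Classical

noncomputable section

/-- counting through fibres whose differences lie in a finite set -/
theorem fam_diff {α β γ : Type*} [AddCommGroup γ] (S : Set α) (φ : α → β) (Im : Set β)
    (hIm : Im.Finite) (hφ : ∀ a ∈ S, φ a ∈ Im) (ψ : α → γ) (G : Set γ) (hG : G.Finite)
    (hinj : ∀ a ∈ S, ∀ a' ∈ S, φ a = φ a' → ψ a = ψ a' → a = a')
    (hd : ∀ a ∈ S, ∀ a' ∈ S, φ a = φ a' → ψ a - ψ a' ∈ G) :
    S.Finite ∧ S.ncard ≤ G.ncard * Im.ncard := by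
  have hfib : ∀ a0 ∈ S, (S ∩ φ ⁻¹' {φ a0}).Finite ∧ (S ∩ φ ⁻¹' {φ a0}).ncard ≤ G.ncard := by
    intro a0 ha0
    have hm : ∀ a ∈ S ∩ φ ⁻¹' {φ a0}, ψ a - ψ a0 ∈ G := fun a ha => hd a ha.1 a0 ha0 ha.2
    have hi : Set.InjOn (fun a => ψ a - ψ a0) (S ∩ φ ⁻¹' {φ a0}) := by
      intro a ha a' ha' h
      have h1 : φ a = φ a0 := ha.2
      have h2 : φ a' = φ a0 := ha'.2
      exact hinj a ha.1 a' ha'.1 (h1.trans h2.symm) (sub_left_injective h)
    exact ⟨Set.Finite.of_injOn hm hi hG, Set.ncard_le_ncard_of_injOn _ hm hi hG⟩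
  have himg : φ '' S ⊆ Im := by
    rintro _ ⟨a, ha, rfl⟩
    exact hφ a ha
  have hS : S.Finite := by
    refine Set.Finite.of_finite_fibers φ (hIm.subset himg) ?_
    rintro _ ⟨a, ha, rfl⟩
    exact (hfib a ha).1
  refine ⟨hS, ?_⟩
  have h1 := Finset.card_le_mul_card_image (f := φ) hS.toFinset G.ncard (by
    intro y hy
    obtain ⟨a, ha, rfl⟩ := Finset.mem_image.1 hy
    have ha' : a ∈ S := hS.mem_toFinset.1 ha
    refine le_trans (le_of_eq ?_) (hfib a ha').2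
    rw [← Set.ncard_coe_finset]
    congr 1
    ext x
    simp)
  rw [Set.ncard_eq_toFinset_card S hS]
  refine h1.trans (Nat.mul_le_mul_left _ ?_)
  rw [← Set.ncard_coe_finset]
  refine Set.ncard_le_ncard ?_ hIm
  intro y hy
  obtain ⟨a, ha, rfl⟩ := Finset.mem_image.1 (Finset.mem_coe.1 hy)
  exact hφ a (hS.mem_toFinset.1 ha)

variable {W P : Type} [Group W] {T : Tame W P}

namespace Rep

variable (R : Rep T)

/-- the number of fixed vectors -/
def nf (g : W) : ℕ := {n | R.Fx g n}.ncard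

/-- two marks in the same orbit -/
def Orb (n n' : H → F2) : Prop :=
  ∃ m : Matrix (Fin 2) (Fin 2) F2, m.det = 1 ∧ p0 n' = m.mulVec (p0 n) ∧ p1 n' = m.mulVec (p1 n)

variable {R}

theorem ZoneA_fix : ∀ m : Matrix (Fin 2) (Fin 2) F2, m.det = 1 →
    ((Finset.univ.filter fun n : Vb => m.mulVec n = n).card = 1 ∨
      (Finset.univ.filter fun n : Vb => m.mulVec n = n).card = 2 ∨
      (Finset.univ.filter fun n : Vb => m.mulVec n = n).card = 4) ∧
    ((Finset.univ.filter fun n : Vb => m.mulVec n = n).card = 1 ↔ ∀ n, m.mulVec n = n → n = 0) ∧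
    ((Finset.univ.filter fun n : Vb => m.mulVec n = n).card = 4 ↔ m = 1) ∧
    ((∀ n, m.mulVec n = n → n = 0) →
      m = !![0, 1; 1, 1] ∨ m = !![0, 1; 1, 1] * !![0, 1; 1, 1]) := by
  decide +kernel

theorem ZoneA_nf (g : W) :
    R.nf g = (Finset.univ.filter fun n : Vb => (R.rb g).mulVec n = n).card := by
  rw [nf, ← Set.ncard_coe_finset]
  exact congrArg Set.ncard (Set.ext fun n => by simp [Lat.Fx])

theorem nf_cases (g : W) : R.nf g = 1 ∨ R.nf g = 2 ∨ R.nf g = 4 := by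
  rw [ZoneA_nf]
  exact (ZoneA_fix _ (det_rb g)).1

theorem nf_eq_one {g : W} : R.nf g = 1 ↔ R.Free g := by
  rw [ZoneA_nf]
  exact (ZoneA_fix _ (det_rb g)).2.1

theorem nf_eq_four {g : W} : R.nf g = 4 ↔ R.rb g = 1 := by
  rw [ZoneA_nf]
  exact (ZoneA_fix _ (det_rb g)).2.2.1

theorem nf_congr {g h : W} (e : R.rb g = R.rb h) : R.nf g = R.nf h := by
  rw [ZoneA_nf, ZoneA_nf, e]

theorem fx_conj {g : W} {n : Vb} (hn : R.Fx g n) (h : W) :
    R.Fx (h * g * h⁻¹) ((R.rb h).mulVec n) := by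
  rw [Lat.Fx, Lat.rb_mul, Lat.rb_mul, ← Matrix.mulVec_mulVec, ← Matrix.mulVec_mulVec,
    Lat.rb_inv_mulVec, hn]

theorem nf_conj (g h : W) : R.nf (h * g * h⁻¹) = R.nf g := by
  have key : ∀ g h : W, R.nf g ≤ R.nf (h * g * h⁻¹) := fun g h =>
    Set.ncard_le_ncard_of_injOn (R.rb h).mulVec (fun n hn => fx_conj hn h) (fun a _ b _ e => by
      rw [← Lat.rb_inv_mulVec (R := R.toLat) h a, e, Lat.rb_inv_mulVec]) (Set.toFinite _)
  refine le_antisymm ((key _ h⁻¹).trans_eq (congrArg _ (by group))) (key g h)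

theorem cl_rb' {A : Finset P} (hA : R.S ⊆ A) : T.Cl A 16 R.rb :=
  (Lat.cl_rb hA).mono subset_rfl (by simp)

theorem cl_z1' {A : Finset P} (hA : R.S ⊆ A) {w : W → Vb} (hw : w ∈ R.Z1U A) :
    T.Cl A 64 fun g => (R.rb g, w g) :=
  (Lat.cl_z1 hA hw).mono subset_rfl (by simp)

theorem cl_nf {A : Finset P} (hA : R.S ⊆ A) : T.Cl A 16 R.nf :=
  (cl_rb' hA).comp fun m => {n | m.mulVec n = n}.ncard

theorem exists_rb (e : ℤ) {m : Matrix (Fin 2) (Fin 2) F2} (hm : m.det = 1) :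
    ∃ g, T.deg g = e ∧ R.rb g = m := by
  obtain ⟨g, hg⟩ := T.exists_deg e
  obtain ⟨z, h0, h1⟩ := R.surj (R.rb g⁻¹ * m) (by rw [Matrix.det_mul, det_rb, hm, one_mul])
  exact ⟨g * z, by rw [T.deg_mul, hg, h0, add_zero], by
    rw [Lat.rb_mul, h1, ← mul_assoc, ← Lat.rb_mul, mul_inv_cancel, Lat.rb_one, one_mul]⟩

theorem dens_nf {t : ℕ} (ht : t = 1 ∨ t = 4) (e : ℕ) :
    1 / 16 ≤ T.dens (fun g => R.nf g = t) e := by
  obtain ⟨g, h0, h1⟩ : ∃ g, T.deg g = e ∧ R.nf g = t := by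
    rcases ht with rfl | rfl
    · obtain ⟨g, h0, h1⟩ := R.exists_rb e (m := !![0, 1; 1, 1]) (by decide)
      exact ⟨g, h0, by rw [ZoneA_nf, h1]; decide⟩
    · obtain ⟨g, h0, h1⟩ := R.exists_rb e Matrix.det_one
      exact ⟨g, h0, nf_eq_four.2 h1⟩
  have := Tame.le_dens ((cl_nf (R := R) subset_rfl).comp (· = t)) h0 h1
  push_cast at this
  linarith

theorem ee_db {g : W} {n : Vb} (hn : R.Fx g n) (t : Vb) : ee (R.db t g) n = 0 :=
  pair_ee_db hn t

theorem ee_conj {w : W → Vb} (hw : R.Z1 w) {g : W} {n : Vb} (hn : R.Fx g n) (h : W) :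
    ee (w (h * g * h⁻¹)) ((R.rb h).mulVec n) = ee (w g) n := by
  rw [hw.conj, ee_add_left, ee_rb, ee_db (fx_conj hn h), add_zero]

variable (R) in
/-- functionals on cocycles realised by an element -/
def ZoneAG (a : (W → Vb) → Vb) : Prop :=
  ∃ z, T.deg z = 0 ∧ R.rb z = 1 ∧ (∀ h : W → F2, T.IsHom h → h z = 0) ∧ ∀ w, R.Z1 w → w z = a w

theorem ZoneA_zero : R.ZoneAG fun _ => 0 :=
  ⟨1, T.deg_one, Lat.rb_one, fun _ => Tame.hom_one, fun _ h => h.one⟩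

theorem ZoneA_add {a b : (W → Vb) → Vb} (ha : R.ZoneAG a) (hb : R.ZoneAG b) :
    R.ZoneAG fun w => a w + b w := by
  obtain ⟨y, a1, a2, a3, a4⟩ := ha
  obtain ⟨z, b1, b2, b3, b4⟩ := hb
  exact ⟨y * z, by rw [T.deg_mul, a1, b1, add_zero], by rw [Lat.rb_mul, a2, b2, one_mul],
    fun h hh => by rw [hh.2, a3 h hh, b3 h hh, add_zero],
    fun w hw => by rw [hw.2, a2, Matrix.one_mulVec, a4 w hw, b4 w hw]⟩

theorem ZoneA_conj {z : W} (h1 : R.rb z = 1) (h : W) : R.rb (h * z * h⁻¹) = 1 := by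
  rw [Lat.rb_mul, Lat.rb_mul, h1, mul_one, ← Lat.rb_mul, mul_inv_cancel, Lat.rb_one]

theorem ZoneA_deg (z h : W) : T.deg (h * z * h⁻¹) = T.deg z := by
  rw [T.deg_mul, T.deg_mul, T.deg_inv]
  ring

theorem ZoneA_pair {z0 : W} (h0 : T.deg z0 = 0) (h1 : R.rb z0 = 1) (c : F2)
    {m m' : Matrix (Fin 2) (Fin 2) F2} (hm : m.det = 1) (hm' : m'.det = 1) :
    R.ZoneAG fun w => (c • (m + m')).mulVec (w z0) := by
  rcases F2_cases c with rfl | rfl
  · simpa using ZoneA_zero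
  obtain ⟨g, -, rfl⟩ := R.surj m hm
  obtain ⟨g', -, rfl⟩ := R.surj m' hm'
  have a := ZoneA_conj h1 g
  have b := ZoneA_conj h1 g'
  exact ⟨g * z0 * g⁻¹ * (g' * z0 * g'⁻¹), by rw [T.deg_mul, ZoneA_deg, ZoneA_deg, h0, add_zero],
    by rw [Lat.rb_mul, a, b, one_mul],
    fun h hh => by rw [hh.2, Tame.hom_conj hh, Tame.hom_conj hh, F2_add_self], fun w hw => by
      rw [hw.2, a, Matrix.one_mulVec, hw.conj, hw.conj, Lat.db_of_rb a, Lat.db_of_rb b, add_zero,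
        add_zero, one_smul, ← Matrix.add_mulVec]⟩

theorem exists_conj {z0 : W} (h0 : T.deg z0 = 0) (h1 : R.rb z0 = 1) (m : Matrix (Fin 2) (Fin 2) F2) :
    ∃ z, T.deg z = 0 ∧ R.rb z = 1 ∧ (∀ h : W → F2, T.IsHom h → h z = 0) ∧
      ∀ w, R.Z1 w → w z = m.mulVec (w z0) := by
  have key : ∀ m : Matrix (Fin 2) (Fin 2) F2, m = m 0 0 • (!![0, 1; 1, 0] + !![1, 1; 1, 0]) +
      m 0 1 • (1 + !![1, 1; 0, 1]) + m 1 0 • (1 + !![1, 0; 1, 1]) +
      m 1 1 • (!![0, 1; 1, 0] + !![0, 1; 1, 1]) := by decide +kernel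
  rw [key m]
  simp only [Matrix.add_mulVec (_ + _ • _), Matrix.add_mulVec (_ • _)]
  exact ZoneA_add (ZoneA_add (ZoneA_add (ZoneA_pair h0 h1 _ (by decide) (by decide))
    (ZoneA_pair h0 h1 _ (by decide) (by decide))) (ZoneA_pair h0 h1 _ (by decide) (by decide)))
    (ZoneA_pair h0 h1 _ (by decide) (by decide))

theorem exists_zm {B : Finset P} (hB : ∀ u ∈ B, u ∉ R.S) (m : P → Matrix (Fin 2) (Fin 2) F2) :
    ∃ z, T.deg z = 0 ∧ R.rb z = 1 ∧ (∀ h : W → F2, T.IsHom h → h z = 0) ∧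
      ∀ w, R.Z1 w → w z = ∑ u ∈ B, (m u).mulVec (w (T.τ u)) := by
  induction B using Finset.induction_on with
  | empty => exact ZoneA_zero
  | insert u B hu ih =>
    simp only [Finset.sum_insert hu]
    exact ZoneA_add (exists_conj (T.deg_τ u) (Lat.rb_unr (hB u (Finset.mem_insert_self _ _))) _)
      (ih fun v hv => hB v (Finset.mem_insert_of_mem hv))

theorem exists_ne {w : W → Vb} (hw : R.Z1 w) (hc : ¬ R.IsCob w) :
    ∃ z, T.deg z = 0 ∧ R.rb z = 1 ∧ w z ≠ 0 := by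
  by_contra! hK
  obtain ⟨c, c0, c1⟩ := R.surj !![0, 1; 1, 1] (by decide)
  obtain ⟨t, ht⟩ := pair_orth _ (det_rb (R := R) c) (w c) (by
    rw [c1]
    generalize w c = y
    revert y
    decide)
  have h1 := hw.add (Lat.z1_db t)
  have h2 : (w + R.db t) c = 0 := by rw [Pi.add_apply, ht, Lat.db, vb_add_self]
  have h3 : ∀ x d, T.deg x = 0 → T.deg d = 0 → (w + R.db t) x = 0 → R.rb d = R.rb x →
      (w + R.db t) d = 0 := fun x d a b e f => by
    have k : R.rb (x⁻¹ * d) = 1 := by rw [Lat.rb_mul, f, ← Lat.rb_mul, inv_mul_cancel, Lat.rb_one]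
    rw [← mul_inv_cancel_left x d, h1.2, e, Pi.add_apply, hK _ (by
      rw [T.deg_mul, T.deg_inv, a, b, neg_zero, add_zero]) k, Lat.db_of_rb k, add_zero,
      Matrix.mulVec_zero, add_zero]
  refine hc ⟨t, fun g => ?_⟩
  have h4 : R.Free (g * c * g⁻¹) := nf_eq_one.1 (by rw [nf_conj, ZoneA_nf, c1]; decide)
  have h5 : (w + R.db t) (g * c * g⁻¹) = 0 := by
    rcases (ZoneA_fix _ (det_rb _)).2.2.2 h4 with e | e
    · exact h3 c _ c0 (by rw [ZoneA_deg, c0]) h2 (e.trans c1.symm)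
    · exact h3 (c * c) _ (by rw [T.deg_mul, c0, add_zero]) (by rw [ZoneA_deg, c0])
        (by rw [h1.2, h2, Matrix.mulVec_zero, add_zero]) (by rw [e, Lat.rb_mul, c1])
  rw [h1.conj, h2, Matrix.mulVec_zero, zero_add, Lat.db, ← vb_sub, sub_eq_zero] at h5
  have h6 := h4 _ h5
  rwa [Pi.add_apply, ← vb_sub, sub_eq_zero] at h6

theorem spread {w : W → Vb} (hw : R.Z1 w) (hc : ¬ R.IsCob w) (t : Vb) :
    ∃ z, T.deg z = 0 ∧ R.rb z = 1 ∧ (∀ h : W → F2, T.IsHom h → h z = 0) ∧ w z = t := by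
  obtain ⟨z0, h0, h1, h2⟩ := exists_ne hw hc
  have key : ∀ y : Vb, y ≠ 0 → ∀ t, ∃ m : Matrix (Fin 2) (Fin 2) F2, m.mulVec y = t := by
    decide +kernel
  obtain ⟨m, rfl⟩ := key _ h2 t
  obtain ⟨z, a, b, c, d⟩ := exists_conj h0 h1 m
  exact ⟨z, a, b, c, d w hw⟩

theorem not_cob_of_ram {w : W → Vb} {v : P} (hv : v ∉ R.S) (h : w (T.τ v) ≠ 0) : ¬ R.IsCob w :=
  fun ⟨t, ht⟩ => h (by rw [ht, Lat.db_of_rb (Lat.rb_unr hv)])

theorem cob_of_loc {A : Finset P} (hA : R.S ⊆ A) {w : W → Vb} (hw : w ∈ R.Z1U A)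
    (h : ∀ v ∈ A, w (T.σ v) = 0 ∧ w (T.τ v) = 0) : R.IsCob w := by
  by_contra hc
  obtain ⟨v, hv, h1, h2⟩ := Tame.exists_prime (φ := fun g => R.rb g = 1 ∧ w g ≠ 0) (hA R.inf_mem)
    ((cl_z1' hA hw).comp fun p => p.1 = 1 ∧ p.2 ≠ 0)
    (fun g k e => ⟨ZoneA_conj e.1 k, fun e' => e.2 (by
      rw [hw.1.conj, Lat.db_of_rb (ZoneA_conj e.1 k), add_zero] at e'
      exact Lat.rb_mulVec_eq_zero e')⟩) fun e => by
      obtain ⟨g, a, b⟩ := R.exists_rb e Matrix.det_one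
      obtain ⟨z, c, d, f⟩ := exists_ne hw.1 hc
      by_cases k : w g = 0
      · exact ⟨g * z, by rw [T.deg_mul, a, c, add_zero], by rw [Lat.rb_mul, b, d, one_mul], by
          rwa [hw.1.2, k, b, zero_add, Matrix.one_mulVec]⟩
      · exact ⟨g, a, b, k⟩
  refine h2 (eq_zero_of_ee fun n => ?_)
  have hS : v ∉ R.S := fun e => hv (hA e)
  obtain ⟨a, b⟩ := ch_spec hS (n := n) (by rw [Lat.Fx, h1, Matrix.one_mulVec])
  have h3 := br_recip hw.1 a.1 (A := insert v A) (hA.trans (Finset.subset_insert _ _)) fun u hu =>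
    ⟨hw.2 u fun e => hu (Finset.mem_insert_of_mem e),
      a.2 u fun e => hu (Finset.insert_subset_insert _ hA e)⟩
  rwa [Finset.sum_insert hv, Finset.sum_eq_zero fun u hu => br_zero_left (Lat.eq_zero_on_D
    (hw.1.lz u).1 (h u hu).1 (h u hu).2) _, add_zero,
    br_unr_left hS (hw.1.lz v) (a.1.lz v) (hw.2 v hv), b] at h3

theorem z1U_mono {A A' : Finset P} (h : A ⊆ A') : R.Z1U A ⊆ R.Z1U A' :=
  fun _ hw => ⟨hw.1, fun v hv => hw.2 v fun e => hv (h e)⟩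

theorem ZoneA_card {A : Finset P} (hA : R.S ⊆ A) :
    (R.Z1U A).Finite ∧ (R.Z1U A).ncard ≤ 4 * 16 ^ A.card := by
  have h := fam_diff (R.Z1U A) (fun w (v : A) => (w (T.σ v), w (T.τ v))) Set.univ Set.finite_univ
    (fun _ _ => trivial) id (Set.range R.db) (Set.finite_range _) (fun _ _ _ _ _ e => e)
    fun a ha b hb e => by
      obtain ⟨t, ht⟩ := cob_of_loc hA (w := a + b) ⟨ha.1.add hb.1, fun v hv => by
        rw [Pi.add_apply, ha.2 v hv, hb.2 v hv, add_zero]⟩ fun v hv => by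
          have e' := Prod.mk.inj (congrFun e ⟨v, hv⟩)
          rw [Pi.add_apply, Pi.add_apply, e'.1, e'.2]
          exact ⟨vb_add_self _, vb_add_self _⟩
      exact ⟨t, funext fun g => (ht g).symm.trans (vb_sub _ _).symm⟩
  refine ⟨h.1, h.2.trans (Nat.mul_le_mul ?_ (by simp [Set.ncard_univ]))⟩
  rw [← Set.image_univ]
  exact (Set.ncard_image_le Set.finite_univ).trans (by simp [Set.ncard_univ])

theorem z1U_finite (A : Finset P) : (R.Z1U A).Finite :=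
  (ZoneA_card Finset.subset_union_right).1.subset (z1U_mono Finset.subset_union_left)

theorem z1U_card {A : Finset P} (hA : R.S ⊆ A) : (R.Z1U A).ncard ≤ 4 * 16 ^ A.card :=
  (ZoneA_card hA).2

theorem recip {v b : P} (hv : v ∉ R.S) (hb : b ∉ R.S) (hne : v ≠ b) {n' m : Vb}
    (hn : R.Fx (T.σ v) n') (hm : R.Fx (T.σ b) m) :
    ee n' (R.ch b m (T.σ v)) =
      ee (R.ch v n' (T.σ b)) m + ∑ s ∈ R.S, R.br s (R.ch v n') (R.ch b m) := by
  obtain ⟨a1, a2⟩ := ch_spec hv hn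
  obtain ⟨b1, b2⟩ := ch_spec hb hm
  have h := br_recip a1.1 b1.1 (A := insert v (insert b R.S))
    ((Finset.subset_insert _ _).trans (Finset.subset_insert _ _)) fun u hu =>
      ⟨a1.2 u fun e => hu (Finset.insert_subset_insert _ (Finset.subset_insert _ _) e),
        b1.2 u fun e => hu (Finset.mem_insert_of_mem e)⟩
  have k : v ∉ insert b R.S := by simp [hv, hne]
  rwa [Finset.sum_insert k, Finset.sum_insert hb, br_good hv (a1.1.lz v) (b1.1.lz v), b1.2 v k,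
    br_unr_left hb (a1.1.lz b) (b1.1.lz b) (a1.2 b (by simp [hb, hne.symm])), a2, b2, ee_zero_right,
    ee_zero_right, zero_add, mul_zero, add_zero, ← F2_sub, sub_eq_zero] at h

/-- the value of `ch b m` at another prime only depends on the tests and on the colour -/
theorem ee_ch_eq {v b b' : P} (hv : v ∉ R.S) (hb : b ∉ R.S) (hb' : b' ∉ R.S) (hne : v ≠ b)
    (hne' : v ≠ b') {n' m m' : Vb} (hn : R.Fx (T.σ v) n') (hm : R.Fx (T.σ b) m)
    (hm' : R.Fx (T.σ b') m') (ht : ee (R.ch v n' (T.σ b)) m = ee (R.ch v n' (T.σ b')) m')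
    (hc : ∀ s ∈ R.S, R.ch b m (T.σ s) = R.ch b' m' (T.σ s) ∧ R.ch b m (T.τ s) = R.ch b' m' (T.τ s)) :
    ee n' (R.ch b m (T.σ v)) = ee n' (R.ch b' m' (T.σ v)) := by
  rw [recip hv hb hne hn hm, recip hv hb' hne' hn hm', ht, Finset.sum_congr rfl fun s hs =>
    br_eq_of_vals ((ch_mem v n').1.lz s) ((ch_mem v n').1.lz s) ((ch_mem b m).1.lz s)
      ((ch_mem b' m').1.lz s) rfl rfl (hc s hs).1 (hc s hs).2]

theorem Orb.refl (n : H → F2) : Orb n n :=
  ⟨1, Matrix.det_one, (Matrix.one_mulVec _).symm, (Matrix.one_mulVec _).symm⟩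

theorem Orb.symm {n n' : H → F2} (h : Orb n n') : Orb n' n := by
  obtain ⟨m, a, b, c⟩ := h
  refine ⟨m.adjugate, by rw [Matrix.det_adjugate, a, one_pow], ?_, ?_⟩
  · rw [b, Matrix.mulVec_mulVec, Matrix.adjugate_mul, a, one_smul, Matrix.one_mulVec]
  · rw [c, Matrix.mulVec_mulVec, Matrix.adjugate_mul, a, one_smul, Matrix.one_mulVec]

theorem Orb.trans {n n' n'' : H → F2} (h : Orb n n') (h' : Orb n' n'') : Orb n n'' := by
  obtain ⟨m, a, b, c⟩ := h
  obtain ⟨k, a', b', c'⟩ := h'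
  exact ⟨k * m, by rw [Matrix.det_mul, a, a', one_mul], by rw [b', b, Matrix.mulVec_mulVec],
    by rw [c', c, Matrix.mulVec_mulVec]⟩

theorem orb_rb (lam : O) (h : W) (n : H → F2) : Orb n (((R.hat lam).rb h).mulVec n) :=
  ⟨R.rb h, det_rb h, p0_rb h n, p1_rb h n⟩

theorem Nondeg.orb {a b a' b' : H → F2} (h : Nondeg a b) (ha : Orb a a') (hb : Orb b b') :
    Nondeg a' b' := by
  obtain ⟨m, m1, m2⟩ := h
  obtain ⟨k, k1, k2, k3⟩ := ha.symm
  obtain ⟨l, l1, l2, l3⟩ := hb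
  refine ⟨l * m * k, by rw [Matrix.det_mul, Matrix.det_mul, m1, k1, l1, one_mul, one_mul], ?_⟩
  simp only [← Matrix.mulVec_mulVec]
  rwa [← k2, ← k3, l2, l3, ee_mulVec, ee_mulVec, l1, one_mul, one_mul]

theorem Nondeg.exists_bil {a b : H → F2} (h : Nondeg a b) (lam : O) :
    ∃ g, T.deg g = 0 ∧ bil (((R.hat lam).rb g).mulVec a) b = 1 := by
  obtain ⟨m, m1, m2⟩ := h
  obtain ⟨g, g0, rfl⟩ := R.surj m m1
  exact ⟨g, g0, by
    rw [bil, p0_rb, p1_rb, F2_sub, add_comm]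
    exact (F2_cases _).resolve_left m2⟩

theorem Nondeg.p0_ne {a b : H → F2} (h : Nondeg a b) : p0 a ≠ 0 ∨ p0 b ≠ 0 := by
  by_contra! e
  obtain ⟨m, -, m2⟩ := h
  simp [e.1, e.2] at m2

theorem bil_rb (lam : O) (g : W) (a b : H → F2) :
    bil (((R.hat lam).rb g).mulVec a) (((R.hat lam).rb g).mulVec b) = bil a b := by
  simp only [bil, p0_rb, p1_rb, ee_rb]

/-- if no pair of marks is in general position, one of the three linear forms vanishes -/
theorem pattern {ι : Type*} (I1 I2 : Finset ι) (n : ι → H → F2)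
    (h : ∀ a ∈ I1, ∀ b ∈ I2, ¬ Nondeg (n a) (n b)) :
    (∀ a ∈ I1, p0 (n a) = 0) ∨ (∀ b ∈ I2, p0 (n b) = 0) ∨ (∀ b ∈ I2, p1 (n b) = 0) ∨
      ∀ b ∈ I2, p0 (n b) + p1 (n b) = 0 := by
  have key : ∀ x0 x1 : Vb, x0 ≠ 0 → (∀ y0 y1 : Vb, (∀ m : Matrix (Fin 2) (Fin 2) F2, m.det = 1 →
      ee (m.mulVec x0) y1 + ee (m.mulVec x1) y0 = 0) → y1 = 0) ∨
      ∀ y0 y1 : Vb, (∀ m : Matrix (Fin 2) (Fin 2) F2, m.det = 1 →
        ee (m.mulVec x0) y1 + ee (m.mulVec x1) y0 = 0) → y0 + y1 = 0 := by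
    decide +kernel
  refine or_iff_not_imp_left.2 fun k => Or.inr ?_
  push Not at k
  obtain ⟨a, ha, k⟩ := k
  exact (key _ (p1 (n a)) k).imp
    (fun e b hb => e _ _ fun m hm => by_contra fun f => h a ha b hb ⟨m, hm, f⟩)
    fun e b hb => e _ _ fun m hm => by_contra fun f => h a ha b hb ⟨m, hm, f⟩

end Rep

end

end Pool.Agent.Quad
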